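import Pool.Agent.Lib.MP_4e7804_co.N3.Spec

/-!
# Arcs of the refinement of two fans
-/

set_option autoImplicit false

namespace Pool.Agent.Lib.MP_4e7804_co.N3

namespace A2N

theorem n1_empty {ι α : Type*} (U : ι → Set α) : n1 (∅ : Finset ι) U = 0 := by
  unfold n1
  rw [Finset.filter_empty, Finset.card_empty]

theorem n2_empty {ι κ α : Type*} (K : Finset ι) (U : ι → Set α) (V : κ → Set α) :
    n2 K (∅ : Finset κ) U V = 0 := by
  unfold n2
  rw [Finset.product_empty, Finset.filter_empty, Finset.card_empty]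

theorem n3_empty {ι κ μ α : Type*} (K : Finset ι) (L : Finset κ) (U : ι → Set α)
    (V : κ → Set α) (W : μ → Set α) : n3 K L (∅ : Finset μ) U V W = 0 := by
  unfold n3
  rw [Finset.product_empty, Finset.product_empty, Finset.filter_empty, Finset.card_empty]

theorem n1_card {A : Finset Pl} (h : ∀ p ∈ A, (NC A p).Nonempty) : n1 A (NC A) = A.card := by
  classical
  unfold n1
  congr 1
  exact Finset.filter_true_of_mem h

theorem key (h1 : StmtIE) (E : EulD Pl 2) (A : Fin 3 → Finset Pl) (hA : Gen A) (i j : Fin 3) :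
    E.rel (ind (CL (A i) ∩ CL (A j)))
      (1 - ((A i).card + (A j).card : ℤ) + a2 (A i) (A j)) := by
  have h := h1 Pl _ _ _ 2 E Pl ![A i, A j, ∅] ![NC (A i), NC (A j), fun _ => ∅]
    (fun i' => match i' with
      | 0 => fun k _ => ⟨NC_open (A i) k, NC_convex (A i) k⟩
      | 1 => fun k _ => ⟨NC_open (A j) k, NC_convex (A j) k⟩
      | 2 => fun k hk => absurd hk (Finset.notMem_empty k))
    (fun i' => match i' with
      | 0 => fun k hk l hl hkl => Set.disjoint_left.2 fun w h1 h2 =>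
          hkl (NC_unique (A := A i) hk hl h1 h2)
      | 1 => fun k hk l hl hkl => Set.disjoint_left.2 fun w h1 h2 =>
          hkl (NC_unique (A := A j) hk hl h1 h2)
      | 2 => fun k hk => absurd hk (Finset.notMem_empty k))
  have hs : {x : Pl | ∀ i', ∀ k ∈ (![A i, A j, ∅] : Fin 3 → Finset Pl) i',
      x ∉ (![NC (A i), NC (A j), fun _ => ∅] : Fin 3 → Pl → Set Pl) i' k} =
        CL (A i) ∩ CL (A j) := by
    ext x
    constructor
    · intro hx
      exact ⟨fun k hk => hx 0 k hk, fun k hk => hx 1 k hk⟩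
    · rintro ⟨ha, hb⟩ i'
      match i' with
      | 0 => exact ha
      | 1 => exact hb
      | 2 => exact fun k hk => absurd hk (Finset.notMem_empty k)
  rw [hs] at h
  have e1 : n1 (A i) (NC (A i)) = (A i).card := n1_card (hA.vert i)
  have e2 : n1 (A j) (NC (A j)) = (A j).card := n1_card (hA.vert j)
  have e : ((-1 : ℤ) ^ 2 * (1 -
      (n1 ((![A i, A j, ∅] : Fin 3 → Finset Pl) 0)
          ((![NC (A i), NC (A j), fun _ => ∅] : Fin 3 → Pl → Set Pl) 0) +
        n1 ((![A i, A j, ∅] : Fin 3 → Finset Pl) 1)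
          ((![NC (A i), NC (A j), fun _ => ∅] : Fin 3 → Pl → Set Pl) 1) +
        n1 ((![A i, A j, ∅] : Fin 3 → Finset Pl) 2)
          ((![NC (A i), NC (A j), fun _ => ∅] : Fin 3 → Pl → Set Pl) 2)) +
      (n2 ((![A i, A j, ∅] : Fin 3 → Finset Pl) 0) ((![A i, A j, ∅] : Fin 3 → Finset Pl) 1)
          ((![NC (A i), NC (A j), fun _ => ∅] : Fin 3 → Pl → Set Pl) 0)
          ((![NC (A i), NC (A j), fun _ => ∅] : Fin 3 → Pl → Set Pl) 1) +
        n2 ((![A i, A j, ∅] : Fin 3 → Finset Pl) 0) ((![A i, A j, ∅] : Fin 3 → Finset Pl) 2)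
          ((![NC (A i), NC (A j), fun _ => ∅] : Fin 3 → Pl → Set Pl) 0)
          ((![NC (A i), NC (A j), fun _ => ∅] : Fin 3 → Pl → Set Pl) 2) +
        n2 ((![A i, A j, ∅] : Fin 3 → Finset Pl) 1) ((![A i, A j, ∅] : Fin 3 → Finset Pl) 2)
          ((![NC (A i), NC (A j), fun _ => ∅] : Fin 3 → Pl → Set Pl) 1)
          ((![NC (A i), NC (A j), fun _ => ∅] : Fin 3 → Pl → Set Pl) 2)) -
      n3 ((![A i, A j, ∅] : Fin 3 → Finset Pl) 0) ((![A i, A j, ∅] : Fin 3 → Finset Pl) 1)
          ((![A i, A j, ∅] : Fin 3 → Finset Pl) 2)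
          ((![NC (A i), NC (A j), fun _ => ∅] : Fin 3 → Pl → Set Pl) 0)
          ((![NC (A i), NC (A j), fun _ => ∅] : Fin 3 → Pl → Set Pl) 1)
          ((![NC (A i), NC (A j), fun _ => ∅] : Fin 3 → Pl → Set Pl) 2))) =
      1 - ((A i).card + (A j).card : ℤ) + a2 (A i) (A j) := by
    change ((-1 : ℤ) ^ 2 * (1 -
      (n1 (A i) (NC (A i)) + n1 (A j) (NC (A j)) + n1 (∅ : Finset Pl) (fun _ => (∅ : Set Pl))) +
      (a2 (A i) (A j) + n2 (A i) (∅ : Finset Pl) (NC (A i)) (fun _ => (∅ : Set Pl)) +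
        n2 (A j) (∅ : Finset Pl) (NC (A j)) (fun _ => (∅ : Set Pl))) -
      n3 (A i) (A j) (∅ : Finset Pl) (NC (A i)) (NC (A j)) (fun _ => (∅ : Set Pl)))) = _
    rw [e1, e2, n1_empty, n2_empty, n2_empty, n3_empty]
    push_cast
    ring
  rw [e] at h
  exact h

end A2N

open A2N in
theorem tA2 (h1 : StmtIE) (h2 : StmtCLdef) : StmtA2 := by
  intro E A hA i j hij
  obtain ⟨c1, c2, c3, -⟩ := h2 A hA
  have h := key h1 E A hA i j
  by_cases hi : (A i).card = 1
  · rw [c1 i hi, Set.empty_inter, EulD.ind_zero_of_empty rfl] at h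
    have h3 := E.uniq _ _ _ h E.zero
    rw [hi] at h3
    by_cases hj : (A j).card = 1
    · rw [if_pos ⟨hi, hj⟩]
      rw [hj] at h3
      push_cast at h3
      omega
    · rw [if_neg fun h => hj h.2, hi]
      unfold nz
      rw [if_pos rfl, if_neg hj]
      push_cast at h3
      omega
  · rw [if_neg fun h => hi h.1]
    unfold nz
    rw [if_neg hi]
    by_cases hj : (A j).card = 1
    · rw [if_pos hj]
      rw [c1 j hj, Set.inter_empty, EulD.ind_zero_of_empty rfl] at h
      have h3 := E.uniq _ _ _ h E.zero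
      rw [hj] at h3
      push_cast at h3
      omega
    · rw [if_neg hj]
      have hs : CL (A i) ∩ CL (A j) = {0} := by
        ext w
        rw [Set.mem_singleton_iff]
        constructor
        · rintro ⟨ha, hb⟩
          exact c3 i j hij w ha hb
        · rintro rfl
          exact ⟨c2 i hi, c2 j hj⟩
      rw [hs] at h
      have h3 := E.uniq _ _ _ h (E.pt 0)
      omega

end Pool.Agent.Lib.MP_4e7804_co.N3
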