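import Pool.Agent.Lib.MP_4e7804_co.N3.Spec

/-!
# Arcs of the refinement of three fans
-/

set_option autoImplicit false

namespace Pool.Agent.Lib.MP_4e7804_co.N3

namespace A3N

theorem n1_eq {A : Finset Pl} (h : ∀ p ∈ A, (NC A p).Nonempty) : n1 A (NC A) = A.card := by
  classical
  unfold n1
  congr 1
  exact Finset.filter_true_of_mem h

end A3N

theorem tA3 (h1 : StmtIE) (h2 : StmtCLdef) (h3 : StmtA2) : StmtA3 := by
  intro E A hA
  obtain ⟨c1, c2, c3, -⟩ := h2 A hA
  have hE := h1 Pl inferInstance inferInstance inferInstance 2 E Pl A (fun i => NC (A i))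
    (fun i k _ => ⟨NC_open _ _, NC_convex _ _⟩)
    (fun i k hk l hl hkl => Set.disjoint_left.2 fun w hw hw' => hkl (NC_unique hk hl hw hw'))
  have e0 := A3N.n1_eq (hA.vert 0)
  have e1 := A3N.n1_eq (hA.vert 1)
  have e2 := A3N.n1_eq (hA.vert 2)
  have a01 := h3 E A hA 0 1 (by decide)
  have a02 := h3 E A hA 0 2 (by decide)
  have a12 := h3 E A hA 1 2 (by decide)
  unfold a2 at a01 a02 a12
  rw [e0, e1, e2, a01, a02, a12] at hE
  have hval : E.rel (ind {x : Pl | ∀ i, ∀ k ∈ A i, x ∉ NC (A i) k})
      (if (A 0).card = 1 ∨ (A 1).card = 1 ∨ (A 2).card = 1 then 0 else 1) := by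
    split_ifs with h
    · have hX : {x : Pl | ∀ i, ∀ k ∈ A i, x ∉ NC (A i) k} = ∅ := by
        rw [Set.eq_empty_iff_forall_notMem]
        intro x hx
        have h4 : ∀ i, (A i).card ≠ 1 := by
          intro i hi
          have h5 : x ∈ CL (A i) := hx i
          rw [c1 i hi] at h5
          exact h5
        rcases h with h | h | h
        · exact h4 0 h
        · exact h4 1 h
        · exact h4 2 h
      rw [EulD.ind_zero_of_empty hX]
      exact E.zero
    · push Not at h
      have hX : {x : Pl | ∀ i, ∀ k ∈ A i, x ∉ NC (A i) k} = {0} := by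
        ext x
        rw [Set.mem_singleton_iff]
        constructor
        · intro hx
          exact c3 0 1 (by decide) x (hx 0) (hx 1)
        · rintro rfl i
          refine c2 i ?_
          fin_cases i
          · exact h.1
          · exact h.2.1
          · exact h.2.2
      rw [hX]
      exact E.pt 0
  have hu := E.uniq _ _ _ hE hval
  change n3 (A 0) (A 1) (A 2) (NC (A 0)) (NC (A 1)) (NC (A 2)) = _
  generalize n3 (A 0) (A 1) (A 2) (NC (A 0)) (NC (A 1)) (NC (A 2)) = m at hu ⊢
  unfold a123
  simp only [nz] at hu ⊢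
  split_ifs at hu ⊢ <;> push_cast at hu <;> omega

end Pool.Agent.Lib.MP_4e7804_co.N3
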