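import Pool.Agent.Lib.MP_4e7804_co.N3.Spec2

/-!
# Relations of three elements
-/

set_option autoImplicit false

namespace Pool.Agent.Lib.MP_4e7804_co.N3.Alg3N

open Polynomial

/-- a combination of `P` and `Q` which is a nonzero constant -/
theorem exists_comb {R : Type*} [CommRing R] [IsDomain R] [UniqueFactorizationMonoid R]
    {P Q : R[X]} (hP : Irreducible P) (hd : P.natDegree ≠ 0) (hPQ : ¬ P ∣ Q) :
    ∃ (U V : R[X]) (r : R), r ≠ 0 ∧ U * P + V * Q = C r := by
  classical
  have hprim : P.IsPrimitive := hP.isPrimitive hd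
  have hirr : Irreducible (P.map (algebraMap R (FractionRing R))) :=
    hprim.irreducible_iff_irreducible_map_fraction_map.1 hP
  have hnd : ¬ P.map (algebraMap R (FractionRing R)) ∣ Q.map (algebraMap R (FractionRing R)) :=
    fun h => hPQ (hprim.dvd_of_fraction_map_dvd_fraction_map h)
  obtain ⟨u, v, huv⟩ := (hirr.coprime_iff_not_dvd).2 hnd
  obtain ⟨b, hb, hb'⟩ := IsLocalization.integerNormalization_spec (nonZeroDivisors R) u
  obtain ⟨c, hc, hc'⟩ := IsLocalization.integerNormalization_spec (nonZeroDivisors R) v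
  set U := IsLocalization.integerNormalization (nonZeroDivisors R) u
  set V := IsLocalization.integerNormalization (nonZeroDivisors R) v
  refine ⟨C c * U, C b * V, b * c,
    mul_ne_zero (nonZeroDivisors.ne_zero hb) (nonZeroDivisors.ne_zero hc), ?_⟩
  have hinj : Function.Injective (Polynomial.map (algebraMap R (FractionRing R))) :=
    map_injective _ (IsFractionRing.injective R (FractionRing R))
  apply hinj
  have e1 : ∀ (a : R) (p : (FractionRing R)[X]), a • p = C (algebraMap R (FractionRing R) a) * p := by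
    intro a p
    rw [← algebraMap_smul (FractionRing R) a p, smul_eq_C_mul]
  rw [Polynomial.map_add, Polynomial.map_mul, Polynomial.map_mul, Polynomial.map_mul,
    Polynomial.map_mul, map_C, map_C, map_C, hb', hc', e1, e1, map_mul, C_mul]
  linear_combination (C (algebraMap R (FractionRing R) b) * C (algebraMap R (FractionRing R) c)) *
    huv

theorem zero_case {Ω : Type} [Field Ω] [Algebra ℂ Ω] (x : Fin 3 → Ω)
    (F : MvPolynomial (Fin 3) ℂ) (hF : Irreducible F) (hx : MvPolynomial.aeval x F = 0)
    (hd : F.degreeOf 0 ≠ 0)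
    (h : ∀ G : MvPolynomial (Fin 3) ℂ, G.degreeOf 0 = 0 → MvPolynomial.aeval x G = 0 → G = 0)
    (G : MvPolynomial (Fin 3) ℂ) (hG : MvPolynomial.aeval x G = 0) : F ∣ G := by
  by_contra hFG
  set φ := MvPolynomial.finSuccEquiv ℂ 2 with hφ
  have hP : Irreducible (φ F) := (MulEquiv.irreducible_iff φ.toMulEquiv).2 hF
  have hPd : (φ F).natDegree ≠ 0 := by
    rw [hφ, MvPolynomial.natDegree_finSuccEquiv]
    exact hd
  have hPQ : ¬ φ F ∣ φ G := fun h' => hFG ((map_dvd_iff φ).1 h')
  obtain ⟨U, V, r, hr, hUV⟩ := exists_comb hP hPd hPQ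
  have h1 : φ.symm (C r) = φ.symm U * F + φ.symm V * G := by
    rw [← hUV, map_add, map_mul, map_mul, φ.symm_apply_apply, φ.symm_apply_apply]
  have h2 : MvPolynomial.aeval x (φ.symm (C r)) = 0 := by
    rw [h1, map_add, map_mul, map_mul, hx, hG, mul_zero, mul_zero, add_zero]
  have h3 : (φ.symm (C r)).degreeOf 0 = 0 := by
    rw [← MvPolynomial.natDegree_finSuccEquiv, ← hφ, φ.apply_symm_apply, natDegree_C]
  have h4 := h _ h3 h2
  have h5 : C r = 0 := by
    rw [← φ.apply_symm_apply (C r), h4, map_zero]
  exact hr (C_eq_zero.1 h5)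

end Pool.Agent.Lib.MP_4e7804_co.N3.Alg3N

namespace Pool.Agent.Lib.MP_4e7804_co.N3

open MvPolynomial Alg3N

theorem tAlg3 : StmtAlg3 := by
  intro Ω _ _ x F a hF hx hd h G
  constructor
  · intro hG
    set e : Equiv.Perm (Fin 3) := Equiv.swap 0 a with he
    have hee : ∀ i, e (e i) = i := fun i => Equiv.swap_apply_self 0 a i
    have h0 : e a = 0 := Equiv.swap_apply_right 0 a
    have ha : e 0 = a := Equiv.swap_apply_left 0 a
    have hcomp : (x ∘ e) ∘ e = x := by
      funext i
      exact congrArg x (hee i)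
    have key : rename e F ∣ rename e G := by
      refine zero_case (x ∘ e) (rename e F) ?_ ?_ ?_ ?_ (rename e G) ?_
      · exact (MulEquiv.irreducible_iff (renameEquiv ℂ e).toMulEquiv).2 hF
      · rw [aeval_rename, hcomp, hx]
      · have h1 := degreeOf_rename_of_injective (p := F) e.injective a
        rw [h0] at h1
        rw [h1]
        exact hd
      · intro H hH hH'
        have h1 := degreeOf_rename_of_injective (p := H) e.injective 0
        rw [ha, hH] at h1
        have h2 : aeval x (rename e H) = 0 := by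
          rw [aeval_rename, hH']
        exact (rename_injective e e.injective) ((h _ h1 h2).trans (map_zero _).symm)
      · rw [aeval_rename, hcomp, hG]
    exact (map_dvd_iff (renameEquiv ℂ e)).1 key
  · rintro ⟨H, rfl⟩
    rw [map_mul, hx, zero_mul]

end Pool.Agent.Lib.MP_4e7804_co.N3
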