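import Pool.Agent.Lib.MP_4e7804_co.N3.Spec2

/-! MP_4e7804_co, V_3, module Aut: automorphisms of the complex numbers. -/

set_option autoImplicit false

open Cardinal

namespace Pool.Agent.Lib.MP_4e7804_co.N3.AutN

/-- the isomorphism of algebraically closed fields given by transcendence bases, with its values -/
theorem exists_equiv {R K L ι κ : Type*} [CommRing R] [Field K] [Algebra R K] [Field L]
    [Algebra R L] [IsAlgClosed K] [IsAlgClosed L] (v : ι → K) (w : κ → L) (e : ι ≃ κ)
    (hv : IsTranscendenceBasis R v) (hw : IsTranscendenceBasis R w) :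
    ∃ σ : K ≃+* L, ∀ i, σ (v i) = w (e i) := by
  letI := IsAlgClosed.isAlgClosure_of_transcendence_basis v hv
  letI := IsAlgClosed.isAlgClosure_of_transcendence_basis w hw
  let e' : Algebra.adjoin R (Set.range v) ≃+* Algebra.adjoin R (Set.range w) :=
    (hv.1.aevalEquiv.symm.trans ((MvPolynomial.renameEquiv R e).trans
      hw.1.aevalEquiv)).toRingEquiv
  refine ⟨IsAlgClosure.equivOfEquiv K L e', fun i => ?_⟩
  have h1 : v i = algebraMap (Algebra.adjoin R (Set.range v)) K
      (hv.1.aevalEquiv (MvPolynomial.X i)) := by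
    rw [AlgebraicIndependent.algebraMap_aevalEquiv, MvPolynomial.aeval_X]
  have h2 : w (e i) = algebraMap (Algebra.adjoin R (Set.range w)) L
      (hw.1.aevalEquiv (MvPolynomial.X (e i))) := by
    rw [AlgebraicIndependent.algebraMap_aevalEquiv, MvPolynomial.aeval_X]
  rw [h1, IsAlgClosure.equivOfEquiv_algebraMap, h2]
  congr 1
  simp [e']

theorem main (ι : Type) (_ : Fintype ι) (x y : ι → ℂ) (hx : AlgebraicIndependent ℚ x)
    (hy : AlgebraicIndependent ℚ y) : ∃ σ : ℂ ≃+* ℂ, ∀ i, σ (x i) = y i := by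
  obtain ⟨s, hxs, hs⟩ := exists_isTranscendenceBasis_superset hx.to_subtype_range
  obtain ⟨t, hyt, ht⟩ := exists_isTranscendenceBasis_superset hy.to_subtype_range
  have hC : ℵ₀ < #ℂ := by
    rw [Cardinal.mk_complex]
    exact Cardinal.aleph0_lt_continuum
  have hQ : #ℚ ≤ ℵ₀ := Cardinal.mk_le_aleph0
  have cs : #ℂ = #s :=
    IsAlgClosed.cardinal_eq_cardinal_transcendence_basis_of_aleph0_lt' _ hs hQ hC
  have ct : #ℂ = #t :=
    IsAlgClosed.cardinal_eq_cardinal_transcendence_basis_of_aleph0_lt' _ ht hQ hC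
  let xs : ι → s := fun i => ⟨x i, hxs (Set.mem_range_self i)⟩
  let yt : ι → t := fun i => ⟨y i, hyt (Set.mem_range_self i)⟩
  have hxsi : Function.Injective xs := fun i j h => hx.injective (congrArg Subtype.val h)
  have hyti : Function.Injective yt := fun i j h => hy.injective (congrArg Subtype.val h)
  let f : Set.range xs ↪ t := (Equiv.ofInjective xs hxsi).symm.toEmbedding.trans ⟨yt, hyti⟩
  have hlt : #(Set.range xs) < #s := by
    rw [← cs]
    exact (Cardinal.lt_aleph0_of_finite _).trans hC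
  obtain ⟨g, hg⟩ := Cardinal.extend_function_of_lt f hlt (Cardinal.eq.1 (cs.symm.trans ct))
  obtain ⟨σ, hσ⟩ := exists_equiv _ _ g hs ht
  refine ⟨σ, fun i => ?_⟩
  have h1 := hσ (xs i)
  have h2 := hg ⟨xs i, Set.mem_range_self i⟩
  have h3 : f ⟨xs i, Set.mem_range_self i⟩ = yt i := by
    simp only [f, Function.Embedding.trans_apply, Equiv.coe_toEmbedding,
      Function.Embedding.coeFn_mk]
    congr 1
    rw [Equiv.symm_apply_eq]
    rfl
  rw [h2, h3] at h1
  exact h1

end Pool.Agent.Lib.MP_4e7804_co.N3.AutN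

namespace Pool.Agent.Lib.MP_4e7804_co.N3

theorem tAut : StmtAut := fun ι hι x y hx hy => AutN.main ι hι x y hx hy

end Pool.Agent.Lib.MP_4e7804_co.N3
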