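import Pool.Agent.Lib.MP_4e7804_co.N3.Spec2

/-!
# n = 3: rational points outside finitely many planes
-/

set_option autoImplicit false

namespace Pool.Agent.Lib.MP_4e7804_co.N3

namespace AvoidN

theorem open_ne (ν : Sp) : IsOpen {z : Sp | ν ⬝ᵥ z ≠ 0} := by
  have hc : Continuous fun z : Sp => ν ⬝ᵥ z := by
    unfold dotProduct
    fun_prop
  exact isOpen_ne_fun hc continuous_const

theorem dense_ne (ν : Sp) (hν : ν ≠ 0) : Dense {z : Sp | ν ⬝ᵥ z ≠ 0} := by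
  rw [dense_iff_inter_open]
  intro U hU hne
  obtain ⟨z, hz⟩ := hne
  have hd : ν ⬝ᵥ ν ≠ 0 := fun h => hν (dotProduct_self_eq_zero.1 h)
  have hc : Continuous fun t : ℝ => z + t • ν := by fun_prop
  have ho : IsOpen ((fun t : ℝ => z + t • ν) ⁻¹' U) := hU.preimage hc
  have h0 : (0 : ℝ) ∈ (fun t : ℝ => z + t • ν) ⁻¹' U := by simpa using hz
  obtain ⟨t, ht, ht'⟩ := (dense_compl_singleton (-(ν ⬝ᵥ z) / (ν ⬝ᵥ ν))).inter_open_nonempty _ ho
    ⟨0, h0⟩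
  refine ⟨z + t • ν, ht, ?_⟩
  show ν ⬝ᵥ (z + t • ν) ≠ 0
  rw [dotProduct_add, dotProduct_smul, smul_eq_mul]
  intro h
  apply ht'
  rw [Set.mem_singleton_iff, eq_div_iff hd]
  linarith

theorem dense_rat : DenseRange (fun z : Fin 3 → ℚ => (fun i => (z i : ℝ) : Sp)) := by
  rw [DenseRange, dense_iff_inter_open]
  intro U hU hne
  obtain ⟨z, hz⟩ := hne
  obtain ⟨e, he, hb⟩ := Metric.isOpen_iff.1 hU z hz
  have h : ∀ i, ∃ r : ℚ, |(r : ℝ) - z i| < e := by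
    intro i
    obtain ⟨r, hr1, hr2⟩ := exists_rat_btwn (show z i - e < z i + e by linarith)
    exact ⟨r, abs_lt.2 ⟨by linarith, by linarith⟩⟩
  choose r hr using h
  refine ⟨fun i => (r i : ℝ), hb ?_, r, rfl⟩
  rw [Metric.mem_ball, dist_pi_lt_iff he]
  intro i
  rw [Real.dist_eq]
  exact hr i

end AvoidN

open AvoidN in
theorem tAvoid : StmtAvoid := by
  intro U hU hne K ν hν
  have h1 : Dense (⋂ κ, {z : Sp | ν κ ⬝ᵥ z ≠ 0}) :=
    dense_iInter_of_isOpen (fun κ => open_ne (ν κ)) (fun κ => dense_ne (ν κ) (hν κ))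
  have h2 : IsOpen (⋂ κ, {z : Sp | ν κ ⬝ᵥ z ≠ 0}) :=
    isOpen_iInter_of_finite fun κ => open_ne (ν κ)
  have h3 : (U ∩ ⋂ κ, {z : Sp | ν κ ⬝ᵥ z ≠ 0}).Nonempty := h1.inter_open_nonempty U hU hne
  obtain ⟨x, hx, z, rfl⟩ := dense_rat.inter_open_nonempty _ (hU.inter h2) h3
  refine ⟨z, hx.1, fun κ => ?_⟩
  exact Set.mem_iInter.1 hx.2 κ

end Pool.Agent.Lib.MP_4e7804_co.N3
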