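import Pool.Agent.Lib.MP_4e7804_co.N3.Spec

/-!
# Corner loci in general position
-/

set_option autoImplicit false

namespace Pool.Agent.Lib.MP_4e7804_co.N3.CLdefN

/-- Cramer's rule in the plane -/
theorem cramer {a b w : Pl} (h : cr a b ≠ 0) (h1 : dt a w = 0) (h2 : dt b w = 0) : w = 0 := by
  unfold cr at h
  unfold dt at h1 h2
  have e1 : (a.1 * b.2 - a.2 * b.1) * w.1 = 0 := by
    linear_combination b.2 * h1 - a.2 * h2
  have e2 : (a.1 * b.2 - a.2 * b.1) * w.2 = 0 := by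
    linear_combination a.1 * h2 - b.1 * h1
  have f1 : w.1 = 0 := (mul_eq_zero.1 e1).resolve_left h
  have f2 : w.2 = 0 := (mul_eq_zero.1 e2).resolve_left h
  exact Prod.ext f1 f2

theorem one {A : Finset Pl} (h : A.card = 1) : CL A = ∅ := by
  obtain ⟨p, rfl⟩ := Finset.card_eq_one.1 h
  rw [Set.eq_empty_iff_forall_notMem]
  intro w hw
  refine hw p (Finset.mem_singleton_self p) ?_
  intro q hq hqp
  exact absurd (Finset.mem_singleton.1 hq) hqp

theorem two {A : Finset Pl} (hA : A.Nonempty) (h : A.card ≠ 1) : (0 : Pl) ∈ CL A := by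
  have h1 : 1 < A.card := by
    have := hA.card_pos
    omega
  obtain ⟨p, hp, q, hq, hpq⟩ := Finset.one_lt_card.1 h1
  rw [CL_iff hA]
  exact ⟨p, hp, q, hq, hpq, by rw [dt_zero, psi_zero hA], by rw [dt_zero, psi_zero hA]⟩

end Pool.Agent.Lib.MP_4e7804_co.N3.CLdefN

namespace Pool.Agent.Lib.MP_4e7804_co.N3

open CLdefN

theorem tCLdef : StmtCLdef := by
  intro A hA
  refine ⟨fun i hi => one hi, fun i hi => two (hA.ne i) hi, ?_, ?_⟩
  · intro i j hij w hi hj
    obtain ⟨p, hp, p', hp', hpp, h1, h2⟩ := (CL_iff (hA.ne i)).1 hi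
    obtain ⟨q, hq, q', hq', hqq, h3, h4⟩ := (CL_iff (hA.ne j)).1 hj
    refine cramer (hA.g2 i j hij p hp p' hp' hpp q hq q' hq' hqq) ?_ ?_
    · rw [sub_dt, h1, h2, sub_self]
    · rw [sub_dt, h3, h4, sub_self]
  · intro i j hij w hi hw q hq hqw
    obtain ⟨p, hp, p', hp', hpp, h1, h2⟩ := (CL_iff (hA.ne i)).1 hi
    refine hw (cramer (hA.g3 i j hij p hp p' hp' hpp q hq) ?_ hqw)
    rw [sub_dt, h1, h2, sub_self]

end Pool.Agent.Lib.MP_4e7804_co.N3
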