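import Pool.Agent.Lib.MP_4e7804_co.N3.Spec

/-!
# Cells: nonempty cells
-/

set_option autoImplicit false

open Filter Topology

namespace Pool.Agent.Lib.MP_4e7804_co.N3

namespace CellsN

theorem solve {p q : Pl} (h : cr p q ≠ 0) (a b : ℝ) : ∃ d : Pl, dt p d = a ∧ dt q d = b := by
  refine ⟨((a * q.2 - b * p.2) / cr p q, (b * p.1 - a * q.1) / cr p q), ?_, ?_⟩
  · simp only [dt]
    rw [mul_div_assoc', mul_div_assoc', ← add_div, div_eq_iff h]
    simp only [cr]
    ring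
  · simp only [dt]
    rw [mul_div_assoc', mul_div_assoc', ← add_div, div_eq_iff h]
    simp only [cr]
    ring

theorem ev {A : Finset Pl} {p w : Pl} (hw : w ∈ NC A p) (d : Pl) :
    ∀ᶠ e in 𝓝[>] (0 : ℝ), w + e • d ∈ NC A p := by
  have hc : Continuous fun e : ℝ => w + e • d := by fun_prop
  have h0 : (fun e : ℝ => w + e • d) 0 ∈ NC A p := by simpa using hw
  exact (hc.continuousAt.eventually ((NC_open A p).mem_nhds h0)).filter_mono nhdsWithin_le_nhds

theorem inU {A : Finset Pl} {p w d : Pl} (hp : p ∈ A) (hw : w ∈ NC A p) (hd : 0 < dt p d) {e : ℝ}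
    (he : 0 < e) (h : w + e • d ∈ NC A p) : (w + e • d, w) ∈ cU A p := by
  refine ⟨hw, ?_⟩
  show dt p w < psi A (w + e • d)
  rw [psi_eq hp h, dt_add, dt_smul]
  have := mul_pos he hd
  linarith

theorem inP {A : Finset Pl} {p w d : Pl} (hp : p ∈ A) (hw : w ∈ NC A p) (hd : dt p d < 0) {e : ℝ}
    (he : 0 < e) (h : w + e • d ∈ NC A p) : (w + e • d, w) ∈ cP A p := by
  refine ⟨h, ?_⟩
  show dt p (w + e • d) < psi A w
  rw [psi_eq hp hw, dt_add, dt_smul]
  have := mul_pos_of_neg_of_neg (neg_lt_zero.mpr he) hd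
  linarith

theorem other (i : Fin 3) : ∃ j : Fin 3, i ≠ j := by
  fin_cases i
  · exact ⟨1, by decide⟩
  · exact ⟨0, by decide⟩
  · exact ⟨0, by decide⟩

end CellsN

open CellsN in
theorem tCells : StmtCells := by
  intro A hA
  refine ⟨?_, ?_⟩
  · intro i p hp
    obtain ⟨j, hij⟩ := other i
    obtain ⟨q, hq⟩ := hA.ne j
    obtain ⟨d, hd, -⟩ := solve (hA.g1 i j hij p hp q hq) 1 1
    obtain ⟨w, hw⟩ := hA.vert i p hp
    obtain ⟨e, h1, he⟩ := ((ev hw d).and self_mem_nhdsWithin).exists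
    have h := inU hp hw (by rw [hd]; exact one_pos) he h1
    exact ⟨⟨_, h⟩, ⟨(w + e • d, w).swap, (swap_cP (A i) p _).mpr h⟩⟩
  · rintro i j hij p hp q hq ⟨w, hwp, hwq⟩
    have hc := hA.g1 i j hij p hp q hq
    constructor
    · obtain ⟨d, hd, hd'⟩ := solve hc 1 1
      obtain ⟨e, ⟨h1, h2⟩, he⟩ := (((ev hwp d).and (ev hwq d)).and self_mem_nhdsWithin).exists
      exact ⟨_, inU hp hwp (by rw [hd]; exact one_pos) he h1,
        inU hq hwq (by rw [hd']; exact one_pos) he h2⟩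
    · obtain ⟨d, hd, hd'⟩ := solve hc 1 (-1)
      obtain ⟨e, ⟨h1, h2⟩, he⟩ := (((ev hwp d).and (ev hwq d)).and self_mem_nhdsWithin).exists
      exact ⟨_, inU hp hwp (by rw [hd]; exact one_pos) he h1,
        inP hq hwq (by rw [hd']; norm_num) he h2⟩

end Pool.Agent.Lib.MP_4e7804_co.N3
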