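import Pool.Agent.Lib.MP_4e7804_co.N3.Spec2

/-!
# n = 3: clearing denominators
-/

set_option autoImplicit false

namespace Pool.Agent.Lib.MP_4e7804_co.N3.ClrN

open MvPolynomial

lemma exists_bound (S : Finset (Fin 2 → ℤ)) : ∃ M : ℕ, ∀ p ∈ S, ∀ k, 0 ≤ p k + M := by
  classical
  refine ⟨S.sup fun p => (p 0).natAbs + (p 1).natAbs, fun p hp k => ?_⟩
  have h := Finset.le_sup (f := fun p : Fin 2 → ℤ => (p 0).natAbs + (p 1).natAbs) hp
  have h2 : ((p 0).natAbs : ℤ) + (p 1).natAbs ≤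
      ((S.sup fun p => (p 0).natAbs + (p 1).natAbs : ℕ) : ℤ) := by exact_mod_cast h
  fin_cases k
  · show 0 ≤ p 0 + _
    omega
  · show 0 ≤ p 1 + _
    omega

lemma zpow_clear {L : Type} [Field L] {x : L} (hx : x ≠ 0) {a : ℤ} {M : ℕ} (h : 0 ≤ a + M) :
    x ^ M * x ^ a = x ^ (a + M).toNat := by
  rw [← zpow_natCast, ← zpow_natCast, Int.toNat_of_nonneg h, ← zpow_add₀ hx, add_comm]

lemma ev_clear (S : Finset (Fin 2 → ℤ)) (c : (Fin 2 → ℤ) → ℂ) :
    ∃ (M : ℕ) (H : MvPolynomial (Fin 2) ℂ), ∀ (L : Type) (_ : Field L) (_ : Algebra ℂ L)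
      (t : Fin 2 → L), (∀ k, t k ≠ 0) → (t 0 * t 1) ^ M * evL S c t = aeval t H := by
  obtain ⟨M, hM⟩ := exists_bound S
  refine ⟨M, ∑ p ∈ S, C (c p) * (X 0 ^ (p 0 + M).toNat * X 1 ^ (p 1 + M).toNat),
    fun L _ _ t ht => ?_⟩
  rw [evL, Finset.mul_sum, map_sum]
  refine Finset.sum_congr rfl fun p hp => ?_
  rw [map_mul, map_mul, map_pow, map_pow, aeval_X, aeval_X, ← zpow_clear (ht 0) (hM p hp 0),
    ← zpow_clear (ht 1) (hM p hp 1), aeval_C, mul_pow]
  ring

lemma clear (S : Fin 3 → Finset (Fin 2 → ℤ)) (c : Fin 3 → (Fin 2 → ℤ) → ℂ)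
    (G : MvPolynomial (Fin 3) ℂ) :
    ∃ (N : ℕ) (H : MvPolynomial (Fin 2) ℂ), ∀ (L : Type) (_ : Field L) (_ : Algebra ℂ L)
      (t : Fin 2 → L), (∀ k, t k ≠ 0) →
        (t 0 * t 1) ^ N * aeval (fun i => evL (S i) (c i) t) G = aeval t H := by
  induction G using MvPolynomial.induction_on with
  | C a =>
    refine ⟨0, C a, fun L _ _ t _ => ?_⟩
    rw [pow_zero, one_mul, aeval_C, aeval_C]
  | add p q hp hq =>
    obtain ⟨N1, H1, h1⟩ := hp
    obtain ⟨N2, H2, h2⟩ := hq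
    refine ⟨N1 + N2, (X 0 * X 1) ^ N2 * H1 + (X 0 * X 1) ^ N1 * H2, fun L iF iA t ht => ?_⟩
    have e1 := h1 L iF iA t ht
    have e2 := h2 L iF iA t ht
    rw [map_add, map_add, map_mul, map_mul, map_pow, map_pow, map_mul, aeval_X, aeval_X, ← e1, ← e2]
    ring
  | mul_X p i hp =>
    obtain ⟨N1, H1, h1⟩ := hp
    obtain ⟨M, H2, h2⟩ := ev_clear (S i) (c i)
    refine ⟨N1 + M, H1 * H2, fun L iF iA t ht => ?_⟩
    have e1 := h1 L iF iA t ht
    have e2 := h2 L iF iA t ht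
    rw [map_mul, map_mul, aeval_X, ← e1, ← e2]
    ring

lemma evL_complex (S : Finset (Fin 2 → ℤ)) (c : (Fin 2 → ℤ) → ℂ) (t : Fin 2 → ℂ) :
    evL S c t = evC S c t := by
  rw [evL, evC]
  rfl

lemma clearC (S : Fin 3 → Finset (Fin 2 → ℤ)) (c : Fin 3 → (Fin 2 → ℤ) → ℂ)
    (G : MvPolynomial (Fin 3) ℂ) {N : ℕ} {H : MvPolynomial (Fin 2) ℂ}
    (h : ∀ (L : Type) (_ : Field L) (_ : Algebra ℂ L) (t : Fin 2 → L), (∀ k, t k ≠ 0) →
        (t 0 * t 1) ^ N * aeval (fun i => evL (S i) (c i) t) G = aeval t H)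
    (t : Fin 2 → ℂ) (ht : ∀ k, t k ≠ 0) :
    (t 0 * t 1) ^ N * eval (fun i => evC (S i) (c i) t) G = eval t H := by
  have e := h ℂ inferInstance inferInstance t ht
  simp only [evL_complex] at e
  simpa only [coe_aeval_eq_eval, aeval_eq_eval] using e

theorem main : StmtClr := by
  intro S c G
  obtain ⟨N, H, h⟩ := clear S c G
  refine ⟨⟨N, H, h⟩, fun h0 => ?_, fun h0 => ?_⟩
  · have hH : H = 0 := by
      have h1 : H * X 0 * X 1 = 0 := by
        refine MvPolynomial.funext fun t => ?_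
        rw [map_mul, map_mul, eval_X, eval_X, map_zero]
        by_cases ht : ∀ k, t k ≠ 0
        · rw [← clearC S c G h t ht, h0 t ht]
          ring
        · push Not at ht
          obtain ⟨k, hk⟩ := ht
          fin_cases k
          · have : t 0 = 0 := hk
            rw [this]
            ring
          · have : t 1 = 0 := hk
            rw [this]
            ring
      rcases mul_eq_zero.1 h1 with h2 | h2
      · rcases mul_eq_zero.1 h2 with h3 | h3
        · exact h3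
        · exact absurd h3 (X_ne_zero _)
      · exact absurd h2 (X_ne_zero _)
    intro L iF iA t ht
    have e := h L iF iA t ht
    rw [hH, map_zero] at e
    rcases mul_eq_zero.1 e with h1 | h1
    · exact absurd h1 (pow_ne_zero _ (mul_ne_zero (ht 0) (ht 1)))
    · exact h1
  · have e := h (FractionRing (MvPolynomial (Fin 2) ℂ)) inferInstance inferInstance
      (fun k => algebraMap (MvPolynomial (Fin 2) ℂ) (FractionRing (MvPolynomial (Fin 2) ℂ)) (X k))
      (fun k hk => X_ne_zero (R := ℂ) k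
        ((IsFractionRing.injective (MvPolynomial (Fin 2) ℂ)
          (FractionRing (MvPolynomial (Fin 2) ℂ))) (hk.trans (map_zero _).symm)))
    rw [h0, mul_zero] at e
    have e2 : aeval (fun k => algebraMap (MvPolynomial (Fin 2) ℂ)
        (FractionRing (MvPolynomial (Fin 2) ℂ)) (X k)) H =
        algebraMap (MvPolynomial (Fin 2) ℂ) (FractionRing (MvPolynomial (Fin 2) ℂ)) H := by
      have e3 := MvPolynomial.aeval_algebraMap_apply (R := ℂ) (A := MvPolynomial (Fin 2) ℂ)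
        (FractionRing (MvPolynomial (Fin 2) ℂ)) (X : Fin 2 → MvPolynomial (Fin 2) ℂ) H
      rw [aeval_X_left_apply] at e3
      exact e3
    rw [e2] at e
    have hH : H = 0 := (IsFractionRing.injective (MvPolynomial (Fin 2) ℂ)
          (FractionRing (MvPolynomial (Fin 2) ℂ))) (e.symm.trans (map_zero _).symm)
    intro t ht
    have e4 := clearC S c G h t ht
    rw [hH, map_zero] at e4
    rcases mul_eq_zero.1 e4 with h1 | h1
    · exact absurd h1 (pow_ne_zero _ (mul_ne_zero (ht 0) (ht 1)))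
    · exact h1

end Pool.Agent.Lib.MP_4e7804_co.N3.ClrN

theorem Pool.Agent.Lib.MP_4e7804_co.N3.tClr : Pool.Agent.Lib.MP_4e7804_co.N3.StmtClr :=
  Pool.Agent.Lib.MP_4e7804_co.N3.ClrN.main
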