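import Pool.Agent.Lib.MP_4e7804_co.N3.Spec2

set_option autoImplicit false

open MvPolynomial Finset

namespace Pool.Agent.Lib.MP_4e7804_co.N3.CntN

theorem key {Ω : Type} [Field Ω] [Algebra ℚ Ω] {ι κ : Type} [Fintype ι] [Fintype κ]
    (x : ι → Ω) (g : κ → Ω) (hx : AlgebraicIndependent ℚ x)
    (h : ∀ i, IsAlgebraic (Algebra.adjoin ℚ (Set.range g)) (x i)) :
    Fintype.card ι ≤ Fintype.card κ := by
  have hind : (AlgebraicIndependent.matroid ℚ Ω).Indep (Set.range x) := by
    rw [AlgebraicIndependent.matroid_indep_iff]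
    exact hx.coe_range
  have hcl : Set.range x ⊆ (AlgebraicIndependent.matroid ℚ Ω).closure (Set.range g) := by
    rw [AlgebraicIndependent.matroid_closure_eq]
    rintro _ ⟨i, rfl⟩
    exact h i
  have h1 : (Set.range x).encard ≤ (Set.range g).encard := by
    calc (Set.range x).encard = (AlgebraicIndependent.matroid ℚ Ω).eRk (Set.range x) :=
          hind.eRk_eq_encard.symm
      _ ≤ (AlgebraicIndependent.matroid ℚ Ω).eRk
          ((AlgebraicIndependent.matroid ℚ Ω).closure (Set.range g)) :=
          (AlgebraicIndependent.matroid ℚ Ω).eRk_mono hcl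
      _ = (AlgebraicIndependent.matroid ℚ Ω).eRk (Set.range g) := Matroid.eRk_closure_eq _ _
      _ ≤ (Set.range g).encard := Matroid.eRk_le_encard _ _
  have h2 : (Set.range x).encard = (Fintype.card ι : ℕ∞) := by
    rw [← Set.image_univ, hx.injective.encard_image, Set.encard_univ, ENat.card_eq_coe_fintype_card]
  have h3 : (Set.range g).encard ≤ (Fintype.card κ : ℕ∞) := by
    rw [← Set.image_univ]
    refine (Set.encard_image_le _ _).trans ?_
    rw [Set.encard_univ, ENat.card_eq_coe_fintype_card]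
  have h4 := h2 ▸ h1.trans h3
  exact_mod_cast h4

end Pool.Agent.Lib.MP_4e7804_co.N3.CntN

namespace Pool.Agent.Lib.MP_4e7804_co.N3

theorem tCnt : StmtCnt := by
  intro Ω _ _ ι κ _ _ x g hx h
  exact CntN.key x g hx (fun i => IntermediateField.isAlgebraic_adjoin_iff.1 (h i))

end Pool.Agent.Lib.MP_4e7804_co.N3
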