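import Pool.Agent.Lib.MP_4e7804_co.N3.Spec

/-!
# Cone: the integral of a finite union of rays
-/

set_option autoImplicit false

namespace Pool.Agent.Lib.MP_4e7804_co.N3.ConeN

theorem mem_ray_norm {α : Type} [NormedAddCommGroup α] [NormedSpace ℝ α] {y z : α}
    (hy : ‖y‖ = 1) (h : z ∈ ray y) : z = ‖z‖ • y ∧ 0 < ‖z‖ := by
  obtain ⟨t, ht, rfl⟩ := h
  have e : ‖t • y‖ = t := by
    rw [norm_smul, hy, mul_one, Real.norm_eq_abs, abs_of_pos ht]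
  rw [e]
  exact ⟨rfl, ht⟩

theorem ind_eq {α : Type} [NormedAddCommGroup α] [NormedSpace ℝ α] (X : Set α)
    (h0 : (0 : α) ∉ X) (hX : ∀ x ∈ X, ∀ t : ℝ, 0 < t → t • x ∈ X)
    (hf : {x | x ∈ X ∧ ‖x‖ = 1}.Finite) : ind X = ∑ y ∈ hf.toFinset, ind (ray y) := by
  funext z
  rw [Finset.sum_apply]
  by_cases hz : z ∈ X
  · have hz0 : z ≠ 0 := fun h => h0 (h ▸ hz)
    have hn : 0 < ‖z‖ := norm_pos_iff.2 hz0
    have hu : ‖‖z‖⁻¹ • z‖ = 1 := by
      rw [norm_smul, norm_inv, norm_norm, inv_mul_cancel₀ hn.ne']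
    have hy : ‖z‖⁻¹ • z ∈ hf.toFinset := by
      rw [Set.Finite.mem_toFinset]
      exact ⟨hX z hz _ (inv_pos.2 hn), hu⟩
    rw [ind_mem hz, Finset.sum_eq_single (‖z‖⁻¹ • z)]
    · refine (ind_mem ?_).symm
      refine ⟨‖z‖, hn, ?_⟩
      rw [smul_smul, mul_inv_cancel₀ hn.ne', one_smul]
    · intro y hy' hne
      refine ind_notMem fun h => hne ?_
      rw [Set.Finite.mem_toFinset] at hy'
      obtain ⟨e, -⟩ := mem_ray_norm hy'.2 h
      have e2 : ‖z‖⁻¹ • z = ‖z‖⁻¹ • (‖z‖ • y) := congrArg _ e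
      rw [e2, smul_smul, inv_mul_cancel₀ hn.ne', one_smul]
    · intro h
      exact absurd hy h
  · rw [ind_notMem hz]
    symm
    refine Finset.sum_eq_zero fun y hy => ind_notMem fun h => hz ?_
    rw [Set.Finite.mem_toFinset] at hy
    obtain ⟨t, ht, rfl⟩ := h
    exact hX y hy.1 t ht

theorem main (α : Type) (_ : NormedAddCommGroup α) (_ : NormedSpace ℝ α) (d : ℕ)
    (E : EulD α d) (X : Set α) (h0 : (0 : α) ∉ X) (hX : ∀ x ∈ X, ∀ t : ℝ, 0 < t → t • x ∈ X)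
    (hf : {x | x ∈ X ∧ ‖x‖ = 1}.Finite) :
    E.rel (ind X) (-({x | x ∈ X ∧ ‖x‖ = 1}.ncard : ℤ)) := by
  rw [ind_eq X h0 hX hf]
  have h1 := E.toEul.sum hf.toFinset (fun y => ind (ray y)) (fun _ => -1) (by
    intro y hy
    rw [Set.Finite.mem_toFinset] at hy
    refine E.ry y ?_
    rintro rfl
    exact h0 hy.1)
  have e : ∑ y ∈ hf.toFinset, (-1 : ℤ) = -({x | x ∈ X ∧ ‖x‖ = 1}.ncard : ℤ) := by
    rw [Finset.sum_const, Set.ncard_eq_toFinset_card _ hf, smul_neg, nsmul_eq_mul, mul_one]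
  rw [e] at h1
  exact h1

end Pool.Agent.Lib.MP_4e7804_co.N3.ConeN

namespace Pool.Agent.Lib.MP_4e7804_co.N3

theorem tCone : StmtCone := ConeN.main

end Pool.Agent.Lib.MP_4e7804_co.N3
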