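import Pool.Agent.Lib.MP_4e7804_co.N3.Spec2

/-!
# Two of the polynomials are relatively prime
-/

set_option autoImplicit false

namespace Pool.Agent.Lib.MP_4e7804_co.N3.CopN

open Pool.Agent.Lib.MP_4e7804_co.N3 MvPolynomial

theorem compl_inf {B : Set ℂ} (hB : B.Countable) : (Bᶜ : Set ℂ).Infinite := by
  intro h
  apply not_countable_complex
  rw [← Set.union_compl_self B]
  exact hB.union h.countable

/-- a zero with a generic second coordinate -/
theorem zeroA (g : MvPolynomial (Fin 2) ℂ) (h0 : ¬ X 0 ∣ g) (hd : degreeOf 0 g ≠ 0)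
    {B : Set ℂ} (hB : B.Countable) :
    ∃ t : Fin 2 → ℂ, (∀ k, t k ≠ 0) ∧ t 1 ∉ B ∧ eval t g = 0 := by
  obtain ⟨f, hf⟩ : ∃ f, f = finSuccEquiv ℂ 1 g := ⟨_, rfl⟩
  have hf0 : f.coeff 0 ≠ 0 := by
    intro h
    apply h0
    obtain ⟨q, hq⟩ := Polynomial.X_dvd_iff.mpr h
    refine ⟨(finSuccEquiv ℂ 1).symm q, ?_⟩
    apply (finSuccEquiv ℂ 1).injective
    rw [map_mul, finSuccEquiv_X_zero, AlgEquiv.apply_symm_apply, ← hq, hf]
  have hfd : f.natDegree ≠ 0 := by rw [hf, natDegree_finSuccEquiv]; exact hd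
  have hfne : f ≠ 0 := by
    rintro h
    rw [h] at hf0
    exact hf0 (Polynomial.coeff_zero 0)
  have hl : f.leadingCoeff ≠ 0 := Polynomial.leadingCoeff_ne_zero.mpr hfne
  have hq : f.leadingCoeff * f.coeff 0 * X 0 ≠ 0 := mul_ne_zero (mul_ne_zero hl hf0) (X_ne_zero 0)
  obtain ⟨s, hs, hs'⟩ : ∃ s : Fin 1 → ℂ, s 0 ∉ B ∧
      eval s (f.leadingCoeff * f.coeff 0 * X 0) ≠ 0 := by
    by_contra hcon
    push Not at hcon
    apply hq
    apply funext_set (fun _ => Bᶜ) (fun _ => compl_inf hB)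
    intro x hx
    rw [map_zero]
    exact hcon x (hx 0 (Set.mem_univ _))
  rw [map_mul, map_mul, eval_X] at hs'
  have e1 : eval s f.leadingCoeff ≠ 0 := fun h => hs' (by rw [h, zero_mul, zero_mul])
  have e2 : eval s (f.coeff 0) ≠ 0 := fun h => hs' (by rw [h, mul_zero, zero_mul])
  have e3 : s 0 ≠ 0 := fun h => hs' (by rw [h, mul_zero])
  have hdeg : (f.map (eval s)).degree ≠ 0 := by
    intro h
    have h1 := Polynomial.natDegree_eq_of_degree_eq_some h
    rw [Polynomial.natDegree_map_of_leadingCoeff_ne_zero _ e1] at h1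
    exact hfd h1
  obtain ⟨x, hx⟩ := IsAlgClosed.exists_root (f.map (eval s)) hdeg
  have hx0 : x ≠ 0 := by
    rintro rfl
    rw [Polynomial.IsRoot.def, ← Polynomial.coeff_zero_eq_eval_zero, Polynomial.coeff_map] at hx
    exact e2 hx
  refine ⟨Fin.cons x s, ?_, ?_, ?_⟩
  · intro k
    refine Fin.cases ?_ ?_ k
    · simpa using hx0
    · intro l
      rw [Fin.cons_succ, Subsingleton.elim l 0]
      exact e3
  · have : (Fin.cons x s : Fin 2 → ℂ) 1 = s 0 := rfl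
    rw [this]
    exact hs
  · rw [eval_eq_eval_mv_eval', ← hf]
    exact hx

/-- a zero with a generic first coordinate -/
theorem zeroB (g : MvPolynomial (Fin 2) ℂ) (h0 : ¬ X 1 ∣ g) (hd : degreeOf 1 g ≠ 0)
    {B : Set ℂ} (hB : B.Countable) :
    ∃ t : Fin 2 → ℂ, (∀ k, t k ≠ 0) ∧ t 0 ∉ B ∧ eval t g = 0 := by
  have hinj : Function.Injective (Equiv.swap (0 : Fin 2) 1) := (Equiv.swap (0 : Fin 2) 1).injective
  have g1 : ¬ X 0 ∣ rename (Equiv.swap (0 : Fin 2) 1) g := by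
    rintro ⟨q, hq⟩
    apply h0
    refine ⟨rename (Equiv.swap (0 : Fin 2) 1) q, ?_⟩
    have h4 := congrArg (rename (Equiv.swap (0 : Fin 2) 1)) hq
    have h5 : (Equiv.swap (0 : Fin 2) 1 : Fin 2 → Fin 2) ∘ (Equiv.swap (0 : Fin 2) 1) = id := by
      funext k
      simp
    rw [map_mul, rename_rename, rename_X, Equiv.swap_apply_left, h5, rename_id_apply] at h4
    exact h4
  have g2 : degreeOf 0 (rename (Equiv.swap (0 : Fin 2) 1) g) ≠ 0 := by
    have h6 := degreeOf_rename_of_injective (p := g) hinj 1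
    rw [Equiv.swap_apply_right] at h6
    rw [h6]
    exact hd
  obtain ⟨t, h1, h2, h3⟩ := zeroA (rename (Equiv.swap (0 : Fin 2) 1) g) g1 g2 hB
  rw [eval_rename] at h3
  refine ⟨t ∘ (Equiv.swap (0 : Fin 2) 1), fun k => h1 _, ?_, h3⟩
  rw [Function.comp_apply, Equiv.swap_apply_left]
  exact h2

theorem zero (g : MvPolynomial (Fin 2) ℂ) (h0 : ¬ X 0 ∣ g) (h1 : ¬ X 1 ∣ g) (hu : ¬ IsUnit g)
    {B : Set ℂ} (hB : B.Countable) :
    ∃ t : Fin 2 → ℂ, (∀ k, t k ≠ 0) ∧ (∃ k, t k ∉ B) ∧ eval t g = 0 := by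
  by_cases hd : degreeOf 0 g = 0
  · by_cases hd' : degreeOf 1 g = 0
    · exfalso
      apply hu
      have h2 : g.totalDegree = 0 := by
        rw [totalDegree_eq_zero_iff]
        intro m hm k
        have h3 := monomial_le_degreeOf k hm
        fin_cases k
        · simp only [Fin.zero_eta] at h3 ⊢
          omega
        · simp only [Fin.mk_one] at h3 ⊢
          omega
      rw [totalDegree_eq_zero_iff_eq_C] at h2
      have h3 : coeff 0 g ≠ 0 := by
        intro h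
        apply h0
        rw [h2, h, C_0]
        exact dvd_zero _
      rw [h2]
      exact (isUnit_iff_ne_zero.mpr h3).map C
    · obtain ⟨t, h2, h3, h4⟩ := zeroB g h1 hd' hB
      exact ⟨t, h2, ⟨0, h3⟩, h4⟩
  · obtain ⟨t, h2, h3, h4⟩ := zeroA g h0 hd hB
    exact ⟨t, h2, ⟨1, h3⟩, h4⟩

theorem hP_term (a : ℂ) (m n : ℕ) : (C a * (X 0 ^ m * X 1 ^ n) : MvPolynomial (Fin 2) ℂ) =
    monomial (Finsupp.single 0 m + Finsupp.single 1 n) a := by
  rw [X_pow_eq_monomial, X_pow_eq_monomial, monomial_mul, C_mul_monomial, mul_one, mul_one]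

theorem coeff_hP {S : Finset (Fin 2 → ℤ)} {c : (Fin 2 → ℤ) → ℂ} {γ : Fin 2 → ℤ}
    (hγ : ∀ p ∈ S, ∀ k, γ k ≤ p k) {q : Fin 2 → ℤ} (hq : q ∈ S) :
    coeff (Finsupp.single 0 (q 0 - γ 0).toNat + Finsupp.single 1 (q 1 - γ 1).toNat) (hP S c γ) =
      c q := by
  classical
  unfold hP
  rw [coeff_sum, Finset.sum_eq_single q]
  · rw [hP_term, coeff_monomial, if_pos rfl]
  · intro p hp hpq
    rw [hP_term, coeff_monomial, if_neg]
    intro h
    apply hpq
    have h0 := DFunLike.congr_fun h 0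
    have h1 := DFunLike.congr_fun h 1
    simp at h0 h1
    have g0 := hγ p hp 0
    have g1 := hγ p hp 1
    have g2 := hγ q hq 0
    have g3 := hγ q hq 1
    funext k
    fin_cases k
    · show p 0 = q 0
      omega
    · show p 1 = q 1
      omega
  · intro h
    exact absurd hq h

theorem X_not_dvd {S : Finset (Fin 2 → ℤ)} {c : (Fin 2 → ℤ) → ℂ} {γ : Fin 2 → ℤ}
    (hγ : Corner S γ) (hc : ∀ p ∈ S, c p ≠ 0) (k : Fin 2) : ¬ X k ∣ hP S c γ := by
  classical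
  rintro ⟨q, hq⟩
  obtain ⟨p, hp, hpk⟩ := hγ.2 k
  have h1 := coeff_hP (c := c) hγ.1 hp
  rw [hq, coeff_X_mul', if_neg] at h1
  · exact hc p hp h1.symm
  · rw [Finsupp.mem_support_iff, not_not]
    fin_cases k
    · simp at hpk ⊢
      omega
    · simp at hpk ⊢
      omega

theorem evC_hP {S : Finset (Fin 2 → ℤ)} {c : (Fin 2 → ℤ) → ℂ} {γ : Fin 2 → ℤ}
    (hγ : ∀ p ∈ S, ∀ k, γ k ≤ p k) {t : Fin 2 → ℂ} (ht : ∀ k, t k ≠ 0) :
    evC S c t = t 0 ^ γ 0 * t 1 ^ γ 1 * eval t (hP S c γ) := by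
  unfold evC hP
  rw [map_sum, Finset.mul_sum]
  refine Finset.sum_congr rfl fun p hp => ?_
  have key : ∀ k, t k ^ p k = t k ^ γ k * t k ^ (p k - γ k).toNat := by
    intro k
    have h1 := hγ p hp k
    rw [← zpow_natCast, ← zpow_add₀ (ht k), Int.toNat_of_nonneg (by omega)]
    congr 1
    omega
  simp only [map_mul, eval_C, map_pow, eval_X]
  rw [key 0, key 1]
  ring

end Pool.Agent.Lib.MP_4e7804_co.N3.CopN

open Pool.Agent.Lib.MP_4e7804_co.N3 Pool.Agent.Lib.MP_4e7804_co.N3.CopN MvPolynomial in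
theorem Pool.Agent.Lib.MP_4e7804_co.N3.tCop (h : StmtNoZ2) : StmtCop := by
  intro S c hc i j hij γ γ' hγ hγ' hi hj d hd1 hd2
  by_contra hu
  have hcne : ∀ l, ∀ p ∈ S l, c l p ≠ 0 := by
    intro l p hp
    exact hc.ne_zero (⟨l, ⟨p, hp⟩⟩ : Σ i : Fin 3, {p // p ∈ S i})
  have h0 : ∀ k : Fin 2, ¬ X k ∣ d := fun k hk =>
    X_not_dvd hγ (hcne i) k (hk.trans hd1)
  obtain ⟨R, hR⟩ : ∃ R, R = Algebra.adjoin ℚ
    (Set.range fun x : (Σ i : Fin 3, {p // p ∈ S i}) => c x.1 x.2.1) := ⟨_, rfl⟩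
  have hRc : Countable R := by
    rw [hR, Algebra.adjoin_range_eq_range_aeval]
    have hcm : Countable (MvPolynomial (Σ i : Fin 3, {p // p ∈ S i}) ℚ) := by
      rw [← Cardinal.mk_le_aleph0_iff]
      exact (MvPolynomial.cardinalMk_le_max).trans
        (max_le (max_le Cardinal.mk_le_aleph0 Cardinal.mk_le_aleph0) le_rfl)
    exact (aeval fun x : (Σ i : Fin 3, {p // p ∈ S i}) => c x.1 x.2.1).rangeRestrict_surjective.countable
  obtain ⟨t, ht, ⟨k, hk⟩, ht'⟩ := zero d (h0 0) (h0 1) hu (Algebraic.countable R ℂ)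
  have e1 : evC (S i) (c i) t = 0 := by
    rw [evC_hP hγ.1 ht]
    obtain ⟨q, hq⟩ := hd1
    rw [hq, map_mul, ht', zero_mul, mul_zero]
  have e2 : evC (S j) (c j) t = 0 := by
    rw [evC_hP hγ'.1 ht]
    obtain ⟨q, hq⟩ := hd2
    rw [hq, map_mul, ht', zero_mul, mul_zero]
  apply h S c hc i j hij hi hj t ht e1 e2 k
  have hc' : AlgebraicIndependent ℚ
    (fun x : (Σ i : Fin 3, {p // p ∈ S i}) => c x.1 x.2.1) := hc
  rw [hc'.option_iff_transcendental, ← hR]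
  exact hk
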