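import Pool.Agent.Lib.MP_4e7804_co.N3.Spec

/-!
# The final count
-/

set_option autoImplicit false

namespace Pool.Agent.Lib.MP_4e7804_co.N3

namespace CountN

theorem dg_comm (A B C : Finset Pl) : dg A B C = dg B A C := by
  classical
  unfold dg
  refine Finset.card_bij' (fun x _ => (x.2.1, x.1, x.2.2)) (fun x _ => (x.2.1, x.1, x.2.2))
    ?_ ?_ (fun _ _ => rfl) (fun _ _ => rfl)
  · intro x hx
    simp only [Finset.mem_filter, Finset.mem_product] at hx ⊢
    obtain ⟨⟨h1, h2, h3⟩, h4, h5⟩ := hx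
    refine ⟨⟨h2, h1, h3⟩, ?_, ?_⟩
    · rwa [Set.inter_comm (NC B x.2.1)]
    · rwa [Set.inter_comm (cU B x.2.1)]
  · intro x hx
    simp only [Finset.mem_filter, Finset.mem_product] at hx ⊢
    obtain ⟨⟨h1, h2, h3⟩, h4, h5⟩ := hx
    refine ⟨⟨h2, h1, h3⟩, ?_, ?_⟩
    · rwa [Set.inter_comm (NC A x.2.1)]
    · rwa [Set.inter_comm (cU A x.2.1)]

theorem mm_lt {A C : Finset Pl} {p q : Pl} (hp : p ∈ A) (hq : q ∈ C)
    (h : ¬ (cU A p ∩ cP C q).Nonempty) : mm A C + 1 ≤ A.card * C.card := by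
  classical
  have h1 : mm A C < (A ×ˢ C).card := by
    unfold mm n2
    refine Finset.card_lt_card (Finset.filter_ssubset.2 ⟨(p, q), ?_, h⟩)
    exact Finset.mem_product.2 ⟨hp, hq⟩
  rw [Finset.card_product] at h1
  exact h1

theorem perms : ∀ i j k : Fin 3, i ≠ j → i ≠ k → j ≠ k →
    (i = 0 ∧ j = 1 ∧ k = 2) ∨ (i = 1 ∧ j = 0 ∧ k = 2) ∨ (i = 0 ∧ j = 2 ∧ k = 1) ∨
      (i = 2 ∧ j = 0 ∧ k = 1) ∨ (i = 1 ∧ j = 2 ∧ k = 0) ∨ (i = 2 ∧ j = 1 ∧ k = 0) := by
  decide

theorem pairs : ∀ i j : Fin 3, i ≠ j →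
    (i = 0 ∧ j = 1) ∨ (i = 1 ∧ j = 0) ∨ (i = 0 ∧ j = 2) ∨ (i = 2 ∧ j = 0) ∨
      (i = 1 ∧ j = 2) ∨ (i = 2 ∧ j = 1) := by
  decide

end CountN

open CountN in
/-- **Count** -/
theorem tCount (h2 : StmtA2) (_ : StmtA3) (hM : StmtM3b) (hD2 : StmtDec2) (hD3 : StmtDec3)
    (hDi : StmtDiag) (hL : StmtLast) : StmtCount := by
  intro E A hA
  obtain ⟨d1, d2, d3, d4⟩ := hDi A hA
  obtain ⟨e01, s01, b01⟩ := hD2 (A 0) (A 1) (hA.ne 0) (hA.ne 1)
  obtain ⟨e02, s02, b02⟩ := hD2 (A 0) (A 2) (hA.ne 0) (hA.ne 2)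
  obtain ⟨e12, s12, b12⟩ := hD2 (A 1) (A 2) (hA.ne 1) (hA.ne 2)
  obtain ⟨t012, w01⟩ := hD3 (A 0) (A 1) (A 2) (hA.ne 0) (hA.ne 1) (hA.ne 2)
  obtain ⟨-, w02⟩ := hD3 (A 0) (A 2) (A 1) (hA.ne 0) (hA.ne 2) (hA.ne 1)
  obtain ⟨-, w12⟩ := hD3 (A 1) (A 2) (A 0) (hA.ne 1) (hA.ne 2) (hA.ne 0)
  have g01 := dg_comm (A 0) (A 1) (A 2)
  have g02 := dg_comm (A 0) (A 2) (A 1)
  have g12 := dg_comm (A 1) (A 2) (A 0)
  obtain ⟨u1, u2, u3, u4⟩ := hM A hA 0 1 2 (by decide) (by decide) (by decide)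
  obtain ⟨x1, x2, x3, x4⟩ := hM A hA 0 2 1 (by decide) (by decide) (by decide)
  obtain ⟨y1, y2, y3, y4⟩ := hM A hA 1 2 0 (by decide) (by decide) (by decide)
  have a01 := h2 E A hA 0 1 (by decide)
  have a02 := h2 E A hA 0 2 (by decide)
  have a12 := h2 E A hA 1 2 (by decide)
  have p01 := d3 0 1 (by decide)
  have p02 := d3 0 2 (by decide)
  have p12 := d3 1 2 (by decide)
  have o01 := d4 0 1 (by decide)
  have o02 := d4 0 2 (by decide)
  have o12 := d4 1 2 (by decide)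
  have c0 := (hA.ne 0).card_pos
  have c1 := (hA.ne 1).card_pos
  have c2 := (hA.ne 2).card_pos
  have m10 := mul_comm (A 1).card (A 0).card
  have m20 := mul_comm (A 2).card (A 0).card
  have m21 := mul_comm (A 2).card (A 1).card
  -- the improvement in the last case
  have key : (∀ i, (A i).card ≠ 1) → (Apos A).Nonempty →
      (mm (A 0) (A 1) + mm (A 0) (A 2) + mm (A 1) (A 2) + 1 ≤
        (A 0).card * (A 1).card + (A 0).card * (A 2).card + (A 1).card * (A 2).card) ∨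
      (m3 (A 0) (A 1) (A 2) + dg (A 0) (A 1) (A 2) + (m3 (A 0) (A 2) (A 1) +
        dg (A 0) (A 2) (A 1)) + (m3 (A 1) (A 2) (A 0) + dg (A 1) (A 2) (A 0)) + 1 ≤
        2 * (mm (A 0) (A 1) + mm (A 0) (A 2) + mm (A 1) (A 2))) := by
    intro k1 k2
    by_cases hall : ∀ i j, i ≠ j → ∀ p ∈ A i, ∀ q ∈ A j, (cU (A i) p ∩ cP (A j) q).Nonempty
    · right
      obtain ⟨i, j, k, hij, hik, hjk, hoff⟩ := hL A hA k1 k2 hall
      have w := (hM A hA i j k hij hik hjk).2.1 (k1 i) (k1 j) hoff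
      have u := u1 (k1 0) (k1 1)
      have x := x1 (k1 0) (k1 2)
      have y := y1 (k1 1) (k1 2)
      rcases perms i j k hij hik hjk with ⟨rfl, rfl, rfl⟩ | ⟨rfl, rfl, rfl⟩ | ⟨rfl, rfl, rfl⟩ |
        ⟨rfl, rfl, rfl⟩ | ⟨rfl, rfl, rfl⟩ | ⟨rfl, rfl, rfl⟩ <;> omega
    · left
      push Not at hall
      obtain ⟨i, j, hij, p, hp, q, hq, hpq⟩ := hall
      have w := mm_lt hp hq (by rw [hpq]; exact Set.not_nonempty_empty)
      rcases pairs i j hij with ⟨rfl, rfl⟩ | ⟨rfl, rfl⟩ | ⟨rfl, rfl⟩ | ⟨rfl, rfl⟩ | ⟨rfl, rfl⟩ |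
        ⟨rfl, rfl⟩ <;> omega
  have hbe : be A = 0 ∨ (be A = 1 ∧ (∀ i, (A i).card ≠ 1) ∧ (Apos A).Nonempty) := by
    unfold be
    split_ifs with h
    · exact Or.inr ⟨rfl, h⟩
    · exact Or.inl rfl
  rw [t012, e01, e02, e12]
  clear hL hD2 hD3 hDi hM h2 d3 d4 t012 e01 e02 e12 E
  by_cases hn : (A 0).card ≠ 1 ∧ (A 1).card ≠ 1 ∧ (A 2).card ≠ 1
  · obtain ⟨h0, h1, h2⟩ := hn
    have k1 : ∀ i, (A i).card ≠ 1 := by
      intro i
      fin_cases i
      · exact h0
      · exact h1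
      · exact h2
    have hk := key k1
    clear key
    simp only [VV, a123, al, nz, h0, h1, h2, if_false, and_false, or_false] at *
    have u := u1 h0 h1
    have x := x1 h0 h2
    have y := y1 h1 h2
    rcases hbe with h | ⟨h, -, h'⟩
    · rw [h]
      push_cast
      omega
    · have hk' := hk h'
      rw [h]
      push_cast
      omega
  · have hb : be A = 0 := by
      rcases hbe with h | ⟨_, h, _⟩
      · exact h
      · exact absurd ⟨h 0, h 1, h 2⟩ hn
    clear key hbe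
    by_cases h0 : (A 0).card = 1
    · by_cases h1 : (A 1).card = 1
      · by_cases h2 : (A 2).card = 1
        · clear hn
          simp only [VV, a123, al, nz, h0, h1, h2, hb] at *
          simp at *
          omega
        · clear hn
          simp only [VV, a123, al, nz, h0, h1, h2, hb] at *
          simp at *
          omega
      · by_cases h2 : (A 2).card = 1
        · clear hn
          simp only [VV, a123, al, nz, h0, h1, h2, hb] at *
          simp at *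
          omega
        · have y := y1 h1 h2
          clear hn
          simp only [VV, a123, al, nz, h0, h1, h2, hb] at *
          simp at *
          omega
    · by_cases h1 : (A 1).card = 1
      · by_cases h2 : (A 2).card = 1
        · clear hn
          simp only [VV, a123, al, nz, h0, h1, h2, hb] at *
          simp at *
          omega
        · have x := x1 h0 h2
          clear hn
          simp only [VV, a123, al, nz, h0, h1, h2, hb] at *
          simp at *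
          omega
      · by_cases h2 : (A 2).card = 1
        · have u := u1 h0 h1
          clear hn
          simp only [VV, a123, al, nz, h0, h1, h2, hb] at *
          simp at *
          omega
        · exact (hn ⟨h0, h1, h2⟩).elim

end Pool.Agent.Lib.MP_4e7804_co.N3
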