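import Pool.Agent.Lib.MP_4e7804_co.N3.Spec2

/-!
# The segment between two regions meets the tropical hypersurface in a rational point
-/

set_option autoImplicit false

namespace Pool.Agent.Lib.MP_4e7804_co.N3

open Classical in
theorem tCross : StmtCross := by
  intro M hM a ha b hb hab x y hx hy
  choose! k hk using hM
  obtain ⟨A, hA⟩ : ∃ A : Sp → ℚ, A = fun m => ∑ i, ((k m i : ℚ) - k a i) * x i := ⟨_, rfl⟩
  obtain ⟨B, hB⟩ : ∃ B : Sp → ℚ, B = fun m => ∑ i, ((k m i : ℚ) - k a i) * (y i - x i) := ⟨_, rfl⟩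
  have key : ∀ m ∈ M, ∀ t : ℚ, m ⬝ᵥ (fun i => ((x i + t * (y i - x i) : ℚ) : ℝ)) -
      a ⬝ᵥ (fun i => ((x i + t * (y i - x i) : ℚ) : ℝ)) = ((A m + t * B m : ℚ) : ℝ) := by
    intro m hm t
    have e1 : ∀ i, m i = (k m i : ℝ) := fun i => congrFun (hk m hm) i
    have e2 : ∀ i, a i = (k a i : ℝ) := fun i => congrFun (hk a ha) i
    simp only [dotProduct, Fin.sum_univ_three, e1, e2, hA, hB]
    push_cast
    ring
  have h0 : (fun i => ((x i + (0 : ℚ) * (y i - x i) : ℚ) : ℝ)) = fun i => (x i : ℝ) := by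
    funext i
    simp
  have h1 : (fun i => ((x i + (1 : ℚ) * (y i - x i) : ℚ) : ℝ)) = fun i => (y i : ℝ) := by
    funext i
    congr 1
    ring
  have hApos : ∀ m ∈ M, m ≠ a → 0 < A m := by
    intro m hm hma
    have h2 := key m hm 0
    rw [h0] at h2
    have h3 := hx m hm hma
    have h4 : (0 : ℝ) < ((A m + 0 * B m : ℚ) : ℝ) := by linarith
    have h5 : (0 : ℚ) < A m + 0 * B m := by exact_mod_cast h4
    linarith
  have hb1 : A b + B b < 0 := by
    have h2 := key b hb 1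
    rw [h1] at h2
    have h3 := hy a ha hab
    have h4 : ((A b + 1 * B b : ℚ) : ℝ) < 0 := by linarith
    have h5 : A b + 1 * B b < (0 : ℚ) := by exact_mod_cast h4
    linarith
  have hAb := hApos b hb (Ne.symm hab)
  have hBb : B b < 0 := by linarith
  obtain ⟨m₀, hm₀, hmin⟩ := (M.filter fun m => m ≠ a ∧ B m < 0).exists_min_image
    (fun m => A m / (-B m)) ⟨b, by simp [hb, Ne.symm hab, hBb]⟩
  simp only [Finset.mem_filter] at hm₀ hmin
  obtain ⟨hm₀M, hm₀a, hm₀B⟩ := hm₀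
  have hA0 := hApos m₀ hm₀M hm₀a
  have hval : A m₀ + A m₀ / (-B m₀) * B m₀ = 0 := by
    have : B m₀ ≠ 0 := hm₀B.ne
    field_simp
    ring
  refine ⟨A m₀ / (-B m₀), (div_pos hA0 (by linarith)).le, ?_, ?_⟩
  · refine (hmin b ⟨hb, Ne.symm hab, hBb⟩).trans ?_
    rw [div_le_one (by linarith)]
    linarith
  · have hge : ∀ c ∈ M, a ⬝ᵥ (fun i => ((x i + (A m₀ / (-B m₀)) * (y i - x i) : ℚ) : ℝ)) ≤
        c ⬝ᵥ (fun i => ((x i + (A m₀ / (-B m₀)) * (y i - x i) : ℚ) : ℝ)) := by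
      intro c hc
      by_cases hca : c = a
      · rw [hca]
      have h2 := key c hc (A m₀ / (-B m₀))
      have h3 : (0 : ℚ) ≤ A c + A m₀ / (-B m₀) * B c := by
        have hAc := hApos c hc hca
        by_cases hBc : B c < 0
        · have h4 := hmin c ⟨hc, hca, hBc⟩
          have h5 : A c + A c / (-B c) * B c = 0 := by
            have : B c ≠ 0 := hBc.ne
            field_simp
            ring
          nlinarith
        · have h4 : 0 ≤ A m₀ / (-B m₀) := (div_pos hA0 (by linarith)).le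
          nlinarith
      have h6 : (0 : ℝ) ≤ ((A c + A m₀ / (-B m₀) * B c : ℚ) : ℝ) := by exact_mod_cast h3
      linarith
    refine ⟨a, ha, m₀, hm₀M, Ne.symm hm₀a, hge, ?_⟩
    intro c hc
    have h2 := key m₀ hm₀M (A m₀ / (-B m₀))
    rw [hval] at h2
    have h3 := hge c hc
    have h4 : ((0 : ℚ) : ℝ) = 0 := by norm_num
    rw [h4] at h2
    linarith

end Pool.Agent.Lib.MP_4e7804_co.N3
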