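import Pool.Agent.Lib.MP_4e7804_co.N3.Spec

/-!
# Pairs of labels
-/

set_option autoImplicit false

namespace Pool.Agent.Lib.MP_4e7804_co.N3.Dec2N

open Pool.Agent.Lib.MP_4e7804_co.N3

open Classical in
private theorem n2_sum {ι κ α : Type*} (K : Finset ι) (L : Finset κ) (U : ι → Set α)
    (V : κ → Set α) :
    n2 K L U V = ∑ x ∈ K, ∑ y ∈ L, if (U x ∩ V y).Nonempty then 1 else 0 := by
  unfold n2
  rw [Finset.card_filter, Finset.sum_product]

private theorem swap_nonempty (s t s' t' : Set (Pl × Pl)) (h1 : ∀ x, x.swap ∈ s' ↔ x ∈ s)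
    (h2 : ∀ x, x.swap ∈ t' ↔ x ∈ t) : (s ∩ t).Nonempty ↔ (s' ∩ t').Nonempty := by
  constructor
  · rintro ⟨x, hx, hx'⟩
    exact ⟨x.swap, (h1 x).2 hx, (h2 x).2 hx'⟩
  · rintro ⟨x, hx, hx'⟩
    refine ⟨x.swap, (h1 x.swap).1 ?_, (h2 x.swap).1 ?_⟩
    · rw [Prod.swap_swap]
      exact hx
    · rw [Prod.swap_swap]
      exact hx'

private theorem n2_lab (A B : Finset Pl) (U V : Pl × Bool → Set (Pl × Pl)) :
    n2 (lab A) (lab B) U V =
      n2 A B (fun p => U (p, true)) (fun q => V (q, true)) +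
      n2 A B (fun p => U (p, true)) (fun q => V (q, false)) +
      (n2 A B (fun p => U (p, false)) (fun q => V (q, true)) +
      n2 A B (fun p => U (p, false)) (fun q => V (q, false))) := by
  classical
  simp only [n2_sum]
  unfold lab
  rw [Finset.sum_product]
  simp only [Finset.sum_product, Fintype.sum_bool, Finset.sum_add_distrib]
  ring

private theorem mm_comm (A B : Finset Pl) : mm A B = mm B A := by
  classical
  unfold mm
  rw [n2_sum, n2_sum, Finset.sum_comm]
  refine Finset.sum_congr rfl fun q _ => Finset.sum_congr rfl fun p _ => ?_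
  have h : (cU A p ∩ cP B q).Nonempty ↔ (cU B q ∩ cP A p).Nonempty := by
    rw [Set.inter_comm (cU B q)]
    exact swap_nonempty _ _ _ _ (fun x => swap_cP A p x) fun x => swap_cU B q x
  by_cases h1 : (cU A p ∩ cP B q).Nonempty
  · rw [if_pos h1, if_pos (h.1 h1)]
  · rw [if_neg h1, if_neg fun h2 => h1 (h.2 h2)]

private theorem n2_congr {ι κ α : Type*} (K : Finset ι) (L : Finset κ) (U U' : ι → Set α)
    (V V' : κ → Set α) (h : ∀ x ∈ K, ∀ y ∈ L, (U x ∩ V y).Nonempty ↔ (U' x ∩ V' y).Nonempty) :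
    n2 K L U V = n2 K L U' V' := by
  classical
  rw [n2_sum, n2_sum]
  refine Finset.sum_congr rfl fun x hx => Finset.sum_congr rfl fun y hy => ?_
  by_cases h1 : (U x ∩ V y).Nonempty
  · rw [if_pos h1, if_pos ((h x hx y hy).1 h1)]
  · rw [if_neg h1, if_neg fun h2 => h1 ((h x hx y hy).2 h2)]

private theorem mm_le (A B : Finset Pl) : mm A B ≤ A.card * B.card := by
  classical
  unfold mm n2
  rw [← Finset.card_product]
  exact Finset.card_filter_le _ _

theorem main (A B : Finset Pl) (hA : A.Nonempty) (hB : B.Nonempty) :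
    n2 (lab A) (lab B) (cell A) (cell B) = 2 * pp A B + 2 * mm A B ∧ mm A B = mm B A ∧
    mm A B ≤ A.card * B.card := by
  refine ⟨?_, mm_comm A B, mm_le A B⟩
  rw [n2_lab]
  simp only [cell_true hA, cell_false hA, cell_true hB, cell_false hB]
  have h1 : n2 A B (fun p => cP A p) (fun q => cP B q) = pp A B :=
    n2_congr A B _ _ _ _ fun p _ q _ =>
      swap_nonempty _ _ _ _ (fun x => swap_cU A p x) fun x => swap_cU B q x
  have h2 : n2 A B (fun p => cP A p) (fun q => cU B q) = mm A B :=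
    n2_congr A B _ _ _ _ fun p _ q _ =>
      swap_nonempty _ _ _ _ (fun x => swap_cU A p x) fun x => swap_cP B q x
  have h3 : n2 A B (fun p => cU A p) (fun q => cP B q) = mm A B := rfl
  have h4 : n2 A B (fun p => cU A p) (fun q => cU B q) = pp A B := rfl
  rw [h1, h2, h3, h4]
  ring

end Pool.Agent.Lib.MP_4e7804_co.N3.Dec2N

theorem Pool.Agent.Lib.MP_4e7804_co.N3.tDec2 : Pool.Agent.Lib.MP_4e7804_co.N3.StmtDec2 :=
  fun A B hA hB => Pool.Agent.Lib.MP_4e7804_co.N3.Dec2N.main A B hA hB
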