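import Pool.Agent.Lib.MP_4e7804_co.N3.Spec

/-!
# Triples of labels
-/

set_option autoImplicit false

namespace Pool.Agent.Lib.MP_4e7804_co.N3

namespace Dec3N

open Classical in
theorem n3_sum {ι κ μ α : Type*} (K : Finset ι) (L : Finset κ) (M : Finset μ) (U : ι → Set α)
    (V : κ → Set α) (W : μ → Set α) :
    n3 K L M U V W = ∑ x ∈ K, ∑ y ∈ L, ∑ z ∈ M, if (U x ∩ V y ∩ W z).Nonempty then 1 else 0 := by
  unfold n3
  rw [Finset.card_filter, Finset.sum_product]
  refine Finset.sum_congr rfl fun x _ => ?_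
  rw [Finset.sum_product]

theorem n3_congr {ι κ μ α : Type*} (K : Finset ι) (L : Finset κ) (M : Finset μ)
    (U U' : ι → Set α) (V V' : κ → Set α) (W W' : μ → Set α)
    (h : ∀ x ∈ K, ∀ y ∈ L, ∀ z ∈ M,
      (U x ∩ V y ∩ W z).Nonempty ↔ (U' x ∩ V' y ∩ W' z).Nonempty) :
    n3 K L M U V W = n3 K L M U' V' W' := by
  classical
  rw [n3_sum, n3_sum]
  refine Finset.sum_congr rfl fun x hx => Finset.sum_congr rfl fun y hy =>
    Finset.sum_congr rfl fun z hz => ?_
  by_cases h1 : (U x ∩ V y ∩ W z).Nonempty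
  · rw [if_pos h1, if_pos ((h x hx y hy z hz).1 h1)]
  · rw [if_neg h1, if_neg fun h2 => h1 ((h x hx y hy z hz).2 h2)]

theorem n3_comm12 {ι κ μ α : Type*} (K : Finset ι) (L : Finset κ) (M : Finset μ) (U : ι → Set α)
    (V : κ → Set α) (W : μ → Set α) : n3 K L M U V W = n3 L K M V U W := by
  classical
  rw [n3_sum, n3_sum, Finset.sum_comm]
  refine Finset.sum_congr rfl fun y _ => Finset.sum_congr rfl fun x _ =>
    Finset.sum_congr rfl fun z _ => ?_
  rw [Set.inter_comm (U x)]

theorem n3_comm23 {ι κ μ α : Type*} (K : Finset ι) (L : Finset κ) (M : Finset μ) (U : ι → Set α)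
    (V : κ → Set α) (W : μ → Set α) : n3 K L M U V W = n3 K M L U W V := by
  classical
  rw [n3_sum, n3_sum]
  refine Finset.sum_congr rfl fun x _ => ?_
  rw [Finset.sum_comm]
  refine Finset.sum_congr rfl fun z _ => Finset.sum_congr rfl fun y _ => ?_
  rw [Set.inter_right_comm]

theorem swap3 (s t u s' t' u' : Set (Pl × Pl)) (h1 : ∀ x, x.swap ∈ s' ↔ x ∈ s)
    (h2 : ∀ x, x.swap ∈ t' ↔ x ∈ t) (h3 : ∀ x, x.swap ∈ u' ↔ x ∈ u) :
    (s ∩ t ∩ u).Nonempty ↔ (s' ∩ t' ∩ u').Nonempty := by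
  constructor
  · rintro ⟨x, ⟨hx, hx'⟩, hx''⟩
    exact ⟨x.swap, ⟨(h1 x).2 hx, (h2 x).2 hx'⟩, (h3 x).2 hx''⟩
  · rintro ⟨x, ⟨hx, hx'⟩, hx''⟩
    have e : x.swap.swap = x := Prod.swap_swap x
    exact ⟨x.swap, ⟨(h1 x.swap).1 (e.symm ▸ hx), (h2 x.swap).1 (e.symm ▸ hx')⟩,
      (h3 x.swap).1 (e.symm ▸ hx'')⟩

theorem n3_lab (A B C : Finset Pl) (U V W : Pl × Bool → Set (Pl × Pl)) :
    n3 (lab A) (lab B) (lab C) U V W =
      n3 A B C (fun p => U (p, true)) (fun q => V (q, true)) (fun r => W (r, true)) +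
      n3 A B C (fun p => U (p, true)) (fun q => V (q, true)) (fun r => W (r, false)) +
      n3 A B C (fun p => U (p, true)) (fun q => V (q, false)) (fun r => W (r, true)) +
      n3 A B C (fun p => U (p, true)) (fun q => V (q, false)) (fun r => W (r, false)) +
      n3 A B C (fun p => U (p, false)) (fun q => V (q, true)) (fun r => W (r, true)) +
      n3 A B C (fun p => U (p, false)) (fun q => V (q, true)) (fun r => W (r, false)) +
      n3 A B C (fun p => U (p, false)) (fun q => V (q, false)) (fun r => W (r, true)) +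
      n3 A B C (fun p => U (p, false)) (fun q => V (q, false)) (fun r => W (r, false)) := by
  classical
  simp only [n3_sum]
  unfold lab
  simp only [Finset.sum_product, Fintype.sum_bool, Finset.sum_add_distrib]
  ring

end Dec3N

open Dec3N

theorem tDec3 : StmtDec3 := by
  intro A B C hA hB hC
  refine ⟨?_, n3_comm12 A B C _ _ _⟩
  rw [n3_lab]
  simp only [cell_true hA, cell_false hA, cell_true hB, cell_false hB, cell_true hC, cell_false hC]
  have e1 : n3 A B C (fun p => cP A p) (fun q => cP B q) (fun r => cP C r) = ppp A B C :=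
    n3_congr A B C _ _ _ _ _ _ fun p _ q _ r _ =>
      swap3 _ _ _ _ _ _ (fun x => swap_cU A p x) (fun x => swap_cU B q x) fun x => swap_cU C r x
  have e2 : n3 A B C (fun p => cP A p) (fun q => cP B q) (fun r => cU C r) = m3 A B C :=
    n3_congr A B C _ _ _ _ _ _ fun p _ q _ r _ =>
      swap3 _ _ _ _ _ _ (fun x => swap_cU A p x) (fun x => swap_cU B q x) fun x => swap_cP C r x
  have e3 : n3 A B C (fun p => cP A p) (fun q => cU B q) (fun r => cP C r) = m3 A C B := by
    rw [n3_comm23]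
    exact n3_congr A C B _ _ _ _ _ _ fun p _ r _ q _ =>
      swap3 _ _ _ _ _ _ (fun x => swap_cU A p x) (fun x => swap_cU C r x) fun x => swap_cP B q x
  have e4 : n3 A B C (fun p => cP A p) (fun q => cU B q) (fun r => cU C r) = m3 B C A := by
    rw [n3_comm12, n3_comm23]
    rfl
  have e5 : n3 A B C (fun p => cU A p) (fun q => cP B q) (fun r => cP C r) = m3 B C A := by
    rw [n3_comm12, n3_comm23]
    exact n3_congr B C A _ _ _ _ _ _ fun q _ r _ p _ =>
      swap3 _ _ _ _ _ _ (fun x => swap_cU B q x) (fun x => swap_cU C r x) fun x => swap_cP A p x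
  have e6 : n3 A B C (fun p => cU A p) (fun q => cP B q) (fun r => cU C r) = m3 A C B := by
    rw [n3_comm23]
    rfl
  have e7 : n3 A B C (fun p => cU A p) (fun q => cU B q) (fun r => cP C r) = m3 A B C := rfl
  have e8 : n3 A B C (fun p => cU A p) (fun q => cU B q) (fun r => cU C r) = ppp A B C := rfl
  rw [e1, e2, e3, e4, e5, e6, e7, e8]
  ring

end Pool.Agent.Lib.MP_4e7804_co.N3
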