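import Pool.Agent.Lib.MP_4e7804_co.N3.Spec2

/-!
# n = 3: algebraically independent families are dense
-/

set_option autoImplicit false

namespace Pool.Agent.Lib.MP_4e7804_co.N3

open MvPolynomial

namespace DensN

/-- there are finite algebraically independent families of every size -/
theorem exists_indep (ι : Type) [Fintype ι] : ∃ y : ι → ℂ, AlgebraicIndependent ℚ y := by
  obtain ⟨κ, x, hx⟩ := exists_isTranscendenceBasis' ℚ ℂ
  have h1 := IsAlgClosed.cardinal_eq_cardinal_transcendence_basis_of_aleph0_lt x hx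
    (Cardinal.mk_le_aleph0) (by rw [Cardinal.mk_complex]; exact Cardinal.aleph0_lt_continuum)
  have h2 : Infinite κ := by
    rw [Cardinal.infinite_iff, ← Cardinal.lift_aleph0.{0, 0}, ← Cardinal.lift_le.{0, 0}]
    have h3 : Cardinal.aleph0 ≤ Cardinal.mk ℂ := by
      rw [Cardinal.mk_complex]
      exact Cardinal.aleph0_lt_continuum.le
    simpa using (Cardinal.lift_le.2 h3).trans h1.le
  let e : ι ↪ κ := (Fintype.equivFin ι).toEmbedding.trans
    ((Fin.valEmbedding).trans (Infinite.natEmbedding κ))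
  exact ⟨x ∘ e, AlgebraicIndependent.comp hx.1 e e.injective⟩

/-- affine substitutions keep algebraic independence -/
theorem affine {ι : Type} (y : ι → ℂ) (hy : AlgebraicIndependent ℚ y) (a : ι → ℚ) (r : ℚ)
    (hr : r ≠ 0) : AlgebraicIndependent ℚ (fun i => (a i : ℂ) + (r : ℂ) * y i) := by
  rw [algebraicIndependent_iff_injective_aeval] at hy ⊢
  let g : ι → MvPolynomial ι ℚ := fun i => C (a i) + C r * X i
  let g' : ι → MvPolynomial ι ℚ := fun i => C r⁻¹ * (X i - C (a i))
  have hinv : ∀ p : MvPolynomial ι ℚ, bind₁ g' (bind₁ g p) = p := by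
    intro p
    have h1 : (bind₁ g').comp (bind₁ g) = AlgHom.id ℚ (MvPolynomial ι ℚ) := by
      apply MvPolynomial.algHom_ext
      intro i
      simp only [AlgHom.comp_apply, bind₁_X_right, AlgHom.id_apply, g, g', map_add, map_mul,
        algHom_C, algebraMap_eq]
      rw [← mul_assoc, ← C_mul, mul_inv_cancel₀ hr, C_1]
      ring
    exact congrArg (fun f : MvPolynomial ι ℚ →ₐ[ℚ] MvPolynomial ι ℚ => f p) h1
  have hcomp : ∀ p : MvPolynomial ι ℚ,
      aeval (fun i => (a i : ℂ) + (r : ℂ) * y i) p = aeval y (bind₁ g p) := by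
    intro p
    rw [aeval_bind₁]
    have h2 : (fun i => (a i : ℂ) + (r : ℂ) * y i) = fun i => aeval y (g i) := by
      funext i
      simp [g]
    rw [h2]
  intro p q hpq
  rw [hcomp, hcomp] at hpq
  have h3 := hy hpq
  rw [← hinv p, ← hinv q, h3]

end DensN

theorem tDens : StmtDens := by
  intro ι _ x₀ ε hε
  obtain ⟨y, hy⟩ := DensN.exists_indep ι
  set M : ℝ := 1 + ∑ i, ‖y i‖ with hM
  have hM0 : 0 < M := by positivity
  obtain ⟨r, hr1, hr2⟩ := exists_rat_btwn (div_pos hε hM0)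
  have hr0 : (0 : ℝ) < r := hr1
  refine ⟨fun i => ((x₀ i : ℚ) : ℂ) + (r : ℂ) * y i,
    DensN.affine y hy (fun i => (x₀ i : ℚ)) r (by rintro rfl; simp at hr0), ?_⟩
  intro i
  have h1 : ((x₀ i : ℚ) : ℂ) + (r : ℂ) * y i - (x₀ i : ℂ) = (r : ℂ) * y i := by
    push_cast
    ring
  have h2 : ‖y i‖ < M := by
    have : ‖y i‖ ≤ ∑ i, ‖y i‖ :=
      Finset.single_le_sum (f := fun i => ‖y i‖) (fun i _ => norm_nonneg _) (Finset.mem_univ i)
    rw [hM]
    linarith
  have h3 : ‖(r : ℂ)‖ = (r : ℝ) := by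
    have : (r : ℂ) = ((r : ℝ) : ℂ) := by push_cast; rfl
    rw [this, Complex.norm_real, Real.norm_eq_abs, abs_of_pos hr0]
  rw [h1, norm_mul, h3]
  calc (r : ℝ) * ‖y i‖ ≤ (r : ℝ) * M := mul_le_mul_of_nonneg_left h2.le hr0.le
    _ < ε / M * M := mul_lt_mul_of_pos_right hr2 hM0
    _ = ε := by field_simp

end Pool.Agent.Lib.MP_4e7804_co.N3
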