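import Pool.Agent.Lib.MP_4e7804_co.N3.Spec

/-!
# n = 3: diagonal triples
-/

set_option autoImplicit false

namespace Pool.Agent.Lib.MP_4e7804_co.N3

namespace DiagN

private theorem nz_left {α : Type*} {U V W : Set α} (h : (U ∩ V ∩ W).Nonempty) :
    (U ∩ V).Nonempty := by
  obtain ⟨x, hx, _⟩ := h
  exact ⟨x, hx⟩

private theorem part1 (A B C : Finset Pl) : ppp A B C + dz A B C ≤ a3 A B C := by
  classical
  unfold ppp dz a3 n3
  rw [← Finset.card_union_of_disjoint]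
  · refine Finset.card_le_card fun x hx => ?_
    rw [Finset.mem_union, Finset.mem_filter, Finset.mem_filter] at hx
    rw [Finset.mem_filter]
    rcases hx with ⟨h1, y, ⟨⟨h2, _⟩, ⟨h3, _⟩⟩, ⟨h4, _⟩⟩ | ⟨h1, h2, _⟩
    · exact ⟨h1, y.2, ⟨h2, h3⟩, h4⟩
    · exact ⟨h1, h2⟩
  · rw [Finset.disjoint_left]
    intro x hx hx'
    rw [Finset.mem_filter] at hx hx'
    have h1 := hx.2
    rw [hx'.2.2] at h1
    exact Set.not_nonempty_empty h1

private theorem part2 (h1 : StmtTri) (A : Fin 3 → Finset Pl) (hA : Gen A) :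
    a3 (A 0) (A 1) (A 2) ≤ dz (A 0) (A 1) (A 2) + dg (A 0) (A 1) (A 2) + dg (A 0) (A 2) (A 1) +
    dg (A 1) (A 2) (A 0) := by
  classical
  have hT := h1 A hA 0 1 2 (by decide) (by decide) (by decide)
  let T2 : Finset (Pl × Pl × Pl) := ((A 0) ×ˢ (A 1) ×ˢ (A 2)).filter fun x =>
    (NC (A 0) x.1 ∩ NC (A 1) x.2.1 ∩ NC (A 2) x.2.2).Nonempty ∧
      cU (A 0) x.1 ∩ cU (A 2) x.2.2 ∩ cP (A 1) x.2.1 = ∅
  let T3 : Finset (Pl × Pl × Pl) := ((A 0) ×ˢ (A 1) ×ˢ (A 2)).filter fun x =>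
    (NC (A 0) x.1 ∩ NC (A 1) x.2.1 ∩ NC (A 2) x.2.2).Nonempty ∧
      cU (A 1) x.2.1 ∩ cU (A 2) x.2.2 ∩ cP (A 0) x.1 = ∅
  have hT2 : T2.card ≤ dg (A 0) (A 2) (A 1) := by
    unfold dg
    refine Finset.card_le_card_of_injOn (fun x => (x.1, x.2.2, x.2.1)) ?_ ?_
    · intro x hx
      have hx' := Finset.mem_filter.1 (Finset.mem_coe.1 hx)
      obtain ⟨hm, ⟨y, ⟨hy1, hy2⟩, hy3⟩, he⟩ := hx'
      rw [Finset.mem_product, Finset.mem_product] at hm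
      rw [Finset.mem_coe, Finset.mem_filter, Finset.mem_product, Finset.mem_product]
      exact ⟨⟨hm.1, hm.2.2, hm.2.1⟩, ⟨y, ⟨hy1, hy3⟩, hy2⟩, he⟩
    · rintro ⟨a, b, c⟩ _ ⟨a', b', c'⟩ _ h
      simp only [Prod.mk.injEq] at h ⊢
      exact ⟨h.1, h.2.2, h.2.1⟩
  have hT3 : T3.card ≤ dg (A 1) (A 2) (A 0) := by
    unfold dg
    refine Finset.card_le_card_of_injOn (fun x => (x.2.1, x.2.2, x.1)) ?_ ?_
    · intro x hx
      have hx' := Finset.mem_filter.1 (Finset.mem_coe.1 hx)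
      obtain ⟨hm, ⟨y, ⟨hy1, hy2⟩, hy3⟩, he⟩ := hx'
      rw [Finset.mem_product, Finset.mem_product] at hm
      rw [Finset.mem_coe, Finset.mem_filter, Finset.mem_product, Finset.mem_product]
      exact ⟨⟨hm.2.1, hm.2.2, hm.1⟩, ⟨y, ⟨hy2, hy3⟩, hy1⟩, he⟩
    · rintro ⟨a, b, c⟩ _ ⟨a', b', c'⟩ _ h
      simp only [Prod.mk.injEq] at h ⊢
      exact ⟨h.2.2, h.1, h.2.1⟩
  refine le_trans ?_ (Nat.add_le_add (Nat.add_le_add (le_refl _) hT2) hT3)
  unfold a3 n3 dz dg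
  refine le_trans (Finset.card_le_card (t := ((((A 0) ×ˢ (A 1) ×ˢ (A 2)).filter fun x =>
      (NC (A 0) x.1 ∩ NC (A 1) x.2.1 ∩ NC (A 2) x.2.2).Nonempty ∧
        cU (A 0) x.1 ∩ cU (A 1) x.2.1 ∩ cU (A 2) x.2.2 = ∅) ∪
      (((A 0) ×ˢ (A 1) ×ˢ (A 2)).filter fun x =>
      (NC (A 0) x.1 ∩ NC (A 1) x.2.1 ∩ NC (A 2) x.2.2).Nonempty ∧
        cU (A 0) x.1 ∩ cU (A 1) x.2.1 ∩ cP (A 2) x.2.2 = ∅)) ∪ T2 ∪ T3) ?_) ?_
  · intro x hx
    rw [Finset.mem_filter] at hx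
    obtain ⟨hm, hN⟩ := hx
    have hm' := hm
    rw [Finset.mem_product, Finset.mem_product] at hm'
    rw [Finset.mem_union, Finset.mem_union, Finset.mem_union]
    rcases hT x.1 hm'.1 x.2.1 hm'.2.1 x.2.2 hm'.2.2 with h | h | h | h
    · exact Or.inl (Or.inl (Or.inl (Finset.mem_filter.2 ⟨hm, hN, h⟩)))
    · exact Or.inl (Or.inl (Or.inr (Finset.mem_filter.2 ⟨hm, hN, h⟩)))
    · exact Or.inl (Or.inr (Finset.mem_filter.2 ⟨hm, hN, h⟩))
    · exact Or.inr (Finset.mem_filter.2 ⟨hm, hN, h⟩)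
  · refine le_trans (Finset.card_union_le _ _) (Nat.add_le_add ?_ (le_refl _))
    refine le_trans (Finset.card_union_le _ _) (Nat.add_le_add ?_ (le_refl _))
    exact Finset.card_union_le _ _

private theorem part3 (h2 : StmtCells) (A : Fin 3 → Finset Pl) (hA : Gen A) (i j : Fin 3)
    (hij : i ≠ j) : a2 (A i) (A j) ≤ pp (A i) (A j) := by
  classical
  unfold a2 pp n2
  refine Finset.card_le_card fun x hx => ?_
  rw [Finset.mem_filter] at hx ⊢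
  have hm := Finset.mem_product.1 hx.1
  exact ⟨hx.1, ((h2 A hA).2 i j hij x.1 hm.1 x.2 hm.2 hx.2).1⟩

private theorem part4 (h2 : StmtCells) (A : Fin 3 → Finset Pl) (hA : Gen A) (i j : Fin 3)
    (hij : i ≠ j) (hi : (A i).card = 1) (hj : (A j).card = 1) : 1 ≤ mm (A i) (A j) := by
  classical
  obtain ⟨p, hp⟩ := Finset.card_eq_one.1 hi
  obtain ⟨q, hq⟩ := Finset.card_eq_one.1 hj
  have hpm : p ∈ A i := by rw [hp]; exact Finset.mem_singleton_self p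
  have hqm : q ∈ A j := by rw [hq]; exact Finset.mem_singleton_self q
  have hne : (NC (A i) p ∩ NC (A j) q).Nonempty := by
    refine ⟨0, ?_, ?_⟩
    · intro r hr hrp
      rw [hp, Finset.mem_singleton] at hr
      exact absurd hr hrp
    · intro r hr hrq
      rw [hq, Finset.mem_singleton] at hr
      exact absurd hr hrq
  have h := ((h2 A hA).2 i j hij p hpm q hqm hne).2
  unfold mm n2
  rw [Nat.one_le_iff_ne_zero, ← Nat.pos_iff_ne_zero, Finset.card_pos]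
  exact ⟨(p, q), Finset.mem_filter.2 ⟨Finset.mem_product.2 ⟨hpm, hqm⟩, h⟩⟩

end DiagN

theorem tDiag (h1 : StmtTri) (h2 : StmtCells) : StmtDiag := by
  intro A hA
  exact ⟨DiagN.part1 _ _ _, DiagN.part2 h1 A hA, DiagN.part3 h2 A hA, DiagN.part4 h2 A hA⟩

end Pool.Agent.Lib.MP_4e7804_co.N3
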