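import Pool.Agent.Lib.MP_4e7804_co.N3.Spec

/-!
# Euler integration on the plane and in space
-/

set_option autoImplicit false

namespace Pool.Agent.Lib.MP_4e7804_co.N3

theorem tEulSp (h1 : StmtEulR) : StmtEulSp := by
  obtain ⟨E⟩ := h1
  refine ⟨⟨E.prod E⟩, ⟨(E.prod (E.prod E)).map (ContinuousLinearEquiv.ofFinrankEq ?_)⟩⟩
  simp

end Pool.Agent.Lib.MP_4e7804_co.N3
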