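import Pool.Agent.Lib.MP_4e7804_co.N3.Spec2

/-!
# ExF: existence of the implicit equation
-/

set_option autoImplicit false

namespace Pool.Agent.Lib.MP_4e7804_co.N3

open MvPolynomial

namespace ExFN

/-- the field of rational functions in two variables -/
abbrev Kf : Type := FractionRing (MvPolynomial (Fin 2) ℂ)

theorem dep (x : Fin 3 → Kf) : ¬ AlgebraicIndependent ℂ x := by
  intro hx
  have : Algebra.IsAlgebraic (MvPolynomial (Fin 2) ℂ) Kf :=
    IsFractionRing.comap_isAlgebraic_iff.mpr (Algebra.IsAlgebraic.of_finite Kf Kf)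
  have hb := (IsTranscendenceBasis.mvPolynomial (Fin 2) ℂ).algebraMap_comp (A := Kf)
  have h1 := hb.cardinalMk_eq_trdeg
  have h2 := hx.cardinalMk_le_trdeg
  rw [← h1] at h2
  simp only [Cardinal.mk_fintype, Fintype.card_fin] at h2
  norm_num at h2

end ExFN

theorem tExF (h1 : StmtClr) (h2 : StmtAlg3) : StmtExF := by
  intro S c a hind
  set T : Fin 2 → ExFN.Kf := fun k => algebraMap (MvPolynomial (Fin 2) ℂ) ExFN.Kf (X k) with hT
  have hT0 : ∀ k, T k ≠ 0 := by
    intro k h0
    have h3 : (X k : MvPolynomial (Fin 2) ℂ) = 0 :=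
      IsFractionRing.injective (MvPolynomial (Fin 2) ℂ) ExFN.Kf (by rw [map_zero]; exact h0)
    exact X_ne_zero k h3
  set x : Fin 3 → ExFN.Kf := fun i => evL (S i) (c i) T with hx
  -- both directions of the comparison with the torus
  have toTorus : ∀ G : MvPolynomial (Fin 3) ℂ, aeval x G = 0 →
      ∀ t : Fin 2 → ℂ, (∀ k, t k ≠ 0) → eval (fun i => evC (S i) (c i) t) G = 0 := by
    intro G hG
    exact (h1 S c G).2.2 hG
  have fromTorus : ∀ G : MvPolynomial (Fin 3) ℂ,
      (∀ t : Fin 2 → ℂ, (∀ k, t k ≠ 0) → eval (fun i => evC (S i) (c i) t) G = 0) →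
      aeval x G = 0 := by
    intro G hG
    exact (h1 S c G).2.1 hG ExFN.Kf inferInstance inferInstance T hT0
  have hnind : ∀ G : MvPolynomial (Fin 3) ℂ, G.degreeOf a = 0 → aeval x G = 0 → G = 0 :=
    fun G hG h0 => hind G hG (toTorus G h0)
  -- a nonzero element of the kernel
  let I : Ideal (MvPolynomial (Fin 3) ℂ) := RingHom.ker (aeval x : MvPolynomial (Fin 3) ℂ →ₐ[ℂ] _)
  have hIp : I.IsPrime := RingHom.ker_isPrime _
  have hI0 : I ≠ ⊥ := by
    intro hbot
    refine ExFN.dep x ?_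
    rw [algebraicIndependent_iff]
    intro p hp
    have : p ∈ I := hp
    rwa [hbot, Ideal.mem_bot] at this
  obtain ⟨F, hFI, hFp⟩ := hIp.exists_mem_prime_of_ne_bot hI0
  have hF0 : aeval x F = 0 := hFI
  have hFdeg : F.degreeOf a ≠ 0 := fun h0 => hFp.ne_zero (hnind F h0 hF0)
  have key := h2 ExFN.Kf inferInstance inferInstance x F a hFp.irreducible hF0 hFdeg hnind
  exact ⟨F, hFp.irreducible, fun G => ⟨fun hd => toTorus G ((key G).2 hd),
    fun ht => (key G).1 (fromTorus G ht)⟩⟩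

end Pool.Agent.Lib.MP_4e7804_co.N3
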