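import Pool.Agent.Lib.MP_4e7804_co.N3.Spec2

/-!
# n = 3: existence of the situation
-/

set_option autoImplicit false

namespace Pool.Agent.Lib.MP_4e7804_co.N3.ExSitN

open Pool.Agent.Lib.MP_4e7804_co.N3

theorem finite_tie (q q' w₀ : Pl) (h : q ≠ q') :
    {t : ℝ | dt q (w₀.1 + t, w₀.2 + t ^ 2) = dt q' (w₀.1 + t, w₀.2 + t ^ 2)}.Finite := by
  classical
  set P : Polynomial ℝ := Polynomial.C (dt q w₀ - dt q' w₀) +
    Polynomial.C (q.1 - q'.1) * Polynomial.X + Polynomial.C (q.2 - q'.2) * Polynomial.X ^ 2 with hP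
  have hP0 : P ≠ 0 := by
    intro h0
    have h1 : P.coeff 1 = 0 := by rw [h0]; simp
    have h2 : P.coeff 2 = 0 := by rw [h0]; simp
    rw [hP] at h1 h2
    simp only [Polynomial.coeff_add, Polynomial.coeff_C_mul, Polynomial.coeff_X_pow,
      Polynomial.coeff_X, Polynomial.coeff_C] at h1 h2
    norm_num at h1 h2
    apply h
    exact Prod.ext (by linarith) (by linarith)
  refine Set.Finite.subset P.roots.toFinset.finite_toSet fun t ht => ?_
  rw [Finset.mem_coe, Multiset.mem_toFinset, Polynomial.mem_roots hP0, Polynomial.IsRoot.def, hP]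
  simp only [Set.mem_ofPred_eq, dt] at ht
  simp only [Polynomial.eval_add, Polynomial.eval_mul, Polynomial.eval_C, Polynomial.eval_X,
    Polynomial.eval_pow, dt]
  linarith

theorem exists_meet {B : Finset Pl} (hB : B.Nonempty) {U : Set Pl} (hU : IsOpen U)
    (hne : U.Nonempty) : ∃ q ∈ B, (U ∩ NC B q).Nonempty := by
  obtain ⟨w₀, hw₀⟩ := hne
  set γ : ℝ → Pl := fun t => (w₀.1 + t, w₀.2 + t ^ 2) with hγd
  have hγ : Continuous γ := by
    rw [hγd]
    fun_prop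
  have hpre : IsOpen (γ ⁻¹' U) := hU.preimage hγ
  have h0 : (0 : ℝ) ∈ γ ⁻¹' U := by
    have : γ 0 = w₀ := by
      rw [hγd]
      ext <;> simp
    rw [Set.mem_preimage, this]
    exact hw₀
  obtain ⟨ε, hε, hball⟩ := Metric.isOpen_iff.1 hpre 0 h0
  have hfin : (⋃ q ∈ B, ⋃ q' ∈ B, {t : ℝ | q ≠ q' ∧ dt q (γ t) = dt q' (γ t)}).Finite := by
    refine Set.Finite.biUnion B.finite_toSet fun q _ =>
      Set.Finite.biUnion B.finite_toSet fun q' _ => ?_
    by_cases h : q = q'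
    · simp [h]
    · exact (finite_tie q q' w₀ h).subset fun t ht => ht.2
  obtain ⟨t, ⟨ht1, ht2⟩, ht3⟩ := ((Set.Ioo_infinite hε).sdiff hfin).nonempty
  have htU : γ t ∈ U := by
    apply hball
    rw [Metric.mem_ball, Real.dist_eq, sub_zero, abs_of_pos ht1]
    exact ht2
  obtain ⟨q, hq, hq'⟩ := exists_psi hB (γ t)
  refine ⟨q, hq, γ t, htU, fun q' hqB hqq => ?_⟩
  have h1 : dt q (γ t) ≤ dt q' (γ t) := by
    rw [← hq']
    exact psi_le hqB _
  refine lt_of_le_of_ne h1 fun h2 => ht3 ?_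
  simp only [Set.mem_iUnion]
  exact ⟨q, hq, q', hqB, Ne.symm hqq, h2⟩

end Pool.Agent.Lib.MP_4e7804_co.N3.ExSitN

open Pool.Agent.Lib.MP_4e7804_co.N3 in
/-- existence of the situation, with given supports -/
theorem Pool.Agent.Lib.MP_4e7804_co.N3.tExSit (hI : StmtIndp) (hE : StmtExF) (hD : StmtDens) :
    StmtExSit := by
  intro S W hS hG
  constructor
  · intro c hc
    have hc0 : ∀ i, ∀ p ∈ S i, c i p ≠ 0 := fun i p hp => hc.ne_zero ⟨i, ⟨p, hp⟩⟩
    obtain ⟨p, hp⟩ := (hS.cp 1).1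
    have hB : (rv (W 2)).Nonempty := hG.ne 2
    obtain ⟨q₀, hq₀, hne⟩ := ExSitN.exists_meet hB (NC_open (rv (W 1)) (toPl p)) ((hS.cp 1).2 p hp)
    obtain ⟨q, hq, rfl⟩ := mem_rv.1 hq₀
    have hcr : cr (toPl p) (toPl q) ≠ 0 :=
      hG.g1 1 2 (by decide) _ (toPl_mem_rv hp) _ (toPl_mem_rv hq)
    obtain ⟨F, hF⟩ := hE S c 0 (hI S W c hS hc0 0 1 2 (by decide) (by decide) (by decide)
      p hp q hq hne hcr)
    exact ⟨F, hS, hc, hF⟩
  · classical
    obtain ⟨x, hx, _⟩ := hD (Σ i : Fin 3, {p // p ∈ S i}) inferInstance (fun _ => 0) 1 one_pos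
    refine ⟨fun i p => if h : p ∈ S i then x ⟨i, ⟨p, h⟩⟩ else 0, ?_⟩
    have h1 : (fun y : (Σ i : Fin 3, {p // p ∈ S i}) =>
        (if h : y.2.1 ∈ S y.1 then x ⟨y.1, ⟨y.2.1, h⟩⟩ else 0)) = x := by
      funext y
      obtain ⟨i, p, hp⟩ := y
      simp [hp]
    unfold Ind
    rw [h1]
    exact hx
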