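import Pool.Agent.Lib.MP_4e7804_co.N3.Spec

/-!
# The integral of a finite set
-/

set_option autoImplicit false

namespace Pool.Agent.Lib.MP_4e7804_co.N3

theorem tFin : StmtFin := by
  classical
  intro α _ _ _ d E s hs
  have h1 := E.toEul.sum hs.toFinset (fun a => ind {a}) (fun _ => 1) (fun a _ => E.pt a)
  have h2 : (∑ a ∈ hs.toFinset, ind ({a} : Set α)) = ind s := by
    funext x
    rw [Finset.sum_apply]
    by_cases hx : x ∈ s
    · rw [ind_mem hx, Finset.sum_eq_single x]
      · exact ind_mem (Set.mem_singleton x)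
      · intro b _ hb
        exact ind_notMem (fun h => hb (Set.mem_singleton_iff.1 h).symm)
      · intro h
        exact absurd (hs.mem_toFinset.2 hx) h
    · rw [ind_notMem hx]
      refine Finset.sum_eq_zero fun b hb => ind_notMem fun h => hx ?_
      rw [Set.mem_singleton_iff.1 h]
      exact hs.mem_toFinset.1 hb
  rw [h2, Finset.sum_const, nsmul_eq_mul, mul_one] at h1
  rw [Set.ncard_eq_toFinset_card s hs]
  exact h1

end Pool.Agent.Lib.MP_4e7804_co.N3
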