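import Pool.Agent.Lib.MP_4e7804_co.N3.Spec3

set_option autoImplicit false

namespace Pool.Agent.Lib.MP_4e7804_co.N3

theorem Fin3N.upper (hUp : StmtUpAll) (hLatP : StmtLatP) (hGen : StmtGenI) (hImp : StmtImpI)
    (hNv : StmtNvI) (v : Fin 3 → ℕ) (N : ℕ) (hN : IsVertexNumber (d := 2) v N) : N ≤ VV v := by
  obtain ⟨P, c, F, hP, hv, hg, hi, hn⟩ := hN
  choose W S hCP hsub hmem hhull hcard using fun i => hLatP (P i) (hP i)
  have hsit : Sit S W c F :=
    ⟨⟨hCP, hsub, hhull⟩, (hGen P S c hmem).1 hg, (hImp P S c F hmem).1 hi⟩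
  have h1 := hUp S W c F hsit
  have h2 : (fun i => (W i).card) = v := by
    funext i
    rw [hcard i, hv i]
  rw [h2] at h1
  rw [← hn, hNv F]
  exact h1

theorem tFin3 (hUp : StmtUpAll) (hLow : StmtLowF) (hLatP : StmtLatP) (hLatW : StmtLatW)
    (hGen : StmtGenI) (hImp : StmtImpI) (hNv : StmtNvI) : StmtFin3 := by
  intro v hv
  have up := Fin3N.upper hUp hLatP hGen hImp hNv v
  refine ⟨?_, fun N hN => up N hN⟩
  obtain ⟨W, hCP, hcard, hW⟩ := hLow v hv
  choose hlat hnum S hsub hmem hhull using fun i => hLatW (W i) (hCP i)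
  obtain ⟨c, F, hsit, hle⟩ := hW S ⟨hCP, hsub, hhull⟩
  have hN : IsVertexNumber (d := 2) v (numVertices (newton F)) :=
    ⟨fun i => convexHull ℝ (toReal '' (W i : Set (Fin 2 → ℤ))), c, F, hlat,
      fun i => by rw [hnum i, hcard i], (hGen _ S c hmem).2 hsit.ind,
      (hImp _ S c F hmem).2 hsit.imp, rfl⟩
  have h1 := up _ hN
  have h2 : VV v ≤ numVertices (newton F) := by rw [hNv F]; exact hle
  have h3 : numVertices (newton F) = VV v := le_antisymm h1 h2
  rw [h3] at hN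
  exact hN

end Pool.Agent.Lib.MP_4e7804_co.N3
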