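import Pool.Agent.Lib.MP_4e7804_co.N3.Spec2

/-!
# The surface is closed
-/

set_option autoImplicit false

namespace Pool.Agent.Lib.MP_4e7804_co.N3

namespace GCloN

open Filter Topology

theorem CL_closed (A : Finset Pl) : IsClosed (CL A) := by
  have h : CL A = ⋂ p ∈ A, (NC A p)ᶜ := by
    ext w
    simp [CL]
  rw [h]
  exact isClosed_biInter fun p _ => (NC_open A p).isClosed_compl

variable {A : Fin 3 → Finset Pl}

theorem wit_closed (hA : ∀ i, (A i).Nonempty) : IsClosed {x : Sp × Pl | Wit A x.1 x.2} := by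
  have h : {x : Sp × Pl | Wit A x.1 x.2} = ⋂ i, ({x : Sp × Pl | psi (A i) x.2 ≤ x.1 i} ∩
      ({x : Sp × Pl | x.2 ∈ CL (A i)} ∪ {x : Sp × Pl | x.1 i = psi (A i) x.2})) := by
    ext x
    rw [Set.mem_iInter]
    rfl
  rw [h]
  refine isClosed_iInter fun i => ?_
  have h1 : Continuous fun x : Sp × Pl => psi (A i) x.2 := (psi_cont (hA i)).comp continuous_snd
  have h2 : Continuous fun x : Sp × Pl => x.1 i := (continuous_apply i).comp continuous_fst
  exact (isClosed_le h1 h2).inter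
    (((CL_closed (A i)).preimage continuous_snd).union (isClosed_eq h2 h1))

theorem wit_smul (hA : ∀ i, (A i).Nonempty) {z : Sp} {w : Pl} (h : Wit A z w) {t : ℝ}
    (ht : 0 ≤ t) : Wit A (t • z) (t • w) := by
  intro i
  obtain ⟨h1, h2⟩ := h i
  rw [psi_smul (hA i) w ht, Pi.smul_apply, smul_eq_mul]
  refine ⟨mul_le_mul_of_nonneg_left h1 ht, ?_⟩
  rcases h2 with h2 | h2
  · exact Or.inl (CL_smul (hA i) ht h2)
  · exact Or.inr (by rw [h2])

theorem wit_bound (hA : ∀ i, (A i).Nonempty) (h0 : ∀ w, Wit A 0 w → w = 0) :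
    ∃ C : ℝ, 0 ≤ C ∧ ∀ z w, Wit A z w → ‖w‖ ≤ C * ‖z‖ := by
  have hK : IsCompact ({x : Sp × Pl | Wit A x.1 x.2} ∩
      (Metric.closedBall (0 : Sp) 1 ×ˢ Metric.sphere (0 : Pl) 1)) :=
    ((isCompact_closedBall _ _).prod (isCompact_sphere _ _)).inter_left (wit_closed hA)
  have hmain : ∃ δ : ℝ, 0 < δ ∧ ∀ z w, Wit A z w → ‖w‖ = 1 → δ ≤ ‖z‖ := by
    by_cases hne : ({x : Sp × Pl | Wit A x.1 x.2} ∩
      (Metric.closedBall (0 : Sp) 1 ×ˢ Metric.sphere (0 : Pl) 1)).Nonempty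
    · obtain ⟨⟨z0, w0⟩, hx, hmin⟩ := hK.exists_isMinOn hne
        (f := fun x : Sp × Pl => ‖x.1‖) (continuous_fst.norm.continuousOn)
      have hz0 : 0 < ‖z0‖ := by
        rw [norm_pos_iff]
        rintro rfl
        have h1 : w0 = 0 := h0 w0 hx.1
        have h2 : ‖w0‖ = 1 := by simpa using hx.2.2
        rw [h1, norm_zero] at h2
        exact zero_ne_one h2
      refine ⟨min ‖z0‖ 1, lt_min hz0 one_pos, fun z w hw hw1 => ?_⟩
      by_cases hz : ‖z‖ ≤ 1
      · refine (min_le_left _ _).trans ?_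
        exact hmin (a := (z, w)) ⟨hw, by simpa using hz, by simpa using hw1⟩
      · exact (min_le_right _ _).trans (not_le.1 hz).le
    · refine ⟨1, one_pos, fun z w hw hw1 => ?_⟩
      by_contra hz
      exact hne ⟨(z, w), hw, by simpa using (not_le.1 hz).le, by simpa using hw1⟩
  obtain ⟨δ, hδ, hm⟩ := hmain
  refine ⟨δ⁻¹, (inv_pos.2 hδ).le, fun z w hw => ?_⟩
  by_cases hw0 : w = 0
  · rw [hw0, norm_zero]
    positivity
  · have hp : 0 < ‖w‖ := norm_pos_iff.2 hw0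
    have h1 := hm _ _ (wit_smul hA hw (inv_pos.2 hp).le) (by
      rw [norm_smul, norm_inv, norm_norm, inv_mul_cancel₀ hp.ne'])
    rw [norm_smul, norm_inv, norm_norm] at h1
    rw [← div_eq_inv_mul, le_div_iff₀ hδ]
    rw [← div_eq_inv_mul, le_div_iff₀ hp] at h1
    linarith

end GCloN

open Filter Topology GCloN in
theorem tGClo (h1 : StmtPair) (h2 : StmtCLdef) : StmtGClo := by
  intro A hA
  obtain ⟨-, -, h0⟩ := h1 A hA
  obtain ⟨-, -, h3, -⟩ := h2 A hA
  obtain ⟨C, hC, hb⟩ := wit_bound hA.ne h0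
  refine isClosed_of_closure_subset fun z hz => ?_
  rw [mem_closure_iff_seq_limit] at hz
  obtain ⟨zs, hzs, hlim⟩ := hz
  choose ws hws hne using hzs
  obtain ⟨D, hD⟩ := (Metric.isBounded_range_of_tendsto zs hlim).exists_norm_le
  have hbd : ∀ n, ws n ∈ Metric.closedBall (0 : Pl) (C * D) := by
    intro n
    rw [mem_closedBall_zero_iff]
    exact (hb _ _ (hws n)).trans (mul_le_mul_of_nonneg_left (hD _ ⟨n, rfl⟩) hC)
  obtain ⟨w, -, φ, hφ, hw⟩ := (isCompact_closedBall (0 : Pl) (C * D)).tendsto_subseq hbd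
  have hz' : Tendsto (zs ∘ φ) atTop (𝓝 z) := hlim.comp hφ.tendsto_atTop
  have hW : Wit A z w := by
    have := (wit_closed hA.ne).mem_of_tendsto (hz'.prodMk_nhds hw)
      (Eventually.of_forall fun n => hws (φ n))
    exact this
  refine ⟨w, hW, ?_⟩
  rintro ⟨rfl, hoct⟩
  have hev : ∀ i, ∀ᶠ n in atTop, psi (A i) (ws (φ n)) < zs (φ n) i ∧ 0 < zs (φ n) i := by
    intro i
    have e1 : Tendsto (fun n => psi (A i) (ws (φ n))) atTop (𝓝 0) := by
      have := ((psi_cont (hA.ne i)).tendsto 0).comp hw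
      rw [psi_zero (hA.ne i)] at this
      exact this
    have e2 : Tendsto (fun n => zs (φ n) i) atTop (𝓝 (z i)) :=
      ((continuous_apply i).tendsto z).comp hz'
    exact (e1.eventually_lt e2 (hoct i)).and (e2.eventually_const_lt (hoct i))
  obtain ⟨n, hn⟩ := (eventually_all.2 hev).exists
  have hcl : ∀ i, ws (φ n) ∈ CL (A i) := by
    intro i
    rcases (hws (φ n) i).2 with h | h
    · exact h
    · exact absurd h (hn i).1.ne'
  exact hne (φ n) ⟨h3 0 1 (by decide) _ (hcl 0) (hcl 1), fun i => (hn i).2⟩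

end Pool.Agent.Lib.MP_4e7804_co.N3
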