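import Pool.Agent.Lib.MP_4e7804_co.N3.Spec3

/-!
Genericity of the coefficients: reindexing.
-/

set_option autoImplicit false

namespace Pool.Agent.Lib.MP_4e7804_co.N3

namespace GenIN

/-- the equivalence of the two index types -/
def eqv (P : Fin 3 → Set (Fin 2 → ℝ)) (S : Fin 3 → Finset (Fin 2 → ℤ))
    (h : ∀ i p, p ∈ S i ↔ p ∈ latticePoints (P i)) :
    (Σ i : Fin 3, {p // p ∈ S i}) ≃ (Σ i : Fin 3, latticePoints (P i)) :=
  Equiv.sigmaCongrRight fun i => Equiv.subtypeEquivRight (h i)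

end GenIN

theorem tGenI : StmtGenI := by
  intro P S c h
  unfold IsGeneric Ind
  rw [← algebraicIndependent_equiv (GenIN.eqv P S h)]
  rfl

end Pool.Agent.Lib.MP_4e7804_co.N3
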