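import Pool.Agent.Lib.MP_4e7804_co.N3.Spec

/-!
# Inclusion-exclusion for three families of open convex sets
-/

set_option autoImplicit false

namespace Pool.Agent.Lib.MP_4e7804_co.N3.IEN

theorem ind_inter {α : Type*} (s t : Set α) (x : α) : ind (s ∩ t) x = ind s x * ind t x := by
  by_cases hs : x ∈ s
  · by_cases ht : x ∈ t
    · rw [ind_mem hs, ind_mem ht, ind_mem (s := s ∩ t) ⟨hs, ht⟩, one_mul]
    · rw [ind_notMem ht, ind_notMem (s := s ∩ t) (fun h => ht h.2), mul_zero]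
  · rw [ind_notMem hs, ind_notMem (s := s ∩ t) (fun h => hs h.1), zero_mul]

theorem sum_ap {α γ : Type*} (s : Finset γ) (f : γ → α → ℤ) (x : α) :
    (∑ k ∈ s, f k) x = ∑ k ∈ s, f k x := Finset.sum_apply x s f

theorem one {α ι : Type*} (K : Finset ι) (U : ι → Set α)
    (hd : ∀ k ∈ K, ∀ l ∈ K, k ≠ l → Disjoint (U k) (U l)) (x : α) :
    ind {x | ∀ k ∈ K, x ∉ U k} x = 1 - ∑ k ∈ K, ind (U k) x := by
  by_cases h : ∀ k ∈ K, x ∉ U k
  · rw [ind_mem (s := {x | ∀ k ∈ K, x ∉ U k}) h,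
      Finset.sum_eq_zero fun k hk => ind_notMem (h k hk), sub_zero]
  · rw [ind_notMem (s := {x | ∀ k ∈ K, x ∉ U k}) h]
    push Not at h
    obtain ⟨k, hk, hx⟩ := h
    rw [Finset.sum_eq_single_of_mem k hk, ind_mem hx, sub_self]
    intro l hl hlk
    exact ind_notMem fun hx' => Set.disjoint_left.1 (hd l hl k hk hlk) hx' hx

theorem mul2 {α ι κ : Type*} (K : Finset ι) (L : Finset κ) (U : ι → Set α) (V : κ → Set α)
    (x : α) : (∑ k ∈ K, ind (U k) x) * (∑ l ∈ L, ind (V l) x) =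
      ∑ k ∈ K ×ˢ L, ind (U k.1 ∩ V k.2) x := by
  rw [Finset.sum_mul_sum, Finset.sum_product]
  refine Finset.sum_congr rfl fun k _ => Finset.sum_congr rfl fun l _ => ?_
  rw [ind_inter]

theorem mul3 {α ι κ μ : Type*} (K : Finset ι) (L : Finset κ) (M : Finset μ) (U : ι → Set α)
    (V : κ → Set α) (W : μ → Set α) (x : α) :
    (∑ k ∈ K, ind (U k) x) * (∑ l ∈ L, ind (V l) x) * (∑ m ∈ M, ind (W m) x) =
      ∑ k ∈ K ×ˢ L ×ˢ M, ind (U k.1 ∩ V k.2.1 ∩ W k.2.2) x := by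
  rw [mul_assoc, mul2, Finset.sum_mul_sum, Finset.sum_product]
  refine Finset.sum_congr rfl fun k _ => Finset.sum_congr rfl fun l _ => ?_
  rw [ind_inter, ind_inter, ind_inter, mul_assoc]

open Classical in
theorem val {α : Type} [TopologicalSpace α] [AddCommGroup α] [Module ℝ α] {d : ℕ}
    (E : EulD α d) {γ : Type*} (s : Finset γ) (Q : γ → Set α)
    (h : ∀ k ∈ s, IsOpen (Q k) ∧ Convex ℝ (Q k)) :
    E.rel (∑ k ∈ s, ind (Q k))
      ((-1) ^ d * ((s.filter fun k => (Q k).Nonempty).card : ℤ)) := by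
  have h1 : ((-1) ^ d * ((s.filter fun k => (Q k).Nonempty).card : ℤ)) =
      ∑ k ∈ s, (-1 : ℤ) ^ d * (if (Q k).Nonempty then 1 else 0) := by
    rw [← Finset.mul_sum, Finset.card_filter]
    push_cast
    rfl
  rw [h1]
  refine E.toEul.sum s _ _ fun k hk => ?_
  by_cases hn : (Q k).Nonempty
  · rw [if_pos hn, mul_one]
    exact E.opn _ (h k hk).1 (h k hk).2 hn
  · rw [if_neg hn, mul_zero, EulD.ind_zero_of_empty (Set.not_nonempty_iff_eq_empty.1 hn)]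
    exact E.zero

end IEN

open IEN in
theorem tIE : StmtIE := by
  intro α i1 i2 i3 d E ι K U hU hd
  have hab : ∀ i j, ∀ k ∈ K i ×ˢ K j, IsOpen (U i k.1 ∩ U j k.2) ∧
      Convex ℝ (U i k.1 ∩ U j k.2) := by
    intro i j k hk
    have h := Finset.mem_product.1 hk
    exact ⟨(hU i _ h.1).1.inter (hU j _ h.2).1, (hU i _ h.1).2.inter (hU j _ h.2).2⟩
  have habc : ∀ k ∈ K 0 ×ˢ K 1 ×ˢ K 2, IsOpen (U 0 k.1 ∩ U 1 k.2.1 ∩ U 2 k.2.2) ∧
      Convex ℝ (U 0 k.1 ∩ U 1 k.2.1 ∩ U 2 k.2.2) := by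
    intro k hk
    have h := Finset.mem_product.1 hk
    have h' := Finset.mem_product.1 h.2
    exact ⟨((hU 0 _ h.1).1.inter (hU 1 _ h'.1).1).inter (hU 2 _ h'.2).1,
      ((hU 0 _ h.1).2.inter (hU 1 _ h'.1).2).inter (hU 2 _ h'.2).2⟩
  have r0 := E.opn Set.univ isOpen_univ convex_univ ⟨0, trivial⟩
  have a0 := val E (K 0) (U 0) (hU 0)
  have a1 := val E (K 1) (U 1) (hU 1)
  have a2 := val E (K 2) (U 2) (hU 2)
  have b0 := val E (K 0 ×ˢ K 1) (fun k => U 0 k.1 ∩ U 1 k.2) (hab 0 1)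
  have b1 := val E (K 0 ×ˢ K 2) (fun k => U 0 k.1 ∩ U 2 k.2) (hab 0 2)
  have b2 := val E (K 1 ×ˢ K 2) (fun k => U 1 k.1 ∩ U 2 k.2) (hab 1 2)
  have c0 := val E (K 0 ×ˢ K 1 ×ˢ K 2) (fun k => U 0 k.1 ∩ U 1 k.2.1 ∩ U 2 k.2.2) habc
  have key := E.toEul.sub (E.add _ _ _ _ (E.toEul.sub r0 (E.add _ _ _ _ (E.add _ _ _ _ a0 a1) a2))
    (E.add _ _ _ _ (E.add _ _ _ _ b0 b1) b2)) c0
  convert key using 1
  · funext x
    have e1 : ind {x | ∀ i, ∀ k ∈ K i, x ∉ U i k} x =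
        ind {x | ∀ k ∈ K 0, x ∉ U 0 k} x * ind {x | ∀ k ∈ K 1, x ∉ U 1 k} x *
          ind {x | ∀ k ∈ K 2, x ∉ U 2 k} x := by
      rw [← ind_inter, ← ind_inter]
      refine ind_congr ?_
      constructor
      · intro h
        exact ⟨⟨h 0, h 1⟩, h 2⟩
      · rintro ⟨⟨h0, h1⟩, h2⟩ i
        fin_cases i
        · exact h0
        · exact h1
        · exact h2
    rw [e1, one _ _ (hd 0), one _ _ (hd 1), one _ _ (hd 2)]
    simp only [Pi.sub_apply, Pi.add_apply, sum_ap]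
    rw [← mul2, ← mul2, ← mul2, ← mul3, ind_mem (Set.mem_univ x)]
    ring
  · unfold n1 n2 n3
    ring

end Pool.Agent.Lib.MP_4e7804_co.N3
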