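import Pool.Agent.Lib.MP_4e7804_co.N3.Spec2

/-!
# n = 3, IFT: common zeros near a binomial system
-/

set_option autoImplicit false

namespace Pool.Agent.Lib.MP_4e7804_co.N3.IFTN

open Filter Topology

/-- the exponential sum -/
private noncomputable def fS (S : Finset (Fin 2 → ℤ)) (x : (S → ℂ) × (ℂ × ℂ)) : ℂ :=
  ∑ r : S, x.1 r * Complex.exp (((r.1 0 : ℤ) : ℂ) * x.2.1 + ((r.1 1 : ℤ) : ℂ) * x.2.2)

/-- the linear form of an exponent -/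
private noncomputable def lin (S : Finset (Fin 2 → ℤ)) (r : Fin 2 → ℤ) :
    ((S → ℂ) × (ℂ × ℂ)) →L[ℂ] ℂ :=
  ((r 0 : ℤ) : ℂ) • ((ContinuousLinearMap.fst ℂ ℂ ℂ).comp (ContinuousLinearMap.snd ℂ (S → ℂ) (ℂ × ℂ))) +
    ((r 1 : ℤ) : ℂ) • ((ContinuousLinearMap.snd ℂ ℂ ℂ).comp (ContinuousLinearMap.snd ℂ (S → ℂ) (ℂ × ℂ)))

private theorem lin_apply (S : Finset (Fin 2 → ℤ)) (r : Fin 2 → ℤ) (x : (S → ℂ) × (ℂ × ℂ)) :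
    lin S r x = ((r 0 : ℤ) : ℂ) * x.2.1 + ((r 1 : ℤ) : ℂ) * x.2.2 := rfl

/-- coordinate -/
private noncomputable def co (S : Finset (Fin 2 → ℤ)) (r : S) : ((S → ℂ) × (ℂ × ℂ)) →L[ℂ] ℂ :=
  (ContinuousLinearMap.proj r).comp (ContinuousLinearMap.fst ℂ (S → ℂ) (ℂ × ℂ))

private theorem co_apply (S : Finset (Fin 2 → ℤ)) (r : S) (x : (S → ℂ) × (ℂ × ℂ)) :
    co S r x = x.1 r := rfl

/-- the derivative -/
private noncomputable def dS (S : Finset (Fin 2 → ℤ)) (c : S → ℂ) : ((S → ℂ) × (ℂ × ℂ)) →L[ℂ] ℂ :=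
  ∑ r : S, (co S r + c r • lin S r.1)

private theorem fS_deriv (S : Finset (Fin 2 → ℤ)) (c : S → ℂ) :
    HasStrictFDerivAt (fS S) (dS S c) (c, (0, 0)) := by
  unfold fS dS
  refine HasStrictFDerivAt.fun_sum fun r _ => ?_
  have h1 : HasStrictFDerivAt (fun x : (S → ℂ) × (ℂ × ℂ) => x.1 r) (co S r) (c, (0, 0)) :=
    (co S r).hasStrictFDerivAt
  have h2 : HasStrictFDerivAt (fun x : (S → ℂ) × (ℂ × ℂ) =>
      Complex.exp (((r.1 0 : ℤ) : ℂ) * x.2.1 + ((r.1 1 : ℤ) : ℂ) * x.2.2))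
      (Complex.exp (lin S r.1 (c, (0, 0))) • lin S r.1) (c, (0, 0)) :=
    (lin S r.1).hasStrictFDerivAt.cexp
  have h3 := h1.mul h2
  refine h3.congr_fderiv ?_
  ext x
  · simp [co, lin]
  · simp [co, lin]
  · simp [co, lin]

private theorem dS_apply (S : Finset (Fin 2 → ℤ)) (c : S → ℂ) (x : (S → ℂ) × (ℂ × ℂ)) :
    dS S c x = ∑ r : S, (x.1 r + c r * (((r.1 0 : ℤ) : ℂ) * x.2.1 + ((r.1 1 : ℤ) : ℂ) * x.2.2)) := by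
  unfold dS
  rw [sum_apply]
  rfl

/-- the binomial coefficients -/
private noncomputable def c0 (p p' r : Fin 2 → ℤ) : ℂ := if r = p then 1 else if r = p' then -1 else 0

private theorem sum_c0 (S : Finset (Fin 2 → ℤ)) {p p' : Fin 2 → ℤ} (hp : p ∈ S) (hp' : p' ∈ S)
    (hne : p ≠ p') (g : (Fin 2 → ℤ) → ℂ) : ∑ r : S, c0 p p' r.1 * g r.1 = g p - g p' := by
  rw [Finset.sum_coe_sort S (fun r => c0 p p' r * g r)]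
  have h1 : ∀ r ∈ S, c0 p p' r * g r = (if r = p then g p else 0) + (if r = p' then - g p' else 0) := by
    intro r _
    unfold c0
    by_cases h : r = p
    · subst h
      rw [if_pos rfl, if_pos rfl, if_neg hne]
      ring
    · by_cases h' : r = p'
      · subst h'
        rw [if_neg h, if_pos rfl, if_neg h, if_pos rfl]
        ring
      · rw [if_neg h, if_neg h', if_neg h, if_neg h']
        ring
  rw [Finset.sum_congr rfl h1, Finset.sum_add_distrib, Finset.sum_ite_eq' S p, Finset.sum_ite_eq' S p',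
    if_pos hp, if_pos hp']
  ring

private theorem fS_zero (S : Finset (Fin 2 → ℤ)) {p p' : Fin 2 → ℤ} (hp : p ∈ S) (hp' : p' ∈ S)
    (hne : p ≠ p') : fS S (fun r => c0 p p' r.1, (0, 0)) = 0 := by
  have h := sum_c0 S hp hp' hne (fun _ => 1)
  unfold fS
  simpa using h

private theorem dS_c0 (S : Finset (Fin 2 → ℤ)) {p p' : Fin 2 → ℤ} (hp : p ∈ S) (hp' : p' ∈ S)
    (hne : p ≠ p') (x : (S → ℂ) × (ℂ × ℂ)) :
    dS S (fun r => c0 p p' r.1) x = ∑ r : S, x.1 r +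
      ((((p 0 - p' 0 : ℤ)) : ℂ) * x.2.1 + (((p 1 - p' 1 : ℤ)) : ℂ) * x.2.2) := by
  rw [dS_apply, Finset.sum_add_distrib,
    sum_c0 S hp hp' hne (fun r => ((r 0 : ℤ) : ℂ) * x.2.1 + ((r 1 : ℤ) : ℂ) * x.2.2)]
  push_cast
  ring

private theorem fS_evC (S : Finset (Fin 2 → ℤ)) (c : (Fin 2 → ℤ) → ℂ) (u : ℂ × ℂ) :
    fS S (fun r => c r.1, u) = evC S c ![Complex.exp u.1, Complex.exp u.2] := by
  unfold fS evC
  rw [Finset.sum_coe_sort S (fun r => c r * Complex.exp (((r 0 : ℤ) : ℂ) * u.1 + ((r 1 : ℤ) : ℂ) * u.2))]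
  refine Finset.sum_congr rfl fun r _ => ?_
  simp only [Matrix.cons_val_zero, Matrix.cons_val_one]
  rw [Complex.exp_add, Complex.exp_int_mul, Complex.exp_int_mul]

/-- the map -/
private noncomputable def Phi (S₁ S₂ : Finset (Fin 2 → ℤ)) (x : (S₁ → ℂ) × (S₂ → ℂ) × (ℂ × ℂ)) :
    (S₁ → ℂ) × (S₂ → ℂ) × (ℂ × ℂ) :=
  (x.1, x.2.1, (fS S₁ (x.1, x.2.2), fS S₂ (x.2.1, x.2.2)))

/-- first projection -/
private noncomputable def P1 (S₁ S₂ : Finset (Fin 2 → ℤ)) :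
    ((S₁ → ℂ) × (S₂ → ℂ) × (ℂ × ℂ)) →L[ℂ] ((S₁ → ℂ) × (ℂ × ℂ)) :=
  (ContinuousLinearMap.fst ℂ (S₁ → ℂ) ((S₂ → ℂ) × (ℂ × ℂ))).prod
    ((ContinuousLinearMap.snd ℂ (S₂ → ℂ) (ℂ × ℂ)).comp
      (ContinuousLinearMap.snd ℂ (S₁ → ℂ) ((S₂ → ℂ) × (ℂ × ℂ))))

/-- second projection -/
private noncomputable def P2 (S₁ S₂ : Finset (Fin 2 → ℤ)) :
    ((S₁ → ℂ) × (S₂ → ℂ) × (ℂ × ℂ)) →L[ℂ] ((S₂ → ℂ) × (ℂ × ℂ)) :=
  ContinuousLinearMap.snd ℂ (S₁ → ℂ) ((S₂ → ℂ) × (ℂ × ℂ))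

/-- the derivative of `Phi` -/
private noncomputable def dPhi (S₁ S₂ : Finset (Fin 2 → ℤ)) (c : S₁ → ℂ) (c' : S₂ → ℂ) :
    ((S₁ → ℂ) × (S₂ → ℂ) × (ℂ × ℂ)) →L[ℂ] ((S₁ → ℂ) × (S₂ → ℂ) × (ℂ × ℂ)) :=
  (ContinuousLinearMap.fst ℂ (S₁ → ℂ) ((S₂ → ℂ) × (ℂ × ℂ))).prod
    (((ContinuousLinearMap.fst ℂ (S₂ → ℂ) (ℂ × ℂ)).comp
      (ContinuousLinearMap.snd ℂ (S₁ → ℂ) ((S₂ → ℂ) × (ℂ × ℂ)))).prod
      (((dS S₁ c).comp (P1 S₁ S₂)).prod ((dS S₂ c').comp (P2 S₁ S₂))))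

private theorem Phi_deriv (S₁ S₂ : Finset (Fin 2 → ℤ)) (c : S₁ → ℂ) (c' : S₂ → ℂ) :
    HasStrictFDerivAt (Phi S₁ S₂) (dPhi S₁ S₂ c c') (c, c', (0, 0)) := by
  unfold Phi dPhi
  have h1 : HasStrictFDerivAt (fun x : (S₁ → ℂ) × (S₂ → ℂ) × (ℂ × ℂ) => x.1)
      (ContinuousLinearMap.fst ℂ (S₁ → ℂ) ((S₂ → ℂ) × (ℂ × ℂ))) (c, c', (0, 0)) :=
    (ContinuousLinearMap.fst ℂ (S₁ → ℂ) ((S₂ → ℂ) × (ℂ × ℂ))).hasStrictFDerivAt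
  have h2 : HasStrictFDerivAt (fun x : (S₁ → ℂ) × (S₂ → ℂ) × (ℂ × ℂ) => x.2.1)
      ((ContinuousLinearMap.fst ℂ (S₂ → ℂ) (ℂ × ℂ)).comp
      (ContinuousLinearMap.snd ℂ (S₁ → ℂ) ((S₂ → ℂ) × (ℂ × ℂ)))) (c, c', (0, 0)) :=
    ((ContinuousLinearMap.fst ℂ (S₂ → ℂ) (ℂ × ℂ)).comp
      (ContinuousLinearMap.snd ℂ (S₁ → ℂ) ((S₂ → ℂ) × (ℂ × ℂ)))).hasStrictFDerivAt
  have h3 : HasStrictFDerivAt (fun x : (S₁ → ℂ) × (S₂ → ℂ) × (ℂ × ℂ) => fS S₁ (x.1, x.2.2))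
      ((dS S₁ c).comp (P1 S₁ S₂)) (c, c', (0, 0)) :=
    HasStrictFDerivAt.comp (c, c', (0, 0)) (f := fun x : (S₁ → ℂ) × (S₂ → ℂ) × (ℂ × ℂ) => (x.1, x.2.2))
      (g := fS S₁) (fS_deriv S₁ c) (P1 S₁ S₂).hasStrictFDerivAt
  have h4 : HasStrictFDerivAt (fun x : (S₁ → ℂ) × (S₂ → ℂ) × (ℂ × ℂ) => fS S₂ (x.2.1, x.2.2))
      ((dS S₂ c').comp (P2 S₁ S₂)) (c, c', (0, 0)) :=
    HasStrictFDerivAt.comp (c, c', (0, 0)) (f := fun x : (S₁ → ℂ) × (S₂ → ℂ) × (ℂ × ℂ) => (x.2.1, x.2.2))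
      (g := fS S₂) (fS_deriv S₂ c') (P2 S₁ S₂).hasStrictFDerivAt
  exact h1.prodMk (h2.prodMk (h3.prodMk h4))

private theorem dPhi_apply (S₁ S₂ : Finset (Fin 2 → ℤ)) (c : S₁ → ℂ) (c' : S₂ → ℂ)
    (x : (S₁ → ℂ) × (S₂ → ℂ) × (ℂ × ℂ)) :
    dPhi S₁ S₂ c c' x = (x.1, x.2.1, (dS S₁ c (x.1, x.2.2), dS S₂ c' (x.2.1, x.2.2))) := rfl

private theorem surj {S₁ S₂ : Finset (Fin 2 → ℤ)} {p p' q q' : Fin 2 → ℤ} (hp : p ∈ S₁) (hp' : p' ∈ S₁)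
    (hq : q ∈ S₂) (hq' : q' ∈ S₂)
    (hd : (p 0 - p' 0) * (q 1 - q' 1) - (p 1 - p' 1) * (q 0 - q' 0) ≠ 0) (h1 : p ≠ p') (h2 : q ≠ q') :
    Function.Surjective (dPhi S₁ S₂ (fun r => c0 p p' r.1) (fun r => c0 q q' r.1)) := by
  rintro ⟨a, a', y, y'⟩
  have hd' : (((p 0 - p' 0 : ℤ)) : ℂ) * (((q 1 - q' 1 : ℤ)) : ℂ) -
      (((p 1 - p' 1 : ℤ)) : ℂ) * (((q 0 - q' 0 : ℤ)) : ℂ) ≠ 0 := by
    exact_mod_cast hd
  obtain ⟨A, hA⟩ : ∃ A : ℂ, A = (((p 0 - p' 0 : ℤ)) : ℂ) := ⟨_, rfl⟩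
  obtain ⟨B, hB⟩ : ∃ B : ℂ, B = (((p 1 - p' 1 : ℤ)) : ℂ) := ⟨_, rfl⟩
  obtain ⟨C, hC⟩ : ∃ C : ℂ, C = (((q 0 - q' 0 : ℤ)) : ℂ) := ⟨_, rfl⟩
  obtain ⟨D, hD⟩ : ∃ D : ℂ, D = (((q 1 - q' 1 : ℤ)) : ℂ) := ⟨_, rfl⟩
  rw [← hA, ← hB, ← hC, ← hD] at hd'
  obtain ⟨z, hz⟩ : ∃ z : ℂ, z = y - ∑ r : S₁, a r := ⟨_, rfl⟩
  obtain ⟨z', hz'⟩ : ∃ z' : ℂ, z' = y' - ∑ r : S₂, a' r := ⟨_, rfl⟩
  refine ⟨(a, a', ((D * z - B * z') / (A * D - B * C), (A * z' - C * z) / (A * D - B * C))), ?_⟩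
  rw [dPhi_apply, dS_c0 S₁ hp hp' h1, dS_c0 S₂ hq hq' h2]
  simp only [← hA, ← hB, ← hC, ← hD]
  have e1 : ∑ r : S₁, a r + (A * ((D * z - B * z') / (A * D - B * C)) +
      B * ((A * z' - C * z) / (A * D - B * C))) = y := by
    have : A * ((D * z - B * z') / (A * D - B * C)) + B * ((A * z' - C * z) / (A * D - B * C)) = z := by
      rw [← mul_div_assoc, ← mul_div_assoc, ← add_div, div_eq_iff hd']
      ring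
    rw [this, hz]
    ring
  have e2 : ∑ r : S₂, a' r + (C * ((D * z - B * z') / (A * D - B * C)) +
      D * ((A * z' - C * z) / (A * D - B * C))) = y' := by
    have : C * ((D * z - B * z') / (A * D - B * C)) + D * ((A * z' - C * z) / (A * D - B * C)) = z' := by
      rw [← mul_div_assoc, ← mul_div_assoc, ← add_div, div_eq_iff hd']
      ring
    rw [this, hz']
    ring
  rw [e1, e2]

private theorem main {S₁ S₂ : Finset (Fin 2 → ℤ)} {p p' q q' : Fin 2 → ℤ} (hp : p ∈ S₁) (hp' : p' ∈ S₁)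
    (hq : q ∈ S₂) (hq' : q' ∈ S₂)
    (hd : (p 0 - p' 0) * (q 1 - q' 1) - (p 1 - p' 1) * (q 0 - q' 0) ≠ 0) : ∃ ε : ℝ, 0 < ε ∧
    ∀ c c' : (Fin 2 → ℤ) → ℂ, (∀ r ∈ S₁, ‖c r - c0 p p' r‖ < ε) → (∀ r ∈ S₂, ‖c' r - c0 q q' r‖ < ε) →
    ∃ t : Fin 2 → ℂ, (∀ k, t k ≠ 0) ∧ evC S₁ c t = 0 ∧ evC S₂ c' t = 0 := by
  have h1 : p ≠ p' := by
    rintro rfl
    apply hd
    ring
  have h2 : q ≠ q' := by
    rintro rfl
    apply hd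
    ring
  have h3 := (Phi_deriv S₁ S₂ (fun r => c0 p p' r.1) (fun r => c0 q q' r.1)).map_nhds_eq_of_surj
    (LinearMap.range_eq_top.2 (surj hp hp' hq hq' hd h1 h2))
  have h4 : Phi S₁ S₂ ((fun r => c0 p p' r.1), (fun r => c0 q q' r.1), (0, 0)) =
      ((fun r => c0 p p' r.1), (fun r => c0 q q' r.1), (0, 0)) := by
    unfold Phi
    simp only [fS_zero S₁ hp hp' h1, fS_zero S₂ hq hq' h2]
  rw [h4] at h3
  have h5 : Set.range (Phi S₁ S₂) ∈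
      𝓝 (((fun r => c0 p p' r.1), (fun r => c0 q q' r.1), (0, 0)) : (S₁ → ℂ) × (S₂ → ℂ) × (ℂ × ℂ)) := by
    rw [← h3, mem_map]
    exact univ_mem' fun x => ⟨x, rfl⟩
  obtain ⟨ε, hε, hb⟩ := Metric.mem_nhds_iff.1 h5
  refine ⟨ε, hε, fun c c' hc hc' => ?_⟩
  have h6 : (((fun r => c r.1), (fun r => c' r.1), (0, 0)) : (S₁ → ℂ) × (S₂ → ℂ) × (ℂ × ℂ)) ∈
      Metric.ball (((fun r => c0 p p' r.1), (fun r => c0 q q' r.1), (0, 0)) :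
        (S₁ → ℂ) × (S₂ → ℂ) × (ℂ × ℂ)) ε := by
    rw [Metric.mem_ball, Prod.dist_eq, Prod.dist_eq]
    refine max_lt ?_ (max_lt ?_ ?_)
    · rw [dist_pi_lt_iff hε]
      intro r
      rw [dist_eq_norm]
      exact hc r.1 r.2
    · rw [dist_pi_lt_iff hε]
      intro r
      rw [dist_eq_norm]
      exact hc' r.1 r.2
    · rw [dist_self]
      exact hε
  obtain ⟨x, hx⟩ := hb h6
  have e1 : x.1 = fun r : S₁ => c r.1 := congrArg (fun y => y.1) hx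
  have e2 : x.2.1 = fun r : S₂ => c' r.1 := congrArg (fun y => y.2.1) hx
  have e3 : fS S₁ (x.1, x.2.2) = 0 := congrArg (fun y => y.2.2.1) hx
  have e4 : fS S₂ (x.2.1, x.2.2) = 0 := congrArg (fun y => y.2.2.2) hx
  rw [e1, fS_evC] at e3
  rw [e2, fS_evC] at e4
  refine ⟨![Complex.exp x.2.2.1, Complex.exp x.2.2.2], ?_, e3, e4⟩
  intro k
  fin_cases k
  · exact Complex.exp_ne_zero _
  · exact Complex.exp_ne_zero _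

end Pool.Agent.Lib.MP_4e7804_co.N3.IFTN

namespace Pool.Agent.Lib.MP_4e7804_co.N3

theorem tIFT : StmtIFT := by
  intro S₁ S₂ p hp p' hp' q hq q' hq' hd
  exact IFTN.main hp hp' hq hq' hd

end Pool.Agent.Lib.MP_4e7804_co.N3
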