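import Pool.Agent.Lib.MP_4e7804_co.N3.Spec3

/-!
# n = 3: the implicit equation (bridge)
-/

set_option autoImplicit false

namespace Pool.Agent.Lib.MP_4e7804_co.N3.ImpIN

open MvPolynomial

theorem evalAt_eq {P : Fin 3 → Set (Fin 2 → ℝ)} {S : Fin 3 → Finset (Fin 2 → ℤ)}
    {c : Fin 3 → (Fin 2 → ℤ) → ℂ} (h : ∀ i p, p ∈ S i ↔ p ∈ latticePoints (P i))
    (t : Fin 2 → ℂˣ) :
    evalAt P c t = fun i => evC (S i) (c i) (fun k => (t k : ℂ)) := by
  funext i
  have hS : latticePoints (P i) = (S i : Set (Fin 2 → ℤ)) := by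
    ext p
    exact (h i p).symm
  unfold evalAt evC
  rw [hS, finsum_mem_coe_finset]
  refine Finset.sum_congr rfl fun p _ => ?_
  rw [mono, Fin.prod_univ_two, Units.val_zpow_eq_zpow_val, Units.val_zpow_eq_zpow_val]

theorem aeval_eq (x : Fin 3 → ℂ) (G : MvPolynomial (Fin 3) ℂ) :
    aeval x G = MvPolynomial.eval x G := by
  rw [← MvPolynomial.coe_aeval_eq_eval]
  rfl

theorem key {P : Fin 3 → Set (Fin 2 → ℝ)} {S : Fin 3 → Finset (Fin 2 → ℤ)}
    {c : Fin 3 → (Fin 2 → ℤ) → ℂ} (h : ∀ i p, p ∈ S i ↔ p ∈ latticePoints (P i))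
    (G : MvPolynomial (Fin 3) ℂ) :
    G ∈ vanishingIdeal ℂ (Set.range (evalAt P c)) ↔
      ∀ t : Fin 2 → ℂ, (∀ k, t k ≠ 0) →
        MvPolynomial.eval (fun i => evC (S i) (c i) t) G = 0 := by
  rw [mem_vanishingIdeal_iff]
  constructor
  · intro hG t ht
    have h1 := hG _ ⟨fun k => Units.mk0 (t k) (ht k), rfl⟩
    rw [aeval_eq, evalAt_eq h] at h1
    exact h1
  · rintro hG _ ⟨t, rfl⟩
    rw [aeval_eq, evalAt_eq h]
    exact hG _ fun k => (t k).ne_zero

end Pool.Agent.Lib.MP_4e7804_co.N3.ImpIN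

namespace Pool.Agent.Lib.MP_4e7804_co.N3

open MvPolynomial

theorem tImpI : StmtImpI := by
  intro P S c F h
  constructor
  · rintro ⟨hirr, hz⟩
    refine ⟨hirr, fun G => ?_⟩
    have hprime : Prime F := UniqueFactorizationMonoid.irreducible_iff_prime.1 hirr
    have hP : (Ideal.span {F} : Ideal (MvPolynomial (Fin 3) ℂ)).IsPrime :=
      (Ideal.span_singleton_prime hprime.ne_zero).2 hprime
    have hvi : vanishingIdeal ℂ (Set.range (evalAt P c)) = Ideal.span {F} := by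
      rw [← IsPrime.vanishingIdeal_zeroLocus (K := ℂ) (Ideal.span {F}), ← hz]
      apply le_antisymm
      · exact le_vanishingIdeal_zeroLocus _
      · exact vanishingIdeal_anti_mono (zeroLocus_vanishingIdeal_le _)
    rw [← ImpIN.key h G, hvi, Ideal.mem_span_singleton]
  · rintro ⟨hirr, hG⟩
    refine ⟨hirr, ?_⟩
    have hvi : vanishingIdeal ℂ (Set.range (evalAt P c)) = Ideal.span {F} := by
      ext G
      rw [Ideal.mem_span_singleton, hG G, ImpIN.key h G]
    rw [hvi]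

end Pool.Agent.Lib.MP_4e7804_co.N3
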