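import Pool.Agent.Lib.MP_4e7804_co.N3.Spec2

set_option autoImplicit false

namespace Pool.Agent.Lib.MP_4e7804_co.N3.IndpN

open Filter Topology MvPolynomial

theorem lin (A B : ℝ) (hB : B ≠ 0) : ∀ᶠ ε in 𝓝[>] (0 : ℝ), A + ε * B ≠ 0 := by
  rcases eq_or_ne A 0 with rfl | hA
  · filter_upwards [self_mem_nhdsWithin] with ε hε
    have : (0 : ℝ) < ε := hε
    simp [this.ne', hB]
  · have h : ContinuousAt (fun ε : ℝ => A + ε * B) 0 := by fun_prop
    have h2 : ∀ᶠ ε in 𝓝 (0 : ℝ), A + ε * B ≠ 0 := by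
      apply h.eventually_ne
      simpa using hA
    exact h2.filter_mono nhdsWithin_le_nhds

/-- points of the hull other than the minimal vertex have a larger value -/
theorem hull_lt (A : Finset Pl) (p u : Pl) (hu : u ∈ NC A p) (r : Pl)
    (hr : r ∈ convexHull ℝ (A : Set Pl)) (hrp : r ≠ p) : dt p u < dt r u := by
  have hconv : Convex ℝ {x : Pl | x = p ∨ dt p u < dt x u} := by
    intro x hx y hy a b ha hb hab
    have hlin : dt (a • x + b • y) u = a * dt x u + b * dt y u := by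
      simp only [dt, Prod.fst_add, Prod.snd_add, Prod.smul_fst, Prod.smul_snd, smul_eq_mul]
      ring
    rcases hx with hx | hx
    · rcases hy with hy | hy
      · left
        rw [hx, hy, ← add_smul, hab, one_smul]
      · rcases hb.lt_or_eq with hb' | hb'
        · right
          rw [hlin, hx]
          have := mul_lt_mul_of_pos_left hy hb'
          have h3 : dt p u = a * dt p u + b * dt p u := by rw [← add_mul, hab, one_mul]
          linarith
        · left
          subst hb'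
          have : a = 1 := by linarith
          rw [hx, this]
          simp
    · rcases ha.lt_or_eq with ha' | ha'
      · right
        rw [hlin]
        have h1 := mul_lt_mul_of_pos_left hx ha'
        have h2 : b * dt p u ≤ b * dt y u := by
          rcases hy with hy | hy
          · rw [hy]
          · exact mul_le_mul_of_nonneg_left hy.le hb
        have h3 : dt p u = a * dt p u + b * dt p u := by rw [← add_mul, hab, one_mul]
        linarith
      · subst ha'
        have : b = 1 := by linarith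
        rw [this]
        simpa using hy
  have hsub : (A : Set Pl) ⊆ {x : Pl | x = p ∨ dt p u < dt x u} := by
    intro x hx
    by_cases hxp : x = p
    · exact Or.inl hxp
    · exact Or.inr (hu x hx hxp)
  rcases convexHull_min hsub hconv hr with h | h
  · exact absurd h hrp
  · exact h

/-- the point of the torus -/
noncomputable def tp (u : Pl) (s : ℝ) : Fin 2 → ℂ := ![((s ^ u.1 : ℝ) : ℂ), ((s ^ u.2 : ℝ) : ℂ)]

theorem tp_ne (u : Pl) (s : ℝ) (hs : 0 < s) (k : Fin 2) : tp u s k ≠ 0 := by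
  have h1 := (Real.rpow_pos_of_pos hs u.1).ne'
  have h2 := (Real.rpow_pos_of_pos hs u.2).ne'
  fin_cases k
  · simpa [tp] using h1
  · simpa [tp] using h2

theorem tp_mono (u : Pl) (s : ℝ) (hs : 0 < s) (p : Fin 2 → ℤ) :
    tp u s 0 ^ p 0 * tp u s 1 ^ p 1 = ((s ^ (dt (toPl p) u) : ℝ) : ℂ) := by
  have h : s ^ (dt (toPl p) u) = (s ^ u.1) ^ p 0 * (s ^ u.2) ^ p 1 := by
    rw [dt, Real.rpow_add hs]
    simp only [toPl]
    rw [mul_comm ((p 0 : ℤ) : ℝ), mul_comm ((p 1 : ℤ) : ℝ), Real.rpow_mul hs.le,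
      Real.rpow_mul hs.le, Real.rpow_intCast, Real.rpow_intCast]
  rw [h]
  simp [tp]

theorem limit (S : Finset (Fin 2 → ℤ)) (c : (Fin 2 → ℤ) → ℂ) (u : Pl) (a : Fin 2 → ℤ) (ha : a ∈ S)
    (hpos : ∀ p ∈ S, p ≠ a → dt (toPl a) u < dt (toPl p) u) :
    Tendsto (fun s : ℝ => ((s ^ (-dt (toPl a) u) : ℝ) : ℂ) * evC S c (tp u s)) (𝓝[>] 0)
      (𝓝 (c a)) := by
  have h : Tendsto (fun s : ℝ => ∑ p ∈ S, c p * ((s ^ (dt (toPl p) u - dt (toPl a) u) : ℝ) : ℂ))
      (𝓝[>] 0) (𝓝 (∑ p ∈ S, if p = a then c a else 0)) := by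
    apply tendsto_finsetSum
    intro p hp
    by_cases hpa : p = a
    · subst hpa
      simp
    · rw [if_neg hpa]
      have hd : 0 < dt (toPl p) u - dt (toPl a) u := by linarith [hpos p hp hpa]
      have h1 : Tendsto (fun s : ℝ => s ^ (dt (toPl p) u - dt (toPl a) u)) (𝓝[>] 0) (𝓝 0) := by
        have h2 := (Real.continuousAt_rpow_const 0 _ (Or.inr hd.le)).tendsto
        rw [Real.zero_rpow hd.ne'] at h2
        exact h2.mono_left nhdsWithin_le_nhds
      have h3 : Tendsto (fun s : ℝ => ((s ^ (dt (toPl p) u - dt (toPl a) u) : ℝ) : ℂ))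
          (𝓝[>] 0) (𝓝 0) := by
        have := (Complex.continuous_ofReal.tendsto 0).comp h1
        rw [Complex.ofReal_zero] at this
        exact this
      simpa using h3.const_mul (c p)
  rw [Finset.sum_ite_eq' S a, if_pos ha] at h
  refine h.congr' ?_
  filter_upwards [self_mem_nhdsWithin] with s hs
  have hs : (0 : ℝ) < s := hs
  rw [evC, Finset.mul_sum]
  refine Finset.sum_congr rfl fun p _ => ?_
  rw [tp_mono u s hs p, sub_eq_neg_add, Real.rpow_add hs]
  push_cast
  ring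

theorem univ3 : ∀ a b d : Fin 3, a ≠ b → a ≠ d → b ≠ d →
    (Finset.univ : Finset (Fin 3)) = {a, b, d} := by decide

end Pool.Agent.Lib.MP_4e7804_co.N3.IndpN

namespace Pool.Agent.Lib.MP_4e7804_co.N3

open Filter Topology MvPolynomial IndpN

theorem tIndp (_h1 : StmtVF) (_h2 : StmtClr) : StmtIndp := by
  classical
  intro S W c hSW hc a b d hab had hbd p hp q hq hne hcr G hGa hG
  by_contra hG0
  have hsup : G.support.Nonempty := by
    rwa [Finset.nonempty_iff_ne_empty, Ne, MvPolynomial.support_eq_empty]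
  have hma : ∀ m ∈ G.support, m a = 0 := by
    intro m hm
    have := MvPolynomial.monomial_le_degreeOf a hm
    omega
  -- a direction
  let V : Finset ((Fin 3 →₀ ℕ) × (Fin 3 →₀ ℕ)) :=
    (G.support ×ˢ G.support).filter (fun x => x.1 ≠ x.2)
  have hbd2 : ∀ m ∈ G.support, ∀ m' ∈ G.support, m ≠ m' → ¬ (m b = m' b ∧ m d = m' d) := by
    rintro m hm m' hm' hmm ⟨h1, h2⟩
    apply hmm
    ext i
    have hi : i ∈ ({a, b, d} : Finset (Fin 3)) := by
      rw [← univ3 a b d hab had hbd]; exact Finset.mem_univ i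
    simp only [Finset.mem_insert, Finset.mem_singleton] at hi
    rcases hi with rfl | rfl | rfl
    · rw [hma m hm, hma m' hm']
    · exact h1
    · exact h2
  let L : Pl → Module.Dual ℝ Pl := fun x =>
    x.1 • LinearMap.fst ℝ ℝ ℝ + x.2 • LinearMap.snd ℝ ℝ ℝ
  have hL : ∀ x u, L x u = dt x u := by
    intro x u
    simp [L, dt]
  let f : V → Module.Dual ℝ Pl := fun x =>
    ((x.1.1 b : ℝ) - x.1.2 b) • L (toPl p) + ((x.1.1 d : ℝ) - x.1.2 d) • L (toPl q)
  have hf : ∀ (x : V) (u : Pl), f x u = ((x.1.1 b : ℝ) - x.1.2 b) * dt (toPl p) u +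
      ((x.1.1 d : ℝ) - x.1.2 d) * dt (toPl q) u := by
    intro x u
    simp [f, hL]
  obtain ⟨u', hu'⟩ := Module.Dual.exists_forall_ne_zero_of_forall_exists f (by
    intro x
    obtain ⟨⟨m, m'⟩, hx⟩ := x
    have hx' := Finset.mem_filter.mp hx
    have hmm := Finset.mem_product.mp hx'.1
    have hne' := hbd2 m hmm.1 m' hmm.2 hx'.2
    set g1 : ℝ := (m b : ℝ) - m' b with hg1
    set g2 : ℝ := (m d : ℝ) - m' d with hg2
    refine ⟨(g1 * (toPl q).2 - g2 * (toPl p).2, -(g1 * (toPl q).1) + g2 * (toPl p).1), ?_⟩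
    rw [hf]
    simp only
    rw [← hg1, ← hg2]
    have : g1 * dt (toPl p) (g1 * (toPl q).2 - g2 * (toPl p).2,
        -(g1 * (toPl q).1) + g2 * (toPl p).1) + g2 * dt (toPl q)
        (g1 * (toPl q).2 - g2 * (toPl p).2, -(g1 * (toPl q).1) + g2 * (toPl p).1) =
        (g1 ^ 2 + g2 ^ 2) * cr (toPl p) (toPl q) := by
      simp only [dt, cr]; ring
    rw [this]
    refine mul_ne_zero ?_ hcr
    intro h0
    apply hne'
    have h1 : g1 = 0 := by nlinarith [sq_nonneg g1, sq_nonneg g2]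
    have h2 : g2 = 0 := by nlinarith [sq_nonneg g1, sq_nonneg g2]
    constructor
    · have : (m b : ℝ) = m' b := by linarith
      exact_mod_cast this
    · have : (m d : ℝ) = m' d := by linarith
      exact_mod_cast this)
  obtain ⟨w, hw⟩ := hne
  obtain ⟨u, hu1, hu2⟩ : ∃ u : Pl, u ∈ NC (rv (W b)) (toPl p) ∩ NC (rv (W d)) (toPl q) ∧
      ∀ m ∈ G.support, ∀ m' ∈ G.support, m ≠ m' →
        ((m b : ℝ) - m' b) * dt (toPl p) u + ((m d : ℝ) - m' d) * dt (toPl q) u ≠ 0 := by
    have e1 : ∀ᶠ ε in 𝓝[>] (0 : ℝ),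
        w + ε • u' ∈ NC (rv (W b)) (toPl p) ∩ NC (rv (W d)) (toPl q) := by
      have hcont : ContinuousAt (fun ε : ℝ => w + ε • u') 0 := by fun_prop
      have : ∀ᶠ ε in 𝓝 (0 : ℝ),
          w + ε • u' ∈ NC (rv (W b)) (toPl p) ∩ NC (rv (W d)) (toPl q) := by
        apply hcont.eventually_mem
        apply IsOpen.mem_nhds ((NC_open _ _).inter (NC_open _ _))
        simpa using hw
      exact this.filter_mono nhdsWithin_le_nhds
    have e2 : ∀ᶠ ε in 𝓝[>] (0 : ℝ), ∀ m ∈ G.support, ∀ m' ∈ G.support, m ≠ m' →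
        (((m b : ℝ) - m' b) * dt (toPl p) w + ((m d : ℝ) - m' d) * dt (toPl q) w) +
          ε * (((m b : ℝ) - m' b) * dt (toPl p) u' + ((m d : ℝ) - m' d) * dt (toPl q) u') ≠ 0 := by
      rw [eventually_all_finset]
      intro m hm
      rw [eventually_all_finset]
      intro m' hm'
      by_cases hmm : m = m'
      · exact Eventually.of_forall fun ε h => absurd hmm h
      · refine (lin _ _ ?_).mono fun ε h _ => h
        have := hu' ⟨(m, m'), Finset.mem_filter.mpr ⟨Finset.mem_product.mpr ⟨hm, hm'⟩, hmm⟩⟩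
        rw [hf] at this
        exact this
    obtain ⟨ε, h1, h2⟩ := (e1.and e2).exists
    refine ⟨w + ε • u', h1, fun m hm m' hm' hmm h0 => h2 m hm m' hm' hmm ?_⟩
    rw [← h0, dt_add, dt_add, dt_smul, dt_smul]
    ring
  have hSb : ∀ r ∈ S b, r ≠ p → dt (toPl p) u < dt (toPl r) u := fun r hr hrp =>
    hull_lt _ _ _ hu1.1 _ (hSW.hull b r hr) fun h => hrp (toPl_injective h)
  have hSd : ∀ r ∈ S d, r ≠ q → dt (toPl q) u < dt (toPl r) u := fun r hr hrp =>
    hull_lt _ _ _ hu1.2 _ (hSW.hull d r hr) fun h => hrp (toPl_injective h)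
  have lb := limit (S b) (c b) u p (hSW.sub b hp) hSb
  have ld := limit (S d) (c d) u q (hSW.sub d hq) hSd
  let e : (Fin 3 →₀ ℕ) → ℝ := fun m => (m b : ℝ) * dt (toPl p) u + (m d : ℝ) * dt (toPl q) u
  obtain ⟨m0, hm0, hmin⟩ := Finset.exists_min_image G.support e hsup
  have hlt : ∀ m ∈ G.support, m ≠ m0 → 0 < e m - e m0 := by
    intro m hm hmm
    have h1 := hmin m hm
    have h2 := hu2 m hm m0 hm0 hmm
    have h3 : e m - e m0 ≠ 0 := by
      intro h; apply h2; rw [← h]; simp only [e]; ring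
    exact lt_of_le_of_ne (by linarith) (Ne.symm h3)
  have key : Tendsto (fun s : ℝ => ∑ m ∈ G.support, G.coeff m *
      ((((s ^ (-dt (toPl p) u) : ℝ) : ℂ) * evC (S b) (c b) (tp u s)) ^ m b *
        (((s ^ (-dt (toPl q) u) : ℝ) : ℂ) * evC (S d) (c d) (tp u s)) ^ m d) *
        ((s ^ (e m - e m0) : ℝ) : ℂ)) (𝓝[>] 0)
      (𝓝 (∑ m ∈ G.support, if m = m0 then G.coeff m0 * (c b p ^ m0 b * c d q ^ m0 d) else 0)) := by
    apply tendsto_finsetSum
    intro m hm
    have hA := (tendsto_const_nhds (x := G.coeff m)).mul ((lb.pow (m b)).mul (ld.pow (m d)))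
    by_cases hmm : m = m0
    · subst hmm
      simpa using hA
    · rw [if_neg hmm]
      have hd := hlt m hm hmm
      have h1 : Tendsto (fun s : ℝ => s ^ (e m - e m0)) (𝓝[>] 0) (𝓝 0) := by
        have h2 := (Real.continuousAt_rpow_const 0 _ (Or.inr hd.le)).tendsto
        rw [Real.zero_rpow hd.ne'] at h2
        exact h2.mono_left nhdsWithin_le_nhds
      have h3 : Tendsto (fun s : ℝ => ((s ^ (e m - e m0) : ℝ) : ℂ)) (𝓝[>] 0) (𝓝 0) := by
        have := (Complex.continuous_ofReal.tendsto 0).comp h1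
        rw [Complex.ofReal_zero] at this
        exact this
      simpa using hA.mul h3
  rw [Finset.sum_ite_eq' G.support m0, if_pos hm0] at key
  have hzero : Tendsto (fun _ : ℝ => (0 : ℂ)) (𝓝[>] (0 : ℝ))
      (𝓝 (G.coeff m0 * (c b p ^ m0 b * c d q ^ m0 d))) := by
    refine key.congr' ?_
    filter_upwards [self_mem_nhdsWithin] with s hs
    have hs : (0 : ℝ) < s := hs
    have h0 := hG (tp u s) (tp_ne u s hs)
    rw [MvPolynomial.eval_eq'] at h0
    have h1 : ∀ m ∈ G.support, ∏ i, evC (S i) (c i) (tp u s) ^ m i =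
        evC (S b) (c b) (tp u s) ^ m b * evC (S d) (c d) (tp u s) ^ m d := by
      intro m hm
      rw [univ3 a b d hab had hbd, Finset.prod_insert (by simp [hab, had]),
        Finset.prod_insert (by simp [hbd]), Finset.prod_singleton, hma m hm, pow_zero, one_mul]
    have h2 : ∑ m ∈ G.support, G.coeff m *
      ((((s ^ (-dt (toPl p) u) : ℝ) : ℂ) * evC (S b) (c b) (tp u s)) ^ m b *
        (((s ^ (-dt (toPl q) u) : ℝ) : ℂ) * evC (S d) (c d) (tp u s)) ^ m d) *
        ((s ^ (e m - e m0) : ℝ) : ℂ) = ((s ^ (-e m0) : ℝ) : ℂ) *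
        ∑ m ∈ G.support, G.coeff m * ∏ i, evC (S i) (c i) (tp u s) ^ m i := by
      rw [Finset.mul_sum]
      refine Finset.sum_congr rfl fun m hm => ?_
      rw [h1 m hm, mul_pow, mul_pow]
      have h3 : (((s ^ (-dt (toPl p) u) : ℝ) : ℂ)) ^ m b * (((s ^ (-dt (toPl q) u) : ℝ) : ℂ)) ^ m d *
          ((s ^ (e m - e m0) : ℝ) : ℂ) = ((s ^ (-e m0) : ℝ) : ℂ) := by
        rw [← Complex.ofReal_pow, ← Complex.ofReal_pow, ← Complex.ofReal_mul, ← Complex.ofReal_mul]
        congr 1
        rw [← Real.rpow_natCast, ← Real.rpow_natCast, ← Real.rpow_mul hs.le, ← Real.rpow_mul hs.le,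
          ← Real.rpow_add hs, ← Real.rpow_add hs]
        congr 1
        simp only [e]; ring
      rw [← h3]; ring
    rw [h2, h0, mul_zero]
  have hlim := tendsto_nhds_unique hzero tendsto_const_nhds
  have hcb : c b p ≠ 0 := hc b p (hSW.sub b hp)
  have hcd : c d q ≠ 0 := hc d q (hSW.sub d hq)
  have hco : G.coeff m0 ≠ 0 := MvPolynomial.mem_support_iff.mp hm0
  exact (mul_ne_zero hco (mul_ne_zero (pow_ne_zero _ hcb) (pow_ne_zero _ hcd))) hlim

end Pool.Agent.Lib.MP_4e7804_co.N3
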