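import Pool.Agent.Lib.MP_4e7804_co.N3.Spec
import Pool.Agent.Lib.MP_4e7804_co.Last.Main

/-! The last chamber in the form of the specification. -/

set_option autoImplicit false

namespace Pool.Agent.Lib.MP_4e7804_co.N3

theorem LastN.cl_zero {A : Fin 3 → Finset Pl} (hG : Gen A) {i j : Fin 3} (hij : i ≠ j) {w : Pl}
    (h1 : w ∈ CL (A i)) (h2 : w ∈ CL (A j)) : w = 0 := by
  rw [CL_iff (hG.ne i)] at h1
  rw [CL_iff (hG.ne j)] at h2
  obtain ⟨p, hp, p', hp', hpp, e1, e2⟩ := h1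
  obtain ⟨q, hq, q', hq', hqq, e3, e4⟩ := h2
  have hd := hG.g2 i j hij p hp p' hp' hpp q hq q' hq' hqq
  have k1 : dt (p - p') w = 0 := by rw [sub_dt, e1, e2, sub_self]
  have k2 : dt (q - q') w = 0 := by rw [sub_dt, e3, e4, sub_self]
  generalize p - p' = a at hd k1
  generalize q - q' = b at hd k2
  simp only [dt, cr] at hd k1 k2
  have m1 : (a.1 * b.2 - a.2 * b.1) * w.1 = 0 := by linear_combination b.2 * k1 - a.2 * k2
  have m2 : (a.1 * b.2 - a.2 * b.1) * w.2 = 0 := by linear_combination a.1 * k2 - b.1 * k1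
  ext
  · simpa using (mul_eq_zero.1 m1).resolve_left hd
  · simpa using (mul_eq_zero.1 m2).resolve_left hd

theorem tLast : StmtLast := by
  intro A hG hc hA hmm
  obtain ⟨w0, hw0⟩ := hA
  obtain ⟨i, j, k, hij, hik, hjk, p, hp, q, hq, s, hs, hne, hem, hno⟩ := Last.last_chamber A
    (fun i => by
      have h1 := Finset.card_pos.2 (hG.ne i)
      have h2 := hc i
      omega)
    hG.vert hG.g5 hG.g1
    (fun i j hij w hw => by
      rcases mem_CL_or (A i) w with h1 | h1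
      · rcases mem_CL_or (A j) w with h2 | h2
        · exact absurd (LastN.cl_zero hG hij h1 h2) hw
        · exact Or.inr h2
      · exact Or.inl h1)
    ⟨w0, fun i p hp => (hw0 i).trans_le (psi_le hp w0)⟩
  refine ⟨i, j, k, hij, hik, hjk, p, hp, q, hq, s, hs, hne, hem, hmm i k hik p hp s hs,
    hmm j k hjk q hq s hs, ?_⟩
  rw [Set.eq_empty_iff_forall_notMem]
  rintro x ⟨⟨h1, h2⟩, h3⟩
  exact hno x.2 x.1 h1.1 h2.1 h3.1 ((lt_psi_iff (hG.ne i)).1 h1.2) ((lt_psi_iff (hG.ne j)).1 h2.2)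
    ((lt_psi_iff (hG.ne k)).1 h3.2)

end Pool.Agent.Lib.MP_4e7804_co.N3
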