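import Pool.Agent.Lib.MP_4e7804_co.N3.Spec3

/-!
# Lattice polygons: the vertex set and the lattice points
-/

set_option autoImplicit false

namespace Pool.Agent.Lib.MP_4e7804_co.N3.LatPN

open Pool.Agent.Lib.MP_4e7804_co Pool.Agent.Lib.MP_4e7804_co.N3 Finset

theorem lattice_finite {d : ℕ} (A : Finset (Fin d → ℤ)) :
    (latticePoints (convexHull ℝ (toReal '' (A : Set (Fin d → ℤ))))).Finite := by
  set K : ℤ := ∑ a ∈ A, ∑ k, |a k| with hK
  have hsub : latticePoints (convexHull ℝ (toReal '' (A : Set (Fin d → ℤ)))) ⊆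
      Set.Icc (fun _ : Fin d => -K) (fun _ => K) := by
    intro p hp
    have h1 : convexHull ℝ (toReal '' (A : Set (Fin d → ℤ))) ⊆
        Set.Icc (fun _ : Fin d => (-(K : ℝ))) (fun _ => (K : ℝ)) := by
      refine convexHull_min ?_ (convex_Icc _ _)
      rintro _ ⟨a, ha, rfl⟩
      have h2 : ∀ k, |a k| ≤ K := by
        intro k
        calc |a k| ≤ ∑ k, |a k| :=
              single_le_sum (f := fun k => |a k|) (fun _ _ => abs_nonneg _) (mem_univ k)
          _ ≤ K := single_le_sum (f := fun a : Fin d → ℤ => ∑ k, |a k|)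
              (fun _ _ => sum_nonneg fun _ _ => abs_nonneg _) (mem_coe.1 ha)
      refine ⟨fun k => ?_, fun k => ?_⟩
      · have := (abs_le.1 (h2 k)).1
        simp only [toReal]
        exact_mod_cast this
      · have := (abs_le.1 (h2 k)).2
        simp only [toReal]
        exact_mod_cast this
    have h3 := h1 hp
    refine ⟨fun k => ?_, fun k => ?_⟩
    · have := h3.1 k
      simp only [toReal] at this
      exact_mod_cast this
    · have := h3.2 k
      simp only [toReal] at this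
      exact_mod_cast this
  exact (Set.finite_Icc _ _).subset hsub

theorem toReal_inj {d : ℕ} : Function.Injective (toReal (m := d)) := by
  intro p q h
  funext k
  have := congrFun h k
  simp only [toReal] at this
  exact_mod_cast this

/-- the linear map to the plane -/
def eL : (Fin 2 → ℝ) →ₗ[ℝ] Pl where
  toFun x := (x 0, x 1)
  map_add' _ _ := rfl
  map_smul' _ _ := rfl

theorem eL_toReal (p : Fin 2 → ℤ) : eL (toReal p) = toPl p := rfl

theorem eL_image (W : Finset (Fin 2 → ℤ)) :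
    eL '' (toReal '' (W : Set (Fin 2 → ℤ))) = (rv W : Set Pl) := by
  ext x
  rw [mem_coe, mem_rv]
  constructor
  · rintro ⟨_, ⟨p, hp, rfl⟩, rfl⟩
    exact ⟨p, hp, rfl⟩
  · rintro ⟨p, hp, rfl⟩
    exact ⟨toReal p, ⟨p, hp, rfl⟩, rfl⟩

theorem hull_eq {m : ℕ} {P E : Set (Fin m → ℝ)} (hP : IsCompact P) (hc : Convex ℝ P)
    (hE : E = P.extremePoints ℝ) (hf : E.Finite) : P = convexHull ℝ E := by
  rw [← closure_convexHull_extremePoints hP hc, ← hE, (hf.isClosed_convexHull ℝ).closure_eq]

theorem form (f : StrongDual ℝ (Fin 2 → ℝ)) (p : Fin 2 → ℤ) :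
    f (toReal p) = dt (toPl p) (f (Pi.single 0 1), f (Pi.single 1 1)) := by
  have h : toReal p = (p 0 : ℝ) • Pi.single (0 : Fin 2) (1 : ℝ) +
      (p 1 : ℝ) • Pi.single (1 : Fin 2) (1 : ℝ) := by
    funext k
    fin_cases k <;> simp [toReal]
  rw [h, map_add, map_smul, map_smul]
  rfl

end Pool.Agent.Lib.MP_4e7804_co.N3.LatPN

open Pool.Agent.Lib.MP_4e7804_co Pool.Agent.Lib.MP_4e7804_co.N3
  Pool.Agent.Lib.MP_4e7804_co.N3.LatPN in
theorem Pool.Agent.Lib.MP_4e7804_co.N3.tLatP : StmtLatP := by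
  classical
  rintro P ⟨A, hA, hP⟩
  have hAf : (toReal '' (A : Set (Fin 2 → ℤ))).Finite := A.finite_toSet.image _
  have hPc : IsCompact P := by
    rw [hP]
    exact hAf.isCompact_convexHull ℝ
  have hPx : Convex ℝ P := by
    rw [hP]
    exact convex_convexHull ℝ _
  have hEA : P.extremePoints ℝ ⊆ toReal '' (A : Set (Fin 2 → ℤ)) := by
    rw [hP]
    exact extremePoints_convexHull_subset
  obtain ⟨W, hW⟩ : ∃ W, W = A.filter fun a => toReal a ∈ P.extremePoints ℝ := ⟨_, rfl⟩
  have hWE : toReal '' (W : Set (Fin 2 → ℤ)) = P.extremePoints ℝ := by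
    ext x
    constructor
    · rintro ⟨a, ha, rfl⟩
      rw [Finset.mem_coe, hW, Finset.mem_filter] at ha
      exact ha.2
    · intro hx
      obtain ⟨a, ha, rfl⟩ := hEA hx
      refine ⟨a, ?_, rfl⟩
      rw [Finset.mem_coe, hW, Finset.mem_filter]
      exact ⟨ha, hx⟩
  have hPE : P = convexHull ℝ (toReal '' (W : Set (Fin 2 → ℤ))) :=
    hull_eq hPc hPx hWE (W.finite_toSet.image _)
  have hS : (latticePoints P).Finite := by
    rw [hP]
    exact lattice_finite A
  refine ⟨W, hS.toFinset, ⟨?_, ?_⟩, ?_, fun p => hS.mem_toFinset, ?_, ?_⟩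
  · -- nonempty
    rw [Finset.nonempty_iff_ne_empty]
    intro h
    rw [h, Finset.coe_empty, Set.image_empty, convexHull_empty] at hPE
    obtain ⟨a, ha⟩ := hA
    have : toReal a ∈ P := by
      rw [hP]
      exact subset_convexHull ℝ _ ⟨a, ha, rfl⟩
    rw [hPE] at this
    exact this
  · -- normal cones
    intro p hp
    have hpE : toReal p ∈ P.extremePoints ℝ := by
      rw [← hWE]
      exact ⟨p, hp, rfl⟩
    obtain ⟨Q, hQ⟩ : ∃ Q, Q = convexHull ℝ (toReal '' ((W.erase p : Finset (Fin 2 → ℤ)) : Set (Fin 2 → ℤ))) :=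
      ⟨_, rfl⟩
    have hQc : IsClosed Q := by
      rw [hQ]
      exact ((W.erase p).finite_toSet.image _).isClosed_convexHull ℝ
    have hQx : Convex ℝ Q := by
      rw [hQ]
      exact convex_convexHull ℝ _
    have hpQ : toReal p ∉ Q := by
      rw [hPx.mem_extremePoints_iff_mem_sdiff_convexHull_sdiff] at hpE
      intro h
      apply hpE.2
      rw [hQ] at h
      refine convexHull_mono ?_ h
      rintro _ ⟨q, hq, rfl⟩
      rw [Finset.mem_coe, Finset.mem_erase] at hq
      refine ⟨?_, fun h => hq.1 (toReal_inj h)⟩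
      rw [hPE]
      exact subset_convexHull ℝ _ ⟨q, hq.2, rfl⟩
    obtain ⟨f, u, h1, h2⟩ := geometric_hahn_banach_point_closed hQx hQc hpQ
    refine ⟨(f (Pi.single 0 1), f (Pi.single 1 1)), ?_⟩
    intro q' hq' hne
    obtain ⟨q, hq, rfl⟩ := mem_rv.mp hq'
    rw [← form, ← form]
    refine h1.trans (h2 _ ?_)
    rw [hQ]
    refine subset_convexHull ℝ _ ⟨q, ?_, rfl⟩
    rw [Finset.mem_coe, Finset.mem_erase]
    exact ⟨fun h => hne (by rw [h]), hq⟩
  · intro p hp
    rw [hS.mem_toFinset]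
    show toReal p ∈ P
    rw [hPE]
    exact subset_convexHull ℝ _ ⟨p, hp, rfl⟩
  · intro p hp
    rw [hS.mem_toFinset] at hp
    have hp' : toReal p ∈ P := hp
    rw [hPE] at hp'
    rw [← eL_image, ← LinearMap.image_convexHull]
    exact ⟨toReal p, hp', rfl⟩
  · unfold numVertices
    rw [← hWE, Set.ncard_image_of_injective _ toReal_inj, Set.ncard_coe_finset]
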