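import Pool.Agent.Lib.MP_4e7804_co.N3.Spec3

/-!
# Lattice polygons, the converse
-/

set_option autoImplicit false

namespace Pool.Agent.Lib.MP_4e7804_co.N3.LatWN

open Finset

theorem finite_hull {d : ℕ} (A : Finset (Fin d → ℤ)) :
    (latticePoints (convexHull ℝ (toReal '' (A : Set (Fin d → ℤ))))).Finite := by
  set K : ℤ := ∑ a ∈ A, ∑ k, |a k| with hK
  have hsub : latticePoints (convexHull ℝ (toReal '' (A : Set (Fin d → ℤ)))) ⊆
      Set.Icc (fun _ : Fin d => -K) (fun _ => K) := by
    intro p hp
    have h1 : convexHull ℝ (toReal '' (A : Set (Fin d → ℤ))) ⊆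
        Set.Icc (fun _ : Fin d => (-(K : ℝ))) (fun _ => (K : ℝ)) := by
      refine convexHull_min ?_ (convex_Icc _ _)
      rintro _ ⟨a, ha, rfl⟩
      have h2 : ∀ k, |a k| ≤ K := by
        intro k
        calc |a k| ≤ ∑ k, |a k| :=
              single_le_sum (f := fun k => |a k|) (fun _ _ => abs_nonneg _) (mem_univ k)
          _ ≤ K := single_le_sum (f := fun a : Fin d → ℤ => ∑ k, |a k|)
              (fun _ _ => sum_nonneg fun _ _ => abs_nonneg _) (mem_coe.1 ha)
      refine ⟨fun k => ?_, fun k => ?_⟩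
      · have := (abs_le.1 (h2 k)).1
        simp only [toReal]
        exact_mod_cast this
      · have := (abs_le.1 (h2 k)).2
        simp only [toReal]
        exact_mod_cast this
    have h3 := h1 hp
    refine ⟨fun k => ?_, fun k => ?_⟩
    · have := h3.1 k
      simp only [toReal] at this
      exact_mod_cast this
    · have := h3.2 k
      simp only [toReal] at this
      exact_mod_cast this
  exact (Set.finite_Icc _ _).subset hsub

theorem toReal_injective {d : ℕ} : Function.Injective (toReal (m := d)) := by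
  intro p q h
  funext k
  have := congrFun h k
  simp only [toReal] at this
  exact_mod_cast this

/-- the linear form -/
noncomputable def lf (w : Pl) (x : Fin 2 → ℝ) : ℝ := x 0 * w.1 + x 1 * w.2

theorem lf_comb (w : Pl) (x y : Fin 2 → ℝ) (a b : ℝ) :
    lf w (a • x + b • y) = a * lf w x + b * lf w y := by
  simp only [lf, Pi.add_apply, Pi.smul_apply, smul_eq_mul]
  ring

theorem convex_set (w : Pl) (p : Fin 2 → ℝ) :
    Convex ℝ {x : Fin 2 → ℝ | lf w p < lf w x ∨ x = p} := by
  intro x hx y hy a b ha hb hab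
  have hx' : lf w p ≤ lf w x := by
    rcases hx with h | rfl
    · exact h.le
    · exact le_rfl
  have hy' : lf w p ≤ lf w y := by
    rcases hy with h | rfl
    · exact h.le
    · exact le_rfl
  rcases ha.eq_or_lt with h0 | h0
  · subst h0
    have : b = 1 := by linarith
    subst this
    simpa using hy
  rcases hb.eq_or_lt with h1 | h1
  · subst h1
    have : a = 1 := by linarith
    subst this
    simpa using hx
  rcases hx with h | rfl
  · left
    rw [lf_comb]
    have h3 := mul_lt_mul_of_pos_left h h0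
    have h4 := mul_le_mul_of_nonneg_left hy' h1.le
    have h5 : lf w p = a * lf w p + b * lf w p := by rw [← add_mul, hab, one_mul]
    linarith
  · rcases hy with h | rfl
    · left
      rw [lf_comb]
      have h3 := mul_lt_mul_of_pos_left h h1
      have h5 : lf w x = a * lf w x + b * lf w x := by rw [← add_mul, hab, one_mul]
      linarith
    · right
      rw [← add_smul, hab, one_smul]

theorem extreme {W : Finset (Fin 2 → ℤ)} (hW : CP W) {p : Fin 2 → ℤ} (hp : p ∈ W) :
    toReal p ∈ (convexHull ℝ (toReal '' (W : Set (Fin 2 → ℤ)))).extremePoints ℝ := by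
  obtain ⟨w, hw⟩ := hW.2 p hp
  have hsub : convexHull ℝ (toReal '' (W : Set (Fin 2 → ℤ))) ⊆
      {x : Fin 2 → ℝ | lf w (toReal p) < lf w x ∨ x = toReal p} := by
    refine convexHull_min ?_ (convex_set w _)
    rintro _ ⟨q, hq, rfl⟩
    by_cases hqp : q = p
    · right
      rw [hqp]
    · left
      exact hw (toPl q) (toPl_mem_rv hq) fun h => hqp (toPl_injective h)
  refine mem_extremePoints.2 ⟨subset_convexHull ℝ _ ⟨p, mem_coe.2 hp, rfl⟩, ?_⟩
  intro x hx y hy hxy
  obtain ⟨a, b, ha, hb, hab, h⟩ := hxy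
  have hx' := hsub hx
  have hy' := hsub hy
  have h1 : lf w (toReal p) = a * lf w x + b * lf w y := by rw [← h, lf_comb]
  have h5 : lf w (toReal p) = a * lf w (toReal p) + b * lf w (toReal p) := by
    rw [← add_mul, hab, one_mul]
  have hx'' : lf w (toReal p) ≤ lf w x := by
    rcases hx' with h | h
    · exact h.le
    · rw [h]
  have hy'' : lf w (toReal p) ≤ lf w y := by
    rcases hy' with h | h
    · exact h.le
    · rw [h]
  have h3 := mul_le_mul_of_nonneg_left hx'' ha.le
  have h4 := mul_le_mul_of_nonneg_left hy'' hb.le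
  constructor
  · rcases hx' with h' | h'
    · have := mul_lt_mul_of_pos_left h' ha
      linarith
    · exact h'
  · rcases hy' with h' | h'
    · have := mul_lt_mul_of_pos_left h' hb
      linarith
    · exact h'

/-- the linear isomorphism of the two models of the plane -/
noncomputable def e : (Fin 2 → ℝ) →ₗ[ℝ] Pl where
  toFun x := (x 0, x 1)
  map_add' _ _ := rfl
  map_smul' _ _ := rfl

theorem e_hull (W : Finset (Fin 2 → ℤ)) {p : Fin 2 → ℤ}
    (hp : toReal p ∈ convexHull ℝ (toReal '' (W : Set (Fin 2 → ℤ)))) :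
    toPl p ∈ convexHull ℝ (rv W : Set Pl) := by
  have h1 : e (toReal p) ∈ e '' convexHull ℝ (toReal '' (W : Set (Fin 2 → ℤ))) := ⟨_, hp, rfl⟩
  rw [e.image_convexHull] at h1
  have h2 : e '' (toReal '' (W : Set (Fin 2 → ℤ))) ⊆ (rv W : Set Pl) := by
    rintro _ ⟨_, ⟨q, hq, rfl⟩, rfl⟩
    exact mem_coe.2 (toPl_mem_rv (mem_coe.1 hq))
  exact convexHull_mono h2 h1

end Pool.Agent.Lib.MP_4e7804_co.N3.LatWN

namespace Pool.Agent.Lib.MP_4e7804_co.N3

open LatWN

theorem tLatW : StmtLatW := by
  intro W hW
  refine ⟨⟨W, hW.1, rfl⟩, ?_, (finite_hull W).toFinset, ?_, ?_, ?_⟩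
  · have h1 : (convexHull ℝ (toReal '' (W : Set (Fin 2 → ℤ)))).extremePoints ℝ =
        toReal '' (W : Set (Fin 2 → ℤ)) := by
      apply Set.Subset.antisymm extremePoints_convexHull_subset
      rintro _ ⟨p, hp, rfl⟩
      exact extreme hW hp
    unfold numVertices
    rw [h1, Set.ncard_image_of_injective _ toReal_injective, Set.ncard_coe_finset]
  · intro p hp
    rw [Set.Finite.mem_toFinset]
    exact subset_convexHull ℝ _ ⟨p, Finset.mem_coe.2 hp, rfl⟩
  · intro p
    rw [Set.Finite.mem_toFinset]
  · intro p hp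
    rw [Set.Finite.mem_toFinset] at hp
    exact e_hull W hp

end Pool.Agent.Lib.MP_4e7804_co.N3
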