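import Pool.Agent.Lib.MP_4e7804_co.N3.Spec2

/-!
# n = 3: a generic zero of the implicit equation comes from a torus point
-/

set_option autoImplicit false

namespace Pool.Agent.Lib.MP_4e7804_co.N3.LiftN

open MvPolynomial

/-- the function field of the torus -/
abbrev Kf : Type := FractionRing (MvPolynomial (Fin 2) ℂ)

/-- the generic point of the torus -/
noncomputable def T (k : Fin 2) : Kf := algebraMap (MvPolynomial (Fin 2) ℂ) Kf (X k)

theorem T_ne (k : Fin 2) : T k ≠ 0 := by
  unfold T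
  intro h
  rw [← map_zero (algebraMap (MvPolynomial (Fin 2) ℂ) Kf)] at h
  exact X_ne_zero k (IsFractionRing.injective (MvPolynomial (Fin 2) ℂ) Kf h)

theorem trdeg_Kf : Algebra.trdeg ℂ Kf = Cardinal.mk (Fin 2) := by
  have : Algebra.IsAlgebraic (MvPolynomial (Fin 2) ℂ) Kf :=
    IsLocalization.isAlgebraic Kf (nonZeroDivisors (MvPolynomial (Fin 2) ℂ))
  exact ((IsTranscendenceBasis.mvPolynomial (Fin 2) ℂ).algebraMap_comp
    (A := Kf)).cardinalMk_eq_trdeg.symm

theorem card_ne (a : Fin 3) : Cardinal.mk {i : Fin 3 // i ≠ a} = Cardinal.mk (Fin 2) := by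
  rw [Cardinal.mk_fintype, Cardinal.mk_fintype]
  congr 1
  revert a
  decide

theorem degreeOf_rename (a : Fin 3) (P : MvPolynomial {i : Fin 3 // i ≠ a} ℂ) :
    (rename Subtype.val P).degreeOf a = 0 := by
  classical
  rw [degreeOf_def, Multiset.count_eq_zero]
  intro h
  have h1 : a ∈ (rename Subtype.val P).vars := by
    rw [vars_def, Multiset.mem_toFinset]
    exact h
  have h2 := vars_rename Subtype.val P h1
  obtain ⟨j, -, hj⟩ := Finset.mem_image.1 h2
  exact j.2 hj

/-- the coordinates without `a` form a transcendence basis -/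
theorem basis (y : Fin 3 → Kf) (F : MvPolynomial (Fin 3) ℂ) (a : Fin 3)
    (hd : F.degreeOf a ≠ 0) (hy : ∀ G : MvPolynomial (Fin 3) ℂ, aeval y G = 0 → F ∣ G) :
    IsTranscendenceBasis ℂ (fun i : {i : Fin 3 // i ≠ a} => y i.val) := by
  have hind : AlgebraicIndependent ℂ (fun i : {i : Fin 3 // i ≠ a} => y i.val) := by
    rw [algebraicIndependent_iff]
    intro P hP
    have h1 : aeval y (rename Subtype.val P) = 0 := by
      rw [aeval_rename]
      exact hP
    obtain ⟨H, hH⟩ := hy _ h1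
    by_contra hP0
    have hG0 : rename Subtype.val P ≠ 0 := by
      intro h
      rw [← map_zero (rename (R := ℂ) (Subtype.val : {i : Fin 3 // i ≠ a} → Fin 3))] at h
      exact hP0 (rename_injective _ Subtype.val_injective h)
    rw [hH] at hG0
    have h2 := degreeOf_rename a P
    rw [hH, degreeOf_mul_eq (left_ne_zero_of_mul hG0) (right_ne_zero_of_mul hG0)] at h2
    omega
  refine hind.isTranscendenceBasis_of_trdeg_le_of_finite ?_
  rw [trdeg_Kf, card_ne]

theorem exists_lift (y : Fin 3 → Kf) (F : MvPolynomial (Fin 3) ℂ) (a : Fin 3)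
    (hd : F.degreeOf a ≠ 0) (hy : ∀ G : MvPolynomial (Fin 3) ℂ, aeval y G = 0 ↔ F ∣ G)
    (L : Type) [Field L] [Algebra ℂ L] [IsAlgClosed L] (x : Fin 3 → L)
    (hx : ∀ G : MvPolynomial (Fin 3) ℂ, aeval x G = 0 ↔ F ∣ G) :
    ∃ g : Kf →ₐ[ℂ] L, ∀ i, g (y i) = x i := by
  let φ : MvPolynomial (Fin 3) ℂ →ₐ[ℂ] Kf := aeval y
  let ψ : MvPolynomial (Fin 3) ℂ →ₐ[ℂ] L := aeval x
  let p : MvPolynomial (Fin 3) ℂ →ₐ[ℂ] φ.range := φ.rangeRestrict
  have hp : Function.Surjective (p : MvPolynomial (Fin 3) ℂ →+* φ.range) :=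
    φ.rangeRestrict_surjective
  have hpφ : ∀ G, (p G : Kf) = φ G := fun G => rfl
  have hker : RingHom.ker (p : MvPolynomial (Fin 3) ℂ →+* φ.range) ≤
      RingHom.ker (ψ : MvPolynomial (Fin 3) ℂ →+* L) := by
    intro G hG
    rw [RingHom.mem_ker] at hG ⊢
    have h1 : φ G = 0 := by
      rw [← hpφ]
      exact congrArg Subtype.val hG
    exact (hx G).2 ((hy G).1 h1)
  let g : φ.range →+* L := (p : MvPolynomial (Fin 3) ℂ →+* φ.range).liftOfSurjective hp
    ⟨(ψ : MvPolynomial (Fin 3) ℂ →+* L), hker⟩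
  have hg : ∀ G, g (p G) = ψ G := fun G =>
    RingHom.liftOfSurjective_comp_apply _ hp ⟨(ψ : MvPolynomial (Fin 3) ℂ →+* L), hker⟩ G
  have hginj : Function.Injective g := by
    rw [injective_iff_map_eq_zero]
    intro d h
    obtain ⟨G, rfl⟩ := hp d
    have h1 : ψ G = 0 := by
      rw [← hg]
      exact h
    exact Subtype.ext ((hy G).2 ((hx G).1 h1))
  let _ : Algebra φ.range L := g.toAlgebra
  have hb := basis y F a hd (fun G => (hy G).1)
  have : Algebra.IsAlgebraic φ.range Kf := by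
    refine (hb.isAlgebraic_iff (S := φ.range)).2 fun i => ?_
    exact isAlgebraic_algebraMap (⟨y i.val, ⟨X i.val, aeval_X _ _⟩⟩ : φ.range)
  have : Module.IsTorsionFree φ.range Kf :=
    (Module.isTorsionFree_iff_algebraMap_injective).2 Subtype.val_injective
  have : Module.IsTorsionFree φ.range L :=
    (Module.isTorsionFree_iff_algebraMap_injective).2 hginj
  let f : Kf →ₐ[φ.range] L := IsAlgClosed.lift
  have hf : ∀ G, f (φ G) = ψ G := by
    intro G
    have h1 : φ G = algebraMap φ.range Kf (p G) := rfl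
    rw [h1, AlgHom.commutes]
    exact hg G
  refine ⟨{ (f : Kf →+* L) with commutes' := fun c => ?_ }, fun i => ?_⟩
  · have h1 := hf (C c)
    have h2 : φ (C c) = algebraMap ℂ Kf c := aeval_C _ _
    have h3 : ψ (C c) = algebraMap ℂ L c := aeval_C _ _
    rw [h2, h3] at h1
    exact h1
  · have h1 := hf (X i)
    have h2 : φ (X i) = y i := aeval_X _ _
    have h3 : ψ (X i) = x i := aeval_X _ _
    rw [h2, h3] at h1
    exact h1

end Pool.Agent.Lib.MP_4e7804_co.N3.LiftN

namespace Pool.Agent.Lib.MP_4e7804_co.N3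

open MvPolynomial LiftN in
theorem tLift (h1 : StmtClr) (h2 : StmtAlg3) : StmtLift := by
  intro S c F hF L _ _ _ x a hx hd hno
  have hy : ∀ G : MvPolynomial (Fin 3) ℂ,
      aeval (fun i => evL (S i) (c i) T) G = 0 ↔ F ∣ G := by
    intro G
    constructor
    · intro h
      exact (hF.2 G).2 ((h1 S c G).2.2 h)
    · intro h
      exact (h1 S c G).2.1 ((hF.2 G).1 h) Kf inferInstance inferInstance T T_ne
  have hxL := h2 L inferInstance inferInstance x F a hF.1 hx hd hno
  obtain ⟨g, hg⟩ := exists_lift _ F a hd hy L x hxL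
  refine ⟨fun k => g (T k), fun k => ?_, fun i => ?_⟩
  · intro h
    exact T_ne k ((map_eq_zero g).1 h)
  · rw [← hg i]
    unfold evL
    rw [map_sum]
    refine Finset.sum_congr rfl fun p _ => ?_
    rw [map_mul, map_mul, map_zpow₀, map_zpow₀, AlgHom.commutes]

end Pool.Agent.Lib.MP_4e7804_co.N3
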