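import Pool.Agent.Lib.MP_4e7804_co.N3.Spec3

/-!
# The lower bound, existence
-/

set_option autoImplicit false

namespace Pool.Agent.Lib.MP_4e7804_co.N3

open MvPolynomial

namespace LowFN

theorem rv_nonempty {W : Finset (Fin 2 → ℤ)} (h : CP W) : (rv W).Nonempty := by
  obtain ⟨p, hp⟩ := h.1
  exact ⟨toPl p, toPl_mem_rv hp⟩

theorem rv_vert {W : Finset (Fin 2 → ℤ)} (h : CP W) : ∀ x ∈ rv W, (NC (rv W) x).Nonempty := by
  intro x hx
  obtain ⟨p, hp, rfl⟩ := mem_rv.1 hx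
  exact h.2 p hp

/-- existence of algebraically independent coefficients -/
theorem exists_ind (hDens : StmtDens) (S : Fin 3 → Finset (Fin 2 → ℤ)) :
    ∃ c : Fin 3 → (Fin 2 → ℤ) → ℂ, Ind S c := by
  classical
  obtain ⟨x, hx, -⟩ := hDens (Σ i : Fin 3, {p // p ∈ S i}) inferInstance (fun _ => 0) 1 one_pos
  refine ⟨fun i p => if h : p ∈ S i then x ⟨i, ⟨p, h⟩⟩ else 0, ?_⟩
  have h : (fun y : (Σ i : Fin 3, {p // p ∈ S i}) =>
      (fun i p => if h : p ∈ S i then x ⟨i, ⟨p, h⟩⟩ else 0 : Fin 3 → (Fin 2 → ℤ) → ℂ) y.1 y.2.1)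
        = x := by
    funext y
    obtain ⟨i, p, hp⟩ := y
    simp [hp]
  unfold Ind
  rw [h]
  exact hx

theorem ind_ne_zero {S : Fin 3 → Finset (Fin 2 → ℤ)} {c : Fin 3 → (Fin 2 → ℤ) → ℂ}
    (h : Ind S c) : ∀ i, ∀ p ∈ S i, c i p ≠ 0 := by
  intro i p hp
  exact AlgebraicIndependent.ne_zero h ⟨i, ⟨p, hp⟩⟩

end LowFN

open LowFN in
theorem tLowF (hLowW : StmtLowW) (hMeet : StmtMeet) (hDens : StmtDens) (hIndp : StmtIndp)
    (hExF : StmtExF) (hSurf : StmtSurf) (hSpoke : StmtSpoke) (hSect : StmtSect) : StmtLowF := by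
  intro v hv
  obtain ⟨W, hCP, hcard, hcr, hdet, hM⟩ := hLowW v hv
  refine ⟨W, hCP, hcard, fun S hS => ?_⟩
  obtain ⟨c, hc⟩ := exists_ind hDens S
  obtain ⟨x, hx, y, hy, hxy⟩ := hMeet (rv (W 1)) (rv (W 2)) (rv_nonempty (hCP 1))
    (rv_vert (hCP 1)) (rv_nonempty (hCP 2))
  obtain ⟨p, hp, rfl⟩ := mem_rv.1 hx
  obtain ⟨q, hq, rfl⟩ := mem_rv.1 hy
  have h0 := hIndp S W c hS (ind_ne_zero hc) 0 1 2 (by decide) (by decide) (by decide) p hp q hq hxy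
    (hcr 1 2 (by decide) p hp q hq)
  obtain ⟨F, hF⟩ := hExF S c 0 h0
  have hsit : Sit S W c F := ⟨hS, hc, hF⟩
  refine ⟨c, F, hsit, hM (Mx F) (hSurf S W c F hsit) (hSpoke S W c F hsit) ?_⟩
  intro i j k hij hik hjk hi hj
  obtain ⟨p, hp, p', hp', q, hq, q', hq', h⟩ := hdet i j hij hi hj
  exact hSect S W c F hsit i j k hij hik hjk p hp p' hp' q hq q' hq' h

end Pool.Agent.Lib.MP_4e7804_co.N3
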