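import Pool.Agent.Lib.MP_4e7804_co.N3.Spec2
import Pool.Agent.Lib.MP_4e7804_co.N3.Low.Spec

/-!
# n = 3: the family for the lower bound in terms of lattice points `Fin 2 → ℤ`
-/

set_option autoImplicit false

namespace Pool.Agent.Lib.MP_4e7804_co.N3

namespace LowWN

/-- the change of coordinates -/
def e (a : ℤ × ℤ) : Fin 2 → ℤ := ![a.1, a.2]

theorem e_inj : Function.Injective e := by
  intro a b h
  have h0 : a.1 = b.1 := congrFun h 0
  have h1 : a.2 = b.2 := congrFun h 1
  exact Prod.ext h0 h1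

theorem toPl_e (a : ℤ × ℤ) : toPl (e a) = Low.toPl a := rfl

open Classical in
/-- the family -/
noncomputable def W (V : Fin 3 → Finset (ℤ × ℤ)) (i : Fin 3) : Finset (Fin 2 → ℤ) := (V i).image e

theorem rv_W (V : Fin 3 → Finset (ℤ × ℤ)) (i : Fin 3) : rv (W V i) = Low.im V i := by
  classical
  ext x
  rw [mem_rv]
  simp only [W, Finset.mem_image, Low.im, Finset.mem_map]
  constructor
  · rintro ⟨p, ⟨a, ha, rfl⟩, rfl⟩
    exact ⟨a, ha, rfl⟩
  · rintro ⟨a, ha, rfl⟩
    exact ⟨e a, ⟨a, ha, rfl⟩, rfl⟩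

theorem card_W (V : Fin 3 → Finset (ℤ × ℤ)) (i : Fin 3) : (W V i).card = (V i).card := by
  classical
  exact Finset.card_image_of_injective _ e_inj

theorem not_CL {A : Finset Pl} (h : A.card = 1) (w : Pl) : w ∉ CL A := by
  obtain ⟨p, rfl⟩ := Finset.card_eq_one.1 h
  intro hw
  refine hw p (Finset.mem_singleton_self p) ?_
  intro q hq hqp
  exact absurd (Finset.mem_singleton.1 hq) hqp

theorem zero_CL {A : Finset Pl} (h0 : A.Nonempty) (h : A.card ≠ 1) : (0 : Pl) ∈ CL A := by
  have h1 : 1 < A.card := by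
    have := h0.card_pos
    omega
  intro p hp hw
  obtain ⟨q, hq, hqp⟩ := Finset.exists_mem_ne h1 p
  have h2 := hw q hq hqp
  rw [dt_zero, dt_zero] at h2
  exact lt_irrefl _ h2

theorem CL_of_const {A : Finset Pl} (h0 : A.Nonempty) {w : Pl} {p q : Pl} (hp : p ∈ A) (hq : q ∈ A)
    (hpq : p ≠ q) (h : ∀ a ∈ A, ∀ b ∈ A, dt a w = dt b w) : w ∈ CL A := by
  rw [CL_iff h0]
  obtain ⟨r, hr, hr'⟩ := exists_psi h0 w
  exact ⟨p, hp, q, hq, hpq, by rw [hr', h p hp r hr], by rw [hr', h q hq r hr]⟩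

theorem det_ne {A B : Finset Pl} (hA : A.Nonempty) (hB : B.Nonempty) (hA1 : A.card ≠ 1)
    (hB1 : B.card ≠ 1) (hCL : ∀ w, w ∈ CL A → w ∈ CL B → w = 0) :
    ∃ p ∈ A, ∃ p' ∈ A, ∃ q ∈ B, ∃ q' ∈ B, cr (p - p') (q - q') ≠ 0 := by
  by_contra hcon
  push Not at hcon
  have h1 : 1 < A.card := by
    have := hA.card_pos
    omega
  have h2 : 1 < B.card := by
    have := hB.card_pos
    omega
  obtain ⟨p, hp, p', hp', hpp⟩ := Finset.one_lt_card.1 h1
  obtain ⟨q, hq, q', hq', hqq⟩ := Finset.one_lt_card.1 h2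
  have hd' : q - q' ≠ 0 := sub_ne_zero.2 hqq
  have hd : p - p' ≠ 0 := sub_ne_zero.2 hpp
  set d := p - p' with hddef
  set d' := q - q' with hd'def
  have hdd : cr d d' = 0 := hcon p hp p' hp' q hq q' hq'
  have key : ∀ x : Pl, cr x d' = 0 → cr d x = 0 := by
    intro x hx
    unfold cr at hx hdd ⊢
    have ha : (d.1 * x.2 - d.2 * x.1) * d'.1 = 0 := by linear_combination -d.1 * hx + x.1 * hdd
    have hb : (d.1 * x.2 - d.2 * x.1) * d'.2 = 0 := by linear_combination -d.2 * hx + x.2 * hdd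
    by_contra hne
    have ha' := (mul_eq_zero.1 ha).resolve_left hne
    have hb' := (mul_eq_zero.1 hb).resolve_left hne
    exact hd' (Prod.ext ha' hb')
  have hdt : ∀ x : Pl, dt x (-d.2, d.1) = cr d x := by
    intro x
    unfold dt cr
    ring
  have hwA : ((-d.2, d.1) : Pl) ∈ CL A := by
    refine CL_of_const hA hp hp' hpp fun a ha b hb => ?_
    have h3 := key (a - b) (hcon a ha b hb q hq q' hq')
    rw [← hdt, sub_dt] at h3
    linarith
  have hwB : ((-d.2, d.1) : Pl) ∈ CL B := by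
    refine CL_of_const hB hq hq' hqq fun a ha b hb => ?_
    have h3 := hcon p hp p' hp' a ha b hb
    rw [← hddef, ← hdt, sub_dt] at h3
    linarith
  have hw0 := hCL _ hwA hwB
  rw [Prod.mk_eq_zero] at hw0
  exact hd (Prod.ext hw0.2 (neg_eq_zero.1 hw0.1))

theorem gam_sub (A : Fin 3 → Finset Pl) (hne : ∀ i, (A i).Nonempty)
    (hCL : ∀ i j, i ≠ j → ∀ w, w ∈ CL (A i) → w ∈ CL (A j) → w = 0) (T : Set Sp)
    (H1 : ∀ w : Pl, (fun i => psi (A i) w) ∈ T)
    (H2 : ∀ (i : Fin 3) (w : Pl), w ∈ CL (A i) → (∀ j, j ≠ i → w ∉ CL (A j)) → ∀ l : ℝ, 0 ≤ l →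
      (fun j => psi (A j) w + if j = i then l else 0) ∈ T)
    (H3 : ∀ i j k, i ≠ j → i ≠ k → j ≠ k → (A i).card ≠ 1 → (A j).card ≠ 1 →
      ∀ z : Sp, 0 ≤ z i → 0 ≤ z j → z k = 0 → z ∈ T) : Gam A ⊆ T := by
  rintro z ⟨w, hw, hwz⟩
  by_cases hw0 : w = 0
  · subst hw0
    have hoct : z ∉ oct := fun h => hwz ⟨rfl, h⟩
    have hp0 : ∀ i, psi (A i) 0 = 0 := fun i => psi_zero (hne i)
    have hz0 : ∀ i, 0 ≤ z i := fun i => by
      have := (hw i).1
      rwa [hp0] at this
    have hz1 : ∀ i, (A i).card = 1 → z i = 0 := fun i hi => by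
      have := (hw i).2.resolve_left (not_CL hi 0)
      rwa [hp0] at this
    -- two coordinates vanish
    have two : ∀ i j k : Fin 3, i ≠ j → i ≠ k → j ≠ k → z i = 0 → z k = 0 → z ∈ T := by
      intro i j k hij hik hjk hi hk
      have hcov : ∀ l : Fin 3, l = i ∨ l = j ∨ l = k := by
        revert i j k
        intro i j k hij hik hjk _ _ l
        omega
      rcases (hz0 j).eq_or_lt with hj | hj
      · have h4 : (fun l => psi (A l) 0) = z := by
          funext l
          rw [hp0]
          rcases hcov l with rfl | rfl | rfl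
          · exact hi.symm
          · exact hj
          · exact hk.symm
        rw [← h4]
        exact H1 0
      · have hj1 : (A j).card ≠ 1 := fun h => hj.ne' (hz1 j h)
        by_cases hi1 : (A i).card = 1
        · by_cases hk1 : (A k).card = 1
          · have h5 := H2 j 0 (zero_CL (hne j) hj1) (by
              intro l hl
              rcases hcov l with rfl | rfl | rfl
              · exact not_CL hi1 0
              · exact absurd rfl hl
              · exact not_CL hk1 0) (z j) hj.le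
            have h6 : (fun l => psi (A l) 0 + if l = j then z j else 0) = z := by
              funext l
              rw [hp0, zero_add]
              rcases hcov l with rfl | rfl | rfl
              · rw [if_neg hij, hi]
              · rw [if_pos rfl]
              · rw [if_neg (Ne.symm hjk), hk]
            rw [← h6]
            exact h5
          · exact H3 k j i (Ne.symm hjk) (Ne.symm hik) (Ne.symm hij) hk1 hj1 z (hz0 k) (hz0 j) hi
        · exact H3 i j k hij hik hjk hi1 hj1 z (hz0 i) (hz0 j) hk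
    have hk : ∃ k, z k = 0 := by
      by_contra hcon
      push Not at hcon
      exact hoct fun i => lt_of_le_of_ne (hz0 i) (Ne.symm (hcon i))
    obtain ⟨k, hk⟩ := hk
    have hd : ∀ k : Fin 3, k + 1 ≠ k + 2 ∧ k + 1 ≠ k ∧ k + 2 ≠ k := by decide
    obtain ⟨h12, h10, h20⟩ := hd k
    by_cases hi1 : (A (k + 1)).card = 1
    · exact two (k + 1) (k + 2) k h12 h10 h20 (hz1 _ hi1) hk
    · by_cases hj1 : (A (k + 2)).card = 1
      · exact two (k + 2) (k + 1) k h12.symm h20 h10 (hz1 _ hj1) hk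
      · exact H3 (k + 1) (k + 2) k h12 h10 h20 hi1 hj1 z (hz0 _) (hz0 _) hk
  · by_cases hex : ∃ i, w ∈ CL (A i)
    · obtain ⟨i, hi⟩ := hex
      have hnot : ∀ j, j ≠ i → w ∉ CL (A j) := fun j hj h => hw0 (hCL j i hj w h hi)
      have h5 := H2 i w hi hnot (z i - psi (A i) w) (sub_nonneg.2 (hw i).1)
      have h6 : (fun j => psi (A j) w + if j = i then z i - psi (A i) w else 0) = z := by
        funext j
        by_cases hj : j = i
        · rw [if_pos hj, hj]
          ring
        · rw [if_neg hj, add_zero]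
          exact ((hw j).2.resolve_left (hnot j hj)).symm
      rw [← h6]
      exact h5
    · have h4 : (fun l => psi (A l) w) = z := by
        funext l
        exact ((hw l).2.resolve_left fun h => hex ⟨l, h⟩).symm
      rw [← h4]
      exact H1 w

end LowWN

theorem tLowW (h : Low.StmtLow) : StmtLowW := by
  classical
  intro v hv
  obtain ⟨V, hc, hNC, hcr, hCL, hM⟩ := h v fun i => by
    have := hv i
    omega
  have hne : ∀ i, (Low.im V i).Nonempty := by
    intro i
    rw [← Finset.card_pos, Low.im, Finset.card_map, hc i]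
    exact hv i
  have hcard : ∀ i, (Low.im V i).card = (LowWN.W V i).card := by
    intro i
    rw [LowWN.card_W, Low.im, Finset.card_map]
  refine ⟨LowWN.W V, ?_, ?_, ?_, ?_, ?_⟩
  · intro i
    refine ⟨?_, ?_⟩
    · rw [← Finset.card_pos, LowWN.card_W, hc i]
      exact hv i
    · intro p hp
      rw [LowWN.rv_W]
      refine hNC i _ ?_
      rw [← LowWN.rv_W]
      exact toPl_mem_rv hp
  · intro i
    rw [LowWN.card_W, hc i]
  · intro i j hij p hp q hq
    have hp' : toPl p ∈ Low.im V i := by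
      rw [← LowWN.rv_W]
      exact toPl_mem_rv hp
    have hq' : toPl q ∈ Low.im V j := by
      rw [← LowWN.rv_W]
      exact toPl_mem_rv hq
    have hd : ∀ i j : Fin 3, i ≠ j → j = i + 1 ∨ i = j + 1 := by decide
    rcases hd i j hij with h1 | h1
    · subst h1
      exact (hcr i _ hp' _ hq').ne'
    · subst h1
      have h2 := hcr j _ hq' _ hp'
      unfold cr at h2 ⊢
      intro h3
      linarith
  · intro i j hij hi hj
    rw [← hcard] at hi hj
    obtain ⟨p, hp, p', hp', q, hq, q', hq', hne0⟩ :=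
      LowWN.det_ne (hne i) (hne j) hi hj (hCL i j hij)
    rw [← LowWN.rv_W, mem_rv] at hp hp' hq hq'
    obtain ⟨p, hp, rfl⟩ := hp
    obtain ⟨p', hp', rfl⟩ := hp'
    obtain ⟨q, hq, rfl⟩ := hq
    obtain ⟨q', hq', rfl⟩ := hq'
    refine ⟨p, hp, p', hp', q, hq, q', hq', ?_⟩
    intro h0
    apply hne0
    have h1 : (((p 0 - p' 0) * (q 1 - q' 1) - (p 1 - p' 1) * (q 0 - q' 0) : ℤ) : ℝ) = 0 := by
      rw [h0, Int.cast_zero]
    push_cast at h1
    exact h1
  · intro M H1 H2 H3
    refine hM M (LowWN.gam_sub (Low.im V) hne hCL (trop M) ?_ ?_ ?_)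
    · intro w
      have h1 := H1 w
      simp only [LowWN.rv_W] at h1
      exact h1
    · intro i w hi hj l hl
      have h1 := H2 i w (by rw [LowWN.rv_W]; exact hi) (fun j hj' => by
        rw [LowWN.rv_W]
        exact hj j hj') l hl
      simp only [LowWN.rv_W] at h1
      exact h1
    · intro i j k hij hik hjk hi hj
      rw [hcard] at hi hj
      exact H3 i j k hij hik hjk hi hj

end Pool.Agent.Lib.MP_4e7804_co.N3
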