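import Pool.Agent.Lib.MP_4e7804_co.N3.Spec

/-!
# M3: counting mixed triples
-/

set_option autoImplicit false

namespace Pool.Agent.Lib.MP_4e7804_co.N3.M3N

open Classical in
/-- the triples `(p, q, s)` with `(p, q)` in `X_s` -/
noncomputable def RR (A B C : Finset Pl) : Finset (Pl × Pl × Pl) :=
  (A ×ˢ B ×ˢ C).filter fun x => (cU A x.1 ∩ cP C x.2.2).Nonempty ∧
    (cU B x.2.1 ∩ cP C x.2.2).Nonempty ∧ (NC A x.1 ∩ NC B x.2.1).Nonempty

theorem mem_RR {A B C : Finset Pl} {x : Pl × Pl × Pl} : x ∈ RR A B C ↔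
    (x.1 ∈ A ∧ x.2.1 ∈ B ∧ x.2.2 ∈ C) ∧ (cU A x.1 ∩ cP C x.2.2).Nonempty ∧
    (cU B x.2.1 ∩ cP C x.2.2).Nonempty ∧ (NC A x.1 ∩ NC B x.2.1).Nonempty := by
  classical
  unfold RR
  rw [Finset.mem_filter, Finset.mem_product, Finset.mem_product]

theorem card_RR (A B C : Finset Pl) : (RR A B C).card =
    ∑ s ∈ C, n2 (SS A C s) (SS B C s) (NC A) (NC B) := by
  classical
  have h1 : Set.MapsTo (fun x : Pl × Pl × Pl => x.2.2) (RR A B C : Set (Pl × Pl × Pl))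
      (C : Set Pl) := fun x hx => (mem_RR.1 hx).1.2.2
  rw [Finset.card_eq_sum_card_fiberwise h1]
  refine Finset.sum_congr rfl fun s hs => ?_
  unfold n2
  refine Finset.card_bij (fun x _ => (x.1, x.2.1)) ?_ ?_ ?_
  · intro x hx
    rw [Finset.mem_filter] at hx
    obtain ⟨hx1, hx2⟩ := hx
    obtain ⟨⟨ha, hb, -⟩, h2, h3, h4⟩ := mem_RR.1 hx1
    subst hx2
    rw [Finset.mem_filter, Finset.mem_product]
    unfold SS
    rw [Finset.mem_filter, Finset.mem_filter]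
    exact ⟨⟨⟨ha, h2⟩, hb, h3⟩, h4⟩
  · intro x hx y hy hxy
    rw [Finset.mem_filter] at hx hy
    have e1 := congrArg Prod.fst hxy
    have e2 := congrArg Prod.snd hxy
    exact Prod.ext e1 (Prod.ext e2 (hx.2.trans hy.2.symm))
  · rintro ⟨p, q⟩ hpq
    rw [Finset.mem_filter, Finset.mem_product] at hpq
    unfold SS at hpq
    rw [Finset.mem_filter, Finset.mem_filter] at hpq
    obtain ⟨⟨⟨ha, h2⟩, hb, h3⟩, h4⟩ := hpq
    refine ⟨(p, q, s), ?_, rfl⟩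
    rw [Finset.mem_filter]
    exact ⟨mem_RR.2 ⟨⟨ha, hb, hs⟩, h2, h3, h4⟩, rfl⟩

open Classical in
/-- the mixed triples -/
noncomputable def T1 (A B C : Finset Pl) : Finset (Pl × Pl × Pl) :=
  (A ×ˢ B ×ˢ C).filter fun x => (cU A x.1 ∩ cU B x.2.1 ∩ cP C x.2.2).Nonempty

open Classical in
/-- the diagonal triples with empty mixed intersection -/
noncomputable def T2 (A B C : Finset Pl) : Finset (Pl × Pl × Pl) :=
  (A ×ˢ B ×ˢ C).filter fun x => (NC A x.1 ∩ NC B x.2.1 ∩ NC C x.2.2).Nonempty ∧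
    cU A x.1 ∩ cU B x.2.1 ∩ cP C x.2.2 = ∅

theorem main (h1 : StmtCells) (A : Fin 3 → Finset Pl) (hG : Gen A) (i j k : Fin 3) (_ : i ≠ j)
    (hik : i ≠ k) (hjk : j ≠ k) :
    m3 (A i) (A j) (A k) + dg (A i) (A j) (A k) ≤
      ∑ s ∈ A k, n2 (SS (A i) (A k) s) (SS (A j) (A k) s) (NC (A i)) (NC (A j)) ∧
    (OffEmpty (A i) (A j) (A k) → m3 (A i) (A j) (A k) + dg (A i) (A j) (A k) + 1 ≤
      ∑ s ∈ A k, n2 (SS (A i) (A k) s) (SS (A j) (A k) s) (NC (A i)) (NC (A j))) := by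
  classical
  have e1 : m3 (A i) (A j) (A k) = (T1 (A i) (A j) (A k)).card := rfl
  have e2 : dg (A i) (A j) (A k) = (T2 (A i) (A j) (A k)).card := rfl
  have s1 : T1 (A i) (A j) (A k) ⊆ RR (A i) (A j) (A k) := by
    intro x hx
    unfold T1 at hx
    rw [Finset.mem_filter, Finset.mem_product, Finset.mem_product] at hx
    obtain ⟨hm, z, ⟨hz1, hz2⟩, hz3⟩ := hx
    exact mem_RR.2 ⟨hm, ⟨z, hz1, hz3⟩, ⟨z, hz2, hz3⟩, ⟨z.2, hz1.1, hz2.1⟩⟩
  have s2 : T2 (A i) (A j) (A k) ⊆ RR (A i) (A j) (A k) := by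
    intro x hx
    unfold T2 at hx
    rw [Finset.mem_filter, Finset.mem_product, Finset.mem_product] at hx
    obtain ⟨hm, ⟨z, ⟨hz1, hz2⟩, hz3⟩, -⟩ := hx
    exact mem_RR.2 ⟨hm, ((h1 A hG).2 i k hik _ hm.1 _ hm.2.2 ⟨z, hz1, hz3⟩).2,
      ((h1 A hG).2 j k hjk _ hm.2.1 _ hm.2.2 ⟨z, hz2, hz3⟩).2, ⟨z, hz1, hz2⟩⟩
  have hd : Disjoint (T1 (A i) (A j) (A k)) (T2 (A i) (A j) (A k)) := by
    rw [Finset.disjoint_left]
    intro x hx hx'
    unfold T1 at hx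
    unfold T2 at hx'
    rw [Finset.mem_filter] at hx hx'
    have h3 := hx.2
    rw [hx'.2.2] at h3
    exact Set.not_nonempty_empty h3
  rw [← card_RR, e1, e2, ← Finset.card_union_of_disjoint hd]
  refine ⟨Finset.card_le_card (Finset.union_subset s1 s2), ?_⟩
  rintro ⟨p, hp, q, hq, s, hs, a1, a2, a3, a4, a5⟩
  have hn : (p, q, s) ∉ T1 (A i) (A j) (A k) ∪ T2 (A i) (A j) (A k) := by
    rw [Finset.mem_union]
    rintro (h | h)
    · unfold T1 at h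
      rw [Finset.mem_filter] at h
      have h3 : (cU (A i) p ∩ cU (A j) q ∩ cP (A k) s).Nonempty := h.2
      rw [a5] at h3
      exact Set.not_nonempty_empty h3
    · unfold T2 at h
      rw [Finset.mem_filter] at h
      have h3 : (NC (A i) p ∩ NC (A j) q ∩ NC (A k) s).Nonempty := h.2.1
      rw [a2] at h3
      exact Set.not_nonempty_empty h3
  rw [← Finset.card_insert_of_notMem hn]
  refine Finset.card_le_card (Finset.insert_subset ?_ (Finset.union_subset s1 s2))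
  exact mem_RR.2 ⟨⟨hp, hq, hs⟩, a3, a4, a1⟩

end Pool.Agent.Lib.MP_4e7804_co.N3.M3N

namespace Pool.Agent.Lib.MP_4e7804_co.N3

theorem tM3 (h1 : StmtCells) : StmtM3 := fun A hG i j k hij hik hjk =>
  M3N.main h1 A hG i j k hij hik hjk

end Pool.Agent.Lib.MP_4e7804_co.N3
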