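import Pool.Agent.Lib.MP_4e7804_co.N3.Spec

/-!
# n = 3, M3b: bound for mixed triples
-/

set_option autoImplicit false

namespace Pool.Agent.Lib.MP_4e7804_co.N3.M3bN

open Pool.Agent.Lib.MP_4e7804_co.N3

theorem sum_SS (A C : Finset Pl) : ∑ s ∈ C, (SS A C s).card = mm A C := by
  classical
  unfold mm n2 SS
  rw [Finset.card_filter, Finset.sum_product_right]
  refine Finset.sum_congr rfl fun s _ => ?_
  rw [Finset.card_filter]

theorem SS_sub (A C : Finset Pl) (s : Pl) : SS A C s ⊆ A := by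
  classical
  unfold SS
  exact Finset.filter_subset _ _

theorem n2_le {ι κ α : Type*} (K : Finset ι) (L : Finset κ) (U : ι → Set α) (V : κ → Set α) :
    n2 K L U V ≤ K.card * L.card := by
  classical
  unfold n2
  rw [← Finset.card_product]
  exact Finset.card_filter_le _ _

end Pool.Agent.Lib.MP_4e7804_co.N3.M3bN

namespace Pool.Agent.Lib.MP_4e7804_co.N3

open M3bN

theorem tM3b (h1 : StmtCov) (h2 : StmtM3) : StmtM3b := by
  intro A hG i j k hij hik hjk
  obtain ⟨M1, M2⟩ := h2 A hG i j k hij hik hjk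
  have hb : (A i).card ≠ 1 → (A j).card ≠ 1 →
      ∑ s ∈ A k, n2 (SS (A i) (A k) s) (SS (A j) (A k) s) (NC (A i)) (NC (A j)) ≤
        mm (A i) (A k) + mm (A j) (A k) := by
    intro hi hj
    rw [← sum_SS, ← sum_SS, ← Finset.sum_add_distrib]
    exact Finset.sum_le_sum fun s _ => h1 A hG i j hij hi hj _ (SS_sub _ _ s) _ (SS_sub _ _ s)
  refine ⟨fun hi hj => M1.trans (hb hi hj), fun hi hj ho => (M2 ho).trans (hb hi hj), ?_, ?_⟩
  · intro hj
    refine M1.trans ?_
    rw [← sum_SS]
    refine Finset.sum_le_sum fun s _ => (n2_le _ _ _ _).trans ?_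
    have h3 : (SS (A j) (A k) s).card ≤ 1 := by
      rw [← hj]
      exact Finset.card_le_card (SS_sub _ _ s)
    calc (SS (A i) (A k) s).card * (SS (A j) (A k) s).card
        ≤ (SS (A i) (A k) s).card * 1 := Nat.mul_le_mul_left _ h3
      _ = (SS (A i) (A k) s).card := Nat.mul_one _
  · intro hi
    refine M1.trans ?_
    rw [← sum_SS]
    refine Finset.sum_le_sum fun s _ => (n2_le _ _ _ _).trans ?_
    have h3 : (SS (A i) (A k) s).card ≤ 1 := by
      rw [← hi]
      exact Finset.card_le_card (SS_sub _ _ s)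
    calc (SS (A i) (A k) s).card * (SS (A j) (A k) s).card
        ≤ 1 * (SS (A j) (A k) s).card := Nat.mul_le_mul_right _ h3
      _ = (SS (A j) (A k) s).card := Nat.one_mul _

end Pool.Agent.Lib.MP_4e7804_co.N3
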