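import Pool.Agent.Lib.MP_4e7804_co.N3.Spec2

/-!
# n = 3, NoZ: m parameters cannot solve m + 1 equations
-/

set_option autoImplicit false

namespace Pool.Agent.Lib.MP_4e7804_co.N3.NoZN

open Classical in
/-- the chosen coefficients -/
private noncomputable def ch (S : Fin 3 → Finset (Fin 2 → ℤ)) (J : Finset (Fin 3))
    (P : Fin 3 → (Fin 2 → ℤ)) : Finset (Σ i : Fin 3, {p // p ∈ S i}) :=
  Finset.univ.filter fun x => x.1 ∈ J ∧ x.2.1 = P x.1

private theorem mem_ch {S : Fin 3 → Finset (Fin 2 → ℤ)} {J : Finset (Fin 3)}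
    {P : Fin 3 → (Fin 2 → ℤ)} {x : Σ i : Fin 3, {p // p ∈ S i}} :
    x ∈ ch S J P ↔ x.1 ∈ J ∧ x.2.1 = P x.1 := by
  simp [ch]

private theorem card_ch {S : Fin 3 → Finset (Fin 2 → ℤ)} {J : Finset (Fin 3)}
    {P : Fin 3 → (Fin 2 → ℤ)} (hP : ∀ i ∈ J, P i ∈ S i) : (ch S J P).card = J.card := by
  classical
  refine Finset.card_bij (fun x _ => x.1) ?_ ?_ ?_
  · intro x hx
    exact (mem_ch.1 hx).1
  · rintro ⟨i, p, hp⟩ hx ⟨j, q, hq⟩ hy h
    have h1 := (mem_ch.1 hx).2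
    have h2 := (mem_ch.1 hy).2
    simp only at h h1 h2
    subst h
    have h3 : p = q := by rw [h1, h2]
    subst h3
    rfl
  · intro i hi
    exact ⟨⟨i, P i, hP i hi⟩, mem_ch.2 ⟨hi, rfl⟩, rfl⟩

end Pool.Agent.Lib.MP_4e7804_co.N3.NoZN

namespace Pool.Agent.Lib.MP_4e7804_co.N3

open NoZN in
theorem tNoZ (hCnt : StmtCnt) : StmtNoZ := by
  classical
  intro S c hc Ω _ _ _ m τ J hJ u hu E hE hz
  choose! P hPE using fun i hi => (hE i hi).1
  have hPS : ∀ i ∈ J, P i ∈ S i := fun i hi => (hE i hi).2 (hPE i hi)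
  have hind : AlgebraicIndependent ℚ
      (fun x : (Σ i : Fin 3, {p // p ∈ S i}) => algebraMap ℂ Ω (c x.1 x.2.1)) := by
    have h1 := AlgebraicIndependent.map' (f := (algebraMap ℂ Ω).toRatAlgHom) hc
      (algebraMap ℂ Ω).injective
    exact h1
  obtain ⟨g, hg⟩ : ∃ g : {x : (Σ i : Fin 3, {p // p ∈ S i}) // x ∉ ch S J P} ⊕ Fin m → Ω,
      g = Sum.elim (fun x => algebraMap ℂ Ω (c x.1.1 x.1.2.1)) τ := ⟨_, rfl⟩
  have hgF : ∀ k, g k ∈ IntermediateField.adjoin ℚ (Set.range g) :=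
    fun k => IntermediateField.subset_adjoin ℚ _ ⟨k, rfl⟩
  have hτF : IntermediateField.adjoin ℚ (Set.range τ) ≤ IntermediateField.adjoin ℚ (Set.range g) := by
    rw [IntermediateField.adjoin_le_iff]
    rintro _ ⟨k, rfl⟩
    have := hgF (Sum.inr k)
    rw [hg] at this ⊢
    exact this
  have hnot : ∀ x : (Σ i : Fin 3, {p // p ∈ S i}), x ∉ ch S J P →
      algebraMap ℂ Ω (c x.1 x.2.1) ∈ IntermediateField.adjoin ℚ (Set.range g) := by
    intro x hx
    have := hgF (Sum.inl ⟨x, hx⟩)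
    rw [hg] at this ⊢
    exact this
  have hall : ∀ x : (Σ i : Fin 3, {p // p ∈ S i}),
      algebraMap ℂ Ω (c x.1 x.2.1) ∈ IntermediateField.adjoin ℚ (Set.range g) := by
    intro x
    by_cases hx : x ∉ ch S J P
    · exact hnot x hx
    · rw [not_not, mem_ch] at hx
      obtain ⟨hi, hxP⟩ := hx
      rw [hxP]
      obtain ⟨i, hdef⟩ : ∃ i, i = x.1 := ⟨_, rfl⟩
      rw [← hdef] at hi ⊢
      have h2 := hz i hi
      rw [← Finset.add_sum_erase _ _ (hPE i hi)] at h2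
      have h3 : ∑ p ∈ (E i).erase (P i), algebraMap ℂ Ω (c i p) * u i p ∈
          IntermediateField.adjoin ℚ (Set.range g) := by
        refine sum_mem fun p hp => ?_
        refine mul_mem ?_ (hτF (hu i p).1)
        have hpE : p ∈ S i := (hE i hi).2 (Finset.mem_of_mem_erase hp)
        refine hnot ⟨i, p, hpE⟩ ?_
        rw [mem_ch]
        rintro ⟨_, h4⟩
        exact Finset.ne_of_mem_erase hp h4
      have h5 : algebraMap ℂ Ω (c i (P i)) =
          -(∑ p ∈ (E i).erase (P i), algebraMap ℂ Ω (c i p) * u i p) / u i (P i) := by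
        rw [eq_div_iff (hu i (P i)).2]
        exact eq_neg_of_add_eq_zero_left h2
      rw [h5]
      exact div_mem (neg_mem h3) (hτF (hu i (P i)).1)
  have hcard := hCnt Ω inferInstance inferInstance (Σ i : Fin 3, {p // p ∈ S i})
    ({x : (Σ i : Fin 3, {p // p ∈ S i}) // x ∉ ch S J P} ⊕ Fin m) inferInstance inferInstance
    (fun x => algebraMap ℂ Ω (c x.1 x.2.1)) g hind fun x =>
    isAlgebraic_algebraMap (⟨_, hall x⟩ : IntermediateField.adjoin ℚ (Set.range g))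
  rw [Fintype.card_sum, Fintype.card_fin] at hcard
  have h6 : Fintype.card {x : (Σ i : Fin 3, {p // p ∈ S i}) // x ∉ ch S J P} =
      Fintype.card (Σ i : Fin 3, {p // p ∈ S i}) - (ch S J P).card := by
    rw [Fintype.card_subtype_compl, Fintype.card_coe]
  have h7 : (ch S J P).card ≤ Fintype.card (Σ i : Fin 3, {p // p ∈ S i}) := Finset.card_le_univ _
  rw [card_ch hPS, hJ] at h6 h7
  omega

end Pool.Agent.Lib.MP_4e7804_co.N3
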