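import Pool.Agent.Lib.MP_4e7804_co.N3.Spec2

/-!
# n = 3: common zeros of two polynomials are algebraic over the coefficients
-/

set_option autoImplicit false

namespace Pool.Agent.Lib.MP_4e7804_co.N3

namespace NoZ2N

/-- one coefficient is determined by the other coefficients and the point -/
theorem coeff_mem (E : IntermediateField ℚ ℂ) (S : Finset (Fin 2 → ℤ)) (c : (Fin 2 → ℤ) → ℂ)
    (t : Fin 2 → ℂ) (ht : ∀ k, t k ≠ 0) (htE : ∀ k, t k ∈ E) (h0 : evC S c t = 0)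
    (p : Fin 2 → ℤ) (hp : p ∈ S) (hc : ∀ q ∈ S, q ≠ p → c q ∈ E) : c p ∈ E := by
  classical
  have hmon : ∀ q : Fin 2 → ℤ, t 0 ^ q 0 * t 1 ^ q 1 ∈ E := fun q =>
    mul_mem (zpow_mem (htE 0) _) (zpow_mem (htE 1) _)
  have hne : t 0 ^ p 0 * t 1 ^ p 1 ≠ 0 :=
    mul_ne_zero (zpow_ne_zero _ (ht 0)) (zpow_ne_zero _ (ht 1))
  unfold evC at h0
  rw [← Finset.add_sum_erase S _ hp] at h0
  have h1 : c p = -(∑ q ∈ S.erase p, c q * (t 0 ^ q 0 * t 1 ^ q 1)) *
      (t 0 ^ p 0 * t 1 ^ p 1)⁻¹ := by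
    rw [eq_mul_inv_iff_mul_eq₀ hne]
    linear_combination h0
  rw [h1]
  refine mul_mem (neg_mem (sum_mem fun q hq => ?_)) (inv_mem (hmon p))
  rw [Finset.mem_erase] at hq
  exact mul_mem (hc q hq.2 hq.1) (hmon q)

end NoZ2N

theorem tNoZ2 (h : StmtCnt) : StmtNoZ2 := by
  classical
  intro S c _ i j hij hSi hSj t ht hi hj k hAI
  obtain ⟨p, hp⟩ := hSi
  obtain ⟨q, hq⟩ := hSj
  set a : Σ i : Fin 3, {p // p ∈ S i} := ⟨i, ⟨p, hp⟩⟩ with ha
  set b : Σ i : Fin 3, {p // p ∈ S i} := ⟨j, ⟨q, hq⟩⟩ with hb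
  have hab : a ≠ b := by
    intro he
    exact hij (congrArg Sigma.fst he)
  let g : {x : (Σ i : Fin 3, {p // p ∈ S i}) // x ≠ a ∧ x ≠ b} ⊕ Fin 2 → ℂ :=
    Sum.elim (fun x => c x.1.1 x.1.2.1) t
  set E := IntermediateField.adjoin ℚ (Set.range g) with hE
  have htE : ∀ k, t k ∈ E := fun k =>
    IntermediateField.subset_adjoin ℚ _ ⟨Sum.inr k, rfl⟩
  have hcE : ∀ x : (Σ i : Fin 3, {p // p ∈ S i}), x ≠ a → x ≠ b → c x.1 x.2.1 ∈ E :=
    fun x h1 h2 => IntermediateField.subset_adjoin ℚ _ ⟨Sum.inl ⟨x, h1, h2⟩, rfl⟩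
  have hpE : c i p ∈ E := by
    refine NoZ2N.coeff_mem E (S i) (c i) t ht htE hi p hp fun r hr hrp => ?_
    refine hcE ⟨i, ⟨r, hr⟩⟩ ?_ ?_
    · intro he
      rw [ha, Sigma.mk.injEq] at he
      exact hrp (congrArg Subtype.val (eq_of_heq he.2))
    · intro he
      exact hij (congrArg Sigma.fst he)
  have hqE : c j q ∈ E := by
    refine NoZ2N.coeff_mem E (S j) (c j) t ht htE hj q hq fun r hr hrp => ?_
    refine hcE ⟨j, ⟨r, hr⟩⟩ ?_ ?_
    · intro he
      exact hij (congrArg Sigma.fst he).symm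
    · intro he
      rw [hb, Sigma.mk.injEq] at he
      exact hrp (congrArg Subtype.val (eq_of_heq he.2))
  have hall : ∀ x : (Σ i : Fin 3, {p // p ∈ S i}), c x.1 x.2.1 ∈ E := by
    intro x
    by_cases h1 : x = a
    · rw [h1]
      exact hpE
    · by_cases h2 : x = b
      · rw [h2]
        exact hqE
      · exact hcE x h1 h2
  have hcard := h ℂ inferInstance inferInstance (Option (Σ i : Fin 3, {p // p ∈ S i}))
    ({x : (Σ i : Fin 3, {p // p ∈ S i}) // x ≠ a ∧ x ≠ b} ⊕ Fin 2) inferInstance inferInstance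
    _ g hAI (by
      intro o
      cases o with
      | none => exact isAlgebraic_algebraMap (⟨t k, htE k⟩ : E)
      | some x => exact isAlgebraic_algebraMap (⟨c x.1 x.2.1, hall x⟩ : E))
  have hinj : Function.Injective (Sum.elim (fun x => x.1) ![a, b] :
      {x : (Σ i : Fin 3, {p // p ∈ S i}) // x ≠ a ∧ x ≠ b} ⊕ Fin 2 →
        (Σ i : Fin 3, {p // p ∈ S i})) := by
    intro x y hxy
    rcases x with x | x <;> rcases y with y | y
    · exact congrArg Sum.inl (Subtype.ext hxy)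
    · exfalso
      fin_cases y
      · exact x.2.1 hxy
      · exact x.2.2 hxy
    · exfalso
      fin_cases x
      · exact y.2.1 hxy.symm
      · exact y.2.2 hxy.symm
    · fin_cases x <;> fin_cases y
      · rfl
      · exact absurd hxy hab
      · exact absurd hxy.symm hab
      · rfl
  have hle := Fintype.card_le_of_injective _ hinj
  rw [Fintype.card_option] at hcard
  omega

end Pool.Agent.Lib.MP_4e7804_co.N3
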