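import Pool.Agent.Lib.MP_4e7804_co.N3.Spec3

/-!
# The number of vertices of the Newton polytope
-/

set_option autoImplicit false

namespace Pool.Agent.Lib.MP_4e7804_co.N3

open MvPolynomial

theorem tNvI : StmtNvI := by
  intro F
  unfold numVertices newton nv Mx
  rw [Finset.coe_image]

end Pool.Agent.Lib.MP_4e7804_co.N3
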