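import Pool.Agent.Lib.MP_4e7804_co.N3.Spec2

/-!
# PGen: dilated and perturbed polygons are in general position
-/

set_option autoImplicit false

open Filter

namespace Pool.Agent.Lib.MP_4e7804_co.N3

namespace PGenN

/-- polynomial functions -/
def Pf (f : ℝ → ℝ) : Prop := ∃ P : Polynomial ℝ, ∀ t, f t = P.eval t

theorem pf_const (c : ℝ) : Pf fun _ => c := ⟨Polynomial.C c, fun t => by simp⟩

theorem pf_id : Pf fun t => t := ⟨Polynomial.X, fun t => by simp⟩

theorem pf_add {f g : ℝ → ℝ} (hf : Pf f) (hg : Pf g) : Pf fun t => f t + g t := by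
  obtain ⟨P, hP⟩ := hf
  obtain ⟨Q, hQ⟩ := hg
  exact ⟨P + Q, fun t => by simp [hP, hQ]⟩

theorem pf_sub {f g : ℝ → ℝ} (hf : Pf f) (hg : Pf g) : Pf fun t => f t - g t := by
  obtain ⟨P, hP⟩ := hf
  obtain ⟨Q, hQ⟩ := hg
  exact ⟨P - Q, fun t => by simp [hP, hQ]⟩

theorem pf_mul {f g : ℝ → ℝ} (hf : Pf f) (hg : Pf g) : Pf fun t => f t * g t := by
  obtain ⟨P, hP⟩ := hf
  obtain ⟨Q, hQ⟩ := hg
  exact ⟨P * Q, fun t => by simp [hP, hQ]⟩

theorem pf_ne {f : ℝ → ℝ} (hf : Pf f) (h0 : f 0 ≠ 0) : ∀ᶠ n : ℕ in atTop, f n ≠ 0 := by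
  obtain ⟨P, hP⟩ := hf
  have hP0 : P ≠ 0 := by
    rintro rfl
    apply h0
    rw [hP]
    simp
  have h1 := Polynomial.eventually_atTop_not_isRoot P hP0
  have h2 := tendsto_natCast_atTop_atTop (R := ℝ) |>.eventually h1
  filter_upwards [h2] with n hn h3
  apply hn
  rw [Polynomial.IsRoot.def, ← hP]
  exact h3

/-- polynomial curves -/
def Pv (a : ℝ → Pl) : Prop := (Pf fun t => (a t).1) ∧ Pf fun t => (a t).2

theorem pv_sub {a b : ℝ → Pl} (ha : Pv a) (hb : Pv b) : Pv fun t => a t - b t :=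
  ⟨pf_sub ha.1 hb.1, pf_sub ha.2 hb.2⟩

theorem pf_cr {a b : ℝ → Pl} (ha : Pv a) (hb : Pv b) : Pf fun t => cr (a t) (b t) :=
  pf_sub (pf_mul ha.1 hb.2) (pf_mul ha.2 hb.1)

/-- the perturbed point -/
noncomputable def xx (δ : (Fin 2 → ℤ) → Fin 2 → ℤ) (p : Fin 2 → ℤ) (t : ℝ) : Pl :=
  t • toPl p + toPl (δ p)

theorem xx_zero (δ : (Fin 2 → ℤ) → Fin 2 → ℤ) (p : Fin 2 → ℤ) : xx δ p 0 = toPl (δ p) := by
  simp [xx]

theorem pv_xx (δ : (Fin 2 → ℤ) → Fin 2 → ℤ) (p : Fin 2 → ℤ) : Pv (xx δ p) := by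
  constructor
  · exact pf_add (pf_mul pf_id (pf_const (toPl p).1)) (pf_const (toPl (δ p)).1)
  · exact pf_add (pf_mul pf_id (pf_const (toPl p).2)) (pf_const (toPl (δ p)).2)

theorem toPl_pert (δ : (Fin 2 → ℤ) → Fin 2 → ℤ) (p : Fin 2 → ℤ) (n : ℕ) :
    toPl ((n : ℤ) • p + δ p) = xx δ p n := by
  ext <;> simp [toPl, xx]

theorem mem_pert {W : Finset (Fin 2 → ℤ)} {δ : (Fin 2 → ℤ) → Fin 2 → ℤ} {n : ℕ} {y : Pl} :
    y ∈ rv (pert W δ n) ↔ ∃ p ∈ W, xx δ p n = y := by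
  rw [mem_rv]
  constructor
  · rintro ⟨q, hq, rfl⟩
    obtain ⟨p, hp, rfl⟩ := Finset.mem_image.1 hq
    exact ⟨p, hp, (toPl_pert δ p n).symm⟩
  · rintro ⟨p, hp, rfl⟩
    exact ⟨_, Finset.mem_image.2 ⟨p, hp, rfl⟩, toPl_pert δ p n⟩

theorem pf_nrm {x : Fin 3 → ℝ → Pl} (hx : ∀ i, Pv (x i)) (i : Fin 3) :
    Pf fun t => nrm (fun l => x l t) i := by
  fin_cases i
  · exact pf_cr (hx 1) (hx 2)
  · exact pf_cr (hx 2) (hx 0)
  · exact pf_cr (hx 0) (hx 1)

theorem ev_pos {a b : ℝ} (ha : 0 < a) : ∀ᶠ n : ℕ in atTop, 0 < (n : ℝ) * a + b := by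
  have h1 : Tendsto (fun n : ℕ => (n : ℝ) * a + b) atTop atTop :=
    tendsto_atTop_add_const_right _ _ (tendsto_natCast_atTop_atTop.atTop_mul_const ha)
  exact h1.eventually_gt_atTop 0

theorem ev_dt (δ : (Fin 2 → ℤ) → Fin 2 → ℤ) {p q : Fin 2 → ℤ} {w : Pl}
    (h : dt (toPl p) w < dt (toPl q) w) : ∀ᶠ n : ℕ in atTop, dt (xx δ p n) w < dt (xx δ q n) w := by
  have h1 := ev_pos (a := dt (toPl q) w - dt (toPl p) w)
    (b := dt (toPl (δ q)) w - dt (toPl (δ p)) w) (sub_pos.mpr h)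
  filter_upwards [h1] with n hn
  have e : ∀ r : Fin 2 → ℤ, dt (xx δ r n) w = n * dt (toPl r) w + dt (toPl (δ r)) w := by
    intro r
    simp only [dt, xx, Prod.fst_add, Prod.snd_add, Prod.smul_fst, Prod.smul_snd, smul_eq_mul]
    ring
  rw [e, e]
  linarith

end PGenN

open PGenN in
theorem tPGen : StmtPGen := by
  intro W δ hCP hG
  -- directions for the vertices
  have hw : ∀ i, ∀ p ∈ W i, ∃ w : Pl, ∀ q ∈ W i, q ≠ p → dt (toPl p) w < dt (toPl q) w := by
    intro i p hp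
    obtain ⟨w, hw⟩ := (hCP i).2 p hp
    exact ⟨w, fun q hq hqp => hw (toPl q) (toPl_mem_rv hq) fun h => hqp (toPl_injective h)⟩
  choose! w hw using hw
  have e0 : ∀ᶠ n : ℕ in atTop, ∀ i, ∀ p ∈ W i, ∀ q ∈ W i, q ≠ p →
      dt (xx (δ i) p n) (w i p) < dt (xx (δ i) q n) (w i p) := by
    rw [eventually_all]
    intro i
    rw [eventually_all_finset]
    intro p hp
    rw [eventually_all_finset]
    intro q hq
    by_cases hqp : q = p
    · exact Eventually.of_forall fun n h => absurd hqp h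
    · filter_upwards [ev_dt (δ i) (hw i p hp q hq hqp)] with n hn _
      exact hn
  have e1 : ∀ᶠ n : ℕ in atTop, ∀ i j, ∀ p ∈ W i, ∀ q ∈ W j, (i ≠ j ∨ p ≠ q) →
      cr (xx (δ i) p n) (xx (δ j) q n) ≠ 0 := by
    rw [eventually_all]
    intro i
    rw [eventually_all]
    intro j
    rw [eventually_all_finset]
    intro p hp
    rw [eventually_all_finset]
    intro q hq
    by_cases h : i ≠ j ∨ p ≠ q
    · have h1 := pf_ne (pf_cr (pv_xx (δ i) p) (pv_xx (δ j) q))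
        (by rw [xx_zero, xx_zero]; exact hG.h1 i j p hp q hq h)
      filter_upwards [h1] with n hn _
      exact hn
    · exact Eventually.of_forall fun n h' => absurd h' h
  have e2 : ∀ᶠ n : ℕ in atTop, ∀ i j, i ≠ j → ∀ p ∈ W i, ∀ p' ∈ W i, p ≠ p' → ∀ q ∈ W j, ∀ q' ∈ W j,
      q ≠ q' → cr (xx (δ i) p n - xx (δ i) p' n) (xx (δ j) q n - xx (δ j) q' n) ≠ 0 := by
    rw [eventually_all]
    intro i
    rw [eventually_all]
    intro j
    rw [eventually_imp_distrib_left]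
    intro hij
    rw [eventually_all_finset]
    intro p hp
    rw [eventually_all_finset]
    intro p' hp'
    rw [eventually_imp_distrib_left]
    intro hpp
    rw [eventually_all_finset]
    intro q hq
    rw [eventually_all_finset]
    intro q' hq'
    rw [eventually_imp_distrib_left]
    intro hqq
    refine pf_ne (pf_cr (pv_sub (pv_xx (δ i) p) (pv_xx (δ i) p'))
      (pv_sub (pv_xx (δ j) q) (pv_xx (δ j) q'))) ?_
    simp only [xx_zero]
    exact hG.h2 i j hij p hp p' hp' hpp q hq q' hq' hqq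
  have e3 : ∀ᶠ n : ℕ in atTop, ∀ i j, i ≠ j → ∀ p ∈ W i, ∀ p' ∈ W i, p ≠ p' → ∀ q ∈ W j,
      cr (xx (δ i) p n - xx (δ i) p' n) (xx (δ j) q n) ≠ 0 := by
    rw [eventually_all]
    intro i
    rw [eventually_all]
    intro j
    rw [eventually_imp_distrib_left]
    intro hij
    rw [eventually_all_finset]
    intro p hp
    rw [eventually_all_finset]
    intro p' hp'
    rw [eventually_imp_distrib_left]
    intro hpp
    rw [eventually_all_finset]
    intro q hq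
    refine pf_ne (pf_cr (pv_sub (pv_xx (δ i) p) (pv_xx (δ i) p')) (pv_xx (δ j) q)) ?_
    simp only [xx_zero]
    exact hG.h3 i j hij p hp p' hp' hpp q hq
  have e4 : ∀ᶠ n : ℕ in atTop, ∀ a ∈ Fintype.piFinset W, ∀ b ∈ Fintype.piFinset W, a ≠ b →
      ∃ i j, nrm (fun l => xx (δ l) (a l) n) i * nrm (fun l => xx (δ l) (b l) n) j ≠
        nrm (fun l => xx (δ l) (a l) n) j * nrm (fun l => xx (δ l) (b l) n) i := by
    rw [eventually_all_finset]
    intro a ha
    rw [eventually_all_finset]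
    intro b hb
    rw [eventually_imp_distrib_left]
    intro hab
    rw [Fintype.mem_piFinset] at ha hb
    obtain ⟨i, j, h⟩ := hG.h4 a b ha hb hab
    have pa := pf_nrm (x := fun l => xx (δ l) (a l)) (fun l => pv_xx (δ l) (a l))
    have pb := pf_nrm (x := fun l => xx (δ l) (b l)) (fun l => pv_xx (δ l) (b l))
    have h1 := pf_ne (pf_sub (pf_mul (pa i) (pb j)) (pf_mul (pa j) (pb i))) (by
      simp only [xx_zero]
      exact sub_ne_zero.mpr h)
    filter_upwards [h1] with n hn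
    exact ⟨i, j, sub_ne_zero.mp hn⟩
  have e7 : ∀ᶠ n : ℕ in atTop, ∀ i j k, i ≠ j → i ≠ k → j ≠ k → ∀ p ∈ W i, ∀ p' ∈ W i, p ≠ p' →
      ∀ q ∈ W i, ∀ q' ∈ W i, q ≠ q' → ∀ s ∈ W j, ∀ s' ∈ W j, ∀ r ∈ W k, ∀ r' ∈ W k,
      cr (xx (δ i) p n - xx (δ i) p' n) (xx (δ j) s n) *
        cr (xx (δ i) q n - xx (δ i) q' n) (xx (δ k) r' n) =
      cr (xx (δ i) p n - xx (δ i) p' n) (xx (δ k) r n) *
        cr (xx (δ i) q n - xx (δ i) q' n) (xx (δ j) s' n) →
      s = s' ∧ r = r' ∧ ((p = q ∧ p' = q') ∨ (p = q' ∧ p' = q)) := by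
    rw [eventually_all]
    intro i
    rw [eventually_all]
    intro j
    rw [eventually_all]
    intro k
    rw [eventually_imp_distrib_left]
    intro hij
    rw [eventually_imp_distrib_left]
    intro hik
    rw [eventually_imp_distrib_left]
    intro hjk
    rw [eventually_all_finset]
    intro p hp
    rw [eventually_all_finset]
    intro p' hp'
    rw [eventually_imp_distrib_left]
    intro hpp
    rw [eventually_all_finset]
    intro q hq
    rw [eventually_all_finset]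
    intro q' hq'
    rw [eventually_imp_distrib_left]
    intro hqq
    rw [eventually_all_finset]
    intro s hs
    rw [eventually_all_finset]
    intro s' hs'
    rw [eventually_all_finset]
    intro r hr
    rw [eventually_all_finset]
    intro r' hr'
    by_cases hc : s = s' ∧ r = r' ∧ ((p = q ∧ p' = q') ∨ (p = q' ∧ p' = q))
    · exact Eventually.of_forall fun n _ => hc
    · have h1 := pf_ne (pf_sub
        (pf_mul (pf_cr (pv_sub (pv_xx (δ i) p) (pv_xx (δ i) p')) (pv_xx (δ j) s))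
          (pf_cr (pv_sub (pv_xx (δ i) q) (pv_xx (δ i) q')) (pv_xx (δ k) r')))
        (pf_mul (pf_cr (pv_sub (pv_xx (δ i) p) (pv_xx (δ i) p')) (pv_xx (δ k) r))
          (pf_cr (pv_sub (pv_xx (δ i) q) (pv_xx (δ i) q')) (pv_xx (δ j) s')))) (by
        simp only [xx_zero]
        intro h
        exact hc (hG.h7 i j k hij hik hjk p hp p' hp' hpp q hq q' hq' hqq s hs s' hs' r hr r' hr'
          (sub_eq_zero.mp h)))
      filter_upwards [h1] with n hn h
      exact absurd (sub_eq_zero.mpr h) hn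
  obtain ⟨N₀, hN⟩ := eventually_atTop.mp (e0.and (e1.and (e2.and (e3.and (e4.and e7)))))
  refine ⟨N₀, fun n hn => ?_⟩
  obtain ⟨h0, h1, h2, h3, h4, h7⟩ := hN n hn
  have hinj : ∀ i, ∀ p ∈ W i, ∀ q ∈ W i, xx (δ i) p n = xx (δ i) q n → p = q := by
    intro i p hp q hq h
    by_contra hpq
    have := h0 i p hp q hq (Ne.symm hpq)
    rw [h] at this
    exact lt_irrefl _ this
  have hcp : ∀ i, CP (pert (W i) (δ i) n) := by
    intro i
    refine ⟨(hCP i).1.image _, ?_⟩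
    intro p' hp'
    obtain ⟨p, hp, rfl⟩ := Finset.mem_image.1 hp'
    refine ⟨w i p, ?_⟩
    intro y hy hne
    obtain ⟨q, hq, rfl⟩ := mem_pert.1 hy
    rw [toPl_pert] at hne ⊢
    exact h0 i p hp q hq fun h => hne (by rw [h])
  have hcard : ∀ i, (pert (W i) (δ i) n).card = (W i).card := by
    intro i
    refine Finset.card_image_of_injOn ?_
    intro p hp q hq h
    apply hinj i p hp q hq
    rw [← toPl_pert, ← toPl_pert]
    exact congrArg toPl h
  refine ⟨?_, hcp, hcard⟩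
  refine ⟨?_, ?_, ?_, ?_, ?_, ?_, ?_, ?_⟩
  · intro i
    obtain ⟨p, hp⟩ := (hCP i).1
    exact ⟨xx (δ i) p n, mem_pert.2 ⟨p, hp, rfl⟩⟩
  · intro i y hy
    obtain ⟨p, hp, rfl⟩ := mem_rv.1 hy
    exact (hcp i).2 p hp
  · intro i j hij y hy z hz
    obtain ⟨p, hp, rfl⟩ := mem_pert.1 hy
    obtain ⟨q, hq, rfl⟩ := mem_pert.1 hz
    exact h1 i j p hp q hq (Or.inl hij)
  · intro i j hij y hy y' hy' hne z hz z' hz' hne'
    obtain ⟨p, hp, rfl⟩ := mem_pert.1 hy
    obtain ⟨p', hp', rfl⟩ := mem_pert.1 hy'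
    obtain ⟨q, hq, rfl⟩ := mem_pert.1 hz
    obtain ⟨q', hq', rfl⟩ := mem_pert.1 hz'
    exact h2 i j hij p hp p' hp' (fun h => hne (by rw [h])) q hq q' hq' (fun h => hne' (by rw [h]))
  · intro i j hij y hy y' hy' hne z hz
    obtain ⟨p, hp, rfl⟩ := mem_pert.1 hy
    obtain ⟨p', hp', rfl⟩ := mem_pert.1 hy'
    obtain ⟨q, hq, rfl⟩ := mem_pert.1 hz
    exact h3 i j hij p hp p' hp' (fun h => hne (by rw [h])) q hq
  · intro y z hy hz hne
    choose a ha ha' using fun i => mem_pert.1 (hy i)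
    choose b hb hb' using fun i => mem_pert.1 (hz i)
    have hab : a ≠ b := by
      rintro rfl
      apply hne
      funext i
      rw [← ha' i, ← hb' i]
    obtain ⟨i, j, h⟩ := h4 a (Fintype.mem_piFinset.2 ha) b (Fintype.mem_piFinset.2 hb) hab
    have hya : (fun l => xx (δ l) (a l) n) = y := funext ha'
    have hzb : (fun l => xx (δ l) (b l) n) = z := funext hb'
    rw [hya, hzb] at h
    exact ⟨i, j, h⟩
  · intro i y hy z hz hne
    obtain ⟨p, hp, rfl⟩ := mem_pert.1 hy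
    obtain ⟨q, hq, rfl⟩ := mem_pert.1 hz
    exact h1 i i p hp q hq (Or.inr fun h => hne (by rw [h]))
  · intro i j k hij hik hjk y hy y' hy' hne z hz z' hz' hne' ys us ys' us' yr ur yr' ur' h
    obtain ⟨p, hp, rfl⟩ := mem_pert.1 hy
    obtain ⟨p', hp', rfl⟩ := mem_pert.1 hy'
    obtain ⟨q, hq, rfl⟩ := mem_pert.1 hz
    obtain ⟨q', hq', rfl⟩ := mem_pert.1 hz'
    obtain ⟨s, hs, rfl⟩ := mem_pert.1 us
    obtain ⟨s', hs', rfl⟩ := mem_pert.1 us'
    obtain ⟨r, hr, rfl⟩ := mem_pert.1 ur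
    obtain ⟨r', hr', rfl⟩ := mem_pert.1 ur'
    obtain ⟨c1, c2, c3⟩ := h7 i j k hij hik hjk p hp p' hp' (fun h => hne (by rw [h])) q hq q' hq'
      (fun h => hne' (by rw [h])) s hs s' hs' r hr r' hr' h
    refine ⟨by rw [c1], by rw [c2], ?_⟩
    rcases c3 with ⟨c3, c4⟩ | ⟨c3, c4⟩
    · exact Or.inl ⟨by rw [c3], by rw [c4]⟩
    · exact Or.inr ⟨by rw [c3], by rw [c4]⟩

end Pool.Agent.Lib.MP_4e7804_co.N3
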