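import Pool.Agent.Lib.MP_4e7804_co.N3.Spec

/-!
# n = 3, PNum: counting ordered pairs of witnesses
-/

set_option autoImplicit false

namespace Pool.Agent.Lib.MP_4e7804_co.N3.PNumN

open Pool.Agent.Lib.MP_4e7804_co.N3

theorem EE_smul {A : Finset Pl} (hA : A.Nonempty) {x : Pl × Pl} {t : ℝ} (ht : 0 < t)
    (hx : x ∈ EE A) : t • x ∈ EE A := by
  rw [EE_iff hA] at hx ⊢
  have e1 : (t • x).1 = t • x.1 := rfl
  have e2 : (t • x).2 = t • x.2 := rfl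
  rw [e1, e2, psi_smul hA _ ht.le, psi_smul hA _ ht.le]
  rcases hx with h | ⟨h, h'⟩ | ⟨h, h'⟩
  · left
    rw [h]
  · right
    left
    exact ⟨mul_lt_mul_of_pos_left h ht, CL_smul hA ht.le h'⟩
  · right
    right
    exact ⟨mul_lt_mul_of_pos_left h ht, CL_smul hA ht.le h'⟩

theorem Apos_of_smul {A : Fin 3 → Finset Pl} (hA : ∀ i, (A i).Nonempty) {w : Pl} {t : ℝ}
    (ht : 0 < t) (h : t • w ∈ Apos A) : w ∈ Apos A := by
  intro i
  have h1 := h i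
  rw [psi_smul (hA i) _ ht.le] at h1
  exact (mul_pos_iff_of_pos_left ht).1 h1

theorem QQ_smul {A : Fin 3 → Finset Pl} (hA : ∀ i, (A i).Nonempty) {x : Pl × Pl} {t : ℝ}
    (ht : 0 < t) (hx : x ∈ QQ A) : t • x ∈ QQ A := by
  obtain ⟨h1, h2, h3, h4⟩ := hx
  have e1 : (t • x).1 = t • x.1 := rfl
  have e2 : (t • x).2 = t • x.2 := rfl
  refine ⟨fun i => EE_smul (hA i) ht (h1 i), ?_, ?_, ?_⟩
  · rw [e1, e2]
    intro h
    exact h2 (smul_right_injective Pl ht.ne' h)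
  · rw [e1, e2]
    rintro ⟨h, h'⟩
    refine h3 ⟨?_, Apos_of_smul hA ht h'⟩
    rcases smul_eq_zero.1 h with h0 | h0
    · exact absurd h0 ht.ne'
    · exact h0
  · rw [e1, e2]
    rintro ⟨h, h'⟩
    refine h4 ⟨?_, Apos_of_smul hA ht h'⟩
    rcases smul_eq_zero.1 h with h0 | h0
    · exact absurd h0 ht.ne'
    · exact h0

theorem zeta_smul {A : Fin 3 → Finset Pl} (hA : ∀ i, (A i).Nonempty) (x : Pl × Pl) {t : ℝ}
    (ht : 0 < t) : zeta A (t • x) = t • zeta A x := by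
  funext i
  have e1 : (t • x).1 = t • x.1 := rfl
  have e2 : (t • x).2 = t • x.2 := rfl
  show max (psi (A i) (t • x).1) (psi (A i) (t • x).2) =
    t * max (psi (A i) x.1) (psi (A i) x.2)
  rw [e1, e2, psi_smul (hA i) _ ht.le, psi_smul (hA i) _ ht.le, mul_max_of_nonneg _ _ ht.le]

theorem offDiag_ncard {α : Type*} (S : Set α) (hS : S.Finite) :
    ({x : α × α | x.1 ∈ S ∧ x.2 ∈ S ∧ x.1 ≠ x.2}.ncard : ℤ) = S.ncard * (S.ncard - 1) := by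
  classical
  obtain ⟨s, rfl⟩ := hS.exists_finset_coe
  have h : {x : α × α | x.1 ∈ (s : Set α) ∧ x.2 ∈ (s : Set α) ∧ x.1 ≠ x.2} =
      (s.offDiag : Set (α × α)) := by
    ext x
    simp
  rw [h, Set.ncard_coe_finset, Set.ncard_coe_finset, Finset.offDiag_card]
  have h1 : s.card ≤ s.card * s.card := Nat.le_mul_self _
  rw [Nat.cast_sub h1]
  push_cast
  ring

end Pool.Agent.Lib.MP_4e7804_co.N3.PNumN

namespace Pool.Agent.Lib.MP_4e7804_co.N3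

open PNumN

theorem tPNum (h1 : StmtPair) (_h2 : StmtQFin) (h3 : StmtSFin) : StmtPNum := by
  intro A hG z hz
  obtain ⟨P1, P2, -⟩ := h1 A hG
  have hA := hG.ne
  have hS : {w | Wit A z w ∧ ¬ (w = 0 ∧ z ∈ oct)}.Finite :=
    (h3 A hG z).subset fun w hw => hw.1
  rw [← offDiag_ncard _ hS]
  have key : ∀ x : Pl × Pl, (x.1 ∈ {w | Wit A z w ∧ ¬ (w = 0 ∧ z ∈ oct)} ∧
      x.2 ∈ {w | Wit A z w ∧ ¬ (w = 0 ∧ z ∈ oct)} ∧ x.1 ≠ x.2) ↔ (x ∈ QQ A ∧ zeta A x = z) := by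
    intro x
    constructor
    · rintro ⟨a, b, c⟩
      have h := P1 z x.2 x.1 b.1 a.1 (Ne.symm c) b.2 a.2
      exact ⟨h.1, h.2.symm⟩
    · rintro ⟨a, rfl⟩
      obtain ⟨b1, b2, b3, b4, -⟩ := P2 x a
      exact ⟨⟨b1, b3⟩, ⟨b2, b4⟩, a.2.1⟩
  have hnorm : ∀ x : Pl × Pl, x ∈ QQ A → 0 < ‖x‖ := by
    intro x hx
    rw [norm_pos_iff]
    rintro rfl
    exact hx.2.1 rfl
  have hzx : ∀ x : Pl × Pl, x ∈ QQ A → zeta A x = ‖x‖ • zeta A (‖x‖⁻¹ • x) := by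
    intro x hx
    rw [← zeta_smul hA _ (hnorm x hx), smul_inv_smul₀ (hnorm x hx).ne']
  congr 1
  refine Set.ncard_congr (fun x _ => ‖x‖⁻¹ • x) ?_ ?_ ?_
  · intro x hx
    obtain ⟨hq, hzz⟩ := (key x).1 hx
    have hn := hnorm x hq
    refine ⟨⟨QQ_smul hA (inv_pos.2 hn) hq, ?_⟩, ‖x‖, hn, ?_⟩
    · rw [norm_smul, norm_inv, norm_norm, inv_mul_cancel₀ hn.ne']
    · rw [← hzz]
      exact hzx x hq
  · intro x x' hx hx' h
    obtain ⟨hq, hzz⟩ := (key x).1 hx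
    obtain ⟨hq', hzz'⟩ := (key x').1 hx'
    have hn := hnorm x hq
    have hn' := hnorm x' hq'
    have h : ‖x‖⁻¹ • x = ‖x'‖⁻¹ • x' := h
    have e1 := hzx x hq
    have e2 := hzx x' hq'
    rw [hzz] at e1
    rw [hzz', ← h] at e2
    have e3 : (‖x‖ - ‖x'‖) • zeta A (‖x‖⁻¹ • x) = 0 := by
      rw [sub_smul, ← e1, ← e2, sub_self]
    rcases smul_eq_zero.1 e3 with h4 | h4
    · have h5 : ‖x‖ = ‖x'‖ := by linarith
      rw [← h5] at h
      exact smul_right_injective (Pl × Pl) (inv_pos.2 hn).ne' h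
    · rw [h4, smul_zero] at e1
      exact absurd e1 hz
  · rintro y ⟨⟨hy, hy1⟩, t, ht, hzt⟩
    have hq : t • y ∈ QQ A := QQ_smul hA ht hy
    have hzy : zeta A (t • y) = z := by rw [zeta_smul hA _ ht, hzt]
    refine ⟨t • y, (key _).2 ⟨hq, hzy⟩, ?_⟩
    show ‖t • y‖⁻¹ • t • y = y
    rw [norm_smul, hy1, mul_one, Real.norm_eq_abs, abs_of_pos ht, inv_smul_smul₀ ht.ne']

end Pool.Agent.Lib.MP_4e7804_co.N3
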