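import Pool.Agent.Lib.MP_4e7804_co.N3.Spec

/-!
# Two witnesses of a point
-/

set_option autoImplicit false

namespace Pool.Agent.Lib.MP_4e7804_co.N3.PairN

theorem cramer {p q w : Pl} (h : cr p q ≠ 0) (h1 : dt p w = 0) (h2 : dt q w = 0) : w = 0 := by
  have e1 : cr p q * w.1 = 0 := by
    have e : cr p q * w.1 = q.2 * dt p w - p.2 * dt q w := by
      unfold cr dt
      ring
    rw [e, h1, h2]
    ring
  have e2 : cr p q * w.2 = 0 := by
    have e : cr p q * w.2 = p.1 * dt q w - q.1 * dt p w := by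
      unfold cr dt
      ring
    rw [e, h1, h2]
    ring
  exact Prod.ext ((mul_eq_zero.1 e1).resolve_left h) ((mul_eq_zero.1 e2).resolve_left h)

theorem rot {d w : Pl} (h : dt d w = 0) (s : Pl) :
    (d.1 ^ 2 + d.2 ^ 2) * dt s w = cr d s * cr d w := by
  have e : (d.1 ^ 2 + d.2 ^ 2) * dt s w = dt s d * dt d w + cr d s * cr d w := by
    unfold cr dt
    ring
  rw [e, h]
  ring

/-- two points of one corner locus with the same values of the other two support functions -/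
theorem key {A : Fin 3 → Finset Pl} (hA : Gen A)
    (h4 : ∀ i j, i ≠ j → ∀ w, w ∈ CL (A i) → w ≠ 0 → ∀ q ∈ A j, dt q w ≠ 0)
    {i j k : Fin 3} (hij : i ≠ j) (hik : i ≠ k) (hjk : j ≠ k) {w w' : Pl} (hw : w ≠ 0)
    (hw' : w' ≠ 0) (h1 : w ∈ CL (A i)) (h2 : w' ∈ CL (A i))
    (hj : psi (A j) w = psi (A j) w') (hk : psi (A k) w = psi (A k) w') : w = w' := by
  obtain ⟨p, hp, p', hp', hpp, e1, e2⟩ := (CL_iff (hA.ne i)).1 h1
  obtain ⟨q, hq, q', hq', hqq, e3, e4⟩ := (CL_iff (hA.ne i)).1 h2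
  obtain ⟨s, hs, e5⟩ := exists_psi (hA.ne j) w
  obtain ⟨s', hs', e6⟩ := exists_psi (hA.ne j) w'
  obtain ⟨r, hr, e7⟩ := exists_psi (hA.ne k) w
  obtain ⟨r', hr', e8⟩ := exists_psi (hA.ne k) w'
  have d1 : dt (p - p') w = 0 := by rw [sub_dt, e1, e2, sub_self]
  have d2 : dt (q - q') w' = 0 := by rw [sub_dt, e3, e4, sub_self]
  have a1 := rot d1 s
  have a2 := rot d1 r
  have a3 := rot d2 s'
  have a4 := rot d2 r'
  have b1 : dt s' w' = dt s w := by rw [← e6, ← e5, hj]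
  have b2 : dt r' w' = dt r w := by rw [← e8, ← e7, hk]
  have n1 : cr (p - p') w ≠ 0 := by
    intro h
    rw [h, mul_zero] at a1
    rcases mul_eq_zero.1 a1 with h5 | h5
    · have h6 : (p - p').1 = 0 := by nlinarith [sq_nonneg (p - p').1, sq_nonneg (p - p').2]
      have h7 : (p - p').2 = 0 := by nlinarith [sq_nonneg (p - p').1, sq_nonneg (p - p').2]
      exact hpp (sub_eq_zero.1 (Prod.ext h6 h7))
    · exact h4 i j hij w h1 hw s hs h5
  have n2 : cr (q - q') w' ≠ 0 := by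
    intro h
    rw [h, mul_zero] at a3
    rcases mul_eq_zero.1 a3 with h5 | h5
    · have h6 : (q - q').1 = 0 := by nlinarith [sq_nonneg (q - q').1, sq_nonneg (q - q').2]
      have h7 : (q - q').2 = 0 := by nlinarith [sq_nonneg (q - q').1, sq_nonneg (q - q').2]
      exact hqq (sub_eq_zero.1 (Prod.ext h6 h7))
    · exact h4 i j hij w' h2 hw' s' hs' h5
  have e9 : cr (p - p') s * cr (q - q') r' = cr (p - p') r * cr (q - q') s' := by
    have h5 : (cr (p - p') w * cr (q - q') w') * (cr (p - p') s * cr (q - q') r') =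
        (cr (p - p') w * cr (q - q') w') * (cr (p - p') r * cr (q - q') s') := by
      calc (cr (p - p') w * cr (q - q') w') * (cr (p - p') s * cr (q - q') r')
          = (cr (p - p') s * cr (p - p') w) * (cr (q - q') r' * cr (q - q') w') := by ring
        _ = (((p - p').1 ^ 2 + (p - p').2 ^ 2) * dt s w) *
              (((q - q').1 ^ 2 + (q - q').2 ^ 2) * dt r' w') := by rw [a1, a4]
        _ = (((p - p').1 ^ 2 + (p - p').2 ^ 2) * dt r w) *
              (((q - q').1 ^ 2 + (q - q').2 ^ 2) * dt s' w') := by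
            rw [b1, b2]
            ring
        _ = (cr (p - p') r * cr (p - p') w) * (cr (q - q') s' * cr (q - q') w') := by
            rw [a2, a3]
        _ = _ := by ring
    exact mul_left_cancel₀ (mul_ne_zero n1 n2) h5
  obtain ⟨f1, f2, _⟩ := hA.g7 i j k hij hik hjk p hp p' hp' hpp q hq q' hq' hqq s hs s' hs' r hr
    r' hr' e9
  subst f1
  subst f2
  have g1 : dt s (w - w') = 0 := by rw [dt_sub, b1, sub_self]
  have g2 : dt r (w - w') = 0 := by rw [dt_sub, b2, sub_self]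
  exact sub_eq_zero.1 (cramer (hA.g1 j k hjk s hs r hr) g1 g2)

/-- a point which is not zero is in at most one corner locus -/
theorem two_psi {A : Fin 3 → Finset Pl}
    (h3 : ∀ i j, i ≠ j → ∀ w, w ∈ CL (A i) → w ∈ CL (A j) → w = 0)
    {z : Sp} {w : Pl} (hw : w ≠ 0) (hz : Wit A z w) :
    ∃ j k, j ≠ k ∧ z j = psi (A j) w ∧ z k = psi (A k) w := by
  have hr : ∀ i j, i ≠ j → w ∈ CL (A i) → z j = psi (A j) w := by
    intro i j hij h
    rcases (hz j).2 with h5 | h5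
    · exact absurd (h3 i j hij w h h5) hw
    · exact h5
  by_cases h0 : w ∈ CL (A 0)
  · exact ⟨1, 2, by decide, hr 0 1 (by decide) h0, hr 0 2 (by decide) h0⟩
  · have e0 := (hz 0).2.resolve_left h0
    by_cases h1 : w ∈ CL (A 1)
    · exact ⟨0, 2, by decide, e0, hr 1 2 (by decide) h1⟩
    · exact ⟨0, 1, by decide, e0, (hz 1).2.resolve_left h1⟩

theorem wit_zero {A : Fin 3 → Finset Pl} (hA : Gen A)
    (h3 : ∀ i j, i ≠ j → ∀ w, w ∈ CL (A i) → w ∈ CL (A j) → w = 0)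
    {w : Pl} (hz : Wit A 0 w) : w = 0 := by
  by_contra hw
  obtain ⟨j, k, hjk, e1, e2⟩ := two_psi h3 hw hz
  obtain ⟨s, hs, e5⟩ := exists_psi (hA.ne j) w
  obtain ⟨r, hr, e7⟩ := exists_psi (hA.ne k) w
  refine hw (cramer (hA.g1 j k hjk s hs r hr) ?_ ?_)
  · rw [← e5, ← e1]
    rfl
  · rw [← e7, ← e2]
    rfl

/-- the origin and another point of a corner locus: `z` is in the octant -/
theorem oct_of {A : Fin 3 → Finset Pl} (hA : Gen A)
    (h3 : ∀ i j, i ≠ j → ∀ w, w ∈ CL (A i) → w ∈ CL (A j) → w = 0)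
    (h4 : ∀ i j, i ≠ j → ∀ w, w ∈ CL (A i) → w ≠ 0 → ∀ q ∈ A j, dt q w ≠ 0)
    {z : Sp} {w : Pl} {i : Fin 3} (h0 : Wit A z 0) (hz : Wit A z w) (hw : w ≠ 0)
    (hi : w ∈ CL (A i)) (hi0 : psi (A i) 0 < z i) : z ∈ oct := by
  intro j
  by_cases hij : i = j
  · subst hij
    rw [psi_zero (hA.ne i)] at hi0
    exact hi0
  · have e1 : z j = psi (A j) w := by
      rcases (hz j).2 with h5 | h5
      · exact absurd (h3 i j hij w hi h5) hw
      · exact h5
    have e2 : 0 ≤ z j := by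
      have := (h0 j).1
      rwa [psi_zero (hA.ne j)] at this
    obtain ⟨q, hq, e3⟩ := exists_psi (hA.ne j) w
    have e4 : z j ≠ 0 := by
      rw [e1, e3]
      exact h4 i j hij w hi hw q hq
    exact lt_of_le_of_ne e2 (Ne.symm e4)

theorem others : ∀ i : Fin 3, ∃ j k, i ≠ j ∧ i ≠ k ∧ j ≠ k := by decide

theorem zmax {A : Fin 3 → Finset Pl} (hA : Gen A)
    (h3 : ∀ i j, i ≠ j → ∀ w, w ∈ CL (A i) → w ∈ CL (A j) → w = 0)
    (h4 : ∀ i j, i ≠ j → ∀ w, w ∈ CL (A i) → w ≠ 0 → ∀ q ∈ A j, dt q w ≠ 0)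
    {z : Sp} {w w' : Pl} (hz : Wit A z w) (hz' : Wit A z w') (hne : w ≠ w')
    (h5 : ¬ (w = 0 ∧ z ∈ oct)) (h6 : ¬ (w' = 0 ∧ z ∈ oct)) (i : Fin 3) :
    z i = max (psi (A i) w') (psi (A i) w) := by
  refine le_antisymm ?_ (max_le (hz' i).1 (hz i).1)
  by_contra hlt
  rw [not_le] at hlt
  obtain ⟨l1, l2⟩ := max_lt_iff.1 hlt
  have c1 : w ∈ CL (A i) := (hz i).2.resolve_right l2.ne'
  have c2 : w' ∈ CL (A i) := (hz' i).2.resolve_right l1.ne'
  by_cases hw : w = 0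
  · subst hw
    exact h5 ⟨rfl, oct_of hA h3 h4 hz hz' (Ne.symm hne) c2 l2⟩
  · by_cases hw' : w' = 0
    · subst hw'
      exact h6 ⟨rfl, oct_of hA h3 h4 hz' hz hne c1 l1⟩
    · have hr : ∀ j, i ≠ j → psi (A j) w = psi (A j) w' := by
        intro j hij
        have f1 : z j = psi (A j) w := by
          rcases (hz j).2 with h7 | h7
          · exact absurd (h3 i j hij w c1 h7) hw
          · exact h7
        have f2 : z j = psi (A j) w' := by
          rcases (hz' j).2 with h7 | h7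
          · exact absurd (h3 i j hij w' c2 h7) hw'
          · exact h7
        rw [← f1, ← f2]
      obtain ⟨j, k, hij, hik, hjk⟩ := others i
      exact hne (key hA h4 hij hik hjk hw hw' c1 c2 (hr j hij) (hr k hik))

theorem part1 {A : Fin 3 → Finset Pl} (hA : Gen A)
    (h3 : ∀ i j, i ≠ j → ∀ w, w ∈ CL (A i) → w ∈ CL (A j) → w = 0)
    (h4 : ∀ i j, i ≠ j → ∀ w, w ∈ CL (A i) → w ≠ 0 → ∀ q ∈ A j, dt q w ≠ 0)
    (z : Sp) (w w' : Pl) (hz : Wit A z w) (hz' : Wit A z w') (hne : w ≠ w')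
    (h5 : ¬ (w = 0 ∧ z ∈ oct)) (h6 : ¬ (w' = 0 ∧ z ∈ oct)) :
    (w', w) ∈ QQ A ∧ z = zeta A (w', w) := by
  have hm := zmax hA h3 h4 hz hz' hne h5 h6
  refine ⟨⟨fun i => ?_, Ne.symm hne, ?_, ?_⟩, funext hm⟩
  · rw [EE_iff (hA.ne i)]
    rcases lt_trichotomy (psi (A i) w') (psi (A i) w) with h | h | h
    · refine Or.inr (Or.inr ⟨h, ?_⟩)
      refine (hz' i).2.resolve_right ?_
      rw [hm i, max_eq_right h.le]
      exact h.ne'
    · exact Or.inl h
    · refine Or.inr (Or.inl ⟨h, ?_⟩)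
      refine (hz i).2.resolve_right ?_
      rw [hm i, max_eq_left h.le]
      exact h.ne'
  · rintro ⟨e1, e2⟩
    refine h6 ⟨e1, fun i => ?_⟩
    rw [hm i]
    exact lt_max_of_lt_right (e2 i)
  · rintro ⟨e1, e2⟩
    refine h5 ⟨e1, fun i => ?_⟩
    rw [hm i]
    exact lt_max_of_lt_left (e2 i)

theorem part2 {A : Fin 3 → Finset Pl} (hA : Gen A)
    (h3 : ∀ i j, i ≠ j → ∀ w, w ∈ CL (A i) → w ∈ CL (A j) → w = 0)
    (x : Pl × Pl) (hx : x ∈ QQ A) :
    Wit A (zeta A x) x.1 ∧ Wit A (zeta A x) x.2 ∧ ¬ (x.1 = 0 ∧ zeta A x ∈ oct) ∧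
    ¬ (x.2 = 0 ∧ zeta A x ∈ oct) ∧ zeta A x ≠ 0 := by
  obtain ⟨hE, hne, q1, q2⟩ := hx
  have w1 : Wit A (zeta A x) x.1 := by
    intro i
    refine ⟨le_max_left _ _, ?_⟩
    rcases (EE_iff (hA.ne i)).1 (hE i) with h | ⟨h, _⟩ | ⟨_, h⟩
    · right
      change max (psi (A i) x.1) (psi (A i) x.2) = _
      rw [h, max_self]
    · right
      exact max_eq_left h.le
    · exact Or.inl h
  have w2 : Wit A (zeta A x) x.2 := by
    intro i
    refine ⟨le_max_right _ _, ?_⟩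
    rcases (EE_iff (hA.ne i)).1 (hE i) with h | ⟨_, h⟩ | ⟨h, _⟩
    · right
      change max (psi (A i) x.1) (psi (A i) x.2) = _
      rw [h, max_self]
    · exact Or.inl h
    · right
      exact max_eq_right h.le
  refine ⟨w1, w2, ?_, ?_, ?_⟩
  · rintro ⟨e1, e2⟩
    refine q1 ⟨e1, fun i => ?_⟩
    have h : 0 < max (psi (A i) x.1) (psi (A i) x.2) := e2 i
    rw [e1, psi_zero (hA.ne i)] at h
    exact (lt_max_iff.1 h).resolve_left (lt_irrefl 0)
  · rintro ⟨e1, e2⟩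
    refine q2 ⟨e1, fun i => ?_⟩
    have h : 0 < max (psi (A i) x.1) (psi (A i) x.2) := e2 i
    rw [e1, psi_zero (hA.ne i)] at h
    exact (lt_max_iff.1 h).resolve_right (lt_irrefl 0)
  · intro h
    rw [h] at w1 w2
    exact hne ((wit_zero hA h3 w1).trans (wit_zero hA h3 w2).symm)

end Pool.Agent.Lib.MP_4e7804_co.N3.PairN

namespace Pool.Agent.Lib.MP_4e7804_co.N3

theorem tPair (hCL : StmtCLdef) : StmtPair := by
  intro A hA
  obtain ⟨_, _, h3, h4⟩ := hCL A hA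
  exact ⟨PairN.part1 hA h3 h4, PairN.part2 hA h3, fun w hw => PairN.wit_zero hA h3 hw⟩

end Pool.Agent.Lib.MP_4e7804_co.N3
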