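import Pool.Agent.Lib.MP_4e7804_co.N3.Spec2

/-!
# n = 3: the number of vertices does not decrease under perturbation
-/

set_option autoImplicit false

namespace Pool.Agent.Lib.MP_4e7804_co.N3.PertN

open Filter Topology

/-- the open cone of an exponent -/
def cone (M : Finset Sp) (a : Sp) : Set Sp := {z | ∀ m ∈ M, m ≠ a → a ⬝ᵥ z < m ⬝ᵥ z}

theorem dp_cont (a : Sp) : Continuous fun z : Sp => a ⬝ᵥ z := by
  unfold dotProduct
  fun_prop

theorem dp2_cont (K : ℕ) (κ : Fin K) : Continuous fun p : (Fin K → Sp) × Sp => p.1 κ ⬝ᵥ p.2 := by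
  unfold dotProduct
  fun_prop

theorem cone_open (M : Finset Sp) (a : Sp) : IsOpen (cone M a) := by
  have h : cone M a = ⋂ q ∈ M, {z | q ≠ a → a ⬝ᵥ z < q ⬝ᵥ z} := by
    ext w
    simp [cone]
  rw [h]
  refine isOpen_biInter_finset fun q _ => ?_
  by_cases hq : q = a
  · simp [hq]
  · have : {z : Sp | q ≠ a → a ⬝ᵥ z < q ⬝ᵥ z} = {z | a ⬝ᵥ z < q ⬝ᵥ z} := by
      ext w
      simp [hq]
    rw [this]
    exact isOpen_lt (dp_cont a) (dp_cont q)

theorem cone_convex (M : Finset Sp) (p : Sp) : Convex ℝ (cone M p) := by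
  intro x hx y hy a b ha hb hab q hq hqp
  simp only [dotProduct_add, dotProduct_smul, smul_eq_mul]
  have h1 := hx q hq hqp
  have h2 := hy q hq hqp
  rcases ha.lt_or_eq with h | h
  · have h3 := mul_lt_mul_of_pos_left h1 h
    have h4 := mul_le_mul_of_nonneg_left h2.le hb
    linarith
  · have hb1 : b = 1 := by linarith
    subst h
    rw [hb1]
    linarith

theorem cone_trop {M : Finset Sp} {u z : Sp} (hu : u ∈ M) (hz : z ∈ cone M u) : z ∉ trop M := by
  rintro ⟨a, ha, b, hb, hab, h1, h2⟩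
  by_cases hau : a = u
  · have hbu : b ≠ u := by
      rintro rfl
      exact hab hau
    have h3 := hz b hb hbu
    have h4 := h2 u hu
    linarith
  · have h3 := hz a ha hau
    have h4 := h1 u hu
    linarith

theorem cone_unique {M : Finset Sp} {u v z : Sp} (hu : u ∈ M) (hv : v ∈ M) (h1 : z ∈ cone M u)
    (h2 : z ∈ cone M v) : u = v := by
  by_contra h
  exact lt_asymm (h1 v hv (Ne.symm h)) (h2 u hu h)

theorem exists_cone {M : Finset Sp} (hM : M.Nonempty) {z : Sp} (hz : z ∉ trop M) :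
    ∃ u ∈ M, z ∈ cone M u := by
  obtain ⟨u, hu, hmin⟩ := M.exists_min_image (fun m => m ⬝ᵥ z) hM
  refine ⟨u, hu, fun m hm hmu => ?_⟩
  by_contra hlt
  push Not at hlt
  exact hz ⟨u, hu, m, hm, Ne.symm hmu, hmin, fun c hc => hlt.trans (hmin c hc)⟩

/-- a convex set which does not meet `trop M` lies in one cone -/
theorem subset_cone {M : Finset Sp} (hM : M.Nonempty) {S : Set Sp} (hS : Convex ℝ S)
    (h : ∀ z ∈ S, z ∉ trop M) {x u : Sp} (hx : x ∈ S) (hu : u ∈ M) (hxu : x ∈ cone M u) :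
    S ⊆ cone M u := by
  have hopen : IsOpen (⋃ v ∈ {v | v ∈ M ∧ v ≠ u}, cone M v) :=
    isOpen_biUnion fun v _ => cone_open M v
  refine IsPreconnected.subset_left_of_subset_union (cone_open M u) hopen ?_ ?_ ⟨x, hx, hxu⟩
    hS.isPreconnected
  · rw [Set.disjoint_left]
    intro z hz hz'
    simp only [Set.mem_iUnion, exists_prop] at hz'
    obtain ⟨v, ⟨hv, hvu⟩, hzv⟩ := hz'
    exact hvu (cone_unique hv hu hzv hz)
  · intro z hz
    obtain ⟨v, hv, hzv⟩ := exists_cone hM (h z hz)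
    by_cases hvu : v = u
    · left
      rw [← hvu]
      exact hzv
    · right
      simp only [Set.mem_iUnion, exists_prop]
      exact ⟨v, ⟨hv, hvu⟩, hzv⟩

theorem GamR_smul {A : Fin 3 → Finset Pl} (hA : ∀ i, (A i).Nonempty) {z : Sp} (hz : z ∈ GamR A)
    {t : ℝ} (ht : 0 < t) : t • z ∈ GamR A := by
  obtain ⟨w, hw, h0, hR⟩ := hz
  refine ⟨t • w, ?_, ?_, ?_⟩
  · intro i
    obtain ⟨h1, h2⟩ := hw i
    refine ⟨?_, ?_⟩
    · rw [psi_smul (hA i) w ht.le]
      exact mul_le_mul_of_nonneg_left h1 ht.le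
    · rcases h2 with h2 | h2
      · exact Or.inl (CL_smul (hA i) ht.le h2)
      · right
        rw [psi_smul (hA i) w ht.le, Pi.smul_apply, smul_eq_mul, h2]
  · rintro ⟨h1, h2⟩
    apply h0
    refine ⟨?_, ?_⟩
    · rcases smul_eq_zero.1 h1 with h | h
      · exact absurd h ht.ne'
      · exact h
    · intro i
      have h3 := h2 i
      rw [Pi.smul_apply, smul_eq_mul] at h3
      exact (mul_pos_iff_of_pos_left ht).1 h3
  · intro hw0 i j h1 h2
    have hw1 : w ≠ 0 := by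
      rintro rfl
      exact hw0 (smul_zero t)
    rw [psi_smul (hA i) w ht.le, Pi.smul_apply, smul_eq_mul] at h1
    rw [psi_smul (hA j) w ht.le, Pi.smul_apply, smul_eq_mul] at h2
    exact hR hw1 i j (lt_of_mul_lt_mul_left h1 ht.le) (lt_of_mul_lt_mul_left h2 ht.le)

/-- rational points of `trop M` are in `GamR` -/
theorem rat_mem {M : Finset Sp} {A : Fin 3 → Finset Pl} (hA : ∀ i, (A i).Nonempty)
    (hTC : ∀ z ∈ trop M, ∀ t : ℝ, 0 < t → t • z ∈ trop M)
    (hG : ∀ k : Fin 3 → ℤ, (fun i => (k i : ℝ)) ∈ trop M → (fun i => (k i : ℝ)) ∈ GamR A)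
    (y : Fin 3 → ℚ) (hy : (fun i => (y i : ℝ)) ∈ trop M) : (fun i => (y i : ℝ)) ∈ GamR A := by
  set N : ℕ := ∏ i, (y i).den with hN
  have hNpos : 0 < N := Finset.prod_pos fun i _ => (y i).pos
  have hNpos' : (0 : ℝ) < N := by exact_mod_cast hNpos
  have hk : ∀ i, ∃ k : ℤ, (k : ℝ) = (N : ℝ) * (y i : ℝ) := by
    intro i
    have hd : (y i).den ∣ N := Finset.dvd_prod_of_mem _ (Finset.mem_univ i)
    obtain ⟨e, he⟩ := hd
    refine ⟨(e : ℤ) * (y i).num, ?_⟩
    have h1 : ((y i).den : ℚ) * y i = (y i).num := by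
      rw [mul_comm]
      exact Rat.mul_den_eq_num (y i)
    have h2 : (((y i).den : ℝ)) * (y i : ℝ) = ((y i).num : ℝ) := by exact_mod_cast h1
    rw [he]
    push_cast
    rw [← h2]
    ring
  choose k hk using hk
  have h1 : (fun i => (k i : ℝ)) = (N : ℝ) • fun i => (y i : ℝ) := by
    funext i
    rw [hk, Pi.smul_apply, smul_eq_mul]
  have h2 : (fun i => (k i : ℝ)) ∈ trop M := by
    rw [h1]
    exact hTC _ hy _ hNpos'
  have h3 := GamR_smul hA (hG k h2) (t := (N : ℝ)⁻¹) (by positivity)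
  rw [h1, smul_smul, inv_mul_cancel₀ hNpos'.ne', one_smul] at h3
  exact h3

end Pool.Agent.Lib.MP_4e7804_co.N3.PertN

open Filter Topology in
open Pool.Agent.Lib.MP_4e7804_co.N3.PertN in
theorem Pool.Agent.Lib.MP_4e7804_co.N3.tPert (hPl : StmtPlanes) (hAv : StmtAvoid)
    (hAp : StmtAppr) (hCr : StmtCross) (hVe : StmtVert) (hTC : StmtTClo) : StmtPert := by
  classical
  intro W δ M N₀ B hCP hM hint hG hn
  obtain ⟨K, hK⟩ := hPl fun i => (W i).card
  have hA0 : ∀ i, (rv (W i)).Nonempty := by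
    intro i
    obtain ⟨p, hp⟩ := (hCP i).1
    exact ⟨toPl p, toPl_mem_rv hp⟩
  -- the planes
  have hpl : ∀ n : ℕ, ∃ ν : Fin K → Sp, (∀ κ, ‖ν κ‖ = 1) ∧
      ∀ z ∈ Gam (fun i => rv (pert (W i) (δ i) (n + N₀))), ∃ κ, ν κ ⬝ᵥ z = 0 := by
    intro n
    obtain ⟨h1, h2, -⟩ := hn (n + N₀) (Nat.le_add_left _ _)
    exact hK _ h1 fun i => by rw [rv_card, h2 i]
  choose ν hν1 hν2 using hpl
  have hcomp : IsCompact (Set.pi Set.univ fun _ : Fin K => Metric.sphere (0 : Sp) 1) :=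
    isCompact_univ_pi fun _ => isCompact_sphere 0 1
  obtain ⟨νl, hνl, φ, hφ, hlim⟩ := hcomp.tendsto_subseq (x := ν) (by
    intro n κ _
    rw [mem_sphere_zero_iff_norm]
    exact hν1 n κ)
  have hνl0 : ∀ κ, νl κ ≠ 0 := by
    intro κ h0
    have h1 := hνl κ (Set.mem_univ κ)
    rw [mem_sphere_zero_iff_norm, h0, norm_zero] at h1
    norm_num at h1
  -- rational points
  have hz : ∀ a : Sp, ∃ z : Fin 3 → ℚ, (cone M a).Nonempty →
      (fun i => (z i : ℝ)) ∈ cone M a ∧ ∀ κ, νl κ ⬝ᵥ (fun i => (z i : ℝ)) ≠ 0 := by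
    intro a
    by_cases h : (cone M a).Nonempty
    · obtain ⟨z, hz1, hz2⟩ := hAv (cone M a) (cone_open M a) h K νl hνl0
      exact ⟨z, fun _ => ⟨hz1, hz2⟩⟩
    · exact ⟨0, fun h' => absurd h' h⟩
  choose z hz using hz
  -- the radius
  have hr : ∀ a ∈ M, ∀ᶠ ε in 𝓝[>] (0 : ℝ), (cone M a).Nonempty → ∀ ν' z', dist ν' νl < ε →
      dist z' (fun i => (z a i : ℝ)) < ε → ∀ κ, ν' κ ⬝ᵥ z' ≠ 0 := by
    intro a _
    by_cases h : (cone M a).Nonempty
    · have hop : IsOpen (⋂ κ : Fin K, {p : (Fin K → Sp) × Sp | p.1 κ ⬝ᵥ p.2 ≠ 0}) :=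
        isOpen_iInter_of_finite fun κ => isOpen_ne_fun (dp2_cont K κ) continuous_const
      have hmem : (νl, fun i => (z a i : ℝ)) ∈
          ⋂ κ : Fin K, {p : (Fin K → Sp) × Sp | p.1 κ ⬝ᵥ p.2 ≠ 0} := by
        rw [Set.mem_iInter]
        intro κ
        exact (hz a h).2 κ
      obtain ⟨ε, hε, hball⟩ := Metric.isOpen_iff.1 hop _ hmem
      filter_upwards [Ioo_mem_nhdsGT hε] with ε' hε' _ ν' z' h1 h2 κ
      have h3 : (ν', z') ∈ Metric.ball (νl, fun i => (z a i : ℝ)) ε := by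
        rw [Metric.mem_ball, Prod.dist_eq]
        exact max_lt (h1.trans hε'.2) (h2.trans hε'.2)
      have h4 := hball h3
      rw [Set.mem_iInter] at h4
      exact h4 κ
    · exact Eventually.of_forall fun ε h' => absurd h' h
  obtain ⟨r, hr1, hr0⟩ := (((eventually_all_finset M).2 hr).and self_mem_nhdsWithin).exists
  have hr0 : 0 < r := hr0
  -- points of the segments
  have hseg : ∀ a ∈ M, ∀ b ∈ M, a ≠ b → (cone M a).Nonempty → (cone M b).Nonempty →
      ∃ t : ℝ, 0 ≤ t ∧ t ≤ 1 ∧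
        (fun i => (1 - t) * (z a i : ℝ) + t * (z b i : ℝ)) ∈ GamR fun i => rv (W i) := by
    intro a ha b hb hab h1 h2
    obtain ⟨t, ht0, ht1, ht⟩ := hCr M hint a ha b hb hab (z a) (z b) (hz a h1).1 (hz b h2).1
    refine ⟨(t : ℝ), by exact_mod_cast ht0, by exact_mod_cast ht1, ?_⟩
    have h3 := rat_mem hA0 (hTC M).2 hG _ ht
    have h4 : (fun i => (((z a i + t * (z b i - z a i) : ℚ)) : ℝ)) =
        fun i => (1 - (t : ℝ)) * (z a i : ℝ) + t * (z b i : ℝ) := by
      funext i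
      push_cast
      ring
    rw [h4] at h3
    exact h3
  have hpair : ∀ a ∈ M, ∀ b ∈ M, ∀ᶠ n in atTop, a ≠ b → (cone M a).Nonempty →
      (cone M b).Nonempty → ∃ t : ℝ, 0 ≤ t ∧ t ≤ 1 ∧
        ∃ y' ∈ Gam (fun i => rv (pert (W i) (δ i) n)),
          ‖y' - fun i => (1 - t) * (z a i : ℝ) + t * (z b i : ℝ)‖ < r := by
    intro a ha b hb
    by_cases hab : a ≠ b
    · by_cases h1 : (cone M a).Nonempty
      · by_cases h2 : (cone M b).Nonempty
        · obtain ⟨t, ht0, ht1, ht⟩ := hseg a ha b hb hab h1 h2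
          obtain ⟨N₁, hN₁⟩ := hAp W δ hCP _ ht r hr0
          filter_upwards [eventually_ge_atTop N₁] with n hn _ _ _
          obtain ⟨y', hy', hyy⟩ := hN₁ n hn
          exact ⟨t, ht0, ht1, y', hy', hyy⟩
        · exact Eventually.of_forall fun n _ _ h' => absurd h' h2
      · exact Eventually.of_forall fun n _ h' => absurd h' h1
    · exact Eventually.of_forall fun n h' => absurd h' hab
  have hpair' : ∀ᶠ n in atTop, ∀ a ∈ M, ∀ b ∈ M, a ≠ b → (cone M a).Nonempty →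
      (cone M b).Nonempty → ∃ t : ℝ, 0 ≤ t ∧ t ≤ 1 ∧
        ∃ y' ∈ Gam (fun i => rv (pert (W i) (δ i) n)),
          ‖y' - fun i => (1 - t) * (z a i : ℝ) + t * (z b i : ℝ)‖ < r := by
    rw [eventually_all_finset]
    intro a ha
    rw [eventually_all_finset]
    exact hpair a ha
  have hφ' : Tendsto (fun k => φ k + N₀) atTop atTop :=
    (tendsto_add_atTop_nat N₀).comp hφ.tendsto_atTop
  have hclose : ∀ᶠ k in atTop, dist ((ν ∘ φ) k) νl < r := Metric.tendsto_nhds.1 hlim r hr0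
  obtain ⟨k, hk1, hk2⟩ := (hclose.and (hφ'.eventually hpair')).exists
  -- the perturbed polygon
  obtain ⟨hgen, -, M', hM', htrop, hB⟩ := hn (φ k + N₀) (Nat.le_add_left _ _)
  have hball : ∀ a ∈ M, (cone M a).Nonempty → ∀ z' ∈ Metric.ball (fun i => (z a i : ℝ)) r,
      z' ∉ trop M' := by
    intro a ha h z' hz' ht
    rw [htrop] at ht
    obtain ⟨κ, hκ⟩ := hν2 (φ k) z' ht
    exact hr1 a ha h (ν (φ k)) z' hk1 hz' κ hκ
  have hu : ∀ a : Sp, ∃ u : Sp, a ∈ M → (cone M a).Nonempty →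
      u ∈ M' ∧ Metric.ball (fun i => (z a i : ℝ)) r ⊆ cone M' u := by
    intro a
    by_cases h : a ∈ M ∧ (cone M a).Nonempty
    · obtain ⟨u, hu, hcu⟩ := exists_cone hM' (hball a h.1 h.2 _ (Metric.mem_ball_self hr0))
      exact ⟨u, fun _ _ => ⟨hu, subset_cone hM' (convex_ball _ _) (hball a h.1 h.2)
        (Metric.mem_ball_self hr0) hu hcu⟩⟩
    · exact ⟨0, fun h1 h2 => absurd ⟨h1, h2⟩ h⟩
  choose u hu using hu
  rw [hVe M]
  refine le_trans ?_ hB
  rw [hVe M']
  unfold n1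
  refine Finset.card_le_card_of_injOn u ?_ ?_
  · intro a ha
    have ha' : a ∈ M ∧ (cone M a).Nonempty := by
      have := ha
      simp only [Finset.coe_filter, Set.mem_ofPred_eq] at this
      exact this
    obtain ⟨h1, h2⟩ := hu a ha'.1 ha'.2
    simp only [Finset.coe_filter, Set.mem_ofPred_eq]
    exact ⟨h1, ⟨_, h2 (Metric.mem_ball_self hr0)⟩⟩
  · intro a ha b hb hab
    have ha' : a ∈ M ∧ (cone M a).Nonempty := by
      have := ha
      simp only [Finset.coe_filter, Set.mem_ofPred_eq] at this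
      exact this
    have hb' : b ∈ M ∧ (cone M b).Nonempty := by
      have := hb
      simp only [Finset.coe_filter, Set.mem_ofPred_eq] at this
      exact this
    by_contra hne
    obtain ⟨t, ht0, ht1, y', hy', hyy⟩ := hk2 a ha'.1 b hb'.1 hne ha'.2 hb'.2
    obtain ⟨h1, h2⟩ := hu a ha'.1 ha'.2
    obtain ⟨h3, h4⟩ := hu b hb'.1 hb'.2
    rw [← htrop] at hy'
    rw [← hab] at h4
    set e : Sp := y' - fun i => (1 - t) * (z a i : ℝ) + t * (z b i : ℝ) with he
    have h5 : (fun i => (z a i : ℝ)) + e ∈ cone M' (u a) := by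
      apply h2
      rw [Metric.mem_ball, dist_eq_norm, add_sub_cancel_left]
      exact hyy
    have h6 : (fun i => (z b i : ℝ)) + e ∈ cone M' (u a) := by
      apply h4
      rw [Metric.mem_ball, dist_eq_norm, add_sub_cancel_left]
      exact hyy
    have h7 := cone_convex M' (u a) h5 h6 (sub_nonneg.2 ht1) ht0 (by ring)
    have h8 : (1 - t) • ((fun i => (z a i : ℝ)) + e) + t • ((fun i => (z b i : ℝ)) + e) = y' := by
      funext i
      simp only [he, Pi.add_apply, Pi.smul_apply, Pi.sub_apply, smul_eq_mul]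
      ring
    rw [h8] at h7
    exact cone_trop h1 h7 hy'
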