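import Pool.Agent.Lib.MP_4e7804_co.N3.Spec2

/-!
# Planes: the surface lies in a bounded number of planes
-/

set_option autoImplicit false

namespace Pool.Agent.Lib.MP_4e7804_co.N3

namespace PlanesN

/-- the labels of the planes -/
abbrev Ix (v : Fin 3 → ℕ) : Type :=
  ((i : Fin 3) → Fin (v i)) ⊕
    (Σ i : Fin 3, Σ j : Fin 3, Σ k : Fin 3, Fin (v i) × Fin (v i) × Fin (v j) × Fin (v k)) ⊕ Fin 3

/-- the normal vectors, not normalized -/
noncomputable def raw {v : Fin 3 → ℕ} (e : (i : Fin 3) → Fin (v i) → Pl) : Ix v → Sp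
  | Sum.inl f => nrm fun i => e i (f i)
  | Sum.inr (Sum.inl ⟨i, j, k, a, b, s, r⟩) =>
    Pi.single j (cr (e i a - e i b) (e k r)) + Pi.single k (-cr (e i a - e i b) (e j s))
  | Sum.inr (Sum.inr k) => Pi.single k 1

/-- the normalized vector -/
noncomputable def nu (x : Sp) : Sp := if x = 0 then Pi.single 0 1 else ‖x‖⁻¹ • x

theorem norm_nu (x : Sp) : ‖nu x‖ = 1 := by
  unfold nu
  split_ifs with h
  · have h1 : ‖(Pi.single 0 1 : Sp)‖ = ‖(1 : ℝ)‖ := Pi.norm_single _
    rw [h1, norm_one]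
  · rw [norm_smul, norm_inv, norm_norm, inv_mul_cancel₀ (norm_ne_zero_iff.2 h)]

theorem nu_dot {x z : Sp} (hx : x ≠ 0) (h : x ⬝ᵥ z = 0) : nu x ⬝ᵥ z = 0 := by
  unfold nu
  rw [if_neg hx, smul_dotProduct, h, smul_zero]

theorem nrm_dot (p : Fin 3 → Pl) (w : Pl) (z : Sp) (h : ∀ i, z i = dt (p i) w) :
    nrm p ⬝ᵥ z = 0 := by
  unfold nrm dotProduct
  rw [Fin.sum_univ_three, h 0, h 1, h 2]
  simp only [Matrix.cons_val]
  unfold cr dt
  ring

theorem cr_dot (d s r w : Pl) (h : dt d w = 0) : cr d r * dt s w + -cr d s * dt r w = 0 := by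
  have h1 : cr d r * dt s w + -cr d s * dt r w = -cr r s * dt d w := by
    unfold cr dt
    ring
  rw [h1, h, mul_zero]

theorem ex_two : ∀ i : Fin 3, ∃ j k : Fin 3, i ≠ j ∧ i ≠ k ∧ j ≠ k := by decide

end PlanesN

open PlanesN in
theorem tPlanes (hCL : StmtCLdef) : StmtPlanes := by
  classical
  intro v
  refine ⟨Fintype.card (Ix v), fun A hA hv => ?_⟩
  let e' : (i : Fin 3) → Fin (v i) ≃ A i := fun i => ((A i).equivFinOfCardEq (hv i)).symm
  let e : (i : Fin 3) → Fin (v i) → Pl := fun i a => (e' i a : Pl)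
  have hmem : ∀ i a, e i a ∈ A i := fun i a => (e' i a).2
  have hex : ∀ i, ∀ p ∈ A i, ∃ a, e i a = p := by
    intro i p hp
    refine ⟨(e' i).symm ⟨p, hp⟩, ?_⟩
    show ((e' i ((e' i).symm ⟨p, hp⟩) : A i) : Pl) = p
    rw [Equiv.apply_symm_apply]
  let E := (Fintype.equivFin (Ix v)).symm
  refine ⟨fun κ => nu (raw e (E κ)), fun κ => norm_nu _, fun z hz => ?_⟩
  have key : ∃ x : Ix v, raw e x ≠ 0 ∧ raw e x ⬝ᵥ z = 0 := by
    obtain ⟨w, hw, hwo⟩ := hz
    by_cases hw0 : w = 0
    · subst hw0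
      have h1 : ∀ i, 0 ≤ z i := by
        intro i
        have := (hw i).1
        rwa [psi_zero (hA.ne i)] at this
      have h2 : ∃ k, z k = 0 := by
        by_contra hcon
        push Not at hcon
        exact hwo ⟨rfl, fun i => lt_of_le_of_ne (h1 i) (Ne.symm (hcon i))⟩
      obtain ⟨k, hk⟩ := h2
      refine ⟨Sum.inr (Sum.inr k), ?_, ?_⟩
      · intro h
        have h3 := congrFun h k
        have h4 : (Pi.single k 1 : Sp) k = 1 := Pi.single_eq_same _ _
        have h5 : raw e (Sum.inr (Sum.inr k)) k = (Pi.single k 1 : Sp) k := rfl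
        rw [h5, h4] at h3
        exact one_ne_zero h3
      · have h5 : raw e (Sum.inr (Sum.inr k)) = (Pi.single k 1 : Sp) := rfl
        rw [h5, single_dotProduct, hk, mul_zero]
    · by_cases hc : ∃ i, w ∈ CL (A i)
      · obtain ⟨i, hi⟩ := hc
        obtain ⟨j, k, hij, hik, hjk⟩ := ex_two i
        have hn : ∀ l, i ≠ l → z l = psi (A l) w := by
          intro l hl
          refine (hw l).2.resolve_left fun h => hw0 ?_
          exact (hCL A hA).2.2.1 i l hl w hi h
        obtain ⟨p, hp, q, hq, hpq, hp', hq'⟩ := (CL_iff (hA.ne i)).1 hi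
        obtain ⟨s, hs, hs'⟩ := exists_psi (hA.ne j) w
        obtain ⟨r, hr, hr'⟩ := exists_psi (hA.ne k) w
        obtain ⟨a, ha⟩ := hex i p hp
        obtain ⟨b, hb⟩ := hex i q hq
        obtain ⟨s0, hs0⟩ := hex j s hs
        obtain ⟨r0, hr0⟩ := hex k r hr
        have hraw : raw e (Sum.inr (Sum.inl ⟨i, j, k, a, b, s0, r0⟩)) =
            Pi.single j (cr (p - q) r) + Pi.single k (-cr (p - q) s) := by
          rw [← ha, ← hb, ← hs0, ← hr0]
          rfl
        refine ⟨Sum.inr (Sum.inl ⟨i, j, k, a, b, s0, r0⟩), ?_, ?_⟩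
        · rw [hraw]
          intro h
          have h3 := congrFun h j
          rw [Pi.add_apply, Pi.single_eq_same, Pi.single_eq_of_ne hjk, add_zero] at h3
          exact hA.g3 i k hik p hp q hq hpq r hr h3
        · rw [hraw, add_dotProduct, single_dotProduct, single_dotProduct, hn j hij, hn k hik,
            hs', hr']
          refine cr_dot (p - q) s r w ?_
          rw [sub_dt, hp', hq', sub_self]
      · have hn : ∀ l, z l = psi (A l) w := by
          intro l
          exact (hw l).2.resolve_left fun h => hc ⟨l, h⟩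
        have hch : ∀ i, ∃ a, dt (e i a) w = psi (A i) w := by
          intro i
          obtain ⟨p, hp, hp'⟩ := exists_psi (hA.ne i) w
          obtain ⟨a, ha⟩ := hex i p hp
          exact ⟨a, by rw [ha, hp']⟩
        choose f hf using hch
        refine ⟨Sum.inl f, ?_, ?_⟩
        · intro h
          have h3 := congrFun h 0
          exact hA.g1 1 2 (by decide) _ (hmem 1 (f 1)) _ (hmem 2 (f 2)) h3
        · exact nrm_dot (fun i => e i (f i)) w z fun i => by rw [hn i, hf i]
  obtain ⟨x, hx, hx'⟩ := key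
  refine ⟨E.symm x, ?_⟩
  show nu (raw e (E (E.symm x))) ⬝ᵥ z = 0
  rw [Equiv.apply_symm_apply]
  exact nu_dot hx hx'

end Pool.Agent.Lib.MP_4e7804_co.N3
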