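import Pool.Agent.Lib.MP_4e7804_co.N3.Spec2

/-!
A point of the hypersurface with given norms.
-/

set_option autoImplicit false

namespace Pool.Agent.Lib.MP_4e7804_co.N3

namespace PointN

open MvPolynomial

/-- the exponent without the entry `a` -/
noncomputable def red (a : Fin 3) (m : Fin 3 →₀ ℕ) : Fin 2 →₀ ℕ :=
  Finsupp.equivFunOnFinite.symm fun i => m (a.succAbove i)

theorem red_apply (a : Fin 3) (m : Fin 3 →₀ ℕ) (i : Fin 2) : red a m i = m (a.succAbove i) := rfl

theorem red_inj {a : Fin 3} {m m' : Fin 3 →₀ ℕ} (h : m a = m' a) (h' : red a m = red a m') :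
    m = m' := by
  ext i
  refine Fin.succAboveCases a h (fun j => ?_) i
  rw [← red_apply, ← red_apply, h']

/-- the coefficient of `X_a ^ j` -/
noncomputable def part (a : Fin 3) (j : ℕ) (F : MvPolynomial (Fin 3) ℂ) : MvPolynomial (Fin 2) ℂ :=
  ∑ m ∈ F.support with m a = j, monomial (red a m) (coeff m F)

theorem coeff_part (a : Fin 3) (F : MvPolynomial (Fin 3) ℂ) {m : Fin 3 →₀ ℕ} (hm : m ∈ F.support) :
    coeff (red a m) (part a (m a) F) = coeff m F := by
  unfold part
  rw [coeff_sum, Finset.sum_eq_single m]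
  · rw [coeff_monomial, if_pos rfl]
  · intro m' hm' hne
    rw [coeff_monomial, if_neg]
    intro h
    exact hne (red_inj (Finset.mem_filter.1 hm').2 h)
  · intro h
    exact (h (Finset.mem_filter.2 ⟨hm, rfl⟩)).elim

theorem mem_part {a : Fin 3} {j : ℕ} {F : MvPolynomial (Fin 3) ℂ} {μ : Fin 2 →₀ ℕ}
    (h : μ ∈ (part a j F).support) : ∃ m ∈ F.support, m a = j ∧ red a m = μ := by
  by_contra hn
  rw [mem_support_iff] at h
  apply h
  unfold part
  rw [coeff_sum]
  refine Finset.sum_eq_zero fun m hm => ?_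
  rw [Finset.mem_filter] at hm
  rw [coeff_monomial, if_neg]
  intro h'
  exact hn ⟨m, hm.1, hm.2, h'⟩

section

variable {L : Type} [Field L] [Algebra ℂ L]

theorem aeval_part (a : Fin 3) (j : ℕ) (F : MvPolynomial (Fin 3) ℂ) (y : Fin 2 → L) :
    aeval y (part a j F) = ∑ m ∈ F.support with m a = j,
      algebraMap ℂ L (coeff m F) * ∏ i : Fin 2, y i ^ m (a.succAbove i) := by
  unfold part
  rw [map_sum]
  refine Finset.sum_congr rfl fun m _ => ?_
  rw [aeval_monomial, Finsupp.prod_fintype _ _ (fun i => pow_zero _)]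
  rfl

/-- the polynomial in `X_a` -/
noncomputable def pol (a : Fin 3) (F : MvPolynomial (Fin 3) ℂ) (y : Fin 2 → L) : Polynomial L :=
  ∑ m ∈ F.support, Polynomial.C (algebraMap ℂ L (coeff m F) *
    ∏ i : Fin 2, y i ^ m (a.succAbove i)) * Polynomial.X ^ (m a)

theorem coeff_pol (a : Fin 3) (F : MvPolynomial (Fin 3) ℂ) (y : Fin 2 → L) (j : ℕ) :
    (pol a F y).coeff j = aeval y (part a j F) := by
  unfold pol
  rw [Polynomial.finsetSum_coeff, aeval_part, Finset.sum_filter]
  refine Finset.sum_congr rfl fun m _ => ?_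
  rw [Polynomial.coeff_C_mul_X_pow]
  by_cases h : m a = j
  · rw [if_pos h.symm, if_pos h]
  · rw [if_neg (Ne.symm h), if_neg h]

theorem eval_pol (a : Fin 3) (F : MvPolynomial (Fin 3) ℂ) (y : Fin 2 → L) (r : L) :
    (pol a F y).eval r = aeval (Fin.insertNth (α := fun _ => L) a r y) F := by
  unfold pol
  rw [Polynomial.eval_finsetSum, aeval_def, eval₂_eq']
  refine Finset.sum_congr rfl fun m _ => ?_
  rw [Polynomial.eval_mul, Polynomial.eval_C, Polynomial.eval_pow, Polynomial.eval_X,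
    Fin.prod_univ_succAbove _ a, Fin.insertNth_apply_same]
  have h : ∀ i : Fin 2, (Fin.insertNth (α := fun _ => L) a r y (a.succAbove i)) = y i := fun i =>
    Fin.insertNth_apply_succAbove _ _ _ _
  simp only [h]
  ring

theorem dot_eq (k : Fin 3 → ℤ) (a : Fin 3) (m : Fin 3 →₀ ℕ) :
    (fun i => (m i : ℝ)) ⬝ᵥ (fun i => (k i : ℝ)) =
      (k a : ℝ) * m a + ((k (a.succAbove 0) : ℝ) * red a m 0 + (k (a.succAbove 1) : ℝ) * red a m 1) := by
  unfold dotProduct
  rw [Fin.sum_univ_succAbove _ a, Fin.sum_univ_two]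
  simp only [red_apply]
  ring

end

end PointN

open PointN MvPolynomial in
theorem tPoint (h1 : StmtRoot) : StmtPoint := by
  intro L _ _ hL v hgen F k hF hk
  obtain ⟨u1, hu1, u2, hu2, hne, hmin1, hmin2⟩ := hk
  unfold Mx at hu1 hu2
  rw [Finset.mem_image] at hu1 hu2
  obtain ⟨m1, hm1, rfl⟩ := hu1
  obtain ⟨m2, hm2, rfl⟩ := hu2
  have hmin : ∀ m ∈ F.support, ∀ u : Fin 3 → ℝ, u = (fun i => (m i : ℝ)) → u ∈ Mx F := by
    intro m hm u hu
    unfold Mx
    rw [Finset.mem_image]
    exact ⟨m, hm, hu.symm⟩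
  obtain ⟨a, ha⟩ : ∃ a, m1 a ≠ m2 a := by
    by_contra h
    push Not at h
    apply hne
    funext i
    rw [h i]
  obtain ⟨y, hy⟩ := hgen (fun i => k (a.succAbove i))
  have hdot := dot_eq k a
  set e : (Fin 3 →₀ ℕ) → ℝ := fun m => (k a : ℝ) * m a +
    ((k (a.succAbove 0) : ℝ) * red a m 0 + (k (a.succAbove 1) : ℝ) * red a m 1) with he
  have hle1 : ∀ m ∈ F.support, e m1 ≤ e m := by
    intro m hm
    have := hmin1 _ (hmin m hm _ rfl)
    rwa [hdot, hdot] at this
  have hle2 : ∀ m ∈ F.support, e m2 ≤ e m := by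
    intro m hm
    have := hmin2 _ (hmin m hm _ rfl)
    rwa [hdot, hdot] at this
  have he12 : e m1 = e m2 := le_antisymm (hle1 m2 hm2) (hle2 m1 hm1)
  set ρ : ℝ := Real.exp (-(k a : ℝ)) with hρ
  have hρpow : ∀ j : ℕ, ρ ^ j = Real.exp (-((k a : ℝ) * j)) := by
    intro j
    rw [hρ, ← Real.exp_nat_mul]
    congr 1
    ring
  -- upper bound
  have hub : ∀ j : ℕ, v.nm ((pol a F y).coeff j) * ρ ^ j ≤ Real.exp (-(e m1)) := by
    intro j
    rw [coeff_pol]
    by_cases h0 : part a j F = 0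
    · rw [h0, map_zero, (v.eq_zero 0).2 rfl, zero_mul]
      exact (Real.exp_pos _).le
    · obtain ⟨μ, hμ, hnm, -⟩ := hy _ h0
      obtain ⟨m, hm, hma, hmr⟩ := mem_part hμ
      rw [hnm, hρpow, ← Real.exp_add, Real.exp_le_exp]
      have := hle1 m hm
      have h2 : e m = (k a : ℝ) * j + ((k (a.succAbove 0) : ℝ) * μ 0 +
          (k (a.succAbove 1) : ℝ) * μ 1) := by
        rw [he, ← hma, ← hmr]
      linarith
  -- lower bound
  have hlb : ∀ m ∈ F.support, Real.exp (-(e m)) ≤ v.nm ((pol a F y).coeff (m a)) * ρ ^ (m a) := by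
    intro m hm
    rw [coeff_pol]
    have hc : coeff (red a m) (part a (m a) F) ≠ 0 := by
      rw [coeff_part a F hm]
      exact mem_support_iff.1 hm
    have h0 : part a (m a) F ≠ 0 := by
      intro h
      apply hc
      rw [h, coeff_zero]
    obtain ⟨μ, hμ, hnm, hμmin⟩ := hy _ h0
    have h3 := hμmin _ (mem_support_iff.2 hc)
    rw [hnm, hρpow, ← Real.exp_add, Real.exp_le_exp]
    have h2 : e m = (k a : ℝ) * m a + ((k (a.succAbove 0) : ℝ) * red a m 0 +
          (k (a.succAbove 1) : ℝ) * red a m 1) := rfl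
    linarith
  have hne0 : (pol a F y).coeff (m1 a) ≠ 0 := by
    intro h
    have := hlb m1 hm1
    rw [h, (v.eq_zero 0).2 rfl, zero_mul] at this
    exact absurd (Real.exp_pos _) (not_lt.2 this)
  obtain ⟨r, hr, hr0⟩ := h1 L _ _ hL v (pol a F y) ρ (Real.exp_pos _) (m1 a) (m2 a) ha hne0
    (fun m => (hub m).trans (hlb m1 hm1))
    (fun m => (hub m).trans (by rw [he12]; exact hlb m2 hm2))
  have hyn : ∀ i : Fin 2, v.nm (y i) = Real.exp (-(k (a.succAbove i) : ℝ)) := by
    intro i
    obtain ⟨μ, hμ, hnm, -⟩ := hy (X i) (X_ne_zero i)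
    rw [support_X, Finset.mem_singleton] at hμ
    rw [aeval_X] at hnm
    rw [hnm, hμ]
    congr 1
    fin_cases i
    · simp
    · simp
  refine ⟨a, Fin.insertNth (α := fun _ => L) a r y, ?_, ?_, ?_, ?_⟩
  · intro i
    refine Fin.succAboveCases a ?_ (fun j => ?_) i
    · rw [Fin.insertNth_apply_same, hr]
    · rw [Fin.insertNth_apply_succAbove, hyn]
  · rw [← eval_pol, hr0]
  · intro h
    have e1 := monomial_le_degreeOf a hm1
    have e2 := monomial_le_degreeOf a hm2
    omega
  · intro G hG h0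
    by_contra hG0
    obtain ⟨m, hm⟩ := support_nonempty.2 hG0
    have hz : ∀ m ∈ G.support, m a = 0 := by
      intro m hm
      have := monomial_le_degreeOf a hm
      omega
    have hc : coeff (red a m) (part a 0 G) ≠ 0 := by
      have h5 := coeff_part a G hm
      rw [hz m hm] at h5
      rw [h5]
      exact mem_support_iff.1 hm
    have hp : part a 0 G ≠ 0 := by
      intro h
      apply hc
      rw [h, coeff_zero]
    obtain ⟨μ, -, hnm, -⟩ := hy _ hp
    have h6 : aeval y (part a 0 G) = 0 := by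
      rw [← h0, ← eval_pol, aeval_part, Finset.filter_true_of_mem hz]
      unfold pol
      rw [Polynomial.eval_finsetSum]
      refine Finset.sum_congr rfl fun m hm => ?_
      rw [hz m hm, pow_zero, mul_one, Polynomial.eval_C]
    rw [h6, (v.eq_zero 0).2 rfl] at hnm
    exact (Real.exp_pos _).ne hnm

end Pool.Agent.Lib.MP_4e7804_co.N3
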