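import Pool.Agent.Lib.MP_4e7804_co.N3.Spec2

/-!
# Generic integral labels exist
-/

set_option autoImplicit false

namespace Pool.Agent.Lib.MP_4e7804_co.N3.PolyN

open MvPolynomial

/-- the variables -/
abbrev Sg := Fin 3 × (Fin 2 → ℤ) × Fin 2

/-- the label of a point -/
def lb (x : Sg → ℤ) (i : Fin 3) (p : Fin 2 → ℤ) : Fin 2 → ℤ := fun k => x (i, p, k)

/-- the generic label of a point -/
noncomputable def vb (i : Fin 3) (p : Fin 2 → ℤ) : Fin 2 → MvPolynomial Sg ℤ := fun k => X (i, p, k)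

/-- the determinant over a commutative ring -/
def crG {R : Type} [CommRing R] (a b : Fin 2 → R) : R := a 0 * b 1 - a 1 * b 0

theorem cr_toPl (a b : Fin 2 → ℤ) : cr (toPl a) (toPl b) = ((crG a b : ℤ) : ℝ) := by
  unfold cr crG toPl
  push_cast
  ring

theorem toPl_sub (a b : Fin 2 → ℤ) : toPl a - toPl b = toPl (a - b) := by
  unfold toPl
  ext
  · simp
  · simp

/-- a property which holds outside a hypersurface -/
def D (S : (Sg → ℤ) → Prop) : Prop :=
  ∃ P : MvPolynomial Sg ℤ, P ≠ 0 ∧ ∀ x, eval x P ≠ 0 → S x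

theorem D_and {S T : (Sg → ℤ) → Prop} (hS : D S) (hT : D T) : D fun x => S x ∧ T x := by
  obtain ⟨P, hP, hP'⟩ := hS
  obtain ⟨Q, hQ, hQ'⟩ := hT
  refine ⟨P * Q, mul_ne_zero hP hQ, fun x hx => ?_⟩
  rw [map_mul] at hx
  exact ⟨hP' x (left_ne_zero_of_mul hx), hQ' x (right_ne_zero_of_mul hx)⟩

theorem D_mem {α : Type} {A : Finset α} {S : α → (Sg → ℤ) → Prop} (h : ∀ a ∈ A, D (S a)) :
    D fun x => ∀ a ∈ A, S a x := by
  choose! P hP hP' using h
  refine ⟨∏ a ∈ A, P a, Finset.prod_ne_zero_iff.2 hP, fun x hx a ha => ?_⟩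
  rw [map_prod] at hx
  exact hP' a ha x (Finset.prod_ne_zero_iff.1 hx a ha)

theorem D_all {α : Type} [Fintype α] {S : α → (Sg → ℤ) → Prop} (h : ∀ a, D (S a)) :
    D fun x => ∀ a, S a x := by
  obtain ⟨P, hP, hP'⟩ := D_mem (A := Finset.univ) fun a _ => h a
  exact ⟨P, hP, fun x hx a => hP' x hx a (Finset.mem_univ a)⟩

theorem D_imp {c : Prop} {S : (Sg → ℤ) → Prop} (h : c → D S) : D fun x => c → S x := by
  by_cases hc : c
  · obtain ⟨P, hP, hP'⟩ := h hc
    exact ⟨P, hP, fun x hx _ => hP' x hx⟩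
  · exact ⟨1, one_ne_zero, fun x _ h' => absurd h' hc⟩

theorem D_mono {S T : (Sg → ℤ) → Prop} (hS : D S) (h : ∀ x, S x → T x) : D T := by
  obtain ⟨P, hP, hP'⟩ := hS
  exact ⟨P, hP, fun x hx => h x (hP' x hx)⟩

theorem D_of (P : MvPolynomial Sg ℤ) (y : Sg → ℤ) (hy : eval y P ≠ 0) {S : (Sg → ℤ) → Prop}
    (h : ∀ x, eval x P ≠ 0 → S x) : D S := by
  refine ⟨P, fun h0 => hy ?_, h⟩
  rw [h0, map_zero]

theorem D_ex {S : (Sg → ℤ) → Prop} (hS : D S) : ∃ x, S x := by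
  obtain ⟨P, hP, hP'⟩ := hS
  by_contra hne
  push Not at hne
  refine hP (MvPolynomial.funext fun x => ?_)
  rw [map_zero]
  by_contra h0
  exact hne x (hP' x h0)

theorem eval_crG (x : Sg → ℤ) (a b : Fin 2 → MvPolynomial Sg ℤ) :
    eval x (crG a b) = crG (fun k => eval x (a k)) (fun k => eval x (b k)) := by
  unfold crG
  rw [map_sub, map_mul, map_mul]

theorem eval_vb (x : Sg → ℤ) (i : Fin 3) (p : Fin 2 → ℤ) :
    (fun k => eval x (vb i p k)) = lb x i p := by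
  funext k
  unfold vb lb
  rw [eval_X]

theorem eval_sub' (x : Sg → ℤ) (i j : Fin 3) (p q : Fin 2 → ℤ) :
    (fun k => eval x ((vb i p - vb j q) k)) = lb x i p - lb x j q := by
  funext k
  unfold vb lb
  rw [Pi.sub_apply, map_sub, eval_X, eval_X, Pi.sub_apply]

/-- the first kind of points -/
def pt (i j : Fin 3) (p q : Fin 2 → ℤ) : Sg → ℤ := fun a =>
  if a.1 = i ∧ a.2.1 = p then ![1, 0] a.2.2 else if a.1 = j ∧ a.2.1 = q then ![0, 1] a.2.2 else 0

theorem pt_one (i j : Fin 3) (p q : Fin 2 → ℤ) : lb (pt i j p q) i p = ![1, 0] := by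
  funext k
  unfold lb pt
  rw [if_pos ⟨rfl, rfl⟩]

theorem pt_two (i j : Fin 3) (p q : Fin 2 → ℤ) (h : i ≠ j ∨ p ≠ q) :
    lb (pt i j p q) j q = ![0, 1] := by
  funext k
  unfold lb pt
  rw [if_neg, if_pos ⟨rfl, rfl⟩]
  rintro ⟨h1, h2⟩
  rcases h with h | h
  · exact h h1.symm
  · exact h h2.symm

theorem pt_three (i j l : Fin 3) (p q r : Fin 2 → ℤ) (h : l ≠ i ∨ r ≠ p) (h' : l ≠ j ∨ r ≠ q) :
    lb (pt i j p q) l r = 0 := by
  funext k
  unfold lb pt
  rw [if_neg, if_neg, Pi.zero_apply]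
  · rintro ⟨h1, h2⟩
    rcases h' with h | h
    · exact h h1
    · exact h h2
  · rintro ⟨h1, h2⟩
    rcases h with h | h
    · exact h h1
    · exact h h2

theorem g1 (W : Fin 3 → Finset (Fin 2 → ℤ)) : D fun x =>
    ∀ i j, ∀ p ∈ W i, ∀ q ∈ W j, (i ≠ j ∨ p ≠ q) →
      cr (toPl (lb x i p)) (toPl (lb x j q)) ≠ 0 := by
  refine D_all fun i => D_all fun j => D_mem fun p _ => D_mem fun q _ => D_imp fun h => ?_
  refine D_of (crG (vb i p) (vb j q)) (pt i j p q) ?_ fun x hx => ?_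
  · rw [eval_crG, eval_vb, eval_vb, pt_one, pt_two i j p q h]
    unfold crG
    simp
  · rw [eval_crG, eval_vb, eval_vb] at hx
    rw [cr_toPl]
    exact_mod_cast hx

theorem g2 (W : Fin 3 → Finset (Fin 2 → ℤ)) : D fun x =>
    ∀ i j, i ≠ j → ∀ p ∈ W i, ∀ p' ∈ W i, p ≠ p' → ∀ q ∈ W j, ∀ q' ∈ W j, q ≠ q' →
    cr (toPl (lb x i p) - toPl (lb x i p')) (toPl (lb x j q) - toPl (lb x j q')) ≠ 0 := by
  refine D_all fun i => D_all fun j => D_imp fun hij => D_mem fun p _ => D_mem fun p' _ =>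
    D_imp fun hp => D_mem fun q _ => D_mem fun q' _ => D_imp fun hq => ?_
  refine D_of (crG (vb i p - vb i p') (vb j q - vb j q')) (pt i j p q) ?_ fun x hx => ?_
  · rw [eval_crG, eval_sub', eval_sub', pt_one, pt_two i j p q (Or.inl hij),
      pt_three i j i p q p' (Or.inr hp.symm) (Or.inl hij),
      pt_three i j j p q q' (Or.inl hij.symm) (Or.inr hq.symm)]
    unfold crG
    simp
  · rw [eval_crG, eval_sub', eval_sub'] at hx
    rw [toPl_sub, toPl_sub, cr_toPl]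
    exact_mod_cast hx

theorem g3 (W : Fin 3 → Finset (Fin 2 → ℤ)) : D fun x =>
    ∀ i j, i ≠ j → ∀ p ∈ W i, ∀ p' ∈ W i, p ≠ p' → ∀ q ∈ W j,
    cr (toPl (lb x i p) - toPl (lb x i p')) (toPl (lb x j q)) ≠ 0 := by
  refine D_all fun i => D_all fun j => D_imp fun hij => D_mem fun p _ => D_mem fun p' _ =>
    D_imp fun hp => D_mem fun q _ => ?_
  refine D_of (crG (vb i p - vb i p') (vb j q)) (pt i j p q) ?_ fun x hx => ?_
  · rw [eval_crG, eval_sub', eval_vb, pt_one, pt_two i j p q (Or.inl hij),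
      pt_three i j i p q p' (Or.inr hp.symm) (Or.inl hij)]
    unfold crG
    simp
  · rw [eval_crG, eval_sub', eval_vb] at hx
    rw [toPl_sub, cr_toPl]
    exact_mod_cast hx

/-- the normal vector over a commutative ring -/
def nrG {R : Type} [CommRing R] (p : Fin 3 → Fin 2 → R) : Fin 3 → R :=
  ![crG (p 1) (p 2), crG (p 2) (p 0), crG (p 0) (p 1)]

theorem nrm_toPl (p : Fin 3 → Fin 2 → ℤ) (i : Fin 3) :
    nrm (fun l => toPl (p l)) i = ((nrG p i : ℤ) : ℝ) := by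
  unfold nrm nrG
  fin_cases i
  · exact cr_toPl _ _
  · exact cr_toPl _ _
  · exact cr_toPl _ _

theorem eval_nrG (x : Sg → ℤ) (a : Fin 3 → Fin 2 → ℤ) (i : Fin 3) :
    eval x (nrG (fun l => vb l (a l)) i) = nrG (fun l => lb x l (a l)) i := by
  unfold nrG
  fin_cases i
  · exact (eval_crG x _ _).trans (by rw [eval_vb, eval_vb]; rfl)
  · exact (eval_crG x _ _).trans (by rw [eval_vb, eval_vb]; rfl)
  · exact (eval_crG x _ _).trans (by rw [eval_vb, eval_vb]; rfl)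

/-- the second kind of points -/
def qt (i : Fin 3) (b : Fin 2 → ℤ) : Sg → ℤ := fun a =>
  if a.1 = i then (if a.2.1 = b then ![1, 0] a.2.2 else 0)
  else if a.1 = i + 1 then ![1, 0] a.2.2 else ![0, 1] a.2.2

theorem qt_one (i : Fin 3) (b p : Fin 2 → ℤ) (h : p ≠ b) : lb (qt i b) i p = 0 := by
  funext k
  unfold lb qt
  rw [if_pos rfl, if_neg h, Pi.zero_apply]

theorem qt_two (i : Fin 3) (b : Fin 2 → ℤ) : lb (qt i b) i b = ![1, 0] := by
  funext k
  unfold lb qt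
  rw [if_pos rfl, if_pos rfl]

theorem qt_three (i j : Fin 3) (b p : Fin 2 → ℤ) (h : j ≠ i) (h' : j = i + 1) :
    lb (qt i b) j p = ![1, 0] := by
  funext k
  unfold lb qt
  rw [if_neg h, if_pos h']

theorem qt_four (i j : Fin 3) (b p : Fin 2 → ℤ) (h : j ≠ i) (h' : j ≠ i + 1) :
    lb (qt i b) j p = ![0, 1] := by
  funext k
  unfold lb qt
  rw [if_neg h, if_neg h']

theorem g4 (W : Fin 3 → Finset (Fin 2 → ℤ)) : D fun x =>
    ∀ a ∈ Fintype.piFinset W, ∀ b ∈ Fintype.piFinset W, a ≠ b →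
    ∃ i j, nrm (fun l => toPl (lb x l (a l))) i * nrm (fun l => toPl (lb x l (b l))) j ≠
      nrm (fun l => toPl (lb x l (a l))) j * nrm (fun l => toPl (lb x l (b l))) i := by
  refine D_mem fun a _ => D_mem fun b _ => D_imp fun hab => ?_
  obtain ⟨i, hi⟩ := Function.ne_iff.1 hab
  refine D_of (nrG (fun l => vb l (a l)) i * nrG (fun l => vb l (b l)) (i + 1) -
    nrG (fun l => vb l (a l)) (i + 1) * nrG (fun l => vb l (b l)) i) (qt i (b i)) ?_
    fun x hx => ⟨i, i + 1, ?_⟩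
  · rw [map_sub, map_mul, map_mul, eval_nrG, eval_nrG, eval_nrG, eval_nrG]
    have h1 := qt_one i (b i) (a i) hi
    have h2 := qt_two i (b i)
    have h3 := fun j p => qt_three i j (b i) p
    have h4 := fun j p => qt_four i j (b i) p
    fin_cases i
    · have e1 := h3 1 (a 1) (by decide) (by decide)
      have e2 := h3 1 (b 1) (by decide) (by decide)
      have e3 := h4 2 (a 2) (by decide) (by decide)
      have e4 := h4 2 (b 2) (by decide) (by decide)
      simp only [Fin.zero_eta, Fin.isValue] at h1 h2 e1 e2 e3 e4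
      simp [nrG, crG, h1, h2, e1, e2, e3, e4]
    · have e1 := h3 2 (a 2) (by decide) (by decide)
      have e2 := h3 2 (b 2) (by decide) (by decide)
      have e3 := h4 0 (a 0) (by decide) (by decide)
      have e4 := h4 0 (b 0) (by decide) (by decide)
      simp only [Fin.mk_one, Fin.isValue] at h1 h2 e1 e2 e3 e4
      simp [nrG, crG, h1, h2, e1, e2, e3, e4]
    · have e1 := h3 0 (a 0) (by decide) (by decide)
      have e2 := h3 0 (b 0) (by decide) (by decide)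
      have e3 := h4 1 (a 1) (by decide) (by decide)
      have e4 := h4 1 (b 1) (by decide) (by decide)
      simp only [Fin.reduceFinMk, Fin.isValue] at h1 h2 e1 e2 e3 e4
      simp [nrG, crG, h1, h2, e1, e2, e3, e4]
  · rw [map_sub, map_mul, map_mul, eval_nrG, eval_nrG, eval_nrG, eval_nrG] at hx
    rw [nrm_toPl, nrm_toPl, nrm_toPl, nrm_toPl]
    intro h0
    apply hx
    rw [sub_eq_zero]
    exact_mod_cast h0

/-- the difference of the two sides of the last condition -/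
theorem g7_of (i j k : Fin 3) (p p' q q' s s' r r' : Fin 2 → ℤ) (y : Sg → ℤ)
    (hy : crG (lb y i p - lb y i p') (lb y j s) * crG (lb y i q - lb y i q') (lb y k r') ≠
      crG (lb y i p - lb y i p') (lb y k r) * crG (lb y i q - lb y i q') (lb y j s')) :
    D fun x => cr (toPl (lb x i p) - toPl (lb x i p')) (toPl (lb x j s)) *
      cr (toPl (lb x i q) - toPl (lb x i q')) (toPl (lb x k r')) ≠
      cr (toPl (lb x i p) - toPl (lb x i p')) (toPl (lb x k r)) *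
      cr (toPl (lb x i q) - toPl (lb x i q')) (toPl (lb x j s')) := by
  refine D_of (crG (vb i p - vb i p') (vb j s) * crG (vb i q - vb i q') (vb k r') -
    crG (vb i p - vb i p') (vb k r) * crG (vb i q - vb i q') (vb j s')) y ?_ fun x hx => ?_
  · simp only [map_sub, map_mul, eval_crG, eval_sub', eval_vb]
    exact sub_ne_zero.2 hy
  · simp only [map_sub, map_mul, eval_crG, eval_sub', eval_vb] at hx
    simp only [toPl_sub, cr_toPl]
    intro h0
    apply hx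
    rw [sub_eq_zero]
    exact_mod_cast h0

/-- the third kind of points -/
def rt (i j : Fin 3) (u v w : (Fin 2 → ℤ) → Fin 2 → ℤ) : Sg → ℤ := fun a =>
  if a.1 = i then u a.2.1 a.2.2 else if a.1 = j then v a.2.1 a.2.2 else w a.2.1 a.2.2

theorem rt_one (i j : Fin 3) (u v w : (Fin 2 → ℤ) → Fin 2 → ℤ) (p : Fin 2 → ℤ) :
    lb (rt i j u v w) i p = u p := by
  funext k
  unfold lb rt
  rw [if_pos rfl]

theorem rt_two (i j : Fin 3) (u v w : (Fin 2 → ℤ) → Fin 2 → ℤ) (p : Fin 2 → ℤ) (h : i ≠ j) :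
    lb (rt i j u v w) j p = v p := by
  funext k
  unfold lb rt
  rw [if_neg h.symm, if_pos rfl]

theorem rt_three (i j k : Fin 3) (u v w : (Fin 2 → ℤ) → Fin 2 → ℤ) (p : Fin 2 → ℤ) (h : i ≠ k)
    (h' : j ≠ k) : lb (rt i j u v w) k p = w p := by
  funext l
  unfold lb rt
  rw [if_neg h.symm, if_neg h'.symm]

theorem ex_ef (p p' q q' : Fin 2 → ℤ) (hp : p ≠ p') (hq : q ≠ q')
    (h : ¬ ((p = q ∧ p' = q') ∨ (p = q' ∧ p' = q))) :
    ((p ≠ q ∧ p ≠ q') ∨ (p' ≠ q ∧ p' ≠ q')) ∧ ((q ≠ p ∧ q ≠ p') ∨ (q' ≠ p ∧ q' ≠ p')) := by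
  by_cases h1 : p = q
  · subst h1
    have h2 : p' ≠ q' := fun e => h (Or.inl ⟨rfl, e⟩)
    exact ⟨Or.inr ⟨hp.symm, h2⟩, Or.inr ⟨hq.symm, h2.symm⟩⟩
  · by_cases h2 : p = q'
    · subst h2
      have h3 : p' ≠ q := fun e => h (Or.inr ⟨rfl, e⟩)
      exact ⟨Or.inr ⟨h3, hp.symm⟩, Or.inl ⟨hq, h3.symm⟩⟩
    · refine ⟨Or.inl ⟨h1, h2⟩, ?_⟩
      by_cases h3 : p' = q
      · subst h3
        exact Or.inr ⟨fun e => h2 e.symm, hq.symm⟩
      · exact Or.inl ⟨fun e => h1 e.symm, fun e => h3 e.symm⟩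

theorem g7_pt (i j k : Fin 3) (hij : i ≠ j) (hik : i ≠ k) (hjk : j ≠ k)
    (p p' q q' s s' r r' : Fin 2 → ℤ) (hp : p ≠ p') (hq : q ≠ q')
    (hc : ¬ (s = s' ∧ r = r' ∧ ((p = q ∧ p' = q') ∨ (p = q' ∧ p' = q)))) :
    ∃ y, crG (lb y i p - lb y i p') (lb y j s) * crG (lb y i q - lb y i q') (lb y k r') ≠
      crG (lb y i p - lb y i p') (lb y k r) * crG (lb y i q - lb y i q') (lb y j s') := by
  by_cases hA : (p = q ∧ p' = q') ∨ (p = q' ∧ p' = q)
  · by_cases hs : s = s'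
    · have hr : r ≠ r' := fun e => hc ⟨hs, e, hA⟩
      refine ⟨rt i j (fun t => if t = p then ![1, 0] else 0) (fun _ => ![0, 1])
        (fun t => if t = r' then ![0, 1] else 0), ?_⟩
      rcases hA with ⟨rfl, rfl⟩ | ⟨rfl, rfl⟩
      · simp [rt_one, rt_two i j _ _ _ _ hij, rt_three i j k _ _ _ _ hik hjk, crG, hp.symm, hr]
      · simp [rt_one, rt_two i j _ _ _ _ hij, rt_three i j k _ _ _ _ hik hjk, crG, hp.symm, hr]
    · refine ⟨rt i j (fun t => if t = p then ![1, 0] else 0) (fun t => if t = s then ![0, 1] else 0)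
        (fun _ => ![0, 1]), ?_⟩
      have hs' : s' ≠ s := fun e => hs e.symm
      rcases hA with ⟨rfl, rfl⟩ | ⟨rfl, rfl⟩
      · simp [rt_one, rt_two i j _ _ _ _ hij, rt_three i j k _ _ _ _ hik hjk, crG, hp.symm, hs']
      · simp [rt_one, rt_two i j _ _ _ _ hij, rt_three i j k _ _ _ _ hik hjk, crG, hp.symm, hs']
  · obtain ⟨h1, h2⟩ := ex_ef p p' q q' hp hq hA
    rcases h1 with ⟨h1, h1'⟩ | ⟨h1, h1'⟩
    · rcases h2 with ⟨h2, h2'⟩ | ⟨h2, h2'⟩
      · refine ⟨rt i j (fun t => if t = p then ![1, 0] else if t = q then ![0, 1] else 0)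
          (fun _ => ![1, 0]) (fun _ => ![0, 1]), ?_⟩
        simp [rt_one, rt_two i j _ _ _ _ hij, rt_three i j k _ _ _ _ hik hjk, crG, hp.symm,
          hq.symm, h1'.symm, h2, h2'.symm]
      · refine ⟨rt i j (fun t => if t = p then ![1, 0] else if t = q' then ![0, 1] else 0)
          (fun _ => ![1, 0]) (fun _ => ![0, 1]), ?_⟩
        simp [rt_one, rt_two i j _ _ _ _ hij, rt_three i j k _ _ _ _ hik hjk, crG, hp.symm,
          hq, h1.symm, h2, h2'.symm]
    · rcases h2 with ⟨h2, h2'⟩ | ⟨h2, h2'⟩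
      · refine ⟨rt i j (fun t => if t = p' then ![1, 0] else if t = q then ![0, 1] else 0)
          (fun _ => ![1, 0]) (fun _ => ![0, 1]), ?_⟩
        simp [rt_one, rt_two i j _ _ _ _ hij, rt_three i j k _ _ _ _ hik hjk, crG, hp,
          hq.symm, h1'.symm, h2.symm, h2']
      · refine ⟨rt i j (fun t => if t = p' then ![1, 0] else if t = q' then ![0, 1] else 0)
          (fun _ => ![1, 0]) (fun _ => ![0, 1]), ?_⟩
        simp [rt_one, rt_two i j _ _ _ _ hij, rt_three i j k _ _ _ _ hik hjk, crG, hp,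
          hq, h1.symm, h2.symm, h2']

theorem g7 (W : Fin 3 → Finset (Fin 2 → ℤ)) : D fun x =>
    ∀ i j k, i ≠ j → i ≠ k → j ≠ k → ∀ p ∈ W i, ∀ p' ∈ W i, p ≠ p' → ∀ q ∈ W i, ∀ q' ∈ W i,
    q ≠ q' → ∀ s ∈ W j, ∀ s' ∈ W j, ∀ r ∈ W k, ∀ r' ∈ W k,
    cr (toPl (lb x i p) - toPl (lb x i p')) (toPl (lb x j s)) *
      cr (toPl (lb x i q) - toPl (lb x i q')) (toPl (lb x k r')) =
      cr (toPl (lb x i p) - toPl (lb x i p')) (toPl (lb x k r)) *
      cr (toPl (lb x i q) - toPl (lb x i q')) (toPl (lb x j s')) →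
      s = s' ∧ r = r' ∧ ((p = q ∧ p' = q') ∨ (p = q' ∧ p' = q)) := by
  refine D_all fun i => D_all fun j => D_all fun k => D_imp fun hij => D_imp fun hik =>
    D_imp fun hjk => D_mem fun p _ => D_mem fun p' _ =>
    D_imp fun hp => D_mem fun q _ => D_mem fun q' _ => D_imp fun hq =>
    D_mem fun s _ => D_mem fun s' _ => D_mem fun r _ => D_mem fun r' _ => ?_
  by_cases hc : s = s' ∧ r = r' ∧ ((p = q ∧ p' = q') ∨ (p = q' ∧ p' = q))
  · exact ⟨1, one_ne_zero, fun x _ _ => hc⟩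
  · obtain ⟨y, hy⟩ := g7_pt i j k hij hik hjk p p' q q' s s' r r' hp hq hc
    exact D_mono (g7_of i j k p p' q q' s s' r r' y hy) fun x hx h0 => absurd h0 hx

end Pool.Agent.Lib.MP_4e7804_co.N3.PolyN

namespace Pool.Agent.Lib.MP_4e7804_co.N3

open PolyN

theorem tPoly : StmtPoly := by
  intro W
  obtain ⟨x, h1, h2, h3, h4, h7⟩ := D_ex (D_and (g1 W) (D_and (g2 W) (D_and (g3 W)
    (D_and (g4 W) (g7 W)))))
  refine ⟨fun i p => lb x i p, h1, h2, h3, fun a b ha hb hab => ?_, h7⟩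
  exact h4 a (Fintype.mem_piFinset.2 ha) b (Fintype.mem_piFinset.2 hb) hab

end Pool.Agent.Lib.MP_4e7804_co.N3
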