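import Pool.Agent.Lib.MP_4e7804_co.N3.Spec

/-!
# The crossing pairs form finitely many rays
-/

set_option autoImplicit false

namespace Pool.Agent.Lib.MP_4e7804_co.N3.QFinN

open Pool.Agent.Lib.MP_4e7804_co.N3

/-- reason X -/
def RX (A : Finset Pl) (p q : Pl) (x : Pl × Pl) : Prop := p ∈ A ∧ q ∈ A ∧ dt p x.2 = dt q x.1

/-- reason Y -/
def RY (A : Finset Pl) (p q : Pl) (x : Pl × Pl) : Prop :=
  p ∈ A ∧ q ∈ A ∧ p ≠ q ∧ dt p x.2 = dt q x.2 ∧ psi A x.2 < psi A x.1 ∧ x.2 ∈ CL A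

theorem RX_swap {A : Finset Pl} {p q : Pl} {x : Pl × Pl} (h : RX A p q x) : RX A q p x.swap :=
  ⟨h.2.1, h.1, h.2.2.symm⟩

theorem QQ_swap {A : Fin 3 → Finset Pl} (hne : ∀ i, (A i).Nonempty) {x : Pl × Pl}
    (h : x ∈ QQ A) : x.swap ∈ QQ A := by
  obtain ⟨h1, h2, h3, h4⟩ := h
  refine ⟨fun i => ?_, fun h => h2 h.symm, h4, h3⟩
  have h5 := h1 i
  rw [EE_iff (hne i)] at h5 ⊢
  rcases h5 with h | h | h
  · exact Or.inl h.symm
  · exact Or.inr (Or.inr h)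
  · exact Or.inr (Or.inl h)

theorem of_swap {x y : Pl × Pl} (h : ∃ c : ℝ, y.swap = c • x.swap) : ∃ c : ℝ, y = c • x := by
  obtain ⟨c, hc⟩ := h
  refine ⟨c, ?_⟩
  have := congrArg Prod.swap hc
  simpa using this

theorem solve0 {p q w : Pl} (h : cr p q ≠ 0) (h1 : dt p w = 0) (h2 : dt q w = 0) : w = 0 := by
  unfold cr at h
  unfold dt at h1 h2
  have e1 : (p.1 * q.2 - p.2 * q.1) * w.1 = 0 := by linear_combination q.2 * h1 - p.2 * h2
  have e2 : (p.1 * q.2 - p.2 * q.1) * w.2 = 0 := by linear_combination p.1 * h2 - q.1 * h1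
  exact Prod.ext ((mul_eq_zero.mp e1).resolve_left h) ((mul_eq_zero.mp e2).resolve_left h)

theorem solve {p q w u : Pl} (h : cr p q ≠ 0) (h1 : dt p w = dt p u) (h2 : dt q w = dt q u) :
    w = u := by
  have := solve0 (w := w - u) h (by rw [dt_sub, h1, sub_self]) (by rw [dt_sub, h2, sub_self])
  exact sub_eq_zero.mp this

theorem line {a w u : Pl} (ha : a ≠ 0) (hw : w ≠ 0) (h1 : dt a w = 0) (h2 : dt a u = 0) :
    ∃ c : ℝ, u = c • w := by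
  have h3 : w.1 * u.2 = w.2 * u.1 := by
    unfold dt at h1 h2
    by_cases h : a.1 = 0
    · have h' : a.2 ≠ 0 := fun h' => ha (Prod.ext h h')
      apply mul_left_cancel₀ h'
      linear_combination w.1 * h2 - u.1 * h1
    · apply mul_left_cancel₀ h
      linear_combination u.2 * h1 - w.2 * h2
  by_cases h : w.1 = 0
  · have h' : w.2 ≠ 0 := fun h' => hw (Prod.ext h h')
    refine ⟨u.2 / w.2, Prod.ext ?_ ?_⟩
    · simp only [Prod.smul_fst, smul_eq_mul]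
      field_simp
      linear_combination -h3
    · simp only [Prod.smul_snd, smul_eq_mul]
      field_simp
  · refine ⟨u.1 / w.1, Prod.ext ?_ ?_⟩
    · simp only [Prod.smul_fst, smul_eq_mul]
      field_simp
    · simp only [Prod.smul_snd, smul_eq_mul]
      field_simp
      linear_combination h3

theorem line2 {p q w u : Pl} (ha : p ≠ q) (hw : w ≠ 0) (h1 : dt p w = dt q w)
    (h2 : dt p u = dt q u) : ∃ c : ℝ, u = c • w :=
  line (sub_ne_zero.mpr ha) hw (by rw [sub_dt, h1, sub_self]) (by rw [sub_dt, h2, sub_self])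

section

variable {A : Fin 3 → Finset Pl} {x y : Pl × Pl} {i j k : Fin 3} {p q s t u v : Pl}

theorem YXX (hA : Gen A) (hx : x ∈ QQ A) (hjk : j ≠ k)
    (h1 : RY (A i) p q x) (h1' : RY (A i) p q y) (h2 : RX (A j) s t x) (h2' : RX (A j) s t y)
    (h3 : RX (A k) u v x) (h3' : RX (A k) u v y) : ∃ c : ℝ, y = c • x := by
  have hne := hx.2.1
  have h0 : cr t v ≠ 0 := hA.g1 j k hjk t h2.2.1 v h3.2.1
  have hw : x.2 ≠ 0 := by
    intro hw
    have e1 := h2.2.2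
    have e2 := h3.2.2
    rw [hw, dt_zero] at e1 e2
    exact hne ((solve0 h0 e1.symm e2.symm).trans hw.symm)
  obtain ⟨c, hc⟩ := line2 h1.2.2.1 hw h1.2.2.2.1 h1'.2.2.2.1
  refine ⟨c, Prod.ext ?_ hc⟩
  apply solve h0
  · rw [Prod.smul_fst, dt_smul, ← h2.2.2, ← h2'.2.2, hc, dt_smul]
  · rw [Prod.smul_fst, dt_smul, ← h3.2.2, ← h3'.2.2, hc, dt_smul]

theorem YZX (h : StmtCLdef) (hA : Gen A) (hx : x ∈ QQ A) (hik : i ≠ k) (hjk : j ≠ k)
    (h1 : RY (A i) p q x) (h1' : RY (A i) p q y) (h2 : RY (A j) s t x.swap)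
    (h2' : RY (A j) s t y.swap)
    (h3 : RX (A k) u v x) (h3' : RX (A k) u v y) : ∃ c : ℝ, y = c • x := by
  have hne := hx.2.1
  have c4 := (h A hA).2.2.2
  have hw : x.2 ≠ 0 := by
    intro hw
    have e2 := h3.2.2
    rw [hw, dt_zero] at e2
    refine c4 j k hjk x.1 h2.2.2.2.2.2 ?_ v h3.2.1 e2.symm
    intro hw'
    exact hne (hw'.trans hw.symm)
  have hw' : x.1 ≠ 0 := by
    intro hw'
    have e2 := h3.2.2
    rw [hw', dt_zero] at e2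
    exact c4 i k hik x.2 h1.2.2.2.2.2 hw u h3.1 e2
  obtain ⟨c, hc⟩ := line2 h1.2.2.1 hw h1.2.2.2.1 h1'.2.2.2.1
  obtain ⟨c', hc'⟩ := line2 h2.2.2.1 (w := x.1) (u := y.1) hw' h2.2.2.2.1 h2'.2.2.2.1
  have e1 := h3'.2.2
  rw [hc, hc', dt_smul, dt_smul, ← h3.2.2] at e1
  have e2 : dt u x.2 ≠ 0 := c4 i k hik x.2 h1.2.2.2.2.2 hw u h3.1
  have e3 : c = c' := mul_right_cancel₀ e2 e1
  subst e3
  exact ⟨c, Prod.ext hc' hc⟩

theorem YYz (h : StmtCLdef) (hA : Gen A) (hij : i ≠ j)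
    (h1 : RY (A i) p q x) (h2 : RY (A j) s t x) : x.2 = 0 :=
  (h A hA).2.2.1 i j hij x.2 h1.2.2.2.2.2 h2.2.2.2.2.2

theorem YYX (h : StmtCLdef) (hA : Gen A) (hx : x ∈ QQ A) (hij : i ≠ j) (hik : i ≠ k)
    (h1 : RY (A i) p q x) (h1' : RY (A i) p q y) (h2 : RY (A j) s t x) (h2' : RY (A j) s t y)
    (h3 : RX (A k) u v x) (h3' : RX (A k) u v y) : ∃ c : ℝ, y = c • x := by
  have hne := hx.2.1
  have hw := YYz h hA hij h1 h2
  have hw2 := YYz h hA hij h1' h2'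
  have hw' : x.1 ≠ 0 := fun hw' => hne (hw'.trans hw.symm)
  have hv : v ≠ 0 := by
    rintro rfl
    exact hA.g1 i k hik p h1.1 0 h3.2.1 (by simp [cr])
  have e1 := h3.2.2
  have e2 := h3'.2.2
  rw [hw, dt_zero] at e1
  rw [hw2, dt_zero] at e2
  obtain ⟨c, hc⟩ := line hv hw' e1.symm e2.symm
  exact ⟨c, Prod.ext hc (by rw [Prod.smul_snd, hw, hw2, smul_zero])⟩

theorem YYZ (h : StmtCLdef) (hA : Gen A) (hx : x ∈ QQ A) (hij : i ≠ j)
    (h1 : RY (A i) p q x) (h1' : RY (A i) p q y) (h2 : RY (A j) s t x) (h2' : RY (A j) s t y)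
    (h3 : RY (A k) u v x.swap) (h3' : RY (A k) u v y.swap) : ∃ c : ℝ, y = c • x := by
  have hne := hx.2.1
  have hw := YYz h hA hij h1 h2
  have hw2 := YYz h hA hij h1' h2'
  have hw' : x.1 ≠ 0 := fun hw' => hne (hw'.trans hw.symm)
  obtain ⟨c, hc⟩ := line2 h3.2.2.1 (w := x.1) (u := y.1) hw' h3.2.2.2.1 h3'.2.2.2.1
  exact ⟨c, Prod.ext hc (by rw [Prod.smul_snd, hw, hw2, smul_zero])⟩

theorem YYY (h : StmtCLdef) (hA : Gen A) (hx : x ∈ QQ A) {P Q : Fin 3 → Pl}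
    (h1 : RY (A 0) (P 0) (Q 0) x) (h2 : RY (A 1) (P 1) (Q 1) x) (h3 : RY (A 2) (P 2) (Q 2) x) :
    False := by
  have hw := YYz h hA (by decide) h1 h2
  apply hx.2.2.2
  refine ⟨hw, fun i => ?_⟩
  have g : ∀ i, psi (A i) x.2 < psi (A i) x.1 := by
    intro i
    fin_cases i
    · exact h1.2.2.2.2.1
    · exact h2.2.2.2.2.1
    · exact h3.2.2.2.2.1
  have := g i
  rwa [hw, psi_zero (hA.ne i)] at this

theorem nrm_dt (P : Fin 3 → Pl) (w : Pl) :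
    nrm P 0 * dt (P 0) w + nrm P 1 * dt (P 1) w + nrm P 2 * dt (P 2) w = 0 := by
  simp only [nrm, dt, cr, Matrix.cons_val]
  ring

theorem crossline1 {N a b d : Fin 3 → ℝ}
    (h1 : N 0 * a 0 + N 1 * a 1 + N 2 * a 2 = 0) (h3 : N 0 * b 0 + N 1 * b 1 + N 2 * b 2 = 0)
    (d0 : d 0 = a 1 * b 2 - a 2 * b 1) (d1 : d 1 = a 2 * b 0 - a 0 * b 2)
    (d2 : d 2 = a 0 * b 1 - a 1 * b 0) (i j : Fin 3) : N i * d j = N j * d i := by
  have e01 : N 0 * d 1 = N 1 * d 0 := by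
    rw [d0, d1]
    linear_combination a 2 * h3 - b 2 * h1
  have e12 : N 1 * d 2 = N 2 * d 1 := by
    rw [d2, d1]
    linear_combination a 0 * h3 - b 0 * h1
  have e20 : N 2 * d 0 = N 0 * d 2 := by
    rw [d0, d2]
    linear_combination a 1 * h3 - b 1 * h1
  fin_cases i <;> fin_cases j
  · rfl
  · exact e01
  · exact e20.symm
  · exact e01.symm
  · rfl
  · exact e12
  · exact e20
  · exact e12.symm
  · rfl

theorem crossline {N M a b : Fin 3 → ℝ} {i j : Fin 3} (hNM : N i * M j ≠ N j * M i)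
    (h1 : N 0 * a 0 + N 1 * a 1 + N 2 * a 2 = 0) (h2 : M 0 * a 0 + M 1 * a 1 + M 2 * a 2 = 0)
    (h3 : N 0 * b 0 + N 1 * b 1 + N 2 * b 2 = 0) (h4 : M 0 * b 0 + M 1 * b 1 + M 2 * b 2 = 0)
    (l m : Fin 3) : a l * b m = a m * b l := by
  obtain ⟨d, hd⟩ : ∃ d : Fin 3 → ℝ, d = ![a 1 * b 2 - a 2 * b 1, a 2 * b 0 - a 0 * b 2,
    a 0 * b 1 - a 1 * b 0] := ⟨_, rfl⟩
  have d0 : d 0 = a 1 * b 2 - a 2 * b 1 := by rw [hd]; rfl
  have d1 : d 1 = a 2 * b 0 - a 0 * b 2 := by rw [hd]; rfl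
  have d2 : d 2 = a 0 * b 1 - a 1 * b 0 := by rw [hd]; rfl
  have eN := crossline1 h1 h3 d0 d1 d2
  have eM := crossline1 h2 h4 d0 d1 d2
  have z : ∀ r, d r = 0 := by
    intro r
    have key : (N i * M j - N j * M i) * d r = 0 := by
      linear_combination N i * eM j r - N j * eM i r + M r * eN i j
    exact (mul_eq_zero.mp key).resolve_left (sub_ne_zero.mpr hNM)
  have z0 := z 0
  have z1 := z 1
  have z2 := z 2
  rw [d0] at z0
  rw [d1] at z1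
  rw [d2] at z2
  fin_cases l <;> fin_cases m
  · rfl
  · show a 0 * b 1 = a 1 * b 0
    linarith
  · show a 0 * b 2 = a 2 * b 0
    linarith
  · show a 1 * b 0 = a 0 * b 1
    linarith
  · rfl
  · show a 1 * b 2 = a 2 * b 1
    linarith
  · show a 2 * b 0 = a 0 * b 2
    linarith
  · show a 2 * b 1 = a 1 * b 2
    linarith
  · rfl

theorem XXX (hA : Gen A) (hx : x ∈ QQ A) {P Q : Fin 3 → Pl}
    (h1 : ∀ i, RX (A i) (P i) (Q i) x) (h2 : ∀ i, RX (A i) (P i) (Q i) y) :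
    ∃ c : ℝ, y = c • x := by
  have hne := hx.2.1
  have g : cr (P 0) (P 1) ≠ 0 := hA.g1 0 1 (by decide) _ (h1 0).1 _ (h1 1).1
  have g' : cr (Q 0) (Q 1) ≠ 0 := hA.g1 0 1 (by decide) _ (h1 0).2.1 _ (h1 1).2.1
  have hPQ : P ≠ Q := by
    rintro rfl
    exact hne (solve g (h1 0).2.2 (h1 1).2.2).symm
  obtain ⟨i, j, hij⟩ := hA.g4 P Q (fun i => (h1 i).1) (fun i => (h1 i).2.1) hPQ
  have n1 := nrm_dt P x.2
  have n2 := nrm_dt Q x.1
  have n3 := nrm_dt P y.2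
  have n4 := nrm_dt Q y.1
  simp only [← (h1 _).2.2] at n2
  simp only [← (h2 _).2.2] at n4
  have key := crossline (N := nrm P) (M := nrm Q) (a := fun i => dt (P i) x.2)
    (b := fun i => dt (P i) y.2) hij n1 n2 n3 n4
  obtain ⟨l, hl⟩ : ∃ l, dt (P l) x.2 ≠ 0 := by
    by_contra hcon
    push Not at hcon
    have e1 : x.2 = 0 := solve0 g (hcon 0) (hcon 1)
    have e2 : x.1 = 0 := solve0 g' (by rw [← (h1 0).2.2, hcon 0]) (by rw [← (h1 1).2.2, hcon 1])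
    exact hne (e2.trans e1.symm)
  have e : ∀ i, dt (P i) y.2 = dt (P l) y.2 / dt (P l) x.2 * dt (P i) x.2 := by
    intro i
    have := key i l
    field_simp
    linarith
  refine ⟨dt (P l) y.2 / dt (P l) x.2, Prod.ext ?_ ?_⟩
  · apply solve g'
    · rw [Prod.smul_fst, dt_smul, ← (h2 0).2.2, ← (h1 0).2.2]
      exact e 0
    · rw [Prod.smul_fst, dt_smul, ← (h2 1).2.2, ← (h1 1).2.2]
      exact e 1
  · apply solve g
    · rw [Prod.smul_snd, dt_smul]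
      exact e 0
    · rw [Prod.smul_snd, dt_smul]
      exact e 1

/-- the reasons -/
def Rs (A : Finset Pl) (t : (A × A) × Fin 3) (x : Pl × Pl) : Prop :=
  (t.2 = 0 ∧ RX A t.1.1 t.1.2 x) ∨ (t.2 = 1 ∧ RY A t.1.1 t.1.2 x) ∨
    (t.2 = 2 ∧ RY A t.1.1 t.1.2 x.swap)

theorem exists_Rs {A : Finset Pl} (hA : A.Nonempty) {x : Pl × Pl} (hx : x ∈ EE A) :
    ∃ t, Rs A t x := by
  rw [EE_iff hA] at hx
  rcases hx with h | ⟨h, h'⟩ | ⟨h, h'⟩
  · obtain ⟨p, hp, hp'⟩ := exists_psi hA x.2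
    obtain ⟨q, hq, hq'⟩ := exists_psi hA x.1
    exact ⟨((⟨p, hp⟩, ⟨q, hq⟩), 0), Or.inl ⟨rfl, hp, hq, by rw [← hp', ← hq', h]⟩⟩
  · obtain ⟨p, hp, q, hq, hpq, h1, h2⟩ := (CL_iff hA).mp h'
    exact ⟨((⟨p, hp⟩, ⟨q, hq⟩), 1), Or.inr (Or.inl ⟨rfl, hp, hq, hpq, h1.trans h2.symm, h, h'⟩)⟩
  · obtain ⟨p, hp, q, hq, hpq, h1, h2⟩ := (CL_iff hA).mp h'
    exact ⟨((⟨p, hp⟩, ⟨q, hq⟩), 2), Or.inr (Or.inr ⟨rfl, hp, hq, hpq, h1.trans h2.symm, h, h'⟩)⟩

theorem Rs_pair {A : Finset Pl} {t : (A × A) × Fin 3} {x y : Pl × Pl} (hx : Rs A t x)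
    (hy : Rs A t y) : ∃ p q : Pl, (RX A p q x ∧ RX A p q y) ∨ (RY A p q x ∧ RY A p q y) ∨
      (RY A p q x.swap ∧ RY A p q y.swap) := by
  refine ⟨t.1.1, t.1.2, ?_⟩
  rcases hx with ⟨h, hx⟩ | ⟨h, hx⟩ | ⟨h, hx⟩ <;> rcases hy with ⟨h', hy⟩ | ⟨h', hy⟩ | ⟨h', hy⟩ <;>
    rw [h] at h'
  · exact Or.inl ⟨hx, hy⟩
  · exact absurd h' (by decide)
  · exact absurd h' (by decide)
  · exact absurd h' (by decide)
  · exact Or.inr (Or.inl ⟨hx, hy⟩)
  · exact absurd h' (by decide)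
  · exact absurd h' (by decide)
  · exact absurd h' (by decide)
  · exact Or.inr (Or.inr ⟨hx, hy⟩)

theorem prop (h : StmtCLdef) (hA : Gen A) (hx : x ∈ QQ A) (hy : y ∈ QQ A)
    (hr : ∀ i, ∃ t, Rs (A i) t x ∧ Rs (A i) t y) : ∃ c : ℝ, y = c • x := by
  have hne := hA.ne
  have hxs := QQ_swap hne hx
  have hys := QQ_swap hne hy
  have hr' : ∀ i, ∃ p q : Pl, (RX (A i) p q x ∧ RX (A i) p q y) ∨
      (RY (A i) p q x ∧ RY (A i) p q y) ∨ (RY (A i) p q x.swap ∧ RY (A i) p q y.swap) := by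
    intro i
    obtain ⟨t, h1, h2⟩ := hr i
    exact Rs_pair h1 h2
  choose P Q hPQ using hr'
  have h01 : (0 : Fin 3) ≠ 1 := by decide
  have h02 : (0 : Fin 3) ≠ 2 := by decide
  have h12 : (1 : Fin 3) ≠ 2 := by decide
  rcases hPQ 0 with ⟨a, a'⟩ | ⟨a, a'⟩ | ⟨a, a'⟩ <;> rcases hPQ 1 with ⟨b, b'⟩ | ⟨b, b'⟩ | ⟨b, b'⟩ <;>
    rcases hPQ 2 with ⟨c, c'⟩ | ⟨c, c'⟩ | ⟨c, c'⟩
  · -- XXX
    refine XXX hA hx (P := P) (Q := Q) ?_ ?_
    · intro i
      fin_cases i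
      · exact a
      · exact b
      · exact c
    · intro i
      fin_cases i
      · exact a'
      · exact b'
      · exact c'
  · -- XXY
    exact YXX hA hx h01 c c' a a' b b'
  · -- XXZ
    exact of_swap (YXX hA hxs h01 c c' (RX_swap a) (RX_swap a') (RX_swap b) (RX_swap b'))
  · -- XYX
    exact YXX hA hx h02 b b' a a' c c'
  · -- XYY
    exact YYX h hA hx h12 h01.symm b b' c c' a a'
  · -- XYZ
    exact YZX h hA hx h01.symm h02.symm b b' c c' a a'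
  · -- XZX
    exact of_swap (YXX hA hxs h02 b b' (RX_swap a) (RX_swap a') (RX_swap c) (RX_swap c'))
  · -- XZY
    exact YZX h hA hx h02.symm h01.symm c c' b b' a a'
  · -- XZZ
    exact of_swap (YYX h hA hxs h12 h01.symm b b' c c' (RX_swap a) (RX_swap a'))
  · -- YXX
    exact YXX hA hx h12 a a' b b' c c'
  · -- YXY
    exact YYX h hA hx h02 h01 a a' c c' b b'
  · -- YXZ
    exact YZX h hA hx h01 h12.symm a a' c c' b b'
  · -- YYX
    exact YYX h hA hx h01 h02 a a' b b' c c'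
  · -- YYY
    exact (YYY h hA hx (P := P) (Q := Q) a b c).elim
  · -- YYZ
    exact YYZ h hA hx h01 a a' b b' c c'
  · -- YZX
    exact YZX h hA hx h02 h12 a a' b b' c c'
  · -- YZY
    exact YYZ h hA hx h02 a a' c c' b b'
  · -- YZZ
    exact of_swap (YYZ h hA hxs h12 b b' c c' a a')
  · -- ZXX
    exact of_swap (YXX hA hxs h12 a a' (RX_swap b) (RX_swap b') (RX_swap c) (RX_swap c'))
  · -- ZXY
    exact YZX h hA hx h12.symm h01 c c' a a' b b'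
  · -- ZXZ
    exact of_swap (YYX h hA hxs h02 h01 a a' c c' (RX_swap b) (RX_swap b'))
  · -- ZYX
    exact YZX h hA hx h12 h02 b b' a a' c c'
  · -- ZYY
    exact YYZ h hA hx h12 b b' c c' a a'
  · -- ZYZ
    exact of_swap (YYZ h hA hxs h02 a a' c c' b b')
  · -- ZZX
    exact of_swap (YYX h hA hxs h01 h02 a a' b b' (RX_swap c) (RX_swap c'))
  · -- ZZY
    exact of_swap (YYZ h hA hxs h01 a a' b b' c c')
  · -- ZZZ
    exact (YYY h hA hxs (P := P) (Q := Q) a b c).elim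

end

theorem fin_norm {S : Set (Pl × Pl)} (h : ∀ x ∈ S, ∀ y ∈ S, ∃ c : ℝ, y = c • x) :
    {x | x ∈ S ∧ ‖x‖ = 1}.Finite := by
  rcases Set.eq_empty_or_nonempty {x | x ∈ S ∧ ‖x‖ = 1} with he | ⟨x, hx, hx'⟩
  · rw [he]
    exact Set.finite_empty
  · apply (Set.toFinite {x, -x}).subset
    rintro y ⟨hy, hy'⟩
    obtain ⟨c, rfl⟩ := h x hx y hy
    rw [norm_smul, hx', mul_one, Real.norm_eq_abs] at hy'
    rcases eq_or_eq_neg_of_abs_eq hy' with rfl | rfl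
    · left
      rw [one_smul]
    · right
      rw [neg_smul, one_smul]
      rfl

end Pool.Agent.Lib.MP_4e7804_co.N3.QFinN

open Pool.Agent.Lib.MP_4e7804_co.N3 Pool.Agent.Lib.MP_4e7804_co.N3.QFinN in
theorem Pool.Agent.Lib.MP_4e7804_co.N3.tQFin (h : StmtCLdef) : StmtQFin := by
  intro A hA
  have hfin : (⋃ τ : (i : Fin 3) → ((A i × A i) × Fin 3),
      {x | x ∈ {x | x ∈ QQ A ∧ ∀ i, Rs (A i) (τ i) x} ∧ ‖x‖ = 1}).Finite := by
    apply Set.finite_iUnion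
    intro τ
    apply fin_norm
    rintro x ⟨hx, hx'⟩ y ⟨hy, hy'⟩
    exact prop h hA hx hy fun i => ⟨τ i, hx' i, hy' i⟩
  apply hfin.subset
  rintro x ⟨hx, hx'⟩
  choose τ hτ using fun i => exists_Rs (hA.ne i) (hx.1 i)
  exact Set.mem_iUnion.mpr ⟨τ, ⟨hx, hτ⟩, hx'⟩
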