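import Pool.Agent.Lib.MP_4e7804_co.N3.Spec

/-!
# n = 3: the number of crossings
-/

set_option autoImplicit false

namespace Pool.Agent.Lib.MP_4e7804_co.N3.QNumN

open Pool.Agent.Lib.MP_4e7804_co.N3

theorem cell_open {A : Finset Pl} (hA : A.Nonempty) (k : Pl × Bool) : IsOpen (cell A k) := by
  rcases k with ⟨p, b⟩
  cases b
  · rw [cell_false hA]
    exact cU_open hA p
  · rw [cell_true hA]
    exact cP_open hA p

theorem cell_convex {A : Finset Pl} (hA : A.Nonempty) (k : Pl × Bool) : Convex ℝ (cell A k) := by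
  rcases k with ⟨p, b⟩
  cases b
  · rw [cell_false hA]
    exact cU_convex hA p
  · rw [cell_true hA]
    exact cP_convex hA p

theorem cell_disj {A : Finset Pl} (hA : A.Nonempty) {k l : Pl × Bool} (hk : k ∈ lab A)
    (hl : l ∈ lab A) (h : k ≠ l) : Disjoint (cell A k) (cell A l) := by
  rcases k with ⟨p, b⟩
  rcases l with ⟨q, c⟩
  have hp : p ∈ A := by simpa [lab] using hk
  have hq : q ∈ A := by simpa [lab] using hl
  rw [Set.disjoint_left]
  intro x hx hy
  cases b <;> cases c
  · rw [cell_false hA] at hx hy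
    exact h (by rw [NC_unique hp hq hx.1 hy.1])
  · rw [cell_false hA] at hx
    rw [cell_true hA] at hy
    have h1 := psi_eq hp hx.1
    have h2 := psi_eq hq hy.1
    have h3 := hx.2
    have h4 := hy.2
    rw [h2] at h3
    rw [h1] at h4
    exact lt_asymm h3 h4
  · rw [cell_true hA] at hx
    rw [cell_false hA] at hy
    have h1 := psi_eq hp hx.1
    have h2 := psi_eq hq hy.1
    have h3 := hx.2
    have h4 := hy.2
    rw [h2] at h3
    rw [h1] at h4
    exact lt_asymm h3 h4
  · rw [cell_true hA] at hx hy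
    exact h (by rw [NC_unique hp hq hx.1 hy.1])

theorem n1_eq {A : Finset Pl} (hA : A.Nonempty)
    (h : ∀ p ∈ A, (cU A p).Nonempty ∧ (cP A p).Nonempty) :
    n1 (lab A) (cell A) = 2 * A.card := by
  classical
  unfold n1
  rw [Finset.filter_true_of_mem]
  · rw [lab, Finset.card_product]
    simp [mul_comm]
  · rintro ⟨p, b⟩ hk
    have hp : p ∈ A := by simpa [lab] using hk
    cases b
    · rw [cell_false hA]
      exact (h p hp).1
    · rw [cell_true hA]
      exact (h p hp).2

end Pool.Agent.Lib.MP_4e7804_co.N3.QNumN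

namespace Pool.Agent.Lib.MP_4e7804_co.N3

open QNumN

theorem tQNum (hR4 : StmtR4) (hIE : StmtIE) (hC : StmtCells) : StmtQNum := by
  intro E A hA
  have h1 := hIE (Pl × Pl) _ _ _ (2 + 2) (E.prod E) (Pl × Bool) (fun i => lab (A i))
    (fun i => cell (A i)) (fun i k _ => ⟨cell_open (hA.ne i) k, cell_convex (hA.ne i) k⟩)
    (fun i k hk l hl hkl => cell_disj (hA.ne i) hk hl hkl)
  have h2 := hR4 E A hA
  have h3 := (E.prod E).uniq _ _ _ h1 h2
  have e : ∀ i, n1 (lab (A i)) (cell (A i)) = 2 * (A i).card := fun i =>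
    n1_eq (hA.ne i) ((hC A hA).1 i)
  beta_reduce at h3
  rw [e 0, e 1, e 2] at h3
  push_cast at h3 ⊢
  norm_num at h3
  linarith

end Pool.Agent.Lib.MP_4e7804_co.N3
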