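import Pool.Agent.Lib.MP_4e7804_co.N3.Spec

/-!
# n = 3, module R3: the inequality in space
-/

set_option autoImplicit false

namespace Pool.Agent.Lib.MP_4e7804_co.N3

namespace R3N

/-- `(k - 1) (k - 2)`, but `0` for `k = 0` -/
def D (k : ℕ) : ℤ := if k = 0 then 0 else ((k : ℤ) - 1) * ((k : ℤ) - 2)

theorem D_nonneg (k : ℕ) : 0 ≤ D k := by
  unfold D
  split_ifs with h
  · exact le_rfl
  · rcases Nat.lt_or_ge k 2 with h1 | h1
    · have h2 : k = 1 := by omega
      rw [h2]
      norm_num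
    · have h2 : (2 : ℤ) ≤ k := by exact_mod_cast h1
      exact mul_nonneg (by linarith) (by linarith)

theorem D_congr {a b : ℕ} (h : (a : ℤ) * (a - 1) = b * (b - 1)) : D a = D b := by
  have h1 : ((a : ℤ) - b) * (a + b - 1) = 0 := by linear_combination h
  rcases mul_eq_zero.1 h1 with h2 | h2
  · have h3 : a = b := by omega
    rw [h3]
  · have h4 : (a = 0 ∧ b = 1) ∨ (a = 1 ∧ b = 0) := by omega
    rcases h4 with ⟨h5, h6⟩ | ⟨h5, h6⟩
    · rw [h5, h6]
      simp [D]
    · rw [h5, h6]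
      simp [D]

/-- the witnesses which are not excluded -/
def K (A : Fin 3 → Finset Pl) (z : Sp) : Set Pl := {w | Wit A z w ∧ ¬ (w = 0 ∧ z ∈ oct)}

theorem K_fin (h6 : StmtSFin) {A : Fin 3 → Finset Pl} (hA : Gen A) (z : Sp) : (K A z).Finite :=
  (h6 A hA z).subset fun _ hw => hw.1

theorem k_eq (h6 : StmtSFin) (h7 : StmtCLdef) {A : Fin 3 → Finset Pl} (hA : Gen A) (z : Sp) :
    ({w | Wit A z w}.ncard : ℤ) - (al fun i => (A i).card) * ind oct z = ((K A z).ncard : ℤ) := by
  by_cases hz : z ∈ oct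
  · rw [ind_mem hz, mul_one]
    have h0 : Wit A z 0 ↔ ∀ i, (A i).card ≠ 1 := by
      constructor
      · intro h i hi
        obtain ⟨_, h2⟩ := h i
        have hcl := (h7 A hA).1 i hi
        rcases h2 with h2 | h2
        · rw [hcl] at h2
          exact h2
        · have h3 := hz i
          rw [psi_zero (hA.ne i)] at h2
          linarith
      · intro h i
        refine ⟨?_, Or.inl ((h7 A hA).2.1 i (h i))⟩
        rw [psi_zero (hA.ne i)]
        exact (hz i).le
    have hK : K A z = {w | Wit A z w} \ {0} := by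
      ext w
      constructor
      · rintro ⟨h1, h2⟩
        exact ⟨h1, fun h3 => h2 ⟨h3, hz⟩⟩
      · rintro ⟨h1, h2⟩
        exact ⟨h1, fun h3 => h2 h3.1⟩
    by_cases hal : ∀ i, (A i).card ≠ 1
    · have h1 : (al fun i => (A i).card) = 1 := by
        unfold al
        rw [if_neg]
        rintro (h | h | h) <;> exact hal _ h
      have h2 : (0 : Pl) ∈ {w | Wit A z w} := h0.2 hal
      have h3 := Set.ncard_sdiff_singleton_add_one h2 (h6 A hA z)
      rw [hK, h1]
      push_cast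
      omega
    · have h1 : (al fun i => (A i).card) = 0 := by
        unfold al
        rw [if_pos]
        push Not at hal
        obtain ⟨i, hi⟩ := hal
        fin_cases i
        · exact Or.inl hi
        · exact Or.inr (Or.inl hi)
        · exact Or.inr (Or.inr hi)
      have h2 : (0 : Pl) ∉ {w | Wit A z w} := fun h => hal (h0.1 h)
      rw [hK, Set.sdiff_singleton_eq_self h2, h1]
      simp
  · rw [ind_notMem hz, mul_zero, sub_zero]
    have hK : K A z = {w | Wit A z w} := by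
      ext w
      constructor
      · exact fun h => h.1
      · exact fun h => ⟨h, fun h3 => hz h3.2⟩
    rw [hK]

theorem k_zero (h4 : StmtPair) {A : Fin 3 → Finset Pl} (hA : Gen A) : (K A 0).ncard = 1 := by
  have h1 : K A 0 = {0} := by
    ext w
    constructor
    · exact fun h => (h4 A hA).2.2 w h.1
    · intro h
      have h2 : w = 0 := h
      rw [h2]
      refine ⟨fun i => ?_, fun h3 => ?_⟩
      · rw [psi_zero (hA.ne i)]
        exact ⟨le_rfl, Or.inr rfl⟩
      · exact lt_irrefl _ (h3.2 0)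
  rw [h1, Set.ncard_singleton]

theorem trop_iff (h6 : StmtSFin) {A : Fin 3 → Finset Pl} (hA : Gen A) {M : Finset Sp}
    (hM : trop M = Gam A) (z : Sp) : z ∈ trop M ↔ (K A z).ncard ≠ 0 := by
  rw [hM, ← Nat.pos_iff_ne_zero, Set.ncard_pos (K_fin h6 hA z)]
  exact Iff.rfl

theorem q_eq {A : Fin 3 → Finset Pl} (hQ : (QN A).Finite) (z : Sp) :
    (∑ y ∈ hQ.toFinset, ind (ray (zeta A y))) z =
      ({y | y ∈ QN A ∧ z ∈ ray (zeta A y)}.ncard : ℤ) := by
  classical
  have h1 : {y | y ∈ QN A ∧ z ∈ ray (zeta A y)} =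
      ((hQ.toFinset.filter fun y => z ∈ ray (zeta A y) : Finset (Pl × Pl)) : Set (Pl × Pl)) := by
    ext y
    rw [Finset.mem_coe, Finset.mem_filter, Set.Finite.mem_toFinset]
    exact Iff.rfl
  rw [h1, Set.ncard_coe_finset, Finset.card_filter, Finset.sum_apply]
  push_cast
  refine Finset.sum_congr rfl fun y _ => ?_
  by_cases h : z ∈ ray (zeta A y)
  · rw [ind_mem h, if_pos h]
  · rw [ind_notMem h, if_neg h]

theorem ray_iff {a z : Sp} {t : ℝ} (ht : 0 < t) : t • z ∈ ray a ↔ z ∈ ray a := by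
  constructor
  · rintro ⟨s, hs, h⟩
    refine ⟨t⁻¹ * s, by positivity, ?_⟩
    rw [mul_smul, ← h, smul_smul, inv_mul_cancel₀ ht.ne', one_smul]
  · rintro ⟨s, hs, h⟩
    exact ⟨t * s, by positivity, by rw [mul_smul, ← h]⟩

theorem ray_unit {u z : Sp} (hu : ‖u‖ = 1) : z ∈ ray u ↔ z ≠ 0 ∧ u = ‖z‖⁻¹ • z := by
  have hu0 : u ≠ 0 := by
    rintro rfl
    simp at hu
  constructor
  · rintro ⟨t, ht, rfl⟩
    have h1 : ‖t • u‖ = t := by
      rw [norm_smul, hu, mul_one, Real.norm_eq_abs, abs_of_pos ht]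
    refine ⟨smul_ne_zero ht.ne' hu0, ?_⟩
    rw [h1, smul_smul, inv_mul_cancel₀ ht.ne', one_smul]
  · rintro ⟨hz, h⟩
    have h1 : 0 < ‖z‖ := norm_pos_iff.2 hz
    refine ⟨‖z‖, h1, ?_⟩
    rw [h, smul_smul, mul_inv_cancel₀ h1.ne', one_smul]

end R3N

open R3N in
theorem tR3 (h1 : StmtTropR) (h2 : StmtWNum) (h3 : StmtPNum) (h4 : StmtPair) (h5 : StmtQFin)
    (h6 : StmtSFin) (h7 : StmtCLdef) : StmtR3 := by
  classical
  intro E3 E2 A hA M hM hMA
  have hQ : (QN A).Finite := h5 A hA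
  set a : ℤ := ((al fun i => (A i).card : ℕ) : ℤ) with ha
  set q : Sp → ℤ := ∑ y ∈ hQ.toFinset, ind (ray (zeta A y)) with hq
  have hz0 : ∀ y ∈ QN A, zeta A y ≠ 0 := fun y hy => ((h4 A hA).2.1 y hy.1).2.2.2.2
  -- the integrals
  have r1 : E3.rel (fun z => 2 * ind (trop M) z) (2 * ((nv M : ℤ) - 1)) :=
    E3.toEul.zsmul 2 (h1 E3 M hM)
  have r2 : E3.rel (fun z => 2 * ({w | Wit A z w}.ncard : ℤ)) (2 * (a3 (A 0) (A 1) (A 2) : ℤ)) :=
    E3.toEul.zsmul 2 (h2 E3 E2 A hA)
  have r3 : E3.rel (fun z => (2 * a) * ind oct z) ((2 * a) * (-1) ^ 3) := by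
    refine E3.toEul.zsmul (2 * a) (E3.opn oct ?_ ?_ ⟨fun _ => 1, fun i => one_pos⟩)
    · have h8 : oct = ⋂ i : Fin 3, {z : Sp | 0 < z i} := by
        ext z
        rw [Set.mem_iInter]
        exact Iff.rfl
      rw [h8]
      exact isOpen_iInter_of_finite fun i => isOpen_lt continuous_const (continuous_apply i)
    · intro x hx y hy s t hs ht hst i
      have h8 : (s • x + t • y) i = s * x i + t * y i := rfl
      rw [h8]
      rcases hs.lt_or_eq with h9 | h9
      · have h10 := mul_pos h9 (hx i)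
        have h11 := mul_nonneg ht (hy i).le
        linarith
      · have h10 : t = 1 := by linarith
        rw [← h9, h10]
        have := hy i
        linarith
  have r4 : E3.rel q (∑ _y ∈ hQ.toFinset, (-1 : ℤ)) := by
    refine E3.toEul.sum hQ.toFinset _ (fun _ => -1) fun y hy => E3.ry _ (hz0 y ?_)
    exact hQ.mem_toFinset.1 hy
  set δ : Sp → ℤ := (fun z => 2 * ind (trop M) z) - (fun z => 2 * ({w | Wit A z w}.ncard : ℤ)) +
    (fun z => (2 * a) * ind oct z) + q with hδ
  have r5 : E3.rel δ (2 * ((nv M : ℤ) - 1) - 2 * (a3 (A 0) (A 1) (A 2) : ℤ) + (2 * a) * (-1) ^ 3 +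
      ∑ _y ∈ hQ.toFinset, (-1 : ℤ)) :=
    E3.add _ _ _ _ (E3.add _ _ _ _ (E3.toEul.sub r1 r2) r3) r4
  -- the values
  have hval : ∀ z, δ z = 2 * ind (trop M) z - 2 * ((K A z).ncard : ℤ) + q z := by
    intro z
    have h8 : δ z = 2 * ind (trop M) z - 2 * ({w | Wit A z w}.ncard : ℤ) +
      (2 * a) * ind oct z + q z := rfl
    rw [h8, ← k_eq h6 h7 hA z, ← ha]
    ring
  have hval0 : δ 0 = 0 := by
    have h8 : (0 : Sp) ∈ trop M := (trop_iff h6 hA hMA 0).2 (by rw [k_zero h4 hA]; exact one_ne_zero)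
    have h9 : q 0 = 0 := by
      rw [hq, Finset.sum_apply]
      refine Finset.sum_eq_zero fun y hy => ind_notMem ?_
      rintro ⟨t, ht, h⟩
      rcases smul_eq_zero.1 h.symm with h10 | h10
      · exact ht.ne' h10
      · exact hz0 y (hQ.mem_toFinset.1 hy) h10
    rw [hval, ind_mem h8, k_zero h4 hA, h9]
    norm_num
  have hq1 : ∀ z, z ≠ 0 → ((K A z).ncard : ℤ) * ((K A z).ncard - 1) = q z := by
    intro z hz
    rw [hq, q_eq hQ z]
    exact h3 A hA z hz
  have hval1 : ∀ z, z ≠ 0 → δ z = D (K A z).ncard := by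
    intro z hz
    rw [hval, ← hq1 z hz]
    unfold D
    by_cases h8 : (K A z).ncard = 0
    · rw [if_pos h8, ind_notMem (fun h => (trop_iff h6 hA hMA z).1 h h8), h8]
      norm_num
    · rw [if_neg h8, ind_mem ((trop_iff h6 hA hMA z).2 h8)]
      ring
  have hhom : ∀ z, z ≠ 0 → δ (‖z‖⁻¹ • z) = δ z := by
    intro z hz
    have h8 : 0 < ‖z‖⁻¹ := inv_pos.2 (norm_pos_iff.2 hz)
    have h9 : ‖z‖⁻¹ • z ≠ 0 := smul_ne_zero h8.ne' hz
    rw [hval1 z hz, hval1 _ h9]
    apply D_congr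
    rw [hq1 z hz, hq1 _ h9, hq, q_eq hQ, q_eq hQ]
    congr 2
    ext y
    constructor
    · exact fun h => ⟨h.1, (ray_iff h8).1 h.2⟩
    · exact fun h => ⟨h.1, (ray_iff h8).2 h.2⟩
  have hray : ∀ z, δ z ≠ 0 → ∃ y ∈ QN A, z ∈ ray (zeta A y) := by
    intro z hz
    have hz' : z ≠ 0 := by
      rintro rfl
      exact hz hval0
    by_contra hcon
    apply hz
    have h8 : q z = 0 := by
      rw [hq, Finset.sum_apply]
      refine Finset.sum_eq_zero fun y hy => ind_notMem fun h => hcon ⟨y, hQ.mem_toFinset.1 hy, h⟩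
    have h9 : D (K A z).ncard = D 0 := by
      apply D_congr
      rw [hq1 z hz', h8]
      norm_num
    rw [hval1 z hz', h9]
    simp [D]
  -- the decomposition
  set N : Finset Sp := hQ.toFinset.image fun y => ‖zeta A y‖⁻¹ • zeta A y with hN
  have hN1 : ∀ u ∈ N, ‖u‖ = 1 := by
    intro u hu
    obtain ⟨y, hy, rfl⟩ := Finset.mem_image.1 hu
    have h8 := hz0 y (hQ.mem_toFinset.1 hy)
    rw [norm_smul, norm_inv, norm_norm, inv_mul_cancel₀ (norm_ne_zero_iff.2 h8)]
  have hdec : δ = ∑ u ∈ N, fun z => δ u * ind (ray u) z := by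
    funext z
    rw [Finset.sum_apply]
    by_cases hz : z = 0
    · rw [hz, hval0]
      symm
      refine Finset.sum_eq_zero fun u hu => ?_
      rw [ind_notMem, mul_zero]
      intro h
      exact ((ray_unit (hN1 u hu)).1 h).1 rfl
    · by_cases hu : ‖z‖⁻¹ • z ∈ N
      · rw [Finset.sum_eq_single_of_mem _ hu]
        · rw [ind_mem ((ray_unit (hN1 _ hu)).2 ⟨hz, rfl⟩), mul_one, hhom z hz]
        · intro u hu' hne
          rw [ind_notMem, mul_zero]
          intro h
          exact hne ((ray_unit (hN1 u hu')).1 h).2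
      · rw [Finset.sum_eq_zero]
        · by_contra hne
          obtain ⟨y, hy, t, ht, h⟩ := hray z hne
          apply hu
          rw [hN]
          refine Finset.mem_image.2 ⟨y, hQ.mem_toFinset.2 hy, ?_⟩
          rw [h, norm_smul, smul_smul, Real.norm_eq_abs, abs_of_pos ht, mul_inv, mul_comm t⁻¹,
            mul_assoc, inv_mul_cancel₀ ht.ne', mul_one]
        · intro u hu'
          rw [ind_notMem, mul_zero]
          intro h
          apply hu
          rw [← ((ray_unit (hN1 u hu')).1 h).2]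
          exact hu'
  have r6 : E3.rel δ (∑ u ∈ N, δ u * (-1)) := by
    rw [hdec]
    have h8 := E3.toEul.sum N (fun u z => δ u * ind (ray u) z) (fun u => δ u * (-1)) fun u hu =>
      E3.toEul.zsmul (δ u) (E3.ry u (by
        rintro rfl
        have := hN1 0 hu
        simp at this))
    rw [← hdec] at h8 ⊢
    exact h8
  have h8 := E3.uniq _ _ _ r5 r6
  have h9 : ∑ u ∈ N, δ u * (-1) ≤ 0 := by
    refine Finset.sum_nonpos fun u hu => ?_
    have h10 : u ≠ 0 := by
      rintro rfl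
      have := hN1 0 hu
      simp at this
    have h11 := D_nonneg (K A u).ncard
    rw [← hval1 u h10] at h11
    linarith
  have h10 : ∑ _y ∈ hQ.toFinset, (-1 : ℤ) = -((QN A).ncard : ℤ) := by
    rw [Finset.sum_const, Set.ncard_eq_toFinset_card _ hQ]
    simp
  rw [h10] at h8
  have h11 : (2 * a) * (-1 : ℤ) ^ 3 = -(2 * a) := by ring
  rw [h11] at h8
  linarith

end Pool.Agent.Lib.MP_4e7804_co.N3
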