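import Pool.Agent.Lib.MP_4e7804_co.N3.Spec

/-!
# R4: the integral of the triple intersection of the sets `EE`
-/

set_option autoImplicit false

namespace Pool.Agent.Lib.MP_4e7804_co.N3

namespace R4N

theorem neg_one_sq' : ((-1 : ℤ)) ^ 2 = 1 := by norm_num

theorem rel_one (E : EulD Pl 2) : E.rel (fun _ => 1) 1 := by
  have h := E.opn Set.univ isOpen_univ convex_univ Set.univ_nonempty
  rw [neg_one_sq'] at h
  have e : (fun _ : Pl => (1 : ℤ)) = ind Set.univ := by
    funext x
    exact (ind_mem (Set.mem_univ x)).symm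
  rw [e]
  exact h

theorem diag (E : EulD Pl 2) : (E.prod E).rel (ind {x : Pl × Pl | x.1 = x.2}) 1 := by
  refine ⟨fun _ => 1, fun a => ?_, rel_one E⟩
  have h2 : (fun b => ind {x : Pl × Pl | x.1 = x.2} (a, b)) = ind {a} := by
    funext b
    refine ind_congr ?_
    rw [Set.mem_singleton_iff]
    exact eq_comm
  rw [h2]
  exact E.pt a

variable {A : Fin 3 → Finset Pl}

theorem Apos_open (h : ∀ i, (A i).Nonempty) : IsOpen (Apos A) := by
  have e : Apos A = ⋂ i, {w | 0 < psi (A i) w} := by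
    ext w
    simp [Apos]
  rw [e]
  exact isOpen_iInter_of_finite fun i => isOpen_lt continuous_const (psi_cont (h i))

theorem Apos_convex (h : ∀ i, (A i).Nonempty) : Convex ℝ (Apos A) := by
  intro x hx y hy a b ha hb hab i
  have h1 := psi_concave (h i) x y ha hb
  have h2 := hx i
  have h3 := hy i
  rcases ha.lt_or_eq with h4 | h4
  · have h5 := mul_pos h4 h2
    have h6 := mul_nonneg hb h3.le
    linarith
  · have hb1 : b = 1 := by linarith
    subst h4
    rw [hb1] at h1 ⊢
    linarith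

open Classical in
theorem part1 (E : EulD Pl 2) (h : ∀ i, (A i).Nonempty) :
    (E.prod E).rel (ind {x : Pl × Pl | x.1 = 0 ∧ x.2 ∈ Apos A})
      (if (Apos A).Nonempty then 1 else 0) := by
  by_cases hne : (Apos A).Nonempty
  · rw [if_pos hne]
    refine ⟨ind {0}, fun a => ?_, E.pt 0⟩
    by_cases ha : a = 0
    · subst ha
      have h1 : ind {(0 : Pl)} 0 = 1 := ind_mem (Set.mem_singleton _)
      rw [h1]
      have h2 : (fun b => ind {x : Pl × Pl | x.1 = 0 ∧ x.2 ∈ Apos A} (0, b)) = ind (Apos A) := by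
        funext b
        exact ind_congr ⟨fun h => h.2, fun h => ⟨rfl, h⟩⟩
      rw [h2]
      have h3 := E.opn (Apos A) (Apos_open h) (Apos_convex h) hne
      rwa [neg_one_sq'] at h3
    · have h1 : ind {(0 : Pl)} a = 0 := ind_notMem (by simpa using ha)
      rw [h1]
      have h2 : (fun b => ind {x : Pl × Pl | x.1 = 0 ∧ x.2 ∈ Apos A} (a, b)) = 0 := by
        funext b
        exact ind_notMem fun h => ha h.1
      rw [h2]
      exact E.zero
  · rw [if_neg hne]
    have h2 : ind {x : Pl × Pl | x.1 = 0 ∧ x.2 ∈ Apos A} = 0 := by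
      funext x
      exact ind_notMem fun h => hne ⟨_, h.2⟩
    rw [h2]
    exact (E.prod E).zero

open Classical in
theorem part2 (E : EulD Pl 2) (h : ∀ i, (A i).Nonempty) :
    (E.prod E).rel (ind {x : Pl × Pl | x.2 = 0 ∧ x.1 ∈ Apos A})
      (if (Apos A).Nonempty then 1 else 0) := by
  by_cases hne : (Apos A).Nonempty
  · rw [if_pos hne]
    refine ⟨ind (Apos A), fun a => ?_, ?_⟩
    · by_cases ha : a ∈ Apos A
      · have h1 : ind (Apos A) a = 1 := ind_mem ha
        rw [h1]
        have h2 : (fun b => ind {x : Pl × Pl | x.2 = 0 ∧ x.1 ∈ Apos A} (a, b)) = ind {0} := by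
          funext b
          exact ind_congr ⟨fun h => h.1, fun h => ⟨h, ha⟩⟩
        rw [h2]
        exact E.pt 0
      · have h1 : ind (Apos A) a = 0 := ind_notMem ha
        rw [h1]
        have h2 : (fun b => ind {x : Pl × Pl | x.2 = 0 ∧ x.1 ∈ Apos A} (a, b)) = 0 := by
          funext b
          exact ind_notMem fun h => ha h.2
        rw [h2]
        exact E.zero
    · have h3 := E.opn (Apos A) (Apos_open h) (Apos_convex h) hne
      rwa [neg_one_sq'] at h3
  · rw [if_neg hne]
    have h2 : ind {x : Pl × Pl | x.2 = 0 ∧ x.1 ∈ Apos A} = 0 := by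
      funext x
      exact ind_notMem fun h => hne ⟨_, h.2⟩
    rw [h2]
    exact (E.prod E).zero

theorem EE_smul {B : Finset Pl} (hB : B.Nonempty) {t : ℝ} (ht : 0 < t) {x : Pl × Pl}
    (hx : x ∈ EE B) : t • x ∈ EE B := by
  rw [EE_iff hB] at hx ⊢
  have e1 : (t • x).1 = t • x.1 := rfl
  have e2 : (t • x).2 = t • x.2 := rfl
  rw [e1, e2, psi_smul hB x.1 ht.le, psi_smul hB x.2 ht.le]
  rcases hx with h | ⟨h, h'⟩ | ⟨h, h'⟩
  · exact Or.inl (by rw [h])
  · exact Or.inr (Or.inl ⟨mul_lt_mul_of_pos_left h ht, CL_smul hB ht.le h'⟩)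
  · exact Or.inr (Or.inr ⟨mul_lt_mul_of_pos_left h ht, CL_smul hB ht.le h'⟩)

theorem Apos_of_smul (h : ∀ i, (A i).Nonempty) {t : ℝ} (ht : 0 < t) {w : Pl}
    (hw : t • w ∈ Apos A) : w ∈ Apos A := by
  intro i
  have h1 := hw i
  rw [psi_smul (h i) w ht.le] at h1
  exact (mul_pos_iff_of_pos_left ht).1 h1

theorem QQ_smul (h : ∀ i, (A i).Nonempty) {t : ℝ} (ht : 0 < t) {x : Pl × Pl} (hx : x ∈ QQ A) :
    t • x ∈ QQ A := by
  obtain ⟨h1, h2, h3, h4⟩ := hx
  refine ⟨fun i => EE_smul (h i) ht (h1 i), ?_, ?_, ?_⟩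
  · intro he
    exact h2 (smul_right_injective Pl ht.ne' he)
  · rintro ⟨ha, hb⟩
    exact h3 ⟨(smul_eq_zero.1 ha).resolve_left ht.ne', Apos_of_smul h ht hb⟩
  · rintro ⟨ha, hb⟩
    exact h4 ⟨(smul_eq_zero.1 ha).resolve_left ht.ne', Apos_of_smul h ht hb⟩

end R4N

open R4N in
theorem tR4 (h1 : StmtEDec) (h2 : StmtQFin) (h3 : StmtCone) : StmtR4 := by
  classical
  intro E A hA
  rw [h1 A hA]
  have hQ : (E.prod E).rel (ind (QQ A)) (-((QN A).ncard : ℤ)) := by
    refine h3 (Pl × Pl) inferInstance inferInstance (2 + 2) (E.prod E) (QQ A) ?_ ?_ (h2 A hA)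
    · rintro ⟨_, h, _⟩
      exact h rfl
    · intro x hx t ht
      exact QQ_smul hA.ne ht hx
  have hP := (E.prod E).add _ _ _ _ (part1 E hA.ne) (part2 E hA.ne)
  have hP' := (E.prod E).zsmul (al fun i => (A i).card : ℤ) hP
  have hS := (E.prod E).add _ _ _ _ ((E.prod E).add _ _ _ _ (diag E) hQ) hP'
  have hv : (1 + -((QN A).ncard : ℤ)) + ((al fun i => (A i).card : ℕ) : ℤ) *
      ((if (Apos A).Nonempty then 1 else 0) + (if (Apos A).Nonempty then 1 else 0)) =
      1 + 2 * be A - ((QN A).ncard : ℤ) := by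
    have hb : (be A : ℤ) = ((al fun i => (A i).card : ℕ) : ℤ) *
        (if (Apos A).Nonempty then 1 else 0) := by
      unfold be al
      by_cases hc : ∀ i, (A i).card ≠ 1
      · have hc' : ¬ ((A 0).card = 1 ∨ (A 1).card = 1 ∨ (A 2).card = 1) := by
          rintro (h | h | h)
          · exact hc 0 h
          · exact hc 1 h
          · exact hc 2 h
        rw [if_neg hc']
        by_cases hn : (Apos A).Nonempty
        · rw [if_pos ⟨hc, hn⟩, if_pos hn]
          norm_num
        · rw [if_neg fun h => hn h.2, if_neg hn]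
          norm_num
      · have hc' : (A 0).card = 1 ∨ (A 1).card = 1 ∨ (A 2).card = 1 := by
          by_contra h'
          apply hc
          intro i hi
          fin_cases i
          · exact h' (Or.inl hi)
          · exact h' (Or.inr (Or.inl hi))
          · exact h' (Or.inr (Or.inr hi))
        rw [if_pos hc', if_neg fun h => hc h.1]
        norm_num
    rw [hb]
    ring
  rw [← hv]
  exact hS

end Pool.Agent.Lib.MP_4e7804_co.N3
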