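import Pool.Agent.Lib.MP_4e7804_co.N3.Spec

/-!
# n = 3: the Euler integral of the incidence set of points and witnesses
-/

set_option autoImplicit false

namespace Pool.Agent.Lib.MP_4e7804_co.N3

namespace R5N

/-- the family with the whole space as an additional member -/
def opt {ι α : Type*} (U : ι → Set α) : Option ι → Set α := fun o => o.elim Set.univ U

open Classical in
/-- `1` or `0` -/
noncomputable def ch (P : Prop) : ℕ := if P then 1 else 0

theorem ch_true {P : Prop} (h : P) : ch P = 1 := if_pos h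

theorem ch_congr {P Q : Prop} (h : P ↔ Q) : ch P = ch Q := congrArg ch (propext h)

theorem n1_ch {ι α : Type*} (A : Finset ι) (U : ι → Set α) :
    n1 A U = ∑ x ∈ A, ch (U x).Nonempty := by
  unfold n1
  rw [Finset.card_filter]
  rfl

theorem n2_ch {ι κ α : Type*} (A : Finset ι) (B : Finset κ) (U : ι → Set α) (V : κ → Set α) :
    n2 A B U V = ∑ x ∈ A, ∑ y ∈ B, ch (U x ∩ V y).Nonempty := by
  unfold n2
  rw [Finset.card_filter, Finset.sum_product]
  rfl

theorem n3_ch {ι κ μ α : Type*} (A : Finset ι) (B : Finset κ) (C : Finset μ) (U : ι → Set α)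
    (V : κ → Set α) (W : μ → Set α) :
    n3 A B C U V W = ∑ x ∈ A, ∑ y ∈ B, ∑ z ∈ C, ch (U x ∩ V y ∩ W z).Nonempty := by
  unfold n3
  rw [Finset.card_filter, Finset.sum_product]
  refine Finset.sum_congr rfl fun x _ => ?_
  rw [Finset.sum_product]
  rfl

theorem sum_ch {ι α : Type*} (A : Finset ι) (U : ι → Set α) (hU : ∀ p ∈ A, (U p).Nonempty) :
    ∑ x ∈ A, ch (U x).Nonempty = A.card := by
  rw [Finset.card_eq_sum_ones]
  exact Finset.sum_congr rfl fun q hq => ch_true (hU q hq)

theorem n1_opt {ι α : Type*} [Nonempty α] (A : Finset ι) (U : ι → Set α)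
    (hU : ∀ p ∈ A, (U p).Nonempty) :
    n1 (Finset.insertNone A) (opt U) = A.card + 1 := by
  rw [n1_ch, Finset.sum_insertNone]
  simp only [opt, Option.elim_none, Option.elim_some]
  rw [sum_ch A U hU, ch_true Set.univ_nonempty, add_comm]

theorem n2_opt {ι κ α : Type*} [Nonempty α] (A : Finset ι) (B : Finset κ) (U : ι → Set α)
    (V : κ → Set α) (hU : ∀ p ∈ A, (U p).Nonempty) (hV : ∀ q ∈ B, (V q).Nonempty) :
    n2 (Finset.insertNone A) (Finset.insertNone B) (opt U) (opt V) =
      n2 A B U V + A.card + B.card + 1 := by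
  rw [n2_ch, n2_ch]
  simp only [Finset.sum_insertNone, opt, Option.elim_none, Option.elim_some, Set.univ_inter,
    Set.inter_univ, Finset.sum_add_distrib]
  rw [sum_ch A U hU, sum_ch B V hV, ch_true Set.univ_nonempty]
  ring

theorem n3_opt {ι κ μ α : Type*} [Nonempty α] (A : Finset ι) (B : Finset κ) (C : Finset μ)
    (U : ι → Set α) (V : κ → Set α) (W : μ → Set α) (hU : ∀ p ∈ A, (U p).Nonempty)
    (hV : ∀ q ∈ B, (V q).Nonempty) (hW : ∀ q ∈ C, (W q).Nonempty) :
    n3 (Finset.insertNone A) (Finset.insertNone B) (Finset.insertNone C) (opt U) (opt V) (opt W) =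
      n3 A B C U V W + (n2 A B U V + n2 A C U W + n2 B C V W) +
        (A.card + B.card + C.card) + 1 := by
  rw [n3_ch, n3_ch, n2_ch, n2_ch, n2_ch]
  simp only [Finset.sum_insertNone, opt, Option.elim_none, Option.elim_some, Set.univ_inter,
    Set.inter_univ, Finset.sum_add_distrib]
  rw [sum_ch A U hU, sum_ch B V hV, sum_ch C W hW, ch_true Set.univ_nonempty]
  ring

/-- the cells in `ℝ³ × ℝ²` -/
def U (A : Fin 3 → Finset Pl) (i : Fin 3) (o : Option Pl) : Set (Sp × Pl) :=
  o.elim {y | y.1 i < psi (A i) y.2} fun p => {y | y.2 ∈ NC (A i) p ∧ dt p y.2 < y.1 i}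

theorem U_ne (A : Fin 3 → Finset Pl) (c : Fin 3 → Option Pl) (w : Pl)
    (h : ∀ i, w ∈ opt (NC (A i)) (c i)) :
    ∃ z : Sp, ∀ i, (z, w) ∈ U A i (c i) := by
  refine ⟨fun i => (c i).elim (psi (A i) w - 1) fun p => dt p w + 1, fun i => ?_⟩
  have hi := h i
  rcases hc : c i with _ | p
  · change (c i).elim (psi (A i) w - 1) (fun p => dt p w + 1) < psi (A i) w
    rw [hc]
    simp
  · rw [hc] at hi
    refine ⟨hi, ?_⟩
    change dt p w < (c i).elim (psi (A i) w - 1) (fun p => dt p w + 1)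
    rw [hc]
    simp

theorem U_snd (A : Fin 3 → Finset Pl) (i : Fin 3) (o : Option Pl) (y : Sp × Pl)
    (h : y ∈ U A i o) : y.2 ∈ opt (NC (A i)) o := by
  rcases o with _ | p
  · trivial
  · exact h.1

theorem U_one (A : Fin 3 → Finset Pl) (i : Fin 3) (a : Option Pl) :
    (U A i a).Nonempty ↔ (opt (NC (A i)) a).Nonempty := by
  constructor
  · rintro ⟨y, hy⟩
    exact ⟨y.2, U_snd A i a y hy⟩
  · rintro ⟨w, hw⟩
    obtain ⟨z, hz⟩ := U_ne A (fun k => if k = i then a else none) w (by
      intro k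
      by_cases hk : k = i
      · subst hk
        simpa using hw
      · simp only [if_neg hk]
        trivial)
    refine ⟨(z, w), ?_⟩
    simpa using hz i

theorem U_two (A : Fin 3 → Finset Pl) (i j : Fin 3) (hij : i ≠ j) (a b : Option Pl) :
    (U A i a ∩ U A j b).Nonempty ↔ (opt (NC (A i)) a ∩ opt (NC (A j)) b).Nonempty := by
  constructor
  · rintro ⟨y, hy, hy'⟩
    exact ⟨y.2, U_snd A i a y hy, U_snd A j b y hy'⟩
  · rintro ⟨w, hw, hw'⟩
    obtain ⟨z, hz⟩ := U_ne A (fun k => if k = i then a else if k = j then b else none) w (by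
      intro k
      by_cases hk : k = i
      · subst hk
        simpa using hw
      · by_cases hk' : k = j
        · subst hk'
          simpa [hk] using hw'
        · simp only [if_neg hk, if_neg hk']
          trivial)
    refine ⟨(z, w), ?_, ?_⟩
    · simpa using hz i
    · simpa [hij.symm] using hz j

theorem U_three (A : Fin 3 → Finset Pl) (a b c : Option Pl) :
    (U A 0 a ∩ U A 1 b ∩ U A 2 c).Nonempty ↔
      (opt (NC (A 0)) a ∩ opt (NC (A 1)) b ∩ opt (NC (A 2)) c).Nonempty := by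
  constructor
  · rintro ⟨y, ⟨hy, hy'⟩, hy''⟩
    exact ⟨y.2, ⟨U_snd A 0 a y hy, U_snd A 1 b y hy'⟩, U_snd A 2 c y hy''⟩
  · rintro ⟨w, ⟨hw, hw'⟩, hw''⟩
    obtain ⟨z, hz⟩ := U_ne A ![a, b, c] w (by
      intro k
      fin_cases k
      · exact hw
      · exact hw'
      · exact hw'')
    exact ⟨(z, w), ⟨hz 0, hz 1⟩, hz 2⟩

theorem U_open (A : Fin 3 → Finset Pl) (i : Fin 3) (hA : (A i).Nonempty) (o : Option Pl) :
    IsOpen (U A i o) := by
  have hc : Continuous fun y : Sp × Pl => y.1 i := (continuous_apply i).comp continuous_fst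
  rcases o with _ | p
  · exact isOpen_lt hc ((psi_cont hA).comp continuous_snd)
  · exact ((NC_open (A i) p).preimage continuous_snd).inter
      (isOpen_lt ((dt_cont p).comp continuous_snd) hc)

theorem lt_comb {a b x y u v : ℝ} (ha : 0 ≤ a) (hb : 0 ≤ b) (hab : a + b = 1) (h1 : x < u)
    (h2 : y < v) : a * x + b * y < a * u + b * v := by
  rcases ha.lt_or_eq with h | h
  · have h3 := mul_lt_mul_of_pos_left h1 h
    have h4 := mul_le_mul_of_nonneg_left h2.le hb
    linarith
  · have hb1 : b = 1 := by linarith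
    subst h
    rw [hb1]
    linarith

theorem U_convex (A : Fin 3 → Finset Pl) (i : Fin 3) (hA : (A i).Nonempty) (o : Option Pl) :
    Convex ℝ (U A i o) := by
  rcases o with _ | p
  · intro x hx y hy a b ha hb hab
    have hx' : x.1 i < psi (A i) x.2 := hx
    have hy' : y.1 i < psi (A i) y.2 := hy
    change a * x.1 i + b * y.1 i < psi (A i) (a • x.2 + b • y.2)
    exact (lt_comb ha hb hab hx' hy').trans_le (psi_concave hA x.2 y.2 ha hb)
  · rintro x ⟨hx, hx'⟩ y ⟨hy, hy'⟩ a b ha hb hab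
    refine ⟨NC_convex (A i) p hx hy ha hb hab, ?_⟩
    change dt p (a • x.2 + b • y.2) < a * x.1 i + b * y.1 i
    rw [dt_add, dt_smul, dt_smul]
    exact lt_comb ha hb hab hx' hy'

theorem U_disj (A : Fin 3 → Finset Pl) (i : Fin 3) (a b : Option Pl)
    (ha : a ∈ Finset.insertNone (A i)) (hb : b ∈ Finset.insertNone (A i)) (hab : a ≠ b) :
    Disjoint (U A i a) (U A i b) := by
  rw [Set.disjoint_left]
  intro y hy hy'
  rcases a with _ | p
  · rcases b with _ | q
    · exact hab rfl
    · have hq : q ∈ A i := by simpa using hb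
      have h1 : y.1 i < psi (A i) y.2 := hy
      obtain ⟨h2, h3⟩ := hy'
      rw [psi_eq hq h2] at h1
      exact lt_asymm h1 h3
  · have hp : p ∈ A i := by simpa using ha
    rcases b with _ | q
    · have h1 : y.1 i < psi (A i) y.2 := hy'
      obtain ⟨h2, h3⟩ := hy
      rw [psi_eq hp h2] at h1
      exact lt_asymm h1 h3
    · have hq : q ∈ A i := by simpa using hb
      exact hab (congrArg some (NC_unique hp hq hy.1 hy'.1))

theorem compl_eq (A : Fin 3 → Finset Pl) :
    {y : Sp × Pl | ∀ i, ∀ k ∈ Finset.insertNone (A i), y ∉ U A i k} =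
      {y : Sp × Pl | Wit A y.1 y.2} := by
  ext y
  constructor
  · intro h i
    have h1 : psi (A i) y.2 ≤ y.1 i := not_lt.1 (h i none (by simp))
    refine ⟨h1, ?_⟩
    rcases mem_CL_or (A i) y.2 with h2 | ⟨p, hp, h2⟩
    · exact Or.inl h2
    · right
      have h3 := h i (some p) (by simpa using hp)
      rw [psi_eq hp h2] at h1 ⊢
      refine le_antisymm (not_lt.1 fun h4 => h3 ⟨h2, h4⟩) h1
  · intro h i k hk hy
    obtain ⟨h1, h2⟩ := h i
    rcases k with _ | p
    · exact not_lt.2 h1 hy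
    · have hp : p ∈ A i := by simpa using hk
      obtain ⟨h3, h4⟩ := hy
      rcases h2 with h2 | h2
      · exact h2 p hp h3
      · rw [psi_eq hp h3] at h2
        exact h4.ne' h2

end R5N

open R5N in
theorem tR5 (h1 : StmtIE) (_h2 : StmtA2) (_h3 : StmtA3) : StmtR5 := by
  intro E3 E2 A hA
  have hie := h1 (Sp × Pl) _ _ _ (3 + 2) (E3.prod E2) (Option Pl)
    (fun i => Finset.insertNone (A i)) (fun i => U A i)
    (fun i k _ => ⟨U_open A i (hA.ne i) k, U_convex A i (hA.ne i) k⟩)
    (fun i k hk l hl hkl => U_disj A i k l hk hl hkl)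
  rw [compl_eq A] at hie
  have e1 : ∀ i, n1 (Finset.insertNone (A i)) (U A i) = (A i).card + 1 := by
    intro i
    rw [← n1_opt (A i) (NC (A i)) (hA.vert i), n1_ch, n1_ch]
    exact Finset.sum_congr rfl fun x _ => ch_congr (U_one A i x)
  have e2 : ∀ i j, i ≠ j → n2 (Finset.insertNone (A i)) (Finset.insertNone (A j)) (U A i) (U A j) =
      a2 (A i) (A j) + (A i).card + (A j).card + 1 := by
    intro i j hij
    unfold a2
    rw [← n2_opt (A i) (A j) (NC (A i)) (NC (A j)) (hA.vert i) (hA.vert j), n2_ch, n2_ch]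
    exact Finset.sum_congr rfl fun x _ => Finset.sum_congr rfl fun y _ =>
      ch_congr (U_two A i j hij x y)
  have e3 : n3 (Finset.insertNone (A 0)) (Finset.insertNone (A 1)) (Finset.insertNone (A 2))
      (U A 0) (U A 1) (U A 2) = a3 (A 0) (A 1) (A 2) +
        (a2 (A 0) (A 1) + a2 (A 0) (A 2) + a2 (A 1) (A 2)) +
        ((A 0).card + (A 1).card + (A 2).card) + 1 := by
    unfold a3 a2
    rw [← n3_opt (A 0) (A 1) (A 2) (NC (A 0)) (NC (A 1)) (NC (A 2)) (hA.vert 0) (hA.vert 1)
      (hA.vert 2), n3_ch, n3_ch]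
    exact Finset.sum_congr rfl fun x _ => Finset.sum_congr rfl fun y _ =>
      Finset.sum_congr rfl fun z _ => ch_congr (U_three A x y z)
  rw [e1, e1, e1, e2 0 1 (by decide), e2 0 2 (by decide), e2 1 2 (by decide), e3] at hie
  convert hie using 1
  push_cast
  ring

end Pool.Agent.Lib.MP_4e7804_co.N3
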