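import Pool.Agent.Lib.MP_4e7804_co.N3.Spec2

/-!
# n = 3: rational approximation keeping integral relations
-/

set_option autoImplicit false

namespace Pool.Agent.Lib.MP_4e7804_co.N3

open MvPolynomial

theorem tRat : StmtRat := by
  intro n x ε hε
  classical
  set U : Submodule ℚ ℝ := Submodule.span ℚ (Set.range x) with hU
  have : FiniteDimensional ℚ U := FiniteDimensional.span_of_finite ℚ (Set.finite_range x)
  let b := Module.finBasis ℚ U
  let xi : Fin n → U := fun i => ⟨x i, Submodule.subset_span ⟨i, rfl⟩⟩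
  let c : Fin n → Fin (Module.finrank ℚ U) → ℚ := fun i j => b.repr (xi i) j
  have hx : ∀ i, x i = ∑ j, (c i j : ℝ) * (b j : ℝ) := by
    intro i
    have h1 : ∑ j, b.repr (xi i) j • b j = xi i := b.sum_repr (xi i)
    have h2 := congrArg (fun u : U => (u : ℝ)) h1
    simp only [AddSubmonoidClass.coe_finsetSum, SetLike.val_smul, Rat.smul_def] at h2
    exact h2.symm
  set M : ℝ := 1 + ∑ i, ∑ j, |(c i j : ℝ)| with hM
  have hM0 : 0 < M := by positivity
  have hδ : 0 < ε / M := div_pos hε hM0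
  have hb : ∀ j, ∃ r : ℚ, |(r : ℝ) - (b j : ℝ)| ≤ ε / M := by
    intro j
    obtain ⟨r, h1, h2⟩ := exists_rat_btwn (show (b j : ℝ) < (b j : ℝ) + ε / M by linarith)
    exact ⟨r, by rw [abs_le]; constructor <;> linarith⟩
  choose b' hb' using hb
  refine ⟨fun i => ∑ j, c i j * b' j, ?_, ?_⟩
  · intro i
    have h1 : ((∑ j, c i j * b' j : ℚ) : ℝ) - x i = ∑ j, (c i j : ℝ) * ((b' j : ℝ) - (b j : ℝ)) := by
      rw [hx i]
      push_cast
      rw [← Finset.sum_sub_distrib]
      exact Finset.sum_congr rfl fun j _ => by ring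
    rw [h1]
    have h2 : |∑ j, (c i j : ℝ) * ((b' j : ℝ) - (b j : ℝ))| ≤ (∑ j, |(c i j : ℝ)|) * (ε / M) := by
      refine (Finset.abs_sum_le_sum_abs _ _).trans ?_
      rw [Finset.sum_mul]
      refine Finset.sum_le_sum fun j _ => ?_
      rw [abs_mul]
      exact mul_le_mul_of_nonneg_left (hb' j) (abs_nonneg _)
    have h3 : ∑ j, |(c i j : ℝ)| < M := by
      have : ∑ j, |(c i j : ℝ)| ≤ ∑ i, ∑ j, |(c i j : ℝ)| :=
        Finset.single_le_sum (f := fun i => ∑ j, |(c i j : ℝ)|)
          (fun i _ => Finset.sum_nonneg fun j _ => abs_nonneg _) (Finset.mem_univ i)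
      rw [hM]
      linarith
    calc |∑ j, (c i j : ℝ) * ((b' j : ℝ) - (b j : ℝ))| ≤ (∑ j, |(c i j : ℝ)|) * (ε / M) := h2
      _ < M * (ε / M) := mul_lt_mul_of_pos_right h3 hδ
      _ = ε := by field_simp
  · intro m hm
    have h1 : ∑ i, (m i : ℚ) • xi i = 0 := by
      apply Subtype.ext
      simp only [AddSubmonoidClass.coe_finsetSum, SetLike.val_smul, Rat.smul_def]
      simpa [xi] using hm
    have h2 : ∀ j, ∑ i, (m i : ℚ) * c i j = 0 := by
      intro j
      have h3 := congrArg (fun u => b.repr u j) h1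
      simpa [c, Finsupp.finsetSum_apply] using h3
    calc ∑ i, (m i : ℚ) * ∑ j, c i j * b' j = ∑ j, (∑ i, (m i : ℚ) * c i j) * b' j := by
          simp only [Finset.mul_sum, Finset.sum_mul]
          rw [Finset.sum_comm]
          exact Finset.sum_congr rfl fun j _ => Finset.sum_congr rfl fun i _ => by ring
      _ = 0 := by simp [h2]

end Pool.Agent.Lib.MP_4e7804_co.N3
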