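import Pool.Agent.Lib.MP_4e7804_co.N3.Spec2

/-!
# n = 3: residues
-/

set_option autoImplicit false

namespace Pool.Agent.Lib.MP_4e7804_co.N3.ResN

section

variable {L : Type} [Field L] [Algebra ℂ L] (v : VF L)

theorem nm_one : v.nm 1 = 1 := by
  have h := v.triv 1 one_ne_zero
  rwa [map_one] at h

theorem nm_zero : v.nm 0 = 0 := (v.eq_zero 0).2 rfl

/-- the norm as a homomorphism -/
def hom : L →*₀ ℝ where
  toFun := v.nm
  map_zero' := nm_zero v
  map_one' := nm_one v
  map_mul' := v.mul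

theorem nm_pos {x : L} (hx : x ≠ 0) : 0 < v.nm x :=
  lt_of_le_of_ne (v.nonneg x) fun h => hx ((v.eq_zero x).1 h.symm)

theorem nm_zpow (x : L) (k : ℤ) : v.nm (x ^ k) = v.nm x ^ k := map_zpow₀ (hom v) x k

theorem nm_inv (x : L) : v.nm x⁻¹ = (v.nm x)⁻¹ := map_inv₀ (hom v) x

theorem nm_neg (x : L) : v.nm (-x) = v.nm x := by
  have h1 : v.nm (-1 : L) = 1 := by
    have h := v.triv (-1) (by norm_num)
    rwa [map_neg, map_one] at h
  rw [neg_eq_neg_one_mul, v.mul, h1, one_mul]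

theorem nm_algebraMap_le (c : ℂ) : v.nm (algebraMap ℂ L c) ≤ 1 := by
  by_cases h : c = 0
  · rw [h, map_zero, nm_zero]; norm_num
  · rw [v.triv c h]

/-- the valuation ring -/
def Osub : Subring L where
  carrier := {x | v.nm x ≤ 1}
  mul_mem' {a b} ha hb := by
    have h := v.mul a b
    show v.nm (a * b) ≤ 1
    rw [h]
    exact mul_le_one₀ ha (v.nonneg b) hb
  one_mem' := (nm_one v).le
  add_mem' {a b} ha hb := (v.add a b).trans (max_le ha hb)
  zero_mem' := by show v.nm 0 ≤ 1; rw [nm_zero]; norm_num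
  neg_mem' {x} hx := by show v.nm (-x) ≤ 1; rw [nm_neg]; exact hx

/-- the maximal ideal -/
def mI : Ideal (Osub v) where
  carrier := {x | v.nm (x : L) < 1}
  add_mem' {a b} ha hb := lt_of_le_of_lt (v.add a b) (max_lt ha hb)
  zero_mem' := by show v.nm 0 < 1; rw [nm_zero]; norm_num
  smul_mem' c x hx := by
    show v.nm ((c : L) * (x : L)) < 1
    rw [v.mul]
    exact lt_of_le_of_lt (mul_le_of_le_one_left (v.nonneg _) c.2) hx

theorem mI_maximal : (mI v).IsMaximal := by
  rw [Ideal.isMaximal_iff]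
  refine ⟨fun h => ?_, fun J x _ hx hxJ => ?_⟩
  · have h1 : v.nm (1 : L) < 1 := h
    rw [nm_one] at h1
    exact lt_irrefl _ h1
  · have h1 : ¬ v.nm (x : L) < 1 := hx
    have h2 : v.nm (x : L) = 1 := le_antisymm x.2 (not_lt.mp h1)
    have hx0 : (x : L) ≠ 0 := by
      intro h0
      rw [h0, nm_zero] at h2
      norm_num at h2
    have h3 : v.nm ((x : L)⁻¹) ≤ 1 := by rw [nm_inv, h2, inv_one]
    have h4 : (⟨(x : L)⁻¹, h3⟩ : Osub v) * x = 1 := by
      apply Subtype.ext
      exact inv_mul_cancel₀ hx0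
    rw [← h4]
    exact J.mul_mem_left _ hxJ

open Classical in
theorem exists_res : ∃ (Ω : Type) (_ : Field Ω) (_ : Algebra ℂ Ω) (_ : Algebra ℚ Ω) (res : L → Ω),
    (∀ x y, v.nm x ≤ 1 → v.nm y ≤ 1 → res (x + y) = res x + res y) ∧
    (∀ x y, v.nm x ≤ 1 → v.nm y ≤ 1 → res (x * y) = res x * res y) ∧
    (∀ x, v.nm x < 1 → res x = 0) ∧ (∀ x, v.nm x = 1 → res x ≠ 0) ∧
    (∀ c : ℂ, res (algebraMap ℂ L c) = algebraMap ℂ Ω c) := by
  have hmax := mI_maximal v
  let F : Field (Osub v ⧸ mI v) := Ideal.Quotient.field (mI v)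
  let g : ℂ →+* Osub v := (algebraMap ℂ L).codRestrict (Osub v) (fun c => nm_algebraMap_le v c)
  let A : Algebra ℂ (Osub v ⧸ mI v) := ((Ideal.Quotient.mk (mI v)).comp g).toAlgebra
  have hcz : CharZero (Osub v ⧸ mI v) :=
    charZero_of_injective_ringHom (algebraMap ℂ (Osub v ⧸ mI v)).injective
  let B : Algebra ℚ (Osub v ⧸ mI v) := DivisionRing.toRatAlgebra
  refine ⟨Osub v ⧸ mI v, F, A, B, fun x => if h : x ∈ Osub v then Ideal.Quotient.mk (mI v) ⟨x, h⟩
    else 0, fun x y hx hy => ?_, fun x y hx hy => ?_, fun x hx => ?_, fun x hx => ?_, fun c => ?_⟩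
  · have hx' : x ∈ Osub v := hx
    have hy' : y ∈ Osub v := hy
    have hxy : x + y ∈ Osub v := (Osub v).add_mem hx' hy'
    beta_reduce
    rw [dif_pos hx', dif_pos hy', dif_pos hxy, ← map_add]
    rfl
  · have hx' : x ∈ Osub v := hx
    have hy' : y ∈ Osub v := hy
    have hxy : x * y ∈ Osub v := (Osub v).mul_mem hx' hy'
    beta_reduce
    rw [dif_pos hx', dif_pos hy', dif_pos hxy, ← map_mul]
    rfl
  · have hx' : x ∈ Osub v := hx.le
    beta_reduce
    rw [dif_pos hx']
    exact Ideal.Quotient.eq_zero_iff_mem.mpr hx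
  · have hx' : x ∈ Osub v := hx.le
    beta_reduce
    rw [dif_pos hx']
    intro h0
    have h1 : v.nm x < 1 := Ideal.Quotient.eq_zero_iff_mem.mp h0
    rw [hx] at h1
    exact lt_irrefl _ h1
  · have hx' : algebraMap ℂ L c ∈ Osub v := nm_algebraMap_le v c
    beta_reduce
    rw [dif_pos hx']
    rfl

/-- norm of a monomial -/
theorem nm_mono {t : Fin 2 → L} (ht : ∀ k, t k ≠ 0) (p : Fin 2 → ℤ) :
    v.nm (t 0 ^ p 0 * t 1 ^ p 1) = Real.exp (-dt (toPl p) (wt v t)) := by
  rw [v.mul, nm_zpow, nm_zpow]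
  have h : ∀ k : Fin 2, v.nm (t k) ^ p k = Real.exp ((p k : ℝ) * Real.log (v.nm (t k))) := by
    intro k
    rw [← Real.rpow_intCast, Real.rpow_def_of_pos (nm_pos v (ht k)), mul_comm]
  rw [h, h, ← Real.exp_add]
  congr 1
  simp only [dt, toPl, wt]
  ring

end

/-- integral vectors orthogonal to a nonzero vector -/
theorem exists_prim (w : Pl) (hw : w ≠ 0) : ∃ u : Fin 2 → ℤ, dt (toPl u) w = 0 ∧
    ∀ a : Fin 2 → ℤ, dt (toPl a) w = 0 → ∃ e : ℤ, a = e • u := by
  by_cases hex : ∃ a : Fin 2 → ℤ, a ≠ 0 ∧ dt (toPl a) w = 0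
  · obtain ⟨a, ha0, ha⟩ := hex
    have hg : 0 < Int.gcd (a 0) (a 1) := by
      rcases Nat.eq_zero_or_pos (Int.gcd (a 0) (a 1)) with h | h
      · exfalso
        apply ha0
        have h2 := Int.gcd_eq_zero_iff.mp h
        funext k
        fin_cases k
        · exact h2.1
        · exact h2.2
      · exact h
    obtain ⟨u0, hu0⟩ := Int.gcd_dvd_left (a 0) (a 1)
    obtain ⟨u1, hu1⟩ := Int.gcd_dvd_right (a 0) (a 1)
    set g : ℕ := Int.gcd (a 0) (a 1) with hgdef
    have hgR : (0 : ℝ) < (g : ℝ) := by exact_mod_cast hg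
    have hgZ : (0 : ℤ) < (g : ℤ) := by exact_mod_cast hg
    have hu : ((u0 : ℝ)) * w.1 + (u1 : ℝ) * w.2 = 0 := by
      have h1 : (g : ℝ) * ((u0 : ℝ) * w.1 + (u1 : ℝ) * w.2) = 0 := by
        have e0 : ((a 0 : ℤ) : ℝ) = (g : ℝ) * u0 := by rw [hu0]; push_cast; ring
        have e1 : ((a 1 : ℤ) : ℝ) = (g : ℝ) * u1 := by rw [hu1]; push_cast; ring
        have h2 : ((a 0 : ℤ) : ℝ) * w.1 + ((a 1 : ℤ) : ℝ) * w.2 = 0 := ha
        rw [e0, e1] at h2
        linarith
      rcases mul_eq_zero.mp h1 with h | h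
      · exact absurd h hgR.ne'
      · exact h
    have hbez : ∃ x y : ℤ, x * u0 + y * u1 = 1 := by
      refine ⟨Int.gcdA (a 0) (a 1), Int.gcdB (a 0) (a 1), ?_⟩
      have h := Int.gcd_eq_gcd_ab (a 0) (a 1)
      rw [← hgdef] at h
      have h3 : (g : ℤ) * (Int.gcdA (a 0) (a 1) * u0 + Int.gcdB (a 0) (a 1) * u1) = (g : ℤ) * 1 := by
        linear_combination (-Int.gcdA (a 0) (a 1)) * hu0 - Int.gcdB (a 0) (a 1) * hu1 - h
      exact mul_left_cancel₀ hgZ.ne' h3
    obtain ⟨x, y, hxy⟩ := hbez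
    refine ⟨![u0, u1], ?_, fun b hb => ⟨x * b 0 + y * b 1, ?_⟩⟩
    · simpa [dt, toPl] using hu
    · have hb' : ((b 0 : ℤ) : ℝ) * w.1 + ((b 1 : ℤ) : ℝ) * w.2 = 0 := hb
      have hdet : (b 0 : ℤ) * u1 = b 1 * u0 := by
        have hR : ((b 0 : ℤ) : ℝ) * u1 = (b 1 : ℤ) * u0 := by
          by_contra hne
          apply hw
          have k1 : (((b 0 : ℤ) : ℝ) * u1 - (b 1 : ℤ) * u0) * w.1 = 0 := by
            linear_combination u1 * hb' - (b 1 : ℝ) * hu
          have k2 : (((b 0 : ℤ) : ℝ) * u1 - (b 1 : ℤ) * u0) * w.2 = 0 := by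
            linear_combination (-u0 : ℝ) * hb' + (b 0 : ℝ) * hu
          have hne' : ((b 0 : ℤ) : ℝ) * u1 - (b 1 : ℤ) * u0 ≠ 0 := sub_ne_zero.mpr hne
          have w1 : w.1 = 0 := (mul_eq_zero.mp k1).resolve_left hne'
          have w2 : w.2 = 0 := (mul_eq_zero.mp k2).resolve_left hne'
          exact Prod.ext w1 w2
        exact_mod_cast hR
      funext k
      fin_cases k
      · simp only [Fin.zero_eta, Pi.smul_apply, Matrix.cons_val_zero, smul_eq_mul]
        linear_combination (-(b 0)) * hxy + y * hdet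
      · simp only [Fin.mk_one, Pi.smul_apply, Matrix.cons_val_one, Matrix.cons_val_fin_one,
          smul_eq_mul]
        linear_combination (-(b 1)) * hxy - x * hdet
  · push Not at hex
    refine ⟨0, by simp [dt, toPl], fun a ha => ⟨0, ?_⟩⟩
    by_contra hne
    rw [zero_smul] at hne
    exact hex a hne ha

end Pool.Agent.Lib.MP_4e7804_co.N3.ResN

namespace Pool.Agent.Lib.MP_4e7804_co.N3

open ResN

theorem tRes (h1 : StmtVal) (h2 : StmtNoZ) : StmtRes := by
  classical
  intro L iL iA v S W c hSW hind t ht hf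
  obtain ⟨Ω, iF, iC, iQ, res, radd, rmul, rzero, rne, ralg⟩ := exists_res v
  -- elementary properties of the residue map
  have r0 : res 0 = 0 := rzero 0 (by rw [nm_zero]; norm_num)
  have r1 : res 1 = 1 := by
    have h := ralg 1
    rwa [map_one, map_one] at h
  have hS : ∀ i, (S i).Nonempty := fun i => (hSW.cp i).1.mono (hSW.sub i)
  have hc0 : ∀ i, ∀ p ∈ S i, c i p ≠ 0 := fun i p hp =>
    AlgebraicIndependent.ne_zero hind ⟨i, ⟨p, hp⟩⟩
  have rinv : ∀ x, v.nm x = 1 → res x⁻¹ = (res x)⁻¹ := by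
    intro x hx
    have hx0 : x ≠ 0 := by
      intro h0
      rw [h0, nm_zero] at hx
      norm_num at hx
    have h3 : v.nm x⁻¹ ≤ 1 := by rw [nm_inv, hx, inv_one]
    have h4 := rmul x x⁻¹ hx.le h3
    rw [mul_inv_cancel₀ hx0, r1] at h4
    exact eq_inv_of_mul_eq_one_right h4.symm
  have rpow : ∀ x, v.nm x = 1 → ∀ n : ℕ, res (x ^ n) = res x ^ n := by
    intro x hx n
    have hn : ∀ m : ℕ, v.nm (x ^ m) = 1 := fun m => by
      have := map_pow (hom v) x m
      have h' : v.nm (x ^ m) = v.nm x ^ m := this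
      rw [h', hx, one_pow]
    induction n with
    | zero => rw [pow_zero, pow_zero, r1]
    | succ n ih => rw [pow_succ, pow_succ, rmul _ _ (hn n).le hx.le, ih]
  have nz1 : ∀ x, v.nm x = 1 → ∀ k : ℤ, v.nm (x ^ k) = 1 := fun x hx k => by
    rw [nm_zpow, hx, one_zpow]
  have rzpow : ∀ x, v.nm x = 1 → ∀ k : ℤ, res (x ^ k) = res x ^ k := by
    intro x hx k
    cases k with
    | ofNat n => simpa using rpow x hx n
    | negSucc n =>
      have h5 : v.nm (x ^ (n + 1)) = 1 := by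
        have h6 := nz1 x hx ((n + 1 : ℕ) : ℤ)
        rwa [zpow_natCast] at h6
      rw [zpow_negSucc, zpow_negSucc, rinv _ h5, rpow x hx]
  have nsum : ∀ (E : Finset (Fin 2 → ℤ)) (g : (Fin 2 → ℤ) → L), (∀ p ∈ E, v.nm (g p) ≤ 1) →
      v.nm (∑ p ∈ E, g p) ≤ 1 := by
    intro E g hg
    induction E using Finset.induction_on with
    | empty => rw [Finset.sum_empty, nm_zero]; norm_num
    | insert a E ha ih =>
      rw [Finset.sum_insert ha]
      exact (v.add _ _).trans (max_le (hg a (Finset.mem_insert_self a E))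
        (ih fun p hp => hg p (Finset.mem_insert_of_mem hp)))
  have rsum : ∀ (E : Finset (Fin 2 → ℤ)) (g : (Fin 2 → ℤ) → L), (∀ p ∈ E, v.nm (g p) ≤ 1) →
      res (∑ p ∈ E, g p) = ∑ p ∈ E, res (g p) := by
    intro E g hg
    induction E using Finset.induction_on with
    | empty => rw [Finset.sum_empty, Finset.sum_empty, r0]
    | insert a E ha ih =>
      rw [Finset.sum_insert ha, Finset.sum_insert ha,
        radd _ _ (hg a (Finset.mem_insert_self a E))
          (nsum E g fun p hp => hg p (Finset.mem_insert_of_mem hp)),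
        ih fun p hp => hg p (Finset.mem_insert_of_mem hp)]
  have alg1 : ∀ a : ℂ, v.nm (algebraMap ℂ L a) ≤ 1 := nm_algebraMap_le v
  refine ⟨fun ⟨hw, hz⟩ => ?_, fun hw i j hi hj => ?_⟩
  · -- first part
    have ht1 : ∀ k : Fin 2, v.nm (t k) = 1 := by
      have e0 : -Real.log (v.nm (t 0)) = 0 := congrArg Prod.fst hw
      have e1 : -Real.log (v.nm (t 1)) = 0 := congrArg Prod.snd hw
      intro k
      have hk : Real.log (v.nm (t k)) = 0 := by
        fin_cases k
        · exact neg_eq_zero.mp e0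
        · exact neg_eq_zero.mp e1
      exact Real.eq_one_of_pos_of_log_eq_zero (nm_pos v (ht k)) hk
    have hfl : ∀ i, v.nm (evL (S i) (c i) t) < 1 := by
      intro i
      have h3 := hz i
      have h4 : Real.log (v.nm (evL (S i) (c i) t)) < 0 := by linarith
      exact (Real.log_neg_iff (nm_pos v (hf i))).mp h4
    refine h2 S c hind Ω iF iC iQ 2 (fun k => res (t k)) Finset.univ (by simp)
      (fun i p => res (t 0) ^ p 0 * res (t 1) ^ p 1) (fun i p => ⟨?_, ?_⟩) S
      (fun i _ => ⟨hS i, subset_rfl⟩) (fun i _ => ?_)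
    · refine mul_mem (zpow_mem ?_ _) (zpow_mem ?_ _)
      · exact IntermediateField.subset_adjoin ℚ _ ⟨0, rfl⟩
      · exact IntermediateField.subset_adjoin ℚ _ ⟨1, rfl⟩
    · exact mul_ne_zero (zpow_ne_zero _ (rne _ (ht1 0))) (zpow_ne_zero _ (rne _ (ht1 1)))
    · have h5 := rzero _ (hfl i)
      have hm : ∀ p : Fin 2 → ℤ, v.nm (t 0 ^ p 0 * t 1 ^ p 1) ≤ 1 := fun p => by
        rw [v.mul, nz1 _ (ht1 0), nz1 _ (ht1 1), mul_one]
      unfold evL at h5
      rw [rsum _ _ (fun p _ => by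
        rw [v.mul]; exact mul_le_one₀ (alg1 _) (v.nonneg _) (hm p))] at h5
      rw [← h5]
      refine Finset.sum_congr rfl fun p _ => ?_
      rw [rmul _ _ (alg1 _) (hm p), ralg, rmul _ _ (nz1 _ (ht1 0) _).le (nz1 _ (ht1 1) _).le,
        rzpow _ (ht1 0), rzpow _ (ht1 1)]
  · -- second part
    by_contra hij
    set w : Pl := wt v t with hwdef
    let E : Fin 3 → Finset (Fin 2 → ℤ) := fun k =>
      (S k).filter fun p => dt (toPl p) w = psi (rv (W k)) w
    have hE : ∀ k, psi (rv (W k)) w < -Real.log (v.nm (evL (S k) (c k) t)) →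
        v.nm (evL (E k) (c k) t) < Real.exp (-psi (rv (W k)) w) ∧ (E k).Nonempty := by
      intro k hk
      have h3 := (h1 L iL iA v (S k) (W k) (c k) (hSW.cp k) (hSW.sub k) (hSW.hull k) (hc0 k) t ht).2.2
        (E k) (fun p => by simp [E, hwdef])
      apply h3
      have h4 : Real.log (v.nm (evL (S k) (c k) t)) < -psi (rv (W k)) w := by linarith
      exact (Real.log_lt_iff_lt_exp (nm_pos v (hf k))).mp h4
    obtain ⟨u, hu, hprim⟩ := exists_prim w hw
    have hprim' : ∀ a : Fin 2 → ℤ, ∃ e : ℤ, dt (toPl a) w = 0 → a = e • u := by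
      intro a
      by_cases ha : dt (toPl a) w = 0
      · obtain ⟨e, he⟩ := hprim a ha
        exact ⟨e, fun _ => he⟩
      · exact ⟨0, fun h => absurd h ha⟩
    choose ε hε using hprim'
    have hq : ∀ k, ∃ q : Fin 2 → ℤ, (E k).Nonempty → q ∈ E k := by
      intro k
      by_cases hk : (E k).Nonempty
      · obtain ⟨q, hq⟩ := hk
        exact ⟨q, fun _ => hq⟩
      · exact ⟨0, fun h => absurd h hk⟩
    choose q hq using hq
    set T : L := t 0 ^ u 0 * t 1 ^ u 1 with hT
    have hT1 : v.nm T = 1 := by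
      rw [hT, nm_mono v ht, ← hwdef, hu, neg_zero, Real.exp_zero]
    have hkey : ∀ k, psi (rv (W k)) w < -Real.log (v.nm (evL (S k) (c k) t)) →
        ∑ p ∈ E k, algebraMap ℂ Ω (c k p) * res T ^ ε (p - q k) = 0 := by
      intro k hk
      obtain ⟨hn, hne⟩ := hE k hk
      have hqk := hq k hne
      have hqd : dt (toPl (q k)) w = psi (rv (W k)) w := (Finset.mem_filter.mp hqk).2
      have hmono : ∀ p ∈ E k, t 0 ^ p 0 * t 1 ^ p 1 =
          T ^ ε (p - q k) * (t 0 ^ q k 0 * t 1 ^ q k 1) := by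
        intro p hp
        have hpd : dt (toPl p) w = psi (rv (W k)) w := (Finset.mem_filter.mp hp).2
        have h3 : dt (toPl (p - q k)) w = 0 := by
          have h4 : toPl (p - q k) = toPl p - toPl (q k) := by
            simp [toPl]
          rw [h4, sub_dt, hpd, hqd, sub_self]
        have h5 := hε _ h3
        have g0 : p 0 = ε (p - q k) * u 0 + q k 0 := by
          have := congrFun h5 0
          simp only [Pi.sub_apply, Pi.smul_apply, smul_eq_mul] at this
          linarith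
        have g1 : p 1 = ε (p - q k) * u 1 + q k 1 := by
          have := congrFun h5 1
          simp only [Pi.sub_apply, Pi.smul_apply, smul_eq_mul] at this
          linarith
        rw [hT, mul_zpow, ← zpow_mul, ← zpow_mul, mul_comm (u 0), mul_comm (u 1)]
        conv_lhs => rw [g0, g1, zpow_add₀ (ht 0), zpow_add₀ (ht 1)]
        ring
      have hev : evL (E k) (c k) t = (∑ p ∈ E k, algebraMap ℂ L (c k p) * T ^ ε (p - q k)) *
          (t 0 ^ q k 0 * t 1 ^ q k 1) := by
        unfold evL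
        rw [Finset.sum_mul]
        refine Finset.sum_congr rfl fun p hp => ?_
        rw [hmono p hp]
        ring
      have hlt : v.nm (∑ p ∈ E k, algebraMap ℂ L (c k p) * T ^ ε (p - q k)) < 1 := by
        rw [hev, v.mul, nm_mono v ht, ← hwdef, hqd] at hn
        exact (mul_lt_iff_lt_one_left (Real.exp_pos _)).mp hn
      have h6 := rzero _ hlt
      have hm : ∀ e : ℤ, v.nm (T ^ e) ≤ 1 := fun e => (nz1 _ hT1 e).le
      rw [rsum _ _ (fun p _ => by
        rw [v.mul]; exact mul_le_one₀ (alg1 _) (v.nonneg _) (hm _))] at h6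
      rw [← h6]
      refine Finset.sum_congr rfl fun p _ => ?_
      rw [rmul _ _ (alg1 _) (hm _), ralg, rzpow _ hT1]
    have hJ : ∀ k ∈ ({i, j} : Finset (Fin 3)),
        psi (rv (W k)) w < -Real.log (v.nm (evL (S k) (c k) t)) := by
      intro k hk
      rcases Finset.mem_insert.mp hk with h | h
      · rw [h]; exact hi
      · rw [Finset.mem_singleton.mp h]; exact hj
    refine h2 S c hind Ω iF iC iQ 1 (fun _ => res T) {i, j} (Finset.card_pair hij)
      (fun k p => res T ^ ε (p - q k)) (fun k p => ⟨?_, zpow_ne_zero _ (rne _ hT1)⟩) E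
      (fun k hk => ⟨(hE k (hJ k hk)).2, Finset.filter_subset _ _⟩) (fun k hk => hkey k (hJ k hk))
    exact zpow_mem (IntermediateField.subset_adjoin ℚ _ (Set.mem_range.mpr ⟨0, rfl⟩)) _

end Pool.Agent.Lib.MP_4e7804_co.N3
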