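import Pool.Agent.Lib.MP_4e7804_co.N3.Spec

/-!
# n = 3: finitely many witnesses
-/

set_option autoImplicit false

namespace Pool.Agent.Lib.MP_4e7804_co.N3.SFinN

theorem zeta_smul {A : Fin 3 → Finset Pl} (hA : Gen A) (x : Pl × Pl) {t : ℝ} (ht : 0 ≤ t) :
    zeta A (t • x) = t • zeta A x := by
  funext i
  simp only [zeta, Prod.smul_fst, Prod.smul_snd, Pi.smul_apply, smul_eq_mul]
  rw [psi_smul (hA.ne i) _ ht, psi_smul (hA.ne i) _ ht, mul_max_of_nonneg _ _ ht]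

theorem EE_smul {B : Finset Pl} (hB : B.Nonempty) {x : Pl × Pl} (hx : x ∈ EE B) {t : ℝ}
    (ht : 0 < t) : t • x ∈ EE B := by
  rw [EE_iff hB] at hx ⊢
  rw [Prod.smul_fst, Prod.smul_snd, psi_smul hB _ ht.le, psi_smul hB _ ht.le]
  rcases hx with h | ⟨h, h'⟩ | ⟨h, h'⟩
  · exact Or.inl (by rw [h])
  · exact Or.inr (Or.inl ⟨mul_lt_mul_of_pos_left h ht, CL_smul hB ht.le h'⟩)
  · exact Or.inr (Or.inr ⟨mul_lt_mul_of_pos_left h ht, CL_smul hB ht.le h'⟩)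

theorem Apos_smul {A : Fin 3 → Finset Pl} (hA : Gen A) {w : Pl} {t : ℝ} (ht : 0 < t)
    (h : t • w ∈ Apos A) : w ∈ Apos A := by
  intro i
  have h1 := h i
  rw [psi_smul (hA.ne i) _ ht.le] at h1
  exact (mul_pos_iff_of_pos_left ht).1 h1

theorem QQ_smul {A : Fin 3 → Finset Pl} (hA : Gen A) {x : Pl × Pl} (hx : x ∈ QQ A) {t : ℝ}
    (ht : 0 < t) : t • x ∈ QQ A := by
  obtain ⟨h1, h2, h3, h4⟩ := hx
  refine ⟨fun i => EE_smul (hA.ne i) (h1 i) ht, fun h => h2 ?_, fun h => h3 ?_, fun h => h4 ?_⟩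
  · rw [Prod.smul_fst, Prod.smul_snd] at h
    exact smul_right_injective _ ht.ne' h
  · obtain ⟨h5, h6⟩ := h
    rw [Prod.smul_fst, smul_eq_zero] at h5
    exact ⟨h5.resolve_left ht.ne', Apos_smul hA ht h6⟩
  · obtain ⟨h5, h6⟩ := h
    rw [Prod.smul_snd, smul_eq_zero] at h5
    exact ⟨h5.resolve_left ht.ne', Apos_smul hA ht h6⟩

theorem ne_zero {A : Fin 3 → Finset Pl} {x : Pl × Pl} (hx : x ∈ QQ A) : x ≠ 0 := by
  rintro rfl
  exact hx.2.1 rfl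

theorem fin_zeta (qf : StmtQFin) {A : Fin 3 → Finset Pl} (hA : Gen A) (z : Sp) (hz : z ≠ 0) :
    {x | x ∈ QQ A ∧ z = zeta A x}.Finite := by
  have key : ∀ x : Pl × Pl, x ∈ QQ A → ‖x‖ • ((‖x‖)⁻¹ • x) = x := by
    intro x hx
    rw [smul_smul, mul_inv_cancel₀ (norm_ne_zero_iff.2 (ne_zero hx)), one_smul]
  refine Set.Finite.of_injOn (f := fun x => (‖x‖)⁻¹ • x) (t := QN A) ?_ ?_ (qf A hA)
  · rintro x ⟨hx, -⟩
    have h0 : 0 < ‖x‖ := norm_pos_iff.2 (ne_zero hx)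
    refine ⟨QQ_smul hA hx (inv_pos.2 h0), ?_⟩
    change ‖(‖x‖)⁻¹ • x‖ = 1
    rw [norm_smul, norm_inv, norm_norm, inv_mul_cancel₀ h0.ne']
  · rintro x ⟨hx, hzx⟩ y ⟨hy, hzy⟩ hxy
    simp only at hxy
    have e1 : z = ‖x‖ • zeta A ((‖x‖)⁻¹ • x) := by
      rw [← zeta_smul hA _ (norm_nonneg x), key x hx]
      exact hzx
    have e2 : z = ‖y‖ • zeta A ((‖x‖)⁻¹ • x) := by
      rw [hxy, ← zeta_smul hA _ (norm_nonneg y), key y hy]
      exact hzy
    have h0 : zeta A ((‖x‖)⁻¹ • x) ≠ 0 := by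
      intro h
      rw [h, smul_zero] at e1
      exact hz e1
    have h3 : ‖x‖ = ‖y‖ := by
      have h4 : (‖x‖ - ‖y‖) • zeta A ((‖x‖)⁻¹ • x) = 0 := by
        rw [sub_smul, ← e1, ← e2, sub_self]
      exact sub_eq_zero.1 ((smul_eq_zero.1 h4).resolve_right h0)
    rw [← key x hx, ← key y hy, hxy, h3]

end Pool.Agent.Lib.MP_4e7804_co.N3.SFinN

namespace Pool.Agent.Lib.MP_4e7804_co.N3

open SFinN in
theorem tSFin (h1 : StmtPair) (h2 : StmtQFin) : StmtSFin := by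
  intro A hA z
  obtain ⟨p1, -, p3⟩ := h1 A hA
  by_cases hz : z = 0
  · subst hz
    exact (Set.finite_singleton (0 : Pl)).subset fun w hw => p3 w hw
  · by_cases hne : ∃ w', Wit A z w' ∧ ¬ (w' = 0 ∧ z ∈ oct)
    · obtain ⟨w', hw', hx'⟩ := hne
      have hf := (fin_zeta h2 hA z hz).image Prod.snd
      refine ((Set.finite_singleton (0 : Pl)).union ((Set.finite_singleton w').union hf)).subset ?_
      intro w hw
      by_cases h0 : w = 0
      · exact Or.inl h0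
      · by_cases h3 : w = w'
        · exact Or.inr (Or.inl h3)
        · refine Or.inr (Or.inr ⟨(w', w), p1 z w w' hw hw' h3 (fun h => h0 h.1) hx', rfl⟩)
    · refine (Set.finite_singleton (0 : Pl)).subset fun w hw => ?_
      by_contra h0
      exact hne ⟨w, hw, fun h => h0 h.1⟩

end Pool.Agent.Lib.MP_4e7804_co.N3
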