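import Pool.Agent.Lib.MP_4e7804_co.N3.Spec2

/-!
# n = 3: the sectors are in the tropical hypersurface
-/

set_option autoImplicit false

open MvPolynomial

namespace Pool.Agent.Lib.MP_4e7804_co.N3

namespace SectN

theorem univ_eq {i j k : Fin 3} (hij : i ≠ j) (hik : i ≠ k) (hjk : j ≠ k) :
    (Finset.univ : Finset (Fin 3)) = {i, j, k} := by
  revert i j k
  decide

theorem prod_three {M : Type} [CommMonoid M] (φ : Fin 3 → M) {i j k : Fin 3} (hij : i ≠ j)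
    (hik : i ≠ k) (hjk : j ≠ k) : ∏ l, φ l = φ i * φ j * φ k := by
  rw [univ_eq hij hik hjk, Finset.prod_insert (by simp [hij, hik]),
    Finset.prod_insert (by simp [hjk]), Finset.prod_singleton, mul_assoc]

theorem sum_three (φ : Fin 3 → ℝ) {i j k : Fin 3} (hij : i ≠ j)
    (hik : i ≠ k) (hjk : j ≠ k) : ∑ l, φ l = φ i + φ j + φ k := by
  rw [univ_eq hij hik hjk, Finset.sum_insert (by simp [hij, hik]),
    Finset.sum_insert (by simp [hjk]), Finset.sum_singleton, add_assoc]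

theorem exists_corner (S : Finset (Fin 2 → ℤ)) (hS : S.Nonempty) : ∃ γ, Corner S γ := by
  refine ⟨fun k => S.inf' hS fun p => p k, fun p hp k => Finset.inf'_le _ hp, fun k => ?_⟩
  obtain ⟨p, hp, h⟩ := Finset.exists_mem_eq_inf' hS fun p : Fin 2 → ℤ => p k
  exact ⟨p, hp, h.symm⟩

theorem zpow_split (x : ℂ) (hx : x ≠ 0) (a b : ℤ) (h : b ≤ a) :
    x ^ a = x ^ b * x ^ (a - b).toNat := by
  have h1 : (((a - b).toNat : ℕ) : ℤ) = a - b := Int.toNat_of_nonneg (by omega)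
  rw [← zpow_natCast, h1, ← zpow_add₀ hx]
  congr 1
  ring

theorem ev_hP (S : Finset (Fin 2 → ℤ)) (c : (Fin 2 → ℤ) → ℂ) (γ : Fin 2 → ℤ)
    (hγ : ∀ p ∈ S, ∀ k, γ k ≤ p k) (t : Fin 2 → ℂ) (ht : ∀ k, t k ≠ 0) :
    evC S c t = (t 0 ^ γ 0 * t 1 ^ γ 1) * eval t (hP S c γ) := by
  unfold evC hP
  rw [map_sum, Finset.mul_sum]
  refine Finset.sum_congr rfl fun p hp => ?_
  rw [zpow_split (t 0) (ht 0) (p 0) (γ 0) (hγ p hp 0),
    zpow_split (t 1) (ht 1) (p 1) (γ 1) (hγ p hp 1)]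
  simp only [map_mul, map_pow, eval_C, eval_X]
  ring

theorem pow_aux (x : ℂ) (hx : x ≠ 0) (g : Fin 3 → ℤ) (m : Fin 3 → ℕ) (N : ℕ)
    (h : 0 ≤ (N : ℤ) + ∑ l, g l * m l) :
    x ^ ((N : ℤ) + ∑ l, g l * m l).toNat = x ^ N * ∏ l, (x ^ g l) ^ m l := by
  have h1 : ((((N : ℤ) + ∑ l, g l * m l).toNat : ℕ) : ℤ) = (N : ℤ) + ∑ l, g l * m l :=
    Int.toNat_of_nonneg h
  rw [← zpow_natCast x, h1, zpow_add₀ hx, zpow_natCast]
  congr 1
  rw [Fin.sum_univ_three, Fin.prod_univ_three, zpow_add₀ hx, zpow_add₀ hx, zpow_mul, zpow_mul,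
    zpow_mul, zpow_natCast, zpow_natCast, zpow_natCast]

theorem eq_zero_of_torus (P : MvPolynomial (Fin 2) ℂ)
    (h : ∀ t : Fin 2 → ℂ, (∀ k, t k ≠ 0) → eval t P = 0) : P = 0 := by
  have h1 : P * (X 0 * X 1) = 0 := by
    apply MvPolynomial.funext
    intro t
    rw [map_mul, map_mul, eval_X, eval_X, map_zero]
    by_cases h0 : t 0 = 0
    · rw [h0]; ring
    · by_cases h1 : t 1 = 0
      · rw [h1]; ring
      · rw [h t (by
          intro k
          fin_cases k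
          · exact h0
          · exact h1)]
        ring
  rcases mul_eq_zero.1 h1 with h2 | h2
  · exact h2
  · rcases mul_eq_zero.1 h2 with h3 | h3
    · exact absurd h3 (X_ne_zero 0)
    · exact absurd h3 (X_ne_zero 1)

/-- the exponent vector of `X` in the term of `m` -/
def th (γ : Fin 3 → Fin 2 → ℤ) (N : ℕ) (m : Fin 3 →₀ ℕ) (k : Fin 2) : ℤ :=
  (N : ℤ) + ∑ l, γ l k * (m l : ℤ)

theorem th_nonneg (γ : Fin 3 → Fin 2 → ℤ) (Sf : Finset (Fin 3 →₀ ℕ)) :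
    ∃ N : ℕ, ∀ m ∈ Sf, ∀ k, 0 ≤ th γ N m k := by
  refine ⟨∑ m ∈ Sf, ∑ k, ∑ l, (γ l k).natAbs * m l, fun m hm k => ?_⟩
  unfold th
  have h1 : -(((∑ l, (γ l k).natAbs * m l : ℕ)) : ℤ) ≤ ∑ l, γ l k * (m l : ℤ) := by
    push_cast
    rw [← Finset.sum_neg_distrib]
    refine Finset.sum_le_sum fun l _ => ?_
    have h2 : -|γ l k| ≤ γ l k := neg_abs_le _
    have h3 : (0 : ℤ) ≤ (m l : ℤ) := Int.natCast_nonneg _
    nlinarith [mul_le_mul_of_nonneg_right h2 h3]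
  have h4 : (∑ l, (γ l k).natAbs * m l) ≤ ∑ m ∈ Sf, ∑ k, ∑ l, (γ l k).natAbs * m l :=
    (Finset.single_le_sum (f := fun k => ∑ l, (γ l k).natAbs * m l) (fun _ _ => Nat.zero_le _)
      (Finset.mem_univ k)).trans
      (Finset.single_le_sum (f := fun m : Fin 3 →₀ ℕ => ∑ k, ∑ l, (γ l k).natAbs * m l)
        (fun _ _ => Nat.zero_le _) hm)
  have h5 : (((∑ l, (γ l k).natAbs * m l : ℕ)) : ℤ) ≤
      ((∑ m ∈ Sf, ∑ k, ∑ l, (γ l k).natAbs * m l : ℕ) : ℤ) := by exact_mod_cast h4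
  linarith

theorem relation (F : MvPolynomial (Fin 3) ℂ) (S : Fin 3 → Finset (Fin 2 → ℤ))
    (c : Fin 3 → (Fin 2 → ℤ) → ℂ) (γ : Fin 3 → Fin 2 → ℤ)
    (hγ : ∀ l, ∀ p ∈ S l, ∀ k, γ l k ≤ p k) (N : ℕ)
    (hN : ∀ m ∈ F.support, ∀ k, 0 ≤ th γ N m k)
    (hF : ∀ t : Fin 2 → ℂ, (∀ k, t k ≠ 0) → eval (fun i => evC (S i) (c i) t) F = 0) :
    ∑ m ∈ F.support, C (F.coeff m) * (X 0 ^ (th γ N m 0).toNat * X 1 ^ (th γ N m 1).toNat) *
      ∏ l, hP (S l) (c l) (γ l) ^ m l = 0 := by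
  apply eq_zero_of_torus
  intro t ht
  have h1 := hF t ht
  rw [eval_eq'] at h1
  have h2 : eval t (∑ m ∈ F.support, C (F.coeff m) *
      (X 0 ^ (th γ N m 0).toNat * X 1 ^ (th γ N m 1).toNat) *
      ∏ l, hP (S l) (c l) (γ l) ^ m l) = (t 0 ^ N * t 1 ^ N) *
      ∑ d ∈ F.support, coeff d F * ∏ i, evC (S i) (c i) t ^ d i := by
    rw [map_sum, Finset.mul_sum]
    refine Finset.sum_congr rfl fun m hm => ?_
    have e1 : ∏ i, evC (S i) (c i) t ^ m i =
        (∏ l, (t 0 ^ γ l 0) ^ m l) * (∏ l, (t 1 ^ γ l 1) ^ m l) *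
          ∏ l, eval t (hP (S l) (c l) (γ l)) ^ m l := by
      rw [← Finset.prod_mul_distrib, ← Finset.prod_mul_distrib]
      refine Finset.prod_congr rfl fun l _ => ?_
      rw [ev_hP (S l) (c l) (γ l) (hγ l) t ht, mul_pow, mul_pow]
    have e2 : t 0 ^ (th γ N m 0).toNat = t 0 ^ N * ∏ l, (t 0 ^ γ l 0) ^ m l :=
      pow_aux (t 0) (ht 0) (fun l => γ l 0) m N (hN m hm 0)
    have e3 : t 1 ^ (th γ N m 1).toNat = t 1 ^ N * ∏ l, (t 1 ^ γ l 1) ^ m l :=
      pow_aux (t 1) (ht 1) (fun l => γ l 1) m N (hN m hm 1)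
    rw [e1]
    simp only [map_mul, map_pow, map_prod, eval_C, eval_X]
    rw [e2, e3]
    ring
  rw [h2, h1, mul_zero]

theorem unique_min (M : Finset Sp) (hM : M.Nonempty) (z : Sp) (hz : z ∉ trop M) :
    ∃ a ∈ M, ∀ b ∈ M, b ≠ a → a ⬝ᵥ z < b ⬝ᵥ z := by
  obtain ⟨a, ha, hmin⟩ := M.exists_min_image (fun a => a ⬝ᵥ z) hM
  refine ⟨a, ha, fun b hb hba => ?_⟩
  by_contra h
  push_neg at h
  exact hz ⟨a, ha, b, hb, Ne.symm hba, hmin, fun c hc => h.trans (hmin c hc)⟩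

theorem main_pos (h1 : StmtCop) (h2 : StmtZero) (h3 : StmtTrick)
    (S W : Fin 3 → Finset (Fin 2 → ℤ)) (c : Fin 3 → (Fin 2 → ℤ) → ℂ)
    (F : MvPolynomial (Fin 3) ℂ) (hs : Sit S W c F) (i j k : Fin 3) (hij : i ≠ j) (hik : i ≠ k)
    (hjk : j ≠ k) (p : Fin 2 → ℤ) (hp : p ∈ W i) (p' : Fin 2 → ℤ) (hp' : p' ∈ W i)
    (q : Fin 2 → ℤ) (hq : q ∈ W j) (q' : Fin 2 → ℤ) (hq' : q' ∈ W j)
    (hdet : (p 0 - p' 0) * (q 1 - q' 1) - (p 1 - p' 1) * (q 0 - q' 0) ≠ 0)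
    (z : Sp) (hzi : 0 < z i) (hzj : 0 < z j) (hzk : z k = 0) : z ∈ trop (Mx F) := by
  classical
  by_contra hz
  have hne : ∀ l, (S l).Nonempty := fun l => (hs.supp.cp l).1.mono (hs.supp.sub l)
  have hF0 : F ≠ 0 := hs.imp.1.ne_zero
  have hM : (Mx F).Nonempty := by
    unfold Mx
    exact (support_nonempty.2 hF0).image _
  obtain ⟨a, ha, hmin⟩ := unique_min (Mx F) hM z hz
  obtain ⟨m₀, hm₀, rfl⟩ := Finset.mem_image.1 ha
  have hbig : ∀ m ∈ F.support, m ≠ m₀ → m₀ i + 1 ≤ m i ∨ m₀ j + 1 ≤ m j := by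
    intro m hm hmm
    by_contra hcon
    push_neg at hcon
    have e1 : m i ≤ m₀ i := by omega
    have e2 : m j ≤ m₀ j := by omega
    have hne' : (fun i => (m i : ℝ) : Sp) ≠ fun i => (m₀ i : ℝ) := by
      intro h
      apply hmm
      ext l
      have := congrFun h l
      exact_mod_cast this
    have h := hmin (fun i => (m i : ℝ)) (Finset.mem_image.2 ⟨m, hm, rfl⟩) hne'
    simp only [dotProduct] at h
    rw [sum_three (fun l => (m₀ l : ℝ) * z l) hij hik hjk,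
      sum_three (fun l => (m l : ℝ) * z l) hij hik hjk, hzk] at h
    have e3 : (m i : ℝ) ≤ m₀ i := by exact_mod_cast e1
    have e4 : (m j : ℝ) ≤ m₀ j := by exact_mod_cast e2
    nlinarith [mul_le_mul_of_nonneg_right e3 hzi.le, mul_le_mul_of_nonneg_right e4 hzj.le]
  choose γ hγ using fun l => exists_corner (S l) (hne l)
  obtain ⟨N, hN⟩ := th_nonneg γ F.support
  have hrel := relation F S c γ (fun l => (hγ l).1) N hN ((hs.imp.2 F).1 dvd_rfl)
  set h : Fin 3 → MvPolynomial (Fin 2) ℂ := fun l => hP (S l) (c l) (γ l) with hh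
  obtain ⟨t, ht, hti, htj, htk⟩ := h2 S c hs.ind i j k hij hik hjk (hne k) p
    (hs.supp.sub i hp) p' (hs.supp.sub i hp') q (hs.supp.sub j hq) q' (hs.supp.sub j hq') hdet
  have hmon : ∀ l, t 0 ^ γ l 0 * t 1 ^ γ l 1 ≠ 0 := fun l =>
    mul_ne_zero (zpow_ne_zero _ (ht 0)) (zpow_ne_zero _ (ht 1))
  have hev : ∀ l, evC (S l) (c l) t = (t 0 ^ γ l 0 * t 1 ^ γ l 1) * eval t (h l) := fun l =>
    ev_hP (S l) (c l) (γ l) (hγ l).1 t ht
  have hhi : eval t (h i) = 0 := by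
    have := hev i
    rw [hti] at this
    exact (mul_eq_zero.1 this.symm).resolve_left (hmon i)
  have hhj : eval t (h j) = 0 := by
    have := hev j
    rw [htj] at this
    exact (mul_eq_zero.1 this.symm).resolve_left (hmon j)
  have hhk : eval t (h k) ≠ 0 := by
    intro h0
    apply htk
    rw [hev k, h0, mul_zero]
  have hcop : IsRelPrime (h i) (h j) :=
    h1 S c hs.ind i j hij (γ i) (γ j) (hγ i) (hγ j) (hne i) (hne j)
  have hunit : ∀ u : MvPolynomial (Fin 2) ℂ, IsUnit u → eval t u ≠ 0 := fun u hu =>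
    (hu.map (eval t)).ne_zero
  have hi0 : h i ≠ 0 := by
    intro h0
    have : IsUnit (h j) := hcop (by rw [h0]; exact dvd_zero _) dvd_rfl
    exact hunit _ this hhj
  have hj0 : h j ≠ 0 := by
    intro h0
    have : IsUnit (h i) := hcop dvd_rfl (by rw [h0]; exact dvd_zero _)
    exact hunit _ this hhi
  set T : (Fin 3 →₀ ℕ) → MvPolynomial (Fin 2) ℂ := fun m =>
    C (F.coeff m) * (X 0 ^ (th γ N m 0).toNat * X 1 ^ (th γ N m 1).toNat) * ∏ l, h l ^ m l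
    with hT
  have hsum : T m₀ + ∑ m ∈ F.support.erase m₀, T m = 0 := by
    rw [Finset.add_sum_erase _ _ hm₀]
    exact hrel
  have hmem : ∑ m ∈ F.support.erase m₀, T m ∈
      Ideal.span {h i ^ (m₀ i + 1), h j ^ (m₀ j + 1)} := by
    refine Ideal.sum_mem _ fun m hm => ?_
    obtain ⟨hm1, hm2⟩ := Finset.mem_erase.1 hm
    rcases hbig m hm2 hm1 with hc | hc
    · have hd : h i ^ (m₀ i + 1) ∣ ∏ l, h l ^ m l :=
        (pow_dvd_pow _ hc).trans (Finset.dvd_prod_of_mem (fun l => h l ^ m l) (Finset.mem_univ i))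
      obtain ⟨w, hw⟩ := hd
      simp only [hT]
      rw [hw, mul_left_comm]
      exact Ideal.mul_mem_right _ _ (Ideal.subset_span (by simp))
    · have hd : h j ^ (m₀ j + 1) ∣ ∏ l, h l ^ m l :=
        (pow_dvd_pow _ hc).trans (Finset.dvd_prod_of_mem (fun l => h l ^ m l) (Finset.mem_univ j))
      obtain ⟨w, hw⟩ := hd
      simp only [hT]
      rw [hw, mul_left_comm]
      exact Ideal.mul_mem_right _ _ (Ideal.subset_span (by simp))
  have hg := h3 (h i) (h j)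
    (C (F.coeff m₀) * (X 0 ^ (th γ N m₀ 0).toNat * X 1 ^ (th γ N m₀ 1).toNat) * h k ^ m₀ k)
    hcop hi0 hj0 t hhi hhj (m₀ i) (m₀ j) (by
      have e : C (F.coeff m₀) * (X 0 ^ (th γ N m₀ 0).toNat * X 1 ^ (th γ N m₀ 1).toNat) *
          h k ^ m₀ k * h i ^ m₀ i * h j ^ m₀ j = -∑ m ∈ F.support.erase m₀, T m := by
        rw [eq_neg_iff_add_eq_zero, ← hsum]
        congr 1
        simp only [hT]
        rw [prod_three (fun l => h l ^ m₀ l) hij hik hjk]
        ring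
      rw [e]
      exact Ideal.neg_mem_iff _ |>.2 hmem)
  simp only [map_mul, map_pow, eval_C, eval_X] at hg
  have hc0 : coeff m₀ F ≠ 0 := mem_support_iff.1 hm₀
  exact mul_ne_zero (mul_ne_zero hc0 (mul_ne_zero (pow_ne_zero _ (ht 0))
    (pow_ne_zero _ (ht 1)))) (pow_ne_zero _ hhk) hg

end SectN

open SectN in
theorem tSect (h1 : StmtCop) (h2 : StmtZero) (h3 : StmtTrick) (_h4 : StmtClr) (h5 : StmtTClo) :
    StmtSect := by
  intro S W c F hs i j k hij hik hjk p hp p' hp' q hq q' hq' hdet z hzi hzj hzk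
  have hcl := (h5 (Mx F)).1
  set y : ℕ → Sp := fun n => fun l => z l + if l = k then 0 else 1 / ((n : ℝ) + 1) with hy
  have hmem : ∀ n, y n ∈ trop (Mx F) := by
    intro n
    have hpos : (0 : ℝ) < 1 / ((n : ℝ) + 1) := by positivity
    refine main_pos h1 h2 h3 S W c F hs i j k hij hik hjk p hp p' hp' q hq q' hq' hdet (y n)
      ?_ ?_ ?_
    · simp only [hy, if_neg hik]
      linarith
    · simp only [hy, if_neg hjk]
      linarith
    · simp only [hy, if_true, hzk, add_zero]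
  have hlim : Filter.Tendsto y Filter.atTop (nhds z) := by
    rw [tendsto_pi_nhds]
    intro l
    by_cases hl : l = k
    · simp only [hy, if_pos hl, add_zero]
      exact tendsto_const_nhds
    · simp only [hy, if_neg hl]
      have := (tendsto_const_nhds (x := z l)).add tendsto_one_div_add_atTop_nhds_zero_nat
      rw [add_zero] at this
      exact this
  exact hcl.mem_of_tendsto hlim (Filter.Eventually.of_forall hmem)

end Pool.Agent.Lib.MP_4e7804_co.N3
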