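import Pool.Agent.Lib.MP_4e7804_co.N3.Spec

/-!
# The normal cone of a vertex is a sector
-/

set_option autoImplicit false

namespace Pool.Agent.Lib.MP_4e7804_co.N3.SectorN

open Pool.Agent.Lib.MP_4e7804_co.N3

theorem id1 (w0 d w : Pl) : (w0.1 ^ 2 + w0.2 ^ 2) * dt d w =
    dt w0 w * dt d w0 + cr w0 w * cr w0 d := by
  simp only [dt, cr]
  ring

theorem id2 (w0 d d' : Pl) : (w0.1 ^ 2 + w0.2 ^ 2) * cr d d' =
    dt d w0 * cr w0 d' - dt d' w0 * cr w0 d := by
  simp only [dt, cr]
  ring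

theorem dt_comm (u v : Pl) : dt u v = dt v u := by
  simp only [dt]
  ring

theorem mem_iff {A : Finset Pl} {p w : Pl} :
    w ∈ NC A p ↔ ∀ q ∈ A.erase p, 0 < dt (q - p) w := by
  constructor
  · intro h q hq
    rw [sub_dt, sub_pos]
    exact h q (Finset.mem_of_mem_erase hq) (Finset.ne_of_mem_erase hq)
  · intro h q hq hqp
    have := h q (Finset.mem_erase.2 ⟨hqp, hq⟩)
    rwa [sub_dt, sub_pos] at this

end Pool.Agent.Lib.MP_4e7804_co.N3.SectorN

namespace Pool.Agent.Lib.MP_4e7804_co.N3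

open SectorN

theorem tSector : StmtSector := by
  classical
  intro A p hp hA hne
  obtain ⟨w0, hw0⟩ := hne
  have hpos : ∀ q ∈ A.erase p, 0 < dt (q - p) w0 := mem_iff.1 hw0
  have hB : (A.erase p).Nonempty := by
    rw [← Finset.card_pos, Finset.card_erase_of_mem hp]
    have := Finset.card_pos.2 ⟨p, hp⟩
    omega
  obtain ⟨qM, hqM, hM⟩ := Finset.exists_max_image (A.erase p)
    (fun q => cr w0 (q - p) / dt (q - p) w0) hB
  obtain ⟨qm, hqm, hm⟩ := Finset.exists_min_image (A.erase p)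
    (fun q => cr w0 (q - p) / dt (q - p) w0) hB
  have hN : 0 < w0.1 ^ 2 + w0.2 ^ 2 := by
    have h1 := hpos qM hqM
    by_contra h
    have h2 : w0.1 ^ 2 + w0.2 ^ 2 = 0 := le_antisymm (not_lt.1 h) (by positivity)
    have h3 : w0.1 = 0 := by nlinarith [sq_nonneg w0.1, sq_nonneg w0.2]
    have h4 : w0.2 = 0 := by nlinarith [sq_nonneg w0.1, sq_nonneg w0.2]
    simp only [dt, h3, h4, mul_zero, add_zero, lt_irrefl] at h1
  -- cross products in the order of the slopes
  have hcr : ∀ q ∈ A.erase p, ∀ q' ∈ A.erase p,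
      cr w0 (q - p) / dt (q - p) w0 ≤ cr w0 (q' - p) / dt (q' - p) w0 →
      0 ≤ cr (q - p) (q' - p) := by
    intro q hq q' hq' h
    rw [div_le_div_iff₀ (hpos q hq) (hpos q' hq')] at h
    have h1 := id2 w0 (q - p) (q' - p)
    have h2 : 0 ≤ (w0.1 ^ 2 + w0.2 ^ 2) * cr (q - p) (q' - p) := by
      rw [h1]
      linarith
    exact nonneg_of_mul_nonneg_right h2 hN
  have hval : ∀ q ∈ A.erase p, ∀ w : Pl, 0 < dt (q - p) w ↔
      0 < dt w0 w + cr w0 w * (cr w0 (q - p) / dt (q - p) w0) := by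
    intro q hq w
    have h0 := hpos q hq
    have h1 := id1 w0 (q - p) w
    have h2 : (w0.1 ^ 2 + w0.2 ^ 2) * dt (q - p) w =
        dt (q - p) w0 * (dt w0 w + cr w0 w * (cr w0 (q - p) / dt (q - p) w0)) := by
      rw [h1]
      field_simp
    constructor
    · intro h
      have h3 := mul_pos hN h
      rw [h2] at h3
      exact (mul_pos_iff_of_pos_left h0).1 h3
    · intro h
      have h3 := mul_pos h0 h
      rw [← h2] at h3
      exact (mul_pos_iff_of_pos_left hN).1 h3
  refine ⟨((qM - p).2, -(qM - p).1), (-(qm - p).2, (qm - p).1), ?_, ?_, ?_, ?_, ?_⟩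
  · intro h
    have h1 := hpos qM hqM
    have h2 : (qM - p).2 = 0 := congrArg Prod.fst h
    have h3 : -(qM - p).1 = 0 := congrArg Prod.snd h
    simp only [dt, h2, neg_eq_zero.1 h3, zero_mul, add_zero, lt_irrefl] at h1
  · intro h
    have h1 := hpos qm hqm
    have h2 : -(qm - p).2 = 0 := congrArg Prod.fst h
    have h3 : (qm - p).1 = 0 := congrArg Prod.snd h
    simp only [dt, neg_eq_zero.1 h2, h3, zero_mul, add_zero, lt_irrefl] at h1
  · have h1 := hcr qm hqm qM hqM (hm qM hqM)
    have h2 : cr ((qM - p).2, -(qM - p).1) (-(qm - p).2, (qm - p).1) = cr (qm - p) (qM - p) := by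
      simp only [cr]
      ring
    rw [h2]
    exact h1
  · intro w
    have e1 : cr ((qM - p).2, -(qM - p).1) w = dt (qM - p) w := by
      simp only [cr, dt]
      ring
    have e2 : cr w (-(qm - p).2, (qm - p).1) = dt (qm - p) w := by
      simp only [cr, dt]
      ring
    rw [e1, e2, mem_iff]
    constructor
    · exact fun h => ⟨h qM hqM, h qm hqm⟩
    · rintro ⟨h1, h2⟩ q hq
      rw [hval q hq]
      rw [hval qM hqM] at h1
      rw [hval qm hqm] at h2
      rcases le_total 0 (cr w0 w) with hc | hc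
      · have := mul_le_mul_of_nonneg_left (hm q hq) hc
        linarith
      · have := mul_le_mul_of_nonpos_left (hM q hq) hc
        linarith
  · have hl : ∀ q : Pl, dt q ((qM - p).2, -(qM - p).1) =
        dt p ((qM - p).2, -(qM - p).1) + cr (q - p) (qM - p) := by
      intro q
      simp only [cr, dt, Prod.fst_sub, Prod.snd_sub]
      ring
    have h1 : dt p ((qM - p).2, -(qM - p).1) = psi A ((qM - p).2, -(qM - p).1) := by
      apply le_antisymm _ (psi_le hp _)
      rw [le_psi_iff ⟨p, hp⟩]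
      intro q hq
      by_cases hqp : q = p
      · rw [hqp]
      · have hq' := Finset.mem_erase.2 ⟨hqp, hq⟩
        have h2 := hcr q hq' qM hqM (hM q hq')
        rw [hl q]
        linarith
    rw [CL_iff ⟨p, hp⟩]
    refine ⟨p, hp, qM, Finset.mem_of_mem_erase hqM, (Finset.ne_of_mem_erase hqM).symm, h1, ?_⟩
    rw [← h1, hl qM]
    have h3 : cr (qM - p) (qM - p) = 0 := by
      simp only [cr]
      ring
    rw [h3, add_zero]

end Pool.Agent.Lib.MP_4e7804_co.N3
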