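import Pool.Agent.Lib.MP_4e7804_co.N3.Spec2

/-!
# n = 3: the spokes
-/

set_option autoImplicit false

namespace Pool.Agent.Lib.MP_4e7804_co.N3.SpokeN

open MvPolynomial

section

variable {L : Type} [Field L] [Algebra ℂ L] (v : VF L)

theorem nm_zero : v.nm 0 = 0 := (v.eq_zero 0).2 rfl

theorem nm_pos {x : L} (hx : x ≠ 0) : 0 < v.nm x :=
  lt_of_le_of_ne (v.nonneg x) fun h => hx ((v.eq_zero x).1 h.symm)

theorem nm_one : v.nm 1 = 1 := by
  have := v.triv 1 one_ne_zero
  simpa using this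

theorem nm_pow (x : L) (n : ℕ) : v.nm (x ^ n) = v.nm x ^ n := by
  induction n with
  | zero => simp [nm_one v]
  | succ n ih => rw [pow_succ, pow_succ, v.mul, ih]

theorem nm_inv (x : L) : v.nm x⁻¹ = (v.nm x)⁻¹ := by
  by_cases hx : x = 0
  · subst hx
    simp [nm_zero v]
  · have h := v.mul x x⁻¹
    rw [mul_inv_cancel₀ hx, nm_one] at h
    exact eq_inv_of_mul_eq_one_right h.symm

theorem nm_zpow (x : L) (n : ℤ) : v.nm (x ^ n) = v.nm x ^ n := by
  cases n with
  | ofNat n => simp [nm_pow v]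
  | negSucc n => rw [zpow_negSucc, zpow_negSucc, nm_inv, nm_pow]

theorem nm_neg (x : L) : v.nm (-x) = v.nm x := by
  have h := v.triv (-1) (neg_ne_zero.2 one_ne_zero)
  have h1 : -x = algebraMap ℂ L (-1) * x := by simp
  rw [h1, v.mul, h, one_mul]

theorem nm_sub (x y : L) : v.nm (x - y) ≤ max (v.nm x) (v.nm y) := by
  rw [sub_eq_add_neg, ← nm_neg v y]
  exact v.add _ _

theorem nm_sum {ι : Type*} (s : Finset ι) (f : ι → L) (B : ℝ) (hB : 0 ≤ B)
    (h : ∀ i ∈ s, v.nm (f i) ≤ B) : v.nm (∑ i ∈ s, f i) ≤ B := by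
  classical
  induction s using Finset.induction_on with
  | empty => simpa [nm_zero v] using hB
  | insert a s ha ih =>
    rw [Finset.sum_insert ha]
    exact (v.add _ _).trans (max_le (h a (Finset.mem_insert_self _ _))
      (ih fun i hi => h i (Finset.mem_insert_of_mem hi)))

theorem gen_lb {z : Fin 2 → ℤ} {x : Fin 2 → L} (h : GenPt v z x) (G : MvPolynomial (Fin 2) ℂ)
    (m : Fin 2 →₀ ℕ) (hm : m ∈ G.support) :
    Real.exp (-((z 0 : ℝ) * m 0 + (z 1 : ℝ) * m 1)) ≤ v.nm (aeval x G) := by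
  obtain ⟨m', hm', h1, h2⟩ := h G (by rintro rfl; simp at hm)
  rw [h1]
  exact Real.exp_le_exp.2 (neg_le_neg (h2 m hm))

theorem gen_X {z : Fin 2 → ℤ} {x : Fin 2 → L} (h : GenPt v z x) (k : Fin 2) :
    v.nm (x k) = Real.exp (-(z k : ℝ)) := by
  obtain ⟨m, hm, h1, -⟩ := h (X k) (X_ne_zero k)
  rw [aeval_X] at h1
  rw [h1]
  rw [support_X, Finset.mem_singleton] at hm
  subst hm
  fin_cases k <;> simp

end

theorem hull_le {A : Finset Pl} (w x : Pl) (hx : x ∈ convexHull ℝ (A : Set Pl)) :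
    psi A w ≤ dt x w := by
  have h : convexHull ℝ (A : Set Pl) ⊆ {x | psi A w ≤ dt x w} := by
    refine convexHull_min (fun x hx => psi_le hx w) ?_
    intro x hx y hy a b ha hb hab
    have h1 : dt (a • x + b • y) w = a * dt x w + b * dt y w := by
      simp only [dt, Prod.fst_add, Prod.snd_add, Prod.smul_fst, Prod.smul_snd, smul_eq_mul]
      ring
    have hx' : psi A w ≤ dt x w := hx
    have hy' : psi A w ≤ dt y w := hy
    show psi A w ≤ dt (a • x + b • y) w
    rw [h1]
    have h2 := mul_le_mul_of_nonneg_left hx' ha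
    have h3 := mul_le_mul_of_nonneg_left hy' hb
    have h4 : psi A w = a * psi A w + b * psi A w := by rw [← add_mul, hab, one_mul]
    linarith
  exact h hx

theorem dt_toPl (p w : Fin 2 → ℤ) (a b : Fin 2) (hab : (a = 0 ∧ b = 1) ∨ (a = 1 ∧ b = 0)) :
    dt (toPl p) (toPl w) = (w a : ℝ) * p a + (w b : ℝ) * p b := by
  simp only [dt, toPl]
  rcases hab with ⟨rfl, rfl⟩ | ⟨rfl, rfl⟩ <;> ring

theorem exp_zpow (x : ℝ) (n : ℤ) : Real.exp (-x) ^ n = Real.exp (-(x * n)) := by
  cases n with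
  | ofNat n =>
    rw [Int.ofNat_eq_natCast, zpow_natCast, ← Real.exp_nat_mul]
    congr 1
    push_cast
    ring
  | negSucc n =>
    rw [zpow_negSucc, ← Real.exp_nat_mul, ← Real.exp_neg]
    congr 1
    rw [Int.cast_negSucc]
    ring

/-- the root of the polynomial in one variable -/
theorem exRoot (hRoot : StmtRoot) {L : Type} [iF : Field L] [iA : Algebra ℂ L] [iC : IsAlgClosed L]
    (v : VF L) (S : Finset (Fin 2 → ℤ)) (c : (Fin 2 → ℤ) → ℂ) (w : Fin 2 → ℤ) (a b : Fin 2)
    (hab : (a = 0 ∧ b = 1) ∨ (a = 1 ∧ b = 0)) (ψ : ℤ) (l : ℕ)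
    (hψ : ∀ s ∈ S, (ψ : ℝ) ≤ (w a : ℝ) * s a + (w b : ℝ) * s b)
    (hc : ∀ s ∈ S, c s ≠ 0) (y : Fin 2 → L) (hy : GenPt v ![w b, ψ + l] y)
    (p q : Fin 2 → ℤ) (hp : p ∈ S) (hq : q ∈ S)
    (hpψ : (ψ : ℝ) = (w a : ℝ) * p a + (w b : ℝ) * p b)
    (hqψ : (ψ : ℝ) = (w a : ℝ) * q a + (w b : ℝ) * q b) (hpq : p a ≠ q a) :
    ∃ r : L, v.nm r = Real.exp (-(w a : ℝ)) ∧
      ∑ s ∈ S, algebraMap ℂ L (c s) * (r ^ s a * y 0 ^ s b) = y 1 := by
  have hy0 : v.nm (y 0) = Real.exp (-(w b : ℝ)) := by simpa using gen_X v hy 0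
  have hy1 : v.nm (y 1) = Real.exp (-((ψ : ℝ) + l)) := by simpa using gen_X v hy 1
  have hy0' : y 0 ≠ 0 := by
    intro h
    rw [h, nm_zero] at hy0
    exact (Real.exp_pos _).ne hy0
  obtain ⟨N, hN⟩ : ∃ N : ℕ, ∀ s ∈ S, ∀ k, 0 ≤ s k + (N : ℤ) := by
    refine ⟨S.sup fun s => (s 0).natAbs + (s 1).natAbs, fun s hs k => ?_⟩
    have h := Finset.le_sup (f := fun s : Fin 2 → ℤ => (s 0).natAbs + (s 1).natAbs) hs
    fin_cases k
    · simp only [Fin.zero_eta]
      omega
    · simp only [Fin.mk_one]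
      omega
  set G : Polynomial L := ∑ s ∈ S, Polynomial.C (algebraMap ℂ L (c s) * y 0 ^ s b) *
    Polynomial.X ^ (s a + N).toNat - Polynomial.C (y 1) * Polynomial.X ^ N with hG
  have hcoeff : ∀ m, G.coeff m = ∑ s ∈ S, (if m = (s a + N).toNat then
      algebraMap ℂ L (c s) * y 0 ^ s b else 0) - (if m = N then y 1 else 0) := by
    intro m
    rw [hG, Polynomial.coeff_sub, Polynomial.finsetSum_coeff]
    congr 1
    · refine Finset.sum_congr rfl fun s _ => ?_
      rw [Polynomial.coeff_C_mul, Polynomial.coeff_X_pow, mul_ite, mul_one, mul_zero]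
    · rw [Polynomial.coeff_C_mul, Polynomial.coeff_X_pow, mul_ite, mul_one, mul_zero]
  -- norm of the terms
  have hterm : ∀ s ∈ S, v.nm (algebraMap ℂ L (c s) * y 0 ^ s b) =
      Real.exp (-((w b : ℝ) * s b)) := by
    intro s hs
    rw [v.mul, v.triv _ (hc s hs), one_mul, nm_zpow, hy0, exp_zpow]
  have hup : ∀ m : ℕ, v.nm (G.coeff m) ≤
      Real.exp (-(ψ : ℝ) - (w a : ℝ) * N + (w a : ℝ) * m) := by
    intro m
    rw [hcoeff]
    refine (nm_sub v _ _).trans (max_le ?_ ?_)
    · refine nm_sum v _ _ _ (Real.exp_pos _).le fun s hs => ?_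
      split_ifs with h
      · rw [hterm s hs, Real.exp_le_exp]
        have h1 := hψ s hs
        have h2 : (m : ℝ) = s a + N := by
          have h3 : (m : ℤ) = s a + N := by
            rw [h, Int.toNat_of_nonneg (hN s hs a)]
          exact_mod_cast h3
        rw [h2]
        linarith
      · rw [nm_zero]
        exact (Real.exp_pos _).le
    · split_ifs with h
      · rw [hy1, Real.exp_le_exp, h]
        have : (0 : ℝ) ≤ l := Nat.cast_nonneg l
        linarith
      · rw [nm_zero]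
        exact (Real.exp_pos _).le
  have hlow : ∀ p ∈ S, (ψ : ℝ) = (w a : ℝ) * p a + (w b : ℝ) * p b →
      Real.exp (-((w b : ℝ) * p b)) ≤ v.nm (G.coeff (p a + N).toNat) := by
    intro p hp _
    set k := (p a + N).toNat with hk
    have hkp : (k : ℤ) = p a + N := Int.toNat_of_nonneg (hN p hp a)
    let e : (Fin 2 → ℤ) → Fin 2 →₀ ℕ := fun s => Finsupp.single 0 (s b + N).toNat
    let e' : Fin 2 →₀ ℕ := Finsupp.single 0 N + Finsupp.single 1 1
    let H : MvPolynomial (Fin 2) ℂ := ∑ s ∈ S, (if k = (s a + N).toNat then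
      monomial (e s) (c s) else 0) - (if k = N then monomial e' 1 else 0)
    have he' : e' ≠ e p := by
      intro h
      have := DFunLike.congr_fun h 1
      simp [e', e] at this
    have hH : coeff (e p) H = c p := by
      show coeff (e p) (_ - _) = _
      rw [coeff_sub, coeff_sum, Finset.sum_eq_single p]
      · rw [if_pos rfl, coeff_monomial, if_pos rfl]
        split_ifs with h
        · rw [coeff_monomial, if_neg he', sub_zero]
        · rw [coeff_zero, sub_zero]
      · intro s hs hsp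
        split_ifs with h
        · rw [coeff_monomial, if_neg]
          intro h1
          apply hsp
          have h2 : (s b + N).toNat = (p b + N).toNat := by
            have := DFunLike.congr_fun h1 0
            simpa [e] using this
          have h3 := hN s hs a
          have h4 := hN s hs b
          have h5 := hN p hp a
          have h6 := hN p hp b
          have h7 : s a = p a := by omega
          have h8 : s b = p b := by omega
          funext x
          rcases hab with ⟨rfl, rfl⟩ | ⟨rfl, rfl⟩ <;> fin_cases x <;> assumption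
        · exact coeff_zero _
      · exact fun h => absurd hp h
    have hmem : e p ∈ H.support := by
      rw [mem_support_iff, hH]
      exact hc p hp
    have h1 := gen_lb v hy H (e p) hmem
    have h2 : aeval y H = y 0 ^ N * G.coeff k := by
      rw [hcoeff]
      show aeval y (_ - _) = _
      rw [map_sub, map_sum, mul_sub, Finset.mul_sum]
      congr 1
      · refine Finset.sum_congr rfl fun s hs => ?_
        split_ifs with h
        · rw [aeval_monomial, Finsupp.prod_single_index (by simp)]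
          rw [← zpow_natCast (y 0) (s b + N).toNat, Int.toNat_of_nonneg (hN s hs b),
            zpow_add₀ hy0', zpow_natCast]
          ring
        · rw [map_zero, mul_zero]
      · split_ifs with h
        · rw [aeval_monomial, Finsupp.prod_add_index' (by simp) (by intros; rw [pow_add]),
            Finsupp.prod_single_index (by simp), Finsupp.prod_single_index (by simp)]
          simp
        · rw [map_zero, mul_zero]
    rw [h2, v.mul, nm_pow, hy0, ← Real.exp_nat_mul] at h1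
    have h3 : ((e p 0 : ℕ) : ℝ) = p b + N := by
      have h4 : ((e p 0 : ℕ) : ℤ) = p b + N := by
        simp only [e, Finsupp.single_eq_same]
        exact Int.toNat_of_nonneg (hN p hp b)
      exact_mod_cast h4
    have h4 : e p 1 = 0 := by simp [e]
    rw [h3, h4] at h1
    have h5 : Real.exp (-((w b : ℝ) * p b)) = Real.exp ((N : ℝ) * (w b : ℝ)) *
        Real.exp (-(((![w b, ψ + l] : Fin 2 → ℤ) 0 : ℝ) * (p b + N) +
          ((![w b, ψ + l] : Fin 2 → ℤ) 1 : ℝ) * ((0 : ℕ) : ℝ))) := by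
      rw [← Real.exp_add]
      congr 1
      simp
      ring
    rw [h5]
    calc _ ≤ Real.exp ((N : ℝ) * (w b : ℝ)) *
        (Real.exp ((N : ℝ) * -(w b : ℝ)) * v.nm (G.coeff k)) :=
          mul_le_mul_of_nonneg_left h1 (Real.exp_pos _).le
      _ = v.nm (G.coeff k) := by
        rw [← mul_assoc, ← Real.exp_add, mul_neg, add_neg_cancel, Real.exp_zero, one_mul]
  have hρ : ∀ m : ℕ, Real.exp (-(w a : ℝ)) ^ m = Real.exp (-((w a : ℝ) * m)) := by
    intro m
    rw [← Real.exp_nat_mul]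
    congr 1
    ring
  have hmax : ∀ p ∈ S, (ψ : ℝ) = (w a : ℝ) * p a + (w b : ℝ) * p b → ∀ m,
      v.nm (G.coeff m) * Real.exp (-(w a : ℝ)) ^ m ≤
        v.nm (G.coeff (p a + N).toNat) * Real.exp (-(w a : ℝ)) ^ (p a + N).toNat := by
    intro p hp h m
    have h1 := hlow p hp h
    have h2 := hup m
    rw [hρ, hρ]
    have h3 : (((p a + N).toNat : ℕ) : ℝ) = p a + N := by
      have h4 : (((p a + N).toNat : ℕ) : ℤ) = p a + N := Int.toNat_of_nonneg (hN p hp a)
      exact_mod_cast h4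
    rw [h3]
    calc _ ≤ Real.exp (-(ψ : ℝ) - (w a : ℝ) * N + (w a : ℝ) * m) * Real.exp (-((w a : ℝ) * m)) :=
          mul_le_mul_of_nonneg_right h2 (Real.exp_pos _).le
      _ = Real.exp (-((w b : ℝ) * p b)) * Real.exp (-((w a : ℝ) * (p a + N))) := by
          rw [← Real.exp_add, ← Real.exp_add]
          congr 1
          rw [h]
          ring
      _ ≤ _ := mul_le_mul_of_nonneg_right h1 (Real.exp_pos _).le
  have hne : (p a + N).toNat ≠ (q a + N).toNat := by
    have h3 := hN p hp a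
    have h5 := hN q hq a
    omega
  have hnz : G.coeff (p a + N).toNat ≠ 0 := by
    intro h
    have h1 := hlow p hp hpψ
    rw [h, nm_zero] at h1
    exact absurd h1 (not_le.2 (Real.exp_pos _))
  obtain ⟨r, hr, hr0⟩ := hRoot L iF iA iC v G (Real.exp (-(w a : ℝ))) (Real.exp_pos _)
    (p a + N).toNat (q a + N).toNat hne hnz (hmax p hp hpψ) (hmax q hq hqψ)
  refine ⟨r, hr, ?_⟩
  have hr' : r ≠ 0 := by
    intro h
    rw [h, nm_zero] at hr
    exact (Real.exp_pos _).ne hr
  have h1 : r ^ N * (∑ s ∈ S, algebraMap ℂ L (c s) * (r ^ s a * y 0 ^ s b) - y 1) = 0 := by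
    rw [← hr0, hG, Polynomial.eval_sub, Polynomial.eval_finsetSum, mul_sub, Finset.mul_sum]
    congr 1
    · refine Finset.sum_congr rfl fun s hs => ?_
      rw [Polynomial.eval_mul, Polynomial.eval_C, Polynomial.eval_pow, Polynomial.eval_X,
        ← zpow_natCast r (s a + N).toNat, Int.toNat_of_nonneg (hN s hs a), zpow_add₀ hr',
        zpow_natCast]
      ring
    · rw [Polynomial.eval_mul, Polynomial.eval_C, Polynomial.eval_pow, Polynomial.eval_X]
      ring
  rcases mul_eq_zero.1 h1 with h | h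
  · exact absurd h (pow_ne_zero N hr')
  · exact sub_eq_zero.1 h

/-- the integral case -/
theorem main (hVF : StmtVF) (hRoot : StmtRoot) (hClr : StmtClr) (hTie : StmtTie) (hVal : StmtVal)
    (S W : Fin 3 → Finset (Fin 2 → ℤ)) (c : Fin 3 → (Fin 2 → ℤ) → ℂ)
    (F : MvPolynomial (Fin 3) ℂ) (hS : Sit S W c F) (i : Fin 3) (w : Fin 2 → ℤ)
    (hw : toPl w ∈ CL (rv (W i))) (hj : ∀ j, j ≠ i → toPl w ∉ CL (rv (W j))) (l : ℕ) :
    (fun j => psi (rv (W j)) (toPl w) + if j = i then (l : ℝ) else 0) ∈ trop (Mx F) := by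
  obtain ⟨L, iF, iA, iC, v, hgen⟩ := hVF
  have hne : ∀ j, (rv (W j)).Nonempty := by
    intro j
    obtain ⟨p, hp⟩ := (hS.supp.cp j).1
    exact ⟨_, toPl_mem_rv hp⟩
  have hc : ∀ j, ∀ s ∈ S j, c j s ≠ 0 := by
    intro j s hs
    exact hS.ind.ne_zero (⟨j, s, hs⟩ : Σ i : Fin 3, {p // p ∈ S i})
  obtain ⟨x, hx, y', hy', hxy, e1, e2⟩ := (CL_iff (hne i)).1 hw
  obtain ⟨p, hp, rfl⟩ := mem_rv.1 hx
  obtain ⟨q, hq, rfl⟩ := mem_rv.1 hy'
  have hpq : p ≠ q := fun h => hxy (by rw [h])
  obtain ⟨a, b, hab, hpa⟩ : ∃ a b : Fin 2, ((a = 0 ∧ b = 1) ∨ (a = 1 ∧ b = 0)) ∧ p a ≠ q a := by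
    by_cases h0 : p 0 = q 0
    · refine ⟨1, 0, Or.inr ⟨rfl, rfl⟩, fun h1 => hpq ?_⟩
      funext k
      fin_cases k
      · exact h0
      · exact h1
    · exact ⟨0, 1, Or.inl ⟨rfl, rfl⟩, h0⟩
  have hψ0 : psi (rv (W i)) (toPl w) = ((w a * p a + w b * p b : ℤ) : ℝ) := by
    rw [← e1, dt_toPl p w a b hab]
    push_cast
    ring
  have hψq : ((w a * p a + w b * p b : ℤ) : ℝ) = (w a : ℝ) * q a + (w b : ℝ) * q b := by
    rw [← hψ0, ← e2, dt_toPl q w a b hab]
  obtain ⟨y, hy⟩ := hgen ![w b, (w a * p a + w b * p b) + l]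
  obtain ⟨r, hr, hsum⟩ := exRoot hRoot v (S i) (c i) w a b hab (w a * p a + w b * p b) l
    (fun s hs => by
      rw [← hψ0, ← dt_toPl s w a b hab]
      exact hull_le _ _ (hS.supp.hull i s hs)) (hc i) y hy p q (hS.supp.sub i hp)
    (hS.supp.sub i hq) (by push_cast; ring) hψq hpa
  have hy0 : v.nm (y 0) = Real.exp (-(w b : ℝ)) := by simpa using gen_X v hy 0
  have hy1 : v.nm (y 1) = Real.exp (-(((w a * p a + w b * p b : ℤ) : ℝ) + l)) := by
    have := gen_X v hy 1
    simpa using this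
  have hne0 : ∀ {x : L} {u : ℝ}, v.nm x = Real.exp u → x ≠ 0 := by
    intro x u hx hx0
    rw [hx0, nm_zero] at hx
    exact (Real.exp_pos _).ne hx
  obtain ⟨t, hta, htb⟩ : ∃ t : Fin 2 → L, t a = r ∧ t b = y 0 := by
    rcases hab with ⟨rfl, rfl⟩ | ⟨rfl, rfl⟩
    · exact ⟨![r, y 0], by simp⟩
    · exact ⟨![y 0, r], by simp⟩
  have hnt : ∀ k, v.nm (t k) = Real.exp (-(w k : ℝ)) := by
    intro k
    have h : k = a ∨ k = b := by
      rcases hab with ⟨rfl, rfl⟩ | ⟨rfl, rfl⟩ <;> fin_cases k <;> simp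
    rcases h with rfl | rfl
    · rw [hta, hr]
    · rw [htb, hy0]
  have ht0 : ∀ k, t k ≠ 0 := fun k => hne0 (hnt k)
  have hwt : wt v t = toPl w := by
    simp only [wt, hnt, Real.log_exp, neg_neg, toPl]
  have hev : evL (S i) (c i) t = y 1 := by
    rw [← hsum]
    refine Finset.sum_congr rfl fun s _ => ?_
    congr 1
    rw [← hta, ← htb]
    rcases hab with ⟨rfl, rfl⟩ | ⟨rfl, rfl⟩
    · rfl
    · exact mul_comm _ _
  have hnm : ∀ j, v.nm (evL (S j) (c j) t) =
      Real.exp (-(psi (rv (W j)) (toPl w) + if j = i then (l : ℝ) else 0)) := by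
    intro j
    by_cases hji : j = i
    · subst hji
      rw [if_pos rfl, hev, hy1, hψ0]
    · rw [if_neg hji, add_zero]
      have h := (hVal L iF iA v (S j) (W j) (c j) (hS.supp.cp j) (hS.supp.sub j)
        (hS.supp.hull j) (hc j) t ht0).2.1
      rw [hwt] at h
      exact h (hj j hji)
  have hz : aeval (fun j => evL (S j) (c j) t) F = 0 :=
    (hClr S c F).2.1 ((hS.imp.2 F).1 dvd_rfl) L iF iA t ht0
  have h := hTie L iF iA v F (fun j => evL (S j) (c j) t) hS.imp.1.ne_zero
    (fun j => hne0 (hnm j)) hz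
  simpa only [hnm, Real.log_exp, neg_neg] using h

end Pool.Agent.Lib.MP_4e7804_co.N3.SpokeN

namespace Pool.Agent.Lib.MP_4e7804_co.N3

open SpokeN

/-- **Spoke** -/
theorem tSpoke (h1 : StmtVF) (h2 : StmtRoot) (h3 : StmtClr) (h4 : StmtTie) (h5 : StmtVal)
    (h6 : StmtTClo) (_h7 : StmtSurf) : StmtSpoke := by
  intro S W c F hS i w hw hj l hl
  have hne : ∀ j, (rv (W j)).Nonempty := by
    intro j
    obtain ⟨p, hp⟩ := (hS.supp.cp j).1
    exact ⟨_, toPl_mem_rv hp⟩
  obtain ⟨hclosed, hscale⟩ := h6 (Mx F)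
  -- an integral direction
  obtain ⟨ρ, s, hs, hρ⟩ : ∃ (ρ : Fin 2 → ℤ) (s : ℝ), 0 < s ∧ w = s • toPl ρ := by
    obtain ⟨x, hx, y, hy, hxy, e1, e2⟩ := (CL_iff (hne i)).1 hw
    obtain ⟨p, hp, rfl⟩ := mem_rv.1 hx
    obtain ⟨q, hq, rfl⟩ := mem_rv.1 hy
    have hpq : p ≠ q := fun h => hxy (by rw [h])
    have hd : ((p 0 : ℝ) - q 0) * w.1 + (p 1 - q 1) * w.2 = 0 := by
      have h : dt (toPl p) w = dt (toPl q) w := by rw [e1, e2]
      simp only [dt, toPl] at h
      linarith
    have hdd : 0 < ((p 0 : ℝ) - q 0) ^ 2 + ((p 1 : ℝ) - q 1) ^ 2 := by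
      by_contra hcon
      have h3 := sq_nonneg ((p 0 : ℝ) - q 0)
      have h4 := sq_nonneg ((p 1 : ℝ) - q 1)
      have h5 : ((p 0 : ℝ) - q 0) = 0 := pow_eq_zero_iff two_ne_zero |>.1 (by linarith)
      have h6 : ((p 1 : ℝ) - q 1) = 0 := pow_eq_zero_iff two_ne_zero |>.1 (by linarith)
      apply hpq
      funext k
      fin_cases k
      · exact_mod_cast sub_eq_zero.1 h5
      · exact_mod_cast sub_eq_zero.1 h6
    set d0 : ℝ := (p 0 : ℝ) - q 0 with hd0
    set d1 : ℝ := (p 1 : ℝ) - q 1 with hd1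
    set σ : ℝ := (-d1 * w.1 + d0 * w.2) / (d0 ^ 2 + d1 ^ 2) with hσ
    have hw1 : w.1 = σ * -d1 := by
      rw [hσ, div_mul_eq_mul_div, eq_div_iff hdd.ne']
      linear_combination d0 * hd
    have hw2 : w.2 = σ * d0 := by
      rw [hσ, div_mul_eq_mul_div, eq_div_iff hdd.ne']
      linear_combination d1 * hd
    rcases lt_trichotomy σ 0 with h | h | h
    · refine ⟨![p 1 - q 1, -(p 0 - q 0)], -σ, by linarith, ?_⟩
      ext
      · simp [toPl, hw1, hd1]
        ring
      · simp [toPl, hw2, hd0]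
        ring
    · refine ⟨0, 1, one_pos, ?_⟩
      ext
      · simp [toPl, hw1, h]
      · simp [toPl, hw2, h]
    · refine ⟨![-(p 1 - q 1), p 0 - q 0], σ, h, ?_⟩
      ext
      · simp [toPl, hw1, hd1]
      · simp [toPl, hw2, hd0]
  have hρi : toPl ρ ∈ CL (rv (W i)) := by
    have h : toPl ρ = s⁻¹ • w := by rw [hρ, smul_smul, inv_mul_cancel₀ hs.ne', one_smul]
    rw [h]
    exact CL_smul (hne i) (inv_nonneg.2 hs.le) hw
  have hρj : ∀ j, j ≠ i → toPl ρ ∉ CL (rv (W j)) := by
    intro j hji h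
    apply hj j hji
    rw [hρ]
    exact CL_smul (hne j) hs.le h
  -- the positive rational points
  have key : ∀ n N : ℕ, 0 < N → (fun j => psi (rv (W j)) (toPl ρ) +
      if j = i then ((n : ℝ) / N) else 0) ∈ trop (Mx F) := by
    intro n N hN
    have hN' : (0 : ℝ) < N := Nat.cast_pos.2 hN
    have e : toPl ((N : ℤ) • ρ) = (N : ℝ) • toPl ρ := by
      ext <;> simp [toPl]
    have hi : toPl ((N : ℤ) • ρ) ∈ CL (rv (W i)) := by
      rw [e]
      exact CL_smul (hne i) hN'.le hρi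
    have hj' : ∀ j, j ≠ i → toPl ((N : ℤ) • ρ) ∉ CL (rv (W j)) := by
      intro j hji h
      apply hρj j hji
      have h' : toPl ρ = (N : ℝ)⁻¹ • toPl ((N : ℤ) • ρ) := by
        rw [e, smul_smul, inv_mul_cancel₀ hN'.ne', one_smul]
      rw [h']
      exact CL_smul (hne j) (inv_nonneg.2 hN'.le) h
    have h := hscale _ (SpokeN.main h1 h2 h3 h4 h5 S W c F hS i ((N : ℤ) • ρ) hi hj' n)
      (N : ℝ)⁻¹ (inv_pos.2 hN')
    convert h using 1
    funext j
    rw [Pi.smul_apply, e, psi_smul (hne j) _ hN'.le, smul_eq_mul, mul_add, ← mul_assoc,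
      inv_mul_cancel₀ hN'.ne', one_mul]
    congr 1
    split_ifs
    · rw [div_eq_inv_mul]
    · rw [mul_zero]
  -- all real points over ρ
  have real : ∀ l : ℝ, 0 ≤ l → (fun j => psi (rv (W j)) (toPl ρ) +
      if j = i then l else 0) ∈ trop (Mx F) := by
    intro l hl
    have hcont : Continuous fun l : ℝ => (fun j => psi (rv (W j)) (toPl ρ) +
        if j = i then l else 0 : Sp) := by
      refine continuous_pi fun j => continuous_const.add ?_
      by_cases hji : j = i
      · simp only [if_pos hji]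
        exact continuous_id
      · simp only [if_neg hji]
        exact continuous_const
    have hcl : IsClosed {l : ℝ | (fun j => psi (rv (W j)) (toPl ρ) +
        if j = i then l else 0 : Sp) ∈ trop (Mx F)} := hclosed.preimage hcont
    have hmem : l ∈ closure {l : ℝ | (fun j => psi (rv (W j)) (toPl ρ) +
        if j = i then l else 0 : Sp) ∈ trop (Mx F)} := by
      rw [Metric.mem_closure_iff]
      intro ε hε
      obtain ⟨x, hx1, hx2⟩ := exists_rat_btwn (lt_add_of_pos_right l hε)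
      refine ⟨x, ?_, ?_⟩
      · have hx0 : 0 < x := by exact_mod_cast hl.trans_lt hx1
        have h := key x.num.toNat x.den x.den_pos
        have hx' : ((x.num.toNat : ℕ) : ℝ) / x.den = x := by
          have h3 : ((x.num.toNat : ℕ) : ℤ) = x.num :=
            Int.toNat_of_nonneg (Rat.num_nonneg.2 hx0.le)
          have h4 : ((x.num.toNat : ℕ) : ℝ) = (x.num : ℝ) := by exact_mod_cast h3
          rw [h4]
          exact_mod_cast Rat.num_div_den x
        rw [hx'] at h
        exact h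
      · rw [Real.dist_eq, abs_sub_lt_iff]
        constructor <;> linarith
    exact hcl.closure_subset hmem
  have h := hscale _ (real (l / s) (div_nonneg hl hs.le)) s hs
  convert h using 1
  funext j
  rw [Pi.smul_apply, hρ, psi_smul (hne j) _ hs.le, smul_eq_mul, mul_add]
  congr 1
  split_ifs
  · rw [mul_div_cancel₀ _ hs.ne']
  · rw [mul_zero]

end Pool.Agent.Lib.MP_4e7804_co.N3
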