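import Pool.Agent.Lib.MP_4e7804_co.N3.Spec2

/-!
# The points `(psi (rv (W i)) w)_i` are in the tropical hypersurface of the implicit equation
-/

set_option autoImplicit false

namespace Pool.Agent.Lib.MP_4e7804_co.N3.SurfN

open MvPolynomial

private theorem psi_le_hull {A : Finset Pl} {x : Pl}
    (hx : x ∈ convexHull ℝ (A : Set Pl)) (w : Pl) : psi A w ≤ dt x w := by
  have h : convexHull ℝ (A : Set Pl) ⊆ {y | psi A w ≤ dt y w} := by
    apply convexHull_min
    · intro y hy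
      exact psi_le hy w
    · intro y hy z hz a b ha hb hab
      simp only [Set.mem_ofPred_eq, dt, Prod.fst_add, Prod.smul_fst, Prod.snd_add, Prod.smul_snd,
        smul_eq_mul] at hy hz ⊢
      have h1 := mul_le_mul_of_nonneg_left hy ha
      have h2 := mul_le_mul_of_nonneg_left hz hb
      have h3 : psi A w = a * psi A w + b * psi A w := by rw [← add_mul, hab, one_mul]
      rw [h3]
      linarith
  exact h hx

private noncomputable def ex (N : ℕ) (p : Fin 2 → ℤ) : Fin 2 →₀ ℕ :=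
  Finsupp.equivFunOnFinite.symm fun k => (p k + N).toNat

private theorem ex_apply (N : ℕ) (p : Fin 2 → ℤ) (k : Fin 2) : ex N p k = (p k + N).toNat := rfl

private noncomputable def PH (S : Finset (Fin 2 → ℤ)) (c : (Fin 2 → ℤ) → ℂ) (N : ℕ) :
    MvPolynomial (Fin 2) ℂ :=
  ∑ p ∈ S, monomial (ex N p) (c p)

private theorem mem_supp {S : Finset (Fin 2 → ℤ)} {c : (Fin 2 → ℤ) → ℂ} {N : ℕ}
    {m : Fin 2 →₀ ℕ} (h : m ∈ (PH S c N).support) : ∃ p ∈ S, ex N p = m := by
  classical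
  by_contra hcon
  push Not at hcon
  rw [mem_support_iff] at h
  apply h
  rw [PH, coeff_sum]
  apply Finset.sum_eq_zero
  intro p hp
  rw [coeff_monomial, if_neg (hcon p hp)]

private theorem supp_mem {S : Finset (Fin 2 → ℤ)} {c : (Fin 2 → ℤ) → ℂ} {N : ℕ}
    (hN : ∀ p ∈ S, ∀ k, 0 ≤ p k + (N : ℤ)) (hc : ∀ p ∈ S, c p ≠ 0) {p : Fin 2 → ℤ} (hp : p ∈ S) :
    ex N p ∈ (PH S c N).support := by
  classical
  rw [mem_support_iff, PH, coeff_sum, Finset.sum_eq_single p]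
  · rw [coeff_monomial, if_pos rfl]
    exact hc p hp
  · intro q hq hqp
    rw [coeff_monomial, if_neg]
    intro he
    apply hqp
    funext k
    have h1 := DFunLike.congr_fun he k
    rw [ex_apply, ex_apply] at h1
    have h2 := hN q hq k
    have h3 := hN p hp k
    omega
  · exact fun h => absurd hp h

section

variable {L : Type} [Field L] [Algebra ℂ L]

private theorem aeval_PH (S : Finset (Fin 2 → ℤ)) (c : (Fin 2 → ℤ) → ℂ) (N : ℕ)
    (hN : ∀ p ∈ S, ∀ k, 0 ≤ p k + (N : ℤ)) (t : Fin 2 → L) (ht : ∀ k, t k ≠ 0) :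
    aeval t (PH S c N) = (t 0 * t 1) ^ N * evL S c t := by
  rw [PH, map_sum, evL, Finset.mul_sum]
  apply Finset.sum_congr rfl
  intro p hp
  rw [aeval_monomial, Finsupp.prod_fintype _ _ (fun i => pow_zero _), Fin.prod_univ_two,
    ex_apply, ex_apply]
  have h : ∀ k, t k ^ (p k + (N : ℤ)).toNat = t k ^ p k * t k ^ N := by
    intro k
    rw [← zpow_natCast, Int.toNat_of_nonneg (hN p hp k), zpow_add₀ (ht k), zpow_natCast]
  rw [h 0, h 1, mul_pow]
  ring

private theorem nm_one (v : VF L) : v.nm 1 = 1 := by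
  have h := v.triv 1 one_ne_zero
  rwa [map_one] at h

private theorem nm_pow (v : VF L) (x : L) (n : ℕ) : v.nm (x ^ n) = v.nm x ^ n := by
  induction n with
  | zero => rw [pow_zero, pow_zero, nm_one]
  | succ n ih => rw [pow_succ, pow_succ, v.mul, ih]

private theorem nm_gen (v : VF L) {z : Fin 2 → ℤ} {t : Fin 2 → L} (h : GenPt v z t) (k : Fin 2) :
    v.nm (t k) = Real.exp (-(z k : ℝ)) := by
  classical
  obtain ⟨m, hm, h1, -⟩ := h (X k) (X_ne_zero k)
  rw [support_X, Finset.mem_singleton] at hm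
  rw [aeval_X] at h1
  rw [h1, hm]
  congr 1
  fin_cases k
  · simp
  · simp

private theorem gen_ne (v : VF L) {z : Fin 2 → ℤ} {t : Fin 2 → L} (h : GenPt v z t) (k : Fin 2) :
    t k ≠ 0 := by
  intro h0
  have h1 := nm_gen v h k
  rw [h0, (v.eq_zero 0).2 rfl] at h1
  exact (Real.exp_pos _).ne h1

private theorem nm_ev (v : VF L) {z : Fin 2 → ℤ} {t : Fin 2 → L} (h : GenPt v z t)
    (S W : Finset (Fin 2 → ℤ)) (c : (Fin 2 → ℤ) → ℂ) (hW : W.Nonempty) (hWS : W ⊆ S)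
    (hull : ∀ p ∈ S, toPl p ∈ convexHull ℝ (rv W : Set Pl)) (hc : ∀ p ∈ S, c p ≠ 0) :
    v.nm (evL S c t) = Real.exp (-psi (rv W) (toPl z)) := by
  classical
  -- a large shift
  obtain ⟨N, hN⟩ : ∃ N : ℕ, ∀ p ∈ S, ∀ k, 0 ≤ p k + (N : ℤ) := by
    refine ⟨∑ p ∈ S, ∑ k, (p k).natAbs, fun p hp k => ?_⟩
    have h1 : (p k).natAbs ≤ ∑ k, (p k).natAbs :=
      Finset.single_le_sum (f := fun k => (p k).natAbs) (fun _ _ => Nat.zero_le _)
        (Finset.mem_univ k)
    have h2 : ∑ k, (p k).natAbs ≤ ∑ p ∈ S, ∑ k, (p k).natAbs :=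
      Finset.single_le_sum (f := fun p : Fin 2 → ℤ => ∑ k, (p k).natAbs)
        (fun _ _ => Nat.zero_le _) hp
    omega
  obtain ⟨q₀, hq₀⟩ := hW
  have hne : PH S c N ≠ 0 := by
    intro h0
    have h1 := supp_mem hN hc (hWS hq₀)
    rw [h0, support_zero] at h1
    exact absurd h1 (Finset.notMem_empty _)
  obtain ⟨m, hm, h1, h2⟩ := h _ hne
  obtain ⟨p₀, hp₀, rfl⟩ := mem_supp hm
  have hcast : ∀ p ∈ S, ∀ k, ((ex N p k : ℕ) : ℝ) = (p k : ℝ) + N := by
    intro p hp k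
    rw [ex_apply]
    have h3 : (((p k + (N : ℤ)).toNat : ℤ) : ℝ) = ((p k + (N : ℤ) : ℤ) : ℝ) := by
      rw [Int.toNat_of_nonneg (hN p hp k)]
    push_cast at h3
    exact_mod_cast h3
  rw [aeval_PH S c N hN t (gen_ne v h), v.mul, nm_pow, v.mul, nm_gen v h, nm_gen v h,
    hcast p₀ hp₀, hcast p₀ hp₀, ← Real.exp_add, ← Real.exp_nat_mul] at h1
  have h3 : v.nm (evL S c t) = Real.exp (-(dt (toPl p₀) (toPl z))) := by
    have h4 : Real.exp ((N : ℝ) * (-(z 0 : ℝ) + -(z 1 : ℝ))) ≠ 0 := (Real.exp_pos _).ne'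
    apply mul_left_cancel₀ h4
    rw [h1, ← Real.exp_add]
    congr 1
    simp only [dt, toPl]
    ring
  rw [h3]
  congr 2
  apply le_antisymm
  · obtain ⟨q, hq, hq'⟩ := exists_psi (A := rv W) ⟨_, toPl_mem_rv hq₀⟩ (toPl z)
    obtain ⟨q₁, hq₁, rfl⟩ := mem_rv.1 hq
    rw [hq']
    have h5 := h2 _ (supp_mem hN hc (hWS hq₁))
    rw [hcast p₀ hp₀, hcast p₀ hp₀, hcast q₁ (hWS hq₁), hcast q₁ (hWS hq₁)] at h5
    simp only [dt, toPl]
    linarith
  · exact psi_le_hull (hull p₀ hp₀) _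

end

private theorem coeff_ne {S : Fin 3 → Finset (Fin 2 → ℤ)} {c : Fin 3 → (Fin 2 → ℤ) → ℂ}
    (h : Ind S c) (i : Fin 3) (p : Fin 2 → ℤ) (hp : p ∈ S i) : c i p ≠ 0 :=
  AlgebraicIndependent.ne_zero h ⟨i, p, hp⟩

end Pool.Agent.Lib.MP_4e7804_co.N3.SurfN

namespace Pool.Agent.Lib.MP_4e7804_co.N3

open MvPolynomial SurfN

theorem tSurf (hVF : StmtVF) (hClr : StmtClr) (hTie : StmtTie) (hTClo : StmtTClo) : StmtSurf := by
  classical
  intro S W c F hSit
  obtain ⟨L, iF, iA, iC, v, hgen⟩ := hVF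
  have hne : ∀ i, (rv (W i)).Nonempty := by
    intro i
    obtain ⟨p, hp⟩ := (hSit.supp.cp i).1
    exact ⟨_, toPl_mem_rv hp⟩
  -- integral points
  have hint : ∀ z : Fin 2 → ℤ, (fun i => psi (rv (W i)) (toPl z)) ∈ trop (Mx F) := by
    intro z
    obtain ⟨t, ht⟩ := hgen z
    have hnm : ∀ i, v.nm (evL (S i) (c i) t) = Real.exp (-psi (rv (W i)) (toPl z)) := fun i =>
      nm_ev v ht (S i) (W i) (c i) (hSit.supp.cp i).1 (hSit.supp.sub i) (hSit.supp.hull i)
        (fun p hp => coeff_ne hSit.ind i p hp)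
    have hz : aeval (fun i => evL (S i) (c i) t) F = 0 :=
      (hClr S c F).2.1 ((hSit.imp.2 F).1 dvd_rfl) L iF iA t (gen_ne v ht)
    have h := hTie L iF iA v F (fun i => evL (S i) (c i) t) hSit.imp.1.ne_zero ?_ hz
    · convert h using 1
      funext i
      rw [hnm i, Real.log_exp, neg_neg]
    · intro i h0
      have h1 := hnm i
      rw [h0, (v.eq_zero 0).2 rfl] at h1
      exact (Real.exp_pos _).ne h1
  -- rational points
  have hrat : ∀ q : ℚ × ℚ,
      (fun i => psi (rv (W i)) ((q.1 : ℝ), (q.2 : ℝ))) ∈ trop (Mx F) := by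
    intro q
    have hd1 : (0 : ℝ) < q.1.den := by exact_mod_cast q.1.pos
    have hd2 : (0 : ℝ) < q.2.den := by exact_mod_cast q.2.pos
    have hd : (0 : ℝ) < (q.1.den : ℝ) * q.2.den := mul_pos hd1 hd2
    have h1 := (hTClo (Mx F)).2 _
      (hint ![q.1.num * q.2.den, q.2.num * q.1.den]) (((q.1.den : ℝ) * q.2.den)⁻¹)
      (inv_pos.2 hd)
    convert h1 using 1
    funext i
    rw [Pi.smul_apply, smul_eq_mul, ← psi_smul (hne i) _ (inv_pos.2 hd).le]
    congr 1
    have e1 : (q.1 : ℝ) = (q.1.num : ℝ) / q.1.den := by exact_mod_cast (Rat.num_div_den q.1).symm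
    have e2 : (q.2 : ℝ) = (q.2.num : ℝ) / q.2.den := by exact_mod_cast (Rat.num_div_den q.2).symm
    rw [e1, e2]
    simp only [toPl, Matrix.cons_val_zero, Matrix.cons_val_one, Prod.smul_mk, smul_eq_mul]
    push_cast
    refine Prod.ext ?_ ?_
    · simp only
      field_simp
    · simp only
      field_simp
  -- all points
  intro w
  have hd : DenseRange (Prod.map ((↑) : ℚ → ℝ) ((↑) : ℚ → ℝ)) :=
    Rat.denseRange_cast.prodMap Rat.denseRange_cast
  have hcl : IsClosed {w : Pl | (fun i => psi (rv (W i)) w) ∈ trop (Mx F)} :=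
    (hTClo (Mx F)).1.preimage (continuous_pi fun i => psi_cont (hne i))
  exact hd.induction_on (p := fun w : Pl => (fun i => psi (rv (W i)) w) ∈ trop (Mx F)) w hcl
    fun q => hrat q

end Pool.Agent.Lib.MP_4e7804_co.N3
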