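import Pool.Agent.Lib.MP_4e7804_co.N3.Spec2

/-!
# The tropical hypersurface is closed and a cone
-/

set_option autoImplicit false

namespace Pool.Agent.Lib.MP_4e7804_co.N3

theorem tTClo : StmtTClo := by
  intro M
  constructor
  · have h1 : trop M = ⋃ p ∈ ((M : Set Sp) ×ˢ (M : Set Sp)), {z : Sp | p.1 ≠ p.2 ∧
        (∀ c ∈ M, p.1 ⬝ᵥ z ≤ c ⬝ᵥ z) ∧ ∀ c ∈ M, p.2 ⬝ᵥ z ≤ c ⬝ᵥ z} := by
      ext z
      simp only [trop, Set.mem_ofPred_eq, Set.mem_iUnion, Set.mem_prod, Finset.mem_coe, Prod.exists,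
        exists_prop]
      constructor
      · rintro ⟨a, ha, b, hb, hab, h1, h2⟩
        exact ⟨a, b, ⟨ha, hb⟩, hab, h1, h2⟩
      · rintro ⟨a, b, ⟨ha, hb⟩, hab, h1, h2⟩
        exact ⟨a, ha, b, hb, hab, h1, h2⟩
    rw [h1]
    refine Set.Finite.isClosed_biUnion (M.finite_toSet.prod M.finite_toSet) fun p _ => ?_
    have hc : ∀ a : Sp, Continuous fun z : Sp => a ⬝ᵥ z := fun a => by
      unfold dotProduct
      fun_prop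
    have h2 : ∀ a : Sp, IsClosed {z : Sp | ∀ c ∈ M, a ⬝ᵥ z ≤ c ⬝ᵥ z} := by
      intro a
      have h3 : {z : Sp | ∀ c ∈ M, a ⬝ᵥ z ≤ c ⬝ᵥ z} = ⋂ c ∈ M, {z : Sp | a ⬝ᵥ z ≤ c ⬝ᵥ z} := by
        ext z
        simp
      rw [h3]
      exact isClosed_biInter fun c _ => isClosed_le (hc a) (hc c)
    by_cases hp : p.1 = p.2
    · have h3 : {z : Sp | p.1 ≠ p.2 ∧
        (∀ c ∈ M, p.1 ⬝ᵥ z ≤ c ⬝ᵥ z) ∧ ∀ c ∈ M, p.2 ⬝ᵥ z ≤ c ⬝ᵥ z} = ∅ := by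
        ext z
        simp [hp]
      rw [h3]
      exact isClosed_empty
    · have h3 : {z : Sp | p.1 ≠ p.2 ∧
        (∀ c ∈ M, p.1 ⬝ᵥ z ≤ c ⬝ᵥ z) ∧ ∀ c ∈ M, p.2 ⬝ᵥ z ≤ c ⬝ᵥ z} =
          {z : Sp | ∀ c ∈ M, p.1 ⬝ᵥ z ≤ c ⬝ᵥ z} ∩ {z : Sp | ∀ c ∈ M, p.2 ⬝ᵥ z ≤ c ⬝ᵥ z} := by
        ext z
        constructor
        · rintro ⟨_, h4, h5⟩
          exact ⟨h4, h5⟩
        · rintro ⟨h4, h5⟩
          exact ⟨hp, h4, h5⟩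
      rw [h3]
      exact (h2 _).inter (h2 _)
  · rintro z ⟨a, ha, b, hb, hab, h1, h2⟩ t ht
    refine ⟨a, ha, b, hb, hab, fun c hc => ?_, fun c hc => ?_⟩
    · rw [dotProduct_smul, dotProduct_smul]
      exact mul_le_mul_of_nonneg_left (h1 c hc) ht.le
    · rw [dotProduct_smul, dotProduct_smul]
      exact mul_le_mul_of_nonneg_left (h2 c hc) ht.le

end Pool.Agent.Lib.MP_4e7804_co.N3
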