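import Pool.Agent.Lib.MP_4e7804_co.N3.Spec2

/-!
# n = 3: the tropical hypersurface is the surface
-/

set_option autoImplicit false

namespace Pool.Agent.Lib.MP_4e7804_co.N3

namespace TGamN

theorem third (i j : Fin 3) (h : i ≠ j) : ∃ k, i ≠ k ∧ j ≠ k ∧ ∀ l, l = i ∨ l = j ∨ l = k := by
  revert i j
  decide

theorem others (k : Fin 3) : ∃ i j : Fin 3, i ≠ j ∧ i ≠ k ∧ j ≠ k ∧ ∀ l, l = i ∨ l = j ∨ l = k := by
  revert k
  decide

/-- the determinant of two edges -/
theorem det_ne {W : Fin 3 → Finset (Fin 2 → ℤ)} (hg : Gen fun i => rv (W i)) {i j : Fin 3}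
    (hij : i ≠ j) (hi : (W i).card ≠ 1) (hj : (W j).card ≠ 1) :
    ∃ p ∈ W i, ∃ p' ∈ W i, ∃ q ∈ W j, ∃ q' ∈ W j,
      (p 0 - p' 0) * (q 1 - q' 1) - (p 1 - p' 1) * (q 0 - q' 0) ≠ 0 := by
  have two : ∀ l : Fin 3, (W l).card ≠ 1 → ∃ p ∈ W l, ∃ p' ∈ W l, p ≠ p' := by
    intro l hl
    have h0 : (W l).card ≠ 0 := by
      rw [← rv_card]
      exact (Finset.card_pos.2 (hg.ne l)).ne'
    have h1 : 1 < (W l).card := by omega
    obtain ⟨p, hp, p', hp', h⟩ := Finset.one_lt_card.1 h1
    exact ⟨p, hp, p', hp', h⟩
  obtain ⟨p, hp, p', hp', hpp⟩ := two i hi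
  obtain ⟨q, hq, q', hq', hqq⟩ := two j hj
  refine ⟨p, hp, p', hp', q, hq, q', hq', ?_⟩
  have h := hg.g2 i j hij (toPl p) (toPl_mem_rv hp) (toPl p') (toPl_mem_rv hp')
    (fun h => hpp (toPl_injective h)) (toPl q) (toPl_mem_rv hq) (toPl q') (toPl_mem_rv hq')
    (fun h => hqq (toPl_injective h))
  intro h0
  apply h
  simp only [cr, toPl, Prod.fst_sub, Prod.snd_sub]
  exact_mod_cast h0

end TGamN

open TGamN

theorem tTGam (hTSub : StmtTSub) (hSurf : StmtSurf) (hSpoke : StmtSpoke) (hSect : StmtSect)
    (hCL : StmtCLdef) : StmtTGam := by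
  intro S W c F hs hg
  apply Set.Subset.antisymm (hTSub S W c F hs hg)
  rintro z ⟨w, hw, hw0⟩
  obtain ⟨c1, c2, c3, c4⟩ := hCL _ hg
  have sector : ∀ i j k : Fin 3, i ≠ j → i ≠ k → j ≠ k → (W i).card ≠ 1 → (W j).card ≠ 1 →
      0 ≤ z i → 0 ≤ z j → z k = 0 → z ∈ trop (Mx F) := by
    intro i j k hij hik hjk hi hj h1 h2 h3
    obtain ⟨p, hp, p', hp', q, hq, q', hq', hd⟩ := det_ne hg hij hi hj
    exact hSect S W c F hs i j k hij hik hjk p hp p' hp' q hq q' hq' hd z h1 h2 h3
  by_cases hw1 : w = 0
  · subst hw1
    have hps : ∀ i, psi (rv (W i)) 0 = 0 := fun i => psi_zero (hg.ne i)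
    have hge : ∀ i, 0 ≤ z i := fun i => by
      have := (hw i).1
      rwa [hps] at this
    have hone : ∀ i, (W i).card = 1 → z i = 0 := by
      intro i hi
      rcases (hw i).2 with h | h
      · rw [c1 i (by rw [rv_card]; exact hi)] at h
        exact h.elim
      · rw [h, hps]
    have hk : ∃ k, z k = 0 := by
      by_contra hcon
      push Not at hcon
      exact hw0 ⟨rfl, fun i => lt_of_le_of_ne (hge i) (Ne.symm (hcon i))⟩
    have hz0 : (∀ i, z i = 0) → z ∈ trop (Mx F) := by
      intro h
      have h1 := hSurf S W c F hs 0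
      have h2 : (fun i => psi (rv (W i)) 0) = z := by
        funext i
        rw [hps, h i]
      rwa [h2] at h1
    -- the case where only one coordinate is not zero
    have single : ∀ j, (∀ i, i ≠ j → z i = 0) → z ∈ trop (Mx F) := by
      intro j hj
      by_cases hzj : z j = 0
      · apply hz0
        intro i
        by_cases h : i = j
        · rw [h, hzj]
        · exact hj i h
      · have hWj : (W j).card ≠ 1 := fun h => hzj (hone j h)
        by_cases hex : ∃ i, i ≠ j ∧ (W i).card ≠ 1
        · obtain ⟨i, hij, hi⟩ := hex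
          obtain ⟨k, hik, hjk, _⟩ := third i j hij
          exact sector i j k hij hik hjk hi hWj (hge i) (hge j) (hj k (Ne.symm hjk))
        · push Not at hex
          have h1 := hSpoke S W c F hs j 0 (c2 j (by rw [rv_card]; exact hWj)) (by
            intro i hij
            have h2 := hex i hij
            rw [← rv_card] at h2
            rw [c1 i h2]
            exact fun h => h.elim) (z j) (hge j)
          have h2 : (fun i => psi (rv (W i)) 0 + if i = j then z j else 0) = z := by
            funext i
            rw [hps]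
            by_cases h : i = j
            · rw [h, if_pos rfl, zero_add]
            · rw [if_neg h, hj i h, add_zero]
          rwa [h2] at h1
    obtain ⟨k, hk⟩ := hk
    obtain ⟨i, j, hij, hik, hjk, hall⟩ := others k
    by_cases hi : (W i).card = 1
    · apply single j
      intro l hl
      rcases hall l with h | h | h
      · rw [h]
        exact hone i hi
      · exact absurd h hl
      · rw [h]
        exact hk
    · by_cases hj : (W j).card = 1
      · apply single i
        intro l hl
        rcases hall l with h | h | h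
        · exact absurd h hl
        · rw [h]
          exact hone j hj
        · rw [h]
          exact hk
      · exact sector i j k hij hik hjk hi hj (hge i) (hge j) hk
  · by_cases hex : ∃ i, w ∈ CL (rv (W i))
    · obtain ⟨i, hi⟩ := hex
      have hne : ∀ j, j ≠ i → w ∉ CL (rv (W j)) := fun j hj h => hw1 (c3 j i hj w h hi)
      have h1 := hSpoke S W c F hs i w hi hne (z i - psi (rv (W i)) w) (sub_nonneg.2 (hw i).1)
      have h2 : (fun j => psi (rv (W j)) w + if j = i then z i - psi (rv (W i)) w else 0) = z := by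
        funext j
        by_cases h : j = i
        · rw [if_pos h, h]
          ring
        · rw [if_neg h, add_zero]
          rcases (hw j).2 with h3 | h3
          · exact absurd h3 (hne j h)
          · exact h3.symm
      rwa [h2] at h1
    · push Not at hex
      have h1 := hSurf S W c F hs w
      have h2 : (fun i => psi (rv (W i)) w) = z := by
        funext i
        rcases (hw i).2 with h3 | h3
        · exact absurd h3 (hex i)
        · exact h3.symm
      rwa [h2] at h1

end Pool.Agent.Lib.MP_4e7804_co.N3
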