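import Pool.Agent.Lib.MP_4e7804_co.N3.Spec2

/-!
# The tropical hypersurface is contained in the surface
-/

set_option autoImplicit false

namespace Pool.Agent.Lib.MP_4e7804_co.N3.TSubN

/-- the surface is a cone -/
theorem gam_smul {A : Fin 3 → Finset Pl} (hA : ∀ i, (A i).Nonempty) {z : Sp} (hz : z ∈ Gam A)
    {t : ℝ} (ht : 0 < t) : t • z ∈ Gam A := by
  obtain ⟨w, hw, h0⟩ := hz
  refine ⟨t • w, ?_, ?_⟩
  · intro i
    obtain ⟨h1, h2⟩ := hw i
    rw [psi_smul (hA i) w ht.le, Pi.smul_apply, smul_eq_mul]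
    refine ⟨mul_le_mul_of_nonneg_left h1 ht.le, ?_⟩
    rcases h2 with h2 | h2
    · exact Or.inl (CL_smul (hA i) ht.le h2)
    · exact Or.inr (by rw [h2])
  · rintro ⟨h1, h2⟩
    apply h0
    constructor
    · exact (smul_eq_zero.1 h1).resolve_left ht.ne'
    · intro i
      have h3 := h2 i
      rw [Pi.smul_apply, smul_eq_mul] at h3
      exact (mul_pos_iff_of_pos_left ht).1 h3

/-- a common denominator -/
theorem exists_den (y : Fin 3 → ℚ) : ∃ (n : ℕ) (k : Fin 3 → ℤ), 0 < n ∧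
    ∀ i, (k i : ℝ) = (n : ℝ) * (y i : ℝ) := by
  refine ⟨∏ j, (y j).den, fun i => (∏ j ∈ Finset.univ.erase i, ((y j).den : ℤ)) * (y i).num, ?_, ?_⟩
  · exact Finset.prod_pos fun j _ => (y j).pos
  · intro i
    have h1 : ((∏ j, (y j).den : ℕ) : ℝ) =
        (∏ j ∈ Finset.univ.erase i, ((y j).den : ℝ)) * ((y i).den : ℝ) := by
      rw [Finset.prod_erase_mul _ _ (Finset.mem_univ i)]
      push_cast
      rfl
    have h2 : ((y i).den : ℝ) * ((y i : ℚ) : ℝ) = ((y i).num : ℝ) := by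
      have h3 : ((y i).den : ℚ) * y i = ((y i).num : ℚ) := Rat.den_mul_eq_num (y i)
      exact_mod_cast congrArg (fun q : ℚ => (q : ℝ)) h3
    rw [h1, mul_assoc, h2]
    push_cast
    rfl

theorem dot_sub (a c z : Sp) : (c - a) ⬝ᵥ z = c ⬝ᵥ z - a ⬝ᵥ z := sub_dotProduct c a z

end Pool.Agent.Lib.MP_4e7804_co.N3.TSubN

namespace Pool.Agent.Lib.MP_4e7804_co.N3

open TSubN

theorem tTSub (hVal : StmtValZ) (hRat : StmtRat) (hG : StmtGClo) : StmtTSub := by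
  intro S W c F hS hGen z hz
  have hne : ∀ i, (rv (W i)).Nonempty := fun i => hGen.ne i
  obtain ⟨a, ha, b, hb, hab, hamin, hbmin⟩ := hz
  rw [← (hG _ hGen).closure_eq, Metric.mem_closure_iff]
  intro ε hε
  have hopen : IsOpen {y : Sp | ∀ e ∈ Mx F, a ⬝ᵥ z < e ⬝ᵥ z → a ⬝ᵥ y < e ⬝ᵥ y} := by
    have e1 : {y : Sp | ∀ e ∈ Mx F, a ⬝ᵥ z < e ⬝ᵥ z → a ⬝ᵥ y < e ⬝ᵥ y} =
        ⋂ e ∈ Mx F, {y : Sp | a ⬝ᵥ z < e ⬝ᵥ z → a ⬝ᵥ y < e ⬝ᵥ y} := by
      ext y
      simp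
    rw [e1]
    refine isOpen_biInter_finset fun e _ => ?_
    by_cases h : a ⬝ᵥ z < e ⬝ᵥ z
    · have e2 : {y : Sp | a ⬝ᵥ z < e ⬝ᵥ z → a ⬝ᵥ y < e ⬝ᵥ y} = {y : Sp | a ⬝ᵥ y < e ⬝ᵥ y} := by
        ext y
        simp [h]
      rw [e2]
      refine isOpen_lt ?_ ?_
      · exact continuous_const.dotProduct continuous_id
      · exact continuous_const.dotProduct continuous_id
    · simp [h]
  obtain ⟨δ, hδ, hball⟩ := Metric.isOpen_iff.1 hopen z fun e _ h => h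
  obtain ⟨y, hy, hrel⟩ := hRat 3 z (min ε δ) (lt_min hε hδ)
  set y' : Sp := fun i => (y i : ℝ) with hy'
  have hdist : dist y' z < min ε δ := by
    rw [dist_pi_lt_iff (lt_min hε hδ)]
    intro i
    rw [Real.dist_eq]
    exact hy i
  have hyin := hball (Metric.mem_ball.2 (hdist.trans_le (min_le_right _ _)))
  -- equalities
  have heq : ∀ e ∈ Mx F, a ⬝ᵥ z = e ⬝ᵥ z → a ⬝ᵥ y' = e ⬝ᵥ y' := by
    classical
    intro e he h
    obtain ⟨a0, _, rfl⟩ := Finset.mem_image.1 ha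
    obtain ⟨e0, _, rfl⟩ := Finset.mem_image.1 he
    have h1 := hrel (fun i => (a0 i : ℤ) - (e0 i : ℤ)) (by
      have h2 : ∑ i, (((a0 i : ℤ) - (e0 i : ℤ) : ℤ) : ℝ) * z i =
          (fun i => (a0 i : ℝ)) ⬝ᵥ z - (fun i => (e0 i : ℝ)) ⬝ᵥ z := by
        simp only [dotProduct, ← Finset.sum_sub_distrib]
        refine Finset.sum_congr rfl fun i _ => ?_
        push_cast
        ring
      rw [h2, h, sub_self])
    have h3 : ((∑ i, (((a0 i : ℤ) - (e0 i : ℤ) : ℤ) : ℚ) * y i : ℚ) : ℝ) =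
        (fun i => (a0 i : ℝ)) ⬝ᵥ y' - (fun i => (e0 i : ℝ)) ⬝ᵥ y' := by
      simp only [dotProduct, ← Finset.sum_sub_distrib]
      push_cast
      refine Finset.sum_congr rfl fun i _ => ?_
      rw [hy']
      ring
    rw [h1] at h3
    have h4 : (fun i => (a0 i : ℝ)) ⬝ᵥ y' - (fun i => (e0 i : ℝ)) ⬝ᵥ y' = 0 := by
      rw [← h3]
      norm_num
    exact sub_eq_zero.1 h4
  have hmin : ∀ e ∈ Mx F, a ⬝ᵥ y' ≤ e ⬝ᵥ y' := by
    intro e he
    rcases (hamin e he).lt_or_eq with h | h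
    · exact (hyin e he h).le
    · exact (heq e he h).le
  have hb' : a ⬝ᵥ y' = b ⬝ᵥ y' := heq b hb (le_antisymm (hamin b hb) (hbmin a ha))
  obtain ⟨n, k, hn, hk⟩ := exists_den y
  have hn' : (0 : ℝ) < n := by exact_mod_cast hn
  have hky : (fun i => (k i : ℝ)) = (n : ℝ) • y' := by
    funext i
    rw [hk i, Pi.smul_apply, smul_eq_mul]
  have hkt : (fun i => (k i : ℝ)) ∈ trop (Mx F) := by
    rw [hky]
    refine ⟨a, ha, b, hb, hab, ?_, ?_⟩
    · intro e he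
      rw [dotProduct_smul, dotProduct_smul]
      exact mul_le_mul_of_nonneg_left (hmin e he) hn'.le
    · intro e he
      rw [dotProduct_smul, dotProduct_smul, ← hb']
      exact mul_le_mul_of_nonneg_left (hmin e he) hn'.le
  obtain ⟨w, hw, h0, _⟩ := hVal S W c F hS k hkt
  have hkG : (fun i => (k i : ℝ)) ∈ Gam fun i => rv (W i) := ⟨w, hw, h0⟩
  have hyG : y' ∈ Gam fun i => rv (W i) := by
    have h1 := gam_smul hne hkG (inv_pos.2 hn')
    rwa [hky, smul_smul, inv_mul_cancel₀ hn'.ne', one_smul] at h1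
  refine ⟨y', hyG, ?_⟩
  rw [dist_comm]
  exact hdist.trans_le (min_le_left _ _)

end Pool.Agent.Lib.MP_4e7804_co.N3
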