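import Pool.Agent.Lib.MP_4e7804_co.N3.Spec2

/-!
# A zero forces a tie
-/

set_option autoImplicit false

namespace Pool.Agent.Lib.MP_4e7804_co.N3

open MvPolynomial

namespace TieN

variable {L : Type} [Field L] [Algebra ℂ L] (v : VF L)

theorem nm_zero : v.nm 0 = 0 := (v.eq_zero 0).2 rfl

theorem nm_one : v.nm 1 = 1 := by
  have h := v.triv 1 one_ne_zero
  rwa [map_one] at h

theorem nm_neg (x : L) : v.nm (-x) = v.nm x := by
  have h := v.triv (-1) (neg_ne_zero.2 one_ne_zero)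
  rw [map_neg, map_one] at h
  rw [neg_eq_neg_one_mul, v.mul, h, one_mul]

theorem nm_pos {x : L} (hx : x ≠ 0) : 0 < v.nm x :=
  lt_of_le_of_ne (v.nonneg x) fun h => hx ((v.eq_zero x).1 h.symm)

theorem nm_pow (x : L) (n : ℕ) : v.nm (x ^ n) = v.nm x ^ n := by
  induction n with
  | zero => rw [pow_zero, pow_zero, nm_one]
  | succ n ih => rw [pow_succ, pow_succ, v.mul, ih]

theorem nm_sum_lt {ι : Type} (s : Finset ι) (f : ι → L) {c : ℝ} (hc : 0 < c)
    (h : ∀ i ∈ s, v.nm (f i) < c) : v.nm (∑ i ∈ s, f i) < c := by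
  classical
  induction s using Finset.induction_on with
  | empty => rw [Finset.sum_empty, nm_zero]; exact hc
  | insert a s ha ih =>
    rw [Finset.sum_insert ha]
    refine (v.add _ _).trans_lt (max_lt (h a (Finset.mem_insert_self a s)) ?_)
    exact ih fun i hi => h i (Finset.mem_insert_of_mem hi)

/-- the norm of a term -/
theorem nm_term (x : Fin 3 → L) (hx : ∀ i, x i ≠ 0) (c : ℂ) (hc : c ≠ 0) (m : Fin 3 →₀ ℕ) :
    v.nm (algebraMap ℂ L c * ∏ i, x i ^ m i) =
      Real.exp (-((fun i => (m i : ℝ)) ⬝ᵥ fun i => -Real.log (v.nm (x i)))) := by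
  rw [v.mul, v.triv c hc, one_mul, Fin.prod_univ_three, v.mul, v.mul, nm_pow, nm_pow, nm_pow]
  have h : ∀ i, v.nm (x i) ^ m i = Real.exp ((m i : ℝ) * Real.log (v.nm (x i))) := by
    intro i
    rw [← Real.log_pow, Real.exp_log (pow_pos (nm_pos v (hx i)) _)]
  rw [h, h, h, ← Real.exp_add, ← Real.exp_add]
  congr 1
  simp only [dotProduct, Fin.sum_univ_three]
  ring

end TieN

open TieN in
theorem tTie : StmtTie := by
  classical
  intro L _ _ v F x hF hx h0
  set z : Sp := fun i => -Real.log (v.nm (x i)) with hz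
  have hne : F.support.Nonempty := by
    rw [Finset.nonempty_iff_ne_empty]
    intro h
    exact hF (MvPolynomial.support_eq_empty.1 h)
  obtain ⟨m₀, hm₀, hmin⟩ := Finset.exists_min_image F.support
    (fun m => (fun i => (m i : ℝ)) ⬝ᵥ z) hne
  have hex : ∃ m ∈ F.support, m ≠ m₀ ∧
      (fun i => (m i : ℝ)) ⬝ᵥ z ≤ (fun i => (m₀ i : ℝ)) ⬝ᵥ z := by
    by_contra hcon
    have hlt : ∀ m ∈ F.support, m ≠ m₀ →
        (fun i => (m₀ i : ℝ)) ⬝ᵥ z < (fun i => (m i : ℝ)) ⬝ᵥ z := by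
      intro m hm hmm
      by_contra hle
      exact hcon ⟨m, hm, hmm, not_lt.1 hle⟩
    have hsum : (∑ d ∈ F.support, algebraMap ℂ L (coeff d F) * ∏ i, x i ^ d i) = 0 := by
      rw [← h0, MvPolynomial.aeval_def, MvPolynomial.eval₂_eq']
    rw [← Finset.add_sum_erase _ _ hm₀] at hsum
    have h1 := eq_neg_of_add_eq_zero_left hsum
    have h2 := congrArg v.nm h1
    rw [nm_neg, nm_term v x hx _ (MvPolynomial.mem_support_iff.1 hm₀)] at h2
    refine absurd h2 (ne_of_gt ?_)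
    refine nm_sum_lt v _ _ (Real.exp_pos _) ?_
    intro m hm
    have hm' := Finset.mem_erase.1 hm
    rw [nm_term v x hx _ (MvPolynomial.mem_support_iff.1 hm'.2)]
    exact Real.exp_lt_exp.2 (neg_lt_neg (hlt m hm'.2 hm'.1))
  obtain ⟨m, hm, hmm, hle⟩ := hex
  have hmem : ∀ d ∈ F.support, (fun i => (d i : ℝ)) ∈ Mx F := by
    intro d hd
    exact Finset.mem_image.2 ⟨d, hd, rfl⟩
  refine ⟨_, hmem m₀ hm₀, _, hmem m hm, ?_, ?_, ?_⟩
  · intro h
    apply hmm
    ext i
    have := congrFun h i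
    exact_mod_cast this.symm
  · intro c hc
    obtain ⟨d, hd, rfl⟩ := Finset.mem_image.1 hc
    exact hmin d hd
  · intro c hc
    obtain ⟨d, hd, rfl⟩ := Finset.mem_image.1 hc
    exact hle.trans (hmin d hd)

end Pool.Agent.Lib.MP_4e7804_co.N3
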