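import Pool.Agent.Lib.MP_4e7804_co.N3.Spec

set_option autoImplicit false

namespace Pool.Agent.Lib.MP_4e7804_co.N3

namespace TriN

private theorem pos_of_cU {A : Finset Pl} {p : Pl} (hp : p ∈ A) {x : Pl × Pl} (hx : x ∈ cU A p) :
    0 < dt p (x.1 - x.2) := by
  have h1 : dt p x.2 < psi A x.1 := hx.2
  have h2 := psi_le hp x.1
  rw [dt_sub]
  linarith

private theorem neg_of_cP {A : Finset Pl} {p : Pl} (hp : p ∈ A) {x : Pl × Pl} (hx : x ∈ cP A p) :
    dt p (x.1 - x.2) < 0 := by
  have h1 : dt p x.1 < psi A x.2 := hx.2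
  have h2 := psi_le hp x.2
  rw [dt_sub]
  linarith

private theorem cramer (p q s d : Pl) :
    cr p q * dt s d = cr s q * dt p d + cr p s * dt q d := by
  simp only [cr, dt]
  ring

end TriN

open TriN in
theorem tTri : StmtTri := by
  intro A hG i j k hij hik hjk p hp q hq s hs
  have hD : cr p q ≠ 0 := hG.g1 i j hij p hp q hq
  have ha : cr s q ≠ 0 := hG.g1 k j hjk.symm s hs q hq
  have hb : cr p s ≠ 0 := hG.g1 i k hik p hp s hs
  have hD2 : 0 < cr p q * cr p q := by
    rcases hD.lt_or_gt with h | h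
    · exact mul_pos_of_neg_of_neg h h
    · exact mul_pos h h
  have hkey : ∀ d : Pl, (cr p q * cr p q) * dt s d =
      (cr s q * cr p q) * dt p d + (cr p s * cr p q) * dt q d := by
    intro d
    have := cramer p q s d
    calc (cr p q * cr p q) * dt s d = cr p q * (cr p q * dt s d) := by ring
      _ = cr p q * (cr s q * dt p d + cr p s * dt q d) := by rw [this]
      _ = _ := by ring
  have hα : cr s q * cr p q ≠ 0 := mul_ne_zero ha hD
  have hβ : cr p s * cr p q ≠ 0 := mul_ne_zero hb hD
  rcases hα.lt_or_gt with h1 | h1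
  · rcases hβ.lt_or_gt with h2 | h2
    · left
      rw [Set.eq_empty_iff_forall_notMem]
      rintro x ⟨⟨hx1, hx2⟩, hx3⟩
      have e1 := pos_of_cU hp hx1
      have e2 := pos_of_cU hq hx2
      have e3 := pos_of_cU hs hx3
      have hk := hkey (x.1 - x.2)
      have f1 := mul_neg_of_neg_of_pos h1 e1
      have f2 := mul_neg_of_neg_of_pos h2 e2
      have f3 := mul_pos hD2 e3
      linarith
    · right; right; left
      rw [Set.eq_empty_iff_forall_notMem]
      rintro x ⟨⟨hx1, hx2⟩, hx3⟩
      have e1 := pos_of_cU hp hx1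
      have e2 := pos_of_cU hs hx2
      have e3 := neg_of_cP hq hx3
      have hk := hkey (x.1 - x.2)
      have f1 := mul_neg_of_neg_of_pos h1 e1
      have f2 := mul_neg_of_pos_of_neg h2 e3
      have f3 := mul_pos hD2 e2
      linarith
  · rcases hβ.lt_or_gt with h2 | h2
    · right; right; right
      rw [Set.eq_empty_iff_forall_notMem]
      rintro x ⟨⟨hx1, hx2⟩, hx3⟩
      have e1 := pos_of_cU hq hx1
      have e2 := pos_of_cU hs hx2
      have e3 := neg_of_cP hp hx3
      have hk := hkey (x.1 - x.2)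
      have f1 := mul_neg_of_neg_of_pos h2 e1
      have f2 := mul_neg_of_pos_of_neg h1 e3
      have f3 := mul_pos hD2 e2
      linarith
    · right; left
      rw [Set.eq_empty_iff_forall_notMem]
      rintro x ⟨⟨hx1, hx2⟩, hx3⟩
      have e1 := pos_of_cU hp hx1
      have e2 := pos_of_cU hq hx2
      have e3 := neg_of_cP hs hx3
      have hk := hkey (x.1 - x.2)
      have f1 := mul_pos h1 e1
      have f2 := mul_pos h2 e2
      have f3 := mul_neg_of_pos_of_neg hD2 e3
      linarith

end Pool.Agent.Lib.MP_4e7804_co.N3
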