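import Pool.Agent.Lib.MP_4e7804_co.N3.Spec2

/-!
# n = 3: division trick
-/

set_option autoImplicit false

namespace Pool.Agent.Lib.MP_4e7804_co.N3

open MvPolynomial

theorem tTrick : StmtTrick := by
  intro h₁ h₂ g hrel hn1 hn2 t ht1 ht2 a b hmem
  rw [Ideal.mem_span_pair] at hmem
  obtain ⟨A, B, hAB⟩ := hmem
  -- A * h₁^(a+1) + B * h₂^(b+1) = g * h₁^a * h₂^b
  have hp1 : h₁ ^ a ≠ 0 := pow_ne_zero _ hn1
  have hp2 : h₂ ^ b ≠ 0 := pow_ne_zero _ hn2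
  have hd : h₁ ^ a ∣ B * h₂ ^ (b + 1) := by
    refine ⟨g * h₂ ^ b - A * h₁, ?_⟩
    have : B * h₂ ^ (b + 1) = g * h₁ ^ a * h₂ ^ b - A * h₁ ^ (a + 1) := by
      rw [← hAB]
      ring
    rw [this]
    ring
  have hr : IsRelPrime (h₁ ^ a) (h₂ ^ (b + 1)) := hrel.pow
  have hB : h₁ ^ a ∣ B := hr.dvd_of_dvd_mul_right hd
  obtain ⟨B', rfl⟩ := hB
  have e1 : g * h₂ ^ b = A * h₁ + B' * h₂ ^ (b + 1) := by
    apply mul_left_cancel₀ hp1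
    have : h₁ ^ a * (g * h₂ ^ b) = g * h₁ ^ a * h₂ ^ b := by ring
    rw [this, ← hAB]
    ring
  have hd2 : h₁ ∣ h₂ ^ b * (g - B' * h₂) := by
    refine ⟨A, ?_⟩
    have : h₂ ^ b * (g - B' * h₂) = g * h₂ ^ b - B' * h₂ ^ (b + 1) := by ring
    rw [this, e1]
    ring
  have hr2 : IsRelPrime h₁ (h₂ ^ b) := hrel.pow_right
  obtain ⟨C, hC⟩ := hr2.dvd_of_dvd_mul_left hd2
  have hg : g = h₁ * C + B' * h₂ := by
    rw [← hC]
    ring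
  rw [hg, map_add, map_mul, map_mul, ht1, ht2, zero_mul, mul_zero, add_zero]

end Pool.Agent.Lib.MP_4e7804_co.N3
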