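import Pool.Agent.Lib.MP_4e7804_co.N3.Spec

/-!
Number of vertices and Euler integral of the tropical hypersurface.
-/

set_option autoImplicit false

namespace Pool.Agent.Lib.MP_4e7804_co.N3

namespace TropRN

/-- the open normal cone in space -/
def Cc (M : Finset Sp) (a : Sp) : Set Sp := {z | ∀ b ∈ M, b ≠ a → a ⬝ᵥ z < b ⬝ᵥ z}

theorem dot_cont (a : Sp) : Continuous (fun z : Sp => a ⬝ᵥ z) := by
  unfold dotProduct
  fun_prop

theorem Cc_open (M : Finset Sp) (a : Sp) : IsOpen (Cc M a) := by
  have h : Cc M a = ⋂ b ∈ M, {z | b ≠ a → a ⬝ᵥ z < b ⬝ᵥ z} := by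
    ext z
    simp [Cc]
  rw [h]
  refine isOpen_biInter_finset fun b _ => ?_
  by_cases hb : b = a
  · simp [hb]
  · have h1 : {z : Sp | b ≠ a → a ⬝ᵥ z < b ⬝ᵥ z} = {z : Sp | a ⬝ᵥ z < b ⬝ᵥ z} := by
      ext z
      simp [hb]
    rw [h1]
    exact isOpen_lt (dot_cont a) (dot_cont b)

theorem Cc_convex (M : Finset Sp) (a : Sp) : Convex ℝ (Cc M a) := by
  intro x hx y hy s t hs ht hst b hb hba
  have h1 := hx b hb hba
  have h2 := hy b hb hba
  rw [dotProduct_add, dotProduct_add, dotProduct_smul, dotProduct_smul, dotProduct_smul,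
    dotProduct_smul, smul_eq_mul, smul_eq_mul, smul_eq_mul, smul_eq_mul]
  rcases hs.lt_or_eq with h | h
  · have h3 := mul_lt_mul_of_pos_left h1 h
    have h4 := mul_le_mul_of_nonneg_left h2.le ht
    linarith
  · have ht1 : t = 1 := by linarith
    subst h
    rw [ht1]
    linarith

theorem ind_trop (M : Finset Sp) (hM : M.Nonempty) :
    ind (trop M) = ind Set.univ - ∑ a ∈ M, ind (Cc M a) := by
  funext z
  rw [Pi.sub_apply, Finset.sum_apply, ind_mem (Set.mem_univ z)]
  by_cases hz : z ∈ trop M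
  · rw [ind_mem hz]
    obtain ⟨a1, ha1, a2, ha2, hne, h1, h2⟩ := hz
    rw [Finset.sum_eq_zero, sub_zero]
    intro a ha
    apply ind_notMem
    intro hza
    have e1 : a1 = a := by
      by_contra h
      have := hza a1 ha1 h
      have := h1 a ha
      linarith
    have e2 : a2 = a := by
      by_contra h
      have := hza a2 ha2 h
      have := h2 a ha
      linarith
    exact hne (e1.trans e2.symm)
  · rw [ind_notMem hz]
    obtain ⟨a, ha, hmin⟩ := Finset.exists_min_image M (fun a => a ⬝ᵥ z) hM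
    have hC : z ∈ Cc M a := by
      intro b hb hba
      by_contra h
      apply hz
      refine ⟨a, ha, b, hb, Ne.symm hba, hmin, fun c hc => ?_⟩
      exact (not_lt.1 h).trans (hmin c hc)
    rw [Finset.sum_eq_single a, ind_mem hC, sub_self]
    · intro c hc hca
      apply ind_notMem
      intro h
      have h1 := h a ha (Ne.symm hca)
      have h2 := hC c hc hca
      linarith
    · intro h
      exact absurd ha h

/-- the functional of `z` attains its minimum on the hull only at `a` -/
theorem hull_sub (M : Finset Sp) (a z : Sp) (hz : z ∈ Cc M a) :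
    ∀ x ∈ convexHull ℝ (M : Set Sp), x = a ∨ a ⬝ᵥ z < x ⬝ᵥ z := by
  have hc : Convex ℝ {x : Sp | x = a ∨ a ⬝ᵥ z < x ⬝ᵥ z} := by
    intro x hx y hy s t hs ht hst
    have e1 : a ⬝ᵥ z = s * (a ⬝ᵥ z) + t * (a ⬝ᵥ z) := by rw [← add_mul, hst, one_mul]
    have e2 : (s • x + t • y) ⬝ᵥ z = s * (x ⬝ᵥ z) + t * (y ⬝ᵥ z) := by
      rw [add_dotProduct, smul_dotProduct, smul_dotProduct, smul_eq_mul, smul_eq_mul]
    show s • x + t • y = a ∨ a ⬝ᵥ z < (s • x + t • y) ⬝ᵥ z
    rcases hs.lt_or_eq with hs' | hs'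
    · rcases ht.lt_or_eq with ht' | ht'
      · rcases hx with hx | hx
        · rcases hy with hy | hy
          · left
            rw [hx, hy, ← add_smul, hst, one_smul]
          · right
            rw [e2, hx]
            have := mul_lt_mul_of_pos_left hy ht'
            linarith
        · right
          rw [e2]
          have h3 := mul_lt_mul_of_pos_left hx hs'
          have h4 : a ⬝ᵥ z ≤ y ⬝ᵥ z := by
            rcases hy with hy | hy
            · rw [hy]
            · exact hy.le
          have h5 := mul_le_mul_of_nonneg_left h4 ht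
          linarith
      · have hs1 : s = 1 := by linarith
        rw [← ht', hs1, one_smul, zero_smul, add_zero]
        exact hx
    · have ht1 : t = 1 := by linarith
      rw [← hs', ht1, one_smul, zero_smul, zero_add]
      exact hy
  have h := convexHull_min (s := (M : Set Sp)) (t := {x : Sp | x = a ∨ a ⬝ᵥ z < x ⬝ᵥ z})
    (fun b hb => by
      by_cases hba : b = a
      · exact Or.inl hba
      · exact Or.inr (hz b hb hba)) hc
  exact fun x hx => h hx

theorem ext_of_Cc (M : Finset Sp) (a : Sp) (ha : a ∈ M) (h : (Cc M a).Nonempty) :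
    a ∈ Set.extremePoints ℝ (convexHull ℝ (M : Set Sp)) := by
  obtain ⟨z, hz⟩ := h
  have h1 := hull_sub M a z hz
  rw [mem_extremePoints_iff_left]
  refine ⟨subset_convexHull ℝ _ ha, ?_⟩
  rintro x hx y hy ⟨s, t, hs, ht, hst, hxy⟩
  rcases h1 x hx with h2 | h2
  · exact h2
  · exfalso
    have h3 : a ⬝ᵥ z ≤ y ⬝ᵥ z := by
      rcases h1 y hy with h3 | h3
      · rw [h3]
      · exact h3.le
    have e1 : a ⬝ᵥ z = s * (a ⬝ᵥ z) + t * (a ⬝ᵥ z) := by rw [← add_mul, hst, one_mul]
    have e2 : (s • x + t • y) ⬝ᵥ z = s * (x ⬝ᵥ z) + t * (y ⬝ᵥ z) := by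
      rw [add_dotProduct, smul_dotProduct, smul_dotProduct, smul_eq_mul, smul_eq_mul]
    rw [hxy] at e2
    have h4 := mul_lt_mul_of_pos_left h2 hs
    have h5 := mul_le_mul_of_nonneg_left h3 ht.le
    linarith

theorem Cc_of_ext (M : Finset Sp) (a : Sp)
    (h : a ∈ Set.extremePoints ℝ (convexHull ℝ (M : Set Sp))) : (Cc M a).Nonempty := by
  classical
  have hn : a ∉ convexHull ℝ ((M : Set Sp) \ {a}) := by
    intro h1
    have h2 := inter_extremePoints_subset_extremePoints_of_subset (𝕜 := ℝ)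
      (convexHull_mono (𝕜 := ℝ) (Set.sdiff_subset (s := (M : Set Sp)) (t := {a}))) ⟨h1, h⟩
    exact (extremePoints_convexHull_subset h2).2 rfl
  obtain ⟨f, u, h1, h2⟩ := geometric_hahn_banach_point_closed (convex_convexHull ℝ _)
    (((M.finite_toSet).subset Set.sdiff_subset).isClosed_convexHull ℝ) hn
  have hf : ∀ x : Sp, x ⬝ᵥ (fun i => f (Pi.single i 1)) = f x := by
    intro x
    have e : x = ∑ i, x i • (Pi.single i (1 : ℝ) : Sp) := by
      funext j
      rw [Finset.sum_apply, Finset.sum_eq_single j]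
      · simp
      · intro i _ hij
        simp [hij.symm]
      · intro h
        exact absurd (Finset.mem_univ _) h
    conv_rhs => rw [e, map_sum]
    unfold dotProduct
    refine Finset.sum_congr rfl fun i _ => ?_
    rw [map_smul, smul_eq_mul]
  refine ⟨fun i => f (Pi.single i 1), fun b hb hba => ?_⟩
  rw [hf, hf]
  exact h1.trans (h2 b (subset_convexHull ℝ _ ⟨hb, hba⟩))

open Classical in
theorem nv_eq (M : Finset Sp) : nv M = (M.filter fun a => (Cc M a).Nonempty).card := by
  unfold nv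
  rw [← Set.ncard_coe_finset]
  congr 1
  ext a
  rw [Finset.mem_coe, Finset.mem_filter]
  constructor
  · intro h
    exact ⟨extremePoints_convexHull_subset h, Cc_of_ext M a h⟩
  · rintro ⟨h1, h2⟩
    exact ext_of_Cc M a h1 h2

end TropRN

open TropRN in
theorem tTropR : StmtTropR := by
  classical
  intro E M hM
  have h1 : E.rel (ind Set.univ) ((-1) ^ 3) := E.opn _ isOpen_univ convex_univ ⟨0, trivial⟩
  have h2 : E.rel (∑ a ∈ M, ind (Cc M a))
      (∑ a ∈ M, if (Cc M a).Nonempty then (-1) ^ 3 else 0) := by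
    refine E.toEul.sum M _ _ fun a _ => ?_
    by_cases h : (Cc M a).Nonempty
    · rw [if_pos h]
      exact E.opn _ (Cc_open M a) (Cc_convex M a) h
    · rw [if_neg h, EulD.ind_zero_of_empty (Set.not_nonempty_iff_eq_empty.1 h)]
      exact E.zero
  have h3 := E.toEul.sub h1 h2
  rw [← ind_trop M hM, ← Finset.sum_filter, Finset.sum_const, ← nv_eq] at h3
  have e : ((-1 : ℤ) ^ 3 - nv M • (-1) ^ 3) = (nv M : ℤ) - 1 := by
    rw [nsmul_eq_mul]
    ring
  rw [e] at h3
  exact h3

end Pool.Agent.Lib.MP_4e7804_co.N3
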