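import Pool.Agent.Lib.MP_4e7804_co.N3.Spec2

/-!
# n = 3: the upper bound for all lattice polygons
-/

set_option autoImplicit false

namespace Pool.Agent.Lib.MP_4e7804_co.N3.UpAllN

open Pool.Agent.Lib.MP_4e7804_co.N3

private theorem Mx_nonempty {F : MvPolynomial (Fin 3) ℂ} (hF : F ≠ 0) : (Mx F).Nonempty := by
  classical
  obtain ⟨a, ha⟩ := MvPolynomial.support_nonempty.2 hF
  exact ⟨fun i => (a i : ℝ), by
    unfold Mx
    rw [Finset.mem_image]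
    exact ⟨a, ha, rfl⟩⟩

private theorem Mx_int {F : MvPolynomial (Fin 3) ℂ} {m : Sp} (hm : m ∈ Mx F) :
    ∃ k : Fin 3 → ℤ, m = fun i => (k i : ℝ) := by
  classical
  unfold Mx at hm
  rw [Finset.mem_image] at hm
  obtain ⟨a, -, rfl⟩ := hm
  exact ⟨fun i => (a i : ℤ), by
    funext i
    simp⟩

private theorem supp_self {P : Fin 3 → Finset (Fin 2 → ℤ)} (h : ∀ i, CP (P i)) : Supp P P :=
  ⟨h, fun _ => Finset.Subset.refl _, fun i _ hp =>
    subset_convexHull ℝ (rv (P i) : Set Pl) (Finset.mem_coe.2 (toPl_mem_rv hp))⟩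

end Pool.Agent.Lib.MP_4e7804_co.N3.UpAllN

open Pool.Agent.Lib.MP_4e7804_co.N3 Pool.Agent.Lib.MP_4e7804_co.N3.UpAllN in
theorem Pool.Agent.Lib.MP_4e7804_co.N3.tUpAll (h1 : StmtUpper) (h2 : StmtTGam) (h3 : StmtExSit)
    (h4 : StmtPoly) (h5 : StmtPGen) (h6 : StmtValZ) (h7 : StmtPert) : StmtUpAll := by
  intro S W c F hS
  obtain ⟨δ, hδ⟩ := h4 W
  obtain ⟨N₀, hN⟩ := h5 W δ hS.supp.cp hδ
  refine h7 W δ (Mx F) N₀ _ hS.supp.cp (Mx_nonempty hS.imp.1.ne_zero) (fun m hm => Mx_int hm)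
    (h6 S W c F hS) ?_
  intro n hn
  obtain ⟨hg, hc, hcard⟩ := hN n hn
  refine ⟨hg, hcard, ?_⟩
  have hs : Supp (fun i => pert (W i) (δ i) n) (fun i => pert (W i) (δ i) n) := supp_self hc
  obtain ⟨h31, c', hc'⟩ := h3 _ _ hs hg
  obtain ⟨F', hF'⟩ := h31 c' hc'
  have ht := h2 _ _ c' F' hF' hg
  refine ⟨Mx F', Mx_nonempty hF'.imp.1.ne_zero, ht, ?_⟩
  have hu := h1 _ hg (Mx F') (Mx_nonempty hF'.imp.1.ne_zero) ht
  have he : (fun i => (rv (pert (W i) (δ i) n)).card) = fun i => (W i).card := by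
    funext i
    rw [rv_card]
    exact hcard i
  rw [he] at hu
  exact hu
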