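import Pool.Agent.Lib.MP_4e7804_co.N3.Spec

/-!
# n = 3: the bound in general position
-/

set_option autoImplicit false

namespace Pool.Agent.Lib.MP_4e7804_co.N3

theorem tUpper (hR3 : StmtR3) (hQ : StmtQNum) (hC : StmtCount) (hA3 : StmtA3)
    (hE : StmtEulSp) : StmtUpper := by
  intro A hg M hM hT
  obtain ⟨⟨E2⟩, ⟨E3⟩⟩ := hE
  have h1 := hR3 E3 E2 A hg M hM hT
  have h2 := hQ E2 A hg
  have h3 := hC E2 A hg
  have h4 := hA3 E2 A hg
  rw [h4] at h1
  have h5 : (nv M : ℤ) ≤ (VV fun i => (A i).card : ℕ) := by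
    linarith
  exact_mod_cast h5

end Pool.Agent.Lib.MP_4e7804_co.N3
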