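import Pool.Agent.Lib.MP_4e7804_co.N3.Spec2

/-!
# VF: a valued algebraically closed field with generic points

`k = FractionRing (MvPolynomial (Fin 2) ℂ)`, `K = k⸨X⸩` with its `X`-adic norm, `L = AlgebraicClosure K`
with the spectral norm.
-/

set_option autoImplicit false

namespace Pool.Agent.Lib.MP_4e7804_co.N3.VFN

open LaurentSeries WithZero MonoidWithZeroHom NNReal MvPolynomial

noncomputable section

/-- the base of the norm -/
private def e1 : ℝ≥0 := ⟨Real.exp 1, (Real.exp_pos 1).le⟩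

private theorem one_lt_e1 : 1 < e1 := by
  rw [← NNReal.coe_lt_coe]
  show (1 : ℝ) < Real.exp 1
  exact Real.one_lt_exp_iff.2 one_pos

private theorem e1_ne : e1 ≠ 0 := (zero_lt_one.trans one_lt_e1).ne'

/-- the rank one structure of the `X`-adic valuation -/
@[instance_reducible]
private def ro (k : Type) [Field k] :
    Valuation.RankOne (Valued.v : Valuation k⸨X⸩ ℤᵐ⁰) where
  hom' := (WithZeroMulInt.toNNReal e1_ne).comp ValueGroup₀.embedding
  strictMono' := (WithZeroMulInt.toNNReal_strictMono one_lt_e1).comp ValueGroup₀.embedding_strictMono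
  exists_val_nontrivial := by
    refine ⟨HahnSeries.single 1 (1 : k), ?_, ?_⟩
    · rw [valuation_single_zpow]; exact exp_ne_zero
    · rw [valuation_single_zpow]
      intro h
      have := congrArg log h
      rw [log_exp, log_one] at this
      norm_num at this

/-- the norm of a Laurent series -/
@[instance_reducible]
private def nnf (k : Type) [Field k] : NontriviallyNormedField k⸨X⸩ :=
  letI := ro k
  Valued.toNontriviallyNormedField (L := k⸨X⸩) (Γ₀ := ℤᵐ⁰)

private theorem norm_eq (k : Type) [Field k] (f : k⸨X⸩) :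
    (nnf k).norm f = (WithZeroMulInt.toNNReal e1_ne (Valued.v f) : ℝ) := by
  have h : (nnf k).norm f = (WithZeroMulInt.toNNReal e1_ne
      (ValueGroup₀.embedding ((Valued.v : Valuation k⸨X⸩ ℤᵐ⁰).restrict f)) : ℝ) := rfl
  rw [h, Valuation.embedding_restrict]

private theorem val_eq (k : Type) [Field k] (f : k⸨X⸩) (D : ℤ) (h1 : ∀ n < D, f.coeff n = 0)
    (h2 : f.coeff D ≠ 0) : (Valued.v f : ℤᵐ⁰) = exp (-D) := by
  have hle : (Valued.v f : ℤᵐ⁰) ≤ exp (-D) := (valuation_le_iff_coeff_lt_eq_zero k).2 h1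
  have hnle : ¬ (Valued.v f : ℤᵐ⁰) ≤ exp (-(D + 1)) := by
    intro h
    exact h2 ((valuation_le_iff_coeff_lt_eq_zero k).1 h D (by omega))
  have hf : (Valued.v f : ℤᵐ⁰) ≠ 0 := by
    intro h
    rw [h] at hnle
    exact hnle zero_le
  rw [← exp_log hf] at hle hnle ⊢
  rw [exp_le_exp] at hle hnle
  congr 1
  omega

private theorem norm_coeff (k : Type) [Field k] (f : k⸨X⸩) (D : ℤ) (h1 : ∀ n < D, f.coeff n = 0)
    (h2 : f.coeff D ≠ 0) : (nnf k).norm f = Real.exp (-(D : ℝ)) := by
  rw [norm_eq, val_eq k f D h1 h2]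
  have h : (exp (-D) : ℤᵐ⁰) ≠ 0 := exp_ne_zero
  rw [WithZeroMulInt.toNNReal_neg_apply e1_ne h]
  have h3 : (WithZero.unzero h).toAdd = -D := rfl
  rw [h3, NNReal.coe_zpow]
  show (Real.exp 1) ^ (-D) = _
  rw [← Real.rpow_intCast, Real.exp_one_rpow]
  push_cast
  rfl

private theorem ultra (k : Type) [Field k] :
    @IsUltrametricDist k⸨X⸩ (nnf k).toMetricSpace.toPseudoMetricSpace.toDist := by
  let := ro k
  exact (inferInstance : @IsUltrametricDist k⸨X⸩
    (Valued.toNormedField (L := k⸨X⸩) (Γ₀ := ℤᵐ⁰)).toMetricSpace.toPseudoMetricSpace.toDist)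

private theorem complete (k : Type) [Field k] :
    @CompleteSpace k⸨X⸩ (nnf k).toMetricSpace.toPseudoMetricSpace.toUniformSpace :=
  (instLaurentSeriesComplete (K := k) :)

/-- the coefficient field -/
private abbrev kk : Type := FractionRing (MvPolynomial (Fin 2) ℂ)

/-- the inclusion of the polynomials -/
private def ιk : MvPolynomial (Fin 2) ℂ →+* kk := algebraMap _ _

private theorem ιk_inj : Function.Injective ιk := IsFractionRing.injective _ _

/-- the Laurent series field -/
private abbrev KK : Type := kk⸨X⸩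

/-- the constants -/
private def φ0 : ℂ →+* KK := (HahnSeries.C : kk →+* KK).comp (ιk.comp C)

/-- the generic point in `K` -/
private def x0 (z : Fin 2 → ℤ) (j : Fin 2) : KK := HahnSeries.single (z j) (ιk (X j))

private theorem term (z : Fin 2 → ℤ) (c : ℂ) (m : Fin 2 →₀ ℕ) :
    φ0 c * ∏ i, x0 z i ^ m i =
      HahnSeries.single (z 0 * m 0 + z 1 * m 1) (ιk (monomial m c)) := by
  rw [Fin.prod_univ_two]
  simp only [φ0, x0, RingHom.comp_apply, HahnSeries.C_apply, HahnSeries.single_pow,
    HahnSeries.single_mul_single]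
  have he : (0 : ℤ) + (m 0 • z 0 + m 1 • z 1) = z 0 * m 0 + z 1 * m 1 := by
    simp only [nsmul_eq_mul]; ring
  rw [he]
  congr 1
  rw [← map_pow, ← map_pow, ← map_mul, ← map_mul, monomial_eq, Finsupp.prod_fintype]
  · rw [Fin.prod_univ_two]
  · intro i; simp

private theorem coeff_ev (z : Fin 2 → ℤ) (G : MvPolynomial (Fin 2) ℂ) (n : ℤ) :
    (eval₂ φ0 (x0 z) G).coeff n =
      ιk (∑ m ∈ G.support with z 0 * m 0 + z 1 * m 1 = n, monomial m (coeff m G)) := by
  rw [eval₂_eq']
  simp only [term]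
  rw [HahnSeries.coeff_sum, map_sum, Finset.sum_filter]
  refine Finset.sum_congr rfl fun m _ => ?_
  rw [HahnSeries.coeff_single]
  by_cases h : n = z 0 * m 0 + z 1 * m 1
  · rw [if_pos h, if_pos h.symm]
  · rw [if_neg h, if_neg (fun h' => h h'.symm)]

private theorem norm_ev (z : Fin 2 → ℤ) (G : MvPolynomial (Fin 2) ℂ) (hG : G ≠ 0) :
    ∃ m ∈ G.support, (nnf kk).norm (eval₂ φ0 (x0 z) G) =
      Real.exp (-((z 0 : ℝ) * m 0 + (z 1 : ℝ) * m 1)) ∧
      ∀ m' ∈ G.support, (z 0 : ℝ) * m 0 + (z 1 : ℝ) * m 1 ≤ (z 0 : ℝ) * m' 0 + (z 1 : ℝ) * m' 1 := by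
  have hs : G.support.Nonempty := support_nonempty.2 hG
  obtain ⟨m, hm, hmin⟩ := Finset.exists_min_image G.support
    (fun m => z 0 * (m 0 : ℤ) + z 1 * (m 1 : ℤ)) hs
  refine ⟨m, hm, ?_, fun m' hm' => by exact_mod_cast hmin m' hm'⟩
  rw [norm_coeff kk _ (z 0 * (m 0 : ℤ) + z 1 * (m 1 : ℤ))]
  · push_cast; rfl
  · intro n hn
    rw [coeff_ev, Finset.filter_false_of_mem, Finset.sum_empty, map_zero]
    intro m' hm' h
    have := hmin m' hm'
    omega
  · rw [coeff_ev]
    rw [Ne, map_eq_zero_iff _ ιk_inj]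
    intro h
    have h2 := congrArg (coeff m) h
    rw [coeff_sum, coeff_zero] at h2
    simp only [coeff_monomial] at h2
    rw [Finset.sum_ite_eq'] at h2
    rw [if_pos (by simp only [Finset.mem_filter]; exact ⟨hm, trivial⟩)] at h2
    exact (mem_support_iff.1 hm) h2

/-- the field -/
private abbrev LL : Type := AlgebraicClosure KK

/-- the constants in `L` -/
private def φL : ℂ →+* LL := (algebraMap KK LL).comp φ0

/-- the norm of `L` -/
private def nmL : LL → ℝ :=
  letI := nnf kk
  spectralNorm KK LL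

private theorem nmL_map (f : KK) : nmL (algebraMap KK LL f) = (nnf kk).norm f := by
  let := nnf kk
  exact spectralNorm_extends (K := KK) (L := LL) f

/-- the valued field -/
private def vf : @VF LL _ φL.toAlgebra :=
  letI := nnf kk
  haveI := ultra kk
  haveI := complete kk
  letI := φL.toAlgebra
  { nm := nmL
    nonneg := fun x => spectralNorm_nonneg x
    eq_zero := fun x => ⟨fun h => eq_zero_of_map_spectralNorm_eq_zero h
      (Algebra.IsAlgebraic.isAlgebraic x), fun h => by rw [h]; exact spectralNorm_zero⟩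
    mul := fun x y => by
      exact (spectralAlgNorm_mul (K := KK) (L := LL) x y)
    add := fun x y => isNonarchimedean_spectralNorm (K := KK) (L := LL) x y
    triv := fun c hc => by
      have h1 : algebraMap ℂ LL c = algebraMap KK LL (φ0 c) := rfl
      rw [h1, nmL_map, norm_coeff kk _ 0]
      · simp
      · intro n hn
        simp only [φ0, RingHom.comp_apply, HahnSeries.C_apply]
        rw [HahnSeries.coeff_single_of_ne hn.ne]
      · simp only [φ0, RingHom.comp_apply, HahnSeries.C_apply]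
        rw [HahnSeries.coeff_single_same, Ne, map_eq_zero_iff _ ιk_inj]
        simpa using hc }

end

end Pool.Agent.Lib.MP_4e7804_co.N3.VFN

namespace Pool.Agent.Lib.MP_4e7804_co.N3

open VFN in
/-- **VF** -/
theorem tVF : StmtVF := by
  refine ⟨LL, inferInstance, φL.toAlgebra, inferInstance, vf, fun z =>
    ⟨fun j => algebraMap KK LL (x0 z j), fun G hG => ?_⟩⟩
  obtain ⟨m, hm, h1, h2⟩ := norm_ev z G hG
  refine ⟨m, hm, ?_, h2⟩
  rw [← h1, ← nmL_map, MvPolynomial.eval₂_comp_left (algebraMap KK LL) φ0 (x0 z) G]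
  rfl

end Pool.Agent.Lib.MP_4e7804_co.N3
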