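import Pool.Agent.Lib.MP_4e7804_co.N3.Spec2

/-!
# n = 3: norms of the values of Laurent polynomials
-/

set_option autoImplicit false

namespace Pool.Agent.Lib.MP_4e7804_co.N3.ValN

open Pool.Agent.Lib.MP_4e7804_co.N3

section

variable {L : Type} [Field L] [Algebra ℂ L] (v : VF L)

/-- the norm as a homomorphism -/
private def hom : L →*₀ ℝ where
  toFun := v.nm
  map_zero' := (v.eq_zero 0).2 rfl
  map_one' := by
    have := v.triv 1 one_ne_zero
    simpa using this
  map_mul' := v.mul

private theorem nm_zpow (x : L) (n : ℤ) : v.nm (x ^ n) = v.nm x ^ n := map_zpow₀ (hom v) x n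

private theorem nm_zero : v.nm 0 = 0 := (v.eq_zero 0).2 rfl

private theorem nm_neg (x : L) : v.nm (-x) = v.nm x := by
  have h : v.nm (-1) = 1 := by
    have := v.triv (-1) (by norm_num)
    simpa using this
  rw [← neg_one_mul, v.mul, h, one_mul]

private theorem nm_pos {x : L} (hx : x ≠ 0) : 0 < v.nm x :=
  lt_of_le_of_ne (v.nonneg x) fun h => hx ((v.eq_zero x).1 h.symm)

private theorem nm_sum_le {ι : Type} (s : Finset ι) (f : ι → L) {B : ℝ} (hB : 0 ≤ B)
    (h : ∀ i ∈ s, v.nm (f i) ≤ B) : v.nm (∑ i ∈ s, f i) ≤ B := by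
  classical
  induction s using Finset.induction_on with
  | empty => simpa [nm_zero v] using hB
  | insert a s ha ih =>
    rw [Finset.sum_insert ha]
    exact (v.add _ _).trans (max_le (h a (Finset.mem_insert_self a s))
      (ih fun i hi => h i (Finset.mem_insert_of_mem hi)))

private theorem nm_sum_lt {ι : Type} (s : Finset ι) (f : ι → L) {B : ℝ} (hB : 0 < B)
    (h : ∀ i ∈ s, v.nm (f i) < B) : v.nm (∑ i ∈ s, f i) < B := by
  classical
  induction s using Finset.induction_on with
  | empty => simpa [nm_zero v] using hB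
  | insert a s ha ih =>
    rw [Finset.sum_insert ha]
    exact (v.add _ _).trans_lt (max_lt (h a (Finset.mem_insert_self a s))
      (ih fun i hi => h i (Finset.mem_insert_of_mem hi)))

private theorem nm_add_eq {a b : L} (h : v.nm b < v.nm a) : v.nm (a + b) = v.nm a := by
  apply le_antisymm
  · exact (v.add a b).trans (max_le le_rfl h.le)
  · by_contra hlt
    rw [not_le] at hlt
    have h1 : v.nm a ≤ max (v.nm (a + b)) (v.nm (-b)) := by
      have := v.add (a + b) (-b)
      simpa using this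
    rw [nm_neg v] at h1
    exact absurd h1 (not_le.2 (max_lt hlt h))

private theorem nm_term {c : ℂ} (hc : c ≠ 0) (t : Fin 2 → L) (ht : ∀ k, t k ≠ 0)
    (p : Fin 2 → ℤ) :
    v.nm (algebraMap ℂ L c * (t 0 ^ p 0 * t 1 ^ p 1)) = Real.exp (-dt (toPl p) (wt v t)) := by
  have h0 := nm_pos v (ht 0)
  have h1 := nm_pos v (ht 1)
  rw [v.mul, v.mul, v.triv c hc, nm_zpow, nm_zpow, one_mul]
  have e : -dt (toPl p) (wt v t) =
      (p 0 : ℝ) * Real.log (v.nm (t 0)) + (p 1 : ℝ) * Real.log (v.nm (t 1)) := by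
    simp only [dt, toPl, wt]
    ring
  have hz : ∀ (x : ℝ), 0 < x → ∀ n : ℤ, Real.exp ((n : ℝ) * Real.log x) = x ^ n := by
    intro x hx n
    rw [mul_comm, ← Real.rpow_def_of_pos hx, Real.rpow_intCast]
  rw [e, Real.exp_add, hz _ h0, hz _ h1]

end

private theorem dt_lin (w : Pl) : IsLinearMap ℝ fun x : Pl => dt x w where
  map_add x y := by
    simp only [dt, Prod.fst_add, Prod.snd_add]
    ring
  map_smul a x := by
    simp only [dt, Prod.smul_fst, Prod.smul_snd, smul_eq_mul]
    ring

private theorem psi_le_hull (A : Finset Pl) (w x : Pl)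
    (hx : x ∈ convexHull ℝ (A : Set Pl)) : psi A w ≤ dt x w := by
  have h : convexHull ℝ (A : Set Pl) ⊆ {x | psi A w ≤ dt x w} :=
    convexHull_min (fun y hy => psi_le hy w) (convex_halfSpace_ge (dt_lin w) (psi A w))
  exact h hx

private theorem lt_hull (A : Finset Pl) (w x q : Pl) (hq : w ∈ NC A q)
    (hx : x ∈ convexHull ℝ (A : Set Pl)) : x = q ∨ dt q w < dt x w := by
  have hconv : Convex ℝ {x : Pl | x = q ∨ dt q w < dt x w} := by
    intro x hx y hy a b ha hb hab
    have hl : dt (a • x + b • y) w = a * dt x w + b * dt y w := by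
      rw [(dt_lin w).map_add, (dt_lin w).map_smul, (dt_lin w).map_smul, smul_eq_mul, smul_eq_mul]
    have hle : ∀ z : Pl, (z = q ∨ dt q w < dt z w) → dt q w ≤ dt z w := by
      rintro z (rfl | hz)
      · exact le_rfl
      · exact hz.le
    rcases ha.lt_or_eq with ha' | ha'
    · rcases hb.lt_or_eq with hb' | hb'
      · rcases hx with hx | hx
        · rcases hy with hy | hy
          · left
            rw [hx, hy, ← add_smul, hab, one_smul]
          · right
            rw [hl, hx]
            have := mul_lt_mul_of_pos_left hy hb'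
            have h3 : dt q w = a * dt q w + b * dt q w := by rw [← add_mul, hab, one_mul]
            linarith
        · right
          rw [hl]
          have h1 := mul_lt_mul_of_pos_left hx ha'
          have h2 := mul_le_mul_of_nonneg_left (hle y hy) hb
          have h3 : dt q w = a * dt q w + b * dt q w := by rw [← add_mul, hab, one_mul]
          linarith
      · have ha1 : a = 1 := by linarith
        rw [← hb', ha1]
        simpa using hx
    · have hb1 : b = 1 := by linarith
      rw [← ha', hb1]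
      simpa using hy
  have h : convexHull ℝ (A : Set Pl) ⊆ {x : Pl | x = q ∨ dt q w < dt x w} := by
    refine convexHull_min (fun y hy => ?_) hconv
    by_cases hyq : y = q
    · exact Or.inl hyq
    · exact Or.inr (hq y hy hyq)
  exact h hx

/-- **Val** -/
theorem _root_.Pool.Agent.Lib.MP_4e7804_co.N3.tVal : StmtVal := by
  classical
  intro L _ _ v S W c hW hWS hhull hc t ht
  set w := wt v t with hw
  have hpos : 0 < Real.exp (-psi (rv W) w) := Real.exp_pos _
  have hterm : ∀ p ∈ S, v.nm (algebraMap ℂ L (c p) * (t 0 ^ p 0 * t 1 ^ p 1)) =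
      Real.exp (-dt (toPl p) w) := fun p hp => nm_term v (hc p hp) t ht p
  have hpsi : ∀ p ∈ S, psi (rv W) w ≤ dt (toPl p) w := fun p hp =>
    psi_le_hull (rv W) w _ (hhull p hp)
  refine ⟨?_, ?_, ?_⟩
  · refine nm_sum_le v S _ hpos.le fun p hp => ?_
    rw [hterm p hp]
    exact Real.exp_le_exp.2 (neg_le_neg (hpsi p hp))
  · intro hCL
    have h1 : ∃ x ∈ rv W, w ∈ NC (rv W) x := by
      by_contra hcon
      exact hCL fun p hp hpw => hcon ⟨p, hp, hpw⟩
    obtain ⟨x, hx, hxw⟩ := h1
    obtain ⟨q, hqW, rfl⟩ := mem_rv.1 hx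
    have hqS : q ∈ S := hWS hqW
    have hpq : psi (rv W) w = dt (toPl q) w := psi_eq hx hxw
    have h2 : evL S c t = algebraMap ℂ L (c q) * (t 0 ^ q 0 * t 1 ^ q 1) +
        ∑ p ∈ S.erase q, algebraMap ℂ L (c p) * (t 0 ^ p 0 * t 1 ^ p 1) := by
      rw [evL, Finset.add_sum_erase S (fun p => algebraMap ℂ L (c p) * (t 0 ^ p 0 * t 1 ^ p 1)) hqS]
    have h3 : v.nm (∑ p ∈ S.erase q, algebraMap ℂ L (c p) * (t 0 ^ p 0 * t 1 ^ p 1)) <
        Real.exp (-psi (rv W) w) := by
      refine nm_sum_lt v _ _ hpos fun p hp => ?_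
      obtain ⟨hp1, hp2⟩ := Finset.mem_erase.1 hp
      rw [hterm p hp2]
      refine Real.exp_lt_exp.2 (neg_lt_neg ?_)
      rcases lt_hull (rv W) w _ _ hxw (hhull p hp2) with h | h
      · exact absurd (toPl_injective h) hp1
      · rw [hpq]
        exact h
    have h4 : v.nm (algebraMap ℂ L (c q) * (t 0 ^ q 0 * t 1 ^ q 1)) =
        Real.exp (-psi (rv W) w) := by
      rw [hterm q hqS, hpq]
    rw [h2, nm_add_eq v (by rw [h4]; exact h3), h4]
  · intro E hE hlt
    have hsub : E ⊆ S := fun p hp => ((hE p).1 hp).1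
    have h1 : evL E c t = evL S c t +
        -(∑ p ∈ S \ E, algebraMap ℂ L (c p) * (t 0 ^ p 0 * t 1 ^ p 1)) := by
      rw [evL, evL, ← Finset.sum_sdiff hsub]
      ring
    have h2 : v.nm (∑ p ∈ S \ E, algebraMap ℂ L (c p) * (t 0 ^ p 0 * t 1 ^ p 1)) <
        Real.exp (-psi (rv W) w) := by
      refine nm_sum_lt v _ _ hpos fun p hp => ?_
      obtain ⟨hp1, hp2⟩ := Finset.mem_sdiff.1 hp
      rw [hterm p hp1]
      refine Real.exp_lt_exp.2 (neg_lt_neg ?_)
      refine lt_of_le_of_ne (hpsi p hp1) fun h => hp2 ((hE p).2 ⟨hp1, h.symm⟩)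
    constructor
    · rw [h1]
      refine (v.add _ _).trans_lt (max_lt hlt ?_)
      rw [nm_neg v]
      exact h2
    · have hne : (rv W).Nonempty := by
        obtain ⟨p, hp⟩ := hW.1
        exact ⟨toPl p, toPl_mem_rv hp⟩
      obtain ⟨x, hx, hx2⟩ := exists_psi hne w
      obtain ⟨q, hq, rfl⟩ := mem_rv.1 hx
      exact ⟨q, (hE q).2 ⟨hWS hq, hx2.symm⟩⟩

end Pool.Agent.Lib.MP_4e7804_co.N3.ValN
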