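import Pool.Agent.Lib.MP_4e7804_co.N3.Spec2

/-!
# Extreme points and cones
-/

set_option autoImplicit false

namespace Pool.Agent.Lib.MP_4e7804_co.N3.VertN

open Pool.Agent.Lib.MP_4e7804_co.N3

private theorem conv_aux (a z : Sp) : Convex ℝ {x : Sp | x = a ∨ a ⬝ᵥ z < x ⬝ᵥ z} := by
  intro x hx y hy α β hα hβ hab
  simp only [Set.mem_ofPred_eq] at hx hy ⊢
  have e : (α • x + β • y) ⬝ᵥ z = α * (x ⬝ᵥ z) + β * (y ⬝ᵥ z) := by
    rw [add_dotProduct, smul_dotProduct, smul_dotProduct, smul_eq_mul, smul_eq_mul]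
  rcases hx with hx | hx
  · rcases hy with hy | hy
    · left
      rw [hx, hy, ← add_smul, hab, one_smul]
    · rcases hβ.lt_or_eq with h | h
      · right
        rw [e, hx]
        have h1 := mul_lt_mul_of_pos_left hy h
        have h2 : a ⬝ᵥ z = α * (a ⬝ᵥ z) + β * (a ⬝ᵥ z) := by rw [← add_mul, hab, one_mul]
        linarith
      · left
        have h1 : α = 1 := by linarith
        rw [← h, h1, hx]
        simp
  · rcases hy with hy | hy
    · rcases hα.lt_or_eq with h | h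
      · right
        rw [e, hy]
        have h1 := mul_lt_mul_of_pos_left hx h
        have h2 : a ⬝ᵥ z = α * (a ⬝ᵥ z) + β * (a ⬝ᵥ z) := by rw [← add_mul, hab, one_mul]
        linarith
      · left
        have h1 : β = 1 := by linarith
        rw [← h, h1, hy]
        simp
    · right
      rw [e]
      have h2 : a ⬝ᵥ z = α * (a ⬝ᵥ z) + β * (a ⬝ᵥ z) := by rw [← add_mul, hab, one_mul]
      rcases hα.lt_or_eq with h | h
      · have h1 := mul_lt_mul_of_pos_left hx h
        have h3 := mul_le_mul_of_nonneg_left hy.le hβ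
        linarith
      · have h1 : β = 1 := by linarith
        rw [h1] at h2 ⊢
        rw [← h] at h2 ⊢
        linarith

private theorem ext_iff (M : Finset Sp) (a : Sp) (ha : a ∈ M) :
    a ∈ Set.extremePoints ℝ (convexHull ℝ (M : Set Sp)) ↔
      {z : Sp | ∀ m ∈ M, m ≠ a → a ⬝ᵥ z < m ⬝ᵥ z}.Nonempty := by
  rw [(convex_convexHull ℝ (M : Set Sp)).mem_extremePoints_iff_convex_sdiff]
  constructor
  · rintro ⟨-, h⟩
    have hsub : convexHull ℝ ((M : Set Sp) \ {a}) ⊆ convexHull ℝ (M : Set Sp) \ {a} :=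
      convexHull_min (Set.sdiff_subset_sdiff_left (subset_convexHull ℝ _)) h
    have hna : a ∉ convexHull ℝ ((M : Set Sp) \ {a}) := fun h' => (hsub h').2 rfl
    have hfin : ((M : Set Sp) \ {a}).Finite := M.finite_toSet.subset Set.sdiff_subset
    obtain ⟨f, u, h1, h2⟩ := geometric_hahn_banach_point_closed
      (convex_convexHull ℝ ((M : Set Sp) \ {a})) (Set.Finite.isClosed_convexHull ℝ hfin) hna
    refine ⟨fun i => f (Pi.single i 1), fun m hm hma => ?_⟩
    have key : ∀ x : Sp, x ⬝ᵥ (fun i => f (Pi.single i 1)) = f x := by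
      intro x
      conv_rhs => rw [← Finset.univ_sum_single x]
      rw [map_sum, dotProduct]
      refine Finset.sum_congr rfl fun i _ => ?_
      have : (Pi.single i (x i) : Sp) = x i • Pi.single i 1 := by
        rw [← Pi.single_smul, smul_eq_mul, mul_one]
      rw [this, map_smul, smul_eq_mul]
    rw [key, key]
    exact h1.trans (h2 m (subset_convexHull ℝ _ ⟨hm, hma⟩))
  · rintro ⟨z, hz⟩
    refine ⟨subset_convexHull ℝ _ ha, ?_⟩
    have h1 : convexHull ℝ (M : Set Sp) ⊆ {x : Sp | x = a ∨ a ⬝ᵥ z < x ⬝ᵥ z} := by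
      refine convexHull_min (fun m hm => ?_) (conv_aux a z)
      by_cases hma : m = a
      · exact Or.inl hma
      · exact Or.inr (hz m hm hma)
    intro x hx y hy α β hα hβ hab
    refine ⟨convex_convexHull ℝ _ hx.1 hy.1 hα hβ hab, ?_⟩
    have hx' : a ⬝ᵥ z < x ⬝ᵥ z := (h1 hx.1).resolve_left hx.2
    have hy' : a ⬝ᵥ z < y ⬝ᵥ z := (h1 hy.1).resolve_left hy.2
    intro h
    have e : (α • x + β • y) ⬝ᵥ z = α * (x ⬝ᵥ z) + β * (y ⬝ᵥ z) := by
      rw [add_dotProduct, smul_dotProduct, smul_dotProduct, smul_eq_mul, smul_eq_mul]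
    rw [Set.mem_singleton_iff.1 h] at e
    have h2 : a ⬝ᵥ z = α * (a ⬝ᵥ z) + β * (a ⬝ᵥ z) := by rw [← add_mul, hab, one_mul]
    rcases hα.lt_or_eq with h3 | h3
    · have h4 := mul_lt_mul_of_pos_left hx' h3
      have h5 := mul_le_mul_of_nonneg_left hy'.le hβ
      linarith
    · have h4 : β = 1 := by linarith
      rw [h4, ← h3] at e h2
      linarith

theorem nv_eq (M : Finset Sp) :
    nv M = n1 M fun a => {z : Sp | ∀ m ∈ M, m ≠ a → a ⬝ᵥ z < m ⬝ᵥ z} := by
  classical
  unfold nv n1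
  rw [← Set.ncard_coe_finset]
  congr 1
  ext a
  simp only [Finset.coe_filter, Set.mem_ofPred_eq]
  constructor
  · intro h
    have ha : a ∈ M := by
      have := extremePoints_convexHull_subset h
      exact this
    exact ⟨ha, (ext_iff M a ha).1 h⟩
  · rintro ⟨ha, h⟩
    exact (ext_iff M a ha).2 h

end Pool.Agent.Lib.MP_4e7804_co.N3.VertN

theorem Pool.Agent.Lib.MP_4e7804_co.N3.tVert : Pool.Agent.Lib.MP_4e7804_co.N3.StmtVert :=
  fun M => Pool.Agent.Lib.MP_4e7804_co.N3.VertN.nv_eq M
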