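import Pool.Agent.Lib.MP_4e7804_co.N3.Spec

/-!
# WNum: the integral of the number of witnesses
-/

set_option autoImplicit false

namespace Pool.Agent.Lib.MP_4e7804_co.N3

theorem tWNum (h5 : StmtR5) (hS : StmtSFin) (hF : StmtFin) : StmtWNum := by
  intro E3 E2 A hA
  obtain ⟨g, hg, hg'⟩ := h5 E3 E2 A hA
  have key : g = fun z => ({w | Wit A z w}.ncard : ℤ) := by
    funext z
    have h1 : (fun b => ind {y : Sp × Pl | Wit A y.1 y.2} (z, b)) = ind {w | Wit A z w} := by
      funext b
      exact ind_congr Iff.rfl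
    have h2 := hg z
    rw [h1] at h2
    exact E2.uniq _ _ _ h2 (hF Pl inferInstance inferInstance inferInstance 2 E2 {w | Wit A z w}
      (hS A hA z))
  rw [← key]
  exact hg'

end Pool.Agent.Lib.MP_4e7804_co.N3
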