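import Pool.Agent.Lib.MP_4e7804_co.N3.EulR
import Pool.Agent.Lib.MP_4e7804_co.N3.EulSp
import Pool.Agent.Lib.MP_4e7804_co.N3.IE
import Pool.Agent.Lib.MP_4e7804_co.N3.Cone
import Pool.Agent.Lib.MP_4e7804_co.N3.Fin
import Pool.Agent.Lib.MP_4e7804_co.N3.TropR
import Pool.Agent.Lib.MP_4e7804_co.N3.CLdef
import Pool.Agent.Lib.MP_4e7804_co.N3.A2
import Pool.Agent.Lib.MP_4e7804_co.N3.A3
import Pool.Agent.Lib.MP_4e7804_co.N3.Sector
import Pool.Agent.Lib.MP_4e7804_co.N3.Cov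
import Pool.Agent.Lib.MP_4e7804_co.N3.Cells
import Pool.Agent.Lib.MP_4e7804_co.N3.Tri
import Pool.Agent.Lib.MP_4e7804_co.N3.M3
import Pool.Agent.Lib.MP_4e7804_co.N3.M3b
import Pool.Agent.Lib.MP_4e7804_co.N3.Dec2
import Pool.Agent.Lib.MP_4e7804_co.N3.Dec3
import Pool.Agent.Lib.MP_4e7804_co.N3.Diag
import Pool.Agent.Lib.MP_4e7804_co.N3.Last
import Pool.Agent.Lib.MP_4e7804_co.N3.Count
import Pool.Agent.Lib.MP_4e7804_co.N3.QFin
import Pool.Agent.Lib.MP_4e7804_co.N3.EDec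
import Pool.Agent.Lib.MP_4e7804_co.N3.R4
import Pool.Agent.Lib.MP_4e7804_co.N3.QNum
import Pool.Agent.Lib.MP_4e7804_co.N3.Pair
import Pool.Agent.Lib.MP_4e7804_co.N3.SFin
import Pool.Agent.Lib.MP_4e7804_co.N3.R5
import Pool.Agent.Lib.MP_4e7804_co.N3.WNum
import Pool.Agent.Lib.MP_4e7804_co.N3.PNum
import Pool.Agent.Lib.MP_4e7804_co.N3.R3
import Pool.Agent.Lib.MP_4e7804_co.N3.Upper
import Pool.Agent.Lib.MP_4e7804_co.N3.VF
import Pool.Agent.Lib.MP_4e7804_co.N3.Root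
import Pool.Agent.Lib.MP_4e7804_co.N3.Clr
import Pool.Agent.Lib.MP_4e7804_co.N3.Tie
import Pool.Agent.Lib.MP_4e7804_co.N3.Point
import Pool.Agent.Lib.MP_4e7804_co.N3.Alg3
import Pool.Agent.Lib.MP_4e7804_co.N3.Lift
import Pool.Agent.Lib.MP_4e7804_co.N3.Cnt
import Pool.Agent.Lib.MP_4e7804_co.N3.NoZ
import Pool.Agent.Lib.MP_4e7804_co.N3.NoZ2
import Pool.Agent.Lib.MP_4e7804_co.N3.Val
import Pool.Agent.Lib.MP_4e7804_co.N3.Res
import Pool.Agent.Lib.MP_4e7804_co.N3.ValZ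
import Pool.Agent.Lib.MP_4e7804_co.N3.Rat
import Pool.Agent.Lib.MP_4e7804_co.N3.GClo
import Pool.Agent.Lib.MP_4e7804_co.N3.TSub
import Pool.Agent.Lib.MP_4e7804_co.N3.TClo
import Pool.Agent.Lib.MP_4e7804_co.N3.Surf
import Pool.Agent.Lib.MP_4e7804_co.N3.Spoke
import Pool.Agent.Lib.MP_4e7804_co.N3.Cop
import Pool.Agent.Lib.MP_4e7804_co.N3.IFT
import Pool.Agent.Lib.MP_4e7804_co.N3.Dens
import Pool.Agent.Lib.MP_4e7804_co.N3.Aut
import Pool.Agent.Lib.MP_4e7804_co.N3.Zero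
import Pool.Agent.Lib.MP_4e7804_co.N3.Trick
import Pool.Agent.Lib.MP_4e7804_co.N3.Sect
import Pool.Agent.Lib.MP_4e7804_co.N3.TGam
import Pool.Agent.Lib.MP_4e7804_co.N3.Indp
import Pool.Agent.Lib.MP_4e7804_co.N3.ExF
import Pool.Agent.Lib.MP_4e7804_co.N3.ExSit
import Pool.Agent.Lib.MP_4e7804_co.N3.Poly
import Pool.Agent.Lib.MP_4e7804_co.N3.PGen
import Pool.Agent.Lib.MP_4e7804_co.N3.Planes
import Pool.Agent.Lib.MP_4e7804_co.N3.Avoid
import Pool.Agent.Lib.MP_4e7804_co.N3.Appr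
import Pool.Agent.Lib.MP_4e7804_co.N3.Cross
import Pool.Agent.Lib.MP_4e7804_co.N3.Vert
import Pool.Agent.Lib.MP_4e7804_co.N3.Pert
import Pool.Agent.Lib.MP_4e7804_co.N3.UpAll
import Pool.Agent.Lib.MP_4e7804_co.N3.LowW
import Pool.Agent.Lib.MP_4e7804_co.N3.LatP
import Pool.Agent.Lib.MP_4e7804_co.N3.LatW
import Pool.Agent.Lib.MP_4e7804_co.N3.GenI
import Pool.Agent.Lib.MP_4e7804_co.N3.ImpI
import Pool.Agent.Lib.MP_4e7804_co.N3.NvI
import Pool.Agent.Lib.MP_4e7804_co.N3.Meet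
import Pool.Agent.Lib.MP_4e7804_co.N3.LowF
import Pool.Agent.Lib.MP_4e7804_co.N3.Fin3
import Pool.Agent.Lib.MP_4e7804_co.N3.Low.All

/-!
# n = 3: assembly
-/

set_option autoImplicit false

namespace Pool.Agent.Lib.MP_4e7804_co.N3

theorem tAll : StmtFin3 := by
  have a2 := tA2 tIE tCLdef
  have a3 := tA3 tIE tCLdef a2
  have cov := tCov tSector
  have m3 := tM3 tCells
  have m3b := tM3b cov m3
  have diag := tDiag tTri tCells
  have count := tCount a2 a3 m3b tDec2 tDec3 diag tLast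
  have qfin := tQFin tCLdef
  have edec := tEDec tCLdef
  have r4 := tR4 edec qfin tCone
  have qnum := tQNum r4 tIE tCells
  have pair := tPair tCLdef
  have sfin := tSFin pair qfin
  have r5 := tR5 tIE a2 a3
  have wnum := tWNum r5 sfin tFin
  have pnum := tPNum pair qfin sfin
  have r3 := tR3 tTropR wnum pnum pair qfin sfin tCLdef
  have upper := tUpper r3 qnum count a3 (tEulSp tEulR)
  have point := tPoint tRoot
  have lift := tLift tClr tAlg3
  have noz := tNoZ tCnt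
  have noz2 := tNoZ2 tCnt
  have res := tRes tVal noz
  have valz := tValZ tVF point lift tVal res
  have gclo := tGClo pair tCLdef
  have tsub := tTSub valz tRat gclo
  have surf := tSurf tVF tClr tTie tTClo
  have spoke := tSpoke tVF tRoot tClr tTie tVal tTClo surf
  have cop := tCop noz2
  have zero := tZero tIFT tDens tAut noz
  have sect := tSect cop zero tTrick tClr tTClo
  have tgam := tTGam tsub surf spoke sect tCLdef
  have indp := tIndp tVF tClr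
  have exf := tExF tClr tAlg3
  have exsit := tExSit indp exf tDens
  have pert := tPert (tPlanes tCLdef) tAvoid tAppr tCross tVert tTClo
  have upall := tUpAll upper tgam exsit tPoly tPGen valz pert
  have lowf := tLowF (tLowW Low.lowAll) tMeet tDens indp exf surf spoke sect
  exact tFin3 upall lowf tLatP tLatW tGenI tImpI tNvI

end Pool.Agent.Lib.MP_4e7804_co.N3
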