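import Pool.Agent.Lib.MP_4e7804_co.N3.Spec2

/-!
# Points of the surface are limits
-/

set_option autoImplicit false

namespace Pool.Agent.Lib.MP_4e7804_co.N3

namespace ApprN

open Filter Topology

theorem psi_image {W : Finset (Fin 2 → ℤ)} (h : W.Nonempty) (f : (Fin 2 → ℤ) → Pl)
    {A : Finset Pl} (hA : ∀ x, x ∈ A ↔ ∃ p ∈ W, f p = x) (w : Pl) :
    psi A w = W.inf' h fun p => dt (f p) w := by
  have hne : A.Nonempty := by
    obtain ⟨p, hp⟩ := h
    exact ⟨f p, (hA _).2 ⟨p, hp, rfl⟩⟩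
  apply le_antisymm
  · rw [Finset.le_inf'_iff]
    exact fun p hp => psi_le ((hA _).2 ⟨p, hp, rfl⟩) w
  · obtain ⟨x, hx, hx'⟩ := exists_psi hne w
    obtain ⟨p, hp, rfl⟩ := (hA _).1 hx
    rw [hx']
    exact Finset.inf'_le (fun p => dt (f p) w) hp

theorem mem_pert {W : Finset (Fin 2 → ℤ)} {δ : (Fin 2 → ℤ) → Fin 2 → ℤ} {n : ℕ} {x : Pl} :
    x ∈ rv (pert W δ n) ↔ ∃ p ∈ W, toPl ((n : ℤ) • p + δ p) = x := by
  rw [mem_rv]
  unfold pert
  constructor
  · rintro ⟨p', hp', rfl⟩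
    obtain ⟨p, hp, rfl⟩ := Finset.mem_image.1 hp'
    exact ⟨p, hp, rfl⟩
  · rintro ⟨p, hp, rfl⟩
    exact ⟨_, Finset.mem_image_of_mem _ hp, rfl⟩

theorem ne_pert {W : Finset (Fin 2 → ℤ)} (h : W.Nonempty) (δ : (Fin 2 → ℤ) → Fin 2 → ℤ) (n : ℕ) :
    (rv (pert W δ n)).Nonempty := by
  obtain ⟨p, hp⟩ := h
  exact ⟨_, mem_pert.2 ⟨p, hp, rfl⟩⟩

theorem ne_rv {W : Finset (Fin 2 → ℤ)} (h : W.Nonempty) : (rv W).Nonempty := by
  obtain ⟨p, hp⟩ := h
  exact ⟨_, toPl_mem_rv hp⟩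

theorem dt_pert (p d : Fin 2 → ℤ) {n : ℕ} (hn : n ≠ 0) (u : Pl) :
    dt (toPl ((n : ℤ) • p + d)) ((n : ℝ)⁻¹ • u) =
      dt (toPl p) u + (n : ℝ)⁻¹ * dt (toPl d) u := by
  have h : (n : ℝ) ≠ 0 := Nat.cast_ne_zero.2 hn
  simp only [dt, toPl, Pi.add_apply, Pi.smul_apply, Prod.smul_fst, Prod.smul_snd, smul_eq_mul]
  push_cast
  field_simp
  ring

theorem lim1 (P E : Pl) {u : ℕ → Pl} {w : Pl} (hu : Tendsto u atTop (𝓝 w)) :
    Tendsto (fun n : ℕ => dt P (u n) + (n : ℝ)⁻¹ * dt E (u n)) atTop (𝓝 (dt P w)) := by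
  have h1 : Tendsto (fun n : ℕ => dt P (u n)) atTop (𝓝 (dt P w)) :=
    ((dt_cont P).tendsto w).comp hu
  have h2 : Tendsto (fun n : ℕ => dt E (u n)) atTop (𝓝 (dt E w)) :=
    ((dt_cont E).tendsto w).comp hu
  have h3 : Tendsto (fun n : ℕ => (n : ℝ)⁻¹) atTop (𝓝 0) := tendsto_inv_atTop_nhds_zero_nat
  have h4 := h1.add (h3.mul h2)
  rw [zero_mul, add_zero] at h4
  exact h4

theorem lim {W : Finset (Fin 2 → ℤ)} (h : W.Nonempty) (δ : (Fin 2 → ℤ) → Fin 2 → ℤ)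
    {u : ℕ → Pl} {w : Pl} (hu : Tendsto u atTop (𝓝 w)) :
    Tendsto (fun n : ℕ => psi (rv (pert W δ n)) ((n : ℝ)⁻¹ • u n)) atTop
      (𝓝 (psi (rv W) w)) := by
  have h1 : psi (rv W) w = W.inf' h fun p => dt (toPl p) w :=
    psi_image h toPl (fun x => mem_rv) w
  rw [h1]
  have h2 : Tendsto (fun n : ℕ => W.inf' h fun p =>
      dt (toPl p) (u n) + (n : ℝ)⁻¹ * dt (toPl (δ p)) (u n)) atTop
      (𝓝 (W.inf' h fun p => dt (toPl p) w)) :=
    Filter.Tendsto.finset_inf'_nhds_apply h fun p _ => lim1 (toPl p) (toPl (δ p)) hu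
  refine h2.congr' ?_
  filter_upwards [eventually_ne_atTop 0] with n hn
  rw [psi_image h (fun p => toPl ((n : ℤ) • p + δ p)) (fun x => mem_pert)]
  congr 1
  funext p
  rw [dt_pert p (δ p) hn]

theorem third {A : Finset Pl} {p q r w : Pl} (hp : p ∈ A) (hq : q ∈ A) (hr : r ∈ A)
    (hpq : p ≠ q) (hrp : r ≠ p) (hrq : r ≠ q) (hw : w ≠ 0) (h1 : dt p w = dt q w)
    (h2 : dt r w = dt q w) (np : (NC A p).Nonempty) (nq : (NC A q).Nonempty)
    (nr : (NC A r).Nonempty) : False := by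
  obtain ⟨a, ha⟩ : ∃ a : ℝ, a = w.1 * (q.2 - p.2) - w.2 * (q.1 - p.1) := ⟨_, rfl⟩
  obtain ⟨b, hb⟩ : ∃ b : ℝ, b = w.1 * (r.2 - p.2) - w.2 * (r.1 - p.1) := ⟨_, rfl⟩
  obtain ⟨m, hm⟩ : ∃ m : ℝ, m = w.1 ^ 2 + w.2 ^ 2 := ⟨_, rfl⟩
  have hm0 : 0 < m := by
    rw [hm]
    by_contra h
    push Not at h
    apply hw
    have e1 : w.1 = 0 := by nlinarith [sq_nonneg w.1, sq_nonneg w.2]
    have e2 : w.2 = 0 := by nlinarith [sq_nonneg w.1, sq_nonneg w.2]
    exact Prod.ext e1 e2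
  have key1 : ∀ u : Pl, m * (dt q u - dt p u) = a * (w.1 * u.2 - w.2 * u.1) := by
    intro u
    have h3 : (q.1 - p.1) * w.1 + (q.2 - p.2) * w.2 = 0 := by
      unfold dt at h1
      linarith
    rw [hm, ha]
    unfold dt
    linear_combination (w.1 * u.1 + w.2 * u.2) * h3
  have key2 : ∀ u : Pl, m * (dt r u - dt p u) = b * (w.1 * u.2 - w.2 * u.1) := by
    intro u
    have h3 : (r.1 - p.1) * w.1 + (r.2 - p.2) * w.2 = 0 := by
      unfold dt at h1 h2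
      linarith
    rw [hm, hb]
    unfold dt
    linear_combination (w.1 * u.1 + w.2 * u.2) * h3
  have pos : ∀ s t X : ℝ, 0 < s * X → 0 < t * X → 0 < s * t := by
    intro s t X hs ht
    have h3 := mul_pos hs ht
    have h4 : s * X * (t * X) = s * t * X ^ 2 := by ring
    rw [h4] at h3
    by_contra h5
    push Not at h5
    nlinarith [sq_nonneg X, mul_nonneg (neg_nonneg.2 h5) (sq_nonneg X)]
  have e1 : 0 < a * b := by
    obtain ⟨u, hu⟩ := np
    have g1 := hu q hq (Ne.symm hpq)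
    have g2 := hu r hr hrp
    refine pos a b (w.1 * u.2 - w.2 * u.1) ?_ ?_
    · rw [← key1 u]
      exact mul_pos hm0 (by linarith)
    · rw [← key2 u]
      exact mul_pos hm0 (by linarith)
  have e2 : 0 < (-a) * (b - a) := by
    obtain ⟨u, hu⟩ := nq
    have g1 := hu p hp hpq
    have g2 := hu r hr hrq
    refine pos (-a) (b - a) (w.1 * u.2 - w.2 * u.1) ?_ ?_
    · have h3 := mul_pos hm0 (show 0 < dt p u - dt q u by linarith)
      nlinarith [key1 u]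
    · have h3 := mul_pos hm0 (show 0 < dt r u - dt q u by linarith)
      nlinarith [key1 u, key2 u]
  have e3 : 0 < (-b) * (a - b) := by
    obtain ⟨u, hu⟩ := nr
    have g1 := hu p hp (Ne.symm hrp)
    have g2 := hu q hq (Ne.symm hrq)
    refine pos (-b) (a - b) (w.1 * u.2 - w.2 * u.1) ?_ ?_
    · have h3 := mul_pos hm0 (show 0 < dt p u - dt r u by linarith)
      nlinarith [key2 u]
    · have h3 := mul_pos hm0 (show 0 < dt q u - dt r u by linarith)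
      nlinarith [key1 u, key2 u]
  have e4 := mul_pos e2 e3
  have e5 : (-a) * (b - a) * ((-b) * (a - b)) = -(a * b * (a - b) ^ 2) := by ring
  rw [e5] at e4
  nlinarith [mul_nonneg e1.le (sq_nonneg (a - b))]

theorem ev_ne {p q : Fin 2 → ℤ} (hpq : p ≠ q) (d e : Fin 2 → ℤ) :
    ∀ᶠ n : ℕ in atTop, (n : ℤ) • p + d ≠ (n : ℤ) • q + e := by
  obtain ⟨k, hk⟩ : ∃ k, p k ≠ q k := by
    by_contra h
    push Not at h
    exact hpq (funext h)
  filter_upwards [eventually_gt_atTop (e k - d k).natAbs] with n hn h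
  have h1 : (n : ℤ) * p k + d k = (n : ℤ) * q k + e k := by
    have := congrFun h k
    simpa using this
  have h2 : (n : ℤ) * (p k - q k) = e k - d k := by linarith
  have h3 : n * (p k - q k).natAbs = (e k - d k).natAbs := by
    rw [← h2, Int.natAbs_mul, Int.natAbs_natCast]
  rw [← h3] at hn
  have h4 : (p k - q k).natAbs < 1 := by
    by_contra h5
    push Not at h5
    have : n ≤ n * (p k - q k).natAbs := Nat.le_mul_of_pos_right n h5
    omega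
  have h5 : p k - q k = 0 := by omega
  exact hk (by omega)

theorem step (W : Fin 3 → Finset (Fin 2 → ℤ)) (δ : Fin 3 → (Fin 2 → ℤ) → Fin 2 → ℤ)
    (hne : ∀ i, (W i).Nonempty) {w : Pl} (hw : w ≠ 0) {u : ℕ → Pl}
    (hu : Tendsto u atTop (𝓝 w)) (a : Fin 3 → ℝ) (ha : ∀ j, 0 ≤ a j)
    (hcl : ∀ j, a j ≠ 0 → ∀ᶠ n : ℕ in atTop,
      ((n : ℝ)⁻¹ • u n : Pl) ∈ CL (rv (pert (W j) (δ j) n)))
    (y : Sp) (hy : ∀ j, y j = psi (rv (W j)) w + a j) (ε : ℝ) (hε : 0 < ε) :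
    ∀ᶠ n : ℕ in atTop, ∃ y' ∈ Gam (fun i => rv (pert (W i) (δ i) n)), ‖y' - y‖ < ε := by
  have h1 : ∀ᶠ n : ℕ in atTop, ∀ j,
      a j ≠ 0 → ((n : ℝ)⁻¹ • u n : Pl) ∈ CL (rv (pert (W j) (δ j) n)) := by
    rw [eventually_all]
    intro j
    by_cases hj : a j = 0
    · exact Eventually.of_forall fun n h => absurd hj h
    · filter_upwards [hcl j hj] with n hn _
      exact hn
  have h2 : ∀ᶠ n : ℕ in atTop, ∀ j,
      |psi (rv (pert (W j) (δ j) n)) ((n : ℝ)⁻¹ • u n) - psi (rv (W j)) w| < ε := by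
    rw [eventually_all]
    intro j
    have h3 := (lim (hne j) (δ j) hu).eventually (Metric.ball_mem_nhds _ hε)
    filter_upwards [h3] with n hn
    rw [Real.dist_eq] at hn
    exact hn
  have h3 : ∀ᶠ n : ℕ in atTop, u n ≠ 0 := hu.eventually_ne hw
  filter_upwards [h1, h2, h3, eventually_ne_atTop 0] with n g1 g2 g3 g4
  have hn : ((n : ℝ)⁻¹) ≠ 0 := inv_ne_zero (Nat.cast_ne_zero.2 g4)
  have hv : ((n : ℝ)⁻¹ • u n : Pl) ≠ 0 := smul_ne_zero hn g3
  refine ⟨fun j => psi (rv (pert (W j) (δ j) n)) ((n : ℝ)⁻¹ • u n) + a j,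
    ⟨(n : ℝ)⁻¹ • u n, fun j => ⟨?_, ?_⟩, fun h => hv h.1⟩, ?_⟩
  · have := ha j
    change psi (rv (pert (W j) (δ j) n)) ((n : ℝ)⁻¹ • u n) ≤
      psi (rv (pert (W j) (δ j) n)) ((n : ℝ)⁻¹ • u n) + a j
    linarith
  · by_cases hj : a j = 0
    · right
      change psi (rv (pert (W j) (δ j) n)) ((n : ℝ)⁻¹ • u n) + a j = _
      rw [hj, add_zero]
    · left
      exact g1 j hj
  · rw [pi_norm_lt_iff hε]
    intro j
    change ‖psi (rv (pert (W j) (δ j) n)) ((n : ℝ)⁻¹ • u n) + a j - y j‖ < ε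
    rw [hy j, Real.norm_eq_abs]
    have h5 : psi (rv (pert (W j) (δ j) n)) ((n : ℝ)⁻¹ • u n) + a j -
        (psi (rv (W j)) w + a j) =
        psi (rv (pert (W j) (δ j) n)) ((n : ℝ)⁻¹ • u n) - psi (rv (W j)) w := by ring
    rw [h5]
    exact g2 j

/-- the corner case -/
theorem corner {W : Finset (Fin 2 → ℤ)} (δ : (Fin 2 → ℤ) → Fin 2 → ℤ) (hW : CP W) {w : Pl}
    (hw : w ≠ 0) (hcl : w ∈ CL (rv W)) : ∃ u : ℕ → Pl, Tendsto u atTop (𝓝 w) ∧
      ∀ᶠ n : ℕ in atTop, ((n : ℝ)⁻¹ • u n : Pl) ∈ CL (rv (pert W δ n)) := by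
  obtain ⟨p', hp', q', hq', hpq', h1, h2⟩ := (CL_iff (ne_rv hW.1)).1 hcl
  obtain ⟨p, hp, rfl⟩ := mem_rv.1 hp'
  obtain ⟨q, hq, rfl⟩ := mem_rv.1 hq'
  have hpq : p ≠ q := fun h => hpq' (by rw [h])
  obtain ⟨D, hD⟩ : ∃ D : Pl, D = toPl p - toPl q := ⟨_, rfl⟩
  obtain ⟨E, hE⟩ : ∃ E : Pl, E = toPl (δ p) - toPl (δ q) := ⟨_, rfl⟩
  have hD0 : D ≠ 0 := by
    rw [hD]
    exact sub_ne_zero.2 hpq'
  have hDw : D.1 * w.1 + D.2 * w.2 = 0 := by
    have h3 : dt (toPl p) w = dt (toPl q) w := h1.trans h2.symm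
    have h4 : dt D w = 0 := by rw [hD, sub_dt, h3, sub_self]
    exact h4
  have hm0 : 0 < D.1 ^ 2 + D.2 ^ 2 := by
    by_contra h
    push Not at h
    apply hD0
    have e1 : D.1 = 0 := by nlinarith [sq_nonneg D.1, sq_nonneg D.2]
    have e2 : D.2 = 0 := by nlinarith [sq_nonneg D.1, sq_nonneg D.2]
    exact Prod.ext e1 e2
  obtain ⟨c, hc⟩ : ∃ c : ℝ, w = (-(c * D.2), c * D.1) := by
    refine ⟨(w.2 * D.1 - w.1 * D.2) / (D.1 ^ 2 + D.2 ^ 2), Prod.ext ?_ ?_⟩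
    · change w.1 = -((w.2 * D.1 - w.1 * D.2) / (D.1 ^ 2 + D.2 ^ 2) * D.2)
      rw [div_mul_eq_mul_div, ← neg_div, eq_div_iff hm0.ne']
      linear_combination D.1 * hDw
    · change w.2 = (w.2 * D.1 - w.1 * D.2) / (D.1 ^ 2 + D.2 ^ 2) * D.1
      rw [div_mul_eq_mul_div, eq_div_iff hm0.ne']
      linear_combination D.2 * hDw
  obtain ⟨u, hu⟩ : ∃ u : ℕ → Pl, u = fun n : ℕ =>
      (-(c * (D.2 + (n : ℝ)⁻¹ * E.2)), c * (D.1 + (n : ℝ)⁻¹ * E.1)) := ⟨_, rfl⟩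
  have hlim : Tendsto u atTop (𝓝 w) := by
    have h3 : Tendsto (fun n : ℕ => (n : ℝ)⁻¹) atTop (𝓝 0) := tendsto_inv_atTop_nhds_zero_nat
    have h4 : Tendsto (fun n : ℕ => -(c * (D.2 + (n : ℝ)⁻¹ * E.2))) atTop
        (𝓝 (-(c * (D.2 + 0 * E.2)))) :=
      ((tendsto_const_nhds.add (h3.mul_const E.2)).const_mul c).neg
    have h5 : Tendsto (fun n : ℕ => c * (D.1 + (n : ℝ)⁻¹ * E.1)) atTop
        (𝓝 (c * (D.1 + 0 * E.1))) :=
      (tendsto_const_nhds.add (h3.mul_const E.1)).const_mul c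
    rw [zero_mul, add_zero] at h4 h5
    rw [hu, hc]
    exact h4.prodMk_nhds h5
  refine ⟨u, hlim, ?_⟩
  have hbig : ∀ᶠ n : ℕ in atTop, ∀ r ∈ W, r ≠ p → r ≠ q →
      dt (toPl p) (u n) + (n : ℝ)⁻¹ * dt (toPl (δ p)) (u n) <
        dt (toPl r) (u n) + (n : ℝ)⁻¹ * dt (toPl (δ r)) (u n) := by
    rw [Filter.eventually_all_finset]
    intro r hr
    by_cases hrp : r = p
    · exact Eventually.of_forall fun n h => absurd hrp h
    by_cases hrq : r = q
    · exact Eventually.of_forall fun n _ h => absurd hrq h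
    have h3 : dt (toPl p) w < dt (toPl r) w := by
      refine lt_of_le_of_ne (by rw [h1]; exact psi_le (toPl_mem_rv hr) w) fun h4 => ?_
      exact third (toPl_mem_rv hp) (toPl_mem_rv hq) (toPl_mem_rv hr) hpq'
        (fun h => hrp (toPl_injective h)) (fun h => hrq (toPl_injective h)) hw
        (h1.trans h2.symm) (h4.symm.trans (h1.trans h2.symm)) (hW.2 p hp) (hW.2 q hq)
        (hW.2 r hr)
    have h5 := (lim1 (toPl p) (toPl (δ p)) hlim).eventually_lt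
      (lim1 (toPl r) (toPl (δ r)) hlim) h3
    filter_upwards [h5] with n hn _ _
    exact hn
  filter_upwards [hbig, ev_ne hpq (δ p) (δ q), eventually_ne_atTop 0] with n g1 g2 g3
  have heq : dt (toPl ((n : ℤ) • p + δ p)) ((n : ℝ)⁻¹ • u n) =
      dt (toPl ((n : ℤ) • q + δ q)) ((n : ℝ)⁻¹ • u n) := by
    rw [dt_pert p (δ p) g3, dt_pert q (δ q) g3]
    have h3 : dt (D + (n : ℝ)⁻¹ • E) (u n) = 0 := by
      rw [hu]
      simp only [dt, Prod.fst_add, Prod.snd_add, Prod.smul_fst, Prod.smul_snd, smul_eq_mul]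
      ring
    have h4 : dt (D + (n : ℝ)⁻¹ • E) (u n) =
        (dt (toPl p) (u n) + (n : ℝ)⁻¹ * dt (toPl (δ p)) (u n)) -
          (dt (toPl q) (u n) + (n : ℝ)⁻¹ * dt (toPl (δ q)) (u n)) := by
      rw [hD, hE]
      simp only [dt, Prod.fst_add, Prod.snd_add, Prod.smul_fst, Prod.smul_snd, smul_eq_mul,
        Prod.fst_sub, Prod.snd_sub]
      ring
    rw [h4] at h3
    linarith
  have hmin : dt (toPl ((n : ℤ) • p + δ p)) ((n : ℝ)⁻¹ • u n) =
      psi (rv (pert W δ n)) ((n : ℝ)⁻¹ • u n) := by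
    apply le_antisymm
    · rw [le_psi_iff (ne_pert hW.1 δ n)]
      intro x hx
      obtain ⟨r, hr, rfl⟩ := mem_pert.1 hx
      by_cases hrp : r = p
      · rw [hrp]
      by_cases hrq : r = q
      · rw [hrq, heq]
      rw [dt_pert p (δ p) g3, dt_pert r (δ r) g3]
      exact (g1 r hr hrp hrq).le
    · exact psi_le (mem_pert.2 ⟨p, hp, rfl⟩) _
  rw [CL_iff (ne_pert hW.1 δ n)]
  exact ⟨_, mem_pert.2 ⟨p, hp, rfl⟩, _, mem_pert.2 ⟨q, hq, rfl⟩,
    fun h => g2 (toPl_injective h), hmin, heq.symm.trans hmin⟩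

end ApprN

open ApprN Filter Topology in
theorem tAppr : StmtAppr := by
  intro W δ hW y hy ε hε
  refine Filter.eventually_atTop.1 ?_
  obtain ⟨w, hwit, hoct, huniq⟩ := hy
  have hne : ∀ i, (W i).Nonempty := fun i => (hW i).1
  by_cases hw : w = 0
  · subst hw
    have hall : ∀ᶠ n : ℕ in atTop, ∀ i, (0 : Pl) ∈ CL (rv (W i)) →
        (0 : Pl) ∈ CL (rv (pert (W i) (δ i) n)) := by
      rw [eventually_all]
      intro i
      by_cases h : (0 : Pl) ∈ CL (rv (W i))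
      · obtain ⟨p', hp', q', hq', hpq', _, _⟩ := (CL_iff (ne_rv (hne i))).1 h
        obtain ⟨p, hp, rfl⟩ := mem_rv.1 hp'
        obtain ⟨q, hq, rfl⟩ := mem_rv.1 hq'
        have hpq : p ≠ q := fun h => hpq' (by rw [h])
        filter_upwards [ev_ne hpq (δ i p) (δ i q)] with n hn _
        rw [CL_iff (ne_pert (hne i) (δ i) n)]
        refine ⟨_, mem_pert.2 ⟨p, hp, rfl⟩, _, mem_pert.2 ⟨q, hq, rfl⟩,
          fun h => hn (toPl_injective h), ?_, ?_⟩
        · rw [dt_zero, psi_zero (ne_pert (hne i) (δ i) n)]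
        · rw [dt_zero, psi_zero (ne_pert (hne i) (δ i) n)]
      · exact Eventually.of_forall fun n h' => absurd h' h
    filter_upwards [hall] with n hn
    refine ⟨y, ⟨0, fun i => ⟨?_, ?_⟩, hoct⟩, ?_⟩
    · have h1 := (hwit i).1
      rw [psi_zero (ne_rv (hne i))] at h1
      rw [psi_zero (ne_pert (hne i) (δ i) n)]
      exact h1
    · rcases (hwit i).2 with h1 | h1
      · exact Or.inl (hn i h1)
      · right
        rw [psi_zero (ne_rv (hne i))] at h1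
        rw [psi_zero (ne_pert (hne i) (δ i) n)]
        exact h1
    · rw [sub_self, norm_zero]
      exact hε
  · have ha : ∀ j, 0 ≤ y j - psi (rv (W j)) w := fun j => sub_nonneg.2 (hwit j).1
    have hy' : ∀ j, y j = psi (rv (W j)) w + (y j - psi (rv (W j)) w) := fun j => by ring
    by_cases hI : ∃ i, psi (rv (W i)) w < y i
    · obtain ⟨i, hi⟩ := hI
      have hcl : w ∈ CL (rv (W i)) := by
        rcases (hwit i).2 with h1 | h1
        · exact h1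
        · exact absurd h1 hi.ne'
      obtain ⟨u, hu, hucl⟩ := corner (δ i) (hW i) hw hcl
      refine step W δ hne hw hu (fun j => y j - psi (rv (W j)) w) ha (fun j hj => ?_) y hy' ε hε
      have hj' : psi (rv (W j)) w < y j := lt_of_le_of_ne (hwit j).1 fun h => hj (by
        change y j - psi (rv (W j)) w = 0
        rw [h, sub_self])
      have hji : j = i := huniq hw j i hj' hi
      rw [hji]
      exact hucl
    · push Not at hI
      refine step W δ hne hw (tendsto_const_nhds (x := w)) (fun j => y j - psi (rv (W j)) w) ha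
        (fun j hj => ?_) y hy' ε hε
      exfalso
      apply hj
      change y j - psi (rv (W j)) w = 0
      exact sub_eq_zero.2 (le_antisymm (hI j) (hwit j).1)

end Pool.Agent.Lib.MP_4e7804_co.N3
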