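import Pool.Agent.Lib.MP_4e7804_co.N3.Eul

/-!
# Planar definitions for the case n = 3
-/

set_option autoImplicit false

namespace Pool.Agent.Lib.MP_4e7804_co.N3

/-- the plane -/
abbrev Pl := ℝ × ℝ

/-- space -/
abbrev Sp := Fin 3 → ℝ

/-- the scalar product -/
def dt (p w : Pl) : ℝ := p.1 * w.1 + p.2 * w.2

/-- the determinant -/
def cr (a b : Pl) : ℝ := a.1 * b.2 - a.2 * b.1

/-- the open normal cone of `p` in `A` (minimum convention) -/
def NC (A : Finset Pl) (p : Pl) : Set Pl := {w | ∀ q ∈ A, q ≠ p → dt p w < dt q w}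

/-- the corner locus: the minimum of `dt p w`, `p ∈ A`, is attained at least twice -/
def CL (A : Finset Pl) : Set Pl := {w | ∀ p ∈ A, w ∉ NC A p}

/-- the support function (minimum) -/
noncomputable def psi (A : Finset Pl) (w : Pl) : ℝ := ⨅ p : A, dt p w

/-- `w` is a witness for `z` -/
def Wit (A : Fin 3 → Finset Pl) (z : Sp) (w : Pl) : Prop :=
  ∀ i, psi (A i) w ≤ z i ∧ (w ∈ CL (A i) ∨ z i = psi (A i) w)

/-- the open positive octant -/
def oct : Set Sp := {z | ∀ i, 0 < z i}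

/-- the tropical surface -/
def Gam (A : Fin 3 → Finset Pl) : Set Sp := {z | ∃ w, Wit A z w ∧ ¬ (w = 0 ∧ z ∈ oct)}

/-- the open cone of `w` with all `psi` positive -/
def Apos (A : Fin 3 → Finset Pl) : Set Pl := {w | ∀ i, 0 < psi (A i) w}

/-- the open cells in `ℝ⁴` (points `x = (w', w)`): the cell `(p, false)` is the set where `dt p w`, the
cell `(p, true)` the set where `dt p w'` is the unique minimum of all `dt q w`, `dt q w'`, `q ∈ A` -/
def cell (A : Finset Pl) (k : Pl × Bool) : Set (Pl × Pl) :=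
  if k.2 then {x | x.1 ∈ NC A k.1 ∧ ∀ q ∈ A, dt k.1 x.1 < dt q x.2}
  else {x | x.2 ∈ NC A k.1 ∧ ∀ q ∈ A, dt k.1 x.2 < dt q x.1}

/-- the labels of the cells -/
def lab (A : Finset Pl) : Finset (Pl × Bool) := A ×ˢ Finset.univ

/-- the complement of the cells of `A` -/
def EE (A : Finset Pl) : Set (Pl × Pl) := {x | ∀ k ∈ lab A, x ∉ cell A k}

/-- the crossing pairs -/
def QQ (A : Fin 3 → Finset Pl) : Set (Pl × Pl) :=
  {x | (∀ i, x ∈ EE (A i)) ∧ x.1 ≠ x.2 ∧ ¬ (x.1 = 0 ∧ x.2 ∈ Apos A) ∧ ¬ (x.2 = 0 ∧ x.1 ∈ Apos A)}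

/-- the normalized crossing pairs -/
def QN (A : Fin 3 → Finset Pl) : Set (Pl × Pl) := {x | x ∈ QQ A ∧ ‖x‖ = 1}

/-- the normal vector of the plane `{(dt (p i) w)_i}` -/
def nrm (p : Fin 3 → Pl) : Sp := ![cr (p 1) (p 2), cr (p 2) (p 0), cr (p 0) (p 1)]

/-- general position -/
structure Gen (A : Fin 3 → Finset Pl) : Prop where
  ne : ∀ i, (A i).Nonempty
  vert : ∀ i, ∀ p ∈ A i, (NC (A i) p).Nonempty
  g1 : ∀ i j, i ≠ j → ∀ p ∈ A i, ∀ q ∈ A j, cr p q ≠ 0
  g2 : ∀ i j, i ≠ j → ∀ p ∈ A i, ∀ p' ∈ A i, p ≠ p' → ∀ q ∈ A j, ∀ q' ∈ A j, q ≠ q' →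
    cr (p - p') (q - q') ≠ 0
  g3 : ∀ i j, i ≠ j → ∀ p ∈ A i, ∀ p' ∈ A i, p ≠ p' → ∀ q ∈ A j, cr (p - p') q ≠ 0
  g4 : ∀ p q : Fin 3 → Pl, (∀ i, p i ∈ A i) → (∀ i, q i ∈ A i) → p ≠ q →
    ∃ i j, nrm p i * nrm q j ≠ nrm p j * nrm q i
  g5 : ∀ i, ∀ p ∈ A i, ∀ q ∈ A i, p ≠ q → cr p q ≠ 0
  g7 : ∀ i j k, i ≠ j → i ≠ k → j ≠ k → ∀ p ∈ A i, ∀ p' ∈ A i, p ≠ p' → ∀ q ∈ A i, ∀ q' ∈ A i,
    q ≠ q' → ∀ s ∈ A j, ∀ s' ∈ A j, ∀ r ∈ A k, ∀ r' ∈ A k,
    cr (p - p') s * cr (q - q') r' = cr (p - p') r * cr (q - q') s' →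
      s = s' ∧ r = r' ∧ ((p = q ∧ p' = q') ∨ (p = q' ∧ p' = q))

open Classical in
/-- the number of nonempty sets -/
noncomputable def n1 {ι α : Type*} (K : Finset ι) (U : ι → Set α) : ℕ :=
  (K.filter fun x => (U x).Nonempty).card

open Classical in
/-- the number of nonempty intersections of two sets -/
noncomputable def n2 {ι κ α : Type*} (K : Finset ι) (L : Finset κ) (U : ι → Set α)
    (V : κ → Set α) : ℕ :=
  ((K ×ˢ L).filter fun x => (U x.1 ∩ V x.2).Nonempty).card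

open Classical in
/-- the number of nonempty intersections of three sets -/
noncomputable def n3 {ι κ μ α : Type*} (K : Finset ι) (L : Finset κ) (M : Finset μ) (U : ι → Set α)
    (V : κ → Set α) (W : μ → Set α) : ℕ :=
  ((K ×ˢ L ×ˢ M).filter fun x => (U x.1 ∩ V x.2.1 ∩ W x.2.2).Nonempty).card

/-- the unprimed cells -/
def cU (A : Finset Pl) (p : Pl) : Set (Pl × Pl) := {x | x.2 ∈ NC A p ∧ dt p x.2 < psi A x.1}

/-- the primed cells -/
def cP (A : Finset Pl) (p : Pl) : Set (Pl × Pl) := {x | x.1 ∈ NC A p ∧ dt p x.1 < psi A x.2}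

/-- number of pairs of normal cones which meet -/
noncomputable def a2 (A B : Finset Pl) : ℕ := n2 A B (NC A) (NC B)

/-- number of triples of normal cones which meet -/
noncomputable def a3 (A B C : Finset Pl) : ℕ := n3 A B C (NC A) (NC B) (NC C)

/-- pure pairs -/
noncomputable def pp (A B : Finset Pl) : ℕ := n2 A B (cU A) (cU B)

/-- mixed pairs -/
noncomputable def mm (A C : Finset Pl) : ℕ := n2 A C (cU A) (cP C)

/-- pure triples -/
noncomputable def ppp (A B C : Finset Pl) : ℕ := n3 A B C (cU A) (cU B) (cU C)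

/-- mixed triples -/
noncomputable def m3 (A B C : Finset Pl) : ℕ := n3 A B C (cU A) (cU B) (cP C)

/-- the maximum for `n = 3` -/
def VV (v : Fin 3 → ℕ) : ℕ :=
  if v 0 = 1 then (if v 1 = 1 then v 2 + 1 else if v 2 = 1 then v 1 + 1 else v 1 * v 2 + 2)
  else if v 1 = 1 then (if v 2 = 1 then v 0 + 1 else v 0 * v 2 + 2)
  else if v 2 = 1 then v 0 * v 1 + 2
  else v 0 * v 1 + v 0 * v 2 + v 1 * v 2 + 2

/-- the tropical hypersurface of a set of exponents -/
def trop (M : Finset Sp) : Set Sp :=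
  {z | ∃ a ∈ M, ∃ b ∈ M, a ≠ b ∧ (∀ c ∈ M, a ⬝ᵥ z ≤ c ⬝ᵥ z) ∧ ∀ c ∈ M, b ⬝ᵥ z ≤ c ⬝ᵥ z}

/-- number of vertices of the convex hull -/
noncomputable def nv (M : Finset Sp) : ℕ := (Set.extremePoints ℝ (convexHull ℝ (M : Set Sp))).ncard

/-! ### Basic lemmas -/

section

variable {A : Finset Pl} {p q w : Pl}

theorem dt_add (p u v : Pl) : dt p (u + v) = dt p u + dt p v := by
  simp only [dt, Prod.fst_add, Prod.snd_add]
  ring

theorem dt_smul (p u : Pl) (t : ℝ) : dt p (t • u) = t * dt p u := by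
  simp only [dt, Prod.smul_fst, Prod.smul_snd, smul_eq_mul]
  ring

theorem dt_sub (p u v : Pl) : dt p (u - v) = dt p u - dt p v := by
  simp only [dt, Prod.fst_sub, Prod.snd_sub]
  ring

theorem dt_zero (p : Pl) : dt p 0 = 0 := by simp [dt]

theorem sub_dt (p q u : Pl) : dt (p - q) u = dt p u - dt q u := by
  simp only [dt, Prod.fst_sub, Prod.snd_sub]
  ring

theorem dt_cont (p : Pl) : Continuous (dt p) := by
  unfold dt
  fun_prop

theorem psi_le (hp : p ∈ A) (w : Pl) : psi A w ≤ dt p w :=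
  ciInf_le (Set.finite_range fun p : A => dt p w).bddBelow ⟨p, hp⟩

theorem exists_psi (hA : A.Nonempty) (w : Pl) : ∃ p ∈ A, psi A w = dt p w := by
  have : Nonempty A := hA.to_subtype
  obtain ⟨p, hp⟩ := exists_eq_ciInf_of_finite (f := fun p : A => dt p w)
  exact ⟨p, p.2, hp.symm⟩

theorem lt_psi_iff (hA : A.Nonempty) {c : ℝ} : c < psi A w ↔ ∀ q ∈ A, c < dt q w := by
  constructor
  · exact fun h q hq => h.trans_le (psi_le hq w)
  · intro h
    obtain ⟨p, hp, hp'⟩ := exists_psi hA w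
    rw [hp']
    exact h p hp

theorem le_psi_iff (hA : A.Nonempty) {c : ℝ} : c ≤ psi A w ↔ ∀ q ∈ A, c ≤ dt q w := by
  constructor
  · exact fun h q hq => h.trans (psi_le hq w)
  · intro h
    obtain ⟨p, hp, hp'⟩ := exists_psi hA w
    rw [hp']
    exact h p hp

theorem psi_smul (hA : A.Nonempty) (w : Pl) {t : ℝ} (ht : 0 ≤ t) : psi A (t • w) = t * psi A w := by
  apply le_antisymm
  · obtain ⟨p, hp, hp'⟩ := exists_psi hA w
    rw [hp', ← dt_smul]
    exact psi_le hp _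
  · rw [le_psi_iff hA]
    intro q hq
    rw [dt_smul]
    exact mul_le_mul_of_nonneg_left (psi_le hq w) ht

theorem psi_zero (hA : A.Nonempty) : psi A 0 = 0 := by
  have := psi_smul hA 0 le_rfl
  simpa using this

theorem psi_cont (hA : A.Nonempty) : Continuous (psi A) := by
  have h : psi A = fun w => A.inf' hA (fun p => dt p w) := by
    funext w
    apply le_antisymm
    · rw [Finset.le_inf'_iff]
      exact fun q hq => psi_le hq w
    · obtain ⟨p, hp, hp'⟩ := exists_psi hA w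
      rw [hp']
      exact Finset.inf'_le _ hp
  rw [h]
  exact Continuous.finset_inf'_apply hA fun i _ => dt_cont i

theorem psi_eq (hp : p ∈ A) (h : w ∈ NC A p) : psi A w = dt p w := by
  apply le_antisymm (psi_le hp w)
  rw [le_psi_iff ⟨p, hp⟩]
  intro q hq
  by_cases hqp : q = p
  · rw [hqp]
  · exact (h q hq hqp).le

theorem NC_eq (A : Finset Pl) (p : Pl) :
    NC A p = ⋂ q ∈ A, {w | q ≠ p → dt p w < dt q w} := by
  ext w
  simp [NC]

theorem NC_open (A : Finset Pl) (p : Pl) : IsOpen (NC A p) := by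
  rw [NC_eq]
  refine isOpen_biInter_finset fun q _ => ?_
  by_cases hq : q = p
  · simp [hq]
  · have : {w | q ≠ p → dt p w < dt q w} = {w | dt p w < dt q w} := by
      ext w
      simp [hq]
    rw [this]
    exact isOpen_lt (dt_cont p) (dt_cont q)

theorem NC_convex (A : Finset Pl) (p : Pl) : Convex ℝ (NC A p) := by
  intro x hx y hy a b ha hb hab q hq hqp
  rw [dt_add, dt_add, dt_smul, dt_smul, dt_smul, dt_smul]
  have h1 := hx q hq hqp
  have h2 := hy q hq hqp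
  rcases ha.lt_or_eq with h | h
  · have h3 := mul_lt_mul_of_pos_left h1 h
    have h4 := mul_le_mul_of_nonneg_left h2.le hb
    linarith
  · have hb1 : b = 1 := by linarith
    subst h
    rw [hb1]
    linarith

theorem NC_smul {t : ℝ} (ht : 0 < t) (h : w ∈ NC A p) : t • w ∈ NC A p := by
  intro q hq hqp
  rw [dt_smul, dt_smul]
  exact mul_lt_mul_of_pos_left (h q hq hqp) ht

theorem NC_unique (hp : p ∈ A) (hq : q ∈ A) (h1 : w ∈ NC A p) (h2 : w ∈ NC A q) : p = q := by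
  by_contra h
  exact lt_asymm (h1 q hq (Ne.symm h)) (h2 p hp h)

theorem mem_CL_or (A : Finset Pl) (w : Pl) : w ∈ CL A ∨ ∃ p ∈ A, w ∈ NC A p := by
  by_cases h : ∃ p ∈ A, w ∈ NC A p
  · exact Or.inr h
  · left
    intro p hp hw
    exact h ⟨p, hp, hw⟩

theorem CL_iff (hA : A.Nonempty) : w ∈ CL A ↔
    ∃ p ∈ A, ∃ q ∈ A, p ≠ q ∧ dt p w = psi A w ∧ dt q w = psi A w := by
  constructor
  · intro h
    obtain ⟨p, hp, hp'⟩ := exists_psi hA w
    have h1 := h p hp
    simp only [NC, Set.mem_ofPred_eq, not_forall, not_lt] at h1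
    obtain ⟨q, hq, hqp, h2⟩ := h1
    exact ⟨p, hp, q, hq, Ne.symm hqp, hp'.symm, le_antisymm (h2.trans hp'.ge) (psi_le hq w)⟩
  · rintro ⟨p, hp, q, hq, hpq, h1, h2⟩ r hr hw
    have h3 := psi_eq hr hw
    by_cases hpr : p = r
    · have := hw q hq (by rintro rfl; exact hpq hpr)
      linarith
    · have := hw p hp hpr
      linarith

theorem CL_smul (hA : A.Nonempty) {t : ℝ} (ht : 0 ≤ t) (h : w ∈ CL A) : t • w ∈ CL A := by
  rw [CL_iff hA] at h ⊢
  obtain ⟨p, hp, q, hq, hpq, h1, h2⟩ := h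
  exact ⟨p, hp, q, hq, hpq, by rw [dt_smul, psi_smul hA w ht, h1], by
    rw [dt_smul, psi_smul hA w ht, h2]⟩

theorem cell_false (hA : A.Nonempty) (p : Pl) : cell A (p, false) = cU A p := by
  ext x
  simp [cell, cU, lt_psi_iff hA]

theorem cell_true (hA : A.Nonempty) (p : Pl) : cell A (p, true) = cP A p := by
  ext x
  simp [cell, cP, lt_psi_iff hA]

theorem swap_cU (A : Finset Pl) (p : Pl) (x : Pl × Pl) : x.swap ∈ cU A p ↔ x ∈ cP A p := Iff.rfl

theorem swap_cP (A : Finset Pl) (p : Pl) (x : Pl × Pl) : x.swap ∈ cP A p ↔ x ∈ cU A p := Iff.rfl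

theorem cU_open (hA : A.Nonempty) (p : Pl) : IsOpen (cU A p) :=
  ((NC_open A p).preimage continuous_snd).inter
    (isOpen_lt ((dt_cont p).comp continuous_snd) ((psi_cont hA).comp continuous_fst))

theorem psi_concave (hA : A.Nonempty) (x y : Pl) {a b : ℝ} (ha : 0 ≤ a) (hb : 0 ≤ b) :
    a * psi A x + b * psi A y ≤ psi A (a • x + b • y) := by
  rw [le_psi_iff hA]
  intro q hq
  rw [dt_add, dt_smul, dt_smul]
  exact add_le_add (mul_le_mul_of_nonneg_left (psi_le hq x) ha)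
    (mul_le_mul_of_nonneg_left (psi_le hq y) hb)

theorem cU_convex (hA : A.Nonempty) (p : Pl) : Convex ℝ (cU A p) := by
  rintro x ⟨hx, hx'⟩ y ⟨hy, hy'⟩ a b ha hb hab
  refine ⟨NC_convex A p hx hy ha hb hab, ?_⟩
  have h := psi_concave hA x.1 y.1 ha hb
  have h1 : (a • x + b • y).2 = a • x.2 + b • y.2 := rfl
  have h2 : (a • x + b • y).1 = a • x.1 + b • y.1 := rfl
  rw [h1, h2, dt_add, dt_smul, dt_smul]
  rcases ha.lt_or_eq with h3 | h3
  · have h4 := mul_lt_mul_of_pos_left hx' h3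
    have h5 := mul_le_mul_of_nonneg_left hy'.le hb
    linarith
  · have hb1 : b = 1 := by linarith
    subst h3
    rw [hb1] at h ⊢
    linarith

theorem cP_open (hA : A.Nonempty) (p : Pl) : IsOpen (cP A p) :=
  (cU_open hA p).preimage continuous_swap

theorem cP_convex (hA : A.Nonempty) (p : Pl) : Convex ℝ (cP A p) := by
  intro x hx y hy a b ha hb hab
  exact cU_convex hA p (x := x.swap) hx (y := y.swap) hy ha hb hab

theorem EE_iff (hA : A.Nonempty) {x : Pl × Pl} : x ∈ EE A ↔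
    psi A x.1 = psi A x.2 ∨ (psi A x.2 < psi A x.1 ∧ x.2 ∈ CL A) ∨
      (psi A x.1 < psi A x.2 ∧ x.1 ∈ CL A) := by
  have h0 : x ∈ EE A ↔ (∀ p ∈ A, x ∉ cU A p) ∧ ∀ p ∈ A, x ∉ cP A p := by
    constructor
    · intro h
      constructor
      · intro p hp
        rw [← cell_false hA]
        exact h (p, false) (by simp [lab, hp])
      · intro p hp
        rw [← cell_true hA]
        exact h (p, true) (by simp [lab, hp])
    · rintro ⟨h1, h2⟩ ⟨p, b⟩ hk
      have hp : p ∈ A := by simpa [lab] using hk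
      cases b
      · rw [cell_false hA]
        exact h1 p hp
      · rw [cell_true hA]
        exact h2 p hp
  rw [h0]
  constructor
  · rintro ⟨h1, h2⟩
    rcases lt_trichotomy (psi A x.1) (psi A x.2) with h | h | h
    · refine Or.inr (Or.inr ⟨h, ?_⟩)
      intro p hp hw
      exact h2 p hp ⟨hw, by rw [← psi_eq hp hw]; exact h⟩
    · exact Or.inl h
    · refine Or.inr (Or.inl ⟨h, ?_⟩)
      intro p hp hw
      exact h1 p hp ⟨hw, by rw [← psi_eq hp hw]; exact h⟩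
  · intro h
    constructor
    · rintro p hp ⟨h1, h2⟩
      rw [← psi_eq hp h1] at h2
      rcases h with h | ⟨_, h⟩ | ⟨h, _⟩
      · exact h2.ne' h
      · exact h p hp h1
      · exact lt_asymm h h2
    · rintro p hp ⟨h1, h2⟩
      rw [← psi_eq hp h1] at h2
      rcases h with h | ⟨h, _⟩ | ⟨_, h⟩
      · exact h2.ne h
      · exact lt_asymm h h2
      · exact h p hp h1

end

end Pool.Agent.Lib.MP_4e7804_co.N3
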