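import Pool.Agent.Lib.MP_4e7804_co.N3.Spec

/-!
# n = 3: interface with the algebra and with lattice polygons (definitions)
-/

set_option autoImplicit false

namespace Pool.Agent.Lib.MP_4e7804_co.N3

/-- a lattice point as a point of the plane `ℝ × ℝ` -/
def toPl (p : Fin 2 → ℤ) : Pl := ((p 0 : ℝ), (p 1 : ℝ))

theorem toPl_injective : Function.Injective toPl := by
  intro p q h
  have h1 : (p 0 : ℝ) = q 0 := congrArg Prod.fst h
  have h2 : (p 1 : ℝ) = q 1 := congrArg Prod.snd h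
  funext k
  fin_cases k
  · exact_mod_cast h1
  · exact_mod_cast h2

open Classical in
/-- the real points of a finite set of lattice points -/
noncomputable def rv (W : Finset (Fin 2 → ℤ)) : Finset Pl := W.image toPl

theorem mem_rv {W : Finset (Fin 2 → ℤ)} {x : Pl} : x ∈ rv W ↔ ∃ p ∈ W, toPl p = x := by
  classical
  simp [rv]

theorem toPl_mem_rv {W : Finset (Fin 2 → ℤ)} {p : Fin 2 → ℤ} (h : p ∈ W) : toPl p ∈ rv W :=
  mem_rv.2 ⟨p, h, rfl⟩

theorem rv_card (W : Finset (Fin 2 → ℤ)) : (rv W).card = W.card := by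
  classical
  exact Finset.card_image_of_injective _ toPl_injective

/-- strictly convex position -/
def CP (W : Finset (Fin 2 → ℤ)) : Prop := W.Nonempty ∧ ∀ p ∈ W, (NC (rv W) (toPl p)).Nonempty

open Classical in
/-- the exponents of `F` -/
noncomputable def Mx (F : MvPolynomial (Fin 3) ℂ) : Finset Sp :=
  F.support.image fun a i => (a i : ℝ)

/-- the refined tropical surface: for a witness `w ≠ 0` at most one `psi` is smaller than `z i` -/
def GamR (A : Fin 3 → Finset Pl) : Set Sp :=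
  {z | ∃ w, Wit A z w ∧ ¬ (w = 0 ∧ z ∈ oct) ∧
    (w ≠ 0 → ∀ i j, psi (A i) w < z i → psi (A j) w < z j → i = j)}

/-- the value of the Laurent polynomial `∑ c_p t^p`, `p ∈ S`, at a point of the torus over `L` -/
noncomputable def evL {L : Type} [Field L] [Algebra ℂ L] (S : Finset (Fin 2 → ℤ))
    (c : (Fin 2 → ℤ) → ℂ) (t : Fin 2 → L) : L :=
  ∑ p ∈ S, algebraMap ℂ L (c p) * (t 0 ^ p 0 * t 1 ^ p 1)

/-- the value over `ℂ` -/
noncomputable def evC (S : Finset (Fin 2 → ℤ)) (c : (Fin 2 → ℤ) → ℂ) (t : Fin 2 → ℂ) : ℂ :=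
  ∑ p ∈ S, c p * (t 0 ^ p 0 * t 1 ^ p 1)

/-- all coefficients are algebraically independent -/
def Ind (S : Fin 3 → Finset (Fin 2 → ℤ)) (c : Fin 3 → (Fin 2 → ℤ) → ℂ) : Prop :=
  AlgebraicIndependent ℚ (fun x : (Σ i : Fin 3, {p // p ∈ S i}) => c x.1 x.2.1)

/-- the support sets `S i` with vertex sets `W i` -/
structure Supp (S W : Fin 3 → Finset (Fin 2 → ℤ)) : Prop where
  cp : ∀ i, CP (W i)
  sub : ∀ i, W i ⊆ S i
  hull : ∀ i, ∀ p ∈ S i, toPl p ∈ convexHull ℝ (rv (W i) : Set Pl)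

/-- `F` is the implicit equation -/
def Imp (S : Fin 3 → Finset (Fin 2 → ℤ)) (c : Fin 3 → (Fin 2 → ℤ) → ℂ)
    (F : MvPolynomial (Fin 3) ℂ) : Prop :=
  Irreducible F ∧ ∀ G : MvPolynomial (Fin 3) ℂ, F ∣ G ↔
    ∀ t : Fin 2 → ℂ, (∀ k, t k ≠ 0) → MvPolynomial.eval (fun i => evC (S i) (c i) t) G = 0

/-- the situation -/
structure Sit (S W : Fin 3 → Finset (Fin 2 → ℤ)) (c : Fin 3 → (Fin 2 → ℤ) → ℂ)
    (F : MvPolynomial (Fin 3) ℂ) : Prop where
  supp : Supp S W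
  ind : Ind S c
  imp : Imp S c F

/-- a field extension of `ℂ` with a nonarchimedean norm which is trivial on `ℂ` -/
structure VF (L : Type) [Field L] [Algebra ℂ L] where
  /-- the norm -/
  nm : L → ℝ
  nonneg : ∀ x, 0 ≤ nm x
  eq_zero : ∀ x, nm x = 0 ↔ x = 0
  mul : ∀ x y, nm (x * y) = nm x * nm y
  add : ∀ x y, nm (x + y) ≤ max (nm x) (nm y)
  triv : ∀ c : ℂ, c ≠ 0 → nm (algebraMap ℂ L c) = 1

/-- `x` is a generic point of valuation `z`: the norm of every nonzero polynomial at `x` is given by its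
smallest exponents -/
def GenPt {L : Type} [Field L] [Algebra ℂ L] (v : VF L) (z : Fin 2 → ℤ) (x : Fin 2 → L) : Prop :=
  ∀ G : MvPolynomial (Fin 2) ℂ, G ≠ 0 → ∃ m ∈ G.support,
    v.nm (MvPolynomial.aeval x G) = Real.exp (-((z 0 : ℝ) * m 0 + (z 1 : ℝ) * m 1)) ∧
    ∀ m' ∈ G.support, (z 0 : ℝ) * m 0 + (z 1 : ℝ) * m 1 ≤ (z 0 : ℝ) * m' 0 + (z 1 : ℝ) * m' 1

/-- perturbation of dilated vertex sets -/
def pert (W : Finset (Fin 2 → ℤ)) (δ : (Fin 2 → ℤ) → Fin 2 → ℤ) (n : ℕ) : Finset (Fin 2 → ℤ) :=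
  W.image fun p => (n : ℤ) • p + δ p

end Pool.Agent.Lib.MP_4e7804_co.N3
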