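import Pool.Agent.Lib.MP_4e7804_co.N3.Spec

/-!
# n = 3, combinatorial half: the covering lemma
-/

set_option autoImplicit false

namespace Pool.Agent.Lib.MP_4e7804_co.N3.CovN

/-- orthogonal to two parallel nonzero vectors implies parallel -/
theorem par {u v L M : Pl} (hL : L ≠ 0) (hM : M ≠ 0) (h1 : dt u L = 0) (h2 : dt v M = 0)
    (h3 : cr L M = 0) : cr u v = 0 := by
  have hL' : 0 < L.1 ^ 2 + L.2 ^ 2 := by
    rcases (not_and_or.mp (fun h : L.1 = 0 ∧ L.2 = 0 => hL (Prod.ext h.1 h.2))) with h | h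
    · have := pow_pos (abs_pos.mpr h) 2
      rw [sq_abs] at this
      positivity
    · have := pow_pos (abs_pos.mpr h) 2
      rw [sq_abs] at this
      positivity
  have hM' : 0 < M.1 ^ 2 + M.2 ^ 2 := by
    rcases (not_and_or.mp (fun h : M.1 = 0 ∧ M.2 = 0 => hM (Prod.ext h.1 h.2))) with h | h
    · have := pow_pos (abs_pos.mpr h) 2
      rw [sq_abs] at this
      positivity
    · have := pow_pos (abs_pos.mpr h) 2
      rw [sq_abs] at this
      positivity
  simp only [dt, cr] at *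
  have key : (L.1 ^ 2 + L.2 ^ 2) * ((M.1 ^ 2 + M.2 ^ 2) * (u.1 * v.2 - u.2 * v.1)) = 0 := by
    linear_combination ((L.1 * M.1 + L.2 * M.2) * (M.1 * v.2 - M.2 * v.1) +
      (L.1 * M.2 - L.2 * M.1) * (v.1 * M.1 + v.2 * M.2)) * h1 +
      ((L.1 * u.2 - L.2 * u.1) * (M.1 * v.2 - M.2 * v.1)) * h3 -
      ((L.1 * u.2 - L.2 * u.1) * (L.1 * M.1 + L.2 * M.2)) * h2
  rcases mul_eq_zero.mp key with h | h
  · exact absurd h hL'.ne'
  · rcases mul_eq_zero.mp h with h | h
    · exact absurd h hM'.ne'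
    · exact h

/-- a point of the corner locus is orthogonal to a difference of two vertices -/
theorem orth {A : Finset Pl} (hA : A.Nonempty) {w : Pl} (hw : w ∈ CL A) :
    ∃ p ∈ A, ∃ q ∈ A, p ≠ q ∧ dt (p - q) w = 0 := by
  obtain ⟨p, hp, q, hq, hpq, h1, h2⟩ := (CL_iff hA).mp hw
  exact ⟨p, hp, q, hq, hpq, by rw [sub_dt, h1, h2, sub_self]⟩

/-- one left end point is in the other sector -/
theorem sect {lp rp lq w : Pl} (h1 : 0 < cr lp w) (h2 : 0 < cr w rp) (h3 : 0 ≤ cr lp rp)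
    (h4 : 0 < cr lq w) (h5 : 0 < cr lp lq) : 0 < cr lq rp := by
  have h : cr lq rp * cr lp w = cr lq w * cr lp rp + cr lp lq * cr w rp := by
    simp only [cr]
    ring
  have h6 : 0 < cr lq rp * cr lp w := by
    rw [h]
    exact add_pos_of_nonneg_of_pos (mul_nonneg h4.le h3) (mul_pos h5 h2)
  exact (mul_pos_iff_of_pos_right h1).mp h6

end Pool.Agent.Lib.MP_4e7804_co.N3.CovN

namespace Pool.Agent.Lib.MP_4e7804_co.N3

open CovN in
/-- **Cov**: the covering lemma. -/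
theorem tCov (hSec : StmtSector) : StmtCov := by
  classical
  intro A hG i j hij hi hj S hS T hT
  have hI : ∀ p, p ∈ A i → ∃ l r : Pl, l ≠ 0 ∧ r ≠ 0 ∧ 0 ≤ cr l r ∧
      (∀ w, w ∈ NC (A i) p ↔ 0 < cr l w ∧ 0 < cr w r) ∧ l ∈ CL (A i) :=
    fun p hp => hSec (A i) p hp hi (hG.vert i p hp)
  have hJ : ∀ p, p ∈ A j → ∃ l r : Pl, l ≠ 0 ∧ r ≠ 0 ∧ 0 ≤ cr l r ∧
      (∀ w, w ∈ NC (A j) p ↔ 0 < cr l w ∧ 0 < cr w r) ∧ l ∈ CL (A j) :=
    fun p hp => hSec (A j) p hp hj (hG.vert j p hp)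
  choose! l1 r1 h1 using hI
  choose! l2 r2 h2 using hJ
  have claim : ∀ p ∈ A i, ∀ q ∈ A j, (NC (A i) p ∩ NC (A j) q).Nonempty →
      l1 p ∈ NC (A j) q ∨ l2 q ∈ NC (A i) p := by
    rintro p hp q hq ⟨w, hwp, hwq⟩
    obtain ⟨a1, a2, a3, a4, a5⟩ := h1 p hp
    obtain ⟨b1, b2, b3, b4, b5⟩ := h2 q hq
    obtain ⟨c, hc, c', hc', hcc, hc0⟩ := orth (hG.ne i) a5
    obtain ⟨d, hd, d', hd', hdd, hd0⟩ := orth (hG.ne j) b5
    have hne : cr (l1 p) (l2 q) ≠ 0 := fun h =>
      hG.g2 i j hij c hc c' hc' hcc d hd d' hd' hdd (par a1 b1 hc0 hd0 h)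
    have hw1 := (a4 w).mp hwp
    have hw2 := (b4 w).mp hwq
    rcases lt_or_gt_of_ne hne with h | h
    · left
      have h' : 0 < cr (l2 q) (l1 p) := by
        have : cr (l2 q) (l1 p) = - cr (l1 p) (l2 q) := by
          simp only [cr]
          ring
        rw [this]
        linarith
      exact (b4 _).mpr ⟨h', sect hw2.1 hw2.2 b3 hw1.1 h'⟩
    · right
      exact (a4 _).mpr ⟨h, sect hw1.1 hw1.2 a3 hw2.1 h⟩
  unfold n2
  rw [← Finset.card_disjSum]
  refine Finset.card_le_card_of_injOn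
    (fun x => if l1 x.1 ∈ NC (A j) x.2 then Sum.inl x.1 else Sum.inr x.2) ?_ ?_
  · rintro ⟨p, q⟩ hx
    simp only [Finset.coe_filter, Finset.mem_product, Set.mem_ofPred_eq] at hx
    simp only
    split_ifs with h
    · simpa using hx.1.1
    · simpa using hx.1.2
  · rintro ⟨p, q⟩ hx ⟨p', q'⟩ hx' heq
    simp only [Finset.coe_filter, Finset.mem_product, Set.mem_ofPred_eq] at hx hx'
    simp only at heq
    by_cases ha : l1 p ∈ NC (A j) q
    · by_cases hb : l1 p' ∈ NC (A j) q'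
      · rw [if_pos ha, if_pos hb] at heq
        have hp : p = p' := Sum.inl_injective heq
        subst hp
        rw [NC_unique (hT hx.1.2) (hT hx'.1.2) ha hb]
      · rw [if_pos ha, if_neg hb] at heq
        exact absurd heq (by simp)
    · by_cases hb : l1 p' ∈ NC (A j) q'
      · rw [if_neg ha, if_pos hb] at heq
        exact absurd heq (by simp)
      · rw [if_neg ha, if_neg hb] at heq
        have hq : q = q' := Sum.inr_injective heq
        subst hq
        have h3 := (claim p (hS hx.1.1) q (hT hx.1.2) hx.2).resolve_left ha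
        have h4 := (claim p' (hS hx'.1.1) q (hT hx'.1.2) hx'.2).resolve_left hb
        rw [NC_unique (hS hx.1.1) (hS hx'.1.1) h3 h4]

end Pool.Agent.Lib.MP_4e7804_co.N3
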