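import Pool.Agent.Lib.MP_4e7804_co.N3.Spec

/-!
# Decomposition of the triple intersection
-/

set_option autoImplicit false

namespace Pool.Agent.Lib.MP_4e7804_co.N3.EDecN

open Pool.Agent.Lib.MP_4e7804_co.N3

theorem al_eq (v : Fin 3 → ℕ) : al v = if ∀ i, v i ≠ 1 then 1 else 0 := by
  unfold al
  by_cases h : ∀ i, v i ≠ 1
  · rw [if_pos h, if_neg]
    rintro (h1 | h1 | h1)
    · exact h 0 h1
    · exact h 1 h1
    · exact h 2 h1
  · rw [if_neg h, if_pos]
    by_contra h1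
    apply h
    intro i hi
    apply h1
    fin_cases i
    · exact Or.inl hi
    · exact Or.inr (Or.inl hi)
    · exact Or.inr (Or.inr hi)

theorem zero_notMem {A : Fin 3 → Finset Pl} (hA : Gen A) : (0 : Pl) ∉ Apos A := by
  intro h
  have := h 0
  rw [psi_zero (hA.ne 0)] at this
  exact lt_irrefl _ this

theorem zero_CL (hCL : StmtCLdef) {A : Fin 3 → Finset Pl} (hA : Gen A) (i : Fin 3) :
    (0 : Pl) ∈ CL (A i) ↔ (A i).card ≠ 1 := by
  constructor
  · intro h h1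
    rw [(hCL A hA).1 i h1] at h
    exact h
  · exact (hCL A hA).2.1 i

theorem left_iff (hCL : StmtCLdef) {A : Fin 3 → Finset Pl} (hA : Gen A) {x : Pl × Pl}
    (h0 : x.1 = 0) (h1 : x.2 ∈ Apos A) :
    (∀ i, x ∈ EE (A i)) ↔ ∀ i, (A i).card ≠ 1 := by
  refine forall_congr' fun i => ?_
  rw [EE_iff (hA.ne i), h0, psi_zero (hA.ne i), ← zero_CL hCL hA i]
  have h2 : 0 < psi (A i) x.2 := h1 i
  constructor
  · rintro (h | ⟨h, _⟩ | ⟨_, h⟩)
    · exact absurd h h2.ne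
    · exact absurd h h2.asymm
    · exact h
  · exact fun h => Or.inr (Or.inr ⟨h2, h⟩)

theorem right_iff (hCL : StmtCLdef) {A : Fin 3 → Finset Pl} (hA : Gen A) {x : Pl × Pl}
    (h0 : x.2 = 0) (h1 : x.1 ∈ Apos A) :
    (∀ i, x ∈ EE (A i)) ↔ ∀ i, (A i).card ≠ 1 := by
  refine forall_congr' fun i => ?_
  rw [EE_iff (hA.ne i), h0, psi_zero (hA.ne i), ← zero_CL hCL hA i]
  have h2 : 0 < psi (A i) x.1 := h1 i
  constructor
  · rintro (h | ⟨_, h⟩ | ⟨h, _⟩)
    · exact absurd h h2.ne'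
    · exact h
    · exact absurd h h2.asymm
  · exact fun h => Or.inr (Or.inl ⟨h2, h⟩)

theorem diag {A : Fin 3 → Finset Pl} (hA : Gen A) {x : Pl × Pl} (h : x.1 = x.2) (i : Fin 3) :
    x ∈ EE (A i) := by
  rw [EE_iff (hA.ne i), h]
  exact Or.inl rfl

end EDecN

open EDecN in
theorem tEDec (hCL : StmtCLdef) : StmtEDec := by
  classical
  intro A hA
  funext x
  simp only [Pi.add_apply]
  by_cases hd : x.1 = x.2
  · have h1 : x ∈ {x : Pl × Pl | ∀ i, x ∈ EE (A i)} := fun i => diag hA hd i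
    have h2 : x ∉ QQ A := fun h => h.2.1 hd
    have h3 : x ∉ {x : Pl × Pl | x.1 = 0 ∧ x.2 ∈ Apos A} := by
      rintro ⟨h4, h5⟩
      rw [← hd, h4] at h5
      exact zero_notMem hA h5
    have h4 : x ∉ {x : Pl × Pl | x.2 = 0 ∧ x.1 ∈ Apos A} := by
      rintro ⟨h4, h5⟩
      rw [hd, h4] at h5
      exact zero_notMem hA h5
    rw [ind_mem h1, ind_notMem h2, ind_notMem h3, ind_notMem h4,
      ind_mem (show x ∈ {x : Pl × Pl | x.1 = x.2} from hd)]
    ring
  · rw [ind_notMem (show x ∉ {x : Pl × Pl | x.1 = x.2} from hd)]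
    by_cases hl : x.1 = 0 ∧ x.2 ∈ Apos A
    · have h2 : x ∉ QQ A := fun h => h.2.2.1 hl
      have h4 : x ∉ {x : Pl × Pl | x.2 = 0 ∧ x.1 ∈ Apos A} := by
        rintro ⟨_, h5⟩
        rw [hl.1] at h5
        exact zero_notMem hA h5
      rw [ind_notMem h2, ind_notMem h4,
        ind_mem (show x ∈ {x : Pl × Pl | x.1 = 0 ∧ x.2 ∈ Apos A} from hl), al_eq]
      by_cases h : ∀ i, (A i).card ≠ 1
      · rw [if_pos h, ind_mem (show x ∈ {x : Pl × Pl | ∀ i, x ∈ EE (A i)} from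
          (left_iff hCL hA hl.1 hl.2).2 h)]
        norm_num
      · rw [if_neg h, ind_notMem (show x ∉ {x : Pl × Pl | ∀ i, x ∈ EE (A i)} from
          fun h' => h ((left_iff hCL hA hl.1 hl.2).1 h'))]
        norm_num
    · rw [ind_notMem (show x ∉ {x : Pl × Pl | x.1 = 0 ∧ x.2 ∈ Apos A} from hl)]
      by_cases hr : x.2 = 0 ∧ x.1 ∈ Apos A
      · have h2 : x ∉ QQ A := fun h => h.2.2.2 hr
        rw [ind_notMem h2,
          ind_mem (show x ∈ {x : Pl × Pl | x.2 = 0 ∧ x.1 ∈ Apos A} from hr), al_eq]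
        by_cases h : ∀ i, (A i).card ≠ 1
        · rw [if_pos h, ind_mem (show x ∈ {x : Pl × Pl | ∀ i, x ∈ EE (A i)} from
            (right_iff hCL hA hr.1 hr.2).2 h)]
          norm_num
        · rw [if_neg h, ind_notMem (show x ∉ {x : Pl × Pl | ∀ i, x ∈ EE (A i)} from
            fun h' => h ((right_iff hCL hA hr.1 hr.2).1 h'))]
          norm_num
      · rw [ind_notMem (show x ∉ {x : Pl × Pl | x.2 = 0 ∧ x.1 ∈ Apos A} from hr)]
        by_cases h : ∀ i, x ∈ EE (A i)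
        · rw [ind_mem (show x ∈ {x : Pl × Pl | ∀ i, x ∈ EE (A i)} from h),
            ind_mem (show x ∈ QQ A from ⟨h, hd, hl, hr⟩)]
          ring
        · rw [ind_notMem (show x ∉ {x : Pl × Pl | ∀ i, x ∈ EE (A i)} from h),
            ind_notMem (show x ∉ QQ A from fun h' => h h'.1)]
          ring

end Pool.Agent.Lib.MP_4e7804_co.N3
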