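import Mathlib

/-!
# Euler integration

`Eul α` is a partial linear functional on functions `α → ℤ` (written as a relation `rel f e`).
`EulD α d` : moreover nonempty open convex sets have value `(-1)^d`, points have value `1`, open rays
`-1`. The product of two such functionals is given by iterated integration.
-/

set_option autoImplicit false

namespace Pool.Agent.Lib.MP_4e7804_co.N3

/-- the indicator function with values in `ℤ` -/
noncomputable def ind {α : Type*} (s : Set α) : α → ℤ := s.indicator fun _ => 1

theorem ind_mem {α : Type*} {s : Set α} {x : α} (h : x ∈ s) : ind s x = 1 :=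
  Set.indicator_of_mem h _

theorem ind_notMem {α : Type*} {s : Set α} {x : α} (h : x ∉ s) : ind s x = 0 :=
  Set.indicator_of_notMem h _

theorem ind_congr {α β : Type*} {s : Set α} {t : Set β} {x : α} {y : β} (h : x ∈ s ↔ y ∈ t) :
    ind s x = ind t y := by
  by_cases hx : x ∈ s
  · rw [ind_mem hx, ind_mem (h.1 hx)]
  · rw [ind_notMem hx, ind_notMem fun hy => hx (h.2 hy)]

/-- a partial linear functional -/
structure Eul (α : Type) where
  /-- `rel f e`: the function `f` has the integral `e` -/
  rel : (α → ℤ) → ℤ → Prop
  add : ∀ f g a b, rel f a → rel g b → rel (f + g) (a + b)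
  neg : ∀ f a, rel f a → rel (-f) (-a)
  zero : rel 0 0
  uniq : ∀ f a b, rel f a → rel f b → a = b

namespace Eul

variable {α β : Type}

/-- iterated integration, first over the second variable -/
def prod (E : Eul α) (E' : Eul β) : Eul (α × β) where
  rel f e := ∃ g : α → ℤ, (∀ a, E'.rel (fun b => f (a, b)) (g a)) ∧ E.rel g e
  add := by
    rintro f g a b ⟨u, hu, hu'⟩ ⟨v, hv, hv'⟩
    exact ⟨u + v, fun x => E'.add _ _ _ _ (hu x) (hv x), E.add _ _ _ _ hu' hv'⟩
  neg := by
    rintro f a ⟨u, hu, hu'⟩
    exact ⟨-u, fun x => E'.neg _ _ (hu x), E.neg _ _ hu'⟩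
  zero := ⟨0, fun _ => E'.zero, E.zero⟩
  uniq := by
    rintro f a b ⟨u, hu, hu'⟩ ⟨v, hv, hv'⟩
    have : u = v := funext fun x => E'.uniq _ _ _ (hu x) (hv x)
    subst this
    exact E.uniq _ _ _ hu' hv'

/-- transport along a bijection -/
def map (E : Eul α) (e : α ≃ β) : Eul β where
  rel f a := E.rel (fun x => f (e x)) a
  add := fun _ _ _ _ hf hg => E.add _ _ _ _ hf hg
  neg := fun _ _ hf => E.neg _ _ hf
  zero := E.zero
  uniq := fun _ _ _ hf hg => E.uniq _ _ _ hf hg

theorem sub (E : Eul α) {f g : α → ℤ} {a b : ℤ} (hf : E.rel f a) (hg : E.rel g b) :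
    E.rel (f - g) (a - b) := by
  rw [sub_eq_add_neg, sub_eq_add_neg]
  exact E.add _ _ _ _ hf (E.neg _ _ hg)

theorem sum (E : Eul α) {ι : Type*} (s : Finset ι) (f : ι → α → ℤ) (a : ι → ℤ)
    (h : ∀ i ∈ s, E.rel (f i) (a i)) : E.rel (∑ i ∈ s, f i) (∑ i ∈ s, a i) := by
  classical
  induction s using Finset.induction_on with
  | empty => simpa using E.zero
  | insert i s hi ih =>
    rw [Finset.sum_insert hi, Finset.sum_insert hi]
    exact E.add _ _ _ _ (h i (Finset.mem_insert_self i s))
      (ih fun j hj => h j (Finset.mem_insert_of_mem hj))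

theorem nsmul (E : Eul α) (n : ℕ) {f : α → ℤ} {a : ℤ} (h : E.rel f a) :
    E.rel (fun x => (n : ℤ) * f x) (n * a) := by
  have := E.sum (Finset.range n) (fun _ => f) (fun _ => a) fun _ _ => h
  simp only [Finset.sum_const, Finset.card_range, nsmul_eq_mul] at this
  convert this using 1
  rfl

theorem zsmul (E : Eul α) (n : ℤ) {f : α → ℤ} {a : ℤ} (h : E.rel f a) :
    E.rel (fun x => n * f x) (n * a) := by
  obtain ⟨m, rfl | rfl⟩ := n.eq_nat_or_neg
  · exact E.nsmul m h
  · have h1 := E.neg _ _ (E.nsmul m h)
    have e1 : (fun x => (-(m : ℤ)) * f x) = -(fun x => (m : ℤ) * f x) := by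
      funext x
      simp
    rw [e1]
    convert h1 using 1
    ring

end Eul

/-- the open ray through `a` -/
def ray {α : Type*} [AddCommGroup α] [Module ℝ α] (a : α) : Set α := {x | ∃ t : ℝ, 0 < t ∧ x = t • a}

/-- Euler integration on a real vector space of dimension `d` -/
structure EulD (α : Type) [TopologicalSpace α] [AddCommGroup α] [Module ℝ α] (d : ℕ) extends
    Eul α where
  opn : ∀ Q : Set α, IsOpen Q → Convex ℝ Q → Q.Nonempty → rel (ind Q) ((-1) ^ d)
  pt : ∀ a, rel (ind {a}) 1
  ry : ∀ a, a ≠ 0 → rel (ind (ray a)) (-1)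

namespace EulD

variable {α β : Type} [TopologicalSpace α] [AddCommGroup α] [Module ℝ α]
  [TopologicalSpace β] [AddCommGroup β] [Module ℝ β] {d d' : ℕ}

theorem ind_zero_of_empty {γ : Type*} {s : Set γ} (h : s = ∅) : ind s = 0 := by
  subst h
  funext x
  simp [ind]

/-- the product -/
def prod (E : EulD α d) (E' : EulD β d') : EulD (α × β) (d + d') where
  toEul := E.toEul.prod E'.toEul
  opn := by
    classical
    intro Q hQ hc hne
    refine ⟨fun a => (-1) ^ d' * ind (Prod.fst '' Q) a, fun a => ?_, ?_⟩
    · by_cases ha : a ∈ Prod.fst '' Q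
      · have h1 : ind (Prod.fst '' Q) a = 1 := Set.indicator_of_mem ha _
        beta_reduce
        rw [h1, mul_one]
        have h2 : (fun b => ind Q (a, b)) = ind {b | (a, b) ∈ Q} := by
          funext b
          exact ind_congr Iff.rfl
        rw [h2]
        refine E'.opn _ (hQ.preimage (by fun_prop)) ?_ ?_
        · intro x hx y hy s t hs ht hst
          have := hc hx hy hs ht hst
          have h3 : s • (a, x) + t • (a, y) = (a, s • x + t • y) := by
            refine Prod.ext ?_ rfl
            change s • a + t • a = a
            rw [← add_smul, hst, one_smul]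
          rw [h3] at this
          exact this
        · obtain ⟨⟨a', b⟩, h3, rfl⟩ := ha
          exact ⟨b, h3⟩
      · have h1 : ind (Prod.fst '' Q) a = 0 := Set.indicator_of_notMem ha _
        beta_reduce
        rw [h1, mul_zero]
        have h2 : (fun b => ind Q (a, b)) = 0 := by
          funext b
          refine ind_notMem ?_
          intro h
          exact absurd ⟨(a, b), h, rfl⟩ ha
        rw [h2]
        exact E'.zero
    · have h1 := E.zsmul ((-1) ^ d') (E.opn (Prod.fst '' Q) (isOpenMap_fst _ hQ)
        (hc.linear_image (LinearMap.fst ℝ α β)) (hne.image _))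
      rwa [← pow_add, add_comm d' d] at h1
  pt := by
    rintro ⟨a, b⟩
    refine ⟨ind {a}, fun x => ?_, E.pt a⟩
    by_cases hx : x = a
    · subst hx
      have h1 : ind {x} x = 1 := ind_mem (Set.mem_singleton _)
      rw [h1]
      have h2 : (fun y => ind {(x, b)} (x, y)) = ind {b} := by
        funext y
        exact ind_congr (by simp)
      rw [h2]
      exact E'.pt b
    · have h1 : ind {a} x = 0 := ind_notMem (by simpa using hx)
      rw [h1]
      have h2 : (fun y => ind {(a, b)} (x, y)) = 0 := by
        funext y
        exact ind_notMem (by simp [hx])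
      rw [h2]
      exact E'.zero
  ry := by
    classical
    rintro ⟨a, b⟩ hab
    by_cases ha : a = 0
    · subst ha
      have hb : b ≠ 0 := by
        rintro rfl
        exact hab rfl
      refine ⟨-ind {0}, fun x => ?_, E.neg _ _ (E.pt 0)⟩
      by_cases hx : x = 0
      · subst hx
        have h1 : ind {(0 : α)} 0 = 1 := ind_mem (Set.mem_singleton _)
        simp only [Pi.neg_apply]
        rw [h1]
        have h2 : (fun y => ind (ray ((0 : α), b)) (0, y)) = ind (ray b) := by
          funext y
          exact ind_congr (by simp [ray])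
        rw [h2]
        exact E'.ry b hb
      · have h1 : ind {(0 : α)} x = 0 := ind_notMem (by simpa using hx)
        simp only [Pi.neg_apply]
        rw [h1, neg_zero]
        have h2 : (fun y => ind (ray ((0 : α), b)) (x, y)) = 0 := by
          funext y
          exact ind_notMem (by simp [ray, hx])
        rw [h2]
        exact E'.zero
    · refine ⟨ind (ray a), fun x => ?_, E.ry a ha⟩
      by_cases hx : x ∈ ray a
      · have h1 : ind (ray a) x = 1 := Set.indicator_of_mem hx _
        rw [h1]
        obtain ⟨t, ht, rfl⟩ := hx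
        have h2 : (fun y => ind (ray (a, b)) (t • a, y)) = ind {t • b} := by
          funext y
          have h3 : (t • a, y) ∈ ray (a, b) ↔ y ∈ ({t • b} : Set β) := by
            constructor
            · rintro ⟨s, hs, h⟩
              have e1 : t • a = s • a := congrArg Prod.fst h
              have e2 : y = s • b := congrArg Prod.snd h
              have e3 : (t - s) • a = 0 := by rw [sub_smul, e1, sub_self]
              rcases smul_eq_zero.1 e3 with h4 | h4
              · rw [sub_eq_zero.1 h4]
                exact e2
              · exact absurd h4 ha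
            · rintro rfl
              exact ⟨t, ht, rfl⟩
          exact ind_congr h3
        rw [h2]
        exact E'.pt _
      · have h1 : ind (ray a) x = 0 := Set.indicator_of_notMem hx _
        rw [h1]
        have h2 : (fun y => ind (ray (a, b)) (x, y)) = 0 := by
          funext y
          refine ind_notMem ?_
          rintro ⟨s, hs, h⟩
          exact absurd ⟨s, hs, congrArg Prod.fst h⟩ hx
        rw [h2]
        exact E'.zero

/-- transport along a linear homeomorphism -/
def map (E : EulD α d) (e : α ≃L[ℝ] β) : EulD β d where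
  toEul := E.toEul.map e.toEquiv
  opn := by
    intro Q hQ hc hne
    have h2 : (fun x => ind Q (e x)) = ind (e ⁻¹' Q) := by
      funext x
      exact ind_congr Iff.rfl
    change E.rel (fun x => ind Q (e x)) _
    rw [h2]
    refine E.opn _ (hQ.preimage e.continuous) (hc.linear_preimage e.toLinearMap) ?_
    obtain ⟨y, hy⟩ := hne
    exact ⟨e.symm y, by simpa using hy⟩
  pt := by
    intro a
    have h2 : (fun x => ind {a} (e x)) = ind {e.symm a} := by
      funext x
      exact ind_congr (by simp [ContinuousLinearEquiv.eq_symm_apply])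
    change E.rel (fun x => ind {a} (e x)) _
    rw [h2]
    exact E.pt _
  ry := by
    intro a ha
    have h2 : (fun x => ind (ray a) (e x)) = ind (ray (e.symm a)) := by
      funext x
      have h3 : e x ∈ ray a ↔ x ∈ ray (e.symm a) := by
        constructor
        · rintro ⟨t, ht, h⟩
          refine ⟨t, ht, ?_⟩
          rw [← map_smul, ← h]
          simp
        · rintro ⟨t, ht, h⟩
          refine ⟨t, ht, ?_⟩
          rw [h]
          simp
      exact ind_congr h3
    change E.rel (fun x => ind (ray a) (e x)) _
    rw [h2]
    refine E.ry _ ?_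
    intro h
    exact ha (by simpa using h)

end EulD

end Pool.Agent.Lib.MP_4e7804_co.N3
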