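import Pool.Agent.Lib.MP_4e7804_co.N3.Spec

/-!
# Euler integration on the line
-/

set_option autoImplicit false

namespace Pool.Agent.Lib.MP_4e7804_co.N3.EulRN

open Filter Topology

/-- piecewise constant functions with right limits `r` and limit `l` at minus infinity -/
structure PC (g r : ℝ → ℤ) (l : ℤ) : Prop where
  hr : ∀ x, ∀ᶠ y in 𝓝[>] x, g y = r x
  hl : ∀ᶠ y in atBot, g y = l
  hf : {x | g x - r x ≠ 0}.Finite

theorem PC.add {g r g' r' : ℝ → ℤ} {l l' : ℤ} (h : PC g r l) (h' : PC g' r' l') :
    PC (g + g') (r + r') (l + l') where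
  hr x := by
    filter_upwards [h.hr x, h'.hr x] with y h1 h2
    simp only [Pi.add_apply, h1, h2]
  hl := by
    filter_upwards [h.hl, h'.hl] with y h1 h2
    simp only [Pi.add_apply, h1, h2]
  hf := by
    refine (h.hf.union h'.hf).subset fun x hx => ?_
    by_contra hc
    simp only [Set.mem_union, Set.mem_ofPred_eq, not_or, not_not] at hc
    apply hx
    simp only [Pi.add_apply]
    omega

theorem PC.neg {g r : ℝ → ℤ} {l : ℤ} (h : PC g r l) : PC (-g) (-r) (-l) where
  hr x := by
    filter_upwards [h.hr x] with y h1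
    simp only [Pi.neg_apply, h1]
  hl := by
    filter_upwards [h.hl] with y h1
    simp only [Pi.neg_apply, h1]
  hf := by
    refine h.hf.subset fun x hx hc => ?_
    apply hx
    simp only [Pi.neg_apply]
    omega

/-- the functional -/
noncomputable def eul : Eul ℝ where
  rel g e := ∃ r l, PC g r l ∧ e = -l + ∑ᶠ x, (g x - r x)
  add := by
    rintro f g a b ⟨r, l, h, rfl⟩ ⟨r', l', h', rfl⟩
    refine ⟨r + r', l + l', h.add h', ?_⟩
    have h1 : ∑ᶠ x, ((f + g) x - (r + r') x) = ∑ᶠ x, ((f x - r x) + (g x - r' x)) := by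
      refine finsum_congr fun x => ?_
      simp only [Pi.add_apply]
      ring
    rw [h1, finsum_add_distrib h.hf h'.hf]
    ring
  neg := by
    rintro f a ⟨r, l, h, rfl⟩
    refine ⟨-r, -l, h.neg, ?_⟩
    have h1 : ∑ᶠ x, ((-f) x - (-r) x) = ∑ᶠ x, -(f x - r x) := by
      refine finsum_congr fun x => ?_
      simp only [Pi.neg_apply]
      ring
    rw [h1, finsum_neg_distrib]
    ring
  zero := ⟨0, 0, ⟨fun x => by simp, by simp, by simp⟩, by simp⟩
  uniq := by
    rintro f a b ⟨r, l, h, rfl⟩ ⟨r', l', h', rfl⟩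
    have h1 : r = r' := by
      funext x
      obtain ⟨y, h2, h3⟩ := ((h.hr x).and (h'.hr x)).exists
      rw [← h2, ← h3]
    have h2 : l = l' := by
      obtain ⟨y, h2, h3⟩ := (h.hl.and h'.hl).exists
      rw [← h2, ← h3]
    rw [h1, h2]

theorem opn (Q : Set ℝ) (hQ : IsOpen Q) (hc : Convex ℝ Q) (hne : Q.Nonempty) :
    eul.rel (ind Q) ((-1) ^ 1) := by
  have ho := hc.ordConnected
  obtain ⟨y₀, hy₀⟩ := hne
  by_cases hb : BddBelow Q
  · have ha := isGLB_csInf ⟨y₀, hy₀⟩ hb
    set a := sInf Q with ha'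
    have haQ : a ∉ Q := by
      intro h
      obtain ⟨z, hz, hz'⟩ := exists_Ioc_subset_of_mem_nhds (hQ.mem_nhds h) ⟨a - 1, by linarith⟩
      have h1 : (z + a) / 2 ∈ Q := hz' ⟨by linarith, by linarith⟩
      have := ha.1 h1
      linarith
    have hlt : ∀ x, a < x → ∃ q ∈ Q, q < x := by
      intro x hx
      obtain ⟨q, hq, h1, h2⟩ := ha.exists_between hx
      exact ⟨q, hq, h2⟩
    refine ⟨ind (Q ∪ {a}), 0, ⟨fun x => ?_, ?_, ?_⟩, ?_⟩
    · by_cases hx : x ∈ Q
      · have hm : x ∈ Q ∪ {a} := Or.inl hx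
        rw [ind_mem hm]
        filter_upwards [mem_nhdsWithin_of_mem_nhds (hQ.mem_nhds hx)] with y hy
        exact ind_mem hy
      · rcases lt_trichotomy x a with h | h | h
        · have h1 : x ∉ Q ∪ {a} := by
            rintro (h1 | h1)
            · exact hx h1
            · exact h.ne h1
          rw [ind_notMem h1]
          filter_upwards [mem_nhdsWithin_of_mem_nhds (Iio_mem_nhds h)] with y hy
          refine ind_notMem fun hy' => ?_
          have h2 := ha.1 hy'
          have h3 : y < a := hy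
          linarith
        · have hm : x ∈ Q ∪ {a} := Or.inr h
          rw [ind_mem hm]
          have hay : a < y₀ := lt_of_le_of_ne (ha.1 hy₀) (by
            intro h1
            rw [h1] at haQ
            exact haQ hy₀)
          rw [h]
          filter_upwards [Ioo_mem_nhdsGT hay] with y hy
          obtain ⟨q, hq, h1⟩ := hlt y hy.1
          exact ind_mem (ho.out hq hy₀ ⟨h1.le, hy.2.le⟩)
        · have h1 : x ∉ Q ∪ {a} := by
            rintro (h1 | h1)
            · exact hx h1
            · exact h.ne' h1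
          rw [ind_notMem h1]
          filter_upwards [self_mem_nhdsWithin] with y hy
          refine ind_notMem fun hy' => ?_
          obtain ⟨q, hq, h2⟩ := hlt x h
          have h3 : x < y := hy
          exact hx (ho.out hq hy' ⟨h2.le, h3.le⟩)
    · filter_upwards [Iio_mem_atBot a] with y hy
      refine ind_notMem fun hy' => ?_
      have h2 := ha.1 hy'
      have h3 : y < a := hy
      linarith
    · refine (Set.finite_singleton a).subset fun x hx => ?_
      by_contra hc'
      apply hx
      rw [sub_eq_zero]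
      refine ind_congr ⟨Or.inl, ?_⟩
      rintro (h1 | h1)
      · exact h1
      · exact absurd h1 hc'
    · have h1 : ∀ x, x ≠ a → ind Q x - ind (Q ∪ {a}) x = 0 := by
        intro x hx
        rw [sub_eq_zero]
        refine ind_congr ⟨Or.inl, ?_⟩
        rintro (h1 | h1)
        · exact h1
        · exact absurd h1 hx
      have hm : a ∈ Q ∪ {a} := Or.inr rfl
      rw [finsum_eq_single _ a h1, ind_notMem haQ, ind_mem hm]
      norm_num
  · have hlt : ∀ x, ∃ q ∈ Q, q < x := by
      intro x
      by_contra hc'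
      push Not at hc'
      exact hb ⟨x, fun q hq => hc' q hq⟩
    refine ⟨ind Q, 1, ⟨fun x => ?_, ?_, ?_⟩, ?_⟩
    · by_cases hx : x ∈ Q
      · rw [ind_mem hx]
        filter_upwards [mem_nhdsWithin_of_mem_nhds (hQ.mem_nhds hx)] with y hy
        exact ind_mem hy
      · rw [ind_notMem hx]
        filter_upwards [self_mem_nhdsWithin] with y hy
        refine ind_notMem fun hy' => ?_
        obtain ⟨q, hq, h2⟩ := hlt x
        have h3 : x < y := hy
        exact hx (ho.out hq hy' ⟨h2.le, h3.le⟩)
    · filter_upwards [Iio_mem_atBot y₀] with y hy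
      obtain ⟨q, hq, h2⟩ := hlt y
      have h3 : y < y₀ := hy
      exact ind_mem (ho.out hq hy₀ ⟨h2.le, h3.le⟩)
    · simp
    · simp

theorem pt (a : ℝ) : eul.rel (ind {a}) 1 := by
  refine ⟨0, 0, ⟨fun x => ?_, ?_, ?_⟩, ?_⟩
  · by_cases hx : x < a
    · filter_upwards [mem_nhdsWithin_of_mem_nhds (Iio_mem_nhds hx)] with y hy
      refine ind_notMem fun hy' => ?_
      have h3 : y < a := hy
      exact h3.ne hy'
    · filter_upwards [self_mem_nhdsWithin] with y hy
      refine ind_notMem fun hy' => ?_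
      have h3 : x < y := hy
      have h4 : y = a := hy'
      apply hx
      linarith
  · filter_upwards [Iio_mem_atBot a] with y hy
    refine ind_notMem fun hy' => ?_
    have h3 : y < a := hy
    exact h3.ne hy'
  · refine (Set.finite_singleton a).subset fun x hx => ?_
    by_contra hc'
    apply hx
    rw [ind_notMem hc']
    rfl
  · have h1 : ∀ x, x ≠ a → ind {a} x - (0 : ℝ → ℤ) x = 0 := by
      intro x hx
      rw [ind_notMem (by simpa using hx)]
      rfl
    rw [finsum_eq_single _ a h1, ind_mem (Set.mem_singleton a)]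
    simp

theorem ry (a : ℝ) (ha : a ≠ 0) : eul.rel (ind (ray a)) (-1) := by
  have h0 : ((-1 : ℤ)) = (-1) ^ 1 := by norm_num
  rw [h0]
  rcases lt_or_gt_of_ne ha with h | h
  · have h1 : ray a = Set.Iio 0 := by
      ext x
      constructor
      · rintro ⟨t, ht, rfl⟩
        exact mul_neg_of_pos_of_neg ht h
      · intro hx
        refine ⟨x / a, div_pos_of_neg_of_neg hx h, ?_⟩
        rw [smul_eq_mul, div_mul_cancel₀ _ ha]
    rw [h1]
    exact opn _ isOpen_Iio (convex_Iio 0) ⟨-1, by simp⟩
  · have h1 : ray a = Set.Ioi 0 := by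
      ext x
      constructor
      · rintro ⟨t, ht, rfl⟩
        exact mul_pos ht h
      · intro hx
        refine ⟨x / a, div_pos hx h, ?_⟩
        rw [smul_eq_mul, div_mul_cancel₀ _ ha]
    rw [h1]
    exact opn _ isOpen_Ioi (convex_Ioi 0) ⟨1, by simp⟩

end Pool.Agent.Lib.MP_4e7804_co.N3.EulRN

namespace Pool.Agent.Lib.MP_4e7804_co.N3

theorem tEulR : StmtEulR :=
  ⟨{ toEul := EulRN.eul
     opn := EulRN.opn
     pt := EulRN.pt
     ry := EulRN.ry }⟩

end Pool.Agent.Lib.MP_4e7804_co.N3
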