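import Pool.Agent.Lib.MP_4e7804_co.N3.Spec3

/-!
# n = 3: some normal cones meet
-/

set_option autoImplicit false

namespace Pool.Agent.Lib.MP_4e7804_co.N3.MeetN

/-- a point of a parabola through `w₀` -/
def cu (w : Pl) (t : ℝ) : Pl := (w.1 + t, w.2 + t ^ 2)

theorem cu_zero (w : Pl) : cu w 0 = w := by
  simp [cu]

theorem cu_cont (w : Pl) : Continuous (cu w) := by
  unfold cu
  fun_prop

theorem fin_quad (a b c : ℝ) (h : ¬ (a = 0 ∧ b = 0)) :
    {t : ℝ | c + a * t + b * t ^ 2 = 0}.Finite := by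
  let P : Polynomial ℝ := Polynomial.C c + Polynomial.C a * Polynomial.X +
    Polynomial.C b * Polynomial.X ^ 2
  have hP : P ≠ 0 := by
    intro h0
    have h1 : P.coeff 1 = a := by
      simp [P, Polynomial.coeff_X_pow, Polynomial.coeff_C]
    have h2 : P.coeff 2 = b := by
      simp [P]
    rw [h0, Polynomial.coeff_zero] at h1 h2
    exact h ⟨h1.symm, h2.symm⟩
  refine (Polynomial.finite_setOfPred_isRoot hP).subset fun t ht => ?_
  have ht' : c + a * t + b * t ^ 2 = 0 := ht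
  change P.eval t = 0
  simpa [P] using ht'

theorem fin_pair (w q q' : Pl) (h : q ≠ q') : {t : ℝ | dt q (cu w t) = dt q' (cu w t)}.Finite := by
  refine (fin_quad (q.1 - q'.1) (q.2 - q'.2) (dt q w - dt q' w) ?_).subset fun t ht => ?_
  · rintro ⟨h1, h2⟩
    exact h (Prod.ext (sub_eq_zero.1 h1) (sub_eq_zero.1 h2))
  · have ht' : dt q (cu w t) = dt q' (cu w t) := ht
    change dt q w - dt q' w + (q.1 - q'.1) * t + (q.2 - q'.2) * t ^ 2 = 0
    simp only [dt, cu] at ht' ⊢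
    linarith

end Pool.Agent.Lib.MP_4e7804_co.N3.MeetN

namespace Pool.Agent.Lib.MP_4e7804_co.N3

open MeetN in
theorem tMeet : StmtMeet := by
  intro A B hA hNC hB
  obtain ⟨p, hp⟩ := hA
  obtain ⟨w, hw⟩ := hNC p hp
  have hU : cu w ⁻¹' NC A p ∈ nhds (0 : ℝ) :=
    ((NC_open A p).preimage (cu_cont w)).mem_nhds (by
      rw [Set.mem_preimage, cu_zero]
      exact hw)
  have hT : (⋃ x ∈ ((B ×ˢ B).filter fun x => x.1 ≠ x.2 : Finset (Pl × Pl)),
      {t : ℝ | dt x.1 (cu w t) = dt x.2 (cu w t)}).Finite := by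
    refine Set.Finite.biUnion (Finset.finite_toSet _) fun x hx => ?_
    exact fin_pair w x.1 x.2 (Finset.mem_filter.1 hx).2
  obtain ⟨t, ht, htT⟩ := (infinite_of_mem_nhds (0 : ℝ) hU).exists_notMem_finite hT
  rcases mem_CL_or B (cu w t) with h | ⟨q, hq, h⟩
  · exfalso
    rw [CL_iff hB] at h
    obtain ⟨q, hq, q', hq', hne, h1, h2⟩ := h
    refine htT (Set.mem_biUnion (x := (q, q')) (Finset.mem_filter.2
      ⟨Finset.mem_product.2 ⟨hq, hq'⟩, hne⟩) ?_)
    exact h1.trans h2.symm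
  · exact ⟨p, hp, q, hq, cu w t, ht, h⟩

end Pool.Agent.Lib.MP_4e7804_co.N3
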