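import Pool.Agent.Lib.MP_4e7804_co.N3.Spec2

set_option autoImplicit false

namespace Pool.Agent.Lib.MP_4e7804_co.N3.RootN

open Polynomial

variable {L : Type} [Field L] [Algebra ℂ L]

theorem nm_zero (v : VF L) : v.nm 0 = 0 := (v.eq_zero 0).2 rfl

theorem nm_pos (v : VF L) {x : L} (hx : x ≠ 0) : 0 < v.nm x :=
  lt_of_le_of_ne (v.nonneg x) fun h => hx ((v.eq_zero x).1 h.symm)

theorem nm_one (v : VF L) : v.nm 1 = 1 := by
  have h := v.mul 1 1
  rw [one_mul] at h
  have h1 := nm_pos v (one_ne_zero : (1 : L) ≠ 0)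
  have h2 : v.nm 1 * (v.nm 1 - 1) = 0 := by linarith
  rcases mul_eq_zero.1 h2 with h3 | h3
  · exact absurd h3 h1.ne'
  · linarith

theorem nm_neg (v : VF L) (x : L) : v.nm (-x) = v.nm x := by
  have h := v.mul (-x) (-x)
  have h' := v.mul x x
  have h2 : (-x) * (-x) = x * x := by ring
  rw [h2, h'] at h
  exact (mul_self_inj (v.nonneg _) (v.nonneg _)).1 h.symm

theorem nm_sub_le (v : VF L) (a b : L) : v.nm (a - b) ≤ max (v.nm a) (v.nm b) := by
  have := v.add a (-b)
  rwa [nm_neg, ← sub_eq_add_neg] at this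

theorem nm_sub_left (v : VF L) {a b : L} (h : v.nm b < v.nm a) : v.nm (a - b) = v.nm a := by
  apply le_antisymm
  · exact (nm_sub_le v a b).trans (max_le le_rfl h.le)
  · by_contra hlt
    push Not at hlt
    have h1 : v.nm a ≤ max (v.nm (a - b)) (v.nm b) := by
      have := v.add (a - b) b
      rwa [sub_add_cancel] at this
    have h2 : max (v.nm (a - b)) (v.nm b) < v.nm a := max_lt hlt h
    linarith

theorem nm_sub_right (v : VF L) {a b : L} (h : v.nm a < v.nm b) : v.nm (a - b) = v.nm b := by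
  rw [← nm_neg, neg_sub]
  exact nm_sub_left v h

omit [Algebra ℂ L] in
/-- coefficients of `H (X - r)` -/
theorem coeff_step (H : L[X]) (r : L) (m : ℕ) :
    (H * (X - C r)).coeff m = (if m = 0 then 0 else H.coeff (m - 1)) - r * H.coeff m := by
  cases m with
  | zero => simp [mul_coeff_zero, mul_comm]
  | succ j => simp [coeff_mul_X_sub_C, mul_comm]

/-- one step -/
theorem step (v : VF L) {ρ : ℝ} (hρ : 0 < ρ) (H : L[X]) (r : L) (hr : v.nm r ≠ ρ) {k : ℕ}
    (hk : ∀ m, m ≠ k → v.nm (H.coeff m) * ρ ^ m < v.nm (H.coeff k) * ρ ^ k) :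
    ∃ k', ∀ m, m ≠ k' → v.nm ((H * (X - C r)).coeff m) * ρ ^ m <
      v.nm ((H * (X - C r)).coeff k') * ρ ^ k' := by
  set N := v.nm (H.coeff k) * ρ ^ k with hN
  have hle : ∀ m, v.nm (H.coeff m) * ρ ^ m ≤ N := by
    intro m
    by_cases h : m = k
    · rw [h]
    · exact (hk m h).le
  have hNpos : 0 < N := by
    refine lt_of_le_of_lt ?_ (hk (k + 1) (by omega))
    exact mul_nonneg (v.nonneg _) (pow_nonneg hρ.le _)
  -- the two terms
  set A : ℕ → L := fun m => if m = 0 then 0 else H.coeff (m - 1) with hA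
  have hAv : ∀ m, v.nm (A m) * ρ ^ m = if m = 0 then 0 else ρ * (v.nm (H.coeff (m - 1)) * ρ ^ (m - 1)) := by
    intro m
    cases m with
    | zero => simp [hA, nm_zero]
    | succ j => simp [hA, pow_succ]; ring
  have hBv : ∀ m, v.nm (r * H.coeff m) * ρ ^ m = v.nm r * (v.nm (H.coeff m) * ρ ^ m) := by
    intro m; rw [v.mul]; ring
  have hco : ∀ m, (H * (X - C r)).coeff m = A m - r * H.coeff m := coeff_step H r
  have hval : ∀ m, v.nm ((H * (X - C r)).coeff m) * ρ ^ m ≤
      max (v.nm (A m) * ρ ^ m) (v.nm (r * H.coeff m) * ρ ^ m) := by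
    intro m
    rw [hco m, ← max_mul_of_nonneg _ _ (pow_nonneg hρ.le m)]
    exact mul_le_mul_of_nonneg_right (nm_sub_le v _ _) (pow_nonneg hρ.le m)
  rcases lt_or_gt_of_ne hr with hlt | hgt
  · -- small root
    refine ⟨k + 1, ?_⟩
    have hAk : v.nm (A (k + 1)) * ρ ^ (k + 1) = ρ * N := by
      rw [hAv]; simp [hN]
    have hB : v.nm (r * H.coeff (k + 1)) * ρ ^ (k + 1) < ρ * N := by
      rw [hBv]
      calc v.nm r * (v.nm (H.coeff (k + 1)) * ρ ^ (k + 1)) ≤ v.nm r * N :=
            mul_le_mul_of_nonneg_left (hle _) (v.nonneg _)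
        _ < ρ * N := mul_lt_mul_of_pos_right hlt hNpos
    have hlt2 : v.nm (r * H.coeff (k + 1)) < v.nm (A (k + 1)) := by
      rw [← hAk] at hB
      exact lt_of_mul_lt_mul_right hB (pow_nonneg hρ.le _)
    have hmain : v.nm ((H * (X - C r)).coeff (k + 1)) * ρ ^ (k + 1) = ρ * N := by
      rw [hco, nm_sub_left v hlt2, hAk]
    intro m hm
    rw [hmain]
    refine lt_of_le_of_lt (hval m) (max_lt ?_ ?_)
    · rw [hAv]
      split_ifs with h0
      · exact mul_pos hρ hNpos
      · exact mul_lt_mul_of_pos_left (hk (m - 1) (by omega)) hρ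
    · rw [hBv]
      calc v.nm r * (v.nm (H.coeff m) * ρ ^ m) ≤ v.nm r * N :=
            mul_le_mul_of_nonneg_left (hle _) (v.nonneg _)
        _ < ρ * N := mul_lt_mul_of_pos_right hlt hNpos
  · -- large root
    have hrpos : 0 < v.nm r := hρ.trans hgt
    refine ⟨k, ?_⟩
    have hBk : v.nm (r * H.coeff k) * ρ ^ k = v.nm r * N := by rw [hBv]
    have hA' : ∀ m, v.nm (A m) * ρ ^ m < v.nm r * N := by
      intro m
      rw [hAv]
      split_ifs with h0
      · exact mul_pos hrpos hNpos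
      · calc ρ * (v.nm (H.coeff (m - 1)) * ρ ^ (m - 1)) ≤ ρ * N :=
              mul_le_mul_of_nonneg_left (hle _) hρ.le
          _ < v.nm r * N := mul_lt_mul_of_pos_right hgt hNpos
    have hlt2 : v.nm (A k) < v.nm (r * H.coeff k) := by
      have := hA' k
      rw [← hBk] at this
      exact lt_of_mul_lt_mul_right this (pow_nonneg hρ.le _)
    have hmain : v.nm ((H * (X - C r)).coeff k) * ρ ^ k = v.nm r * N := by
      rw [hco, nm_sub_right v hlt2, hBk]
    intro m hm
    rw [hmain]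
    refine lt_of_le_of_lt (hval m) (max_lt (hA' m) ?_)
    rw [hBv]
    exact mul_lt_mul_of_pos_left (hk m hm) hrpos

/-- a product of linear factors without roots of norm `ρ` has a strict maximum -/
theorem prod_max (v : VF L) {ρ : ℝ} (hρ : 0 < ρ) (s : Multiset L) (hs : ∀ r ∈ s, v.nm r ≠ ρ) :
    ∃ k, ∀ m, m ≠ k → v.nm ((s.map fun r => X - C r).prod.coeff m) * ρ ^ m <
      v.nm ((s.map fun r => X - C r).prod.coeff k) * ρ ^ k := by
  induction s using Multiset.induction_on with
  | empty =>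
    refine ⟨0, fun m hm => ?_⟩
    simp [coeff_one, hm, nm_zero, nm_one]
  | cons r s ih =>
    obtain ⟨k, hk⟩ := ih fun r' hr' => hs r' (Multiset.mem_cons_of_mem hr')
    have := step v hρ _ r (hs r (Multiset.mem_cons_self r s)) hk
    simpa [Multiset.map_cons, Multiset.prod_cons, mul_comm] using this

end Pool.Agent.Lib.MP_4e7804_co.N3.RootN

namespace Pool.Agent.Lib.MP_4e7804_co.N3

open RootN Polynomial in
theorem tRoot : StmtRoot := by
  intro L _ _ _ v G ρ hρ k l hkl hGk hk hl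
  by_contra hcon
  push Not at hcon
  have hG : G ≠ 0 := by
    rintro rfl
    simp at hGk
  have hroots : ∀ r ∈ G.roots, v.nm r ≠ ρ := by
    intro r hr h
    exact hcon r h ((mem_roots hG).1 hr)
  obtain ⟨k₀, hk₀⟩ := prod_max v hρ G.roots hroots
  have hsp : G = C G.leadingCoeff * (G.roots.map fun r => X - C r).prod :=
    (IsAlgClosed.splits G).eq_prod_roots
  have hlc : 0 < v.nm G.leadingCoeff := nm_pos v (leadingCoeff_ne_zero.2 hG)
  have key : ∀ m, m ≠ k₀ → v.nm (G.coeff m) * ρ ^ m < v.nm (G.coeff k₀) * ρ ^ k₀ := by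
    intro m hm
    have e : ∀ j, v.nm (G.coeff j) * ρ ^ j = v.nm G.leadingCoeff *
        (v.nm ((G.roots.map fun r => X - C r).prod.coeff j) * ρ ^ j) := by
      intro j
      conv_lhs => rw [hsp, coeff_C_mul, v.mul]
      ring
    rw [e, e]
    exact mul_lt_mul_of_pos_left (hk₀ m hm) hlc
  by_cases h : k = k₀
  · have h2 : l ≠ k₀ := by rw [← h]; exact hkl.symm
    exact absurd (hl k₀) (not_le.2 (key l h2))
  · exact absurd (hk k₀) (not_le.2 (key k h))

end Pool.Agent.Lib.MP_4e7804_co.N3
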