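import Pool.Agent.Lib.MP_4e7804_co.N3.Base

/-!
# n = 3, combinatorial half: statements

Every statement is a `Prop`; its docstring contains a complete proof. Delivery format: file
`N3/<Name>.lean`, first line `import Pool.Agent.Lib.MP_4e7804_co.N3.Spec`, private lemmas in the namespace
`Pool.Agent.Lib.MP_4e7804_co.N3.<Name>N`, final theorem `Pool.Agent.Lib.MP_4e7804_co.N3.t<Name>`, with
the statements listed under `Uses` as hypotheses.
-/

set_option autoImplicit false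

namespace Pool.Agent.Lib.MP_4e7804_co.N3

/-! ## Euler integration -/

/-- **EulR** Euler integration on the line. Proof. For `g : ℝ → ℤ` let `PC g` be: (a) for all `x` there
is `c` with `∀ᶠ y in 𝓝[>] x, g y = c`; (b) there is `c` with `∀ᶠ y in atBot, g y = c`; (c) the set of `x`
with `¬ ∀ᶠ y in 𝓝[>] x, g y = g x` is finite. Let `r g x`, `l g` be the constants of (a), (b) (unique, the
filters are `NeBot`; use `Classical.choose` or `if h : ∃ c, .. then choose h else 0`), and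
`J g = - l g + ∑ᶠ x, (g x - r g x)` (finite support by (c)). `rel g e := PC g ∧ J g = e`. All three
conditions are stable under sums and negation, `r`, `l` are additive and so is `J`
(`finsum_add_distrib`). Uniqueness is clear. `opn`: let `Q` be nonempty, open, convex (so
`Set.OrdConnected`). If `x ∈ Q` then a neighbourhood of `x` is in `Q`. If `x ∉ Q`: either `(x, x + ε)` misses
`Q` for a small `ε`, or `(x, y₀) ⊆ Q` for some `y₀ ∈ Q`; the second case means that `x` is a lower bound of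
`Q` (`Q ∩ (-∞, x) = ∅` by convexity) and `x = sInf Q`. At `-∞`: if `Q` is not bounded below, `Q ⊇ (-∞, y₀)`,
`l = 1` and the second case never occurs, `J = -1`; if `Q` is bounded below, `l = 0` and the second case
occurs exactly for `x = sInf Q` (`sInf Q ∉ Q` as `Q` is open), where `g x - r g x = -1`, `J = -1`.
`pt`: `g x - r g x = 1` at the point, `0` elsewhere, `l = 0`. `ry`: the ray of `a ≠ 0` is `(0, ∞)` or
`(-∞, 0)`, use `opn`. -/
def StmtEulR : Prop := Nonempty (EulD ℝ 1)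

/-- **EulSp** (uses `EulR`, `EulD.prod`, `EulD.map`) the plane `ℝ × ℝ` (dimension `1 + 1`), and
`Fin 3 → ℝ`: a continuous linear equivalence `(ℝ × ℝ × ℝ) ≃L[ℝ] (Fin 3 → ℝ)` (for instance from
`LinearEquiv.toContinuousLinearEquiv`, finite dimension). -/
def StmtEulSp : Prop := Nonempty (EulD Pl 2) ∧ Nonempty (EulD Sp 3)

/-- **IE** inclusion-exclusion. Proof. As functions, `ind {x | ∀ i, ∀ k ∈ K i, x ∉ U i k}` is the product
over `i = 0, 1, 2` of `1 - ∑ k ∈ K i, ind (U i k)` (the sets of one family are disjoint). Expand; the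
product of indicator functions is the indicator function of the intersection, which is open and convex,
so its integral is `(-1)^d` if it is nonempty and `0` if it is empty (`E.zero`). The constant function `1`
is `ind univ`, with the integral `(-1)^d`. Use `Eul.sum`, `Eul.sub`, and
`Finset.sum_product`, `Finset.card_filter`. -/
def StmtIE : Prop := ∀ (α : Type) (_ : TopologicalSpace α) (_ : AddCommGroup α) (_ : Module ℝ α)
  (d : ℕ) (E : EulD α d) (ι : Type) (K : Fin 3 → Finset ι) (U : Fin 3 → ι → Set α),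
  (∀ i, ∀ k ∈ K i, IsOpen (U i k) ∧ Convex ℝ (U i k)) →
  (∀ i, ∀ k ∈ K i, ∀ l ∈ K i, k ≠ l → Disjoint (U i k) (U i l)) →
  E.rel (ind {x | ∀ i, ∀ k ∈ K i, x ∉ U i k}) ((-1) ^ d * (1 -
    (n1 (K 0) (U 0) + n1 (K 1) (U 1) + n1 (K 2) (U 2)) +
    (n2 (K 0) (K 1) (U 0) (U 1) + n2 (K 0) (K 2) (U 0) (U 2) + n2 (K 1) (K 2) (U 1) (U 2)) -
    n3 (K 0) (K 1) (K 2) (U 0) (U 1) (U 2)))

/-- **Cone** integral of a cone which is a finite union of rays. Proof. `x ↦ ‖x‖⁻¹ • x` maps `X` to the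
finite set `N = {x ∈ X | ‖x‖ = 1}`; `ind X = ∑ y ∈ N, ind (ray y)` pointwise: `z ∈ ray y`, `y ∈ N`, iff
`z ≠ 0` and `y = ‖z‖⁻¹ • z`. Then `E.ry` and `Eul.sum`. -/
def StmtCone : Prop := ∀ (α : Type) (_ : NormedAddCommGroup α) (_ : NormedSpace ℝ α) (d : ℕ)
  (E : EulD α d) (X : Set α), (0 : α) ∉ X → (∀ x ∈ X, ∀ t : ℝ, 0 < t → t • x ∈ X) →
    {x | x ∈ X ∧ ‖x‖ = 1}.Finite → E.rel (ind X) (-({x | x ∈ X ∧ ‖x‖ = 1}.ncard : ℤ))

/-- **Fin** integral of a finite set: `ind s = ∑ a ∈ s, ind {a}`. -/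
def StmtFin : Prop := ∀ (α : Type) (_ : TopologicalSpace α) (_ : AddCommGroup α) (_ : Module ℝ α)
  (d : ℕ) (E : EulD α d) (s : Set α), s.Finite → E.rel (ind s) (s.ncard : ℤ)

/-- **TropR** number of vertices and Euler integral of the tropical hypersurface. Proof. For `a ∈ M` let
`C a = {z | ∀ b ∈ M, b ≠ a → a ⬝ᵥ z < b ⬝ᵥ z}`, an open convex set. The sets `C a` are disjoint and their
union is the complement of `trop M` (if the minimum is attained only once it is attained at some `a`,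
`z ∈ C a`; `M` is nonempty). So `ind (trop M) = 1 - ∑ a ∈ M, ind (C a)` and the integral is
`(-1)^3 - (-1)^3 · #{a | C a ≠ ∅}` (`1 = ind univ`). Moreover `C a ≠ ∅` iff `a` is an extreme point of
`convexHull M`: if `z ∈ C a`, `z` attains its minimum on the hull only at `a` (an exposed point:
`IsExposed`, `exposedPoints_subset_extremePoints`, or directly). Conversely let `a` be an extreme point;
`a ∈ M` (`extremePoints_convexHull_subset`). `a` is not in the hull of `M \ {a}` (otherwise `a` is a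
convex combination of points of the convex set `hull \ {a}`, `Convex`-ity of `hull \ {a}` is
`(mem_extremePoints_iff_convex_diff ..)` or similar), which is compact and convex: separate it from `a`
strictly (`geometric_hahn_banach_point_compact` or `..compact_point`) by a continuous linear functional
`f`, which is `⬝ᵥ z` with `z i = f (Pi.single i 1)`; if `M = {a}` then `C a = univ`. -/
def StmtTropR : Prop := ∀ (E : EulD Sp 3) (M : Finset Sp), M.Nonempty →
  E.rel (ind (trop M)) ((nv M : ℤ) - 1)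

/-! ## The plane -/

/-- the number `v` or `0` if `v = 1` -/
def nz (v : ℕ) : ℕ := if v = 1 then 0 else v

/-- the number of arcs of the common refinement of the three normal fans -/
def a123 (v : Fin 3 → ℕ) : ℕ := if v 0 = 1 ∧ v 1 = 1 ∧ v 2 = 1 then 1 else nz (v 0) + nz (v 1) + nz (v 2)

/-- `1` if no `v i` is `1`, otherwise `0` -/
def al (v : Fin 3 → ℕ) : ℕ := if v 0 = 1 ∨ v 1 = 1 ∨ v 2 = 1 then 0 else 1

/-- **CLdef** corner loci in general position: (1) `CL A = ∅` if `A` has one element (`NC A p` is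
everything); (2) `0 ∈ CL A` if `A` has two elements at least; (3) `CL (A i) ∩ CL (A j) ⊆ {0}` for
`i ≠ j`: by `CL_iff`, `w` is orthogonal to `p - p'` (`p ≠ p'` in `A i`) and to `q - q'` (`q ≠ q'` in `A j`),
and `cr (p - p') (q - q') ≠ 0` (`g2`), so `w = 0` (Cramer); (4) `w ∈ CL (A i)`, `w ≠ 0`, `q ∈ A j`:
`dt q w ≠ 0` (`g3`). -/
def StmtCLdef : Prop := ∀ A : Fin 3 → Finset Pl, Gen A →
  (∀ i, (A i).card = 1 → CL (A i) = ∅) ∧ (∀ i, (A i).card ≠ 1 → (0 : Pl) ∈ CL (A i)) ∧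
  (∀ i j, i ≠ j → ∀ w, w ∈ CL (A i) → w ∈ CL (A j) → w = 0) ∧
  (∀ i j, i ≠ j → ∀ w, w ∈ CL (A i) → w ≠ 0 → ∀ q ∈ A j, dt q w ≠ 0)

/-- **A2** (uses `IE`, `CLdef`) the number of arcs of the refinement of two fans. Proof. `IE` in the plane
(`d = 2`), with `K 0 = A i`, `K 1 = A j`, `K 2 = ∅` and the cones `NC`; all cones are nonempty (`vert`), so
`n1 = card`; the counts with the empty family are `0`. So the integral of `ind (CL (A i) ∩ CL (A j))` is
`1 - |A i| - |A j| + a2`. If both have two elements at least, the set is `{0}`, with the integral `1`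
(`E.pt`); if one has one element, it is empty, with the integral `0`. Uniqueness of the integral. -/
def StmtA2 : Prop := ∀ (_ : EulD Pl 2) (A : Fin 3 → Finset Pl), Gen A → ∀ i j, i ≠ j →
  a2 (A i) (A j) = if (A i).card = 1 ∧ (A j).card = 1 then 1 else nz (A i).card + nz (A j).card

/-- **A3** (uses `IE`, `CLdef`, `A2`) three fans: the integral of `ind (CL (A 0) ∩ CL (A 1) ∩ CL (A 2))`
is `1 - (|A 0| + |A 1| + |A 2|) + (a2 + a2 + a2) - a3`, and it is `1` (the set is `{0}`) if all have two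
elements at least, otherwise `0` (empty set). -/
def StmtA3 : Prop := ∀ (_ : EulD Pl 2) (A : Fin 3 → Finset Pl), Gen A →
  a3 (A 0) (A 1) (A 2) = a123 fun i => (A i).card

/-- **Sector** the normal cone of a vertex is a sector. Proof. `D = {q - p | q ∈ A, q ≠ p}` is finite and
nonempty, `dt d w₀ > 0` for `d ∈ D`, `w₀ ∈ NC A p`. Put `τ d = cr w₀ d / dt d w₀`; let `dM` (`dm`) in `D`
have the maximal (minimal) `τ`. With `J (x, y) = (-y, x)` every `w` is `α w₀ + β J w₀` and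
`dt d w = dt d w₀ (α + β τ d)` (as `dt d (J w₀) = cr w₀ d`), so `w ∈ NC A p` iff `α + β τ d > 0` for all
`d ∈ D` iff this holds for `dM` and `dm` iff `dt dM w > 0` and `dt dm w > 0`. Put
`l = (dM.2, -dM.1)`, `r = (-dm.2, dm.1)`: `cr l w = dt dM w`, `cr w r = dt dm w`,
`cr l r = cr dm dM ≥ 0` (for `d, d'` in `D`: `cr d d' · |w₀|² = dt d w₀ · cr w₀ d' - dt d' w₀ · cr w₀ d`,
so `cr d d' ≥ 0` iff `τ d ≤ τ d'`). Finally `dt (q - p) l = cr (q - p) dM ≥ 0` for `q - p ∈ D`, and it is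
`0` for `q - p = dM`, so `l ∉ NC A p` and `dt p l ≤ dt q l`; so `l ∈ CL A` (`CL_iff`; `dt p l = psi A l`). -/
def StmtSector : Prop := ∀ (A : Finset Pl) (p : Pl), p ∈ A → A.card ≠ 1 → (NC A p).Nonempty →
  ∃ l r : Pl, l ≠ 0 ∧ r ≠ 0 ∧ 0 ≤ cr l r ∧ (∀ w, w ∈ NC A p ↔ 0 < cr l w ∧ 0 < cr w r) ∧ l ∈ CL A

/-- **Cov** (uses `Sector`) covering. Proof. Choose for every `p ∈ A i` the `l p` (and `r p`) of `Sector`,
and for every `q ∈ A j` the `l q`. `cr (l p) (l q) ≠ 0`: they are orthogonal to `p' - p''`, `q' - q''`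
(`CL_iff`), use `g2`. Claim: if `NC p ∩ NC q ≠ ∅` then `l p ∈ NC q` or `l q ∈ NC p`. Let `w` be in both.
If `cr (l p) (l q) > 0`: `l q ∈ NC p`, since `cr (l q) (r p) · cr (l p) w =
cr (l q) w · cr (l p) (r p) + cr (l p) (l q) · cr w (r p)` (identity), the right hand side is positive
(`cr (l q) w > 0`, `cr (l p) (r p) ≥ 0`, the other terms are positive) and `cr (l p) w > 0`. If
`cr (l p) (l q) < 0`: `l p ∈ NC q` by symmetry. Now map the pairs `(p, q)`, `p ∈ S`, `q ∈ T`, with meeting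
cones injectively to `S ⊕ T`: to `p` if `l p ∈ NC q`, otherwise to `q`; it is injective, since `l p` is in
at most one `NC q` (`NC_unique`), and `l q` in at most one `NC p`. -/
def StmtCov : Prop := ∀ A : Fin 3 → Finset Pl, Gen A → ∀ i j, i ≠ j → (A i).card ≠ 1 →
  (A j).card ≠ 1 → ∀ S ⊆ A i, ∀ T ⊆ A j, n2 S T (NC (A i)) (NC (A j)) ≤ S.card + T.card

/-! ## Cells in `ℝ⁴` -/

/-- **Cells** nonempty cells. Proof. (1) Let `w ∈ NC (A i) p`. `p ≠ 0` (`g1` with another index), so there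
is `d` with `dt p d > 0`; `x = (w + ε d, w)` with `ε > 0` small is in `cU (A i) p`: `w + ε d ∈ NC (A i) p`
(open), so `psi (A i) (w + ε d) = dt p w + ε dt p d`. (2) Let `w` be in `NC (A i) p ∩ NC (A j) q`; as
`cr p q ≠ 0` there is `d` with `dt p d = dt q d = 1`, and `(w + ε d, w)` is in both unprimed cells.
(3) Similarly with `dt p d = 1`, `dt q d = -1`: `(w + ε d, w)` is in `cU (A i) p ∩ cP (A j) q`
(`psi (A j) w = dt q w > dt q (w + ε d)`). -/
def StmtCells : Prop := ∀ A : Fin 3 → Finset Pl, Gen A →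
  (∀ i, ∀ p ∈ A i, (cU (A i) p).Nonempty ∧ (cP (A i) p).Nonempty) ∧
  (∀ i j, i ≠ j → ∀ p ∈ A i, ∀ q ∈ A j, (NC (A i) p ∩ NC (A j) q).Nonempty →
    (cU (A i) p ∩ cU (A j) q).Nonempty ∧ (cU (A i) p ∩ cP (A j) q).Nonempty)

/-- **Tri** one of four triple intersections is empty. Proof. For `x = (w', w)` in one of the intersections
put `d = w' - w`. In a cell `cU A p`: `dt p w < psi A w' ≤ dt p w'`, so `dt p d > 0`; in a cell `cP A p`:
`dt p d < 0`. As `cr p q ≠ 0`, `s = α p + β q` with real `α, β`, and `α, β ≠ 0` as `cr p s`, `cr q s ≠ 0`.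
`α, β < 0`: the first intersection is empty (`dt s d = α dt p d + β dt q d < 0`). `α, β > 0`: the second.
`α > 0 > β`: `p = (s - β q)/α` is a positive combination of `q` and `s`: the fourth. `α < 0 < β`: the
third. -/
def StmtTri : Prop := ∀ A : Fin 3 → Finset Pl, Gen A → ∀ i j k, i ≠ j → i ≠ k → j ≠ k →
  ∀ p ∈ A i, ∀ q ∈ A j, ∀ s ∈ A k,
    (cU (A i) p ∩ cU (A j) q ∩ cU (A k) s = ∅) ∨ (cU (A i) p ∩ cU (A j) q ∩ cP (A k) s = ∅) ∨
    (cU (A i) p ∩ cU (A k) s ∩ cP (A j) q = ∅) ∨ (cU (A j) q ∩ cU (A k) s ∩ cP (A i) p = ∅)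

open Classical in
/-- the `p` in `A` whose unprimed cell meets the primed cell of `s` -/
noncomputable def SS (A C : Finset Pl) (s : Pl) : Finset Pl :=
  A.filter fun p => (cU A p ∩ cP C s).Nonempty

open Classical in
/-- number of diagonal triples whose mixed intersection is empty -/
noncomputable def dg (A B C : Finset Pl) : ℕ :=
  ((A ×ˢ B ×ˢ C).filter fun x => (NC A x.1 ∩ NC B x.2.1 ∩ NC C x.2.2).Nonempty ∧
    cU A x.1 ∩ cU B x.2.1 ∩ cP C x.2.2 = ∅).card

open Classical in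
/-- number of diagonal triples whose pure intersection is empty -/
noncomputable def dz (A B C : Finset Pl) : ℕ :=
  ((A ×ˢ B ×ˢ C).filter fun x => (NC A x.1 ∩ NC B x.2.1 ∩ NC C x.2.2).Nonempty ∧
    cU A x.1 ∩ cU B x.2.1 ∩ cU C x.2.2 = ∅).card

/-- an off-diagonal adjacent triple whose mixed intersection is empty, although the pairs meet -/
def OffEmpty (A B C : Finset Pl) : Prop :=
  ∃ p ∈ A, ∃ q ∈ B, ∃ s ∈ C, (NC A p ∩ NC B q).Nonempty ∧ NC A p ∩ NC B q ∩ NC C s = ∅ ∧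
    (cU A p ∩ cP C s).Nonempty ∧ (cU B q ∩ cP C s).Nonempty ∧ cU A p ∩ cU B q ∩ cP C s = ∅

/-- **M3** (uses `Cells`) counting mixed triples. Proof. Let `X_s` be the set of pairs
`(p, q) ∈ SS (A i) (A k) s × SS (A j) (A k) s` with meeting normal cones, `∑_s |X_s|` is the right hand
side. A mixed triple `(p, q, s)` with nonempty intersection has `(p, q) ∈ X_s` (a common point `(w', w)`
has `w` in both normal cones, and it is in both pair intersections). A triple counted by `dg` has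
`(p, q) ∈ X_s` too, by `Cells` (2) (the cones `NC p, NC s` meet, so `cU p` meets `cP s`; the same for `q`).
These two sets of triples are disjoint; an `OffEmpty` triple is in neither of them but has
`(p, q) ∈ X_s`. -/
def StmtM3 : Prop := ∀ A : Fin 3 → Finset Pl, Gen A → ∀ i j k, i ≠ j → i ≠ k → j ≠ k →
  m3 (A i) (A j) (A k) + dg (A i) (A j) (A k) ≤
    ∑ s ∈ A k, n2 (SS (A i) (A k) s) (SS (A j) (A k) s) (NC (A i)) (NC (A j)) ∧
  (OffEmpty (A i) (A j) (A k) → m3 (A i) (A j) (A k) + dg (A i) (A j) (A k) + 1 ≤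
    ∑ s ∈ A k, n2 (SS (A i) (A k) s) (SS (A j) (A k) s) (NC (A i)) (NC (A j)))

/-- **M3b** (uses `Cov`, `M3`) Proof. `∑ s ∈ C, |SS A C s| = mm A C` (definitions). In the first case every
summand of `M3` is at most `|SS (A i) (A k) s| + |SS (A j) (A k) s|` (`Cov`). In the second and third case
`|SS (A j) (A k) s| ≤ |A j| = 1` and `n2 ≤ |SS (A i) ..| · |SS (A j) ..| ≤ |SS (A i) ..|`. -/
def StmtM3b : Prop := ∀ A : Fin 3 → Finset Pl, Gen A → ∀ i j k, i ≠ j → i ≠ k → j ≠ k →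
  (((A i).card ≠ 1 → (A j).card ≠ 1 →
    m3 (A i) (A j) (A k) + dg (A i) (A j) (A k) ≤ mm (A i) (A k) + mm (A j) (A k)) ∧
  ((A i).card ≠ 1 → (A j).card ≠ 1 → OffEmpty (A i) (A j) (A k) →
    m3 (A i) (A j) (A k) + dg (A i) (A j) (A k) + 1 ≤ mm (A i) (A k) + mm (A j) (A k)) ∧
  ((A j).card = 1 → m3 (A i) (A j) (A k) + dg (A i) (A j) (A k) ≤ mm (A i) (A k)) ∧
  ((A i).card = 1 → m3 (A i) (A j) (A k) + dg (A i) (A j) (A k) ≤ mm (A j) (A k)))

/-- **Dec2** pairs of labels. Proof. Split the labels `(p, b)`, `(q, c)` by `b, c`. `cell A (p, false) =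
cU A p`, `cell A (p, true) = cP A p`. `(false, false)`: `pp`; `(true, true)`: the map `x ↦ x.swap`
exchanges `cU` and `cP` (`swap_cU`), so also `pp`; `(false, true)`: `mm A B`; `(true, false)`:
`cP A p ∩ cU B q ≠ ∅` iff `cU A p ∩ cP B q ≠ ∅` by the swap. Also `mm A B = mm B A` (swap and exchange),
`mm A B ≤ |A| |B|`. -/
def StmtDec2 : Prop := ∀ A B : Finset Pl, A.Nonempty → B.Nonempty →
  n2 (lab A) (lab B) (cell A) (cell B) = 2 * pp A B + 2 * mm A B ∧ mm A B = mm B A ∧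
    mm A B ≤ A.card * B.card

/-- **Dec3** triples of labels. Proof as for `Dec2`: by the swap the labels `(b, c, d)` and
`(!b, !c, !d)` give the same numbers; `(f,f,f)`: `ppp`; `(f,f,t)`: `m3 A B C`; `(f,t,f)`: `m3 A C B`;
`(t,f,f)`: `m3 B C A` (reorder the intersections). Also `m3 A B C = m3 B A C`. -/
def StmtDec3 : Prop := ∀ A B C : Finset Pl, A.Nonempty → B.Nonempty → C.Nonempty →
  n3 (lab A) (lab B) (lab C) (cell A) (cell B) (cell C) =
    2 * ppp A B C + 2 * m3 A B C + 2 * m3 A C B + 2 * m3 B C A ∧ m3 A B C = m3 B A C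

/-- **Diag** (uses `Tri`, `Cells`) Proof. (1) A pure triple with nonempty intersection has meeting normal
cones and is not counted by `dz`; so `ppp + dz ≤ a3`. (2) Every triple counted by `a3` is counted by `dz`
or by one of the three `dg` (`Tri`). (3) `a2 ≤ pp` (`Cells`), (4) if `NC p` meets `NC q` for some `p, q`
then `1 ≤ mm` (`Cells`); so `1 ≤ mm (A i) (A j)` if both have one element. -/
def StmtDiag : Prop := ∀ A : Fin 3 → Finset Pl, Gen A →
  ppp (A 0) (A 1) (A 2) + dz (A 0) (A 1) (A 2) ≤ a3 (A 0) (A 1) (A 2) ∧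
  a3 (A 0) (A 1) (A 2) ≤ dz (A 0) (A 1) (A 2) + dg (A 0) (A 1) (A 2) + dg (A 0) (A 2) (A 1) +
    dg (A 1) (A 2) (A 0) ∧
  (∀ i j, i ≠ j → a2 (A i) (A j) ≤ pp (A i) (A j)) ∧
  (∀ i j, i ≠ j → (A i).card = 1 → (A j).card = 1 → 1 ≤ mm (A i) (A j))

open Classical in
/-- `1` if no `A i` is a point and there is a `w` with all `psi` positive -/
noncomputable def be (A : Fin 3 → Finset Pl) : ℕ :=
  if (∀ i, (A i).card ≠ 1) ∧ (Apos A).Nonempty then 1 else 0

/-- **Last** (helper21) the last chamber: if `Apos` is nonempty and all mixed pairs meet then there is an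
off-diagonal adjacent empty mixed triple. -/
def StmtLast : Prop := ∀ A : Fin 3 → Finset Pl, Gen A → (∀ i, (A i).card ≠ 1) → (Apos A).Nonempty →
  (∀ i j, i ≠ j → ∀ p ∈ A i, ∀ q ∈ A j, (cU (A i) p ∩ cP (A j) q).Nonempty) →
  ∃ i j k, i ≠ j ∧ i ≠ k ∧ j ≠ k ∧ OffEmpty (A i) (A j) (A k)

/-- **Count** (uses `A2`, `A3`, `M3b`, `Dec2`, `Dec3`, `Diag`, `Last`). Proof. Write `v i = |A i|`,
`mm i j`, .... By `Diag`: `ppp + m3 (01;2) + m3 (02;1) + m3 (12;0) ≤ (a3 - dz) + ∑ (bound of M3b) - ∑ dg ≤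
∑ (bound of M3b)`. `N3 = 2 (ppp + ∑ m3)`, `N2 (i j) = 2 pp + 2 mm ≥ 2 a2 + 2 mm`.
(a) all `v i ≠ 1`: `∑ bounds = 2 (mm 01 + mm 02 + mm 12)` (`mm` symmetric), `∑ a2 = 2 (v 0 + v 1 + v 2)`, so
`N3 + 2 v - ∑ N2 ≤ 2 ∑ mm - 2 v ≤ 2 e₂ - 2 v`, with `VV = e₂ + 2`, `a123 = v`, `al = 1`. If `be = 1` we
need `2` less: if some mixed pair does not meet then `∑ mm ≤ e₂ - 1`; otherwise `Last` gives
`OffEmpty (A i) (A j) (A k)` for some distinct `i, j, k` (`m3`, `mm` are symmetric in the first two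
arguments, also `dg`, `OffEmpty`), and the bound for this triple is one less.
(b) exactly one `v k = 1`: bounds `m3 (ij;k) + dg ≤ mm ik + mm jk`, `m3 (ik;j) + dg ≤ mm ij`,
`m3 (jk;i) + dg ≤ mm ij`; `∑ a2 = 2 (v i + v j)`; `N3 + 2 v - ∑ N2 ≤ 2 mm ij + 2 - 2 (v i + v j)
≤ 2 v i v j + 2 - 2 (v i + v j)`.
(c) `v j = v k = 1`, `v i ≠ 1`: bounds `m3 (ij;k) ≤ mm ik`, `m3 (ik;j) ≤ mm ij`, `m3 (jk;i) ≤ mm ij` (with
`dg`); `∑ a2 = 2 v i + 1`; `N3 + 2 v - ∑ N2 ≤ 2 mm ij + 2 - 2 v i - 2 mm jk ≤ 0` (`mm ij ≤ v i`,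
`mm jk ≥ 1`). (d) all `v i = 1`: each bound `≤ 1`, `∑ a2 = 3`, `mm ≥ 1`: `6 + 6 - 12 = 0`. -/
def StmtCount : Prop := ∀ (_ : EulD Pl 2) (A : Fin 3 → Finset Pl), Gen A →
  (n3 (lab (A 0)) (lab (A 1)) (lab (A 2)) (cell (A 0)) (cell (A 1)) (cell (A 2)) : ℤ) +
    2 * ((A 0).card + (A 1).card + (A 2).card) + 2 * be A ≤
  n2 (lab (A 0)) (lab (A 1)) (cell (A 0)) (cell (A 1)) +
    n2 (lab (A 0)) (lab (A 2)) (cell (A 0)) (cell (A 2)) +
    n2 (lab (A 1)) (lab (A 2)) (cell (A 1)) (cell (A 2)) +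
    2 * ((VV fun i => (A i).card) - 1 - (a123 fun i => (A i).card) - (al fun i => (A i).card))

/-! ## Crossing pairs -/

/-- **QFin** (uses `CLdef`) the crossing pairs form finitely many rays. Proof. Let `x = (w', w) ∈ QQ A`. For
every `i` choose a reason (`EE_iff`): `X` if `psi w = psi w'`: then `dt p w = dt q w'` for minimizers
`p, q ∈ A i` at `w`, `w'`; `Y` if `psi w < psi w'`, `w ∈ CL (A i)`: then `dt p w = dt q w` for some `p ≠ q`
in `A i`; `Y'` if `psi w' < psi w`, `w' ∈ CL (A i)`: `dt p w' = dt q w'`, `p ≠ q`. There are finitely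
many combinations `τ` of reasons (types and `p i, q i`). Claim: two elements `x, y = (u', u)` of `QQ A`
with the same `τ` are proportional, `y = c • x`. So there are at most two elements of norm one for every
`τ`. `XXX`: put `z i = dt (p i) w = dt (q i) w'`; `∑ nrm p i * z i = 0`, `∑ nrm q i * z i = 0` (identity).
`p ≠ q`, otherwise `dt (p i) (w - w') = 0` for all `i`, `w = w'` (`g1`). By `g4` the solutions `z` of the
two equations form a line; `z ≠ 0` (otherwise `w = w' = 0`); so `z y = c • z x`, and `u = c w`, `u' = c w'`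
as `p 0, p 1` and `q 0, q 1` are bases. One `Y` (at `i`), the others `X`: `w ≠ 0` (otherwise
`dt (q j) w' = dt (q k) w' = 0`, `w' = 0 = w`), `w, u` are on the line orthogonal to `p i - q i`, so
`u = c w`; `dt (q j) u' = c dt (q j) w'` and the same for `k`: `u' = c w'`. `Y` at `i`, `Y'` at `j`, `X` at
`k`: `w = 0` would give `dt (q k) w' = 0`, `w' = 0` by `CLdef` (4), no; so `w, w' ≠ 0` and
`u = c w`, `u' = c' w'`, `dt (p k) w = dt (q k) w' ≠ 0` (`CLdef` (4)), so `c = c'`. `Y` at `i, j`: `w = 0`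
(`CLdef` (3)), also `u = 0`. If the third is `X`: `dt (q k) w' = 0`, `w'` is on a line (`q k ≠ 0`), `w' ≠ 0`.
If it is `Y'`: `w'` is on the line orthogonal to `p k - q k`. If it is `Y`: `psi (A i) w' > psi (A i) 0 = 0`
for all `i`, so `w' ∈ Apos`, excluded. The other cases follow by exchanging `w` and `w'`
(`Y'` at two places: `w' = 0`). -/
def StmtQFin : Prop := ∀ A : Fin 3 → Finset Pl, Gen A → (QN A).Finite

/-- **EDec** (uses `CLdef`) decomposition of the triple intersection. Proof. If `x.1 = x.2` then `x ∈ EE`.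
If `x.1 = 0`, `x.2 ∈ Apos`: `psi x.1 = 0 < psi x.2`, so `x ∈ EE (A i)` iff `0 ∈ CL (A i)` iff
`|A i| ≠ 1`. The four sets on the right are disjoint (`0 ∉ Apos`). -/
def StmtEDec : Prop := ∀ A : Fin 3 → Finset Pl, Gen A →
  ind {x : Pl × Pl | ∀ i, x ∈ EE (A i)} = ind {x : Pl × Pl | x.1 = x.2} + ind (QQ A) +
    fun x => (al fun i => (A i).card : ℤ) *
      (ind {x : Pl × Pl | x.1 = 0 ∧ x.2 ∈ Apos A} x + ind {x : Pl × Pl | x.2 = 0 ∧ x.1 ∈ Apos A} x)

/-- **R4** (uses `EDec`, `QFin`, `Cone`) Proof. Integrate `EDec`, for the product `E.prod E`. Diagonal: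
every section is a point, integral `1`, and the integral of the constant `1` in the plane is
`(-1)^2 = 1`. `QQ`: a cone without `0` (`psi_smul`, `CL_smul`, `EE_iff`), `Cone`: `- ncard`. The last
two: `Apos` is open and convex (`psi_cont`, `psi_concave`); if it is nonempty the integrals are
`1` (section `Apos` over `0`, respectively a point over `Apos`), if it is empty they are `0`. -/
def StmtR4 : Prop := ∀ (E : EulD Pl 2) (A : Fin 3 → Finset Pl), Gen A →
  (E.prod E).rel (ind {x : Pl × Pl | ∀ i, x ∈ EE (A i)}) (1 + 2 * be A - ((QN A).ncard : ℤ))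

/-- **QNum** (uses `R4`, `IE`, `Cells`) the number of crossings. Proof. `IE` for `E.prod E` (dimension
`2 + 2`), the labels `lab (A i)` and the cells `cell (A i)` (open, convex, disjoint: `cell_false`, ..;
disjoint since the label is the unique minimum: if `(p, b) ≠ (q, c)` and `x` is in both cells: for `b = c`
`NC_unique`, for `b ≠ c` `psi x.1 < psi x.2 < psi x.1`); all cells are nonempty (`Cells`), so
`n1 = 2 |A i|`; `{x | ∀ i, ∀ k ∈ lab (A i), x ∉ cell (A i) k} = {x | ∀ i, x ∈ EE (A i)}` by definition.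
Compare with `R4`. -/
def StmtQNum : Prop := ∀ (_ : EulD Pl 2) (A : Fin 3 → Finset Pl), Gen A →
  ((QN A).ncard : ℤ) = 2 * be A + 2 * ((A 0).card + (A 1).card + (A 2).card) +
    n3 (lab (A 0)) (lab (A 1)) (lab (A 2)) (cell (A 0)) (cell (A 1)) (cell (A 2)) -
    (n2 (lab (A 0)) (lab (A 1)) (cell (A 0)) (cell (A 1)) +
    n2 (lab (A 0)) (lab (A 2)) (cell (A 0)) (cell (A 2)) +
    n2 (lab (A 1)) (lab (A 2)) (cell (A 1)) (cell (A 2)))

/-! ## The surface in space -/

/-- the point with two witnesses -/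
noncomputable def zeta (A : Fin 3 → Finset Pl) (x : Pl × Pl) : Sp :=
  fun i => max (psi (A i) x.1) (psi (A i) x.2)

/-- **Pair** (uses `CLdef`) two witnesses. Proof. (1) Let `w ≠ w'` be witnesses of `z` and `w, w'` not
excluded. Suppose `z i > psi w`, `z i > psi w'` (for `A i`) for some `i`; then `w, w' ∈ CL (A i)`. If
`w = 0` (or symmetrically `w' = 0`): `w' ≠ 0`, `w' ∉ CL (A j)` for `j ≠ i`, so `z j = psi w' `; `z j ≥
psi 0 = 0` and `z j ≠ 0` by `CLdef` (4) (`psi w' = dt q w'`); and `z i > 0`; so `z ∈ oct`, `w = 0` is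
excluded. If `w, w' ≠ 0`: for `j ≠ i` neither is in `CL (A j)`, so `z j = psi w = psi w'`. Let `p ≠ p'`,
`q ≠ q'` in `A i` be minimizers at `w`, `w'`: `w = a (-(p-p').2, (p-p').1)`, `w' = a' (-(q-q').2,
(q-q').1)`, `a, a' ≠ 0` (dt s w = a cr (p-p') s), and for the minimizers `s, s' ∈ A j`, `r, r' ∈ A k` at
`w, w'`: `a cr (p-p') s = a' cr (q-q') s'`, `a cr (p-p') r = a' cr (q-q') r'`, so
`cr (p-p') s * cr (q-q') r' = cr (p-p') r * cr (q-q') s'`, and by `g7` `s = s'`, and `q - q' = ± (p - p')`;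
so `w' = c w`, `dt s w = c dt s w`, `dt s w ≠ 0`, `c = 1`, contradiction. So `z i = max` for all `i`.
`x = (w', w) ∈ EE (A i)` by `EE_iff`: if `psi w < psi w' = z i` then `w ∈ CL`. `x ∈ QQ`: if `w' = 0` and
`w ∈ Apos` then `z ∈ oct` and `w'` is excluded. (2) Let `(w', w) ∈ QQ`, `z = zeta`. `Wit A z w`: if
`psi w < z i = psi w'` then `w ∈ CL` by `EE_iff`. If `w = 0` and `z ∈ oct` then
`psi w' > 0` for all `i` (`psi 0 = 0`), `w' ∈ Apos`, no. `z ≠ 0`: if `z = 0` then `w, w'` are witnesses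
of `0`, so `w = w' = 0` by (3). (3) Let `Wit A 0 w`, `w ≠ 0`: `w ∈ CL (A i)` for at most one `i`, so for two
indices `j ≠ k` `psi w = 0`: `dt s w = dt r w = 0`, contradiction to `cr s r ≠ 0` (`g1`). -/
def StmtPair : Prop := ∀ A : Fin 3 → Finset Pl, Gen A →
  (∀ z w w', Wit A z w → Wit A z w' → w ≠ w' → ¬ (w = 0 ∧ z ∈ oct) → ¬ (w' = 0 ∧ z ∈ oct) →
    (w', w) ∈ QQ A ∧ z = zeta A (w', w)) ∧
  (∀ x ∈ QQ A, Wit A (zeta A x) x.1 ∧ Wit A (zeta A x) x.2 ∧ ¬ (x.1 = 0 ∧ zeta A x ∈ oct) ∧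
    ¬ (x.2 = 0 ∧ zeta A x ∈ oct) ∧ zeta A x ≠ 0) ∧
  (∀ w, Wit A 0 w → w = 0)

/-- **SFin** (uses `Pair`, `QFin`) finitely many witnesses. Proof. `z = 0`: `Pair` (3). `z ≠ 0`: for fixed
`w'` not excluded, every other `w` not excluded gives `x = (w', w) ∈ QQ`, `zeta x = z`; normalized,
`x = t • y`, `y ∈ QN`, `z = t • zeta y` determines `t` (`zeta y ≠ 0`): finitely many `x`. -/
def StmtSFin : Prop := ∀ A : Fin 3 → Finset Pl, Gen A → ∀ z, {w | Wit A z w}.Finite

/-- **R5** (uses `IE`, `A2`, `A3`) the integral of the incidence set. Proof. `IE` in `ℝ³ × ℝ²`, points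
`y = (z, w)`, labels `Option Pl`, `K i = insert none ((A i).image some)`, `U i (some p) = {y | y.2 ∈ NC (A i)
p ∧ dt p y.2 < y.1 i}`, `U i none = {y | y.1 i < psi (A i) y.2}`; open, convex, disjoint; the complement of
all of them is `{y | Wit A y.1 y.2}` (`z i < psi w`, or `w ∈ NC p` and `z i > psi w`, are the negations).
Nonempty: all single ones (`n1 = |A i| + 1`); pairs: `(some p, some q)` iff `NC p` meets `NC q` (take `z i`
large), `(some p, none)`, `(none, none)` always: `n2 = a2 + |A i| + |A j| + 1`; triples: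
`(some, some, some)` `a3`; two `some`: `a2`; one `some`: `|A i|`; none: `1`. So the integral is
`(-1)^5 (1 - (v + 3) + (∑ a2 + 2 v + 3) - (a3 + ∑ a2 + v + 1)) = a3`. -/
def StmtR5 : Prop := ∀ (E3 : EulD Sp 3) (E2 : EulD Pl 2) (A : Fin 3 → Finset Pl), Gen A →
  (E3.prod E2).rel (ind {y : Sp × Pl | Wit A y.1 y.2}) (a3 (A 0) (A 1) (A 2))

/-- **WNum** (uses `R5`, `SFin`, `Fin`) the number of witnesses has the integral `a3`: by the definition of
the product there is `g` with `E2.rel (ind {w | Wit A z w}) (g z)`, `E3.rel g a3`; `g z = ncard` by `Fin`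
and uniqueness. -/
def StmtWNum : Prop := ∀ (E3 : EulD Sp 3) (_ : EulD Pl 2) (A : Fin 3 → Finset Pl), Gen A →
  E3.rel (fun z => ({w | Wit A z w}.ncard : ℤ)) (a3 (A 0) (A 1) (A 2))

/-- **PNum** (uses `Pair`, `QFin`, `SFin`) counting ordered pairs of witnesses. Proof. Let `S` be the finite
set on the left, `k = ncard S`. The ordered pairs `(w', w)` of different elements of `S` are the
`x ∈ QQ` with `zeta x = z` (`Pair`); `x ↦ ‖x‖⁻¹ • x` is a bijection from them to
`{y ∈ QN | z ∈ ray (zeta y)}` (`zeta (t • x) = t • zeta x`, and `t` is determined by `z = t • zeta y`). -/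
def StmtPNum : Prop := ∀ A : Fin 3 → Finset Pl, Gen A → ∀ z : Sp, z ≠ 0 →
  ({w | Wit A z w ∧ ¬ (w = 0 ∧ z ∈ oct)}.ncard : ℤ) *
    ({w | Wit A z w ∧ ¬ (w = 0 ∧ z ∈ oct)}.ncard - 1) = {y | y ∈ QN A ∧ z ∈ ray (zeta A y)}.ncard

/-- **R3** (uses `TropR`, `WNum`, `PNum`, `Pair`, `QFin`, `SFin`, `CLdef`) Proof. Put
`n z = ncard {w | Wit A z w}`, `o z = al * ind oct z`, `q z = ∑ y ∈ QN, ind (ray (zeta y)) z`. Their
integrals are `a3`, `- al` (`oct` is open and convex, `(-1)^3`), `- ncard QN`. Put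
`δ z = 2 ind (trop M) z - 2 (n z - o z) + q z`; its integral is `2 (nv M - 1) - 2 (a3 + al) - ncard QN`.
Claim: `δ ≥ 0`, `δ 0 = 0`, `δ (t • z) = δ z` for `t > 0`, and `δ z ≠ 0` implies `z ∈ ray (zeta y)` for some
`y ∈ QN`. Then the set of `z` with `δ z ≠ 0` is a union of finitely many rays, `δ` is a combination of
indicator functions of rays with nonnegative coefficients and its integral is `≤ 0`, which is the claim.
Let `k z = ncard {w | Wit A z w ∧ ¬ (w = 0 ∧ z ∈ oct)}`. `n z - o z = k z`: if `z ∉ oct` clear; if `z ∈ oct`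
then `Wit A z 0` iff `0 ∈ CL (A i)` for all `i` (`psi 0 = 0 < z i`) iff `al = 1`. `z ∈ trop M = Gam A` iff
`k z ≥ 1`. For `z ≠ 0`: `q z = k (k - 1)` (`PNum`), so `δ z = 0` if `k = 0` and `δ z = (k - 1)(k - 2)` if
`k ≥ 1`. For `z = 0`: `k = 1` (`Pair` (3), and `0` is a witness), `q 0 = 0` (`zeta y ≠ 0`), `δ = 0`.
Homogeneity: `Wit A (t • z) (t • w)` iff `Wit A z w`. -/
def StmtR3 : Prop := ∀ (_ : EulD Sp 3) (_ : EulD Pl 2) (A : Fin 3 → Finset Pl), Gen A →
  ∀ M : Finset Sp, M.Nonempty → trop M = Gam A →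
    2 * (nv M : ℤ) ≤ 2 + 2 * a3 (A 0) (A 1) (A 2) + 2 * (al fun i => (A i).card) + (QN A).ncard

/-- **Upper** (uses `R3`, `QNum`, `Count`, `A3`, `EulSp`) the bound in general position: add up. -/
def StmtUpper : Prop := ∀ A : Fin 3 → Finset Pl, Gen A → ∀ M : Finset Sp, M.Nonempty →
  trop M = Gam A → nv M ≤ VV fun i => (A i).card

end Pool.Agent.Lib.MP_4e7804_co.N3
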