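import Pool.Agent.Lib.MP_4e7804_co.N3.Base2

/-!
# n = 3, second block: the tropical hypersurface of the implicit equation, perturbation

Same conventions as in `Spec.lean`; the files import `Pool.Agent.Lib.MP_4e7804_co.N3.Spec2`.
-/

set_option autoImplicit false

namespace Pool.Agent.Lib.MP_4e7804_co.N3

open MvPolynomial

/-! ## Valued fields -/

/-- **VF** a valued algebraically closed field with generic points. Proof. Let
`k = FractionRing (MvPolynomial (Fin 2) ℂ)` (a field), `K = LaurentSeries k` with its `X`-adic valuation,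
a complete field (`LaurentSeries` file of Mathlib: `Valued K ℤᵐ⁰`, `instLaurentSeriesComplete`,
`valuation_single_zpow`), which is of rank one (`Valuation.RankOne`, see
`Mathlib/RingTheory/Valuation/Discrete/RankOne.lean`, `Mathlib/RingTheory/Valuation/RankOne.lean`), so
`Valued.toNontriviallyNormedField` gives a norm, ultrametric. `L = AlgebraicClosure K` with
`spectralNorm K L` (multiplicative by `spectralNorm_mul`, ultrametric
`isNonarchimedean_spectralNorm`, extends the norm of `K`). Let `g = -log ‖X‖ > 0`, `nm x =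
(spectralNorm x) ^ (1 / g)` (real power), so `nm X = exp (-1)`. Trivial on `ℂ` (nonzero constants have
valuation `1`). Generic point: `x j = a_j X^(z j)`, `a_j` the image of the variable `X_j` in `k`. For
`G = ∑ g_m Y^m`: `aeval x G = ∑_m g_m a^m X^(z · m)`; grouping by `e = z · m` the coefficient of `X^e` is the
image of the polynomial `∑_{z·m = e} g_m Y^m`, which is not zero in `k` if some `m` in the support has
`z · m = e`; so the order is the minimum of `z · m` over the support. -/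
def StmtVF : Prop := ∃ (L : Type) (_ : Field L) (_ : Algebra ℂ L) (_ : IsAlgClosed L) (v : VF L),
  ∀ z : Fin 2 → ℤ, ∃ x : Fin 2 → L, GenPt v z x

/-- **Root** Newton polygon. Proof. Suppose no root of `G` has norm `ρ`. Claim: for every polynomial
`H ≠ 0` all of whose roots have norm `≠ ρ` there is `k₀` with `nm (H_m) ρ^m < nm (H_k₀) ρ^k₀` for all
`m ≠ k₀`. This contradicts the hypotheses (`k ≠ l` are both maximal, `G.coeff k ≠ 0`). `H` splits
(`IsAlgClosed.splits`): induction on the number of roots, `H = (X - r) H₁`, `k₀` for `H₁`, `N = nm (H₁ k₀)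
ρ^k₀`. If `nm r < ρ` take `k₀ + 1`: the coefficient is `H₁ k₀ - r H₁ (k₀+1)` with norm exactly `nm (H₁ k₀)`
(the other term is strictly smaller), value `ρ N`, and for `m ≠ k₀ + 1` both terms of `H₁ (m-1) - r H₁ m`
give values `< ρ N`. If `nm r > ρ` take `k₀`: value `nm r · N`. -/
def StmtRoot : Prop := ∀ (L : Type) (_ : Field L) (_ : Algebra ℂ L) (_ : IsAlgClosed L) (v : VF L)
  (G : Polynomial L) (ρ : ℝ), 0 < ρ → ∀ k l : ℕ, k ≠ l → G.coeff k ≠ 0 →
  (∀ m, v.nm (G.coeff m) * ρ ^ m ≤ v.nm (G.coeff k) * ρ ^ k) →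
  (∀ m, v.nm (G.coeff m) * ρ ^ m ≤ v.nm (G.coeff l) * ρ ^ l) → ∃ r, v.nm r = ρ ∧ G.eval r = 0

/-- **Clr** clearing denominators. Proof. (1) Let `N_i` be larger than all `|p k|`, `p ∈ S i`; then
`(t 0 * t 1)^(N_i) * evL (S i) (c i) t = aeval t H_i`, `H_i = ∑ C (c p) X_0^(p 0 + N_i) X_1^(p 1 + N_i)`.
Induction on `G` (`MvPolynomial.induction_on`: constants, sums with a common power, products with `X i`).
(2) If `G` vanishes on the complex torus then `H` of (1) vanishes at all `t ∈ ℂ²` with `t 0, t 1 ≠ 0`, so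
`H * X 0 * X 1` vanishes everywhere, `H = 0` (`MvPolynomial.funext`), and `(t 0 * t 1)^N ≠ 0` in a field
(`evC` is `evL` over `ℂ`). (3) Conversely if `aeval _ G = 0` for the generic point over
`FractionRing (MvPolynomial (Fin 2) ℂ)`, then `H = 0` and `G` vanishes on the complex torus. -/
def StmtClr : Prop := ∀ (S : Fin 3 → Finset (Fin 2 → ℤ)) (c : Fin 3 → (Fin 2 → ℤ) → ℂ)
  (G : MvPolynomial (Fin 3) ℂ),
  (∃ (N : ℕ) (H : MvPolynomial (Fin 2) ℂ), ∀ (L : Type) (_ : Field L) (_ : Algebra ℂ L)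
    (t : Fin 2 → L), (∀ k, t k ≠ 0) →
      (t 0 * t 1) ^ N * aeval (fun i => evL (S i) (c i) t) G = aeval t H) ∧
  ((∀ t : Fin 2 → ℂ, (∀ k, t k ≠ 0) → eval (fun i => evC (S i) (c i) t) G = 0) →
    ∀ (L : Type) (_ : Field L) (_ : Algebra ℂ L) (t : Fin 2 → L), (∀ k, t k ≠ 0) →
      aeval (fun i => evL (S i) (c i) t) G = 0) ∧
  (aeval (fun i => evL (S i) (c i) (fun k => algebraMap (MvPolynomial (Fin 2) ℂ)
      (FractionRing (MvPolynomial (Fin 2) ℂ)) (X k))) G = 0 →
    ∀ t : Fin 2 → ℂ, (∀ k, t k ≠ 0) → eval (fun i => evC (S i) (c i) t) G = 0)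

/-- **Tie** a zero forces a tie. Proof. With `z i = - log (nm (x i))` the term `F_m x^m` has the norm
`exp (- z · m)`. If the minimum of `z · m` over the support is attained only once (`m₀`; the support is not
empty), then `nm (aeval x F) = exp (- z · m₀) ≠ 0` (ultrametric: `nm (a + b) = nm a` if `nm b < nm a`,
from `add`, `mul`, `nm (-1) = 1`). So there are two minimal exponents; they give different points of
`Mx F`. -/
def StmtTie : Prop := ∀ (L : Type) (_ : Field L) (_ : Algebra ℂ L) (v : VF L)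
  (F : MvPolynomial (Fin 3) ℂ) (x : Fin 3 → L), F ≠ 0 → (∀ i, x i ≠ 0) → aeval x F = 0 →
    (fun i => -Real.log (v.nm (x i))) ∈ trop (Mx F)

/-- **Point** (uses `Root`) a point of the hypersurface with given norms. Proof. Let `m ≠ m'` be exponents
in the support of `F` with minimal `k · m = k · m'`, `a` an index with `m a ≠ m' a`, `b, c` the other two
indices. Let `y` be a generic point for `(k b, k c)`, `x b = y 0`, `x c = y 1`. Write `F = ∑_j F_j X_a^j`,
`F_j` a polynomial in `X_b, X_c`, and `g_j` its value; if `F_j ≠ 0`, `nm g_j = exp (- min)`, the minimum of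
`k b * m b + k c * m c` over the exponents of `F` with `m a = j`. With `ρ = exp (- k a)`,
`nm g_j ρ^j ≤ exp (- k · m)` with equality for `j = m a` and `j = m' a`. `Root` gives `x a` with
`nm = exp (- k a)`, `aeval x F = 0`. `degreeOf a F > 0` as `m a ≠ m' a`. If `degreeOf a G = 0`, `G ≠ 0`, then
`aeval x G` is the value at `y` of a nonzero polynomial in two variables, so it is not zero. -/
def StmtPoint : Prop := ∀ (L : Type) (_ : Field L) (_ : Algebra ℂ L) (_ : IsAlgClosed L) (v : VF L),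
  (∀ z : Fin 2 → ℤ, ∃ x : Fin 2 → L, GenPt v z x) → ∀ (F : MvPolynomial (Fin 3) ℂ)
  (k : Fin 3 → ℤ), F ≠ 0 → (fun i => (k i : ℝ)) ∈ trop (Mx F) →
  ∃ (a : Fin 3) (x : Fin 3 → L), (∀ i, v.nm (x i) = Real.exp (-(k i : ℝ))) ∧ aeval x F = 0 ∧
    F.degreeOf a ≠ 0 ∧ ∀ G : MvPolynomial (Fin 3) ℂ, G.degreeOf a = 0 → aeval x G = 0 → G = 0

/-- **Alg3** relations of three elements. Proof. Let `x` be a point over a field `Ω ⊇ ℂ`, `F` irreducible
with `aeval x F = 0`, `degreeOf a F > 0`, and no nonzero polynomial without `X_a` vanishes at `x`. Then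
`aeval x G = 0` iff `F ∣ G`. Let `aeval x G = 0`, `F ∤ G`. View `F, G` as polynomials in `X_a` over
`R = ℂ[X_b, X_c]` with fraction field `Q`: `F` is primitive and irreducible over `Q` (Gauss lemma,
`Polynomial.IsPrimitive.irreducible_iff_irreducible_map_fraction_map`), and `F ∤ G` over `Q`
(`IsPrimitive.dvd_of_fraction_map_dvd_fraction_map`), so they are coprime over `Q`; clearing denominators
`U F + V G = r`, `0 ≠ r ∈ R`, and `r` vanishes at `x`: contradiction. (Or: the quotient by `(F)` is a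
domain algebraic over `R`, and a nonzero ideal of it meets `R` in a nonzero ideal, Mathlib
`Ideal.comap_ne_bot_of_algebraic_mem`.) -/
def StmtAlg3 : Prop := ∀ (Ω : Type) (_ : Field Ω) (_ : Algebra ℂ Ω) (x : Fin 3 → Ω)
  (F : MvPolynomial (Fin 3) ℂ) (a : Fin 3), Irreducible F → aeval x F = 0 → F.degreeOf a ≠ 0 →
  (∀ G : MvPolynomial (Fin 3) ℂ, G.degreeOf a = 0 → aeval x G = 0 → G = 0) →
    ∀ G : MvPolynomial (Fin 3) ℂ, aeval x G = 0 ↔ F ∣ G

/-- **Lift** (uses `Clr`, `Alg3`) a generic zero of `F` comes from a point of the torus. Proof. Let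
`D = MvPolynomial (Fin 3) ℂ ⧸ span {F}` (a domain, `F` prime), `Kf = FractionRing (MvPolynomial (Fin 2) ℂ)`,
`T k` the variables in `Kf`. `φ : D → Kf`, `X i ↦ evL (S i) (c i) T`, well defined by `Clr` (2), injective by
`Clr` (3) and `Imp`. `ψ : D → L`, `X i ↦ x i`, injective by `Alg3`. `Kf` is algebraic over `D`: for the two
indices `b, c ≠ a` the elements `φ X_b, φ X_c` are algebraically independent over `ℂ` (a relation `R` without
`X_a` is divisible by `F`, and `degreeOf a F ≠ 0` forces `R = 0`), and the transcendence degree of `Kf` over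
`ℂ` is `2`, so `Kf` is algebraic over `ℂ(φ X_b, φ X_c)` (`IsTranscendenceBasis` of the right cardinality). So
`IsAlgClosed.lift : Kf →ₐ[D] L` exists (with the algebra structures `φ.toAlgebra`, `ψ.toAlgebra`); let `t k`
be the image of `T k` (not zero, the map is injective); the image of `evL _ _ T` is `evL _ _ t` and it is
`ψ X_i = x i`. -/
def StmtLift : Prop := ∀ (S : Fin 3 → Finset (Fin 2 → ℤ)) (c : Fin 3 → (Fin 2 → ℤ) → ℂ)
  (F : MvPolynomial (Fin 3) ℂ), Imp S c F → ∀ (L : Type) (_ : Field L) (_ : Algebra ℂ L)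
  (_ : IsAlgClosed L) (x : Fin 3 → L) (a : Fin 3), aeval x F = 0 → F.degreeOf a ≠ 0 →
  (∀ G : MvPolynomial (Fin 3) ℂ, G.degreeOf a = 0 → aeval x G = 0 → G = 0) →
    ∃ t : Fin 2 → L, (∀ k, t k ≠ 0) ∧ ∀ i, evL (S i) (c i) t = x i

/-! ## Counting parameters -/

/-- **Cnt** an algebraically independent family in an algebraic extension of `ℚ(g)` is not larger than
`g`. Proof: transcendence degree (Mathlib `RingTheory/AlgebraicIndependent/TranscendenceBasis`, matroid
properties; `Algebra.trdeg`). -/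
def StmtCnt : Prop := ∀ (Ω : Type) (_ : Field Ω) (_ : Algebra ℚ Ω) (ι κ : Type) (_ : Fintype ι)
  (_ : Fintype κ) (x : ι → Ω) (g : κ → Ω), AlgebraicIndependent ℚ x →
  (∀ i, IsAlgebraic (IntermediateField.adjoin ℚ (Set.range g)) (x i)) →
    Fintype.card ι ≤ Fintype.card κ

/-- **NoZ** (uses `Cnt`) `m` parameters cannot solve `m + 1` equations. Proof. The images of the
coefficients in `Ω` are algebraically independent over `ℚ` (`ℂ → Ω` is injective). For `i ∈ J` choose
`p_i ∈ E i`; the equation gives `c i (p_i) = - (u i p_i)⁻¹ ∑_{p ≠ p_i} c i p * u i p`, in the field generated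
by the other coefficients and `τ`. So all `N` coefficients are in the field generated by `N - (m+1)`
coefficients and `m` elements `τ`: contradiction to `Cnt`. -/
def StmtNoZ : Prop := ∀ (S : Fin 3 → Finset (Fin 2 → ℤ)) (c : Fin 3 → (Fin 2 → ℤ) → ℂ), Ind S c →
  ∀ (Ω : Type) (_ : Field Ω) (_ : Algebra ℂ Ω) (_ : Algebra ℚ Ω) (m : ℕ) (τ : Fin m → Ω)
  (J : Finset (Fin 3)), J.card = m + 1 → ∀ u : Fin 3 → (Fin 2 → ℤ) → Ω,
  (∀ i p, u i p ∈ IntermediateField.adjoin ℚ (Set.range τ) ∧ u i p ≠ 0) →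
  ∀ E : Fin 3 → Finset (Fin 2 → ℤ), (∀ i ∈ J, (E i).Nonempty ∧ E i ⊆ S i) →
  (∀ i ∈ J, ∑ p ∈ E i, algebraMap ℂ Ω (c i p) * u i p = 0) → False

/-- **NoZ2** (uses `Cnt`) the common zeros of two of the polynomials are algebraic over the coefficients.
Proof. Suppose the coefficients and `t k` form an algebraically independent family (`N + 1` elements). As
in `NoZ`, two coefficients (one of colour `i`, one of colour `j`) are in the field generated by the other
`N - 2` coefficients and `t 0, t 1`; so all the `N + 1` elements are in a field generated by `N` elements: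
contradiction to `Cnt`. -/
def StmtNoZ2 : Prop := ∀ (S : Fin 3 → Finset (Fin 2 → ℤ)) (c : Fin 3 → (Fin 2 → ℤ) → ℂ), Ind S c →
  ∀ i j, i ≠ j → (S i).Nonempty → (S j).Nonempty → ∀ t : Fin 2 → ℂ, (∀ k, t k ≠ 0) →
  evC (S i) (c i) t = 0 → evC (S j) (c j) t = 0 → ∀ k,
    ¬ AlgebraicIndependent ℚ (fun o : Option (Σ i : Fin 3, {p // p ∈ S i}) =>
      o.elim (t k) fun x => c x.1 x.2.1)

/-! ## The tropical hypersurface is contained in the surface -/

/-- the exponent of the norms of `t` -/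
noncomputable def wt {L : Type} [Field L] [Algebra ℂ L] (v : VF L) (t : Fin 2 → L) : Pl :=
  (-Real.log (v.nm (t 0)), -Real.log (v.nm (t 1)))

/-- **Val** norms of the values. Proof. The term `c_p t^p` has the norm `exp (- dt (toPl p) w)`,
`w = wt v t`. For `p ∈ S`: `psi (rv W) w ≤ dt (toPl p) w` (`toPl p` is in the hull of `rv W`, `dt _ w` is
linear); so `nm (evL S c t) ≤ exp (- psi)`: (1). If `w ∉ CL`, `w ∈ NC (rv W) (toPl q)` for some `q ∈ W`, and
`dt (toPl q) w < dt (toPl p) w` for all `p ∈ S`, `p ≠ q` (`toPl p` is a convex combination of points of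
`rv W`, not all the weight on `toPl q`); so the norm is exactly `exp (- psi)`. (3) If the norm of the value
is smaller than `exp (- psi)` then the sum over the minimal `p` has norm smaller than `exp (- psi)`, since
the other terms have smaller norm. -/
def StmtVal : Prop := ∀ (L : Type) (_ : Field L) (_ : Algebra ℂ L) (v : VF L)
  (S W : Finset (Fin 2 → ℤ)) (c : (Fin 2 → ℤ) → ℂ), CP W → W ⊆ S →
  (∀ p ∈ S, toPl p ∈ convexHull ℝ (rv W : Set Pl)) → (∀ p ∈ S, c p ≠ 0) →
  ∀ t : Fin 2 → L, (∀ k, t k ≠ 0) →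
    v.nm (evL S c t) ≤ Real.exp (-psi (rv W) (wt v t)) ∧
    (wt v t ∉ CL (rv W) → v.nm (evL S c t) = Real.exp (-psi (rv W) (wt v t))) ∧
    ∀ E : Finset (Fin 2 → ℤ), (∀ p, p ∈ E ↔ p ∈ S ∧ dt (toPl p) (wt v t) = psi (rv W) (wt v t)) →
      v.nm (evL S c t) < Real.exp (-psi (rv W) (wt v t)) →
        v.nm (evL E c t) < Real.exp (-psi (rv W) (wt v t)) ∧ E.Nonempty

/-- **Res** (uses `Val`, `NoZ`) residues. Proof. `O = {x | nm x ≤ 1}` is a valuation ring (a local ring)
with maximal ideal `{nm x < 1}` and residue field `Ω ⊇ ℂ` (take for instance the quotient of the subring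
`O` by the maximal ideal; `ℂ → O → Ω`). Let `w = wt v t`, `z i = - log nm (f i)`, `f i = evL (S i) (c i) t`.
(1) `w = 0`, all `z i > 0`: the `t k` have norm `1`, the residues `τ k ≠ 0` satisfy
`∑_{p ∈ S i} c_p τ^p = 0` in `Ω` for `i = 0, 1, 2`: contradiction to `NoZ` (`m = 2`, `J = univ`,
`E i = S i`). (2) `w ≠ 0`, `i ≠ j`, `psi < z` for both: let `E i` be the set of minimal points of `S i` as in
`Val` (3), `q_i ∈ E i`: `∑_{p ∈ E i} c_p t^(p - q_i)` has norm `< 1`. All `p - q_i`, `p ∈ E i`, and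
`p - q_j`, `p ∈ E j`, are orthogonal to `w ≠ 0`; the integral vectors orthogonal to `w` are the multiples
`e u` of one vector `u` (if there is a nonzero one, divide it by the gcd of its coordinates), so
`t^(p - q_i) = (t^u)^(e p)`, `nm (t^u) = 1`; the residue `r ≠ 0` of `t^u` satisfies
`∑_{p ∈ E i} c_p r^(e p) = 0` and the same for `j`: contradiction to `NoZ` with `m = 1`, `J = {i, j}`. -/
def StmtRes : Prop := ∀ (L : Type) (_ : Field L) (_ : Algebra ℂ L) (v : VF L)
  (S W : Fin 3 → Finset (Fin 2 → ℤ)) (c : Fin 3 → (Fin 2 → ℤ) → ℂ), Supp S W → Ind S c →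
  ∀ t : Fin 2 → L, (∀ k, t k ≠ 0) → (∀ i, evL (S i) (c i) t ≠ 0) →
    ¬ (wt v t = 0 ∧ ∀ i, 0 < -Real.log (v.nm (evL (S i) (c i) t))) ∧
    (wt v t ≠ 0 → ∀ i j, psi (rv (W i)) (wt v t) < -Real.log (v.nm (evL (S i) (c i) t)) →
      psi (rv (W j)) (wt v t) < -Real.log (v.nm (evL (S j) (c j) t)) → i = j)

/-- **ValZ** (uses `VF`, `Point`, `Lift`, `Val`, `Res`) integral points of the tropical hypersurface.
Proof. Take the field of `VF`, the point `x` of `Point` (`F ≠ 0`), `t` of `Lift`, `w = wt v t`: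
`- log nm (evL (S i) (c i) t) = k i`. `Wit`: `psi ≤ k i` by `Val` (1), and equality if `w ∉ CL` by `Val` (2).
The other two conditions are `Res`. The coefficients are not zero (`Ind`). -/
def StmtValZ : Prop := ∀ (S W : Fin 3 → Finset (Fin 2 → ℤ)) (c : Fin 3 → (Fin 2 → ℤ) → ℂ)
  (F : MvPolynomial (Fin 3) ℂ), Sit S W c F → ∀ k : Fin 3 → ℤ,
    (fun i => (k i : ℝ)) ∈ trop (Mx F) → (fun i => (k i : ℝ)) ∈ GamR fun i => rv (W i)

/-- **Rat** rational approximation keeping all integral relations. Proof. Let `U` be the `ℚ`-span of the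
`x i` in `ℝ`, finite-dimensional, with a basis `b`. For rational numbers `b' j` close to `b j` let
`l : U → ℚ` be the linear map with `l (b j) = b' j` and `y i = l (x i)`. Relations are kept by linearity and
`|y i - x i| ≤ ∑ |coordinates of x i| |b' j - b j|`. -/
def StmtRat : Prop := ∀ (n : ℕ) (x : Fin n → ℝ) (ε : ℝ), 0 < ε → ∃ y : Fin n → ℚ,
  (∀ i, |(y i : ℝ) - x i| < ε) ∧ ∀ m : Fin n → ℤ, ∑ i, (m i : ℝ) * x i = 0 → ∑ i, (m i : ℚ) * y i = 0

/-- **GClo** (uses `Pair`, `CLdef`) the surface is closed. Proof. `Wit` is a closed condition on `(z, w)`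
(`psi` continuous, `CL` closed: complement of open cones). There is `C` with `‖w‖ ≤ C ‖z‖` if `Wit A z w`:
otherwise by homogeneity there are `(z n, w n)` with `Wit`, `‖w n‖ = 1`, `z n → 0`, a limit `w` has
`Wit A 0 w`, `w ≠ 0`, against `Pair` (3). Let `z n → z`, `z n ∈ Gam A` with witnesses `w n`; a subsequence
converges to `w`, `Wit A z w`. If `w = 0` and `z ∈ oct`: for large `n` `z n ∈ oct`, so `w n ≠ 0`, and
`psi (w n) < z n i` for all `i` (`psi (w n) → 0`), so `w n ∈ CL (A i)` for all `i`: contradiction to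
`CLdef` (3). -/
def StmtGClo : Prop := ∀ A : Fin 3 → Finset Pl, Gen A → IsClosed (Gam A)

/-- **TSub** (uses `ValZ`, `Rat`, `GClo`) Proof. Let `z ∈ trop (Mx F)`, `a ≠ b` minimal exponents. By `Rat`
there are rational `y` close to `z` with the same integral relations; then `a ⬝ᵥ y = b ⬝ᵥ y ≤ e ⬝ᵥ y` for
all exponents `e` (relations for equality, closeness for strict inequality), so `y ∈ trop (Mx F)`; a
positive integral multiple `N y` is integral, in `trop`, so in `GamR ⊆ Gam` by `ValZ`; so `y ∈ Gam`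
(`Wit A (N • z) (N • w)` iff `Wit A z w`). `Gam` is closed. -/
def StmtTSub : Prop := ∀ (S W : Fin 3 → Finset (Fin 2 → ℤ)) (c : Fin 3 → (Fin 2 → ℤ) → ℂ)
  (F : MvPolynomial (Fin 3) ℂ), Sit S W c F → Gen (fun i => rv (W i)) →
    trop (Mx F) ⊆ Gam fun i => rv (W i)

/-! ## The surface is contained in the tropical hypersurface -/

/-- **TClo** `trop M` is closed and stable under multiplication with `t > 0`. -/
def StmtTClo : Prop := ∀ M : Finset Sp, IsClosed (trop M) ∧
  ∀ z ∈ trop M, ∀ t : ℝ, 0 < t → t • z ∈ trop M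

/-- **Surf** (uses `VF`, `Clr`, `Tie`, `TClo`) Proof. Let first `w` be integral, `t` a generic point for `w`.
`(t 0 * t 1)^N * evL (S i) (c i) t` is the value of the polynomial `∑ c_p X_0^(p 0 + N) X_1^(p 1 + N)`, so
`nm (evL ..) = exp (- min_{p ∈ S i} dt (toPl p) w) = exp (- psi (rv (W i)) w)` (the minimum over `S i` is the
minimum over `W i`, hull). `F` vanishes by `Clr` (2) (`F ∣ F`), so `Tie` gives the claim. For rational `w`
multiply by an integer (`psi_smul`, `TClo`), for real `w` use density and closedness. -/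
def StmtSurf : Prop := ∀ (S W : Fin 3 → Finset (Fin 2 → ℤ)) (c : Fin 3 → (Fin 2 → ℤ) → ℂ)
  (F : MvPolynomial (Fin 3) ℂ), Sit S W c F → ∀ w : Pl,
    (fun i => psi (rv (W i)) w) ∈ trop (Mx F)

/-- **Spoke** (uses `VF`, `Root`, `Clr`, `Tie`, `Val`, `TClo`, `Surf`) Proof. Main case: `w` integral,
`w ≠ 0`, `l` a positive integer; `p ≠ q` in `W i` minimal at `w`, `a` a coordinate with `p a ≠ q a`, `b` the
other one. Let `y` be a generic point for `(w b, ψ + l)`, `ψ = psi (rv (W i)) w` (an integer). Put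
`t b = y 0`; we look for `t a = r` with `evL (S i) (c i) t = y 1`, that is a root of
`G = X^N (∑_{p ∈ S i} c_p (y 0)^(p b) X^(p a) - y 1)`. The coefficient of `X^(N + j)` is
`∑_{p a = j} c_p (y 0)^(p b)`, minus `y 1` if `j = 0`; by genericity (after multiplication with a power of
`y 0`) its norm is `exp (- min)`, the minimum over `p ∈ S i` with `p a = j` of `p b * w b` (and `ψ + l` if
`j = 0`), or it is `0`. With `ρ = exp (- w a)` the values are `≤ exp (- ψ) ρ^N`, with equality for `j = p a`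
and `j = q a`. `Root`: `nm r = exp (- w a)`. So `wt v t = w`, `nm (evL (S i) ..) = exp (- (ψ + l))`, and for
`j ≠ i` `w ∉ CL`, so `nm (evL (S j) ..) = exp (- psi)` by `Val` (2). `F` vanishes at this point (`Clr` (2)),
`Tie`. General case: `w ≠ 0`: `w = s • ρ₀`, `s > 0`, with `ρ₀` integral, orthogonal to `p - q`; for a
positive rational `l/N` the point for `(ρ₀, l/N)` is `1/N` times the point for `(N ρ₀, l)`, so `TClo` gives
all real `l ≥ 0` (`l = 0` is `Surf`) and all `s`. `w = 0`: then `CL (rv (W j)) = ∅` for `j ≠ i` (if `W j` has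
two elements `0 ∈ CL`), so take `w₁ ≠ 0` in `CL (rv (W i))` (`0 ∈ CL` implies two elements `p ≠ q`; the
boundary ray of a normal cone, for instance from `StmtSector`, or a vector orthogonal to an edge) and let
`ε w₁ → 0`. -/
def StmtSpoke : Prop := ∀ (S W : Fin 3 → Finset (Fin 2 → ℤ)) (c : Fin 3 → (Fin 2 → ℤ) → ℂ)
  (F : MvPolynomial (Fin 3) ℂ), Sit S W c F → ∀ (i : Fin 3) (w : Pl), w ∈ CL (rv (W i)) →
  (∀ j, j ≠ i → w ∉ CL (rv (W j))) → ∀ l : ℝ, 0 ≤ l →
    (fun j => psi (rv (W j)) w + if j = i then l else 0) ∈ trop (Mx F)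

/-- the polynomial `t^(-γ) ∑ c_p t^p` -/
noncomputable def hP (S : Finset (Fin 2 → ℤ)) (c : (Fin 2 → ℤ) → ℂ) (γ : Fin 2 → ℤ) :
    MvPolynomial (Fin 2) ℂ :=
  ∑ p ∈ S, C (c p) * (X 0 ^ (p 0 - γ 0).toNat * X 1 ^ (p 1 - γ 1).toNat)

/-- `γ` is the lower corner of `S` -/
def Corner (S : Finset (Fin 2 → ℤ)) (γ : Fin 2 → ℤ) : Prop :=
  (∀ p ∈ S, ∀ k, γ k ≤ p k) ∧ ∀ k, ∃ p ∈ S, p k = γ k

/-- **Cop** (uses `NoZ2`) two of the polynomials are relatively prime. Proof. Suppose they have a common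
nonunit divisor, so a common irreducible factor `g`. `X 0 ∤ hP (S i) ..`: putting `X 0 = 0` leaves
`∑_{p 0 = γ 0} c_p X_1^(..) ≠ 0` (a nonempty sum of different monomials with nonzero coefficients); the same
for `X 1`. So `g` is not associated to `X 0`, `X 1`. Claim: `g` has a zero `t` with `t 0, t 1 ≠ 0` and such
that the coefficients and some `t k` are algebraically independent over `ℚ`. Let `K₁` be the (countable)
field generated by the coefficients `c` and those of `g`; there are complex numbers transcendental over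
`K₁` (the algebraic closure of a countable field is countable). If `degreeOf 1 g ≠ 0` choose `t 0`
transcendental over `K₁`; `g (t 0, Y)` has positive degree and nonzero constant term (`g (X_0, 0) ≠ 0` as
`X 1 ∤ g`), so it has a root `t 1 ≠ 0`. If `degreeOf 1 g = 0`, `g` has a root `t 0 ≠ 0` and `t 1` may be any
number transcendental over `K₁`. Then `evC (S i) (c i) t = 0` and the same for `j`: contradiction to
`NoZ2`. -/
def StmtCop : Prop := ∀ (S : Fin 3 → Finset (Fin 2 → ℤ)) (c : Fin 3 → (Fin 2 → ℤ) → ℂ), Ind S c →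
  ∀ i j, i ≠ j → ∀ γ γ' : Fin 2 → ℤ, Corner (S i) γ → Corner (S j) γ' → (S i).Nonempty →
  (S j).Nonempty → IsRelPrime (hP (S i) (c i) γ) (hP (S j) (c j) γ')

/-- **IFT** common zeros near a binomial system. Proof. The map `Φ (c, c', t) = (c, c', ∑ c_r t^r,
∑ c'_r t^r)` on `(S₁ → ℂ) × (S₂ → ℂ) × ℂ²` (near `t = (1, 1)`) is strictly differentiable at
`(c⁰, c'⁰, (1,1))` with invertible derivative: the block of the last two components with respect to `t` is
`((p k - p' k)_k, (q k - q' k)_k)`, with determinant `≠ 0`. By `HasStrictFDerivAt.map_nhds_eq_of_surj` the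
image of a neighbourhood of the point (in which `t k ≠ 0`) is a neighbourhood of `(c⁰, c'⁰, 0, 0)`, so it
contains `(c, c', 0, 0)` for `c, c'` close to `c⁰, c'⁰`. -/
def StmtIFT : Prop := ∀ (S₁ S₂ : Finset (Fin 2 → ℤ)), ∀ p ∈ S₁, ∀ p' ∈ S₁, ∀ q ∈ S₂, ∀ q' ∈ S₂,
  (p 0 - p' 0) * (q 1 - q' 1) - (p 1 - p' 1) * (q 0 - q' 0) ≠ 0 → ∃ ε : ℝ, 0 < ε ∧
  ∀ c c' : (Fin 2 → ℤ) → ℂ,
    (∀ r ∈ S₁, ‖c r - (if r = p then 1 else if r = p' then -1 else 0)‖ < ε) →
    (∀ r ∈ S₂, ‖c' r - (if r = q then 1 else if r = q' then -1 else 0)‖ < ε) →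
    ∃ t : Fin 2 → ℂ, (∀ k, t k ≠ 0) ∧ evC S₁ c t = 0 ∧ evC S₂ c' t = 0

/-- **Dens** algebraically independent families are dense. Proof. There is an algebraically independent
family `y : ι → ℂ` (`ℂ` has infinite transcendence degree over `ℚ`, by cardinality). For a rational
`r ≠ 0` small, `x i = x₀ i + r y i` is algebraically independent (an affine substitution with rational
coefficients is an automorphism of the polynomial ring) and close to `x₀`. -/
def StmtDens : Prop := ∀ (ι : Type) (_ : Fintype ι) (x₀ : ι → ℤ) (ε : ℝ), 0 < ε →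
  ∃ x : ι → ℂ, AlgebraicIndependent ℚ x ∧ ∀ i, ‖x i - (x₀ i : ℂ)‖ < ε

/-- **Aut** automorphisms of `ℂ`. Proof. Extend `x` and `y` to transcendence bases of `ℂ` over `ℚ`
(`AlgebraicIndependent`: `exists_isTranscendenceBasis_superset`...); both have the cardinality of the
continuum, and so have the complements of the finite sets `range x`, `range y`; so there is a bijection of
the bases mapping `x i` to `y i`, and `IsAlgClosed.equivOfTranscendenceBasis` gives the automorphism. -/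
def StmtAut : Prop := ∀ (ι : Type) (_ : Fintype ι) (x y : ι → ℂ), AlgebraicIndependent ℚ x →
  AlgebraicIndependent ℚ y → ∃ σ : ℂ ≃+* ℂ, ∀ i, σ (x i) = y i

/-- **Zero** (uses `IFT`, `Dens`, `Aut`, `NoZ`) a common zero of two polynomials which is not a zero of
the third. Proof. The index type of all coefficients is `Σ i, {p // p ∈ S i}`. Let `x₀` be the binomial
system of `IFT` on the colours `i`, `j` and `0` on the third; `Dens` gives algebraically independent
coefficients `c'` close to `x₀`, `IFT` a common zero `t'` in the torus, `Aut` an automorphism `σ` with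
`σ c' = c`; `t = σ t'`. If the third polynomial vanishes at `t` too: contradiction to `NoZ` (`Ω = ℂ`,
`m = 2`). -/
def StmtZero : Prop := ∀ (S : Fin 3 → Finset (Fin 2 → ℤ)) (c : Fin 3 → (Fin 2 → ℤ) → ℂ), Ind S c →
  ∀ i j k, i ≠ j → i ≠ k → j ≠ k → (S k).Nonempty → ∀ p ∈ S i, ∀ p' ∈ S i, ∀ q ∈ S j, ∀ q' ∈ S j,
  (p 0 - p' 0) * (q 1 - q' 1) - (p 1 - p' 1) * (q 0 - q' 0) ≠ 0 →
  ∃ t : Fin 2 → ℂ, (∀ l, t l ≠ 0) ∧ evC (S i) (c i) t = 0 ∧ evC (S j) (c j) t = 0 ∧
    evC (S k) (c k) t ≠ 0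

/-- **Trick** Proof. `g h₁^a h₂^b = A h₁^(a+1) + B h₂^(b+1)`. `h₁^a` divides `B h₂^(b+1)` and is relatively
prime to `h₂^(b+1)` (UFD, `IsRelPrime.pow`), so `B = h₁^a B'`, `g h₂^b - A h₁ = B' h₂^(b+1)`,
`h₂^b (g - B' h₂) = A h₁`, `h₁ ∣ g - B' h₂` (relatively prime to `h₂^b`); evaluate. -/
def StmtTrick : Prop := ∀ (h₁ h₂ g : MvPolynomial (Fin 2) ℂ), IsRelPrime h₁ h₂ → h₁ ≠ 0 → h₂ ≠ 0 →
  ∀ t : Fin 2 → ℂ, eval t h₁ = 0 → eval t h₂ = 0 → ∀ a b : ℕ,
    g * h₁ ^ a * h₂ ^ b ∈ Ideal.span {h₁ ^ (a + 1), h₂ ^ (b + 1)} → eval t g = 0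

/-- **Sect** (uses `Cop`, `Zero`, `Trick`, `Clr`, `TClo`) the sectors. Proof. By `TClo` we may assume
`z i > 0`, `z j > 0` (limit). Suppose `z ∉ trop (Mx F)`; then there is `m₀` in the support of `F` with
`z · m₀ < z · m` for all other `m` in the support. If `m i ≤ m₀ i` and `m j ≤ m₀ j` then `z · m ≤ z · m₀`;
so for `m ≠ m₀`: `m i ≥ m₀ i + 1` or `m j ≥ m₀ j + 1`. Let `γ l` be the lower corner of `S l`,
`h l = hP (S l) (c l) (γ l)`, so `f_l (t) = t^(γ l) h_l (t)` on the torus. From `F (f (t)) = 0` we get (multiply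
by `(t 0 t 1)^N`, `N` large) `∑_m F_m X^(θ m) ∏ h_l^(m l) = 0` in the polynomial ring (it vanishes on the
torus), `θ m = ∑ m l • γ l + (N, N) ≥ 0`. So `g h_i^a h_j^b ∈ span {h_i^(a+1), h_j^(b+1)}` with
`a = m₀ i`, `b = m₀ j`, `g = F_(m₀) X^(θ m₀) h_k^(m₀ k)`. Let `t` be the point of `Zero` (`p, p'`, `q, q'` are
in `W ⊆ S`). `Cop` and `Trick` give `g (t) = 0`, but `F_(m₀) ≠ 0`, `t^θ ≠ 0`, `h_k (t) ≠ 0`. -/
def StmtSect : Prop := ∀ (S W : Fin 3 → Finset (Fin 2 → ℤ)) (c : Fin 3 → (Fin 2 → ℤ) → ℂ)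
  (F : MvPolynomial (Fin 3) ℂ), Sit S W c F → ∀ i j k, i ≠ j → i ≠ k → j ≠ k → ∀ p ∈ W i,
  ∀ p' ∈ W i, ∀ q ∈ W j, ∀ q' ∈ W j,
  (p 0 - p' 0) * (q 1 - q' 1) - (p 1 - p' 1) * (q 0 - q' 0) ≠ 0 →
  ∀ z : Sp, 0 ≤ z i → 0 ≤ z j → z k = 0 → z ∈ trop (Mx F)

/-- **TGam** (uses `TSub`, `Surf`, `Spoke`, `Sect`, `CLdef`) Proof of `⊇`. Let `z ∈ Gam`, witness `w`.
`w ≠ 0`: `w ∈ CL (A i)` for at most one `i` (`CLdef` (3)). If for none, `z = psi w`: `Surf`. If for `i`:
`z j = psi w` for `j ≠ i`, `z i ≥ psi w`: `Spoke`. `w = 0`: `z i ≥ 0`, `z i = 0` if `A i` has one element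
(`CL = ∅`), and some `z k = 0` (`z ∉ oct`); let `i, j` be the other two. If `W i`, `W j` have two elements:
`Sect` (`g2` gives the determinant, for any `p ≠ p'`, `q ≠ q'`). If `W i` has one element, `z i = 0`, `z` is
supported on `j` (for `j` the same): if `z j = 0` then `z = 0 = psi 0`: `Surf`. If `z j > 0` then `W j` has two
elements: if `W i` or `W k` has two elements use `Sect` for this pair, otherwise `Spoke` with `w = 0`. -/
def StmtTGam : Prop := ∀ (S W : Fin 3 → Finset (Fin 2 → ℤ)) (c : Fin 3 → (Fin 2 → ℤ) → ℂ)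
  (F : MvPolynomial (Fin 3) ℂ), Sit S W c F → Gen (fun i => rv (W i)) →
    trop (Mx F) = Gam fun i => rv (W i)

/-! ## Existence of the implicit equation -/

/-- **Indp** (uses `VF`, `Clr`) independence of two of the polynomials. Proof. Let `G ≠ 0` be without
`X_a`, `b, c` the other two indices, `G (f) = 0` over every field (torus points over `L`, `Clr` (2)). The set
`NC (rv (W b)) p ∩ NC (rv (W c)) q` is open and not empty. For `m ≠ m'` in the support of `G` the vector
`(m b - m' b) • p + (m c - m' c) • q` is not zero (`cr p q ≠ 0`), so there is an integral `w` in the set (a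
cone; rational points are dense, multiply) where these finitely many vectors have nonzero scalar product
with `w`. For a generic point `t` for `w`: `nm (f_b t) = exp (- dt p w)`, `nm (f_c t) = exp (- dt q w)` (as in
`Surf`), the terms of `G (f (t))` have different norms: the sum is not zero. -/
def StmtIndp : Prop := ∀ (S W : Fin 3 → Finset (Fin 2 → ℤ)) (c : Fin 3 → (Fin 2 → ℤ) → ℂ),
  Supp S W → (∀ i, ∀ p ∈ S i, c i p ≠ 0) → ∀ a b d : Fin 3, a ≠ b → a ≠ d → b ≠ d →
  ∀ p ∈ W b, ∀ q ∈ W d, (NC (rv (W b)) (toPl p) ∩ NC (rv (W d)) (toPl q)).Nonempty →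
  cr (toPl p) (toPl q) ≠ 0 → ∀ G : MvPolynomial (Fin 3) ℂ, G.degreeOf a = 0 →
  (∀ t : Fin 2 → ℂ, (∀ k, t k ≠ 0) → eval (fun i => evC (S i) (c i) t) G = 0) → G = 0

/-- **ExF** (uses `Clr`, `Alg3`) existence of the implicit equation. Proof. `Kf = FractionRing
(MvPolynomial (Fin 2) ℂ)`, `x i = evL (S i) (c i) T`, `T` the variables. The kernel of `aeval x` is prime and
not zero (three elements of a field of transcendence degree two). Let `F` be an irreducible element of the
kernel (a factor of a nonzero element). `degreeOf a F ≠ 0`, otherwise `F` vanishes on the torus (`Clr` (3))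
and is zero by hypothesis. `Alg3`: `aeval x G = 0` iff `F ∣ G`; and `aeval x G = 0` iff `G` vanishes on the
torus (`Clr` (2), (3)). -/
def StmtExF : Prop := ∀ (S : Fin 3 → Finset (Fin 2 → ℤ)) (c : Fin 3 → (Fin 2 → ℤ) → ℂ) (a : Fin 3),
  (∀ G : MvPolynomial (Fin 3) ℂ, G.degreeOf a = 0 →
    (∀ t : Fin 2 → ℂ, (∀ k, t k ≠ 0) → eval (fun i => evC (S i) (c i) t) G = 0) → G = 0) →
  ∃ F, Imp S c F

/-- **ExSit** (uses `Indp`, `ExF`, `Dens`) existence of the situation, with given supports. Proof. `Dens`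
gives algebraically independent coefficients. In general position there are `p ∈ W 1`, `q ∈ W 2` whose
normal cones meet (take `w ∈ NC (rv (W 1)) p`, an open set; `CL (rv (W 2))` is contained in finitely many
lines, so some `w'` near `w` is not in it), `cr p q ≠ 0` by `g1`. `Indp` with `a = 0`, then `ExF`. -/
def StmtExSit : Prop := ∀ S W : Fin 3 → Finset (Fin 2 → ℤ), Supp S W → Gen (fun i => rv (W i)) →
  (∀ c, Ind S c → ∃ F, Sit S W c F) ∧ ∃ c, Ind S c

/-! ## Perturbation -/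

/-- general position in terms of labels -/
structure GenL (W : Fin 3 → Finset (Fin 2 → ℤ)) (x : Fin 3 → (Fin 2 → ℤ) → Pl) : Prop where
  h1 : ∀ i j, ∀ p ∈ W i, ∀ q ∈ W j, (i ≠ j ∨ p ≠ q) → cr (x i p) (x j q) ≠ 0
  h2 : ∀ i j, i ≠ j → ∀ p ∈ W i, ∀ p' ∈ W i, p ≠ p' → ∀ q ∈ W j, ∀ q' ∈ W j, q ≠ q' →
    cr (x i p - x i p') (x j q - x j q') ≠ 0
  h3 : ∀ i j, i ≠ j → ∀ p ∈ W i, ∀ p' ∈ W i, p ≠ p' → ∀ q ∈ W j, cr (x i p - x i p') (x j q) ≠ 0
  h4 : ∀ a b : Fin 3 → Fin 2 → ℤ, (∀ i, a i ∈ W i) → (∀ i, b i ∈ W i) → a ≠ b →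
    ∃ i j, nrm (fun l => x l (a l)) i * nrm (fun l => x l (b l)) j ≠
      nrm (fun l => x l (a l)) j * nrm (fun l => x l (b l)) i
  h7 : ∀ i j k, i ≠ j → i ≠ k → j ≠ k → ∀ p ∈ W i, ∀ p' ∈ W i, p ≠ p' → ∀ q ∈ W i, ∀ q' ∈ W i,
    q ≠ q' → ∀ s ∈ W j, ∀ s' ∈ W j, ∀ r ∈ W k, ∀ r' ∈ W k,
    cr (x i p - x i p') (x j s) * cr (x i q - x i q') (x k r') =
      cr (x i p - x i p') (x k r) * cr (x i q - x i q') (x j s') →
      s = s' ∧ r = r' ∧ ((p = q ∧ p' = q') ∨ (p = q' ∧ p' = q))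

/-- **Poly** generic integral labels exist. Proof. Every condition says that a polynomial with integral
coefficients in the `2 N` coordinates of the labels is not zero (for `h4` the sum of the squares of the
three differences; for `h7` one polynomial for every choice which does not satisfy the conclusion). It is
enough that each of these finitely many polynomials is not the zero polynomial: then the product is not
zero, and has a nonzero value at an integral point (`MvPolynomial.funext` over `ℤ`). Each is nonzero at a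
suitable point: `h1`: labels `(1,0)`, `(0,1)`. `h2`: `x i p = (1,0)`, `x j q = (0,1)`, others `0`; `h3` the
same. `h4`: let `a i ≠ b i`; all labels of colour `i + 1` are `(1,0)`, of colour `i + 2` `(0,1)`, the label
`a i` is `0`, `b i` is `(1,0)`: then `nrm a i * nrm b (i+1) - nrm a (i+1) * nrm b i = cr y_(i+1) y_(i+2) *
cr y_(i+2) (x b - x a) ≠ 0`. `h7`: if `{p, p'} ≠ {q, q'}` put the labels of colour `j` to `(1,0)`, of colour `k`
to `(0,1)`; the difference becomes `cr (d, d')` up to sign, `d = x p - x p'`, `d' = x q - x q'`; choose an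
element of `{p,p'}` not in `{q,q'}` and give it `(1,0)`, an element of `{q,q'}` not in `{p,p'}` and give it
`(0,1)`, all others of colour `i` are `0`. If `{p,p'} = {q,q'}`, `x p = (1,0)`, `x p' = 0`: the difference is
`± (s_2 r'_2 - r_2 s'_2)` (second coordinates); if `s ≠ s'`: `s_2 = 1`, `s'_2 = 0`, `r_2 = r'_2 = 1`; if
`s = s'`, `r ≠ r'`: `s_2 = 1`, `r'_2 = 1`, `r_2 = 0`. (Alternatively choose `δ` by a quick growth argument.) -/
def StmtPoly : Prop := ∀ W : Fin 3 → Finset (Fin 2 → ℤ),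
  ∃ δ : Fin 3 → (Fin 2 → ℤ) → Fin 2 → ℤ, GenL W fun i p => toPl (δ i p)

/-- **PGen** dilated and perturbed polygons are in general position. Proof. The points of
`rv (pert (W i) (δ i) n)` are `n • toPl p + toPl (δ i p)`, `p ∈ W i`. Every expression in `Gen` (for labels)
is a real polynomial in `n` whose value at `n = 0` is the expression for `δ`, which is not zero, so it is
not zero for `n` large; finitely many conditions (for `g4` take the pair `(i, j)` which works for
`n = 0`). Convex position: if `w ∈ NC (rv (W i)) (toPl p)` then `dt (n q + δ q - n p - δ p) w =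
n dt (q - p) w + dt (δ q - δ p) w > 0` for `n` large; this also shows that `p ↦ n p + δ p` is injective on
`W i`. -/
def StmtPGen : Prop := ∀ (W : Fin 3 → Finset (Fin 2 → ℤ)) (δ : Fin 3 → (Fin 2 → ℤ) → Fin 2 → ℤ),
  (∀ i, CP (W i)) → GenL W (fun i p => toPl (δ i p)) → ∃ N₀ : ℕ, ∀ n, N₀ ≤ n →
    Gen (fun i => rv (pert (W i) (δ i) n)) ∧ (∀ i, CP (pert (W i) (δ i) n)) ∧
    ∀ i, (pert (W i) (δ i) n).card = (W i).card

/-- **Planes** (uses `CLdef`) the surface lies in a bounded number of planes. Proof. The normal vectors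
(to be normalized): `nrm p` for all `p` with `p i ∈ A i` (not zero by `g1`); for `i`, `j = i + 1`, `k = i + 2`,
`p ≠ p'` in `A i`, `s ∈ A j`, `r ∈ A k` the vector with `i`-th coordinate `0`, `j`-th `cr (p - p') r`, `k`-th
`- cr (p - p') s` (not zero by `g3`); the unit vectors. Their number is bounded in terms of `v` (enumerate
them, with repetitions, by `Fin K`). Let `z ∈ Gam`, witness `w`. `w = 0`: `z ≥ 0` and `z ∉ oct`, so some
`z k = 0`. `w ≠ 0`, `w ∈ CL (A i)`: `w = a (- d.2, d.1)`, `d = p - p'`, and `z j = dt s w = a cr d s`,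
`z k = dt r w = a cr d r`. `w` in no `CL`: `z i = dt (p i) w`, and `nrm p ⬝ᵥ z = 0` (identity). -/
def StmtPlanes : Prop := ∀ v : Fin 3 → ℕ, ∃ K : ℕ, ∀ A : Fin 3 → Finset Pl, Gen A →
  (∀ i, (A i).card = v i) → ∃ ν : Fin K → Sp, (∀ κ, ‖ν κ‖ = 1) ∧ ∀ z ∈ Gam A, ∃ κ, ν κ ⬝ᵥ z = 0

/-- **Avoid** rational points outside finitely many planes. Proof. Each `{z | ν κ ⬝ᵥ z ≠ 0}` is open and
dense, so the intersection with `U` is open and not empty, and contains a rational point. -/
def StmtAvoid : Prop := ∀ (U : Set Sp), IsOpen U → U.Nonempty → ∀ (K : ℕ) (ν : Fin K → Sp),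
  (∀ κ, ν κ ≠ 0) → ∃ z : Fin 3 → ℚ, (fun i => (z i : ℝ)) ∈ U ∧ ∀ κ, ν κ ⬝ᵥ (fun i => (z i : ℝ)) ≠ 0

/-- **Appr** points of the surface are limits. Proof. `B n i = rv (pert (W i) (δ i) n)`,
`psi (B n i) (n⁻¹ • w) = min_p (dt (toPl p) w + n⁻¹ dt (toPl (δ i p)) w) → psi (A i) w`. Let `y ∈ GamR A`,
witness `w`. `w = 0`: `y` itself is in `Gam (B n)` (`0 ∈ CL` iff at least two elements; `psi 0 = 0`; `pert` is
injective for large `n`, or: if `A i` has one element so has `B n i`, and if `A i` has two elements then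
`B n i` has two for large `n`). `w ≠ 0`, `y i = psi (A i) w` for all `i`: `y' i = psi (B n i) (n⁻¹ w)`. `w ≠ 0`
and exactly one `i` with `psi (A i) w < y i`: `w ∈ CL (A i)`, let `p ≠ q` in `W i` be minimal at `w`; no third
point of `W i` is minimal at `w` (three points of `rv (W i)` on a line `dt _ w = const`, one of them is
between the other two and has an empty normal cone). `w = c • J (p - q)`, `J (x, y) = (-y, x)`, `c` real; put
`w_n = c • J (p_n - q_n)`, `p_n = p + n⁻¹ δ p`, `w_n → w`; for large `n` the points `p_n, q_n` are the minimal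
ones of `n⁻¹ B n i` at `w_n`, so `w_n ∈ CL (B n i)`. `y' j = psi (B n j) (n⁻¹ w_n)` for `j ≠ i`,
`y' i = psi (B n i) (n⁻¹ w_n) + (y i - psi (A i) w)`. -/
def StmtAppr : Prop := ∀ (W : Fin 3 → Finset (Fin 2 → ℤ)) (δ : Fin 3 → (Fin 2 → ℤ) → Fin 2 → ℤ),
  (∀ i, CP (W i)) → ∀ y ∈ GamR (fun i => rv (W i)), ∀ ε : ℝ, 0 < ε → ∃ N₀ : ℕ, ∀ n, N₀ ≤ n →
    ∃ y' ∈ Gam (fun i => rv (pert (W i) (δ i) n)), ‖y' - y‖ < ε

/-- **Cross** the segment between two regions meets the tropical hypersurface, in a rational point.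
Proof. Let `g t = min_{m ∈ M} m ⬝ᵥ (x + t (y - x))`, `t ∈ [0, 1]`; let `t₀` be the supremum of the `t` for
which `a` is minimal (`a ⬝ᵥ (x + t (y - x)) ≤ m ⬝ᵥ ..` for all `m ∈ M`); this set is an interval `[0, t₀]`,
`t₀ < 1`, and `t₀ = min` over `m` with `(a - m) ⬝ᵥ (y - x) > 0` of the rational number
`(m - a) ⬝ᵥ x / (a - m) ⬝ᵥ (y - x)`; at `t₀` `a` and some other `m` are minimal. -/
def StmtCross : Prop := ∀ (M : Finset Sp), (∀ m ∈ M, ∃ k : Fin 3 → ℤ, m = fun i => (k i : ℝ)) →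
  ∀ a ∈ M, ∀ b ∈ M, a ≠ b → ∀ x y : Fin 3 → ℚ,
  (∀ m ∈ M, m ≠ a → a ⬝ᵥ (fun i => (x i : ℝ)) < m ⬝ᵥ fun i => (x i : ℝ)) →
  (∀ m ∈ M, m ≠ b → b ⬝ᵥ (fun i => (y i : ℝ)) < m ⬝ᵥ fun i => (y i : ℝ)) →
  ∃ t : ℚ, 0 ≤ t ∧ t ≤ 1 ∧ (fun i => ((x i + t * (y i - x i) : ℚ) : ℝ)) ∈ trop M

/-- **Vert** (part of the proof of `TropR`) extreme points and cones: the number of extreme points of the
hull is the number of `a ∈ M` for which `{z | ∀ m ∈ M, m ≠ a → a ⬝ᵥ z < m ⬝ᵥ z}` is not empty. -/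
def StmtVert : Prop := ∀ M : Finset Sp,
  nv M = n1 M fun a => {z : Sp | ∀ m ∈ M, m ≠ a → a ⬝ᵥ z < m ⬝ᵥ z}

/-- **Pert** (uses `Planes`, `Avoid`, `Appr`, `Cross`, `Vert`, `TClo`) the number of vertices does not
decrease under perturbation. Proof. Let `C a`, `a ∈ M`, be the open cones of `Vert`, `R = nv M` of them are
nonempty. By `Planes` (with `v i = (W i).card`) the surfaces `Gam (A n)`, `n ≥ N₀`, lie in `K` planes with
unit normals `ν n κ`; by compactness (`(sphere)^K`, `IsCompact.tendsto_subseq`) there is a subsequence along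
which `ν n κ → ν κ`, `‖ν κ‖ = 1`. Choose rational `z a ∈ C a` (for the nonempty ones) with `ν κ ⬝ᵥ z a ≠ 0`
for all `κ` (`Avoid`). There is `r > 0` such that along the subsequence, for large `n`, `ν n κ ⬝ᵥ z ≠ 0` for
`‖z - z a‖ < r`, so the ball `B a` of radius `r` around `z a` does not meet `Gam (A n) = trop (M n)`; the ball is
connected and covered by the disjoint open cones of `M n`, so it is in one cone `C_n (u a)`, `u a ∈ M n`.
Claim: for large `n` of the subsequence `a ↦ u a` is injective, so `R ≤ nv (M n) ≤ B` (`Vert`). Let `a ≠ b`.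
By `Cross` the segment from `z a` to `z b` contains a rational point `y ∈ trop M`; a multiple `N y` is
integral and in `trop M` (`TClo`), so in `GamR`, and so `y ∈ GamR` (scaling). By `Appr` there is, for `n`
large, `y' ∈ Gam (A n) = trop (M n)` with `‖y' - y‖ < r`. If `u a = u b` the convex cone `C_n (u a)` contains
both balls, so it contains `y'` (`y = (1-t) z a + t z b`, `y' = (1-t) (z a + (y' - y)) + t (z b + (y' - y))`),
but a point of the cone is not in `trop (M n)`. -/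
def StmtPert : Prop := ∀ (W : Fin 3 → Finset (Fin 2 → ℤ)) (δ : Fin 3 → (Fin 2 → ℤ) → Fin 2 → ℤ)
  (M : Finset Sp) (N₀ B : ℕ), (∀ i, CP (W i)) → M.Nonempty →
  (∀ m ∈ M, ∃ k : Fin 3 → ℤ, m = fun i => (k i : ℝ)) →
  (∀ k : Fin 3 → ℤ, (fun i => (k i : ℝ)) ∈ trop M → (fun i => (k i : ℝ)) ∈ GamR fun i => rv (W i)) →
  (∀ n, N₀ ≤ n → Gen (fun i => rv (pert (W i) (δ i) n)) ∧
    (∀ i, (pert (W i) (δ i) n).card = (W i).card) ∧
    ∃ M' : Finset Sp, M'.Nonempty ∧ trop M' = Gam (fun i => rv (pert (W i) (δ i) n)) ∧ nv M' ≤ B) →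
  nv M ≤ B

/-- **UpAll** (uses `Upper`, `TGam`, `ExSit`, `Poly`, `PGen`, `ValZ`, `Pert`) the upper bound for all
lattice polygons. Proof. `Pert` with `M = Mx F` (integral, nonempty), `B = VV`, `δ` from `Poly`, `N₀` from
`PGen`; for `n ≥ N₀` `ExSit` (with `S = W = pert ..`) gives a situation with exponents `M'`, `TGam`
`trop M' = Gam`, `Upper` the bound. -/
def StmtUpAll : Prop := ∀ (S W : Fin 3 → Finset (Fin 2 → ℤ)) (c : Fin 3 → (Fin 2 → ℤ) → ℂ)
  (F : MvPolynomial (Fin 3) ℂ), Sit S W c F → nv (Mx F) ≤ VV fun i => (W i).card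

/-- **LowW** (helper60) the family for the lower bound. -/
def StmtLowW : Prop := ∀ v : Fin 3 → ℕ, (∀ i, 1 ≤ v i) → ∃ W : Fin 3 → Finset (Fin 2 → ℤ),
  (∀ i, CP (W i)) ∧ (∀ i, (W i).card = v i) ∧
  (∀ i j, i ≠ j → ∀ p ∈ W i, ∀ q ∈ W j, cr (toPl p) (toPl q) ≠ 0) ∧
  (∀ i j, i ≠ j → (W i).card ≠ 1 → (W j).card ≠ 1 → ∃ p ∈ W i, ∃ p' ∈ W i, ∃ q ∈ W j, ∃ q' ∈ W j,
    (p 0 - p' 0) * (q 1 - q' 1) - (p 1 - p' 1) * (q 0 - q' 0) ≠ 0) ∧
  ∀ M : Finset Sp, (∀ w : Pl, (fun i => psi (rv (W i)) w) ∈ trop M) →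
    (∀ (i : Fin 3) (w : Pl), w ∈ CL (rv (W i)) → (∀ j, j ≠ i → w ∉ CL (rv (W j))) → ∀ l : ℝ, 0 ≤ l →
      (fun j => psi (rv (W j)) w + if j = i then l else 0) ∈ trop M) →
    (∀ i j k, i ≠ j → i ≠ k → j ≠ k → (W i).card ≠ 1 → (W j).card ≠ 1 →
      ∀ z : Sp, 0 ≤ z i → 0 ≤ z j → z k = 0 → z ∈ trop M) → VV v ≤ nv M

end Pool.Agent.Lib.MP_4e7804_co.N3
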