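import Pool.Agent.Lib.MP_4e7804_co.N3.Spec2
import Pool.Agent.Lib.MP_4e7804_co.Defs

/-!
# n = 3, third block: bridge to the definitions, final theorem

Same conventions as in `Spec.lean`; the files import `Pool.Agent.Lib.MP_4e7804_co.N3.Spec3`.
-/

set_option autoImplicit false

namespace Pool.Agent.Lib.MP_4e7804_co.N3

open MvPolynomial

/-- **LatP** lattice polygons. Proof. `P = convexHull ℝ (toReal '' A)`. Let `E` be the set of the extreme
points of `P`; `E ⊆ toReal '' A` (`extremePoints_convexHull_subset`), `W = {a ∈ A | toReal a ∈ E}`, so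
`toReal '' W = E` and `W.card = numVertices P` (`toReal` is injective). `P` is compact, convex and
`P = closure (convexHull ℝ E) = convexHull ℝ E` (`closure_convexHull_extremePoints`,
`Set.Finite.isClosed_convexHull`); `P` is not empty, so `E` is not empty. `S` = the finite set of all
lattice points (the module `Lo/Hull.lean` has `latticePoints_hull_finite`, or: bounded). The linear
isomorphism `e : (Fin 2 → ℝ) → ℝ × ℝ`, `x ↦ (x 0, x 1)` maps `toReal p` to `toPl p` and hulls to hulls, so
`toPl p ∈ convexHull ℝ (rv W)` for `p ∈ S`. `CP W`: let `p ∈ W`; `toPl p` is an extreme point of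
`convexHull ℝ (rv W)`, so it is not in `convexHull ℝ (rv W \ {toPl p})` (`convexHull` of the complement
of an extreme point: `Convex.mem_extremePoints_iff_mem_diff_convexHull_diff` or
`extremePoints` of a convex set), a compact convex set; `geometric_hahn_banach_point_compact`-type
theorems give a continuous linear form `f` with `f (toPl p) < f x` on this set; `f x = dt x w` for
`w = (f (1, 0), f (0, 1))`, so `w ∈ NC (rv W) (toPl p)`. -/
def StmtLatP : Prop := ∀ P : Set (Fin 2 → ℝ), IsLatticePolytope P →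
  ∃ W S : Finset (Fin 2 → ℤ), CP W ∧ W ⊆ S ∧ (∀ p, p ∈ S ↔ p ∈ latticePoints P) ∧
    (∀ p ∈ S, toPl p ∈ convexHull ℝ (rv W : Set Pl)) ∧ W.card = numVertices P

/-- **LatW** the converse. Proof. `S` and the hull condition as in `LatP`. Every point of `W` is an
extreme point: let `w ∈ NC (rv W) (toPl p)`; the linear form `x ↦ dt x w` has its minimum on the hull only
at `toPl p` (`toPl p` is an exposed point, `IsExposed`, or directly: if `toPl p` is a proper convex
combination of `x, y` in the hull then `dt x w = dt y w = dt (toPl p) w`, and `dt · w > dt (toPl p) w` at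
every point of the hull different from `toPl p`, since it is a convex combination of points of `rv W` not
concentrated in `toPl p`). The extreme points are contained in `toReal '' W`. -/
def StmtLatW : Prop := ∀ W : Finset (Fin 2 → ℤ), CP W →
  IsLatticePolytope (convexHull ℝ (toReal '' (W : Set (Fin 2 → ℤ)))) ∧
  numVertices (convexHull ℝ (toReal '' (W : Set (Fin 2 → ℤ)))) = W.card ∧
  ∃ S : Finset (Fin 2 → ℤ), W ⊆ S ∧
    (∀ p, p ∈ S ↔ p ∈ latticePoints (convexHull ℝ (toReal '' (W : Set (Fin 2 → ℤ))))) ∧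
    ∀ p ∈ S, toPl p ∈ convexHull ℝ (rv W : Set Pl)

/-- **GenI** genericity. Proof. Reindexing along the equivalence of the two sigma types
(`AlgebraicIndependent` of a composition with an equivalence: `algebraicIndependent_equiv`). -/
def StmtGenI : Prop := ∀ (P : Fin 3 → Set (Fin 2 → ℝ)) (S : Fin 3 → Finset (Fin 2 → ℤ))
  (c : Fin 3 → (Fin 2 → ℤ) → ℂ), (∀ i p, p ∈ S i ↔ p ∈ latticePoints (P i)) →
    (IsGeneric P c ↔ Ind S c)

/-- **ImpI** the implicit equation. Proof. (1) For `t : Fin 2 → ℂˣ`:
`evalAt P c t i = evC (S i) (c i) (fun k => (t k : ℂ))` (`finsum_mem_eq_finite_toFinset_sum` or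
`finsum_mem_eq_of_bijOn`.., `Fin.prod_univ_two`, `Units.val_zpow_eq_zpow_val`), so `G` vanishes on the
range of `evalAt P c` iff it vanishes at all `evC (..) t` with `t k ≠ 0`. (2) Let `IsImplicitEq P c F`. `F`
vanishes on the range, since the range is contained in `zeroLocus (vanishingIdeal range) =
zeroLocus (span {F})`. If `G` vanishes on the range then `G ∈ vanishingIdeal range`, so `G` vanishes on
`zeroLocus (vanishingIdeal range) = zeroLocus (span {F})`, so `G` is in the radical of `span {F}`
(`MvPolynomial.vanishingIdeal_zeroLocus_eq_radical`), which is `span {F}` (`F` is prime in a UFD). (3) If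
`Imp S c F` then `vanishingIdeal range = span {F}` as sets by (1). -/
def StmtImpI : Prop := ∀ (P : Fin 3 → Set (Fin 2 → ℝ)) (S : Fin 3 → Finset (Fin 2 → ℤ))
  (c : Fin 3 → (Fin 2 → ℤ) → ℂ) (F : MvPolynomial (Fin 3) ℂ),
  (∀ i p, p ∈ S i ↔ p ∈ latticePoints (P i)) → (IsImplicitEq P c F ↔ Imp S c F)

/-- **NvI** Proof: `Finset.coe_image`. -/
def StmtNvI : Prop := ∀ F : MvPolynomial (Fin 3) ℂ, numVertices (newton F) = nv (Mx F)

/-- **Meet** some normal cones meet. Proof. Let `p ∈ A`, `U = NC A p` (open, not empty). `CL B` is contained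
in the union of the sets `{w | dt q w = dt q' w}`, `q ≠ q'` in `B`, which are closed with empty interior
(lines), finitely many; so some `w ∈ U` is not in `CL B` (`mem_CL_or`). -/
def StmtMeet : Prop := ∀ A B : Finset Pl, A.Nonempty → (∀ p ∈ A, (NC A p).Nonempty) → B.Nonempty →
  ∃ p ∈ A, ∃ q ∈ B, (NC A p ∩ NC B q).Nonempty

/-- **LowF** (uses `LowW`, `Meet`, `Dens`, `Indp`, `ExF`, `Surf`, `Spoke`, `Sect`) the lower bound.
Proof. `W` of `LowW`. Let `Supp S W`. `Dens` (with `x₀ = 0`, `ε = 1`) gives algebraically independent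
coefficients, so `Ind S c`, and `c i p ≠ 0` for `p ∈ S i`. `Meet` gives `p ∈ W 1`, `q ∈ W 2` whose normal
cones meet, `cr ≠ 0` by `LowW`. `Indp` with `a = 0`, `b = 1`, `d = 2` and `ExF` with `a = 0` give `F`. The
last part of `LowW` with `M = Mx F`: `Surf`, `Spoke`, `Sect`. -/
def StmtLowF : Prop := ∀ v : Fin 3 → ℕ, (∀ i, 1 ≤ v i) → ∃ W : Fin 3 → Finset (Fin 2 → ℤ),
  (∀ i, CP (W i)) ∧ (∀ i, (W i).card = v i) ∧
  ∀ S : Fin 3 → Finset (Fin 2 → ℤ), Supp S W → ∃ c F, Sit S W c F ∧ VV v ≤ nv (Mx F)

/-- **Fin3** (uses `UpAll`, `LowF`, `LatP`, `LatW`, `GenI`, `ImpI`, `NvI`) the final theorem. Proof. Upper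
bound: let `P, c, F` be given; `LatP` gives `W i`, `S i`, so `Sit S W c F` by `GenI`, `ImpI`, and
`(W i).card = v i`; `UpAll` and `NvI`. Lower bound: `W` of `LowF`, `P i` the hull of `W i`, `S i` of `LatW`;
`c, F` of `LowF`; `N = numVertices (newton F)` is a vertex number and `VV v ≤ N ≤ VV v`. -/
def StmtFin3 : Prop := ∀ v : Fin 3 → ℕ, (∀ i, 1 ≤ v i) →
  IsGreatest {N | IsVertexNumber (d := 2) v N} (VV v)

end Pool.Agent.Lib.MP_4e7804_co.N3
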