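import Pool.Agent.Lib.MP_4e7804_co.N3.Spec2

/-!
# n = 3: integral points of the tropical hypersurface
-/

set_option autoImplicit false

namespace Pool.Agent.Lib.MP_4e7804_co.N3

open MvPolynomial

theorem tValZ (hVF : StmtVF) (hPoint : StmtPoint) (hLift : StmtLift) (hVal : StmtVal)
    (hRes : StmtRes) : StmtValZ := by
  intro S W c F hS k hk
  obtain ⟨L, iF, iA, iC, v, hgen⟩ := hVF
  have hF0 : F ≠ 0 := hS.imp.1.ne_zero
  obtain ⟨a, x, hx, hxF, ha, hG⟩ := hPoint L iF iA iC v hgen F k hF0 hk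
  obtain ⟨t, ht, hev⟩ := hLift S c F hS.imp L iF iA iC x a hxF ha hG
  have hcne : ∀ i, ∀ p ∈ S i, c i p ≠ 0 := by
    intro i p hp
    exact AlgebraicIndependent.ne_zero hS.ind ⟨i, p, hp⟩
  have hlog : ∀ i, -Real.log (v.nm (evL (S i) (c i) t)) = (k i : ℝ) := by
    intro i
    rw [hev i, hx i, Real.log_exp, neg_neg]
  have hne : ∀ i, evL (S i) (c i) t ≠ 0 := by
    intro i h0
    have h1 := hx i
    rw [← hev i, (v.eq_zero _).2 h0] at h1
    exact (Real.exp_pos _).ne h1
  have hV := fun i => hVal L iF iA v (S i) (W i) (c i) (hS.supp.cp i) (hS.supp.sub i)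
    (hS.supp.hull i) (hcne i) t ht
  obtain ⟨hR1, hR2⟩ := hRes L iF iA v S W c hS.supp hS.ind t ht hne
  refine ⟨wt v t, ?_, ?_, ?_⟩
  · intro i
    obtain ⟨h1, h2, -⟩ := hV i
    rw [hev i, hx i] at h1 h2
    refine ⟨?_, ?_⟩
    · have := Real.exp_le_exp.1 h1
      show psi (rv (W i)) (wt v t) ≤ (k i : ℝ)
      linarith
    · by_cases hw : wt v t ∈ CL (rv (W i))
      · exact Or.inl hw
      · right
        have := Real.exp_injective (h2 hw)
        show (k i : ℝ) = psi (rv (W i)) (wt v t)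
        linarith
  · rintro ⟨hw, hz⟩
    refine hR1 ⟨hw, fun i => ?_⟩
    rw [hlog i]
    exact hz i
  · intro hw i j hi hj
    refine hR2 hw i j ?_ ?_
    · rw [hlog i]
      exact hi
    · rw [hlog j]
      exact hj

end Pool.Agent.Lib.MP_4e7804_co.N3
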