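import Pool.Agent.Lib.MP_4e7804_co.N3.Spec2

/-!
# n = 3: a common zero of two of the polynomials which is not a zero of the third
-/

set_option autoImplicit false

namespace Pool.Agent.Lib.MP_4e7804_co.N3.ZeroN

/-- the coefficient function of one colour -/
noncomputable def cf (S : Fin 3 → Finset (Fin 2 → ℤ)) (c' : (Σ i : Fin 3, {p // p ∈ S i}) → ℂ)
    (i : Fin 3) (r : Fin 2 → ℤ) : ℂ := by
  classical
  exact if h : r ∈ S i then c' ⟨i, ⟨r, h⟩⟩ else 0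

theorem cf_mem {S : Fin 3 → Finset (Fin 2 → ℤ)} {c' : (Σ i : Fin 3, {p // p ∈ S i}) → ℂ}
    {i : Fin 3} {r : Fin 2 → ℤ} (h : r ∈ S i) : cf S c' i r = c' ⟨i, ⟨r, h⟩⟩ := by
  simp [cf, h]

theorem ev_map {S : Fin 3 → Finset (Fin 2 → ℤ)} {c : Fin 3 → (Fin 2 → ℤ) → ℂ}
    {c' : (Σ i : Fin 3, {p // p ∈ S i}) → ℂ} (σ : ℂ ≃+* ℂ)
    (hσ : ∀ x : (Σ i : Fin 3, {p // p ∈ S i}), σ (c' x) = c x.1 x.2.1) (i : Fin 3)
    (t : Fin 2 → ℂ) : evC (S i) (c i) (fun l => σ (t l)) = σ (evC (S i) (cf S c' i) t) := by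
  unfold evC
  rw [map_sum]
  refine Finset.sum_congr rfl fun r hr => ?_
  rw [map_mul, map_mul, map_zpow₀, map_zpow₀, cf_mem hr, hσ ⟨i, ⟨r, hr⟩⟩]

theorem cover {i j k : Fin 3} (hij : i ≠ j) (hik : i ≠ k) (hjk : j ≠ k) (l : Fin 3) :
    l = i ∨ l = j ∨ l = k := by
  revert i j k l
  decide

end Pool.Agent.Lib.MP_4e7804_co.N3.ZeroN

open Pool.Agent.Lib.MP_4e7804_co.N3 Pool.Agent.Lib.MP_4e7804_co.N3.ZeroN in
theorem Pool.Agent.Lib.MP_4e7804_co.N3.tZero (h1 : StmtIFT) (h2 : StmtDens) (h3 : StmtAut)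
    (h4 : StmtNoZ) : StmtZero := by
  classical
  intro S c hc i j k hij hik hjk hk p hp p' hp' q hq q' hq' hdet
  obtain ⟨ε, hε, hI⟩ := h1 (S i) (S j) p hp p' hp' q hq q' hq' hdet
  obtain ⟨c', hc', hcl⟩ := h2 (Σ i : Fin 3, {p // p ∈ S i}) inferInstance
    (fun x => if x.1 = i then (if x.2.1 = p then 1 else if x.2.1 = p' then -1 else 0)
      else if x.1 = j then (if x.2.1 = q then 1 else if x.2.1 = q' then -1 else 0) else 0) ε hε
  obtain ⟨t, ht, hti, htj⟩ := hI (cf S c' i) (cf S c' j)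
    (by
      intro r hr
      have h := hcl ⟨i, ⟨r, hr⟩⟩
      rw [cf_mem hr]
      simpa using h)
    (by
      intro r hr
      have h := hcl ⟨j, ⟨r, hr⟩⟩
      rw [cf_mem hr]
      simpa [hij.symm] using h)
  obtain ⟨σ, hσ⟩ := h3 (Σ i : Fin 3, {p // p ∈ S i}) inferInstance c' (fun x => c x.1 x.2.1)
    hc' hc
  have ei : evC (S i) (c i) (fun l => σ (t l)) = 0 := by rw [ev_map σ hσ, hti, map_zero]
  have ej : evC (S j) (c j) (fun l => σ (t l)) = 0 := by rw [ev_map σ hσ, htj, map_zero]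
  have h0 : ∀ l, σ (t l) ≠ 0 := fun l => by simpa using ht l
  refine ⟨fun l => σ (t l), h0, ei, ej, ?_⟩
  intro ek
  refine h4 S c hc ℂ inferInstance inferInstance inferInstance 2 (fun l => σ (t l)) Finset.univ
    (by simp) (fun _ r => σ (t 0) ^ r 0 * σ (t 1) ^ r 1) ?_ S ?_ ?_
  · intro _ r
    refine ⟨?_, mul_ne_zero (zpow_ne_zero _ (h0 0)) (zpow_ne_zero _ (h0 1))⟩
    exact mul_mem (zpow_mem (IntermediateField.subset_adjoin ℚ _ (Set.mem_range_self 0)) _)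
      (zpow_mem (IntermediateField.subset_adjoin ℚ _ (Set.mem_range_self 1)) _)
  · intro l _
    refine ⟨?_, subset_rfl⟩
    rcases cover hij hik hjk l with rfl | rfl | rfl
    · exact ⟨p, hp⟩
    · exact ⟨q, hq⟩
    · exact hk
  · intro l _
    rcases cover hij hik hjk l with rfl | rfl | rfl
    · simpa [evC] using ei
    · simpa [evC] using ej
    · simpa [evC] using ek
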